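import Pool.Agent.Lib.MP_17a322_nt.FQ.H1

universe u v

namespace Pool.Agent.Lib.MP_17a322_nt.FQ

variable {k : Type v} {E : Type u} [Field k] [Field E] [Algebra k E] {κ κ' : Type} [Fintype κ]
  [Fintype κ']

/-- The maximum of the values is positive. -/
private theorem H2_pos (m : κ → E) (hm : m ≠ 0) (A : VQ k E) : 0 < nm k m A :=
  zero_lt_iff.2 (nm_ne m hm A)

/-- The norm for the zero family. -/
private theorem H2_zero (A : VQ k E) (v : Derivation k E E) : mn (0 : κ → E) A v = 0 := by
  have h1 : nm k (0 : κ → E) A = 0 := by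
    refine le_antisymm (nm_le _ _ _ fun a => ?_) zero_le'
    rw [Pi.zero_apply, map_zero]
  show nm k (fun p => ps (0 : κ → E) p v) A / nm k (0 : κ → E) A ^ 2 = 0
  rw [h1, zero_pow two_ne_zero, div_zero]

/-- Bounds of the norm. -/
private theorem H2_le_iff (m : κ → E) (hm : m ≠ 0) (A : VQ k E) (v : Derivation k E E) (c : A.1.ValueGroup) :
    mn m A v ≤ c ↔ ∀ p, A.1.valuation (ps m p v) ≤ c * nm k m A ^ 2 := by
  have h0 : 0 < nm k m A ^ 2 := pow_pos (H2_pos m hm A) 2
  show nm k (fun p => ps m p v) A / nm k m A ^ 2 ≤ c ↔ _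
  rw [div_le_iff₀ h0]
  exact ⟨fun h p => (le_nm (fun p => ps m p v) A p).trans h, fun h => nm_le _ _ _ h⟩

/-- The maximum of the values of a multiple. -/
private theorem H2_nm_mul (S : κ → E) (A : VQ k E) (c : E) :
    nm k (fun a => c * S a) A = A.1.valuation c * nm k S A := by
  refine le_antisymm (nm_le _ _ _ fun a => ?_) ?_
  · rw [map_mul]
    exact mul_le_mul_right (le_nm S A a) _
  · by_cases hS : S = 0
    · have h1 : nm k S A = 0 := by
        refine le_antisymm (nm_le _ _ _ fun a => ?_) zero_le'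
        rw [hS, Pi.zero_apply, map_zero]
      rw [h1, mul_zero]
      exact zero_le'
    · obtain ⟨a, -, ha⟩ := nm_attain S hS A
      rw [ha, ← map_mul]
      exact le_nm (fun a => c * S a) A a

/-- The norm of a multiple of a derivation. -/
theorem mn_smul (m : κ → E) (A : VQ k E) (c : E) (v : Derivation k E E) :
    mn m A (c • v) = A.1.valuation c * mn m A v := by
  show nm k (fun p => ps m p (c • v)) A / nm k m A ^ 2 = A.1.valuation c * (nm k (fun p => ps m p v) A / nm k m A ^ 2)
  have h1 : (fun p => ps m p (c • v)) = fun p => c * ps m p v := by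
    funext p
    rw [map_smul, smul_eq_mul]
  rw [h1, H2_nm_mul, mul_div_assoc]

/-- The norm of a sum of derivations. -/
theorem mn_sum_le (m : κ → E) (A : VQ k E) {ι : Type} [Fintype ι] (v : ι → Derivation k E E)
    (c : A.1.ValueGroup) (h : ∀ j, mn m A (v j) ≤ c) : mn m A (∑ j, v j) ≤ c := by
  by_cases hm : m = 0
  · subst hm
    rw [H2_zero]
    exact zero_le'
  · rw [H2_le_iff m hm]
    intro p
    rw [map_sum]
    exact Valuation.map_sum_le _ fun j _ => (H2_le_iff m hm A (v j) c).1 (h j) p

/-- The norm in a chart. -/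
theorem mn_chart_le (m : κ → E) (A : VQ k E) (a : κ) (ha : m a ≠ 0)
    (hA : nm k m A = A.1.valuation (m a)) (v : Derivation k E E) (b : κ) :
    A.1.valuation (v (m b / m a)) ≤ mn m A v := by
  have hv : 0 < A.1.valuation (m a) := zero_lt_iff.2 ((Valuation.ne_zero_iff _).2 ha)
  show _ ≤ nm k (fun p => ps m p v) A / nm k m A ^ 2
  rw [hA, le_div_iff₀ (pow_pos hv 2)]
  refine le_trans (le_of_eq ?_) (le_nm (fun p => ps m p v) A (a, b))
  have h1 : v (m b) = m a * v (m b / m a) + m b / m a * v (m a) := by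
    conv_lhs => rw [show m b = m a * (m b / m a) by field_simp]
    rw [Derivation.leibniz, smul_eq_mul, smul_eq_mul]
  have h2 : ps m (a, b) v = v (m b / m a) * m a ^ 2 := by
    show m a * v (m b) - m b * v (m a) = _
    rw [h1]
    field_simp
    ring
  rw [h2, map_mul, map_pow]

/-- The norm in a chart. -/
theorem mn_le_chart (m : κ → E) (A : VQ k E) (a : κ) (ha : m a ≠ 0)
    (hA : nm k m A = A.1.valuation (m a)) (v : Derivation k E E) (c : A.1.ValueGroup)
    (h : ∀ b, A.1.valuation (v (m b / m a)) ≤ c) : mn m A v ≤ c := by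
  have hm : m ≠ 0 := fun h0 => ha (by rw [h0, Pi.zero_apply])
  have hv : 0 < A.1.valuation (m a) := zero_lt_iff.2 ((Valuation.ne_zero_iff _).2 ha)
  have hy : ∀ b, A.1.valuation (m b / m a) ≤ 1 := by
    intro b
    rw [map_div₀, div_le_one₀ hv, ← hA]
    exact le_nm m A b
  have h1 : ∀ b, v (m b) = m a * v (m b / m a) + m b / m a * v (m a) := by
    intro b
    conv_lhs => rw [show m b = m a * (m b / m a) by field_simp]
    rw [Derivation.leibniz, smul_eq_mul, smul_eq_mul]
  rw [H2_le_iff m hm]
  rintro ⟨b, b'⟩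
  have h2 : ps m (b, b') v = (m b / m a * v (m b' / m a) - m b' / m a * v (m b / m a)) * m a ^ 2 := by
    show m b * v (m b') - m b' * v (m b) = _
    rw [h1 b, h1 b']
    field_simp
    ring
  rw [h2, map_mul, map_pow, hA]
  refine mul_le_mul_left ?_ _
  refine (Valuation.map_sub _ _ _).trans (max_le ?_ ?_)
  · rw [map_mul]
    exact mul_le_of_le_one_of_le (hy b) (h b')
  · rw [map_mul]
    exact mul_le_of_le_one_of_le (hy b') (h b)

/-- The norm given by the product of two families. -/
theorem mn_tn (m : κ → E) (m' : κ' → E) (hm : m ≠ 0) (hm' : m' ≠ 0) (A : VQ k E)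
    (v : Derivation k E E) : mn (tn m m') A v = max (mn m A v) (mn m' A v) := by
  obtain ⟨a, ha, hA⟩ := nm_attain m hm A
  obtain ⟨a', ha', hA'⟩ := nm_attain m' hm' A
  have h1 : tn m m' (a, a') ≠ 0 := mul_ne_zero ha ha'
  have h2 : nm k (tn m m') A = A.1.valuation (tn m m' (a, a')) := by
    rw [nm_tn, hA, hA']
    show _ = A.1.valuation (m a * m' a')
    rw [map_mul]
  have hv : 0 < A.1.valuation (m a) := zero_lt_iff.2 ((Valuation.ne_zero_iff _).2 ha)
  have hv' : 0 < A.1.valuation (m' a') := zero_lt_iff.2 ((Valuation.ne_zero_iff _).2 ha')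
  have hy : ∀ b, A.1.valuation (m b / m a) ≤ 1 := by
    intro b
    rw [map_div₀, div_le_one₀ hv, ← hA]
    exact le_nm m A b
  have hy' : ∀ b, A.1.valuation (m' b / m' a') ≤ 1 := by
    intro b
    rw [map_div₀, div_le_one₀ hv', ← hA']
    exact le_nm m' A b
  refine le_antisymm ?_ (max_le ?_ ?_)
  · refine mn_le_chart (tn m m') A (a, a') h1 h2 v _ ?_
    rintro ⟨b, b'⟩
    have h3 : tn m m' (b, b') / tn m m' (a, a') = (m b / m a) * (m' b' / m' a') := by
      show m b * m' b' / (m a * m' a') = _
      field_simp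
    rw [h3, Derivation.leibniz, smul_eq_mul, smul_eq_mul]
    refine (Valuation.map_add _ _ _).trans (max_le ?_ ?_)
    · rw [map_mul]
      exact (mul_le_of_le_one_of_le (hy b) (mn_chart_le m' A a' ha' hA' v b')).trans (le_max_right _ _)
    · rw [map_mul]
      exact (mul_le_of_le_one_of_le (hy' b') (mn_chart_le m A a ha hA v b)).trans (le_max_left _ _)
  · refine mn_le_chart m A a ha hA v _ fun b => ?_
    have h3 := mn_chart_le (tn m m') A (a, a') h1 h2 v (b, a')
    have h4 : tn m m' (b, a') / tn m m' (a, a') = m b / m a := by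
      show m b * m' a' / (m a * m' a') = _
      field_simp
    rwa [h4] at h3
  · refine mn_le_chart m' A a' ha' hA' v _ fun b => ?_
    have h3 := mn_chart_le (tn m m') A (a, a') h1 h2 v (a, b)
    have h4 : tn m m' (a, b) / tn m m' (a, a') = m' b / m' a' := by
      show m a * m' b / (m a * m' a') = _
      field_simp
    rwa [h4] at h3

/-- The norm given by the family `1, f`. -/
theorem mn_on (f : E) (A : VQ k E) (hf : A.1.valuation f ≤ 1) (v : Derivation k E E) :
    A.1.valuation (v f) ≤ mn (on f) A v := by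
  have h0 : on f false = 1 := rfl
  have h1 : nm k (on f) A = A.1.valuation (on f false) := by
    refine le_antisymm (nm_le _ _ _ fun b => ?_) (le_nm (on f) A false)
    rw [h0, map_one]
    cases b with
    | false => rw [h0, map_one]
    | true => exact hf
  have h2 := mn_chart_le (on f) A false (by rw [h0]; exact one_ne_zero) h1 v true
  have h3 : on f true / on f false = f := by
    rw [h0, div_one]
    rfl
  rwa [h3] at h2

/-- The product of two families is finer than the first one. -/
theorem Fi_tn_left (m : κ → E) (m' : κ' → E) (hm : m ≠ 0) (hm' : m' ≠ 0) : Fi k m (tn m m') := by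
  intro A v
  rw [mn_tn m m' hm hm']
  exact le_max_left _ _

/-- The product of two families is finer than the second one. -/
theorem Fi_tn_right (m : κ → E) (m' : κ' → E) (hm : m ≠ 0) (hm' : m' ≠ 0) : Fi k m' (tn m m') := by
  intro A v
  rw [mn_tn m m' hm hm']
  exact le_max_right _ _

/-- The product of a model and a nonzero family is a model. -/
theorem IsMd_tn (m : κ → E) (m' : κ' → E) (hm : IsMd k m) (hm' : m' ≠ 0) : IsMd k (tn m m') := by
  obtain ⟨c, hc⟩ := Function.ne_iff.1 hm'
  rw [Pi.zero_apply] at hc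
  refine ⟨?_, fun v hv => hm.2 v fun p => ?_⟩
  · obtain ⟨a, ha⟩ := Function.ne_iff.1 hm.1
    rw [Pi.zero_apply] at ha
    exact Function.ne_iff.2 ⟨(a, c), mul_ne_zero ha hc⟩
  · have h1 := hv ((p.1, c), (p.2, c))
    have h2 : ps (tn m m') ((p.1, c), (p.2, c)) v = m' c ^ 2 * ps m p v := by
      show m p.1 * m' c * v (m p.2 * m' c) - m p.2 * m' c * v (m p.1 * m' c) =
        m' c ^ 2 * (m p.1 * v (m p.2) - m p.2 * v (m p.1))
      rw [Derivation.leibniz, Derivation.leibniz, smul_eq_mul, smul_eq_mul, smul_eq_mul, smul_eq_mul]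
      ring
    rw [h2] at h1
    exact (mul_eq_zero.1 h1).resolve_left (pow_ne_zero 2 hc)

/-- Finitely many functions can be added to a model. -/
theorem exists_add (m : κ → E) (hm : IsMd k m) (G : Finset E) :
    ∃ (κ'' : Type) (_ : Fintype κ'') (m'' : κ'' → E), IsMd k m'' ∧ Fi k m m'' ∧
      ∀ (A : VQ k E) (v : Derivation k E E), ∀ g ∈ G, A.1.valuation g ≤ 1 →
        A.1.valuation (v g) ≤ mn m'' A v := by
  classical
  induction G using Finset.induction_on with
  | empty => exact ⟨κ, inferInstance, m, hm, fun A v => le_rfl, fun A v g hg => absurd hg (Finset.notMem_empty g)⟩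
  | insert g G hg ih =>
    obtain ⟨κ₁, i₁, m₁, h1, h2, h3⟩ := ih
    have h4 : on g ≠ 0 := Function.ne_iff.2 ⟨false, one_ne_zero⟩
    refine ⟨κ₁ × Bool, inferInstance, tn m₁ (on g), IsMd_tn m₁ (on g) h1 h4, fun A v =>
      (h2 A v).trans (Fi_tn_left m₁ (on g) h1.1 h4 A v), fun A v g' hg' hA => ?_⟩
    rcases Finset.mem_insert.1 hg' with h | h
    · subst h
      exact (mn_on g' A hA v).trans (Fi_tn_right m₁ (on g') h1.1 h4 A v)
    · exact (h3 A v g' h hA).trans (Fi_tn_left m₁ (on g) h1.1 h4 A v)

end Pool.Agent.Lib.MP_17a322_nt.FQ
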