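import Pool.Agent.Lib.MP_17a322_nt.FQ.J1
import Pool.Agent.Lib.MP_17a322_nt.FQ.H2

/-!
Derivations and generators of the field `E`.
-/

universe u

namespace Pool.Agent.Lib.MP_17a322_nt.FQ

variable {k E : Type u} [Field k] [Field E] [Algebra k E] {ι : Type} [Fintype ι]

omit [Fintype ι] in
/-- A derivation which vanishes on generators of the field is zero. -/
theorem der_ext_gen (m : ι → E) (hE : IntermediateField.adjoin k (Set.range m) = ⊤) (D : Derivation k E E)
    (h : ∀ i, D (m i) = 0) : D = 0 := by
  ext x
  have hx : x ∈ IntermediateField.adjoin k (Set.range m) := by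
    rw [hE]
    exact IntermediateField.mem_top
  rw [Derivation.zero_apply]
  refine IntermediateField.adjoin_induction k (p := fun x _ => D x = 0) ?_ ?_ ?_ ?_ ?_ hx
  · rintro x ⟨i, rfl⟩
    exact h i
  · intro x
    exact D.map_algebraMap x
  · intro x y _ _ hx hy
    rw [map_add, hx, hy, add_zero]
  · intro x _ hx
    rw [Derivation.leibniz_inv, hx, smul_zero]
  · intro x y _ _ hx hy
    rw [Derivation.leibniz, hx, hy, smul_zero, smul_zero, add_zero]

/-- The vectors `m` and `D j m` are linearly independent if the derivations `D j` are. -/
theorem jv_li (m : ι → E) {i₀ : ι} (h1 : m i₀ = 1) (hE : IntermediateField.adjoin k (Set.range m) = ⊤)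
    {z : ℕ} (D : Fin z → Derivation k E E) (hD : LinearIndependent E D) :
    LinearIndependent E (jv m fun j i => D j (m i)) := by
  rw [Fintype.linearIndependent_iff]
  intro c hc
  have hc' : ∀ i, c none * m i + ∑ j, c (some j) * D j (m i) = 0 := by
    intro i
    have h := congrFun hc i
    rw [Fintype.sum_option] at h
    simpa [jv, Finset.sum_apply] using h
  have h0 : c none = 0 := by
    have h := hc' i₀
    rw [h1] at h
    simpa using h
  have h2 : ∑ j, c (some j) • D j = 0 := by
    refine der_ext_gen m hE _ fun i => ?_
    have h := hc' i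
    rw [h0, zero_mul, zero_add] at h
    have h3 : ((∑ j, c (some j) • D j : Derivation k E E) : E → E) =
        ∑ j, ((c (some j) • D j : Derivation k E E) : E → E) :=
      map_sum Derivation.coeFnAddMonoidHom _ _
    rw [← h, h3, Finset.sum_apply]
    rfl
  rw [Fintype.linearIndependent_iff] at hD
  intro o
  cases o with
  | none => exact h0
  | some j => exact hD (fun j => c (some j)) h2 j

omit [Fintype ι] in
/-- The functionals of a family of generators which contains `1` separate the derivations. -/
theorem gen_IsMd (m : ι → E) {i₀ : ι} (h1 : m i₀ = 1) (hE : IntermediateField.adjoin k (Set.range m) = ⊤) :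
    IsMd k m := by
  refine ⟨fun h => ?_, fun v hv => der_ext_gen m hE v fun i => ?_⟩
  · rw [h] at h1
    exact zero_ne_one h1
  · have h := hv (i₀, i)
    have h' : m i₀ * v (m i) - m i * v (m i₀) = 0 := h
    rw [h1] at h'
    simpa using h'

/-- The space of the derivations of a finitely generated field is finite dimensional. -/
theorem gen_findim (m : ι → E) (hE : IntermediateField.adjoin k (Set.range m) = ⊤) :
    FiniteDimensional E (Derivation k E E) := by
  let f : Derivation k E E →ₗ[E] (ι → E) :=
    { toFun := fun D i => D (m i)
      map_add' := fun D D' => by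
        ext i
        simp
      map_smul' := fun c D => by
        ext i
        simp }
  refine FiniteDimensional.of_injective f ?_
  rw [← LinearMap.ker_eq_bot, LinearMap.ker_eq_bot']
  intro D hD
  exact der_ext_gen m hE D fun i => congrFun hD i

/-- A finitely generated field has a finite family of generators which contains `1`. -/
theorem exists_gen (hE : (⊤ : IntermediateField k E).FG) :
    ∃ (n : ℕ) (m : Option (Fin n) → E), m none = 1 ∧ IntermediateField.adjoin k (Set.range m) = ⊤ := by
  obtain ⟨S, hS⟩ := hE
  refine ⟨S.card, fun o => o.elim 1 fun i => (S.equivFin.symm i : E), rfl, ?_⟩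
  rw [eq_top_iff, ← hS]
  refine IntermediateField.adjoin.mono k _ _ ?_
  intro x hx
  refine ⟨some (S.equivFin ⟨x, hx⟩), ?_⟩
  simp

end Pool.Agent.Lib.MP_17a322_nt.FQ
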