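import Pool.Agent.Lib.MP_17a322_nt.FQ.G1

universe u v

namespace Pool.Agent.Lib.MP_17a322_nt.FQ

variable {k : Type v} {E : Type u} [Field k] [Field E] [Algebra k E]

/-- A derivation which kills an intermediate field over which `E` is algebraic is zero. -/
theorem G6_aux [CharZero k] (A : IntermediateField k E) [Algebra.IsAlgebraic A E]
    (v : Derivation k E E) (hv : ∀ a ∈ A, v a = 0) : v = 0 := by
  have hz : CharZero E := charZero_of_injective_algebraMap (algebraMap k E).injective
  have hA : CharZero A := charZero_of_injective_algebraMap (algebraMap k A).injective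
  let l : E →ₗ[A] E :=
    { toFun := fun x => v x
      map_add' := fun x y => map_add v x y
      map_smul' := fun a x => by
        have e1 : a • x = (a : E) * x := rfl
        have e2 : (RingHom.id A) a • v x = (a : E) * v x := rfl
        rw [e2, e1, Derivation.leibniz, hv a a.2, smul_zero, add_zero, smul_eq_mul] }
  let d : Derivation A E E := Derivation.mk' l fun a b => v.leibniz a b
  have hd : ∀ x, d x = v x := fun x => rfl
  ext f
  have hi : IsIntegral A f := Algebra.IsIntegral.isIntegral f
  have hs : (minpoly A f).Separable := (minpoly.irreducible hi).separable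
  have h1 : d (Polynomial.aeval f (minpoly A f)) =
      Polynomial.aeval f (Polynomial.derivative (minpoly A f)) • d f := d.map_aeval _ _
  rw [minpoly.aeval, map_zero, smul_eq_mul, eq_comm, mul_eq_zero] at h1
  rcases h1 with h1 | h1
  · exact absurd h1 (hs.aeval_derivative_ne_zero (minpoly.aeval A f))
  · rw [← hd, h1]
    rfl

/-- A derivation which kills a transcendence basis is zero. -/
theorem der_eq_zero [CharZero k] {ι : Type*} (y : ι → E) (hy : IsTranscendenceBasis k y)
    (v : Derivation k E E) (hv : ∀ i, v (y i) = 0) : v = 0 := by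
  have hal : Algebra.IsAlgebraic (IntermediateField.adjoin k (Set.range y)) E :=
    hy.isAlgebraic_field
  refine G6_aux (IntermediateField.adjoin k (Set.range y)) v fun a ha => ?_
  have h1 : IntermediateField.adjoin k (Set.range y) ≤ cst (Submodule.span E {v}) := by
    rw [IntermediateField.adjoin_le_iff]
    rintro _ ⟨i, rfl⟩ w hw
    obtain ⟨c, rfl⟩ := Submodule.mem_span_singleton.mp hw
    rw [Derivation.smul_apply, hv i, smul_zero]
  exact h1 ha v (Submodule.mem_span_singleton_self v)

/-- The subspace `F` is the space of the derivations which kill certain algebraically independent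
functions. -/
theorem exists_w [CharZero k] [FiniteDimensional E (Derivation k E E)] {z : ℕ} (x : Fin z → E)
    (hx : IsTranscendenceBasis k x) (F : Submodule E (Derivation k E E))
    (hF : ∀ f : Fin (Module.finrank E F + 1) → E, ¬ AlgebraicIndependent (cst F) f) :
    ∃ (l : ℕ) (w : Fin l → E), AlgebraicIndependent k w ∧
      ∀ v : Derivation k E E, v ∈ F ↔ ∀ i, v (w i) = 0 := by
  classical
  obtain ⟨ι₁, y, hy⟩ := exists_isTranscendenceBasis' (cst F) E
  obtain ⟨ι₂, w, hw⟩ := exists_isTranscendenceBasis' k (cst F)
  have h12 := hw.sumElim_comp hy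
  -- finiteness
  have hc := h12.lift_cardinalMk_eq hx
  have hfin : Finite (ι₁ ⊕ ι₂) := by
    rw [← Cardinal.lt_aleph0_iff_finite, ← Cardinal.lift_lt_aleph0, hc, Cardinal.mk_fin,
      Cardinal.lift_natCast]
    exact Cardinal.natCast_lt_aleph0
  have hf1 : Finite ι₁ := Finite.of_injective (Sum.inl : ι₁ → ι₁ ⊕ ι₂) Sum.inl_injective
  have hf2 : Finite ι₂ := Finite.of_injective (Sum.inr : ι₂ → ι₁ ⊕ ι₂) Sum.inr_injective
  have : Fintype ι₁ := Fintype.ofFinite ι₁
  have : Fintype ι₂ := Fintype.ofFinite ι₂
  have hcard : Fintype.card ι₁ ≤ Module.finrank E F := by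
    by_contra hlt
    rw [not_le] at hlt
    obtain ⟨g⟩ : Nonempty (Fin (Module.finrank E F + 1) ↪ ι₁) := by
      rw [Function.Embedding.nonempty_iff_card_le, Fintype.card_fin]
      exact hlt
    exact hF (y ∘ g) (hy.1.comp g g.injective)
  let e := Fintype.equivFin ι₂
  refine ⟨Fintype.card ι₂, fun i => (w (e.symm i) : E), ?_, fun v => ?_⟩
  · have h1 : AlgebraicIndependent k (algebraMap (cst F) E ∘ w) := by
      have h2 := h12.1.comp Sum.inr Sum.inr_injective
      have h3 : Sum.elim y (algebraMap (cst F) E ∘ w) ∘ Sum.inr = algebraMap (cst F) E ∘ w := rfl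
      rwa [h3] at h2
    exact h1.comp e.symm e.symm.injective
  -- the space of the derivations which kill the `w i`
  let F' : Submodule E (Derivation k E E) :=
    { carrier := {v | ∀ i : ι₂, v (w i : E) = 0}
      add_mem' := fun {a b} ha hb i => by rw [Derivation.add_apply, ha i, hb i, add_zero]
      zero_mem' := fun i => rfl
      smul_mem' := fun c a ha i => by rw [Derivation.smul_apply, ha i, smul_zero] }
  have hle : F ≤ F' := fun v hv i => (w i).2 v hv
  let T : F' →ₗ[E] (ι₁ → E) :=
    { toFun := fun v j => v.1 (y j)
      map_add' := fun a b => rfl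
      map_smul' := fun c a => rfl }
  have hT : Function.Injective T := by
    rw [injective_iff_map_eq_zero]
    intro v hv
    refine Subtype.ext (der_eq_zero _ h12 v.1 ?_)
    rintro (j | i)
    · exact congrFun hv j
    · exact v.2 i
  have hfr : Module.finrank E F' ≤ Fintype.card ι₁ := by
    have h1 := LinearMap.finrank_le_finrank_of_injective hT
    rwa [Module.finrank_fintype_fun_eq_card] at h1
  have hEq : F = F' := Submodule.eq_of_le_of_finrank_le hle (hfr.trans hcard)
  constructor
  · intro hv i
    exact hle hv (e.symm i)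
  · intro hv
    rw [hEq]
    intro i
    have h1 := hv (e i)
    simp only [Equiv.symm_apply_apply] at h1
    exact h1

end Pool.Agent.Lib.MP_17a322_nt.FQ
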