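import Pool.Agent.Lib.MP_17a322_nt.FQ.G5
import Pool.Agent.Lib.MP_17a322_nt.FQ.G6

universe u v

namespace Pool.Agent.Lib.MP_17a322_nt.FQ

variable {k : Type v} {E : Type u} [Field k] [Field E] [Algebra k E]
  [FiniteDimensional E (Derivation k E E)]

/-- The degree of a subspace which consists of the derivations which kill some algebraically
independent functions is at most the degree of the whole space, for every model. -/
def Of (H : Ht k E) : Prop :=
  ∀ (l : ℕ) (w : Fin l → E), AlgebraicIndependent k w → ∀ F : Submodule E (Derivation k E E),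
    (∀ v : Derivation k E E, v ∈ F ↔ ∀ i, v (w i) = 0) →
      ∀ {κ : Type} [Fintype κ] (m : κ → E), IsMd k m → dg H m F ≤ dg H m ⊤

/-- The degree of every subspace is at most the degree of the whole space. -/
theorem dgI_le_top [CharZero k] (H : Ht k E) (hV : Vj H) (hT : Tens H) (hO : Of H) {z : ℕ}
    (x : Fin z → E) (hx : IsTranscendenceBasis k x) {κ : Type} [Fintype κ] (m : κ → E)
    (hm : IsMd k m) (L : Submodule E (Derivation k E E)) : dgI H L ≤ dgI H ⊤ := by
  obtain ⟨F, g, hF⟩ := exists_Mx H hV m hm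
  refine (hF.2.1 L).trans ?_
  have hne : {x | ∃ (κ : Type) (_ : Fintype κ) (m : κ → E), IsMd k m ∧
      x = dg H m (⊤ : Submodule E (Derivation k E E))}.Nonempty :=
    ⟨dg H m ⊤, κ, inferInstance, m, hm, rfl⟩
  rcases Nat.eq_zero_or_pos (Module.finrank E F) with h0 | h0
  · have hb : F = ⊥ := Submodule.finrank_eq_zero.1 h0
    rw [hb, dgI_bot H m hm]
    refine le_csInf hne ?_
    rintro _ ⟨κ', _, m', hm', rfl⟩
    exact hV m' hm'
  · obtain ⟨l, w, hw, hFw⟩ := exists_w x hx F fun f => no_indep H hV hT m hm hF h0 f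
    refine le_csInf hne ?_
    rintro _ ⟨κ', _, m', hm', rfl⟩
    exact (dgI_le H hV m' hm' F).trans (hO l w hw F hFw m' hm')

/-- There are models such that for all finer ones the degree of every subspace is at most the degree of
the whole space, up to `η`. -/
theorem exists_stable [CharZero k] (H : Ht k E) (hV : Vj H) (hT : Tens H) (hO : Of H) {z : ℕ}
    (x : Fin z → E) (hx : IsTranscendenceBasis k x) {κ : Type} [Fintype κ] (m : κ → E)
    (hm : IsMd k m) (η : ℝ) (hη : 0 < η) :
    ∃ (κ' : Type) (_ : Fintype κ') (m' : κ' → E), IsMd k m' ∧ Fi k m m' ∧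
      ∀ {κ'' : Type} [Fintype κ''] (m'' : κ'' → E), IsMd k m'' → Fi k m' m'' →
        ∀ L, dg H m'' L ≤ dg H m'' ⊤ + η := by
  obtain ⟨κ', i', m', h1, h2, h3⟩ := exists_near H hV m hm (η / 2) (by linarith)
  refine ⟨κ', i', m', h1, h2, ?_⟩
  intro κ'' _ m'' hm'' hf L
  have h4 := (h3 m'' hm'' hf L).2
  have h5 := dgI_le_top H hV hT hO x hx m hm L
  have h6 := (h3 m'' hm'' hf ⊤).1
  linarith

end Pool.Agent.Lib.MP_17a322_nt.FQ
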