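import Pool.Agent.Lib.MP_17a322_nt.FQ.H4

universe u v

namespace Pool.Agent.Lib.MP_17a322_nt.FQ

variable {k : Type v} {E : Type u} [Field k] [Field E] [Algebra k E] {κ κ' : Type} [Fintype κ]
  [Fintype κ']

/-- The iterated derivative. -/
def itd (l : List (Derivation k E E)) (f : E) : E := l.foldr (fun v f => v f) f

/-- The degree of the space of all derivations decreases by at most `η` if the model `m` is replaced
by a finer one. -/
def Nr [FiniteDimensional E (Derivation k E E)] (H : Ht k E) (m : κ → E) (η : ℝ) : Prop :=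
  ∀ {κ'' : Type} [Fintype κ''] (m'' : κ'' → E), IsMd k m'' → Fi k m m'' →
    dg H m ⊤ - dg H m'' ⊤ ≤ η

/-- Only finitely many iterated derivatives of bounded length exist. -/
private theorem I1_fin (V : Set (Derivation k E E)) (hV : V.Finite) (Φ : Set E) (hΦ : Φ.Finite)
    (J : ℕ) : {g : E | ∃ l : List (Derivation k E E), l.length ≤ J ∧ (∀ v ∈ l, v ∈ V) ∧
      ∃ f ∈ Φ, g = itd l f}.Finite := by
  induction J with
  | zero =>
    refine hΦ.subset ?_
    rintro g ⟨l, hl, -, f, hf, rfl⟩
    have : l = [] := List.length_eq_zero_iff.mp (Nat.le_zero.mp hl)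
    subst this
    simpa [itd] using hf
  | succ J ih =>
    refine (hΦ.union (Set.Finite.image2 (fun (v : Derivation k E E) (g : E) => v g) hV ih)).subset ?_
    rintro g ⟨l, hl, hlV, f, hf, rfl⟩
    cases l with
    | nil => exact Or.inl (by simpa [itd] using hf)
    | cons v l =>
      right
      refine ⟨v, hlV v (by simp), itd l f, ⟨l, by simpa using hl, fun w hw => hlV w (by simp [hw]),
        f, hf, rfl⟩, by simp [itd]⟩

/-- Bounds for iterated derivatives. -/
theorem iter [FiniteDimensional E (Derivation k E E)] (H : Ht k E) (m : κ → E) (hm : IsMd k m)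
    (η : ℝ) (hη : Nr H m η) (V : Set (Derivation k E E)) (hV : V.Finite) (Φ : Set E)
    (hΦ : Φ.Finite) (J : ℕ) :
    ∃ (C : Fn k E) (x : ℝ), Lm H C x ∧ x ≤ (2 ^ J - 1) * η ∧ (∀ A, 1 ≤ C A) ∧
      ∀ (A : VQ k E) (l : List (Derivation k E E)), l.length ≤ J →
        (∀ v ∈ l, v ∈ V ∧ mn m A v ≤ 1) → ∀ f ∈ Φ, A.1.valuation f ≤ 1 →
          A.1.valuation (itd l f) ≤ C A := by
  classical
  induction J with
  | zero =>
    refine ⟨fun _ => 1, 0, Lm_one, by simp, fun _ => le_rfl, ?_⟩
    intro A l hl _ f _ hf1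
    have : l = [] := List.length_eq_zero_iff.mp (Nat.le_zero.mp hl)
    subst this
    simpa [itd] using hf1
  | succ J ih =>
    obtain ⟨C, x, hC, hx, hC1, hb⟩ := ih
    have hfin := I1_fin V hV Φ hΦ J
    obtain ⟨W, hW0, hW⟩ := Lm_attain (Lm_inv hC)
    obtain ⟨κ'', iκ, m'', hm'', hFi, hadd⟩ := exists_add m hm
      (W ∪ Finset.image₂ (fun e g : E => e * g) W hfin.toFinset)
    obtain ⟨c, hc, hc1, hcmp⟩ := exists_cmp H m m'' hm hm'' hFi
    have hη' := hη m'' hm'' hFi
    refine ⟨fun A => C A ^ 2 * c A, _, Lm_mul (Lm_pow 2 hC) hc, ?_, ?_, ?_⟩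
    · have : ((2 : ℕ) : ℝ) * x ≤ 2 * ((2 ^ J - 1) * η) := by
        push_cast
        linarith
      have e : ((2 : ℝ) ^ (J + 1) - 1) * η = 2 * ((2 ^ J - 1) * η) + η := by ring
      rw [e]
      exact add_le_add this hη'
    · intro A
      calc (1 : A.1.ValueGroup) = 1 * 1 := (one_mul 1).symm
        _ ≤ C A ^ 2 * c A := mul_le_mul' (one_le_pow₀ (hC1 A)) (hc1 A)
    · intro A l hl hlV f hf hf1
      have hCA : C A ≤ C A ^ 2 * c A := by
        calc C A = C A * 1 * 1 := by simp
          _ ≤ C A * C A * c A := mul_le_mul' (mul_le_mul' le_rfl (hC1 A)) (hc1 A)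
          _ = C A ^ 2 * c A := by rw [sq]
      cases l with
      | nil => exact (hb A [] (by simp) (by simp) f hf hf1).trans hCA
      | cons v l =>
        have hlJ : l.length ≤ J := by simpa using hl
        have hg := hb A l hlJ (fun w hw => hlV w (by simp [hw])) f hf hf1
        set g := itd l f with hgdef
        have hgG : g ∈ hfin.toFinset := by
          rw [Set.Finite.mem_toFinset]
          exact ⟨l, hlJ, fun w hw => (hlV w (by simp [hw])).1, f, hf, rfl⟩
        obtain ⟨e, heW, he⟩ := hW A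
        have he0 : e ≠ 0 := hW0 e heW
        have hCpos : C A ≠ 0 := Lm_ne hC A
        have he1 : A.1.valuation e ≤ 1 := by
          rw [← he]
          exact inv_le_one_of_one_le₀ (hC1 A)
        have heg1 : A.1.valuation (e * g) ≤ 1 := by
          rw [map_mul, ← he]
          calc (C A)⁻¹ * A.1.valuation g ≤ (C A)⁻¹ * C A := mul_le_mul' le_rfl hg
            _ = 1 := inv_mul_cancel₀ hCpos
        have hv1 : mn m A v ≤ 1 := (hlV v (by simp)).2
        have hmv : mn m'' A v ≤ c A := by
          calc mn m'' A v ≤ c A * mn m A v := hcmp A v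
            _ ≤ c A * 1 := mul_le_mul' le_rfl hv1
            _ = c A := mul_one _
        have h1 : A.1.valuation (v e) ≤ c A :=
          (hadd A v e (Finset.mem_union_left _ heW) he1).trans hmv
        have h2 : A.1.valuation (v (e * g)) ≤ c A :=
          (hadd A v (e * g) (Finset.mem_union_right _ (Finset.mem_image₂_of_mem heW hgG)) heg1).trans
            hmv
        have hvg : v g = e⁻¹ * (v (e * g) - g * v e) := by
          rw [Derivation.leibniz]
          simp only [smul_eq_mul]
          field_simp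
          ring
        have h3 : A.1.valuation (v (e * g) - g * v e) ≤ C A * c A := by
          refine (A.1.valuation.map_sub _ _).trans (max_le ?_ ?_)
          · calc A.1.valuation (v (e * g)) ≤ 1 * c A := by rw [one_mul]; exact h2
              _ ≤ C A * c A := mul_le_mul' (hC1 A) le_rfl
          · rw [map_mul]
            exact mul_le_mul' hg h1
        have hl' : itd (v :: l) f = v g := by simp [itd, hgdef]
        rw [hl', hvg, map_mul, map_inv₀, ← he, inv_inv]
        calc C A * A.1.valuation (v (e * g) - g * v e) ≤ C A * (C A * c A) :=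
              mul_le_mul' le_rfl h3
          _ = C A ^ 2 * c A := by rw [sq, mul_assoc]

/-- Orthonormal frames of the subspace `F` with small iterated derivatives. -/
theorem exists_frame_iter [FiniteDimensional E (Derivation k E E)] (H : Ht k E) (m : κ → E)
    (hm : IsMd k m) (η : ℝ) (hη : Nr H m η) (F : Submodule E (Derivation k E E)) (Φ : Set E)
    (hΦ : Φ.Finite) (J : ℕ) :
    ∃ (C : Fn k E) (x : ℝ), Lm H C x ∧ x ≤ (2 ^ J - 1) * η ∧ (∀ A, 1 ≤ C A) ∧
      ∀ A : VQ k E, ∃ u : Fin (Module.finrank E F) → Derivation k E E, (∀ j, u j ∈ F) ∧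
        (∀ j, mn m A (u j) ≤ 1) ∧
          (∀ w ∈ F, ∃ c : Fin (Module.finrank E F) → E, w = ∑ j, c j • u j ∧
            ∀ j, A.1.valuation (c j) ≤ mn m A w) ∧
              ∀ (l : List (Fin (Module.finrank E F))), l.length ≤ J → ∀ f ∈ Φ,
                A.1.valuation f ≤ 1 → A.1.valuation (itd (l.map u) f) ≤ C A := by
  obtain ⟨Fr, hFr, hfr⟩ := exists_frames m hm F F le_rfl
  have hV : (⋃ u ∈ Fr, Set.range u).Finite :=
    hFr.biUnion fun u _ => Set.finite_range u
  obtain ⟨C, x, hC, hx, hC1, hb⟩ := iter H m hm η hη _ hV Φ hΦ J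
  refine ⟨C, x, hC, hx, hC1, fun A => ?_⟩
  obtain ⟨u, huFr, huF, -, hu1, huc⟩ := hfr A
  refine ⟨u, huF, hu1, huc, ?_⟩
  intro l hl f hf hf1
  refine hb A (l.map u) (by simpa using hl) ?_ f hf hf1
  intro v hv
  obtain ⟨j, -, rfl⟩ := List.mem_map.mp hv
  exact ⟨Set.mem_biUnion huFr (Set.mem_range_self j), hu1 j⟩

/-- The lower bound of the heights of multilinear forms on a subspace, if its quotients have large
slopes. -/
def Tens [FiniteDimensional E (Derivation k E E)] (H : Ht k E) : Prop :=
  ∀ {κ : Type} [Fintype κ] (m : κ → E), IsMd k m → ∀ (L : Submodule E (Derivation k E E)) (g : ℝ),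
    (∀ L' < L, dg H m L' + g * (Module.finrank E L - Module.finrank E L') ≤ dg H m L) →
      ∀ (σ : Type) [Fintype σ] (θ : MultilinearMap E (fun _ : σ => L) E), θ ≠ 0 →
        ∀ (D : Fn k E) (x : ℝ), Lm H D x →
          (∀ (A : VQ k E) (w : σ → L), A.1.valuation (θ w) ≤
            D A * ∏ j, mn m A (w j : Derivation k E E)) → g * Fintype.card σ ≤ x

/-- A bound for a multilinear form on orthonormal frames is a bound for its norm. -/
theorem norm_of_frame (m : κ → E) (A : VQ k E) (L : Submodule E (Derivation k E E)) {r : ℕ}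
    (u : Fin r → Derivation k E E) (hu : ∀ j, u j ∈ L)
    (hc : ∀ w ∈ L, ∃ c : Fin r → E, w = ∑ j, c j • u j ∧
      ∀ j, A.1.valuation (c j) ≤ mn m A w) {σ : Type} [Fintype σ]
    (θ : MultilinearMap E (fun _ : σ => L) E) (D : A.1.ValueGroup)
    (hθ : ∀ I : σ → Fin r, A.1.valuation (θ fun s => ⟨u (I s), hu (I s)⟩) ≤ D) (w : σ → L) :
    A.1.valuation (θ w) ≤ D * ∏ j, mn m A (w j : Derivation k E E) := by
  classical
  have hc' : ∀ s : σ, ∃ c : Fin r → E, (w s : Derivation k E E) = ∑ j, c j • u j ∧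
      ∀ j, A.1.valuation (c j) ≤ mn m A (w s : Derivation k E E) := fun s => hc _ (w s).2
  choose c hcw hcv using hc'
  have hw : w = fun s => ∑ j, c s j • (⟨u j, hu j⟩ : L) := by
    funext s
    apply Subtype.ext
    rw [hcw s]
    simp
  have hsum : θ w = ∑ I : σ → Fin r, (∏ s, c s (I s)) • θ fun s => ⟨u (I s), hu (I s)⟩ := by
    conv_lhs => rw [hw]
    rw [MultilinearMap.map_sum]
    refine Finset.sum_congr rfl fun I _ => ?_
    rw [MultilinearMap.map_smul_univ]
  rw [hsum]
  refine Valuation.map_sum_le _ fun I _ => ?_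
  rw [smul_eq_mul, map_mul, map_prod, mul_comm]
  exact mul_le_mul' (hθ I) (Finset.prod_le_prod' fun s _ => hcv s (I s))

end Pool.Agent.Lib.MP_17a322_nt.FQ
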