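import Mathlib

/-!
Minors, Gram determinants, saturated families of integer vectors: definitions.
-/

namespace Pool.Agent.Lib.MP_17a322_nt.FQ

section

variable {F : Type*} [CommRing F] {κ ι : Type*} [Fintype ι] [DecidableEq ι]

/-- The maximal minors of the matrix with the rows `y a`. -/
def mns (y : ι → κ → F) (s : ι → κ) : F := (Matrix.of fun a b => y a (s b)).det

/-- The determinant of the scalar products of the vectors `y a` and `z b`. -/
def gr2 [Fintype κ] (y z : ι → κ → F) : F := (Matrix.of fun a b => ∑ c, y a c * z b c).det

/-- The Gram determinant. -/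
def gr [Fintype κ] (y : ι → κ → F) : F := gr2 y y

end

/-- The integer vectors `y a` are linearly independent and are a basis of the group of all integer vectors in the
space spanned by them over `ℚ`. -/
def Sat {κ ι : Type*} (y : ι → κ → ℤ) : Prop :=
  LinearIndependent ℤ y ∧ ∀ (v : κ → ℤ) (n : ℤ), n ≠ 0 → n • v ∈ Submodule.span ℤ (Set.range y) →
    v ∈ Submodule.span ℤ (Set.range y)

/-- The vectors `w` and one more vector. -/
def ad {κ ι V : Type*} (w : ι → κ → V) (v : κ → V) : ι ⊕ Unit → κ → V := Sum.elim w fun _ => v

end Pool.Agent.Lib.MP_17a322_nt.FQ
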