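import Pool.Agent.Lib.MP_17a322_nt.FQ.A2
import Pool.Agent.Lib.MP_17a322_nt.FQ.S0
import Pool.Agent.Lib.MP_17a322_nt.EQ.H1

universe u

namespace Pool.Agent.Lib.MP_17a322_nt.FQ

open Height NumberField
open Pool.Agent.Lib.MP_17a322_nt.EQ

section

variable {k B : Type u} [Field k] [NumberField k] [Field B] [Algebra k B] {I : Type} (X : Evl k B I)

/-- The minors of a reindexed family. -/
private theorem A6_re {F : Type*} [CommRing F] {κ ι ι' : Type*} [Fintype ι] [DecidableEq ι] [Fintype ι']
    [DecidableEq ι'] (e : ι ≃ ι') (y : ι → κ → F) (s : ι → κ) :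
    mns (fun a => y (e.symm a)) (fun b => s (e.symm b)) = mns y s := by
  unfold mns
  exact Matrix.det_submatrix_equiv_self e.symm (Matrix.of fun a b => y a (s b))

private theorem A6_re' {F : Type*} [CommRing F] {κ ι ι' : Type*} [Fintype ι] [DecidableEq ι] [Fintype ι']
    [DecidableEq ι'] (e : ι ≃ ι') (y : ι → κ → F) (s : ι' → κ) :
    mns y (fun b => s (e b)) = mns (fun a => y (e.symm a)) s := by
  have h := A6_re e y (fun b => s (e b))
  simp only [Equiv.apply_symm_apply] at h
  exact h.symm

/-- The Pluecker coordinates and the minors of another basis. -/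
private theorem A6_prop {E : Type*} [Field E] {κ : Type*} [Fintype κ] (V : Submodule E (κ → E))
    (y : Fin (Module.finrank E V) → κ → E) (hy : ∀ k, y k ∈ V) (hi : LinearIndependent E y) :
    ∃ c : E, c ≠ 0 ∧ ∀ s, mns y s = c * plu V s := by
  set B := Module.finBasis E V with hB
  set y' : Fin (Module.finrank E V) → V := fun k => ⟨y k, hy k⟩ with hy'
  have hi' : LinearIndependent E y' := by
    apply LinearIndependent.of_comp V.subtype
    exact hi
  set P : Matrix (Fin (Module.finrank E V)) (Fin (Module.finrank E V)) E :=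
    Matrix.of fun a c => B.repr (y' a) c with hP
  have hy2 : ∀ a i, y a i = ∑ c, P a c * (B c : κ → E) i := by
    intro a i
    have h1 : (y' a : κ → E) = ((∑ c, B.repr (y' a) c • B c : V) : κ → E) := by
      rw [B.sum_repr (y' a)]
    have h2 := congrFun h1 i
    simp only [hy', Submodule.coe_sum, Submodule.coe_smul, Finset.sum_apply, Pi.smul_apply, smul_eq_mul] at h2
    exact h2
  have hdet : P.det ≠ 0 := by
    have h1 : P = (B.toMatrix y').transpose := by
      ext a c
      simp [hP, Module.Basis.toMatrix_apply]
    rw [h1, Matrix.det_transpose]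
    have h2 : IsUnit (B.toMatrix y').det := by
      have h3 : B.det y' = (B.toMatrix y').det := Module.Basis.det_apply B y'
      rw [← h3]
      exact (Module.Basis.is_basis_iff_det B).1 ⟨hi', by
        apply hi'.span_eq_top_of_card_eq_finrank'
        simp⟩
    exact h2.ne_zero
  refine ⟨P.det, hdet, fun s => ?_⟩
  unfold mns plu
  rw [← Matrix.det_mul]
  congr 1
  ext a b
  rw [Matrix.mul_apply, Matrix.of_apply, hy2]
  rfl

/-- Linearly independent vectors have a nonzero minor. -/
private theorem A6_min {F : Type*} [Field F] {κ ι : Type} [Fintype κ] [Fintype ι] [DecidableEq ι]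
    {y : ι → κ → F} (hy : LinearIndependent F y) : ∃ s, mns y s ≠ 0 := by
  let e : ι ≃ Fin (Fintype.card ι) := Fintype.equivFin ι
  obtain ⟨s, hs⟩ := H1_minor (hy.comp _ e.symm.injective)
  refine ⟨fun b => s (e b), ?_⟩
  rw [A6_re' e]
  exact hs

/-- Rows with a nonzero minor are linearly independent. -/
private theorem A6_ind {F : Type*} [Field F] {κ ι : Type*} [Fintype ι] [DecidableEq ι] {y : ι → κ → F}
    {s : ι → κ} (h : mns y s ≠ 0) : LinearIndependent F y := by
  have h1 : LinearIndependent F (Matrix.of fun a b => y a (s b)).row :=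
    Matrix.linearIndependent_rows_of_det_ne_zero h
  exact LinearIndependent.of_comp (LinearMap.funLeft F F s) h1

private theorem A6_lh {F : Type*} [Field F] [NumberField F] {α β : Type*} [Finite α] [Finite β]
    (f : α ≃ β) (S : β → F) : logHeight (fun a => S (f a)) = logHeight S := by
  apply le_antisymm
  · exact logHeight_comp_le f S
  · have h := logHeight_comp_le f.symm (fun a => S (f a))
    have h2 : (fun a => S (f a)) ∘ f.symm = S := by
      funext b
      simp
    rw [h2] at h
    exact h

/-- The height of a span is the height of the minors of a basis. -/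
theorem lPl_eq {E : Type*} [Field E] [Algebra E B] {κ ι : Type} [Fintype κ] [Fintype ι] [DecidableEq ι] (y : ι → κ → E)
    (hi : LinearIndependent E y) :
    X.lPl (Submodule.span E (Set.range y)) = X.lm (fun s : ι → κ => algebraMap E B (mns y s)) := by
  have hr : Fintype.card ι = Fintype.card (Fin (Module.finrank E (Submodule.span E (Set.range y)))) := by
    rw [Fintype.card_fin, finrank_span_eq_card hi]
  let e : ι ≃ Fin (Module.finrank E (Submodule.span E (Set.range y))) := Fintype.equivOfCardEq hr
  obtain ⟨c, hc, hc2⟩ := A6_prop (Submodule.span E (Set.range y)) (fun a => y (e.symm a))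
    (fun a => Submodule.subset_span ⟨_, rfl⟩) (hi.comp _ e.symm.injective)
  have h1 : (fun s : ι → κ => algebraMap E B (mns y s)) =
      fun s : ι → κ => algebraMap E B c * algebraMap E B
        (plu (Submodule.span E (Set.range y)) (fun b => s (e.symm b))) := by
    funext s
    rw [← map_mul, ← hc2, A6_re]
  have hsur : Function.Surjective (fun s : ι → κ => (fun b => s (e.symm b) :
      Fin (Module.finrank E (Submodule.span E (Set.range y))) → κ)) := fun s' =>
    ⟨fun a => s' (e a), by funext b; simp⟩
  have h2 := lm_comp_eq X _ hsur (fun s' : Fin (Module.finrank E (Submodule.span E (Set.range y))) → κ =>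
    algebraMap E B c * algebraMap E B (plu (Submodule.span E (Set.range y)) s'))
  have h3 : algebraMap E B c ≠ 0 := fun h => hc ((map_eq_zero _).1 h)
  have h4 := lm_smul X h3 (fun s' : Fin (Module.finrank E (Submodule.span E (Set.range y))) → κ =>
    algebraMap E B (plu (Submodule.span E (Set.range y)) s'))
  rw [h1]
  exact (h2.trans h4).symm

theorem lPl_bot {E : Type*} [Field E] [Algebra E B] {κ : Type} [Fintype κ] :
    X.lPl (⊥ : Submodule E (κ → E)) = 0 := by
  have h0 : IsEmpty (Fin (Module.finrank E (⊥ : Submodule E (κ → E)))) := by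
    rw [finrank_bot]
    infer_instance
  have h1 : (fun s : Fin (Module.finrank E (⊥ : Submodule E (κ → E))) → κ =>
      algebraMap E B (plu (⊥ : Submodule E (κ → E)) s)) =
      fun _ => algebraMap E B (plu (⊥ : Submodule E (κ → E)) (fun b => (h0.false b).elim)) := by
    funext s
    congr 2
    exact Subsingleton.elim _ _
  unfold Evl.lPl
  rw [h1]
  exact lm_single X _

/-- Linearly independent vectors over `B` have linearly independent values eventually: some minor is not zero (`EQ.H1_minor`). -/
theorem ev_indep {κ ι : Type} [Fintype κ] [Fintype ι] [DecidableEq ι] (y : ι → κ → B) (hy : LinearIndependent B y) :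
    ∀ᶠ i in (X.U : Filter I), LinearIndependent k (fun a b => X.ev (y a b) i) := by
  obtain ⟨s, hs⟩ := A6_min hy
  filter_upwards [ev_ne X hs, ev_det X (Matrix.of fun a b => y a (s b))] with i h1 h2
  unfold mns at h1
  rw [h2] at h1
  exact A6_ind (s := s) h1

theorem mns_ne {F : Type*} [Field F] {κ ι : Type} [Fintype κ] [Fintype ι] [DecidableEq ι] {y : ι → κ → F}
    (hy : LinearIndependent F y) : mns y ≠ 0 := by
  obtain ⟨s, hs⟩ := A6_min hy
  intro h
  exact hs (congrFun h s)

/-- `hPl` of a span, with an arbitrary index type. -/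
theorem hPl_span {F : Type u} [Field F] [NumberField F] {κ ι : Type} [Fintype κ] [Fintype ι] [DecidableEq ι]
    (y : ι → κ → F) (hy : LinearIndependent F y) :
    hPl (Submodule.span F (Set.range y)) = logHeight (mns y) := by
  let e : ι ≃ Fin (Fintype.card ι) := Fintype.equivFin ι
  have h1 := hPl_eq (Submodule.span F (Set.range y)) (finrank_span_eq_card hy)
    (fun a => y (e.symm a)) (fun a => Submodule.subset_span ⟨_, rfl⟩) (hy.comp _ e.symm.injective)
  rw [h1]
  have h2 := A6_lh (e.arrowCongr (Equiv.refl κ)) (mns fun a => y (e.symm a))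
  have h3 : (fun s : ι → κ => mns (fun a => y (e.symm a)) ((e.arrowCongr (Equiv.refl κ)) s)) = mns y := by
    funext s
    exact A6_re e y s
  rw [h3] at h2
  exact h2.symm

theorem ev_hPl {κ ι : Type} [Fintype κ] [Fintype ι] [DecidableEq ι] (y : ι → κ → B) (hy : LinearIndependent B y) :
    ∀ᶠ i in (X.U : Filter I), logHeight (fun s : ι → κ => X.ev (mns y s) i) =
      hPl (Submodule.span k (Set.range fun a b => X.ev (y a b) i)) := by
  have h1 : ∀ᶠ i in (X.U : Filter I), ∀ s : ι → κ,
      X.ev (mns y s) i = mns (fun a b => X.ev (y a b) i) s := by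
    rw [Filter.eventually_all]
    intro s
    exact ev_det X (Matrix.of fun a b => y a (s b))
  filter_upwards [h1, ev_indep X y hy] with i h2 h3
  rw [hPl_span _ h3]
  congr 1
  funext s
  exact h2 s

theorem lm_hPl {κ ι : Type} [Fintype κ] [Fintype ι] [DecidableEq ι] (y : ι → κ → B) (hy : LinearIndependent B y) :
    Filter.Tendsto (fun i => hPl (Submodule.span k (Set.range fun a b => X.ev (y a b) i)) / X.h i)
      (X.U : Filter I) (nhds (X.lm (mns y))) := by
  refine (lm_tendsto X (mns y)).congr' ?_
  filter_upwards [ev_hPl X y hy] with i h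
  rw [h]

end

end Pool.Agent.Lib.MP_17a322_nt.FQ
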