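import Pool.Agent.Lib.MP_17a322_nt.FQ.N2

/-!
Submodularity, comparison of two norms, quotient norms.
-/

namespace Pool.Agent.Lib.MP_17a322_nt.FQ

section

variable {W G κ κ' α β δ : Type*} [Field W] [LinearOrderedCommGroupWithZero G] (v : Valuation W G)
  [Fintype κ] [Fintype κ'] [Fintype α] [DecidableEq α] [Fintype β] [DecidableEq β] [Fintype δ]
  [DecidableEq δ]

omit [Fintype κ] [Fintype α] [Fintype β] [DecidableEq α] [DecidableEq β] in
private theorem N3_indep_left {x : α → κ → W} {y : β → κ → W}
    (h : LinearIndependent W (Sum.elim x y)) : LinearIndependent W x := by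
  have h1 : x = Sum.elim x y ∘ Sum.inl := rfl
  rw [h1]
  exact h.comp _ Sum.inl_injective

omit [DecidableEq α] [DecidableEq β] [DecidableEq δ] in
/-- An orthonormal frame adapted to three consecutive blocks. -/
theorem exists_onFr_sum3 (w : α → κ → W) (x : β → κ → W) (y : δ → κ → W)
    [DecidableEq α] [DecidableEq β] [DecidableEq δ]
    (h : LinearIndependent W (Sum.elim w (Sum.elim x y))) :
    ∃ (e g : α ⊕ (β ⊕ δ) → κ → W) (A : α → α → W) (B : β → α → W) (C : β → β → W) (D : δ → α → W)
      (E : δ → β → W) (F : δ → δ → W), OnFr v e g ∧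
      (∀ j, w j = ∑ k, A j k • e (Sum.inl k)) ∧
      (∀ j, x j = ∑ k, B j k • e (Sum.inl k) + ∑ k, C j k • e (Sum.inr (Sum.inl k))) ∧
      (∀ j, y j = ∑ k, D j k • e (Sum.inl k) + (∑ k, E j k • e (Sum.inr (Sum.inl k)) +
        ∑ k, F j k • e (Sum.inr (Sum.inr k)))) := by
  let q : α ⊕ (β ⊕ δ) ≃ Fin (Fintype.card α + (Fintype.card β + Fintype.card δ)) :=
    (Equiv.sumCongr (Fintype.equivFin α) ((Equiv.sumCongr (Fintype.equivFin β)
      (Fintype.equivFin δ)).trans finSumFinEquiv)).trans finSumFinEquiv
  obtain ⟨e, g, s, hon, hs, htri⟩ := exists_onFr_ord v q _ h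
  have h1 : ∀ (j : α) (k : β ⊕ δ), q (Sum.inl j) < q (Sum.inr k) := by
    intro j k
    have h2 : q (Sum.inl j) = Fin.castAdd _ (Fintype.equivFin α j) := rfl
    have h3 : q (Sum.inr k) = Fin.natAdd (Fintype.card α) ((Equiv.sumCongr (Fintype.equivFin β)
      (Fintype.equivFin δ)).trans finSumFinEquiv k) := rfl
    rw [h2, h3, Fin.lt_def, Fin.val_castAdd, Fin.val_natAdd]
    have h4 := (Fintype.equivFin α j).2
    omega
  have h2 : ∀ (j : β) (k : δ), q (Sum.inr (Sum.inl j)) < q (Sum.inr (Sum.inr k)) := by
    intro j k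
    have h3 : q (Sum.inr (Sum.inl j)) = Fin.natAdd (Fintype.card α)
      (Fin.castAdd (Fintype.card δ) (Fintype.equivFin β j)) := rfl
    have h4 : q (Sum.inr (Sum.inr k)) = Fin.natAdd (Fintype.card α)
      (Fin.natAdd (Fintype.card β) (Fintype.equivFin δ k)) := rfl
    rw [h3, h4, Fin.lt_def, Fin.val_natAdd, Fin.val_natAdd, Fin.val_castAdd, Fin.val_natAdd]
    have h5 := (Fintype.equivFin β j).2
    omega
  refine ⟨e, g, fun j k => s (Sum.inl j) (Sum.inl k), fun j k => s (Sum.inr (Sum.inl j)) (Sum.inl k),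
    fun j k => s (Sum.inr (Sum.inl j)) (Sum.inr (Sum.inl k)),
    fun j k => s (Sum.inr (Sum.inr j)) (Sum.inl k),
    fun j k => s (Sum.inr (Sum.inr j)) (Sum.inr (Sum.inl k)),
    fun j k => s (Sum.inr (Sum.inr j)) (Sum.inr (Sum.inr k)), hon, ?_, ?_, ?_⟩
  · intro j
    have h3 := hs (Sum.inl j)
    rw [Sum.elim_inl, Fintype.sum_sum_type] at h3
    rw [h3]
    have h4 : ∑ k : β ⊕ δ, s (Sum.inl j) (Sum.inr k) • e (Sum.inr k) = 0 :=
      Finset.sum_eq_zero fun k _ => by rw [htri _ _ (h1 j k), zero_smul]
    rw [h4, add_zero]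
  · intro j
    have h3 := hs (Sum.inr (Sum.inl j))
    rw [Sum.elim_inr, Sum.elim_inl, Fintype.sum_sum_type, Fintype.sum_sum_type] at h3
    rw [h3]
    have h4 : ∑ k : δ, s (Sum.inr (Sum.inl j)) (Sum.inr (Sum.inr k)) • e (Sum.inr (Sum.inr k)) = 0 :=
      Finset.sum_eq_zero fun k _ => by rw [htri _ _ (h2 j k), zero_smul]
    rw [h4, add_zero]
  · intro j
    have h3 := hs (Sum.inr (Sum.inr j))
    rw [Sum.elim_inr, Sum.elim_inr, Fintype.sum_sum_type, Fintype.sum_sum_type] at h3
    exact h3

/-- An orthonormal frame adapted to two consecutive blocks. -/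
theorem exists_onFr_sum2 (x : α → κ → W) (y : β → κ → W)
    (h : LinearIndependent W (Sum.elim x y)) :
    ∃ (e g : α ⊕ β → κ → W) (A : α → α → W) (B : β → α → W) (C : β → β → W), OnFr v e g ∧
      (∀ j, x j = ∑ k, A j k • e (Sum.inl k)) ∧
      (∀ j, y j = ∑ k, B j k • e (Sum.inl k) + ∑ k, C j k • e (Sum.inr k)) := by
  have h0 : Sum.elim x (Sum.elim y (fun j : Empty => (j.elim : κ → W))) =
      Sum.elim x y ∘ Sum.map id (Equiv.sumEmpty β Empty) := by
    funext j
    rcases j with j | j | j
    · rfl
    · rfl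
    · exact j.elim
  have h1 : LinearIndependent W (Sum.elim x (Sum.elim y (fun j : Empty => (j.elim : κ → W)))) := by
    rw [h0]
    exact h.comp _ (Sum.map_injective.2 ⟨Function.injective_id, Equiv.injective _⟩)
  obtain ⟨e, g, A, B, C, D, E, F, hon, hx, hy, -⟩ :=
    exists_onFr_sum3 v x y (fun j : Empty => (j.elim : κ → W)) h1
  let f : α ⊕ β → α ⊕ (β ⊕ Empty) := Sum.map id Sum.inl
  have hf : Function.Injective f := Sum.map_injective.2 ⟨Function.injective_id, Sum.inl_injective⟩
  refine ⟨fun j => e (f j), fun j => g (f j), A, B, C, ⟨?_, ?_, ?_⟩, hx, hy⟩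
  · intro j k
    rw [hon.1 (f j) (f k)]
    simp only [hf.eq_iff]
  · exact fun j a => hon.2.1 (f j) a
  · exact fun j a => hon.2.2 (f j) a

omit [Fintype α] [Fintype β] in
theorem OnFr.comp {v : Valuation W G} {e g : α → κ → W} (h : OnFr v e g) (f : β → α)
    (hf : Function.Injective f) : OnFr v (fun j => e (f j)) (fun j => g (f j)) := by
  refine ⟨?_, ?_, ?_⟩
  · intro j k
    rw [h.1 (f j) (f k)]
    simp only [hf.eq_iff]
  · exact fun j a => h.2.1 (f j) a
  · exact fun j a => h.2.2 (f j) a

/-- The minors of two blocks in an adapted frame. -/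
theorem OnFr.vn_plk_sum2 {v : Valuation W G} {e g : α ⊕ β → κ → W} (h : OnFr v e g)
    {x : α → κ → W} {y : β → κ → W} {A : α → α → W} {B : β → α → W} {C : β → β → W}
    (hx : ∀ j, x j = ∑ k, A j k • e (Sum.inl k))
    (hy : ∀ j, y j = ∑ k, B j k • e (Sum.inl k) + ∑ k, C j k • e (Sum.inr k)) :
    vn v (plk (Sum.elim x y)) = v (Matrix.of A).det * v (Matrix.of C).det := by
  have h1 : Sum.elim x y = fun j => ∑ k, (Matrix.fromBlocks (Matrix.of A) 0 (Matrix.of B)
      (Matrix.of C) j k) • e k := by
    funext j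
    rcases j with j | j
    · rw [Sum.elim_inl, hx j, Fintype.sum_sum_type]
      simp only [Matrix.fromBlocks_apply₁₁, Matrix.fromBlocks_apply₁₂, Matrix.zero_apply, zero_smul,
        Finset.sum_const_zero, add_zero, Matrix.of_apply]
    · rw [Sum.elim_inr, hy j, Fintype.sum_sum_type]
      simp only [Matrix.fromBlocks_apply₂₁, Matrix.fromBlocks_apply₂₂, Matrix.of_apply]
  rw [h1, h.vn_plk]
  have h2 : (Matrix.of fun j k => (Matrix.fromBlocks (Matrix.of A) 0 (Matrix.of B)
      (Matrix.of C) j k)) = Matrix.fromBlocks (Matrix.of A) 0 (Matrix.of B) (Matrix.of C) := rfl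
  rw [← map_mul, ← Matrix.det_fromBlocks_zero₁₂]
  rfl

/-- SUBMODULARITY of the maximal minors. -/
theorem vn_plk_submod (w : α → κ → W) (x : β → κ → W) (y : δ → κ → W) :
    vn v (plk w) * vn v (plk (Sum.elim w (Sum.elim x y))) ≤
      vn v (plk (Sum.elim w x)) * vn v (plk (Sum.elim w y)) := by
  by_cases h : LinearIndependent W (Sum.elim w (Sum.elim x y))
  · obtain ⟨e, g, A, B, C, D, E, F, hon, hw, hx, hy⟩ := exists_onFr_sum3 v w x y h
    have h1 : vn v (plk w) = v (Matrix.of A).det := by
      rw [funext hw]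
      exact (hon.comp Sum.inl Sum.inl_injective).vn_plk A
    have hf : Function.Injective (Sum.map id Sum.inl : α ⊕ β → α ⊕ (β ⊕ δ)) :=
      Sum.map_injective.2 ⟨Function.injective_id, Sum.inl_injective⟩
    have h2 : vn v (plk (Sum.elim w x)) = v (Matrix.of A).det * v (Matrix.of C).det :=
      (hon.comp (Sum.map id Sum.inl : α ⊕ β → α ⊕ (β ⊕ δ)) hf).vn_plk_sum2 hw hx
    have h3 : vn v (plk (Sum.elim w (Sum.elim x y))) = v (Matrix.of A).det *
        (v (Matrix.of C).det * v (Matrix.of F).det) := by
      have h4 := hon.vn_plk_sum2 (x := w) (y := Sum.elim x y) (A := A) (B := Sum.elim B D)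
        (C := Matrix.fromBlocks (Matrix.of C) 0 (Matrix.of E) (Matrix.of F)) hw ?_
      · rw [h4, ← map_mul v (Matrix.of C).det, ← Matrix.det_fromBlocks_zero₁₂]
        rfl
      · intro j
        rcases j with j | j
        · rw [Sum.elim_inl, hx j, Fintype.sum_sum_type]
          simp only [Matrix.fromBlocks_apply₁₁, Matrix.fromBlocks_apply₁₂, Matrix.zero_apply,
            zero_smul, Finset.sum_const_zero, add_zero, Matrix.of_apply, Sum.elim_inl]
        · rw [Sum.elim_inr, hy j, Fintype.sum_sum_type]
          simp only [Matrix.fromBlocks_apply₂₁, Matrix.fromBlocks_apply₂₂, Matrix.of_apply,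
            Sum.elim_inr]
    have h5 : v (Matrix.of A).det * v (Matrix.of F).det ≤ vn v (plk (Sum.elim w y)) := by
      let f : α ⊕ δ → α ⊕ (β ⊕ δ) := Sum.map id Sum.inr
      have h6 := vn_plk_map v (fun k : α ⊕ δ => g (f k)) 1 (fun k a => hon.2.2 (f k) a)
        (Sum.elim w y)
      rw [one_pow, one_mul, vn_plk_square] at h6
      refine le_trans (le_of_eq ?_) h6
      rw [← map_mul, ← Matrix.det_fromBlocks_zero₁₂ (Matrix.of A) (Matrix.of D) (Matrix.of F)]
      congr 2
      ext j k
      have hc1 : ∀ (c : α ⊕ (β ⊕ δ) → W) (z : κ → W), z = ∑ k, c k • e k → ∀ k,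
          ∑ a, g k a * z a = c k := by
        rintro c z rfl k
        exact hon.coord c k
      rcases j with j | j
      · have h7 := hc1 (Sum.elim (A j) 0) (w j) (by
          rw [hw j, Fintype.sum_sum_type]
          simp only [Sum.elim_inl, Sum.elim_inr, Pi.zero_apply, zero_smul, Finset.sum_const_zero,
            add_zero])
        rcases k with k | k
        · exact (h7 (Sum.inl k)).symm
        · exact (h7 (Sum.inr (Sum.inr k))).symm
      · have h7 := hc1 (Sum.elim (D j) (Sum.elim (E j) (F j))) (y j) (by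
          rw [hy j, Fintype.sum_sum_type, Fintype.sum_sum_type]
          simp only [Sum.elim_inl, Sum.elim_inr])
        rcases k with k | k
        · exact (h7 (Sum.inl k)).symm
        · exact (h7 (Sum.inr (Sum.inr k))).symm
    rw [h1, h2, h3]
    calc v (Matrix.of A).det * (v (Matrix.of A).det * (v (Matrix.of C).det * v (Matrix.of F).det))
        = v (Matrix.of A).det * v (Matrix.of C).det *
          (v (Matrix.of A).det * v (Matrix.of F).det) := by
            ac_rfl
      _ ≤ _ := mul_le_mul' le_rfl h5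
  · rw [plk_eq_zero h, (vn_eq_zero v).2 rfl, mul_zero]
    exact zero_le

/-- COMPARISON of two norms on a space (spanned by `x`, `y`) and on a subspace (spanned by `x`). -/
theorem vn_plk_compare (x : α → κ → W) (y : β → κ → W) (x' : α → κ' → W) (y' : β → κ' → W) (γ : G)
    (h : ∀ c : α ⊕ β → W, vn v (∑ j, c j • Sum.elim x y j) ≤ γ * vn v (∑ j, c j • Sum.elim x' y' j)) :
    vn v (plk x') * vn v (plk (Sum.elim x y)) ≤
      vn v (plk (Sum.elim x' y')) * vn v (plk x) * γ ^ Fintype.card β := by
  by_cases hxy : LinearIndependent W (Sum.elim x y)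
  · have hxy' : LinearIndependent W (Sum.elim x' y') := by
      by_contra hc
      rw [Fintype.not_linearIndependent_iff] at hc
      obtain ⟨c, hc, i₀, hi₀⟩ := hc
      have h1 := h c
      rw [hc, (vn_eq_zero v).2 rfl, mul_zero, le_zero_iff, vn_eq_zero] at h1
      exact hi₀ (Fintype.linearIndependent_iff.1 hxy c h1 i₀)
    obtain ⟨e, g, A, B, C, hon, hx, hy⟩ := exists_onFr_sum2 v x y hxy
    obtain ⟨e', g', A', B', C', hon', hx', hy'⟩ := exists_onFr_sum2 v x' y' hxy'
    have h1 : vn v (plk x) = v (Matrix.of A).det := by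
      rw [funext hx]
      exact (hon.comp Sum.inl Sum.inl_injective).vn_plk A
    have h1' : vn v (plk x') = v (Matrix.of A').det := by
      rw [funext hx']
      exact (hon'.comp Sum.inl Sum.inl_injective).vn_plk A'
    rw [hon.vn_plk_sum2 hx hy, hon'.vn_plk_sum2 hx' hy', h1, h1']
    have hA' : (Matrix.of A').det ≠ 0 := det_ne_zero_of_indep (N3_indep_left hxy') hx'
    have hcomb : ∀ (e₀ : α ⊕ β → κ → W) (A₀ : α → α → W) (B₀ : β → α → W) (C₀ : β → β → W)
        (x₀ : α → κ → W) (y₀ : β → κ → W), (∀ j, x₀ j = ∑ k, A₀ j k • e₀ (Sum.inl k)) →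
        (∀ j, y₀ j = ∑ k, B₀ j k • e₀ (Sum.inl k) + ∑ k, C₀ j k • e₀ (Sum.inr k)) →
        ∀ (a : α → W) (c : β → W), ∑ j, (Sum.elim a c) j • Sum.elim x₀ y₀ j =
          ∑ k, (Sum.elim (∑ j, a j • A₀ j + ∑ j, c j • B₀ j) (∑ j, c j • C₀ j)) k • e₀ k := by
      intro e₀ A₀ B₀ C₀ x₀ y₀ hx₀ hy₀ a c
      rw [Fintype.sum_sum_type, Fintype.sum_sum_type]
      simp only [Sum.elim_inl, Sum.elim_inr, hx₀, hy₀, Pi.add_apply, Finset.sum_apply, Pi.smul_apply,
        smul_add, add_smul, Finset.smul_sum, Finset.sum_smul, smul_smul, smul_eq_mul,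
        Finset.sum_add_distrib]
      rw [Finset.sum_comm, Finset.sum_comm (f := fun x y => (c x * B₀ x y) • e₀ (Sum.inl y)),
        Finset.sum_comm (f := fun x y => (c x * C₀ x y) • e₀ (Sum.inr y)), add_assoc]
    have hcomb' : ∀ (e₀ : α ⊕ β → κ' → W) (A₀ : α → α → W) (B₀ : β → α → W) (C₀ : β → β → W)
        (x₀ : α → κ' → W) (y₀ : β → κ' → W), (∀ j, x₀ j = ∑ k, A₀ j k • e₀ (Sum.inl k)) →
        (∀ j, y₀ j = ∑ k, B₀ j k • e₀ (Sum.inl k) + ∑ k, C₀ j k • e₀ (Sum.inr k)) →
        ∀ (a : α → W) (c : β → W), ∑ j, (Sum.elim a c) j • Sum.elim x₀ y₀ j =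
          ∑ k, (Sum.elim (∑ j, a j • A₀ j + ∑ j, c j • B₀ j) (∑ j, c j • C₀ j)) k • e₀ k := by
      intro e₀ A₀ B₀ C₀ x₀ y₀ hx₀ hy₀ a c
      rw [Fintype.sum_sum_type, Fintype.sum_sum_type]
      simp only [Sum.elim_inl, Sum.elim_inr, hx₀, hy₀, Pi.add_apply, Finset.sum_apply, Pi.smul_apply,
        smul_add, add_smul, Finset.smul_sum, Finset.sum_smul, smul_smul, smul_eq_mul,
        Finset.sum_add_distrib]
      rw [Finset.sum_comm, Finset.sum_comm (f := fun x y => (c x * B₀ x y) • e₀ (Sum.inl y)),
        Finset.sum_comm (f := fun x y => (c x * C₀ x y) • e₀ (Sum.inr y)), add_assoc]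
    have hC : v (Matrix.of C).det ≤ γ ^ Fintype.card β * v (Matrix.of C').det := by
      rw [← vn_plk_square, ← vn_plk_square]
      apply vn_plk_mono
      intro c
      have ha : ∃ a : α → W, ∑ j, a j • A' j + ∑ j, c j • B' j = 0 := by
        refine ⟨Matrix.vecMul (-∑ j, c j • B' j) (Matrix.of A')⁻¹, ?_⟩
        have h2 : ∀ a : α → W, ∑ j, a j • A' j = Matrix.vecMul a (Matrix.of A') := by
          intro a
          funext k
          rw [Finset.sum_apply]
          rfl
        rw [h2, Matrix.vecMul_vecMul, Matrix.nonsing_inv_mul _ (isUnit_iff_ne_zero.2 hA'),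
          Matrix.vecMul_one]
        exact neg_add_cancel _
      obtain ⟨a, ha⟩ := ha
      have h2 := h (Sum.elim a c)
      rw [hcomb e A B C x y hx hy, hcomb' e' A' B' C' x' y' hx' hy', hon.vn_eq, hon'.vn_eq, ha] at h2
      have h3 : vn v (∑ j, c j • C j) ≤
          vn v (Sum.elim (∑ j, a j • A j + ∑ j, c j • B j) (∑ j, c j • C j)) := by
        apply vn_le
        intro k
        exact le_vn v (Sum.elim (∑ j, a j • A j + ∑ j, c j • B j) (∑ j, c j • C j)) (Sum.inr k)
      have h4 : vn v (Sum.elim (0 : α → W) (∑ j, c j • C' j)) ≤ vn v (∑ j, c j • C' j) := by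
        apply vn_le
        intro k
        rcases k with k | k
        · rw [Sum.elim_inl, Pi.zero_apply, map_zero]
          exact zero_le
        · exact le_vn v (∑ j, c j • C' j) k
      exact h3.trans (h2.trans (mul_le_mul_right h4 _))
    calc v (Matrix.of A').det * (v (Matrix.of A).det * v (Matrix.of C).det)
        ≤ v (Matrix.of A').det * (v (Matrix.of A).det *
          (γ ^ Fintype.card β * v (Matrix.of C').det)) :=
            mul_le_mul' le_rfl (mul_le_mul' le_rfl hC)
      _ = v (Matrix.of A').det * v (Matrix.of C').det * v (Matrix.of A).det *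
          γ ^ Fintype.card β := by ac_rfl
  · rw [plk_eq_zero hxy, (vn_eq_zero v).2 rfl, mul_zero]
    exact zero_le

/-- The minors are submultiplicative. -/
theorem vn_plk_sum_le (x : β → κ → W) (y : δ → κ → W) :
    vn v (plk (Sum.elim x y)) ≤ vn v (plk x) * vn v (plk y) := by
  have h1 := vn_plk_submod v (fun j : Empty => (j.elim : κ → W)) x y
  rw [vn_plk_empty, one_mul] at h1
  have h3 : vn v (plk (Sum.elim (fun j : Empty => (j.elim : κ → W)) (Sum.elim x y))) =
      vn v (plk (Sum.elim x y)) := by
    rw [← vn_plk_reindex v (Sum.elim x y) (Equiv.emptySum Empty (β ⊕ δ))]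
    congr 2
    funext j
    rcases j with j | j
    · exact j.elim
    · rfl
  have h4 : vn v (plk (Sum.elim (fun j : Empty => (j.elim : κ → W)) x)) = vn v (plk x) := by
    rw [← vn_plk_reindex v x (Equiv.emptySum Empty β)]
    congr 2
    funext j
    rcases j with j | j
    · exact j.elim
    · rfl
  have h5 : vn v (plk (Sum.elim (fun j : Empty => (j.elim : κ → W)) y)) = vn v (plk y) := by
    rw [← vn_plk_reindex v y (Equiv.emptySum Empty δ)]
    congr 2
    funext j
    rcases j with j | j
    · exact j.elim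
    · rfl
  rw [h3, h4, h5] at h1
  exact h1

/-- The minors of one vector. -/
theorem vn_plk_unit (b : κ → W) : vn v (plk fun _ : Unit => b) = vn v b := by
  apply le_antisymm
  · have h := vn_plk_le_prod v (fun _ : Unit => b)
    rw [Fintype.prod_unique] at h
    exact h
  · apply vn_le
    intro a
    have h := le_vn v (plk fun _ : Unit => b) (fun _ => a)
    rw [plk_apply, Matrix.det_unique] at h
    exact h

/-- The quotient norm is at most the norm of every representative. -/
theorem vn_quot_le (w : α → κ → W) (b : κ → W) (a : α → W) :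
    vn v (plk (Sum.elim w (fun _ : Unit => b))) ≤ vn v (plk w) * vn v (b + ∑ j, a j • w j) := by
  have h1 : vn v (plk (Sum.elim w (fun _ : Unit => b + ∑ j, a j • w j))) =
      vn v (plk (Sum.elim w (fun _ : Unit => b))) := by
    have h2 : Sum.elim w (fun _ : Unit => b + ∑ j, a j • w j) = fun j => ∑ k,
        (Matrix.fromBlocks (1 : Matrix α α W) 0 (Matrix.of fun _ j => a j) (1 : Matrix Unit Unit W)
          j k) • (Sum.elim w (fun _ : Unit => b)) k := by
      funext j
      rcases j with j | j
      · rw [Sum.elim_inl, Fintype.sum_sum_type]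
        simp only [Matrix.fromBlocks_apply₁₁, Matrix.fromBlocks_apply₁₂, Matrix.zero_apply,
          zero_smul, Finset.sum_const_zero, add_zero, Sum.elim_inl, Matrix.one_apply, ite_smul,
          one_smul, Finset.sum_ite_eq, Finset.mem_univ, if_true]
      · rw [Sum.elim_inr, Fintype.sum_sum_type]
        simp only [Matrix.fromBlocks_apply₂₁, Matrix.fromBlocks_apply₂₂, Matrix.of_apply,
          Sum.elim_inl, Sum.elim_inr, Matrix.one_apply, one_smul, if_true, Finset.univ_unique,
          Finset.sum_singleton]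
        rw [add_comm]
    rw [h2, vn_plk_comb_vec]
    have h3 : (Matrix.of fun j k => (Matrix.fromBlocks (1 : Matrix α α W) 0
        (Matrix.of fun _ j => a j) (1 : Matrix Unit Unit W) j k)) =
        Matrix.fromBlocks (1 : Matrix α α W) 0 (Matrix.of fun _ j => a j)
          (1 : Matrix Unit Unit W) := rfl
    rw [h3, Matrix.det_fromBlocks_zero₁₂, Matrix.det_one, Matrix.det_one, one_mul, map_one, one_mul]
  rw [← h1, ← vn_plk_unit v (b + ∑ j, a j • w j)]
  exact vn_plk_sum_le v w _

/-- The quotient norm is attained. -/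
theorem vn_quot_attained (w : α → κ → W) (b : κ → W) :
    ∃ a : α → W, vn v (plk (Sum.elim w (fun _ : Unit => b))) =
      vn v (plk w) * vn v (b + ∑ j, a j • w j) := by
  by_cases hw : LinearIndependent W w
  · by_cases hwb : LinearIndependent W (Sum.elim w (fun _ : Unit => b))
    · obtain ⟨e, g, A, B, C, hon, hx, hy⟩ := exists_onFr_sum2 v w (fun _ : Unit => b) hwb
      have hA : (Matrix.of A).det ≠ 0 := det_ne_zero_of_indep hw hx
      have h1 : vn v (plk w) = v (Matrix.of A).det := by
        rw [funext hx]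
        exact (hon.comp Sum.inl Sum.inl_injective).vn_plk A
      have ha : ∃ a : α → W, ∑ j, a j • A j + B () = 0 := by
        refine ⟨Matrix.vecMul (-B ()) (Matrix.of A)⁻¹, ?_⟩
        have h2 : ∀ a : α → W, ∑ j, a j • A j = Matrix.vecMul a (Matrix.of A) := by
          intro a
          funext k
          rw [Finset.sum_apply]
          rfl
        rw [h2, Matrix.vecMul_vecMul, Matrix.nonsing_inv_mul _ (isUnit_iff_ne_zero.2 hA),
          Matrix.vecMul_one]
        exact neg_add_cancel _
      obtain ⟨a, ha⟩ := ha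
      refine ⟨a, ?_⟩
      rw [hon.vn_plk_sum2 hx hy, h1]
      congr 1
      have h3 : b + ∑ j, a j • w j = C () () • e (Sum.inr ()) := by
        have h4 : ∑ j, a j • w j = ∑ k, (∑ j, a j • A j) k • e (Sum.inl k) := by
          simp only [hx, Finset.smul_sum, smul_smul, Finset.sum_apply, Pi.smul_apply, smul_eq_mul,
            Finset.sum_smul]
          rw [Finset.sum_comm]
        have h5 : ∑ j, a j • A j = -B () := by
          rw [← add_eq_zero_iff_eq_neg]
          exact ha
        rw [h4, h5, hy ()]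
        simp only [Pi.neg_apply, neg_smul, Finset.sum_neg_distrib, Finset.univ_unique,
          Finset.sum_singleton, PUnit.default_eq_unit]
        abel
      rw [h3, vn_smul, Matrix.det_unique]
      have h6 : vn v (e (Sum.inr ())) = 1 := by
        apply le_antisymm (vn_le v (hon.2.1 _))
        have h7 := hon.1 (Sum.inr ()) (Sum.inr ())
        rw [if_pos rfl] at h7
        have h8 : v (∑ a, g (Sum.inr ()) a * e (Sum.inr ()) a) ≤ vn v (e (Sum.inr ())) := by
          apply v.map_sum_le
          intro a _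
          rw [map_mul]
          calc v (g (Sum.inr ()) a) * v (e (Sum.inr ()) a) ≤ 1 * vn v (e (Sum.inr ())) :=
                mul_le_mul' (hon.2.2 _ a) (le_vn v _ a)
            _ = _ := one_mul _
        rw [h7, map_one] at h8
        exact h8
      rw [h6, mul_one]
      rfl
    · have h0 := hwb
      rw [Fintype.not_linearIndependent_iff] at h0
      obtain ⟨c, hc, i₀, hi₀⟩ := h0
      rw [Fintype.sum_sum_type] at hc
      simp only [Sum.elim_inl, Sum.elim_inr, Finset.univ_unique, Finset.sum_singleton,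
        PUnit.default_eq_unit] at hc
      have hc0 : c (Sum.inr ()) ≠ 0 := by
        intro h0
        rw [h0, zero_smul, add_zero] at hc
        have h1 := Fintype.linearIndependent_iff.1 hw (fun j => c (Sum.inl j)) hc
        rcases i₀ with i | i
        · exact hi₀ (h1 i)
        · exact hi₀ h0
      refine ⟨fun j => (c (Sum.inr ()))⁻¹ * c (Sum.inl j), ?_⟩
      have h2 : b + ∑ j, ((c (Sum.inr ()))⁻¹ * c (Sum.inl j)) • w j = 0 := by
        have h3 : ∑ j, ((c (Sum.inr ()))⁻¹ * c (Sum.inl j)) • w j =
            (c (Sum.inr ()))⁻¹ • ∑ j, c (Sum.inl j) • w j := by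
          rw [Finset.smul_sum]
          exact Finset.sum_congr rfl fun j _ => (smul_smul _ _ _).symm
        have h4 : ∑ j, c (Sum.inl j) • w j = -(c (Sum.inr ()) • b) := by
          rw [← add_eq_zero_iff_eq_neg]
          exact hc
        rw [h3, h4, smul_neg, smul_smul, inv_mul_cancel₀ hc0, one_smul, add_neg_cancel]
      rw [plk_eq_zero hwb, (vn_eq_zero v).2 rfl, h2, (vn_eq_zero v).2 rfl, mul_zero]
  · refine ⟨0, ?_⟩
    have h1 : ¬ LinearIndependent W (Sum.elim w (fun _ : Unit => b)) :=
      fun h => hw (N3_indep_left h)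
    rw [plk_eq_zero hw, plk_eq_zero h1, (vn_eq_zero v).2 rfl, (vn_eq_zero v).2 rfl, zero_mul]

omit [Fintype κ] [DecidableEq β] in
/-- The minors are linear in the last vector. -/
theorem plk_quot_sum (w : α → κ → W) (y : β → κ → W) (c : β → W) :
    plk (Sum.elim w (fun _ : Unit => ∑ j, c j • y j)) =
      ∑ j, c j • plk (Sum.elim w (fun _ : Unit => y j)) := by
  funext I
  let f : MultilinearMap W (fun _ : α ⊕ Unit => κ → W) W :=
    (Matrix.detRowAlternating (n := α ⊕ Unit) (R := W)).toMultilinearMap.compLinearMap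
      (fun _ => LinearMap.funLeft W W I)
  have hf : ∀ x : α ⊕ Unit → κ → W, plk x I = f x := by
    intro x
    rw [plk_apply, ← Matrix.det_transpose]
    rfl
  have hu : ∀ u : κ → W, (Sum.elim w (fun _ : Unit => u)) =
      Function.update (Sum.elim w (fun _ : Unit => 0)) (Sum.inr ()) u := by
    intro u
    funext j
    rcases j with j | j
    · rw [Function.update_of_ne (by simp)]
      rfl
    · rw [Function.update_self]
      rfl
  rw [hf, hu, MultilinearMap.map_update_sum, Finset.sum_apply]
  apply Finset.sum_congr rfl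
  intro j _
  rw [MultilinearMap.map_update_smul, ← hu, ← hf, Pi.smul_apply]

/-- The minors for the quotient norm, which is given by the functionals `u ↦ plk (w, u)`. -/
theorem vn_plk_quot (w : α → κ → W) (y : β → κ → W) :
    vn v (plk fun j => plk (Sum.elim w (fun _ : Unit => y j))) * vn v (plk w) =
      vn v (plk (Sum.elim w y)) * vn v (plk w) ^ Fintype.card β := by
  by_cases hw : LinearIndependent W w
  · by_cases hwy : LinearIndependent W (Sum.elim w y)
    · obtain ⟨e, g, A, B, C, hon, hx, hy⟩ := exists_onFr_sum2 v w y hwy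
      have hA : (Matrix.of A).det ≠ 0 := det_ne_zero_of_indep hw hx
      have hvA : v (Matrix.of A).det ≠ 0 := (Valuation.ne_zero_iff v).2 hA
      have h1 : vn v (plk w) = v (Matrix.of A).det := by
        rw [funext hx]
        exact (hon.comp Sum.inl Sum.inl_injective).vn_plk A
      have hq : ∀ c : β → W, vn v (∑ j, c j • plk (Sum.elim w (fun _ : Unit => y j))) =
          v (Matrix.of A).det * vn v (∑ j, c j • C j) := by
        intro c
        rw [← plk_quot_sum, ← h1]
        have hexp : ∀ a : α → W, ∑ j, c j • y j + ∑ j, a j • w j =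
            ∑ k, (Sum.elim (∑ j, a j • A j + ∑ j, c j • B j) (∑ j, c j • C j)) k • e k := by
          intro a
          rw [Fintype.sum_sum_type]
          simp only [Sum.elim_inl, Sum.elim_inr, hx, hy, Pi.add_apply, Finset.sum_apply,
            Pi.smul_apply, smul_add, add_smul, Finset.smul_sum, Finset.sum_smul, smul_smul,
            smul_eq_mul, Finset.sum_add_distrib]
          rw [Finset.sum_comm (f := fun x y => (c x * B x y) • e (Sum.inl y)),
            Finset.sum_comm (f := fun x y => (c x * C x y) • e (Sum.inr y)),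
            Finset.sum_comm (f := fun x y => (a x * A x y) • e (Sum.inl y))]
          abel
        apply le_antisymm
        · have ha : ∃ a : α → W, ∑ j, a j • A j + ∑ j, c j • B j = 0 := by
            refine ⟨Matrix.vecMul (-∑ j, c j • B j) (Matrix.of A)⁻¹, ?_⟩
            have h2 : ∀ a : α → W, ∑ j, a j • A j = Matrix.vecMul a (Matrix.of A) := by
              intro a
              funext k
              rw [Finset.sum_apply]
              rfl
            rw [h2, Matrix.vecMul_vecMul, Matrix.nonsing_inv_mul _ (isUnit_iff_ne_zero.2 hA),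
              Matrix.vecMul_one]
            exact neg_add_cancel _
          obtain ⟨a, ha⟩ := ha
          refine (vn_quot_le v w (∑ j, c j • y j) a).trans (mul_le_mul' le_rfl ?_)
          rw [hexp a, hon.vn_eq, ha]
          apply vn_le
          intro k
          rcases k with k | k
          · rw [Sum.elim_inl, Pi.zero_apply, map_zero]
            exact zero_le
          · exact le_vn v (∑ j, c j • C j) k
        · obtain ⟨a, ha⟩ := vn_quot_attained v w (∑ j, c j • y j)
          rw [ha]
          refine mul_le_mul' le_rfl ?_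
          rw [hexp a, hon.vn_eq]
          apply vn_le
          intro k
          exact le_vn v (Sum.elim (∑ j, a j • A j + ∑ j, c j • B j) (∑ j, c j • C j)) (Sum.inr k)
      have h2 : vn v (plk fun j => plk (Sum.elim w (fun _ : Unit => y j))) =
          v (Matrix.of A).det ^ Fintype.card β * v (Matrix.of C).det := by
        rw [← vn_plk_square v C]
        apply le_antisymm
        · exact vn_plk_mono v _ _ _ fun c => le_of_eq (hq c)
        · have h3 := vn_plk_mono v C (fun j => plk (Sum.elim w (fun _ : Unit => y j)))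
            (v (Matrix.of A).det)⁻¹ (fun c => by
              rw [hq c, ← mul_assoc, inv_mul_cancel₀ hvA, one_mul])
          calc v (Matrix.of A).det ^ Fintype.card β * vn v (plk C) ≤
              v (Matrix.of A).det ^ Fintype.card β * ((v (Matrix.of A).det)⁻¹ ^ Fintype.card β *
                vn v (plk fun j => plk (Sum.elim w (fun _ : Unit => y j)))) :=
                mul_le_mul' le_rfl h3
            _ = _ := by
                rw [← mul_assoc, ← mul_pow, mul_inv_cancel₀ hvA, one_pow, one_mul]
      rw [h2, hon.vn_plk_sum2 hx hy, h1]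
      ac_rfl
    · have h0 := hwy
      rw [Fintype.not_linearIndependent_iff] at h0
      obtain ⟨c, hc, i₀, hi₀⟩ := h0
      rw [Fintype.sum_sum_type] at hc
      simp only [Sum.elim_inl, Sum.elim_inr] at hc
      have h1 : ¬ LinearIndependent W (fun j => plk (Sum.elim w (fun _ : Unit => y j))) := by
        intro hli
        have h2 : ∑ j, c (Sum.inr j) • plk (Sum.elim w (fun _ : Unit => y j)) = 0 := by
          rw [← plk_quot_sum]
          apply plk_eq_zero
          rw [Fintype.not_linearIndependent_iff]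
          refine ⟨Sum.elim (fun j => c (Sum.inl j)) (fun _ => 1), ?_, Sum.inr (), ?_⟩
          · rw [Fintype.sum_sum_type]
            simp only [Sum.elim_inl, Sum.elim_inr, Finset.univ_unique, Finset.sum_singleton,
              one_smul]
            exact hc
          · rw [Sum.elim_inr]
            exact one_ne_zero
        have h3 := Fintype.linearIndependent_iff.1 hli (fun j => c (Sum.inr j)) h2
        rcases i₀ with i | i
        · have h4 : ∑ j, c (Sum.inr j) • y j = 0 := Finset.sum_eq_zero fun j _ => by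
            rw [h3 j, zero_smul]
          rw [h4, add_zero] at hc
          exact hi₀ (Fintype.linearIndependent_iff.1 hw (fun j => c (Sum.inl j)) hc i)
        · exact hi₀ (h3 i)
      rw [plk_eq_zero h1, plk_eq_zero hwy, (vn_eq_zero v).2 rfl, (vn_eq_zero v).2 rfl, zero_mul,
        zero_mul]
  · have h1 : ¬ LinearIndependent W (Sum.elim w y) := fun h => hw (N3_indep_left h)
    rw [plk_eq_zero hw, plk_eq_zero h1, (vn_eq_zero v).2 rfl, (vn_eq_zero v).2 rfl, mul_zero,
      zero_mul]

/-- Hadamard's inequality for the quotient norm. -/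
theorem vn_plk_quot_le_prod (w : α → κ → W) (y : β → κ → W) :
    vn v (plk (Sum.elim w y)) * vn v (plk w) ^ Fintype.card β ≤
      vn v (plk w) * ∏ j, vn v (plk (Sum.elim w (fun _ : Unit => y j))) := by
  rw [← vn_plk_quot, mul_comm]
  exact mul_le_mul' le_rfl (vn_plk_le_prod v _)

end

end Pool.Agent.Lib.MP_17a322_nt.FQ
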