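import Pool.Agent.Lib.MP_17a322_nt.FQ.H2
import Pool.Agent.Lib.MP_17a322_nt.FQ.N3

universe u v

namespace Pool.Agent.Lib.MP_17a322_nt.FQ

variable {k : Type v} {E : Type u} [Field k] [Field E] [Algebra k E] {κ κ' : Type} [Fintype κ]
  [Fintype κ'] {ι ι' : Type} [Fintype ι] [DecidableEq ι] [Fintype ι'] [DecidableEq ι']


omit [DecidableEq ι] in
private theorem H3_det_ne {M : Type*} [AddCommGroup M] [Module E M] [DecidableEq ι] (x e : ι → M)
    (hx : LinearIndependent E x) (s : ι → ι → E) (hs : ∀ j, x j = ∑ l, s j l • e l) :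
    (Matrix.of s).det ≠ 0 := by
  intro h0
  obtain ⟨c, hc, hcs⟩ := Matrix.exists_vecMul_eq_zero_iff.2 h0
  apply hc
  rw [Fintype.linearIndependent_iff] at hx
  funext j
  refine hx c ?_ j
  have h1 : ∀ l, ∑ j, c j * s j l = 0 := by
    intro l
    have h2 := congrFun hcs l
    rw [Matrix.vecMul, dotProduct, Pi.zero_apply] at h2
    exact h2
  calc ∑ j, c j • x j = ∑ j, ∑ l, (c j * s j l) • e l := by
        apply Finset.sum_congr rfl
        intro j _
        rw [hs j, Finset.smul_sum]
        apply Finset.sum_congr rfl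
        intro l _
        rw [smul_smul]
    _ = ∑ l, (∑ j, c j * s j l) • e l := by
        rw [Finset.sum_comm]
        apply Finset.sum_congr rfl
        intro l _
        rw [Finset.sum_smul]
    _ = 0 := by
        apply Finset.sum_eq_zero
        intro l _
        rw [h1 l, zero_smul]

private theorem H3_dv (m : κ → E) (v : ι → Derivation k E E) (A : VQ k E) :
    dv m v A = vn A.1.valuation (plk fun j p => ps m p (v j)) /
      nm k m A ^ (2 * Fintype.card ι) := rfl

omit [Fintype κ] [DecidableEq ι] in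
private theorem H3_ps_sum (m : κ → E) (v : ι → Derivation k E E) (c : ι → E) :
    (fun p => ps m p (∑ j, c j • v j)) = ∑ j, c j • (fun p => ps m p (v j)) := by
  funext p
  rw [map_sum, Finset.sum_apply]
  apply Finset.sum_congr rfl
  intro j _
  rw [map_smul, Pi.smul_apply]

private theorem H3_plk_smul {W : Type*} [Field W] {κ₁ : Type*} (c : W) (y : ι → κ₁ → W) :
    plk (fun j => c • y j) = c ^ Fintype.card ι • plk y := by
  funext I
  rw [Pi.smul_apply, smul_eq_mul, plk_apply, plk_apply, ← Matrix.det_smul]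
  rfl


private theorem H3_basis0 {M : Type*} [AddCommGroup M] [Module E M] [FiniteDimensional E M]
    (L : Submodule E M) : ∃ B : Module.Basis (Fin (Module.finrank E M)) E M,
      ∀ j : Fin (Module.finrank E M), (j : ℕ) < Module.finrank E L → B j ∈ L := by
  obtain ⟨Q, hQ⟩ := Submodule.exists_isCompl L
  have h2 : Module.finrank E M = Module.finrank E L + Module.finrank E Q :=
    (Submodule.finrank_add_eq_of_isCompl hQ).symm
  let B0 := (((Module.finBasis E L).prod (Module.finBasis E Q)).map
    (Submodule.prodEquivOfIsCompl _ _ hQ)).reindex (finSumFinEquiv.trans (finCongr h2.symm))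
  refine ⟨B0, ?_⟩
  intro j hj
  have h3 : j = (finSumFinEquiv.trans (finCongr h2.symm)) (Sum.inl ⟨j, hj⟩) := by
    apply Fin.ext
    rfl
  have h4 : ∀ i : Fin (Module.finrank E L),
      B0 ((finSumFinEquiv.trans (finCongr h2.symm)) (Sum.inl i)) =
        ((Module.finBasis E L i : L) : M) := by
    intro i
    simp only [B0]
    rw [Module.Basis.reindex_apply, Equiv.symm_apply_apply]
    simp
  rw [h3, h4]
  exact (Module.finBasis E L ⟨j, hj⟩).2

private theorem H3_basis [FiniteDimensional E (Derivation k E E)]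
    (L₁ L₂ : Submodule E (Derivation k E E)) (hL : L₁ ≤ L₂) :
    ∃ B : Module.Basis (Fin (Module.finrank E L₂)) E L₂,
      ∀ j : Fin (Module.finrank E L₂), (j : ℕ) < Module.finrank E L₁ →
        ((B j : L₂) : Derivation k E E) ∈ L₁ := by
  obtain ⟨B, hB⟩ := H3_basis0 (M := L₂) (L₁.submoduleOf L₂)
  refine ⟨B, fun j hj => ?_⟩
  have h1 : Module.finrank E (L₁.submoduleOf L₂) = Module.finrank E L₁ :=
    (Submodule.submoduleOfEquivOfLe hL).finrank_eq
  exact hB j (by rw [h1]; exact hj)

/-- Orthonormal frames adapted to two subspaces, from a finite set. -/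
theorem exists_frames [FiniteDimensional E (Derivation k E E)] (m : κ → E) (hm : IsMd k m)
    (L₁ L₂ : Submodule E (Derivation k E E)) (hL : L₁ ≤ L₂) :
    ∃ Fr : Set (Fin (Module.finrank E L₂) → Derivation k E E), Fr.Finite ∧
      ∀ A : VQ k E, ∃ u ∈ Fr, (∀ j, u j ∈ L₂) ∧
        (∀ j : Fin (Module.finrank E L₂), (j : ℕ) < Module.finrank E L₁ → u j ∈ L₁) ∧
        (∀ j, mn m A (u j) ≤ 1) ∧
          ∀ w ∈ L₂, ∃ c : Fin (Module.finrank E L₂) → E, w = ∑ j, c j • u j ∧
            ∀ j, A.1.valuation (c j) ≤ mn m A w := by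
  classical
  obtain ⟨B, hB⟩ := H3_basis L₁ L₂ hL
  let Ψ : Derivation k E E →ₗ[E] (κ × κ → E) := LinearMap.pi (ps m)
  have hΨ : LinearMap.ker Ψ = ⊥ := by
    rw [LinearMap.ker_eq_bot']
    intro v hv
    exact hm.2 v fun p => congrFun hv p
  have hb : LinearIndependent E (fun j => Ψ (B j : L₂)) :=
    B.linearIndependent.map' (Ψ.comp L₂.subtype) (by
      rw [LinearMap.ker_comp, hΨ, Submodule.comap_bot, Submodule.ker_subtype])
  obtain ⟨L, hL1, hLL⟩ := frames (fun j => Ψ (B j : L₂)) hb
  have hex : ∀ (p : {p // p ∈ L}) (j : Fin (Module.finrank E L₂)), ∃ w : Derivation k E E,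
      w ∈ L₂ ∧ ((j : ℕ) < Module.finrank E L₁ → w ∈ L₁) ∧ Ψ w = p.1.1 j := by
    intro p j
    have h1 : p.1.1 j ∈ Submodule.span E (p.1.1 '' Set.Iic j) :=
      Submodule.subset_span ⟨j, Set.mem_Iic.2 le_rfl, rfl⟩
    rw [(hL1 p.1 p.2).2 j] at h1
    by_cases hj : (j : ℕ) < Module.finrank E L₁
    · have h2 : Submodule.span E ((fun j => Ψ (B j : L₂)) '' Set.Iic j) ≤ L₁.map Ψ := by
        rw [Submodule.span_le]
        rintro _ ⟨i, hi, rfl⟩
        refine ⟨_, hB i (lt_of_le_of_lt ?_ hj), rfl⟩
        exact hi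
      obtain ⟨w, hw, hwe⟩ := h2 h1
      exact ⟨w, hL hw, fun _ => hw, hwe⟩
    · have h2 : Submodule.span E ((fun j => Ψ (B j : L₂)) '' Set.Iic j) ≤ L₂.map Ψ := by
        rw [Submodule.span_le]
        rintro _ ⟨i, hi, rfl⟩
        exact ⟨_, (B i).2, rfl⟩
      obtain ⟨w, hw, hwe⟩ := h2 h1
      exact ⟨w, hw, fun h => absurd h hj, hwe⟩
  choose e he2 he1 heΨ using hex
  refine ⟨Set.range (fun q : {p // p ∈ L} × κ => fun j => (m q.2) ^ 2 • e q.1 j),
    Set.finite_range _, ?_⟩
  intro A
  obtain ⟨a, ha, hA⟩ := nm_attain m hm.1 A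
  obtain ⟨p, hp, hi⟩ := hLL E A.1.ValueGroup A.1.valuation
  have hva : A.1.valuation (m a ^ 2) = nm k m A ^ 2 := by rw [map_pow, hA]
  have hN : nm k m A ^ 2 ≠ 0 := pow_ne_zero 2 (nm_ne m hm.1 A)
  refine ⟨_, ⟨(⟨p, hp⟩, a), rfl⟩, ?_, ?_, ?_, ?_⟩
  · exact fun j => L₂.smul_mem _ (he2 _ j)
  · exact fun j hj => L₁.smul_mem _ (he1 _ j hj)
  · intro j
    change mn m A ((m a) ^ 2 • e ⟨p, hp⟩ j) ≤ 1
    rw [mn_smul, hva]
    unfold mn
    rw [mul_div_cancel₀ _ hN]
    have h1 : (fun q => ps m q (e ⟨p, hp⟩ j)) = p.1 j := heΨ ⟨p, hp⟩ j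
    rw [h1]
    exact nm_le _ A _ fun q => hi.1 j q
  · intro w hw
    have hdual := (hL1 p hp).1
    have hcoord : ∀ (c : Fin (Module.finrank E L₂) → E) (l : Fin (Module.finrank E L₂)),
        ∑ q, p.2 l q * Ψ (∑ j, c j • e ⟨p, hp⟩ j) q = c l := by
      intro c l
      have h1 : Ψ (∑ j, c j • e ⟨p, hp⟩ j) = ∑ j, c j • p.1 j := by
        rw [map_sum]
        apply Finset.sum_congr rfl
        intro j _
        rw [map_smul, heΨ]
      rw [h1]
      calc ∑ q, p.2 l q * (∑ j, c j • p.1 j) q = ∑ q, ∑ j, c j * (p.2 l q * p.1 j q) := by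
            apply Finset.sum_congr rfl
            intro q _
            rw [Finset.sum_apply, Finset.mul_sum]
            apply Finset.sum_congr rfl
            intro j _
            rw [Pi.smul_apply, smul_eq_mul]
            ring
        _ = ∑ j, c j * ∑ q, p.2 l q * p.1 j q := by
            rw [Finset.sum_comm]
            apply Finset.sum_congr rfl
            intro j _
            rw [Finset.mul_sum]
        _ = c l := by
            simp only [hdual _ l, mul_ite, mul_one, mul_zero, Finset.sum_ite_eq', Finset.mem_univ,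
              if_true]
    have hei : LinearIndependent E (fun j => (⟨e ⟨p, hp⟩ j, he2 _ j⟩ : L₂)) := by
      rw [Fintype.linearIndependent_iff]
      intro c hc l
      rw [← hcoord c l]
      have h1 := congrArg (fun z : L₂ => (z : Derivation k E E)) hc
      simp only [Submodule.coe_sum, Submodule.coe_smul, Submodule.coe_zero] at h1
      rw [h1, map_zero]
      simp only [Pi.zero_apply, mul_zero, Finset.sum_const_zero]
    have hspan := hei.span_eq_top_of_card_eq_finrank' (Fintype.card_fin _)
    have hwt : (⟨w, hw⟩ : L₂) ∈ Submodule.span E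
        (Set.range fun j => (⟨e ⟨p, hp⟩ j, he2 _ j⟩ : L₂)) := by
      rw [hspan]
      exact Submodule.mem_top
    obtain ⟨c, hc⟩ := (Submodule.mem_span_range_iff_exists_fun E).1 hwt
    have hc' : ∑ j, c j • e ⟨p, hp⟩ j = w := by
      have h1 := congrArg (fun z : L₂ => (z : Derivation k E E)) hc
      simp only [Submodule.coe_sum, Submodule.coe_smul] at h1
      exact h1
    refine ⟨fun j => c j / m a ^ 2, ?_, ?_⟩
    · rw [← hc']
      apply Finset.sum_congr rfl
      intro j _
      change c j • e ⟨p, hp⟩ j = (c j / m a ^ 2) • ((m a) ^ 2 • e ⟨p, hp⟩ j)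
      rw [smul_smul, div_mul_cancel₀ _ (pow_ne_zero 2 ha)]
    · intro j
      change A.1.valuation (c j / m a ^ 2) ≤ nm k (fun p => ps m p w) A / nm k m A ^ 2
      rw [map_div₀, hva, div_eq_mul_inv, div_eq_mul_inv]
      refine mul_le_mul_left ?_ _
      rw [← hcoord c j, hc']
      apply A.1.valuation.map_sum_le
      intro q _
      rw [map_mul]
      have h1 : A.1.valuation (Ψ w q) ≤ nm k (fun p => ps m p w) A :=
        le_nm (fun p => ps m p w) A q
      calc A.1.valuation (p.2 j q) * A.1.valuation (Ψ w q)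
          ≤ 1 * nm k (fun p => ps m p w) A := mul_le_mul' (hi.2 j q) h1
        _ = nm k (fun p => ps m p w) A := one_mul _

/-- Change of the vectors. -/
theorem dv_mul (m : κ → E) (v : ι → Derivation k E E) (P : Matrix ι ι E) (A : VQ k E) :
    dv m (fun j => ∑ i, P i j • v i) A = A.1.valuation P.det * dv m v A := by
  rw [H3_dv, H3_dv, mul_div_assoc']
  have h : (fun (j : ι) (p : κ × κ) => ps m p (∑ i, P i j • v i)) =
      fun j => ∑ i, P.transpose j i • (fun p => ps m p (v i)) := by
    funext j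
    exact H3_ps_sum m v fun i => P i j
  have h1 := vn_plk_comb_vec A.1.valuation (fun j i => P.transpose j i)
    (fun (i : ι) (p : κ × κ) => ps m p (v i))
  have h2 : (Matrix.of fun j i => P.transpose j i).det = P.det := Matrix.det_transpose P
  rw [h, h1, h2]

/-- Another index set for the vectors. -/
theorem dv_equiv (m : κ → E) (v : ι → Derivation k E E) (e : ι' ≃ ι) (A : VQ k E) :
    dv m (v ∘ e) A = dv m v A := by
  rw [H3_dv, H3_dv, Fintype.card_congr e]
  have h := vn_plk_reindex A.1.valuation (fun j p => ps m p (v j)) e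
  rw [← h]
  rfl

/-- Hadamard's inequality. -/
theorem dv_sum_le (m : κ → E) (hm : m ≠ 0) (v : ι → Derivation k E E) (u : ι' → Derivation k E E)
    (A : VQ k E) : dv m (Sum.elim v u) A ≤ dv m v A * ∏ j, mn m A (u j) := by
  have hN : nm k m A ≠ 0 := nm_ne m hm A
  rw [H3_dv, H3_dv, Fintype.card_sum, mul_add, pow_add]
  have h1 : (fun (j : ι ⊕ ι') (p : κ × κ) => ps m p (Sum.elim v u j)) =
      Sum.elim (fun j p => ps m p (v j)) (fun j p => ps m p (u j)) := by
    funext j
    cases j <;> rfl
  rw [h1]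
  have h2 := vn_plk_sum_le A.1.valuation (fun (j : ι) (p : κ × κ) => ps m p (v j))
    (fun (j : ι') (p : κ × κ) => ps m p (u j))
  have h3 := vn_plk_le_prod A.1.valuation (fun (j : ι') (p : κ × κ) => ps m p (u j))
  have h4 : ∏ j, mn m A (u j) = (∏ j, vn A.1.valuation (fun p : κ × κ => ps m p (u j))) /
      nm k m A ^ (2 * Fintype.card ι') := by
    unfold mn
    rw [Finset.prod_div_distrib, Finset.prod_const, Finset.card_univ, ← pow_mul]
    rfl
  rw [h4, div_mul_div_comm]
  have h5 := h2.trans (mul_le_mul_right h3 _)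
  rw [div_eq_mul_inv, div_eq_mul_inv]
  exact mul_le_mul_left h5 _

/-- For orthonormal frames `dv = 1`. -/
theorem dv_frame [FiniteDimensional E (Derivation k E E)] (m : κ → E) (hm : IsMd k m)
    (u : ι → Derivation k E E) (A : VQ k E) (h1 : ∀ j, mn m A (u j) ≤ 1)
    (h2 : ∀ (c : ι → E) (j : ι), A.1.valuation (c j) ≤ mn m A (∑ i, c i • u i)) :
    dv m u A = 1 := by
  obtain ⟨a, ha, hA⟩ := nm_attain m hm.1 A
  have hma : (m a ^ 2)⁻¹ ≠ 0 := inv_ne_zero (pow_ne_zero 2 ha)
  have hva : A.1.valuation (m a ^ 2)⁻¹ = (nm k m A ^ 2)⁻¹ := by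
    rw [map_inv₀, map_pow, hA]
  have hx : ∀ c : ι → E, vn A.1.valuation (∑ j, c j • ((m a ^ 2)⁻¹ • fun p => ps m p (u j))) =
      mn m A (∑ j, c j • u j) := by
    intro c
    have h3 : (∑ j, c j • ((m a ^ 2)⁻¹ • fun p : κ × κ => ps m p (u j))) =
        (m a ^ 2)⁻¹ • fun p => ps m p (∑ j, c j • u j) := by
      rw [H3_ps_sum, Finset.smul_sum]
      apply Finset.sum_congr rfl
      intro j _
      rw [smul_comm]
    rw [h3, vn_smul, hva, mul_comm, ← div_eq_mul_inv]
    rfl
  have hli : LinearIndependent E (fun (j : ι) => ((m a ^ 2)⁻¹ • fun p : κ × κ => ps m p (u j))) := by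
    rw [Fintype.linearIndependent_iff]
    intro c hc j
    have h3 := h2 c j
    rw [← hx c, hc, (vn_eq_zero _).2 rfl, le_zero_iff, map_eq_zero] at h3
    exact h3
  have hdv : dv m u A =
      vn A.1.valuation (plk fun (j : ι) => ((m a ^ 2)⁻¹ • fun p : κ × κ => ps m p (u j))) := by
    rw [H3_dv, H3_plk_smul, vn_smul, map_pow, hva, div_eq_mul_inv, mul_comm, ← inv_pow, pow_mul,
      inv_pow]
  rw [hdv]
  apply le_antisymm
  · refine (vn_plk_le_prod _ _).trans ?_
    apply Finset.prod_le_one'
    intro j _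
    rw [vn_smul, hva, mul_comm, ← div_eq_mul_inv]
    exact h1 j
  · obtain ⟨e, g, s, hfr, hs⟩ := exists_onFr A.1.valuation _ hli
    have hdet := H3_det_ne _ e hli s hs
    have hs' : (fun (j : ι) => ((m a ^ 2)⁻¹ • fun p : κ × κ => ps m p (u j))) =
        fun j => ∑ l, s j l • e l := funext hs
    have hun : IsUnit (Matrix.of s).det := IsUnit.mk0 _ hdet
    have he : ∀ l, e l = ∑ j, (Matrix.of s)⁻¹ l j • ((m a ^ 2)⁻¹ • fun p : κ × κ => ps m p (u j)) := by
      intro l
      have h4 := Matrix.nonsing_inv_mul (Matrix.of s) hun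
      symm
      calc (∑ j, (Matrix.of s)⁻¹ l j • ((m a ^ 2)⁻¹ • fun p : κ × κ => ps m p (u j)))
          = ∑ j, ∑ q, ((Matrix.of s)⁻¹ l j * (Matrix.of s) j q) • e q := by
            apply Finset.sum_congr rfl
            intro j _
            rw [hs j, Finset.smul_sum]
            apply Finset.sum_congr rfl
            intro q _
            rw [smul_smul]
            rfl
        _ = ∑ q, ((Matrix.of s)⁻¹ * (Matrix.of s)) l q • e q := by
            rw [Finset.sum_comm]
            apply Finset.sum_congr rfl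
            intro q _
            rw [Matrix.mul_apply, Finset.sum_smul]
        _ = e l := by
            rw [h4]
            simp only [Matrix.one_apply, ite_smul, one_smul, zero_smul, Finset.sum_ite_eq,
              Finset.mem_univ, if_true]
    have ht : ∀ l j, A.1.valuation ((Matrix.of s)⁻¹ l j) ≤ 1 := by
      intro l j
      refine (h2 (fun j => (Matrix.of s)⁻¹ l j) j).trans ?_
      rw [← hx, ← he l]
      exact vn_le _ fun b => hfr.2.1 l b
    have h5 : A.1.valuation ((Matrix.of s)⁻¹).det ≤ 1 := by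
      have h6 := vn_plk_square A.1.valuation (fun l j => (Matrix.of s)⁻¹ l j)
      have h7 : (Matrix.of fun l j => (Matrix.of s)⁻¹ l j).det = ((Matrix.of s)⁻¹).det := rfl
      rw [← h7, ← h6]
      refine (vn_plk_le_prod _ _).trans ?_
      apply Finset.prod_le_one'
      intro l _
      exact vn_le _ fun j => ht l j
    have h8 : A.1.valuation ((Matrix.of s)⁻¹).det * A.1.valuation (Matrix.of s).det = 1 := by
      rw [← map_mul, ← Matrix.det_mul, Matrix.nonsing_inv_mul _ hun, Matrix.det_one, map_one]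
    rw [hs', hfr.vn_plk]
    calc (1 : A.1.ValueGroup) = A.1.valuation ((Matrix.of s)⁻¹).det *
          A.1.valuation (Matrix.of s).det := h8.symm
      _ ≤ 1 * A.1.valuation (Matrix.of s).det := mul_le_mul_left h5 _
      _ = A.1.valuation (Matrix.of s).det := one_mul _

/-- The function `dv` has a height, with a lower bound. -/
theorem dv_Lm (H : Ht k E) (m : κ → E) (hm : IsMd k m) (v : ι → Derivation k E E)
    (hv : LinearIndependent E v) : ∃ x, Lm H (dv m v) x ∧ - (2 * Fintype.card ι * H.lam m) ≤ x := by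
  have hx : LinearIndependent E (fun (j : ι) (p : κ × κ) => ps m p (v j)) := by
    rw [Fintype.linearIndependent_iff] at hv ⊢
    intro c hc j
    refine hv c ?_ j
    apply hm.2
    intro p
    rw [← H3_ps_sum] at hc
    exact congrFun hc p
  have hS : (fun s : ι → κ × κ => (Matrix.of fun i j => ps m (s i) (v j)).det) ≠ 0 := by
    intro h0
    obtain ⟨e, g, s, hfr, hs⟩ := exists_onFr (⊤ : ValuationSubring E).valuation _ hx
    have hs' : (fun (j : ι) (p : κ × κ) => ps m p (v j)) = fun j => ∑ l, s j l • e l := funext hs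
    have h1 := hfr.vn_plk s
    rw [← hs'] at h1
    have h2 : plk (fun (j : ι) (p : κ × κ) => ps m p (v j)) = 0 := h0
    rw [h2, (vn_eq_zero _).2 rfl] at h1
    exact H3_det_ne _ e hx s hs ((map_eq_zero _).1 h1.symm)
  refine ⟨_, Lm_div (Lm_fam _ hS) (Lm_fam_pow m hm.1 (2 * Fintype.card ι)), ?_⟩
  have h := lam_nonneg (H := H) _ hS
  push_cast
  linarith

/-- The degree can be computed with every basis. -/
theorem dv_dg [FiniteDimensional E (Derivation k E E)] (H : Ht k E) (m : κ → E) (hm : IsMd k m)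
    (v : ι → Derivation k E E) (hv : LinearIndependent E v) :
    Lm H (dv m v) (- dg H m (Submodule.span E (Set.range v))) := by
  set L := Submodule.span E (Set.range v) with hLdef
  have hb : LinearIndependent E (fun i : Fin (Module.finrank E L) =>
      ((Module.finBasis E L i : L) : Derivation k E E)) :=
    (Module.finBasis E L).linearIndependent.map' L.subtype L.ker_subtype
  obtain ⟨y, hy, -⟩ := dv_Lm H m hm _ hb
  have h1 : - dg H m L = y := by
    unfold dg
    rw [neg_neg]
    exact hl_eq hy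
  rw [h1]
  have hcard : Module.finrank E L = Fintype.card ι := finrank_span_eq_card hv
  let e : Fin (Module.finrank E L) ≃ ι := (Fintype.equivFinOfCardEq hcard.symm).symm
  have hmem : ∀ i, v (e i) ∈ L := fun i => Submodule.subset_span ⟨e i, rfl⟩
  let P : Matrix (Fin (Module.finrank E L)) (Fin (Module.finrank E L)) E :=
    fun i j => (Module.finBasis E L).repr ⟨v (e j), hmem j⟩ i
  have hP : ∀ j, v (e j) = ∑ i, P i j • ((Module.finBasis E L i : L) : Derivation k E E) := by
    intro j
    have h2 := (Module.finBasis E L).sum_repr ⟨v (e j), hmem j⟩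
    have h3 := congrArg (fun z : L => (z : Derivation k E E)) h2
    simp only [Submodule.coe_sum, Submodule.coe_smul] at h3
    exact h3.symm
  have hdet : P.det ≠ 0 := by
    rw [← Matrix.det_transpose]
    exact H3_det_ne (v ∘ e) _ (hv.comp e e.injective) (fun j i => P i j) hP
  have h4 : dv m v = fun A => A.1.valuation P.det * dv m (fun i : Fin (Module.finrank E L) =>
      ((Module.finBasis E L i : L) : Derivation k E E)) A := by
    funext A
    rw [← dv_equiv m v e A, ← dv_mul]
    congr 1
    funext j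
    exact hP j
  rw [h4, ← zero_add y]
  exact Lm_mul (Lm_prin _ hdet) hy

/-- The degrees are bounded above. -/
theorem dg_bdd [FiniteDimensional E (Derivation k E E)] (H : Ht k E) (m : κ → E) (hm : IsMd k m) :
    ∃ B : ℝ, ∀ L, dg H m L ≤ B := by
  refine ⟨2 * Module.finrank E (Derivation k E E) * H.lam m, fun L => ?_⟩
  have hb : LinearIndependent E (fun i : Fin (Module.finrank E L) =>
      ((Module.finBasis E L i : L) : Derivation k E E)) :=
    (Module.finBasis E L).linearIndependent.map' L.subtype L.ker_subtype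
  obtain ⟨y, hy, hle⟩ := dv_Lm H m hm _ hb
  have h1 : dg H m L = - y := by
    unfold dg
    rw [hl_eq hy]
  rw [h1]
  rw [Fintype.card_fin] at hle
  have h2 : ((Module.finrank E L : ℕ) : ℝ) ≤ Module.finrank E (Derivation k E E) := by
    exact_mod_cast Submodule.finrank_le L
  have h3 := mul_le_mul_of_nonneg_right h2 (lam_nonneg (H := H) m hm.1)
  nlinarith

/-- The degree of the zero subspace. -/
theorem dg_bot [FiniteDimensional E (Derivation k E E)] (H : Ht k E) (m : κ → E) (hm : IsMd k m) :
    dg H m ⊥ = 0 := by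
  have hemp : IsEmpty (Fin (Module.finrank E (⊥ : Submodule E (Derivation k E E)))) := by
    rw [finrank_bot]
    infer_instance
  unfold dg
  have h1 : (dv m fun i : Fin (Module.finrank E (⊥ : Submodule E (Derivation k E E))) =>
      ((Module.finBasis E (⊥ : Submodule E (Derivation k E E)) i :
        (⊥ : Submodule E (Derivation k E E))) : Derivation k E E)) = fun _ => 1 := by
    funext A
    rw [H3_dv, vn_plk_empty, Fintype.card_eq_zero, mul_zero, pow_zero, div_one]
  rw [h1, hl_eq Lm_one, neg_zero]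

end Pool.Agent.Lib.MP_17a322_nt.FQ
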