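import Pool.Agent.Lib.MP_17a322_nt.FQ.A3
import Pool.Agent.Lib.MP_17a322_nt.FQ.A6
import Pool.Agent.Lib.MP_17a322_nt.FQ.H3

universe u

namespace Pool.Agent.Lib.MP_17a322_nt.FQ

open Height NumberField

section

variable {k B : Type u} [Field k] [NumberField k] [Field B] [Algebra k B] {I₀ : Type} (X : Evl k B I₀)
variable (E : Type u) [Field E] [Algebra k E] [Algebra E B] [IsScalarTower k E B]

variable {E} in
/-- The valuation ring of `E` below a valuation ring of `B`. -/
def dn (A : VR k B) : VQ k E :=
  ⟨A.1.comap (algebraMap E B), fun c => by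
    rw [ValuationSubring.mem_comap, ← IsScalarTower.algebraMap_apply]
    exact A.2 c⟩

theorem T5_div {F : Type*} [Field F] (R : ValuationSubring F) (x : F) {y : F} (hy : y ≠ 0) :
    R.valuation x ≤ R.valuation y ↔ x / y ∈ R := by
  rw [← ValuationSubring.valuation_le_one_iff, map_div₀,
    div_le_one₀ (zero_lt_iff.mpr ((Valuation.ne_zero_iff _).mpr hy))]

/-- The comparison of the values at the ring below. -/
theorem dn_le (A : VR k B) (x y : E) : (dn A : VQ k E).1.valuation x ≤ (dn A : VQ k E).1.valuation y ↔
    A.1.valuation (algebraMap E B x) ≤ A.1.valuation (algebraMap E B y) := by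
  rcases eq_or_ne y 0 with hy | hy
  · subst hy
    rw [map_zero, map_zero, map_zero, le_zero_iff, le_zero_iff, Valuation.zero_iff,
      Valuation.zero_iff, map_eq_zero]
  · rw [T5_div _ _ hy, T5_div _ _ ((map_ne_zero (algebraMap E B)).mpr hy), ← map_div₀]
    exact ValuationSubring.mem_comap

/-- The comparison of the maxima of families at the ring below. -/
theorem dn_nm (A : VR k B) {κ κ' : Type} [Fintype κ] [Fintype κ'] (S : κ → E) (T : κ' → E) :
    nm k S (dn A) ≤ nm k T (dn A) ↔
      nA A.1 (fun a => algebraMap E B (S a)) ≤ nA A.1 (fun a => algebraMap E B (T a)) := by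
  unfold nm nA
  rw [Finset.sup_le_iff, Finset.sup_le_iff]
  refine forall_congr' fun a => forall_congr' fun _ => ?_
  rcases eq_or_ne (S a) 0 with ha | ha
  · have h1 : (dn A : VQ k E).1.valuation (S a) = 0 := by rw [ha, map_zero]
    have h2 : A.1.valuation (algebraMap E B (S a)) = 0 := by rw [ha, map_zero, map_zero]
    rw [h1]
    refine ⟨fun _ => ?_, fun _ => zero_le⟩
    rw [h2]
    exact zero_le
  · have h1 : ⊥ < (dn A : VQ k E).1.valuation (S a) := by
      rw [bot_eq_zero]
      exact zero_lt_iff.mpr ((Valuation.ne_zero_iff _).mpr ha)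
    have h2 : ⊥ < A.1.valuation (algebraMap E B (S a)) := by
      rw [bot_eq_zero]
      exact zero_lt_iff.mpr ((Valuation.ne_zero_iff _).mpr ((map_ne_zero (algebraMap E B)).mpr ha))
    rw [Finset.le_sup_iff h1, Finset.le_sup_iff h2]
    exact exists_congr fun b => and_congr_right fun _ => dn_le E A (S a) (T b)

theorem T5_ne {κ : Type} {S : κ → E} (hS : S ≠ 0) : (fun a => algebraMap E B (S a)) ≠ 0 := by
  intro h
  apply hS
  funext a
  exact (map_eq_zero (algebraMap E B)).mp (congrFun h a)

theorem ht_tensor {κ κ' : Type} [Fintype κ] [Fintype κ'] (S : κ → E) (T : κ' → E) (hS : S ≠ 0) (hT : T ≠ 0) :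
    X.lm (fun a : κ × κ' => algebraMap E B (S a.1 * T a.2)) =
      X.lm (fun a => algebraMap E B (S a)) + X.lm (fun a => algebraMap E B (T a)) := by
  have h : (fun a : κ × κ' => algebraMap E B (S a.1 * T a.2)) =
      fun a => algebraMap E B (S a.1) * algebraMap E B (T a.2) := by
    funext a
    exact map_mul _ _ _
  rw [h]
  exact lm_mul X (S := fun a => algebraMap E B (S a)) (T := fun a => algebraMap E B (T a))
    (T5_ne E hS) (T5_ne E hT)

theorem ht_mono {κ κ' : Type} [Fintype κ] [Fintype κ'] (S : κ → E) (T : κ' → E) (hS : S ≠ 0) (hT : T ≠ 0)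
    (h : ∀ A, nm k S A ≤ nm k T A) :
    X.lm (fun a => algebraMap E B (S a)) ≤ X.lm (fun a => algebraMap E B (T a)) :=
  lm_le X (T5_ne E hS) fun A => (dn_nm E A S T).mp (h (dn A))

theorem ht_single (c : E) (hc : c ≠ 0) : X.lm (fun _ : Unit => algebraMap E B c) = 0 :=
  lm_single X _

/-- The height on a subfield of the big field. -/
noncomputable def Evl.ht : Ht k E where
  lam S := X.lm fun a => algebraMap E B (S a)
  tensor S T hS hT := ht_tensor X E S T hS hT
  mono S T hS hT h := ht_mono X E S T hS hT h
  single c hc := ht_single X E c hc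

/-- The degree with respect to a model in terms of the height of Pluecker coordinates. -/
theorem dg_lPl [FiniteDimensional E (Derivation k E E)] {κ : Type} [Fintype κ] (m : κ → E) (hm : IsMd k m)
    {ι : Type} [Fintype ι] [DecidableEq ι] (v : ι → Derivation k E E) (hv : LinearIndependent E v) :
    LinearIndependent E (fun j p => ps m p (v j)) ∧
    dg (X.ht E) m (Submodule.span E (Set.range v)) =
      2 * Fintype.card ι * X.lm (fun a => algebraMap E B (m a)) -
        X.lPl (Submodule.span E (Set.range fun j p => ps m p (v j))) := by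
  have hi : LinearIndependent E (fun j p => ps m p (v j)) := by
    have hk : LinearMap.ker (LinearMap.pi fun p => ps m p : Derivation k E E →ₗ[E] (κ × κ → E)) = ⊥ := by
      rw [LinearMap.ker_eq_bot']
      intro w hw
      exact hm.2 w fun p => congrFun hw p
    exact hv.map' (LinearMap.pi fun p => ps m p : Derivation k E E →ₗ[E] (κ × κ → E)) hk
  refine ⟨hi, ?_⟩
  have he : (fun s : ι → κ × κ => (Matrix.of fun i j => ps m (s i) (v j)).det) =
      mns (fun j p => ps m p (v j)) := by
    funext s
    unfold mns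
    rw [← Matrix.det_transpose]
    rfl
  have h1 := dv_dg (X.ht E) m hm v hv
  have h2 : Lm (X.ht E) (dv m v)
      ((X.ht E).lam (mns (fun j p => ps m p (v j))) - (2 * Fintype.card ι : ℕ) * (X.ht E).lam m) := by
    have h3 := Lm_div (Lm_fam (H := X.ht E) (mns (fun j p => ps m p (v j))) (mns_ne hi))
      (Lm_fam_pow (H := X.ht E) m hm.1 (2 * Fintype.card ι))
    have h4 : dv m v = fun A => nm k (mns (fun j p => ps m p (v j))) A /
        nm k m A ^ (2 * Fintype.card ι) := by
      funext A
      rw [← he]
      rfl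
    rw [h4]
    exact h3
  have h5 := Lm_uniq h1 h2
  rw [lPl_eq X _ hi]
  have h6 : (X.ht E).lam (mns (fun j p => ps m p (v j))) =
      X.lm (fun s : ι → κ × κ => algebraMap E B (mns (fun j p => ps m p (v j)) s)) := rfl
  have h7 : (X.ht E).lam m = X.lm (fun a => algebraMap E B (m a)) := rfl
  rw [h6, h7] at h5
  push_cast at h5
  linarith

end

end Pool.Agent.Lib.MP_17a322_nt.FQ
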