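import Pool.Agent.Lib.MP_17a322_nt.FQ.T4
import Pool.Agent.Lib.MP_17a322_nt.FQ.T5
import Pool.Agent.Lib.MP_17a322_nt.FQ.I1

/-!
The tensor theorem for spaces of derivations.
-/

set_option linter.unusedSectionVars false

namespace Pool.Agent.Lib.MP_17a322_nt.FQ

open Height NumberField

/-- Integral frames for the space spanned by `P`, over an extension field. -/
theorem T6_exp {B E : Type} [Field B] [Field E] [Algebra E B] {r : ℕ} {κ' : Type} [Fintype κ']
    (P : Fin r → κ' → E) (hP : LinearIndependent E P) (A : ValuationSubring B) :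
    ∃ s : Fin r → Fin r → E,
      (∀ j a, A.valuation (algebraMap E B (∑ i, s j i * P i a)) ≤ 1) ∧
      ∀ x : Fin r → B, ∃ t : Fin r → B, x = ∑ j, t j • (fun i => algebraMap E B (s j i)) ∧
        ∀ j, A.valuation (t j) ≤ nA A (lin P x) := by
  obtain ⟨Lf, hLf, hI⟩ := frames P hP
  obtain ⟨⟨e, f⟩, hef, hi1, hi2⟩ := hI B A.ValueGroup A.valuation
  obtain ⟨hd, hs⟩ := hLf _ hef
  simp only at hd hs hi1 hi2
  have he : ∀ j, e j ∈ Submodule.span E (Set.range P) := by
    intro j
    have h1 : e j ∈ Submodule.span E (e '' Set.Iic j) :=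
      Submodule.subset_span ⟨j, Set.mem_Iic.2 le_rfl, rfl⟩
    rw [hs j] at h1
    exact Submodule.span_mono (Set.image_subset_range _ _) h1
  have hPe : ∀ i, P i ∈ Submodule.span E (Set.range e) := by
    intro j
    have h1 : P j ∈ Submodule.span E (P '' Set.Iic j) :=
      Submodule.subset_span ⟨j, Set.mem_Iic.2 le_rfl, rfl⟩
    rw [← hs j] at h1
    exact Submodule.span_mono (Set.image_subset_range _ _) h1
  have he' : ∀ j, ∃ c : Fin r → E, ∑ i, c i • P i = e j := fun j =>
    (Submodule.mem_span_range_iff_exists_fun E).1 (he j)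
  have hPe' : ∀ i, ∃ c : Fin r → E, ∑ j, c j • e j = P i := fun i =>
    (Submodule.mem_span_range_iff_exists_fun E).1 (hPe i)
  choose s hsP using he'
  choose t' ht' using hPe'
  have hmul : ∀ i i', ∑ j, t' i j * s j i' = if i = i' then 1 else 0 := by
    intro i i'
    have h1 : ∑ i', (∑ j, t' i j * s j i' - if i = i' then 1 else 0) • P i' = 0 := by
      simp only [sub_smul, Finset.sum_sub_distrib, ite_smul, one_smul, zero_smul,
        Finset.sum_ite_eq, Finset.mem_univ, if_true, Finset.sum_smul, mul_smul]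
      rw [Finset.sum_comm]
      simp only [← Finset.smul_sum, hsP, ht', sub_self]
    exact sub_eq_zero.1 (Fintype.linearIndependent_iff.1 hP _ h1 i')
  refine ⟨s, fun j a => ?_, fun x => ⟨fun j => ∑ i, x i * algebraMap E B (t' i j), ?_, fun j => ?_⟩⟩
  · have h1 : ∑ i, s j i * P i a = e j a := by
      rw [← hsP j, Finset.sum_apply]
      rfl
    rw [h1]
    exact hi1 j a
  · funext i'
    rw [Finset.sum_apply]
    have h1 : ∀ j, ((∑ i, x i * algebraMap E B (t' i j)) •
        (fun i => algebraMap E B (s j i)) : Fin r → B) i' =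
        ∑ i, x i * algebraMap E B (t' i j * s j i') := by
      intro j
      rw [Pi.smul_apply, smul_eq_mul, Finset.sum_mul]
      refine Finset.sum_congr rfl fun i _ => ?_
      rw [map_mul, mul_assoc]
    rw [Finset.sum_congr rfl fun j _ => h1 j, Finset.sum_comm]
    have h2 : ∀ i, ∑ j, x i * algebraMap E B (t' i j * s j i') = if i = i' then x i else 0 := by
      intro i
      rw [← Finset.mul_sum, ← map_sum, hmul]
      split_ifs
      · rw [map_one, mul_one]
      · rw [map_zero, mul_zero]
    rw [Finset.sum_congr rfl fun i _ => h2 i, Finset.sum_ite_eq', if_pos (Finset.mem_univ _)]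
  · have hdual : ∀ i, ∑ a, f j a * P i a = t' i j := by
      intro i
      have h1 : ∀ a, P i a = ∑ j', t' i j' * e j' a := by
        intro a
        rw [← ht' i, Finset.sum_apply]
        rfl
      simp only [h1, Finset.mul_sum]
      rw [Finset.sum_comm]
      have h2 : ∀ j', ∑ a, f j a * (t' i j' * e j' a) = if j' = j then t' i j' else 0 := by
        intro j'
        have h3 : ∀ a, f j a * (t' i j' * e j' a) = t' i j' * (f j a * e j' a) := fun a => by ring
        rw [Finset.sum_congr rfl fun a _ => h3 a, ← Finset.mul_sum, hd j' j]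
        split_ifs
        · rw [mul_one]
        · rw [mul_zero]
      rw [Finset.sum_congr rfl fun j' _ => h2 j', Finset.sum_ite_eq', if_pos (Finset.mem_univ _)]
    have h1 : (∑ i, x i * algebraMap E B (t' i j)) = ∑ a, algebraMap E B (f j a) * lin P x a := by
      unfold lin
      simp only [Finset.mul_sum]
      rw [Finset.sum_comm]
      refine Finset.sum_congr rfl fun i _ => ?_
      rw [← hdual i, map_sum, Finset.mul_sum]
      refine Finset.sum_congr rfl fun a _ => ?_
      rw [map_mul]
      ring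
    show A.valuation (∑ i, x i * algebraMap E B (t' i j)) ≤ _
    rw [h1]
    refine A.valuation.map_sum_le fun a _ => ?_
    rw [map_mul]
    calc A.valuation (algebraMap E B (f j a)) * A.valuation (lin P x a)
        ≤ 1 * nA A (lin P x) := mul_le_mul' (hi2 j a) (val_le_nA A _ a)
      _ = _ := one_mul _

section

variable {B : Type} [Field B] [Algebra ℚ B] {I₀ : Type} (X : Evl ℚ B I₀)
variable (E : Type) [Field E] [Algebra ℚ E] [Algebra E B] [IsScalarTower ℚ E B]

theorem T6_li {κ : Type} [Fintype κ] {m : κ → E} (hm : IsMd ℚ m)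
    {L : Submodule E (Derivation ℚ E E)} {r : ℕ} (y : Module.Basis (Fin r) E L) :
    LinearIndependent E (fun (j : Fin r) (p : κ × κ) => ps m p (y j : Derivation ℚ E E)) := by
  rw [Fintype.linearIndependent_iff]
  intro g hg
  have h1 : ∑ j, g j • (y j : Derivation ℚ E E) = 0 := by
    apply hm.2
    intro p
    have h2 := congrFun hg p
    rw [Finset.sum_apply] at h2
    rw [map_sum]
    refine Eq.trans ?_ h2
    refine Finset.sum_congr rfl fun j _ => ?_
    rw [map_smul]
    rfl
  have h3 : ∑ j, g j • y j = 0 := by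
    refine Subtype.ext ?_
    rw [Submodule.coe_sum]
    exact h1
  exact Fintype.linearIndependent_iff.1 y.linearIndependent g h3

/-- The maxima of the family with the factors `T` and the model. -/
theorem T6_nA {B' : Type} [Field B'] (A : ValuationSubring B') {κ κ₂ : Type} [Fintype κ] [Fintype κ₂]
    (T : κ₂ → B') (m : κ → B') (N : ℕ) :
    nA A (fun q : κ₂ × (Fin N → κ × κ) => T q.1 * ∏ k, (m (q.2 k).1 * m (q.2 k).2)) =
      nA A T * (nA A m ^ 2) ^ N := by
  have h1 := nA_mul A T (fun p : Fin N → κ × κ => ∏ k, (m (p k).1 * m (p k).2))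
  rw [h1]
  have h2 := nA_pi A (fun (_ : Fin N) (p : κ × κ) => m p.1 * m p.2)
  have h3 := nA_mul A m m
  rw [h2, Finset.prod_const, h3, Finset.card_univ, Fintype.card_fin, ← pow_two]

/-- The pointwise bound over `B`. -/
theorem bound_B [FiniteDimensional E (Derivation ℚ E E)] {κ : Type} [Fintype κ] (m : κ → E)
    (hm : IsMd ℚ m) (L : Submodule E (Derivation ℚ E E)) {r N : ℕ} (y : Module.Basis (Fin r) E L)
    (θ : MultilinearMap E (fun _ : Fin N => L) E) (D : Fn ℚ E)
    (hbd : ∀ (A : VQ ℚ E) (w : Fin N → L), A.1.valuation (θ w) ≤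
      D A * ∏ j, mn m A (w j : Derivation ℚ E E))
    {κ₁ κ₂ : Type} [Fintype κ₁] [Fintype κ₂] (S : κ₁ → E) (T : κ₂ → E) (hT : T ≠ 0)
    (hD : ∀ A, D A * nm ℚ T A = nm ℚ S A) (A : VR ℚ B) (z : Fin N → Fin r → B) :
    A.1.valuation (mev (fun J : Fin N → Fin r => θ fun k => y (J k)) z) *
        nA A.1 (fun q : κ₂ × (Fin N → κ × κ) => algebraMap E B (T q.1 * ∏ k, (m (q.2 k).1 * m (q.2 k).2))) ≤
      nA A.1 (fun q => algebraMap E B (S q)) *
        ∏ k, nA A.1 (lin (fun (j : Fin r) (p : κ × κ) => ps m p (y j : Derivation ℚ E E)) (z k)) := by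
  classical
  set P : Fin r → κ × κ → E := fun j p => ps m p (y j : Derivation ℚ E E) with hPdef
  have hP : LinearIndependent E P := T6_li E hm y
  obtain ⟨s, hs1, hs2⟩ := T6_exp (B := B) P hP A.1
  choose t ht1 ht2 using hs2
  set Q : A.1.ValueGroup := nA A.1 (fun q : κ₂ × (Fin N → κ × κ) =>
    algebraMap E B (T q.1 * ∏ k, (m (q.2 k).1 * m (q.2 k).2))) with hQ
  -- the frame
  set u : Fin r → L := fun j => ∑ i, s j i • y i with hu
  have hups : ∀ j p, ps m p (u j : Derivation ℚ E E) = ∑ i, s j i * P i p := by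
    intro j p
    rw [hu]
    simp only [Submodule.coe_sum, map_sum]
    refine Finset.sum_congr rfl fun i _ => ?_
    rw [Submodule.coe_smul, map_smul]
    rfl
  -- the bound for the values at the frame
  have hnm : nm ℚ m (dn A) ≠ 0 := nm_ne m hm.1 (dn A)
  have hmn : ∀ j, mn m (dn A) (u j : Derivation ℚ E E) * nm ℚ m (dn A) ^ 2 ≤ 1 := by
    intro j
    unfold mn
    rw [div_mul_cancel₀ _ (pow_ne_zero 2 hnm)]
    have h1 := (dn_nm E A (fun p : κ × κ => ps m p (u j : Derivation ℚ E E)) (fun _ : Unit => (1 : E))).2 ?_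
    · refine h1.trans ?_
      refine nm_le _ _ _ fun _ => ?_
      rw [map_one]
    · refine (nA_le_iff A.1 _ _).2 fun p => ?_
      rw [hups]
      refine (hs1 j p).trans ?_
      have h2 := val_le_nA A.1 (fun _ : Unit => algebraMap E B (1 : E)) ()
      refine le_trans (le_of_eq ?_) h2
      rw [map_one, map_one]
  have hval : ∀ J : Fin N → Fin r,
      A.1.valuation (algebraMap E B (θ fun k => u (J k))) * Q ≤
        nA A.1 (fun q => algebraMap E B (S q)) := by
    intro J
    have h1 := hbd (dn A) fun k => u (J k)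
    have h2 : nm ℚ (fun q : κ₂ × (Fin N → κ × κ) => (θ fun k => u (J k)) *
        (T q.1 * ∏ k, (m (q.2 k).1 * m (q.2 k).2))) (dn A) ≤ nm ℚ S (dn A) := by
      have h3 : nm ℚ (fun q : κ₂ × (Fin N → κ × κ) => (θ fun k => u (J k)) *
          (T q.1 * ∏ k, (m (q.2 k).1 * m (q.2 k).2))) (dn A) =
          (dn A).1.valuation (θ fun k => u (J k)) *
            (nm ℚ T (dn A) * (nm ℚ m (dn A) ^ 2) ^ N) := by
        have h4 := nA_smul (dn A).1 (θ fun k => u (J k))
          (fun q : κ₂ × (Fin N → κ × κ) => T q.1 * ∏ k, (m (q.2 k).1 * m (q.2 k).2))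
        have h5 := T6_nA (dn A).1 T m N
        rw [h5] at h4
        exact h4
      rw [h3, ← hD (dn A)]
      have h4 : ∏ k, (mn m (dn A) (u (J k) : Derivation ℚ E E) * nm ℚ m (dn A) ^ 2) ≤ 1 :=
        Finset.prod_le_one' fun k _ => hmn (J k)
      rw [Finset.prod_mul_distrib, Finset.prod_const, Finset.card_univ, Fintype.card_fin] at h4
      calc (dn A).1.valuation (θ fun k => u (J k)) * (nm ℚ T (dn A) * (nm ℚ m (dn A) ^ 2) ^ N)
          ≤ (D (dn A) * ∏ k, mn m (dn A) (u (J k) : Derivation ℚ E E)) *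
            (nm ℚ T (dn A) * (nm ℚ m (dn A) ^ 2) ^ N) := mul_le_mul' h1 le_rfl
        _ = D (dn A) * nm ℚ T (dn A) * ((∏ k, mn m (dn A) (u (J k) : Derivation ℚ E E)) *
            (nm ℚ m (dn A) ^ 2) ^ N) := by
            rw [mul_mul_mul_comm]
        _ ≤ D (dn A) * nm ℚ T (dn A) * 1 := mul_le_mul' le_rfl h4
        _ = _ := mul_one _
    have h3 := (dn_nm E A _ S).1 h2
    have h4 := nA_smul A.1 (algebraMap E B (θ fun k => u (J k)))
      (fun q : κ₂ × (Fin N → κ × κ) => algebraMap E B (T q.1 * ∏ k, (m (q.2 k).1 * m (q.2 k).2)))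
    rw [← hQ] at h4
    rw [← h4]
    refine le_trans (le_of_eq ?_) h3
    refine congrArg _ (funext fun q => ?_)
    exact (map_mul (algebraMap E B) _ _).symm
  -- the expansion
  have hmev : mev (fun J : Fin N → Fin r => θ fun k => y (J k)) z =
      ∑ J : Fin N → Fin r, (∏ k, t (z k) (J k)) * algebraMap E B (θ fun k => u (J k)) := by
    have h1 : z = fun k => ∑ j, t (z k) j • (fun i => algebraMap E B (s j i)) :=
      funext fun k => ht1 (z k)
    have h2 := mev_expand (W := B) (fun J : Fin N → Fin r => θ fun k => y (J k))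
      (fun j i => algebraMap E B (s j i)) (fun k => t (z k))
    rw [← h1] at h2
    rw [h2]
    refine Finset.sum_congr rfl fun J _ => ?_
    refine congrArg _ ?_
    have h3 : (θ fun k => u (J k)) =
        ∑ I : Fin N → Fin r, (∏ k, s (J k) (I k)) * (θ fun k => y (I k)) := by
      have h4 : (fun k => u (J k)) = fun k => ∑ i, s (J k) i • y i := rfl
      rw [h4, MultilinearMap.map_sum]
      refine Finset.sum_congr rfl fun I _ => ?_
      rw [MultilinearMap.map_smul_univ, smul_eq_mul]
    rw [h3, map_sum]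
    unfold mev
    refine Finset.sum_congr rfl fun I _ => ?_
    rw [map_mul, map_prod, mul_comm]
  rw [hmev]
  have hQ0 : Q ≠ 0 := by
    rw [hQ]
    intro h0
    rw [nA_eq_zero] at h0
    obtain ⟨a, ha⟩ := Function.ne_iff.mp hT
    obtain ⟨b, hb⟩ := Function.ne_iff.mp hm.1
    have h1 := congrFun h0 (a, fun _ => (b, b))
    rw [Pi.zero_apply, map_eq_zero] at h1
    refine mul_ne_zero ha (Finset.prod_ne_zero_iff.2 fun k _ => mul_ne_zero hb hb) h1
  have hsum : A.1.valuation (∑ J : Fin N → Fin r, (∏ k, t (z k) (J k)) *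
      algebraMap E B (θ fun k => u (J k))) ≤
      (nA A.1 (fun q => algebraMap E B (S q)) * ∏ k, nA A.1 (lin P (z k))) * Q⁻¹ := by
    refine A.1.valuation.map_sum_le fun J _ => ?_
    rw [map_mul, map_prod]
    rw [le_mul_inv_iff₀ (zero_lt_iff.2 hQ0)]
    calc (∏ k, A.1.valuation (t (z k) (J k))) * A.1.valuation (algebraMap E B (θ fun k => u (J k))) * Q
        = (A.1.valuation (algebraMap E B (θ fun k => u (J k))) * Q) *
          ∏ k, A.1.valuation (t (z k) (J k)) := by rw [mul_assoc, mul_comm]
      _ ≤ nA A.1 (fun q => algebraMap E B (S q)) * ∏ k, nA A.1 (lin P (z k)) :=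
          mul_le_mul' (hval J) (Finset.prod_le_prod' fun k _ => ht2 (z k) (J k))
  calc A.1.valuation (∑ J : Fin N → Fin r, (∏ k, t (z k) (J k)) *
      algebraMap E B (θ fun k => u (J k))) * Q
      ≤ (nA A.1 (fun q => algebraMap E B (S q)) * ∏ k, nA A.1 (lin P (z k))) * Q⁻¹ * Q :=
        mul_le_mul' hsum le_rfl
    _ = _ := by rw [mul_assoc, inv_mul_cancel₀ hQ0, mul_one]

/-- The derivations as vectors. -/
noncomputable def T6_Psi {κ : Type} (m : κ → E) : Derivation ℚ E E →ₗ[E] (κ × κ → E) :=
  LinearMap.pi fun p => ps m p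

theorem T6_dg [FiniteDimensional E (Derivation ℚ E E)] {κ : Type} [Fintype κ] (m : κ → E)
    (hm : IsMd ℚ m) (K : Submodule E (Derivation ℚ E E)) :
    dg (X.ht E) m K = 2 * Module.finrank E K * X.lm (fun a => algebraMap E B (m a)) -
      X.lPl (K.map (T6_Psi E m)) := by
  have h1 := (dg_lPl X E m hm (fun i : Fin (Module.finrank E K) =>
    ((Module.finBasis E K i : K) : Derivation ℚ E E)) ?_).2
  · have h2 : Submodule.span E (Set.range fun i : Fin (Module.finrank E K) =>
        ((Module.finBasis E K i : K) : Derivation ℚ E E)) = K := by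
      have h3 : (Set.range fun i : Fin (Module.finrank E K) =>
          ((Module.finBasis E K i : K) : Derivation ℚ E E)) =
          K.subtype '' (Set.range (Module.finBasis E K)) := by
        rw [← Set.range_comp]
        rfl
      rw [h3, ← Submodule.map_span, Module.Basis.span_eq, Submodule.map_subtype_top]
    have h4 : Submodule.span E (Set.range fun (i : Fin (Module.finrank E K)) (p : κ × κ) =>
        ps m p ((Module.finBasis E K i : K) : Derivation ℚ E E)) = K.map (T6_Psi E m) := by
      conv_rhs => rw [← h2]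
      rw [Submodule.map_span, ← Set.range_comp]
      rfl
    rw [h2, h4, Fintype.card_fin] at h1
    exact h1
  · exact (Module.finBasis E K).linearIndependent.map' K.subtype (Submodule.ker_subtype K)

theorem T6_inj {κ : Type} {m : κ → E} [Fintype κ] (hm : IsMd ℚ m) : Function.Injective (T6_Psi E m) := by
  rw [injective_iff_map_eq_zero]
  intro v hv
  exact hm.2 v fun p => congrFun hv p

theorem T6_lm {κ κ₂ : Type} [Fintype κ] [Fintype κ₂] (m : κ → E) (hm : m ≠ 0) (T : κ₂ → E)
    (hT : T ≠ 0) (N : ℕ) :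
    X.lm (fun q : κ₂ × (Fin N → κ × κ) =>
      algebraMap E B (T q.1 * ∏ k, (m (q.2 k).1 * m (q.2 k).2))) =
      X.lm (fun a => algebraMap E B (T a)) + N * (2 * X.lm (fun a => algebraMap E B (m a))) := by
  have hne : ∀ {ι : Type} (S : ι → E), S ≠ 0 → (fun a => algebraMap E B (S a)) ≠ 0 := by
    intro ι S hS h0
    obtain ⟨a, ha⟩ := Function.ne_iff.mp hS
    have h1 := congrFun h0 a
    rw [Pi.zero_apply, map_eq_zero] at h1
    exact ha h1
  have hm' := hne m hm
  have hT' := hne T hT
  have hmm : (fun p : κ × κ => algebraMap E B (m p.1) * algebraMap E B (m p.2)) ≠ 0 := by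
    obtain ⟨a, ha⟩ := Function.ne_iff.mp hm'
    exact Function.ne_iff.mpr ⟨(a, a), mul_ne_zero ha ha⟩
  have h1 := lm_pi X (S := fun (_ : Fin N) (p : κ × κ) => algebraMap E B (m p.1) *
    algebraMap E B (m p.2)) (fun _ => hmm)
  have h2 := lm_mul X hm' hm'
  have h3 : (fun p : Fin N → κ × κ => ∏ k, (algebraMap E B (m (p k).1) *
      algebraMap E B (m (p k).2))) ≠ 0 := by
    obtain ⟨a, ha⟩ := Function.ne_iff.mp hm'
    exact Function.ne_iff.mpr ⟨fun _ => (a, a), Finset.prod_ne_zero_iff.2 fun k _ =>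
      mul_ne_zero ha ha⟩
  have h4 := lm_mul X hT' h3
  have h5 : (fun q : κ₂ × (Fin N → κ × κ) =>
      algebraMap E B (T q.1 * ∏ k, (m (q.2 k).1 * m (q.2 k).2))) =
      fun q : κ₂ × (Fin N → κ × κ) => algebraMap E B (T q.1) *
        ∏ k, (algebraMap E B (m (q.2 k).1) * algebraMap E B (m (q.2 k).2)) := by
    funext q
    rw [map_mul, map_prod]
    simp only [map_mul]
  rw [h5, h4, h1, h2, Finset.sum_const, Finset.card_univ, Fintype.card_fin, nsmul_eq_mul]
  ring

/-- The tensor theorem for derivations. -/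
theorem tens_ht [FiniteDimensional E (Derivation ℚ E E)] : Tens (X.ht E) := by
  intro κ _ m hm L g hg σ _ θ hθ D x hD hbd
  classical
  have : CharZero E := algebraRat.charZero E
  set y := Module.finBasis E L with hy
  set P : Fin (Module.finrank E L) → κ × κ → E :=
    fun j p => ps m p (y j : Derivation ℚ E E) with hPdef
  have hP : LinearIndependent E P := T6_li E hm y
  obtain ⟨κ₁, κ₂, _, _, S, T, hS, hT, hDA, hx⟩ := hD
  let e : σ ≃ Fin (Fintype.card σ) := Fintype.equivFin σ
  set θ' : MultilinearMap E (fun _ : Fin (Fintype.card σ) => L) E := θ.domDomCongr e with hθ'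
  have hθa : ∀ w, θ' w = θ fun i => w (e i) := fun w => rfl
  have hbd' : ∀ (A : VQ ℚ E) (w : Fin (Fintype.card σ) → L), A.1.valuation (θ' w) ≤
      D A * ∏ j, mn m A (w j : Derivation ℚ E E) := by
    intro A w
    rw [hθa]
    refine (hbd A fun i => w (e i)).trans (le_of_eq ?_)
    refine congrArg _ ?_
    exact Equiv.prod_comp e fun j => mn m A (w j : Derivation ℚ E E)
  have hspan : Submodule.span E (Set.range P) = L.map (T6_Psi E m) := by
    have h2 : Submodule.span E (Set.range fun i : Fin (Module.finrank E L) =>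
        ((y i : L) : Derivation ℚ E E)) = L := by
      have h3 : (Set.range fun i : Fin (Module.finrank E L) =>
          ((y i : L) : Derivation ℚ E E)) = L.subtype '' (Set.range y) := by
        rw [← Set.range_comp]
        rfl
      rw [h3, ← Submodule.map_span, Module.Basis.span_eq, Submodule.map_subtype_top]
    conv_rhs => rw [← h2]
    rw [Submodule.map_span, ← Set.range_comp]
    rfl
  set lam := X.lm (fun a => algebraMap E B (m a)) with hlam
  have hc : (fun J : Fin (Fintype.card σ) → Fin (Module.finrank E L) => θ' fun k => y (J k)) ≠ 0 := by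
    intro h0
    apply hθ
    have h1 : θ' = 0 := by
      refine Module.Basis.ext_multilinear (fun _ => y) fun J => ?_
      exact congrFun h0 J
    ext w
    have h2 : θ' (fun k => w (e.symm k)) = θ fun i => w (e.symm (e i)) := rfl
    have h3 : (fun i => w (e.symm (e i))) = w := funext fun i => by rw [Equiv.symm_apply_apply]
    rw [h3, h1] at h2
    rw [← h2]
    rfl
  have hne : ∀ {ι : Type} (S : ι → E), S ≠ 0 → (fun a => algebraMap E B (S a)) ≠ 0 := by
    intro ι S hS h0
    obtain ⟨a, ha⟩ := Function.ne_iff.mp hS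
    have h1 := congrFun h0 a
    rw [Pi.zero_apply, map_eq_zero] at h1
    exact ha h1
  have hT' : (fun q : κ₂ × (Fin (Fintype.card σ) → κ × κ) =>
      algebraMap E B (T q.1 * ∏ k, (m (q.2 k).1 * m (q.2 k).2))) ≠ 0 := by
    refine hne (fun q : κ₂ × (Fin (Fintype.card σ) → κ × κ) =>
      T q.1 * ∏ k, (m (q.2 k).1 * m (q.2 k).2)) ?_
    obtain ⟨a, ha⟩ := Function.ne_iff.mp hT
    obtain ⟨b, hb⟩ := Function.ne_iff.mp hm.1
    exact Function.ne_iff.mpr ⟨(a, fun _ => (b, b)), mul_ne_zero ha
      (Finset.prod_ne_zero_iff.2 fun k _ => mul_ne_zero hb hb)⟩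
  have hmain := tens X P hP (g - 2 * lam) ?_ _ hc (fun q => algebraMap E B (S q))
    (fun q : κ₂ × (Fin (Fintype.card σ) → κ × κ) =>
      algebraMap E B (T q.1 * ∏ k, (m (q.2 k).1 * m (q.2 k).2))) (hne S hS) hT'
    (fun A z => bound_B E m hm L y θ' D hbd' S T hT hDA A z)
  · rw [T6_lm X E m hm.1 T hT] at hmain
    rw [hx]
    show g * Fintype.card σ ≤ X.lm (fun a => algebraMap E B (S a)) - X.lm (fun a => algebraMap E B (T a))
    have h1 : (g - 2 * lam) * (Fintype.card σ : ℝ) =
        g * Fintype.card σ - Fintype.card σ * (2 * lam) := by ring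
    rw [h1] at hmain
    linarith
  · intro L' hL'
    rw [hspan] at hL' ⊢
    set K : Submodule E (Derivation ℚ E E) := L ⊓ L'.comap (T6_Psi E m) with hK
    have hKmap : K.map (T6_Psi E m) = L' := by
      apply le_antisymm
      · rintro _ ⟨v, hv, rfl⟩
        exact hv.2
      · intro w hw
        obtain ⟨v, hv, rfl⟩ := hL'.le hw
        exact ⟨v, ⟨hv, hw⟩, rfl⟩
    have hKlt : K < L := by
      refine lt_of_le_of_ne inf_le_left fun h0 => ?_
      rw [← hKmap, h0] at hL'
      exact lt_irrefl _ hL'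
    have hfin : Module.finrank E K = Module.finrank E L' := by
      rw [← hKmap]
      exact (Submodule.equivMapOfInjective _ (T6_inj E hm) K).finrank_eq
    have h1 := hg K hKlt
    rw [T6_dg X E m hm K, T6_dg X E m hm L, hKmap, hfin, ← hlam] at h1
    rw [Fintype.card_fin]
    have h2 : (g - 2 * lam) * ((Module.finrank E L : ℝ) - Module.finrank E L') =
        g * (Module.finrank E L - Module.finrank E L') -
          (2 * Module.finrank E L * lam - 2 * Module.finrank E L' * lam) := by ring
    rw [h2]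
    linarith

end

end Pool.Agent.Lib.MP_17a322_nt.FQ
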