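import Mathlib

namespace Pool.Agent.Lib.MP_17a322_nt.FQ

/-- A function on the subspaces which is bounded above and submodular has a maximum, attained at a subspace `F` such that the values on the proper subspaces of `F` stay away from the maximum. -/
theorem exists_max {E V : Type*} [Field E] [AddCommGroup V] [Module E V] [FiniteDimensional E V]
    (d : Submodule E V → ℝ) (hsub : ∀ L L', d L + d L' ≤ d (L ⊓ L') + d (L ⊔ L'))
    (hb : ∃ B : ℝ, ∀ L, d L ≤ B) :
    ∃ (F : Submodule E V) (g : ℝ), 0 < g ∧ (∀ L, d L ≤ d F) ∧ ∀ L < F, d L ≤ d F - g := by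
  classical
  obtain ⟨B, hB⟩ := hb
  have hbdd : BddAbove (Set.range d) := ⟨B, by rintro _ ⟨L, rfl⟩; exact hB L⟩
  have hne : (Set.range d).Nonempty := ⟨d ⊥, ⊥, rfl⟩
  set S : ℝ := sSup (Set.range d) with hS
  have hle : ∀ L, d L ≤ S := fun L => le_csSup hbdd ⟨L, rfl⟩
  have happ : ∀ ε : ℝ, 0 < ε → ∃ L, S - ε < d L := by
    intro ε hε
    obtain ⟨_, ⟨L, rfl⟩, hL⟩ := exists_lt_of_lt_csSup hne (show S - ε < sSup (Set.range d) by linarith)
    exact ⟨L, hL⟩
  have hP : ∃ r : ℕ, ∀ ε : ℝ, 0 < ε → ∃ L : Submodule E V, Module.finrank E L ≤ r ∧ S - ε < d L := by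
    refine ⟨Module.finrank E V, fun ε hε => ?_⟩
    obtain ⟨L, hL⟩ := happ ε hε
    exact ⟨L, Submodule.finrank_le L, hL⟩
  rcases Nat.eq_zero_or_eq_succ_pred (Nat.find hP) with h0 | h0
  · have hsp := Nat.find_spec hP
    rw [h0] at hsp
    have hbot : ∀ L : Submodule E V, Module.finrank E L ≤ 0 → L = ⊥ := fun L hL =>
      Submodule.finrank_eq_zero.mp (Nat.le_zero.mp hL)
    have hdb : S ≤ d ⊥ := by
      refine le_of_forall_pos_lt_add fun ε hε => ?_
      obtain ⟨L, hL, hd⟩ := hsp ε hε
      rw [hbot L hL] at hd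
      linarith
    exact ⟨⊥, 1, one_pos, fun L => (hle L).trans hdb, fun L hL => absurd hL not_lt_bot⟩
  · set r : ℕ := (Nat.find hP).pred with hr
    have hsp := Nat.find_spec hP
    rw [h0] at hsp
    have hmin : ¬ ∀ ε : ℝ, 0 < ε → ∃ L : Submodule E V, Module.finrank E L ≤ r ∧ S - ε < d L :=
      Nat.find_min hP (by omega)
    push Not at hmin
    obtain ⟨g, hg, hgL⟩ := hmin
    have huniq : ∀ L L' : Submodule E V, Module.finrank E L ≤ r.succ → Module.finrank E L' ≤ r.succ →
        S - g / 2 < d L → S - g / 2 < d L' → L = L' := by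
      intro L L' hL hL' hd hd'
      by_contra hne'
      have hinf : Module.finrank E (L ⊓ L' : Submodule E V) ≤ r := by
        by_contra hcon
        have h1 : L ⊓ L' = L := Submodule.eq_of_le_of_finrank_le inf_le_left (by omega)
        have h2 : L ⊓ L' = L' := Submodule.eq_of_le_of_finrank_le inf_le_right (by omega)
        exact hne' (h1.symm.trans h2)
      have h1 := hgL _ hinf
      have h2 := hle (L ⊔ L')
      have h3 := hsub L L'
      linarith
    obtain ⟨F, hF, hdF⟩ := hsp (g / 2) (by linarith)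
    have hSF : S ≤ d F := by
      refine le_of_forall_pos_lt_add fun ε hε => ?_
      obtain ⟨L, hL, hd⟩ := hsp (min ε (g / 2)) (lt_min hε (by linarith))
      have hm1 : min ε (g / 2) ≤ ε := min_le_left _ _
      have hm2 : min ε (g / 2) ≤ g / 2 := min_le_right _ _
      have hLF : L = F := huniq L F hL hF (by linarith) hdF
      rw [hLF] at hd
      linarith
    refine ⟨F, g, hg, fun L => (hle L).trans hSF, fun L hL => ?_⟩
    have hlt : Module.finrank E L < Module.finrank E F := Submodule.finrank_lt_finrank_of_lt hL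
    have h1 := hgL L (by omega)
    have h2 := hle F
    linarith [hgL L (by omega)]

end Pool.Agent.Lib.MP_17a322_nt.FQ
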