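import Pool.Agent.Lib.MP_17a322_nt.FQ.H4
import Pool.Agent.Lib.MP_17a322_nt.FQ.D1

universe u v

namespace Pool.Agent.Lib.MP_17a322_nt.FQ

variable {k : Type v} {E : Type u} [Field k] [Field E] [Algebra k E]
  [FiniteDimensional E (Derivation k E E)]

/-- The degree of the space of all derivations is not negative for all models. -/
def Vj (H : Ht k E) : Prop :=
  ∀ {κ : Type} [Fintype κ] (m : κ → E), IsMd k m → 0 ≤ dg H m ⊤

/-- The degree is bounded below by a number which does not depend on the model. -/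
private theorem D2_low (H : Ht k E) (hV : Vj H) {κ : Type} [Fintype κ] (m : κ → E)
    (hm : IsMd k m) {κ' : Type} [Fintype κ'] (m' : κ' → E) (hm' : IsMd k m')
    (L : Submodule E (Derivation k E E)) : dg H m L - dg H m ⊤ ≤ dg H m' L := by
  have h0 : IsMd k (tn m m') := IsMd_tn m m' hm hm'.1
  have h1 : dg H (tn m m') L ≤ dg H m' L :=
    dg_anti H m' (tn m m') hm' h0 (Fi_tn_right m m' hm.1 hm'.1) L
  have h2 : dg H m L ≤ dg H (tn m m') L + (dg H m ⊤ - dg H (tn m m') ⊤) :=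
    dg_le_add H m (tn m m') hm h0 (Fi_tn_left m m' hm.1 hm'.1) L
  have h3 : 0 ≤ dg H (tn m m') ⊤ := hV (tn m m') h0
  linarith

/-- The infimum is a lower bound. -/
theorem dgI_le (H : Ht k E) (hV : Vj H) {κ : Type} [Fintype κ] (m : κ → E) (hm : IsMd k m)
    (L : Submodule E (Derivation k E E)) : dgI H L ≤ dg H m L := by
  refine csInf_le ⟨dg H m L - dg H m ⊤, ?_⟩ ⟨κ, inferInstance, m, hm, rfl⟩
  rintro x ⟨κ', hκ', m', hm', rfl⟩
  exact D2_low H hV m hm m' hm' L

/-- Near-optimal models. -/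
theorem exists_near (H : Ht k E) (hV : Vj H) {κ : Type} [Fintype κ] (m : κ → E) (hm : IsMd k m)
    (η : ℝ) (hη : 0 < η) :
    ∃ (κ' : Type) (_ : Fintype κ') (m' : κ' → E), IsMd k m' ∧ Fi k m m' ∧
      ∀ {κ'' : Type} [Fintype κ''] (m'' : κ'' → E), IsMd k m'' → Fi k m' m'' →
        ∀ L, dgI H L ≤ dg H m'' L ∧ dg H m'' L ≤ dgI H L + η := by
  have hne : {x : ℝ | ∃ (κ : Type) (_ : Fintype κ) (m : κ → E), IsMd k m ∧
      x = dg H m ⊤}.Nonempty := ⟨_, κ, inferInstance, m, hm, rfl⟩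
  obtain ⟨x, ⟨κ₁, hκ₁, m₁, hm₁, rfl⟩, hx⟩ := Real.lt_sInf_add_pos hne hη
  have hx' : dg H m₁ ⊤ < dgI H ⊤ + η := hx
  have h0 : IsMd k (tn m m₁) := IsMd_tn m m₁ hm hm₁.1
  refine ⟨κ × κ₁, inferInstance, tn m m₁, h0, Fi_tn_left m m₁ hm.1 hm₁.1, ?_⟩
  intro κ'' hκ'' m'' hm'' hF L
  refine ⟨dgI_le H hV m'' hm'' L, ?_⟩
  have h1 : dg H (tn m m₁) ⊤ ≤ dg H m₁ ⊤ :=
    dg_anti H m₁ (tn m m₁) hm₁ h0 (Fi_tn_right m m₁ hm.1 hm₁.1) ⊤
  have h2 : dg H m'' ⊤ ≤ dg H (tn m m₁) ⊤ := dg_anti H (tn m m₁) m'' h0 hm'' hF ⊤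
  have h3 : dg H m'' L - η ≤ dgI H L := by
    refine le_csInf ⟨_, κ, inferInstance, m, hm, rfl⟩ ?_
    rintro y ⟨κn, hκn, n, hn, rfl⟩
    have g0 : IsMd k (tn m'' n) := IsMd_tn m'' n hm'' hn.1
    have g1 : dg H (tn m'' n) L ≤ dg H n L :=
      dg_anti H n (tn m'' n) hn g0 (Fi_tn_right m'' n hm''.1 hn.1) L
    have g2 : dg H m'' L ≤ dg H (tn m'' n) L + (dg H m'' ⊤ - dg H (tn m'' n) ⊤) :=
      dg_le_add H m'' (tn m'' n) hm'' g0 (Fi_tn_left m'' n hm''.1 hn.1) L
    have g3 : dgI H ⊤ ≤ dg H (tn m'' n) ⊤ := dgI_le H hV (tn m'' n) g0 ⊤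
    linarith
  linarith

/-- The degree is submodular. -/
theorem dgI_sub (H : Ht k E) (hV : Vj H) {κ : Type} [Fintype κ] (m : κ → E) (hm : IsMd k m)
    (L L' : Submodule E (Derivation k E E)) :
    dgI H L + dgI H L' ≤ dgI H (L ⊓ L') + dgI H (L ⊔ L') := by
  refine le_of_forall_pos_le_add fun ε hε => ?_
  obtain ⟨κ', hκ', m', hm', -, h⟩ := exists_near H hV m hm (ε / 2) (by positivity)
  have hF : Fi k m' m' := fun A v => le_rfl
  have h1 := (h m' hm' hF L).1
  have h2 := (h m' hm' hF L').1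
  have h3 := (h m' hm' hF (L ⊓ L')).2
  have h4 := (h m' hm' hF (L ⊔ L')).2
  have h5 := dg_sub H m' hm' L L'
  linarith

/-- The degrees are bounded above. -/
theorem dgI_bdd (H : Ht k E) (hV : Vj H) {κ : Type} [Fintype κ] (m : κ → E) (hm : IsMd k m) :
    ∃ B : ℝ, ∀ L, dgI H L ≤ B := by
  obtain ⟨B, hB⟩ := dg_bdd H m hm
  exact ⟨B, fun L => (dgI_le H hV m hm L).trans (hB L)⟩

/-- The degree of the zero space. -/
theorem dgI_bot (H : Ht k E) {κ : Type} [Fintype κ] (m : κ → E) (hm : IsMd k m) :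
    dgI H (⊥ : Submodule E (Derivation k E E)) = 0 := by
  have h : {x : ℝ | ∃ (κ : Type) (_ : Fintype κ) (m : κ → E), IsMd k m ∧
      x = dg H m (⊥ : Submodule E (Derivation k E E))} = {0} := by
    apply Set.eq_singleton_iff_unique_mem.2
    constructor
    · exact ⟨κ, inferInstance, m, hm, (dg_bot H m hm).symm⟩
    · rintro x ⟨κ', hκ', m', hm', rfl⟩
      exact dg_bot H m' hm'
  unfold dgI
  rw [h]
  exact csInf_singleton 0

/-- The subspace `F` has maximal degree, and all smaller subspaces have a degree which is smaller by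
at least `g`. -/
def Mx (H : Ht k E) (F : Submodule E (Derivation k E E)) (g : ℝ) : Prop :=
  0 < g ∧ (∀ L, dgI H L ≤ dgI H F) ∧ ∀ L < F, dgI H L ≤ dgI H F - g

/-- The maximal subspace exists. -/
theorem exists_Mx (H : Ht k E) (hV : Vj H) {κ : Type} [Fintype κ] (m : κ → E) (hm : IsMd k m) :
    ∃ F g, Mx H F g :=
  exists_max (dgI H) (dgI_sub H hV m hm) (dgI_bdd H hV m hm)

/-- The slopes of a near-optimal model. -/
theorem slopes (H : Ht k E) {F : Submodule E (Derivation k E E)} {g : ℝ} (hF : Mx H F g)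
    {κ : Type} [Fintype κ] (m : κ → E) (η : ℝ) (hη : η ≤ g / 2)
    (hm : ∀ L, dgI H L ≤ dg H m L ∧ dg H m L ≤ dgI H L + η) :
    ∀ L < F, dg H m L + g / (2 * Module.finrank E (Derivation k E E)) *
      (Module.finrank E F - Module.finrank E L) ≤ dg H m F := by
  intro L hL
  obtain ⟨hg, -, hF'⟩ := hF
  have h1 := (hm L).2
  have h2 := (hm F).1
  have h3 := hF' L hL
  have hlt : Module.finrank E L < Module.finrank E F := Submodule.finrank_lt_finrank_of_lt hL
  have hle : Module.finrank E F ≤ Module.finrank E (Derivation k E E) := Submodule.finrank_le F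
  have hz : (0 : ℝ) < Module.finrank E (Derivation k E E) := by
    have : 0 < Module.finrank E (Derivation k E E) := by omega
    exact_mod_cast this
  have hle' : (Module.finrank E F : ℝ) ≤ Module.finrank E (Derivation k E E) := by
    exact_mod_cast hle
  have hL0 : (0 : ℝ) ≤ Module.finrank E L := Nat.cast_nonneg _
  have h4 : g / (2 * Module.finrank E (Derivation k E E)) *
      (Module.finrank E F - Module.finrank E L) ≤ g / 2 := by
    rw [div_mul_eq_mul_div, div_le_div_iff₀ (by positivity) (by norm_num)]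
    nlinarith
  linarith

end Pool.Agent.Lib.MP_17a322_nt.FQ
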