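import Pool.Agent.Lib.MP_17a322_nt.FQ.H3

universe u v

namespace Pool.Agent.Lib.MP_17a322_nt.FQ

variable {k : Type v} {E : Type u} [Field k] [Field E] [Algebra k E] {κ κ' : Type} [Fintype κ]
  [Fintype κ'] [FiniteDimensional E (Derivation k E E)]

section

variable {ι ι' : Type} [Fintype ι] [DecidableEq ι] [Fintype ι'] [DecidableEq ι']

omit [FiniteDimensional E (Derivation k E E)] in
private theorem H4_dv (m : κ → E) (v : ι → Derivation k E E) (A : VQ k E) :
    dv m v A = vn A.1.valuation (plk fun j p => ps m p (v j)) /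
      nm k m A ^ (2 * Fintype.card ι) := rfl

omit [FiniteDimensional E (Derivation k E E)] [Fintype κ] [Fintype ι] [DecidableEq ι] [Fintype ι']
  [DecidableEq ι'] in
private theorem H4_elim (m : κ → E) (x : ι → Derivation k E E) (y : ι' → Derivation k E E) :
    (fun (j : ι ⊕ ι') (p : κ × κ) => ps m p (Sum.elim x y j)) =
      Sum.elim (fun j p => ps m p (x j)) (fun j p => ps m p (y j)) := by
  funext j
  cases j <;> rfl

omit [FiniteDimensional E (Derivation k E E)] [DecidableEq ι] in
private theorem H4_comb (m : κ → E) (hm : m ≠ 0) (v : ι → Derivation k E E) (A : VQ k E)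
    (c : ι → E) :
    vn A.1.valuation (∑ j, c j • fun p : κ × κ => ps m p (v j)) =
      nm k m A ^ 2 * mn m A (∑ j, c j • v j) := by
  have h1 : (∑ j, c j • fun p : κ × κ => ps m p (v j)) =
      fun p : κ × κ => ps m p (∑ j, c j • v j) := by
    funext p
    rw [Finset.sum_apply, map_sum]
    apply Finset.sum_congr rfl
    intro j _
    rw [Pi.smul_apply, map_smul]
  rw [h1]
  have h2 : nm k m A ^ 2 ≠ 0 := pow_ne_zero 2 (nm_ne m hm A)
  have h3 : mn m A (∑ j, c j • v j) =
      vn A.1.valuation (fun p : κ × κ => ps m p (∑ j, c j • v j)) / nm k m A ^ 2 := rfl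
  rw [h3, mul_div_cancel₀ _ h2]

omit [FiniteDimensional E (Derivation k E E)] [DecidableEq ι] in
private theorem H4_fi (m : κ → E) (m' : κ' → E) (hm : m ≠ 0) (hm' : m' ≠ 0) (h : Fi k m m')
    (v : ι → Derivation k E E) (A : VQ k E) (c : ι → E) :
    vn A.1.valuation (∑ j, c j • fun p : κ × κ => ps m p (v j)) ≤
      nm k m A ^ 2 / nm k m' A ^ 2 *
        vn A.1.valuation (∑ j, c j • fun p : κ' × κ' => ps m' p (v j)) := by
  rw [H4_comb m hm, H4_comb m' hm']
  have h2 : nm k m' A ^ 2 ≠ 0 := pow_ne_zero 2 (nm_ne m' hm' A)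
  rw [← mul_assoc, div_mul_cancel₀ _ h2]
  exact mul_le_mul_right (h A _) _

end

private noncomputable def H4_b (L : Submodule E (Derivation k E E)) :
    Fin (Module.finrank E L) → Derivation k E E :=
  fun i => ((Module.finBasis E L i : L) : Derivation k E E)

private theorem H4_li (L : Submodule E (Derivation k E E)) : LinearIndependent E (H4_b L) := by
  have h := (Module.finBasis E L).linearIndependent.map' L.subtype (Submodule.ker_subtype L)
  exact h

private theorem H4_span (L : Submodule E (Derivation k E E)) :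
    Submodule.span E (Set.range (H4_b L)) = L := by
  have h1 : Set.range (H4_b L) = L.subtype '' Set.range (Module.finBasis E L) := by
    rw [← Set.range_comp]
    rfl
  rw [h1, Submodule.span_image, (Module.finBasis E L).span_eq, Submodule.map_top,
    Submodule.range_subtype]

private theorem H4_Lm (H : Ht k E) (m : κ → E) (hm : IsMd k m) (L : Submodule E (Derivation k E E)) :
    Lm H (dv m (H4_b L)) (- dg H m L) := by
  have h := dv_dg H m hm (H4_b L) (H4_li L)
  rwa [H4_span] at h

omit [FiniteDimensional E (Derivation k E E)] in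
private theorem H4_rel (L M : Submodule E (Derivation k E E)) (h : L ≤ M) :
    ∃ C : Submodule E (Derivation k E E), C ≤ M ∧ Disjoint L C ∧ L ⊔ C = M := by
  obtain ⟨q, hq⟩ := Submodule.exists_isCompl L
  refine ⟨q ⊓ M, inf_le_right, hq.disjoint.mono_right inf_le_left, ?_⟩
  rw [← sup_inf_assoc_of_le q h, hq.codisjoint.eq_top, top_inf_eq]

private theorem H4_Lm2 (H : Ht k E) (m : κ → E) (hm : IsMd k m)
    (L C M : Submodule E (Derivation k E E)) (hd : Disjoint L C) (hs : L ⊔ C = M) :
    Lm H (dv m (Sum.elim (H4_b L) (H4_b C))) (- dg H m M) := by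
  have h1 : LinearIndependent E (Sum.elim (H4_b L) (H4_b C)) := by
    apply (H4_li L).sum_type (H4_li C)
    rw [H4_span, H4_span]
    exact hd
  have h := dv_dg H m hm _ h1
  rwa [Set.Sum.elim_range, Submodule.span_union, H4_span, H4_span, hs] at h

/-- Submodularity of the degree. -/
theorem dg_sub (H : Ht k E) (m : κ → E) (hm : IsMd k m) (L L' : Submodule E (Derivation k E E)) :
    dg H m L + dg H m L' ≤ dg H m (L ⊓ L') + dg H m (L ⊔ L') := by
  obtain ⟨C, hC, hd, hs⟩ := H4_rel (L ⊓ L') L inf_le_left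
  obtain ⟨C', hC', hd', hs'⟩ := H4_rel (L ⊓ L') L' inf_le_right
  have hx := H4_Lm H m hm (L ⊓ L')
  have hxy := H4_Lm2 H m hm (L ⊓ L') C L hd hs
  have hxz := H4_Lm2 H m hm (L ⊓ L') C' L' hd' hs'
  have hCC : Disjoint C C' := by
    rw [disjoint_iff_inf_le]
    calc C ⊓ C' ≤ (L ⊓ L') ⊓ C := le_inf (inf_le_inf hC hC') inf_le_left
      _ ≤ ⊥ := hd.le_bot
  have hyz : LinearIndependent E (Sum.elim (H4_b C) (H4_b C')) := by
    refine LinearIndependent.sum_type (H4_li C) (H4_li C') ?_
    rw [H4_span, H4_span]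
    exact hCC
  have hdis : Disjoint (Submodule.span E (Set.range (H4_b (L ⊓ L'))))
      (Submodule.span E (Set.range (Sum.elim (H4_b C) (H4_b C')))) := by
    rw [Set.Sum.elim_range, Submodule.span_union, H4_span, H4_span, H4_span]
    rw [Submodule.disjoint_def]
    intro w hw hw2
    obtain ⟨c, hc, c', hc', rfl⟩ := Submodule.mem_sup.1 hw2
    have h1 : c' ∈ L := by
      have h2 : c' = (c + c') - c := by abel
      rw [h2]
      exact L.sub_mem hw.1 (hC hc)
    have h3 : c' = 0 := Submodule.disjoint_def.1 hd' c' ⟨h1, hC' hc'⟩ hc'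
    subst h3
    rw [add_zero] at hw ⊢
    exact Submodule.disjoint_def.1 hd c hw hc
  have hall : LinearIndependent E
      (Sum.elim (H4_b (L ⊓ L')) (Sum.elim (H4_b C) (H4_b C'))) :=
    LinearIndependent.sum_type (H4_li (L ⊓ L')) hyz hdis
  have hxyz := dv_dg H m hm _ hall
  have hsp : Submodule.span E (Set.range (Sum.elim (H4_b (L ⊓ L')) (Sum.elim (H4_b C) (H4_b C')))) =
      L ⊔ L' := by
    rw [Set.Sum.elim_range, Set.Sum.elim_range, Submodule.span_union, Submodule.span_union,
      H4_span, H4_span, H4_span]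
    apply le_antisymm
    · refine sup_le (inf_le_left.trans le_sup_left) (sup_le (hC.trans le_sup_left)
        (hC'.trans le_sup_right))
    · refine sup_le ?_ ?_
      · conv_lhs => rw [← hs]
        exact sup_le_sup_left le_sup_left _
      · conv_lhs => rw [← hs']
        exact sup_le_sup_left le_sup_right _
  rw [hsp] at hxyz
  have key : ∀ A : VQ k E, dv m (H4_b (L ⊓ L')) A *
      dv m (Sum.elim (H4_b (L ⊓ L')) (Sum.elim (H4_b C) (H4_b C'))) A ≤
      dv m (Sum.elim (H4_b (L ⊓ L')) (H4_b C)) A * dv m (Sum.elim (H4_b (L ⊓ L')) (H4_b C')) A := by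
    intro A
    rw [H4_dv, H4_dv, H4_dv, H4_dv, H4_elim, H4_elim, H4_elim, H4_elim]
    have h1 := vn_plk_submod A.1.valuation (fun j p => ps m p (H4_b (L ⊓ L') j))
      (fun j p => ps m p (H4_b C j)) (fun j p => ps m p (H4_b C' j))
    have hn : nm k m A ≠ 0 := nm_ne m hm.1 A
    rw [div_mul_div_comm, div_mul_div_comm, ← pow_add, ← pow_add]
    have h2 : 2 * Fintype.card (Fin (Module.finrank E ↥(L ⊓ L'))) +
        2 * Fintype.card (Fin (Module.finrank E ↥(L ⊓ L')) ⊕
          (Fin (Module.finrank E C) ⊕ Fin (Module.finrank E C'))) =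
        2 * Fintype.card (Fin (Module.finrank E ↥(L ⊓ L')) ⊕ Fin (Module.finrank E C)) +
        2 * Fintype.card (Fin (Module.finrank E ↥(L ⊓ L')) ⊕ Fin (Module.finrank E C')) := by
      simp only [Fintype.card_sum]
      ring
    rw [h2]
    rw [div_eq_mul_inv, div_eq_mul_inv]
    exact mul_le_mul_left h1 _
  have h := Lm_mono (Lm_mul hx hxyz) (Lm_mul hxy hxz) key
  linarith

/-- The degree is smaller for the finer model. -/
theorem dg_anti (H : Ht k E) (m : κ → E) (m' : κ' → E) (hm : IsMd k m) (hm' : IsMd k m')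
    (h : Fi k m m') (L : Submodule E (Derivation k E E)) : dg H m' L ≤ dg H m L := by
  have key : ∀ A : VQ k E, dv m (H4_b L) A ≤ dv m' (H4_b L) A := by
    intro A
    have h1 := vn_plk_mono A.1.valuation (fun j p => ps m p (H4_b L j))
      (fun j p => ps m' p (H4_b L j)) (nm k m A ^ 2 / nm k m' A ^ 2)
      (fun c => H4_fi m m' hm.1 hm'.1 h (H4_b L) A c)
    rw [H4_dv, H4_dv]
    have hn : nm k m A ^ (2 * Fintype.card (Fin (Module.finrank E L))) ≠ 0 :=
      pow_ne_zero _ (nm_ne m hm.1 A)
    have hn' : nm k m' A ^ (2 * Fintype.card (Fin (Module.finrank E L))) ≠ 0 :=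
      pow_ne_zero _ (nm_ne m' hm'.1 A)
    rw [div_pow, ← pow_mul, ← pow_mul] at h1
    rw [div_le_iff₀ (zero_lt_iff.2 hn)]
    refine h1.trans (le_of_eq ?_)
    rw [div_mul_eq_mul_div, div_mul_eq_mul_div, mul_comm]
  have h2 := Lm_mono (H4_Lm H m hm L) (H4_Lm H m' hm' L) key
  linarith

/-- Comparison of the degrees for two models. -/
theorem dg_le_add (H : Ht k E) (m : κ → E) (m' : κ' → E) (hm : IsMd k m) (hm' : IsMd k m')
    (h : Fi k m m') (L : Submodule E (Derivation k E E)) :
    dg H m L ≤ dg H m' L + (dg H m ⊤ - dg H m' ⊤) := by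
  obtain ⟨C, hC, hd, hs⟩ := H4_rel L ⊤ le_top
  have key : ∀ A : VQ k E, dv m' (H4_b L) A * dv m (Sum.elim (H4_b L) (H4_b C)) A ≤
      dv m' (Sum.elim (H4_b L) (H4_b C)) A * dv m (H4_b L) A := by
    intro A
    have h1 := vn_plk_compare A.1.valuation (fun j p => ps m p (H4_b L j))
      (fun j p => ps m p (H4_b C j)) (fun j p => ps m' p (H4_b L j))
      (fun j p => ps m' p (H4_b C j)) (nm k m A ^ 2 / nm k m' A ^ 2)
      (by
        intro c
        have h2 := H4_fi m m' hm.1 hm'.1 h (Sum.elim (H4_b L) (H4_b C)) A c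
        rw [← H4_elim, ← H4_elim]
        exact h2)
    rw [H4_dv, H4_dv, H4_dv, H4_dv, H4_elim, H4_elim]
    rw [div_pow, ← pow_mul, ← pow_mul] at h1
    have hn : nm k m A ≠ 0 := nm_ne m hm.1 A
    have hn' : nm k m' A ≠ 0 := nm_ne m' hm'.1 A
    have hc : Fintype.card (Fin (Module.finrank E L) ⊕ Fin (Module.finrank E C)) =
        Fintype.card (Fin (Module.finrank E L)) + Fintype.card (Fin (Module.finrank E C)) :=
      Fintype.card_sum
    rw [hc, mul_add, pow_add, pow_add]
    generalize vn A.1.valuation (plk fun j p => ps m' p (H4_b L j)) = a1 at h1 ⊢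
    generalize vn A.1.valuation (plk (Sum.elim (fun j p => ps m p (H4_b L j))
      (fun j p => ps m p (H4_b C j)))) = a2 at h1 ⊢
    generalize vn A.1.valuation (plk (Sum.elim (fun j p => ps m' p (H4_b L j))
      (fun j p => ps m' p (H4_b C j)))) = a3 at h1 ⊢
    generalize vn A.1.valuation (plk fun j p => ps m p (H4_b L j)) = a4 at h1 ⊢
    have hM1 : nm k m A ^ (2 * Fintype.card (Fin (Module.finrank E L))) ≠ 0 := pow_ne_zero _ hn
    have hM2 : nm k m A ^ (2 * Fintype.card (Fin (Module.finrank E C))) ≠ 0 := pow_ne_zero _ hn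
    have hN1 : nm k m' A ^ (2 * Fintype.card (Fin (Module.finrank E L))) ≠ 0 := pow_ne_zero _ hn'
    have hN2 : nm k m' A ^ (2 * Fintype.card (Fin (Module.finrank E C))) ≠ 0 := pow_ne_zero _ hn'
    generalize nm k m A ^ (2 * Fintype.card (Fin (Module.finrank E L))) = M1 at h1 hM1 ⊢
    generalize nm k m A ^ (2 * Fintype.card (Fin (Module.finrank E C))) = M2 at h1 hM2 ⊢
    generalize nm k m' A ^ (2 * Fintype.card (Fin (Module.finrank E L))) = N1 at h1 hN1 ⊢
    generalize nm k m' A ^ (2 * Fintype.card (Fin (Module.finrank E C))) = N2 at h1 hN2 ⊢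
    rw [div_mul_div_comm, div_le_iff₀ (zero_lt_iff.2 (mul_ne_zero hN1 (mul_ne_zero hM1 hM2)))]
    refine h1.trans (le_of_eq ?_)
    field_simp
  have h1 := Lm_mono (Lm_mul (H4_Lm H m' hm' L) (H4_Lm2 H m hm L C ⊤ hd hs))
    (Lm_mul (H4_Lm2 H m' hm' L C ⊤ hd hs) (H4_Lm H m hm L)) key
  linarith

private theorem H4_frame (m : κ → E) (hm : IsMd k m) (A : VQ k E) :
    ∃ u : Fin (Module.finrank E (⊤ : Submodule E (Derivation k E E))) → Derivation k E E,
      dv m u A = 1 ∧ (∀ j, mn m A (u j) ≤ 1) ∧
        ∀ w : Derivation k E E, ∃ c : Fin (Module.finrank E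
          (⊤ : Submodule E (Derivation k E E))) → E, w = ∑ j, c j • u j ∧
          ∀ j, A.1.valuation (c j) ≤ mn m A w := by
  obtain ⟨Fr, -, hFr⟩ := exists_frames m hm ⊤ ⊤ le_rfl
  obtain ⟨u, -, -, -, h1, h2⟩ := hFr A
  have h3 : ∀ w : Derivation k E E, ∃ c : Fin (Module.finrank E
      (⊤ : Submodule E (Derivation k E E))) → E, w = ∑ j, c j • u j ∧
      ∀ j, A.1.valuation (c j) ≤ mn m A w := fun w => h2 w Submodule.mem_top
  have hli : LinearIndependent E u := by
    apply linearIndependent_of_top_le_span_of_card_eq_finrank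
    · intro w _
      obtain ⟨c, hc, -⟩ := h3 w
      rw [hc]
      exact Submodule.sum_mem _ fun j _ => Submodule.smul_mem _ _ (Submodule.subset_span ⟨j, rfl⟩)
    · rw [Fintype.card_fin, finrank_top]
  refine ⟨u, ?_, h1, h3⟩
  apply dv_frame m hm u A h1
  intro c j
  obtain ⟨c', hc', hb⟩ := h3 (∑ i, c i • u i)
  have h4 : c = c' := by
    have h5 : ∑ i, (c i - c' i) • u i = 0 := by
      simp only [sub_smul, Finset.sum_sub_distrib]
      rw [← hc', sub_self]
    funext i
    exact sub_eq_zero.1 (Fintype.linearIndependent_iff.1 hli _ h5 i)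
  rw [h4] at hb ⊢
  exact hb j

omit [FiniteDimensional E (Derivation k E E)] in
private theorem H4_det {ι : Type} [Fintype ι] [DecidableEq ι] (A : VQ k E) (M : Matrix ι ι E)
    (h : ∀ i j, A.1.valuation (M i j) ≤ 1) : A.1.valuation M.det ≤ 1 := by
  have h1 : A.1.valuation M.det = vn A.1.valuation (plk M) :=
    (vn_plk_square A.1.valuation M).symm
  rw [h1]
  refine (vn_plk_le_prod A.1.valuation M).trans ?_
  apply Finset.prod_le_one'
  intro j _
  exact vn_le A.1.valuation fun a => h j a

/-- The comparison of the norms of two models. -/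
theorem exists_cmp (H : Ht k E) (m : κ → E) (m' : κ' → E) (hm : IsMd k m) (hm' : IsMd k m')
    (h : Fi k m m') :
    ∃ c : Fn k E, Lm H c (dg H m ⊤ - dg H m' ⊤) ∧ (∀ A, 1 ≤ c A) ∧
      ∀ (A : VQ k E) (v : Derivation k E E), mn m' A v ≤ c A * mn m A v := by
  have hL := H4_Lm H m hm ⊤
  have hL' := H4_Lm H m' hm' ⊤
  have hLm := Lm_div hL' hL
  have he : - dg H m' ⊤ - - dg H m ⊤ = dg H m ⊤ - dg H m' ⊤ := by ring
  rw [he] at hLm
  have main : ∀ A : VQ k E, 1 ≤ dv m' (H4_b ⊤) A / dv m (H4_b ⊤) A ∧
      ∀ v : Derivation k E E, mn m' A v ≤ dv m' (H4_b ⊤) A / dv m (H4_b ⊤) A * mn m A v := by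
    intro A
    obtain ⟨u, hu1, hu2, hu3⟩ := H4_frame m hm A
    obtain ⟨u', hu1', hu2', hu3'⟩ := H4_frame m' hm' A
    -- the quotient does not depend on the basis
    choose B hB _ using fun j => hu3 (H4_b ⊤ j)
    have hb : H4_b ⊤ = fun j => ∑ i, (Matrix.of B).transpose i j • u i := by
      funext j
      rw [hB j]
      rfl
    have h1 : dv m (H4_b ⊤) A = A.1.valuation (Matrix.of B).transpose.det := by
      rw [hb, dv_mul, hu1, mul_one]
    have h2 : dv m' (H4_b ⊤) A = A.1.valuation (Matrix.of B).transpose.det * dv m' u A := by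
      rw [hb, dv_mul]
    have h3 : A.1.valuation (Matrix.of B).transpose.det ≠ 0 := by
      rw [← h1]
      exact Lm_ne hL A
    have h4 : dv m' (H4_b ⊤) A / dv m (H4_b ⊤) A = dv m' u A := by
      rw [h1, h2, mul_div_cancel_left₀ _ h3]
    rw [h4]
    choose Q hQ1 hQ2 using fun j => hu3 (u' j)
    have hQ : u' = fun j => ∑ i, (Matrix.of Q).transpose i j • u i := by
      funext j
      rw [hQ1 j]
      rfl
    have h5 : A.1.valuation (Matrix.of Q).transpose.det * dv m' u A = 1 := by
      rw [← dv_mul, ← hQ, hu1']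
    have hQ3 : ∀ i j, A.1.valuation ((Matrix.of Q).transpose i j) ≤ 1 := fun i j =>
      (hQ2 j i).trans ((h A (u' j)).trans (hu2' j))
    have h6 : A.1.valuation (Matrix.of Q).transpose.det ≤ 1 := H4_det A _ hQ3
    have h7 : 1 ≤ dv m' u A := by
      rw [← h5]
      calc A.1.valuation (Matrix.of Q).transpose.det * dv m' u A ≤ 1 * dv m' u A :=
            mul_le_mul_left h6 _
        _ = dv m' u A := one_mul _
    refine ⟨h7, ?_⟩
    have h8 : ∀ l, mn m' A (u l) ≤ dv m' u A := by
      intro l
      have h9 : (Matrix.of Q).transpose.det • u l =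
          ∑ j, (Matrix.of Q).transpose.adjugate j l • u' j := by
        rw [hQ]
        simp only [Finset.smul_sum, smul_smul]
        rw [Finset.sum_comm]
        have h10 : ∀ i, ∑ j, ((Matrix.of Q).transpose.adjugate j l *
            (Matrix.of Q).transpose i j) • u i =
            ((Matrix.of Q).transpose.det • (1 : Matrix _ _ E)) i l • u i := by
          intro i
          rw [← Finset.sum_smul, ← Matrix.mul_adjugate, Matrix.mul_apply]
          congr 1
          apply Finset.sum_congr rfl
          intro j _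
          rw [mul_comm]
        rw [Finset.sum_congr rfl fun i _ => h10 i]
        simp only [Matrix.smul_apply, Matrix.one_apply, smul_eq_mul, mul_ite, mul_one, mul_zero,
          ite_smul, zero_smul, Finset.sum_ite_eq', Finset.mem_univ, if_true]
      have h11 : A.1.valuation (Matrix.of Q).transpose.det * mn m' A (u l) ≤ 1 := by
        rw [← mn_smul, h9]
        apply mn_sum_le
        intro j
        rw [mn_smul]
        refine mul_le_one' ?_ (hu2' j)
        rw [Matrix.adjugate_apply]
        apply H4_det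
        intro a b
        rw [Matrix.updateRow_apply]
        split
        · rw [Pi.single_apply]
          split
          · rw [map_one]
          · rw [map_zero]
            exact zero_le
        · exact hQ3 a b
      have h12 : mn m' A (u l) = (A.1.valuation (Matrix.of Q).transpose.det * mn m' A (u l)) *
          dv m' u A := by
        calc mn m' A (u l) = (A.1.valuation (Matrix.of Q).transpose.det * dv m' u A) *
              mn m' A (u l) := by rw [h5, one_mul]
          _ = _ := mul_right_comm _ _ _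
      rw [h12]
      calc (A.1.valuation (Matrix.of Q).transpose.det * mn m' A (u l)) * dv m' u A ≤
            1 * dv m' u A := mul_le_mul_left h11 _
        _ = dv m' u A := one_mul _
    intro w
    obtain ⟨c, hc1, hc2⟩ := hu3 w
    conv_lhs => rw [hc1]
    apply mn_sum_le
    intro j
    rw [mn_smul, mul_comm]
    exact mul_le_mul' (h8 j) (hc2 j)
  exact ⟨fun A => dv m' (H4_b ⊤) A / dv m (H4_b ⊤) A, hLm, fun A => (main A).1,
    fun A => (main A).2⟩

end Pool.Agent.Lib.MP_17a322_nt.FQ
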