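import Pool.Agent.Lib.MP_17a322_nt.FQ.V6
import Pool.Agent.Lib.MP_17a322_nt.FQ.H4
import Pool.Agent.Lib.MP_17a322_nt.FQ.D2

/-!
Vojta's conjecture over `k`: the degree of the space of all derivations is not negative for all models.
-/

universe u

namespace Pool.Agent.Lib.MP_17a322_nt.FQ

open MvPolynomial Height NumberField
open Pool.Agent.Lib.MP_17a322_nt.JAC (VojtaGauss)

section

variable {k B : Type u} [Field k] [NumberField k] [Field B] [Algebra k B] {I : Type} (X : Evl k B I)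
  {E : Type u} [Field E] [Algebra k E] [Algebra E B] [IsScalarTower k E B]
  [FiniteDimensional E (Derivation k E E)] {ι : Type} [Fintype ι]

/-- Vojta's conjecture over `k` implies that the degree of the space of all derivations is not negative
for all models. -/
theorem Vj_evl (hV : VojtaGauss k) (hE : (⊤ : IntermediateField k E).FG) : Vj (X.ht E) := by
  intro κ _ m hm
  obtain ⟨a₀, ha₀⟩ : ∃ a, m a ≠ 0 := by
    by_contra h
    push Not at h
    exact hm.1 (funext h)
  obtain ⟨n, g, hg1, hgE⟩ := exists_gen (k := k) (E := E) hE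
  have hg0 : g ≠ 0 := fun h => one_ne_zero (hg1.symm.trans (congrFun h none))
  have h2 : IsMd k (tn m g) := IsMd_tn m g hm hg0
  have hc : (m a₀)⁻¹ ≠ 0 := inv_ne_zero ha₀
  have h3 : IsMd k (fun a => (m a₀)⁻¹ * tn m g a) := IsMd_smul (tn m g) _ hc h2
  have hval : ∀ o, (fun a => (m a₀)⁻¹ * tn m g a) (a₀, o) = g o := fun o => by
    change (m a₀)⁻¹ * (m a₀ * g o) = g o
    rw [← mul_assoc, inv_mul_cancel₀ ha₀, one_mul]
  have h31 : (fun a => (m a₀)⁻¹ * tn m g a) (a₀, none) = 1 := (hval none).trans hg1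
  have h3E : IntermediateField.adjoin k (Set.range fun a => (m a₀)⁻¹ * tn m g a) = ⊤ := by
    rw [eq_top_iff, ← hgE]
    refine IntermediateField.adjoin.mono k _ _ ?_
    rintro _ ⟨o, rfl⟩
    exact ⟨(a₀, o), hval o⟩
  calc 0 ≤ dg (X.ht E) (fun a => (m a₀)⁻¹ * tn m g a) ⊤ := dg_nonneg_gen X hV _ h31 h3E
    _ ≤ dg (X.ht E) (tn m g) ⊤ :=
      dg_anti _ _ _ h2 h3 (fun A v => (mn_smul_model (tn m g) _ hc A v).ge) ⊤
    _ ≤ dg (X.ht E) m ⊤ := dg_anti _ _ _ hm h2 (Fi_tn_left m g hm.1 hg0) ⊤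

end

end Pool.Agent.Lib.MP_17a322_nt.FQ
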