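import Pool.Agent.Lib.MP_17a322_nt.FQ.Defs

universe u

namespace Pool.Agent.Lib.MP_17a322_nt.FQ

open Height NumberField

section

variable {k : Type u} [Field k] [NumberField k] {I : Type}

/-- The height of the sequence is bounded by a multiple of `h`. -/
private def A5_P (U : Ultrafilter I) (h : I → ℝ) (s : I → k) : Prop :=
  ∃ C : ℝ, ∀ᶠ i in (U : Filter I), logHeight₁ (s i) ≤ C * h i

private theorem A5_const {U : Ultrafilter I} {h : I → ℝ}
    (hh : Filter.Tendsto h (U : Filter I) Filter.atTop) (c : k) : A5_P U h fun _ => c := by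
  refine ⟨logHeight₁ c, ?_⟩
  filter_upwards [hh.eventually_ge_atTop 1] with i hi
  have h0 := zero_le_logHeight₁ c
  nlinarith

private theorem A5_mul {U : Ultrafilter I} {h : I → ℝ} {s t : I → k}
    (hs : A5_P U h s) (ht : A5_P U h t) : A5_P U h (s * t) := by
  obtain ⟨C, hC⟩ := hs
  obtain ⟨D, hD⟩ := ht
  refine ⟨C + D, ?_⟩
  filter_upwards [hC, hD] with i h1 h2
  have h3 := logHeight₁_mul_le (s i) (t i)
  rw [Pi.mul_apply, add_mul]
  linarith

private theorem A5_add {U : Ultrafilter I} {h : I → ℝ}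
    (hh : Filter.Tendsto h (U : Filter I) Filter.atTop) {s t : I → k}
    (hs : A5_P U h s) (ht : A5_P U h t) : A5_P U h (s + t) := by
  obtain ⟨C, hC⟩ := hs
  obtain ⟨D, hD⟩ := ht
  refine ⟨totalWeight k * Real.log 2 + C + D, ?_⟩
  filter_upwards [hC, hD, hh.eventually_ge_atTop 1] with i h1 h2 h4
  have h3 := logHeight₁_add_le (s i) (t i)
  have h5 : 0 ≤ totalWeight k * Real.log 2 :=
    mul_nonneg (Nat.cast_nonneg _) (Real.log_nonneg (by norm_num))
  rw [Pi.add_apply]
  nlinarith

private theorem A5_inv {U : Ultrafilter I} {h : I → ℝ} {s : I → k}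
    (hs : A5_P U h s) : A5_P U h s⁻¹ := by
  obtain ⟨C, hC⟩ := hs
  refine ⟨C, ?_⟩
  filter_upwards [hC] with i h1
  rw [Pi.inv_apply, logHeight₁_inv]
  exact h1

private theorem A5_neg {U : Ultrafilter I} {h : I → ℝ} {s : I → k}
    (hs : A5_P U h s) : A5_P U h (-s) := by
  obtain ⟨C, hC⟩ := hs
  refine ⟨C, ?_⟩
  filter_upwards [hC] with i h1
  rw [Pi.neg_apply, logHeight₁_neg]
  exact h1

/-- The field of the classes of the sequences with bounded heights. -/
private noncomputable def A5_B (U : Ultrafilter I) (h : I → ℝ)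
    (hh : Filter.Tendsto h (U : Filter I) Filter.atTop) : Subfield ((U : Filter I).Germ k) where
  carrier := {x | ∃ s : I → k, (s : (U : Filter I).Germ k) = x ∧ A5_P U h s}
  mul_mem' := by
    rintro _ _ ⟨s, rfl, hs⟩ ⟨t, rfl, ht⟩
    exact ⟨s * t, Filter.Germ.coe_mul s t, A5_mul hs ht⟩
  one_mem' := ⟨fun _ => 1, rfl, A5_const hh 1⟩
  add_mem' := by
    rintro _ _ ⟨s, rfl, hs⟩ ⟨t, rfl, ht⟩
    exact ⟨s + t, Filter.Germ.coe_add s t, A5_add hh hs ht⟩
  zero_mem' := ⟨fun _ => 0, rfl, A5_const hh 0⟩
  neg_mem' := by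
    rintro _ ⟨s, rfl, hs⟩
    exact ⟨-s, Filter.Germ.coe_neg s, A5_neg hs⟩
  inv_mem' := by
    rintro _ ⟨s, rfl, hs⟩
    exact ⟨s⁻¹, Filter.Germ.coe_inv s, A5_inv hs⟩

end

/-- The classes of the sequences in `k` whose heights are bounded by multiples of `h` form a field. -/
theorem exists_evl (k : Type u) [Field k] [NumberField k] (I : Type) (U : Ultrafilter I) (h : I → ℝ)
    (hh : Filter.Tendsto h (U : Filter I) Filter.atTop) :
    ∃ (B : Type u) (_ : Field B) (_ : Algebra k B) (X : Evl k B I), X.U = U ∧ X.h = h := by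
  let B : Subfield ((U : Filter I).Germ k) := A5_B U h hh
  let f : k →+* (U : Filter I).Germ k :=
    (Filter.Germ.coeRingHom (U : Filter I)).comp (Pi.constRingHom I k)
  have hf : ∀ c : k, f c ∈ B := fun c => ⟨fun _ => c, rfl, A5_const hh c⟩
  have hB : ∀ x : B, ∃ s : I → k, (s : (U : Filter I).Germ k) = x.1 ∧ A5_P U h s := fun x => x.2
  choose ev he hP using hB
  have key : ∀ {s t : I → k}, (s : (U : Filter I).Germ k) = t → ∀ᶠ i in (U : Filter I), s i = t i :=
    fun {s t} h => Filter.Germ.coe_eq.1 h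
  refine ⟨B, inferInstance, (f.codRestrict B hf).toAlgebra, ?_, ?_⟩
  · letI : Algebra k B := (f.codRestrict B hf).toAlgebra
    exact
      { U := U
        h := h
        top := hh
        ev := ev
        add := fun x y => by
          have h1 : (ev (x + y) : (U : Filter I).Germ k) = ((ev x + ev y : I → k)) := by
            rw [he, Filter.Germ.coe_add, he, he]
            rfl
          exact key h1
        mul := fun x y => by
          have h1 : (ev (x * y) : (U : Filter I).Germ k) = ((ev x * ev y : I → k)) := by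
            rw [he, Filter.Germ.coe_mul, he, he]
            rfl
          exact key h1
        alg := fun c => by
          have h1 : (ev (algebraMap k B c) : (U : Filter I).Germ k) = ((fun _ => c : I → k)) := by
            rw [he]
            rfl
          exact key h1
        bdd := hP
        surj := fun s hs => by
          have h1 : (s : (U : Filter I).Germ k) ∈ B := ⟨s, rfl, hs⟩
          exact ⟨⟨_, h1⟩, key (he ⟨_, h1⟩)⟩ }
  · exact ⟨rfl, rfl⟩

end Pool.Agent.Lib.MP_17a322_nt.FQ
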