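import Pool.Agent.Lib.MP_17a322_nt.FQ.X11

/-!
The fields `E` and `F = E ⊗ K` inside the big fields.
-/

universe u

namespace Pool.Agent.Lib.MP_17a322_nt.FQ

open Height NumberField

variable {K BK : Type u} [Field K] [NumberField K] [Field BK] [Algebra K BK] {I : Type} (XK : Evl K BK I)
  {BQ : Type} [Field BQ] [Algebra ℚ BQ] (XQ : Evl ℚ BQ I)

/-- The rational combinations of a basis give all elements of `K`. -/
private theorem X12_sum {K BK : Type*} [Field K] [CharZero K] [Field BK] [Algebra K BK] {m : ℕ}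
    (ω : Module.Basis (Fin m) ℚ K) (c : K) :
    algebraMap K BK c = ∑ a, ((ω.repr c a : ℚ) : BK) * algebraMap K BK (ω a) := by
  have h1 : ∑ a, ω.repr c a • ω a = c := ω.sum_repr c
  have h2 := congrArg (algebraMap K BK) h1
  rw [map_sum] at h2
  rw [← h2]
  refine Finset.sum_congr rfl fun a _ => ?_
  rw [Algebra.smul_def, map_mul, eq_ratCast, map_ratCast]

/-- The products of the elements of `E` and of the elements of `K` generate an intermediate field. -/
theorem exists_comp {BQ BK K : Type*} [Field K] [CharZero K] [Field BK] [Algebra K BK] [Field BQ] [Algebra ℚ BQ]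
    (j : BQ →+* BK) {m : ℕ} (ω : Module.Basis (Fin m) ℚ K) (E : IntermediateField ℚ BQ) :
    ∃ F : IntermediateField K BK, ∀ x, x ∈ F ↔ ∃ e : Fin m → E, x = ∑ a, algebraMap K BK (ω a) * j (e a) := by
  let φ : E →+* BK := j.comp (algebraMap E BQ)
  let _ : Algebra E BK := φ.toAlgebra
  have hsm : ∀ (e : E) (y : BK), e • y = j e * y := fun e y => rfl
  set v : Fin m → BK := fun a => algebraMap K BK (ω a) with hv
  set S : Submodule E BK := Submodule.span E (Set.range v) with hS
  have hmem : ∀ x, x ∈ S ↔ ∃ e : Fin m → E, x = ∑ a, algebraMap K BK (ω a) * j (e a) := by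
    intro x
    rw [hS, Submodule.mem_span_range_iff_exists_fun]
    constructor
    · rintro ⟨c, rfl⟩
      exact ⟨c, Finset.sum_congr rfl fun a _ => by rw [hsm, mul_comm]⟩
    · rintro ⟨e, rfl⟩
      exact ⟨e, Finset.sum_congr rfl fun a _ => by rw [hsm, mul_comm]⟩
  have hK : ∀ c : K, algebraMap K BK c ∈ S := by
    intro c
    rw [X12_sum ω c]
    refine S.sum_mem fun a _ => ?_
    have h1 : ((ω.repr c a : ℚ) : BK) * algebraMap K BK (ω a) = ((ω.repr c a : ℚ) : E) • v a := by
      rw [hsm]
      congr 1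
      have h2 : (((ω.repr c a : ℚ) : E) : BQ) = ((ω.repr c a : ℚ) : BQ) := map_ratCast (algebraMap E BQ) _
      rw [h2, map_ratCast]
    rw [h1]
    exact S.smul_mem _ (Submodule.subset_span ⟨a, rfl⟩)
  have hmul1 : ∀ (c : K) (y : BK), y ∈ S → algebraMap K BK c * y ∈ S := by
    intro c y hy
    induction hy using Submodule.span_induction with
    | mem x hx =>
      obtain ⟨a, rfl⟩ := hx
      have h1 : algebraMap K BK c * v a = algebraMap K BK (c * ω a) := by rw [map_mul]
      rw [h1]
      exact hK _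
    | zero => rw [mul_zero]; exact S.zero_mem
    | add x y _ _ hx hy => rw [mul_add]; exact S.add_mem hx hy
    | smul e x _ hx => rw [mul_smul_comm]; exact S.smul_mem e hx
  have hmul : ∀ x y : BK, x ∈ S → y ∈ S → x * y ∈ S := by
    intro x y hx hy
    induction hx using Submodule.span_induction with
    | mem x hx =>
      obtain ⟨a, rfl⟩ := hx
      exact hmul1 _ _ hy
    | zero => rw [zero_mul]; exact S.zero_mem
    | add x z _ _ hx hz => rw [add_mul]; exact S.add_mem hx hz
    | smul e x _ hx => rw [smul_mul_assoc]; exact S.smul_mem e hx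
  have hone : (1 : BK) ∈ S := by
    have := hK 1
    rwa [map_one] at this
  let A : Subalgebra E BK := S.toSubalgebra hone hmul
  have hA : ∀ x, x ∈ A ↔ x ∈ S := fun x => Iff.rfl
  have hfg : A.toSubmodule.FG := by
    have h1 : A.toSubmodule = S := by
      ext x
      exact Iff.rfl
    rw [h1]
    exact Submodule.fg_span (Set.finite_range v)
  have hinv : ∀ x ∈ S, x⁻¹ ∈ S := by
    intro x hx
    have h1 : IsIntegral E x := IsIntegral.of_mem_of_fg A hfg x hx
    have h2 : IsAlgebraic E ((⟨x, hx⟩ : A) : BK) := h1.isAlgebraic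
    exact A.inv_mem_of_algebraic h2
  exact ⟨{ carrier := S
           mul_mem' := fun {a b} ha hb => hmul a b ha hb
           one_mem' := hone
           add_mem' := fun {a b} ha hb => S.add_mem ha hb
           zero_mem' := S.zero_mem
           algebraMap_mem' := hK
           inv_mem' := hinv }, hmem⟩

/-- The fields `E` and `F = E ⊗ K`, the action of the Galois group, and the heights. -/
theorem exists_tower [IsGalois ℚ K] (hU : XK.U = XQ.U) (hh : XK.h = XQ.h) {m : ℕ} (ω : Module.Basis (Fin m) ℚ K)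
    {τ : Type} [Finite τ] (ξ : τ → BK) :
    ∃ (E : Type) (_ : Field E) (_ : Algebra ℚ E) (_ : Algebra E BQ) (_ : IsScalarTower ℚ E BQ)
      (F : Type u) (_ : Field F) (_ : Algebra K F) (_ : Algebra F BK) (_ : IsScalarTower K F BK)
      (_ : Algebra E F) (b : Module.Basis (Fin m) E F) (s : (K ≃ₐ[ℚ] K) →* (F ≃ₐ[E] F)) (x : τ → F),
      (⊤ : IntermediateField ℚ E).FG ∧ (∀ i, b i = algebraMap K F (ω i)) ∧
      (∀ σ c, s σ (algebraMap K F c) = algebraMap K F (σ c)) ∧ (∀ t, algebraMap F BK (x t) = ξ t) ∧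
      (∀ {κ : Type} [Fintype κ] (S : κ → E), XK.lm (fun a => algebraMap F BK (algebraMap E F (S a))) =
        Module.finrank ℚ K * XQ.lm fun a => algebraMap E BQ (S a)) ∧
      ∀ {κ : Type} [Fintype κ] (σ : K ≃ₐ[ℚ] K) (S : κ → F),
        XK.lm (fun a => algebraMap F BK (s σ (S a))) = XK.lm fun a => algebraMap F BK (S a) := by
  obtain ⟨j, hj⟩ := exists_emb XK XQ hU hh
  obtain ⟨s', hs'⟩ := exists_act XK
  choose u hu using fun t => exists_coord XK XQ hU hh j hj ω (ξ t)
  let E : IntermediateField ℚ BQ := IntermediateField.adjoin ℚ (Set.range fun p : τ × Fin m => u p.1 p.2)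
  have hE : E.FG := IntermediateField.fg_adjoin_of_finite (Set.finite_range _)
  have hEt : @IntermediateField.FG ℚ _ E _ E.algebra' ⊤ :=
    (@IntermediateField.fg_top_iff ℚ _ E _ E.algebra').2 ((IntermediateField.essFiniteType_iff).2 hE)
  obtain ⟨F, hF⟩ := exists_comp j ω E
  have huE : ∀ t a, u t a ∈ E := fun t a => IntermediateField.subset_adjoin _ _ ⟨(t, a), rfl⟩
  -- the embedding of `E` in `F`
  have hjF : ∀ e : E, j e ∈ F := by
    intro e
    rw [hF]
    refine ⟨fun a => ((ω.repr 1 a : ℚ) : E) * e, ?_⟩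
    have h1 := X12_sum (BK := BK) ω 1
    rw [map_one] at h1
    have h2 : j e = (∑ a, ((ω.repr 1 a : ℚ) : BK) * algebraMap K BK (ω a)) * j e := by rw [← h1, one_mul]
    rw [h2, Finset.sum_mul]
    refine Finset.sum_congr rfl fun a _ => ?_
    have h3 : j ((((ω.repr 1 a : ℚ) : E) * e : E) : BQ) = ((ω.repr 1 a : ℚ) : BK) * j e := by
      have h4 : (((ω.repr 1 a : ℚ) : E) : BQ) = ((ω.repr 1 a : ℚ) : BQ) := map_ratCast (algebraMap E BQ) _
      rw [IntermediateField.coe_mul, map_mul, h4, map_ratCast]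
    rw [h3]
    ring
  let ρ : E →+* F := (j.comp (algebraMap E BQ)).codRestrict F hjF
  let iEF : Algebra E F := ρ.toAlgebra
  have hρ : ∀ e : E, ((algebraMap E F e : F) : BK) = j e := fun e => rfl
  have hsm : ∀ (e : E) (y : F), ((e • y : F) : BK) = j e * y := fun e y => rfl
  have hli : LinearIndependent E fun i => algebraMap K F (ω i) := by
    rw [Fintype.linearIndependent_iff]
    intro g hg i
    have h1 : ∑ a, algebraMap K BK (ω a) * j (g a) = 0 := by
      have h2 := congrArg (algebraMap F BK) hg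
      rw [map_sum, map_zero] at h2
      rw [← h2]
      refine Finset.sum_congr rfl fun a _ => ?_
      show _ = ((g a • algebraMap K F (ω a) : F) : BK)
      rw [hsm, mul_comm]
      rfl
    have h2 := coord_unique XK XQ j hj hU ω (fun a => (g a : BQ)) h1
    have h3 := congrFun h2 i
    exact Subtype.ext h3
  have hsp : ⊤ ≤ Submodule.span E (Set.range fun i => algebraMap K F (ω i)) := by
    intro y _
    rw [Submodule.mem_span_range_iff_exists_fun]
    obtain ⟨e, he⟩ := (hF y).1 y.2
    refine ⟨e, Subtype.ext ?_⟩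
    rw [he]
    have h2 : ((∑ i, e i • algebraMap K F (ω i) : F) : BK) = ∑ i, ((e i • algebraMap K F (ω i) : F) : BK) :=
      map_sum (algebraMap F BK) _ _
    rw [h2]
    refine Finset.sum_congr rfl fun a _ => ?_
    rw [hsm, mul_comm]
    rfl
  let b : Module.Basis (Fin m) E F := Module.Basis.mk hli hsp
  -- the action
  have hsj : ∀ σ y, s' σ (j y) = j y := by
    intro σ y
    rw [← ev_eq XK]
    filter_upwards [hs' σ (j y), hj y] with i h1 h2
    rw [h1, h2, map_ratCast]
  have hsc : ∀ σ c, s' σ (algebraMap K BK c) = algebraMap K BK (σ c) := by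
    intro σ c
    rw [← ev_eq XK]
    filter_upwards [hs' σ (algebraMap K BK c), XK.alg c, XK.alg (σ c)] with i h1 h2 h3
    rw [h1, h2, h3]
  have hsF : ∀ σ, ∀ y ∈ F, s' σ y ∈ F := by
    intro σ y hy
    obtain ⟨e, he⟩ := (hF y).1 hy
    rw [he, map_sum]
    refine F.sum_mem fun a _ => ?_
    rw [map_mul, hsc, hsj]
    exact F.mul_mem (F.algebraMap_mem _) (hjF _)
  let g : (K ≃ₐ[ℚ] K) → (F →ₐ[E] F) := fun σ =>
    { toFun := fun y => ⟨s' σ y, hsF σ y y.2⟩
      map_one' := Subtype.ext (map_one (s' σ))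
      map_mul' := fun x y => Subtype.ext (map_mul (s' σ) _ _)
      map_zero' := Subtype.ext (map_zero (s' σ))
      map_add' := fun x y => Subtype.ext (map_add (s' σ) _ _)
      commutes' := fun e => Subtype.ext (hsj σ _) }
  have hg : ∀ σ (y : F), ((g σ y : F) : BK) = s' σ y := fun σ y => rfl
  have hg1 : ∀ σ σ' : K ≃ₐ[ℚ] K, σ * σ' = 1 → (g σ).comp (g σ') = AlgHom.id E F := by
    intro σ σ' h
    refine AlgHom.ext fun y => Subtype.ext ?_
    have h1 : s' σ (s' σ' y) = s' (σ * σ') y := by
      rw [map_mul]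
      rfl
    rw [AlgHom.comp_apply, hg, hg, h1, h, map_one]
    rfl
  let s : (K ≃ₐ[ℚ] K) →* (F ≃ₐ[E] F) :=
    { toFun := fun σ => AlgEquiv.ofAlgHom (g σ) (g σ⁻¹) (hg1 _ _ (mul_inv_cancel σ)) (hg1 _ _ (inv_mul_cancel σ))
      map_one' := by
        refine AlgEquiv.ext fun y => Subtype.ext ?_
        show s' 1 y = y
        rw [map_one]
        rfl
      map_mul' := fun σ σ' => by
        refine AlgEquiv.ext fun y => Subtype.ext ?_
        show s' (σ * σ') y = s' σ (s' σ' y)
        rw [map_mul]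
        rfl }
  have hs : ∀ σ (y : F), ((s σ y : F) : BK) = s' σ y := fun σ y => rfl
  refine ⟨E, inferInstance, E.algebra', inferInstance, inferInstance, F, inferInstance, inferInstance,
    inferInstance, inferInstance, iEF, b, s, fun t => ⟨ξ t, (hF _).2 ⟨fun a => ⟨u t a, huE t a⟩, hu t⟩⟩, hEt, ?_, ?_, ?_, ?_, ?_⟩
  · intro i
    exact Module.Basis.mk_apply hli hsp i
  · intro σ c
    exact Subtype.ext (hsc σ c)
  · intro t
    rfl
  · intro κ _ S
    exact lm_emb XK XQ j hj hU hh fun a => (S a : BQ)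
  · intro κ _ σ S
    exact lm_act XK s' hs' σ fun a => (S a : BK)

end Pool.Agent.Lib.MP_17a322_nt.FQ
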