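import Pool.Agent.Lib.MP_17a322_nt.JAC.B0

/-!
A sequence of points which violates the inequality for Jacobian minors.
-/

universe u

namespace Pool.Agent.Lib.MP_17a322_nt.FQ

open Height NumberField MvPolynomial
open Pool.Agent.Lib.MP_17a322_nt.JAC (mnr jet JacAff)

/-- A bound for the height of a vector of polynomials at points with a coordinate 1. -/
private theorem X13_height {K : Type u} [Field K] [NumberField K] {ι κ : Type} [Finite ι] [Finite κ] (i₀ : ι)
    (P : κ → MvPolynomial ι K) (E : ℕ) (hE : ∀ o, (P o).totalDegree ≤ E) :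
    ∃ C2 : ℝ, ∀ z : ι → K, z i₀ = 1 → logHeight (fun o => eval z (P o)) ≤ E * logHeight z + C2 := by
  let Q : κ → MvPolynomial ι K := fun o =>
    ∑ k ∈ Finset.range (E + 1), X i₀ ^ (E - k) * homogeneousComponent k (P o)
  have hQ : ∀ o, (Q o).IsHomogeneous E := by
    intro o
    refine IsHomogeneous.sum _ _ _ fun k hk => ?_
    have h1 : E - k + k = E := by
      have := Finset.mem_range.1 hk
      omega
    have h2 := (isHomogeneous_X_pow (R := K) i₀ (E - k)).mul
      (homogeneousComponent_isHomogeneous k (P o))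
    rwa [h1] at h2
  obtain ⟨C, hC⟩ := logHeight_eval_le' hQ
  refine ⟨C, fun z hz => ?_⟩
  have h1 : ∀ o, eval z (Q o) = eval z (P o) := by
    intro o
    have h2 : P o = ∑ k ∈ Finset.range (E + 1), homogeneousComponent k (P o) := by
      conv_lhs => rw [← sum_homogeneousComponent (P o)]
      refine Finset.sum_subset ?_ ?_
      · intro k hk
        rw [Finset.mem_range] at hk ⊢
        have := hE o
        omega
      · intro k _ hk
        rw [Finset.mem_range, not_lt] at hk
        exact homogeneousComponent_eq_zero _ _ (by omega)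
    conv_rhs => rw [h2]
    simp only [Q, map_sum, map_mul, map_pow, eval_X, hz, one_pow, one_mul]
  have h2 := hC z
  simp only [h1] at h2
  linarith

/-- Heights of values of polynomials. -/
theorem logHeight_poly_le {K : Type u} [Field K] [NumberField K] {τ ρ : Type} [Finite τ] [Finite ρ]
    (P : ρ → MvPolynomial τ K) :
    ∃ (D C : ℝ), 0 ≤ D ∧ ∀ w : τ → K, logHeight (fun a => eval w (P a)) ≤
      D * logHeight (fun o : Option τ => o.elim 1 w) + C := by
  classical
  cases nonempty_fintype ρ
  let E : ℕ := ∑ a : ρ, (rename (some : τ → Option τ) (P a)).totalDegree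
  obtain ⟨C, hC⟩ := X13_height (none : Option τ) (fun a => rename (some : τ → Option τ) (P a)) E
    fun a => Finset.single_le_sum (f := fun a => (rename (some : τ → Option τ) (P a)).totalDegree)
      (fun _ _ => Nat.zero_le _) (Finset.mem_univ a)
  refine ⟨E, C, Nat.cast_nonneg _, fun w => ?_⟩
  have h1 := hC (fun o : Option τ => o.elim 1 w) rfl
  have h2 : (fun a => eval (fun o : Option τ => o.elim 1 w) (rename (some : τ → Option τ) (P a))) =
      fun a => eval w (P a) := by
    funext a
    rw [eval_rename]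
    rfl
  rwa [h2] at h1

/-- The minors are values of polynomials. -/
theorem mnr_eval {K : Type u} [Field K] {τ κ : Type} [Fintype τ] [DecidableEq τ] (φ : κ → MvPolynomial τ K)
    {L : Type u} [CommRing L] [Algebra K L] (w : τ → L) (s : Option τ → κ) :
    mnr w φ s = aeval w (mnr (X : τ → MvPolynomial τ K) φ s) := by
  unfold mnr
  rw [AlgHom.map_det]
  congr 1
  ext i j
  rw [AlgHom.mapMatrix_apply, Matrix.map_apply, Matrix.of_apply, Matrix.of_apply]
  cases j with
  | none => simp only [jet, Option.elim_none, aeval_X_left_apply]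
  | some j => simp only [jet, Option.elim_some, aeval_X_left_apply]

/-- A number field is countable. -/
private theorem X13_count (K : Type u) [Field K] [NumberField K] : Countable K :=
   Finsupp.Countable.of_moduleFinite (R := ℚ)

/-- A sequence of points which violates the inequality. -/
theorem exists_seq {K : Type u} [Field K] [NumberField K] (h : ¬ JacAff K) :
    ∃ (τ κ : Type) (_ : Fintype τ) (_ : DecidableEq τ) (_ : Fintype κ) (φ : κ → MvPolynomial τ K) (ε : ℝ) (w : ℕ → τ → K),
      0 < ε ∧ (∀ G : MvPolynomial τ K, G ≠ 0 → ∀ᶠ i in Filter.atTop, eval (w i) G ≠ 0) ∧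
      ∀ i, (Fintype.card τ + 1) * logHeight (fun a => eval (w i) (φ a)) +
        ε * logHeight (fun o : Option τ => o.elim 1 (w i)) + i < logHeight (mnr (w i) φ) := by
  unfold JacAff at h
  push Not at h
  obtain ⟨τ, κ, i1, i2, i3, φ, ε, hε, H⟩ := h
  refine ⟨τ, κ, i1, i2, i3, φ, ε, ?_⟩
  have hK : Countable K := X13_count K
  have hM : Countable (MvPolynomial τ K) := by
    rw [← Cardinal.mk_le_aleph0_iff]
    refine MvPolynomial.cardinalMk_le_max_lift.trans (max_le (max_le ?_ ?_) le_rfl)
    · rw [Cardinal.lift_le_aleph0, Cardinal.mk_le_aleph0_iff]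
      exact hK
    · rw [Cardinal.lift_le_aleph0, Cardinal.mk_le_aleph0_iff]
      exact inferInstance
  have hne : Nonempty {G : MvPolynomial τ K // G ≠ 0} := ⟨⟨1, one_ne_zero⟩⟩
  obtain ⟨P, hP⟩ := exists_surjective_nat {G : MvPolynomial τ K // G ≠ 0}
  have hG : ∀ i : ℕ, (∏ l ∈ Finset.range (i + 1), (P l : MvPolynomial τ K)) ≠ 0 := fun i =>
    Finset.prod_ne_zero_iff.2 fun l _ => (P l).2
  choose w hw1 hw2 using fun i : ℕ => H (∏ l ∈ Finset.range (i + 1), (P l : MvPolynomial τ K)) i (hG i)
  refine ⟨w, hε, fun G hG0 => ?_, hw2⟩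
  obtain ⟨l, hl⟩ := hP ⟨G, hG0⟩
  refine Filter.eventually_atTop.2 ⟨l, fun i hi h0 => hw1 i ?_⟩
  rw [map_prod]
  refine Finset.prod_eq_zero (Finset.mem_range.2 (by omega : l < i + 1)) ?_
  rw [hl]
  exact h0

/-- The heights of the points of a sequence which violates the inequality tend to infinity. -/
theorem seq_top {K : Type u} [Field K] [NumberField K] {τ κ : Type} [Fintype τ] [DecidableEq τ] [Fintype κ]
    (φ : κ → MvPolynomial τ K) {ε : ℝ} (hε : 0 < ε) (w : ℕ → τ → K)
    (h : ∀ i, (Fintype.card τ + 1) * logHeight (fun a => eval (w i) (φ a)) +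
        ε * logHeight (fun o : Option τ => o.elim 1 (w i)) + i < logHeight (mnr (w i) φ)) :
    Filter.Tendsto (fun i => logHeight (fun o : Option τ => o.elim 1 (w i))) Filter.atTop Filter.atTop := by
  obtain ⟨D, C, hD, hDC⟩ := logHeight_poly_le (fun s : Option τ → κ => mnr (X : τ → MvPolynomial τ K) φ s)
  have h1 : ∀ i : ℕ, (i : ℝ) ≤ D * logHeight (fun o : Option τ => o.elim 1 (w i)) + C := by
    intro i
    have h2 := hDC (w i)
    have h3 : (fun s : Option τ → κ => eval (w i) (mnr (X : τ → MvPolynomial τ K) φ s)) = mnr (w i) φ := by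
      funext s
      rw [mnr_eval φ (w i) s]
      rfl
    rw [h3] at h2
    have h4 := h i
    have h5 : 0 ≤ ((Fintype.card τ : ℝ) + 1) * logHeight (fun a => eval (w i) (φ a)) :=
      mul_nonneg (by positivity) (logHeight_nonneg _)
    have h6 : 0 ≤ ε * logHeight (fun o : Option τ => o.elim 1 (w i)) :=
      mul_nonneg hε.le (logHeight_nonneg _)
    linarith
  have hD1 : 0 < D + 1 := by linarith
  have h7 : ∀ i : ℕ, ((i : ℝ) - C) / (D + 1) ≤ logHeight (fun o : Option τ => o.elim 1 (w i)) := by
    intro i
    rw [div_le_iff₀ hD1]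
    have h8 := h1 i
    have h9 : 0 ≤ logHeight (fun o : Option τ => o.elim 1 (w i)) := logHeight_nonneg _
    linarith
  refine Filter.tendsto_atTop_mono h7 ?_
  refine Filter.Tendsto.atTop_div_const hD1 ?_
  exact Filter.tendsto_atTop_add_const_right _ _ tendsto_natCast_atTop_atTop

end Pool.Agent.Lib.MP_17a322_nt.FQ
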