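import Pool.Agent.Lib.MP_17a322_nt.FQ.X8
import Pool.Agent.Lib.MP_17a322_nt.FQ.X12
import Pool.Agent.Lib.MP_17a322_nt.FQ.X13
import Pool.Agent.Lib.MP_17a322_nt.FQ.V2
import Pool.Agent.Lib.MP_17a322_nt.FQ.T5
import Pool.Agent.Lib.MP_17a322_nt.FQ.A5

/-!
The inequality for Jacobian minors over a Galois number field.
-/

universe u

namespace Pool.Agent.Lib.MP_17a322_nt.FQ

open Height NumberField MvPolynomial
open Pool.Agent.Lib.MP_17a322_nt.JAC (mnr jet JacAff)

/-- The statement on the slopes for all finitely generated subfields of all big fields over `ℚ`. -/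
def SemiQ : Prop :=
  ∀ (B : Type) [Field B] [Algebra ℚ B] (X : Evl ℚ B ℕ) (E : Type) [Field E] [Algebra ℚ E] [Algebra E B]
    [IsScalarTower ℚ E B] [FiniteDimensional E (Derivation ℚ E E)],
    (⊤ : IntermediateField ℚ E).FG → Semi (X.ht E)

/-- The values of polynomials at the point with the coordinates `w i`. -/
theorem X14_ev {K B : Type u} [Field K] [NumberField K] [Field B] [Algebra K B] (X : Evl K B ℕ)
    {τ : Type} [Finite τ] (w : ℕ → τ → K) (ξ : τ → B)
    (hξ : ∀ t, ∀ᶠ i in (X.U : Filter ℕ), X.ev (ξ t) i = w i t) (p : MvPolynomial τ K) :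
    ∀ᶠ i in (X.U : Filter ℕ), X.ev (aeval ξ p) i = eval (w i) p := by
  filter_upwards [ev_aeval X ξ p, Filter.eventually_all.2 hξ] with i h1 h2
  rw [h1]
  congr 2
  exact funext h2

/-- The limit of the heights of the values of a family of polynomials. -/
theorem X14_lim {K B : Type u} [Field K] [NumberField K] [Field B] [Algebra K B] (X : Evl K B ℕ)
    {τ ρ : Type} [Finite τ] [Finite ρ] (w : ℕ → τ → K) (ξ : τ → B)
    (hξ : ∀ t, ∀ᶠ i in (X.U : Filter ℕ), X.ev (ξ t) i = w i t) (P : ρ → MvPolynomial τ K) :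
    Filter.Tendsto (fun i => logHeight (fun a => eval (w i) (P a)) / X.h i) (X.U : Filter ℕ)
      (nhds (X.lm fun a => aeval ξ (P a))) := by
  refine (lm_tendsto X fun a => aeval ξ (P a)).congr' ?_
  filter_upwards [Filter.eventually_all.2 fun a => X14_ev X w ξ hξ (P a)] with i h
  congr 2
  exact funext h

/-- The inequality for Jacobian minors over a Galois number field. -/
theorem jac_galois (hQ : SemiQ) (K : Type u) [Field K] [NumberField K] [IsGalois ℚ K] : JacAff K := by
  by_contra hJ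
  obtain ⟨τ, κ, _, _, _, φ, ε, w, hε, hG, hw⟩ := exists_seq hJ
  have htop := seq_top φ hε w hw
  obtain ⟨h, hh⟩ : ∃ h : ℕ → ℝ, h = fun i => logHeight (fun o : Option τ => o.elim 1 (w i)) :=
    ⟨_, rfl⟩
  rw [← hh] at htop
  obtain ⟨U, hU⟩ : ∃ U : Ultrafilter ℕ, U = Filter.hyperfilter ℕ := ⟨_, rfl⟩
  have hUle : (U : Filter ℕ) ≤ Filter.atTop := by
    rw [hU]
    exact Nat.hyperfilter_le_atTop
  have htU : Filter.Tendsto h (U : Filter ℕ) Filter.atTop := htop.mono_left hUle
  obtain ⟨BK, _, _, XK, hKU, hKh⟩ := exists_evl K ℕ U h htU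
  obtain ⟨BQ, _, _, XQ, hQU, hQh⟩ := exists_evl ℚ ℕ U h htU
  have hξ0 : ∀ t, ∃ x : BK, ∀ᶠ i in (XK.U : Filter ℕ), XK.ev x i = w i t := by
    intro t
    refine XK.surj _ ⟨1, Filter.Eventually.of_forall fun i => ?_⟩
    rw [one_mul, hKh, hh]
    change logHeight₁ (w i t) ≤ logHeight fun o : Option τ => o.elim 1 (w i)
    rw [logHeight₁_eq_logHeight]
    have e : (![w i t, 1] : Fin 2 → K) =
        (fun o : Option τ => o.elim 1 (w i)) ∘ ![some t, none] := by
      funext j
      fin_cases j <;> rfl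
    rw [e]
    exact logHeight_comp_le _ _
  choose ξ hξ using hξ0
  obtain ⟨ω, -⟩ : ∃ ω : Module.Basis (Fin (Module.finrank ℚ K)) ℚ K, ω = Module.finBasis ℚ K :=
    ⟨_, rfl⟩
  obtain ⟨E, _, _, _, _, F, _, _, _, _, _, b, s, x, hFG, hb, hs, hx, hlm, hla⟩ :=
    exists_tower XK XQ (by rw [hKU, hQU]) (by rw [hKh, hQh]) ω ξ
  obtain ⟨n, m₁, h1, hm₁⟩ := exists_gen hFG
  have hfd : FiniteDimensional E (Derivation ℚ E E) := gen_findim m₁ hm₁
  have hmd : IsMd ℚ m₁ := gen_IsMd m₁ h1 hm₁
  have hst : Semi (XQ.ht E) := hQ BQ XQ E hFG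
  -- values
  have hval : ∀ p : MvPolynomial τ K, algebraMap F BK (aeval x p) = aeval ξ p := by
    intro p
    have hxe : ξ = fun t => algebraMap F BK (x t) := funext fun t => (hx t).symm
    rw [hxe]
    have h3 : (aeval (fun t => algebraMap F BK (x t)) : MvPolynomial τ K →ₐ[K] BK) =
        (IsScalarTower.toAlgHom K F BK).comp (aeval x) := by
      refine MvPolynomial.algHom_ext fun t => ?_
      rw [AlgHom.comp_apply, aeval_X, aeval_X]
      rfl
    rw [h3]
    rfl
  have hlim : ∀ {ρ : Type} [Fintype ρ] (P : ρ → MvPolynomial τ K),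
      Filter.Tendsto (fun i => logHeight (fun a => eval (w i) (P a)) / h i) (XK.U : Filter ℕ)
        (nhds ((XK.ht F).lam fun a => aeval x (P a))) := by
    intro ρ _ P
    have h3 := X14_lim XK w ξ hξ P
    rw [hKh] at h3
    have e : ((XK.ht F).lam fun a => aeval x (P a)) = XK.lm fun a => aeval ξ (P a) := by
      change XK.lm (fun a => algebraMap F BK (aeval x (P a))) = _
      congr 1
      exact funext fun a => hval (P a)
    rw [e]
    exact h3
  have hUK : ∀ {p : ℕ → Prop}, (∀ᶠ i in Filter.atTop, p i) → ∀ᶠ i in (XK.U : Filter ℕ), p i :=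
    fun hp => by
      rw [hKU]
      exact hUle hp
  have hind : AlgebraicIndependent K x := by
    rw [algebraicIndependent_iff]
    intro G hG0
    by_contra hne
    have h3 := hUK (hG G hne)
    have h4 := X14_ev XK w ξ hξ G
    rw [← hval, hG0, map_zero] at h4
    obtain ⟨i, h5, h6, h7⟩ := (h3.and (h4.and (ev_zero XK))).exists
    exact h5 (by rw [← h6, h7])
  have hmw : ∀ i s, mnr (w i) φ s = eval (w i) (mnr (X : τ → MvPolynomial τ K) φ s) := fun i s => by
    rw [mnr_eval φ (w i) s]
    exact congrArg (fun f : MvPolynomial τ K →+* K => f (mnr (X : τ → MvPolynomial τ K) φ s))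
      (coe_aeval_eq_eval (w i))
  have hmx : ∀ s, mnr x φ s = aeval x (mnr (X : τ → MvPolynomial τ K) φ s) := fun s =>
    mnr_eval φ x s
  have hnn : ∀ i, 0 ≤ (Fintype.card τ + 1) * logHeight (fun a => eval (w i) (φ a)) +
        ε * logHeight (fun o : Option τ => o.elim 1 (w i)) + i := fun i => by
    have h3 := logHeight_nonneg fun a => eval (w i) (φ a)
    have h4 := logHeight_nonneg fun o : Option τ => o.elim 1 (w i)
    positivity
  have hne : mnr x φ ≠ 0 := by
    intro h0
    have h3 : ∀ s, mnr (X : τ → MvPolynomial τ K) φ s = 0 := fun s => by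
      refine (algebraicIndependent_iff.1 hind) _ ?_
      rw [← hmx, h0]
      rfl
    have h4 : mnr (w 0) φ = 0 := funext fun s => by rw [hmw, h3, map_zero]; rfl
    have h5 := (hnn 0).trans_lt (hw 0)
    rw [h4, logHeight_zero] at h5
    exact lt_irrefl _ h5
  have hfr : 0 < (Module.finrank ℚ K : ℝ) := by
    exact_mod_cast Module.finrank_pos
  have hmain := descent_main ω b hb s hs (XQ.ht E) (XK.ht F) (Module.finrank ℚ K) hfr
    (fun S _ => hlm S) (fun σ S _ => hla σ S) m₁ hmd hst x hind φ hne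
  -- the limit of the inequalities
  have hl1 := hlim φ
  have hl2 := hlim (fun s : Option τ → κ => mnr (X : τ → MvPolynomial τ K) φ s)
  have e2 : (fun s : Option τ → κ => aeval x (mnr (X : τ → MvPolynomial τ K) φ s)) = mnr x φ :=
    funext fun s => (hmx s).symm
  rw [e2] at hl2
  have hpos : ∀ᶠ i in (XK.U : Filter ℕ), 0 < h i := by
    have h3 := ev_pos XK
    rwa [hKh] at h3
  have hle : (Fintype.card τ + 1) * (XK.ht F).lam (fun a => aeval x (φ a)) + ε ≤
      (XK.ht F).lam (mnr x φ) := by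
    refine le_of_tendsto_of_tendsto ((hl1.const_mul ((Fintype.card τ : ℝ) + 1)).add_const ε) hl2 ?_
    filter_upwards [hpos] with i hi
    have h3 := hw i
    have h4 : logHeight (mnr (w i) φ) = logHeight fun s : Option τ → κ =>
        eval (w i) (mnr (X : τ → MvPolynomial τ K) φ s) := congrArg _ (funext (hmw i))
    rw [h4] at h3
    have h5 : logHeight (fun o : Option τ => o.elim 1 (w i)) = h i := by rw [hh]
    rw [h5] at h3
    rw [le_div_iff₀ hi]
    have h6 : ((Fintype.card τ : ℝ) + 1) * (logHeight (fun a => eval (w i) (φ a)) / h i) * h i =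
        ((Fintype.card τ : ℝ) + 1) * logHeight (fun a => eval (w i) (φ a)) := by
      field_simp
    have h7 : (0 : ℝ) ≤ i := Nat.cast_nonneg i
    calc ((Fintype.card τ + 1) * (logHeight (fun a => eval (w i) (φ a)) / h i) + ε) * h i
        = (Fintype.card τ + 1) * logHeight (fun a => eval (w i) (φ a)) + ε * h i := by
          rw [add_mul, h6]
      _ ≤ _ := by linarith
  linarith

end Pool.Agent.Lib.MP_17a322_nt.FQ
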