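import Pool.Agent.Lib.MP_17a322_nt.FQ.X9
import Pool.Agent.Lib.MP_17a322_nt.JAC.B0

/-!
The inequality for Jacobian minors over subfields.
-/

universe u

namespace Pool.Agent.Lib.MP_17a322_nt.FQ

open Height NumberField MvPolynomial
open Pool.Agent.Lib.MP_17a322_nt.JAC (mnr jet JacAff)

/-- The inequality for Jacobian minors over `L` implies the one over a subfield `K`. -/
theorem jacAff_sub {K L : Type u} [Field K] [NumberField K] [Field L] [NumberField L] [Algebra K L]
    (h : JacAff L) : JacAff K := by
  classical
  intro τ κ _ _ _ φ ε hε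
  obtain ⟨N, hN⟩ : ∃ N : ℝ, N = (Module.finrank K L : ℝ) := ⟨_, rfl⟩
  have hfin : Module.Finite K L := Module.Finite.of_restrictScalars_finite ℚ K L
  have hN0 : 0 < N := by
    rw [hN]
    exact_mod_cast Module.finrank_pos
  obtain ⟨G, C, hG, hw⟩ := h τ κ (fun a => map (algebraMap K L) (φ a)) ε hε
  obtain ⟨m0, hm0⟩ := MvPolynomial.ne_zero_iff.1 hG
  obtain ⟨l, hl⟩ : ∃ l : Module.Dual K L, l (coeff m0 G) ≠ 0 := by
    by_contra hcon
    push Not at hcon
    exact hm0 ((Module.forall_dual_apply_eq_zero_iff K (coeff m0 G)).1 hcon)
  obtain ⟨G', hG'⟩ : ∃ G' : MvPolynomial τ K, G' = ∑ m ∈ G.support, monomial m (l (coeff m G)) :=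
    ⟨_, rfl⟩
  have hc : coeff m0 G' = l (coeff m0 G) := by
    rw [hG', coeff_sum]
    simp only [coeff_monomial]
    rw [Finset.sum_ite_eq' G.support m0]
    split_ifs with h1
    · rfl
    · rw [notMem_support_iff.1 h1, map_zero]
  have hev : ∀ w : τ → K, l (eval (fun j => algebraMap K L (w j)) G) = eval w G' := by
    intro w
    rw [eval_eq', map_sum, hG', map_sum]
    refine Finset.sum_congr rfl fun m _ => ?_
    rw [eval_monomial, Finsupp.prod_fintype _ _ fun i => pow_zero _]
    have e : ∏ i, algebraMap K L (w i) ^ m i = algebraMap K L (∏ i, w i ^ m i) := by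
      rw [map_prod]
      exact Finset.prod_congr rfl fun i _ => (map_pow _ _ _).symm
    rw [e, mul_comm, ← Algebra.smul_def, map_smul, smul_eq_mul, mul_comm]
  have hmap : ∀ (w : τ → K) (P : MvPolynomial τ K),
      eval (fun j => algebraMap K L (w j)) (map (algebraMap K L) P) =
        algebraMap K L (eval w P) := by
    intro w P
    rw [eval_map, eval₂_eq', eval_eq', map_sum]
    refine Finset.sum_congr rfl fun m _ => ?_
    rw [map_mul, map_prod]
    congr 1
    exact Finset.prod_congr rfl fun i _ => (map_pow _ _ _).symm
  refine ⟨G', C / N, ?_, fun w hne => ?_⟩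
  · intro h0
    apply hl
    rw [← hc, h0, coeff_zero]
  · have h1 : eval (fun j => algebraMap K L (w j)) G ≠ 0 := by
      intro h0
      apply hne
      rw [← hev w, h0, map_zero]
    have h2 := hw _ h1
    have e1 : mnr (fun j => algebraMap K L (w j)) (fun a => map (algebraMap K L) (φ a)) =
        fun s : Option τ → κ => algebraMap K L (mnr w φ s) := by
      funext s
      unfold mnr
      rw [RingHom.map_det]
      congr 1
      ext i j
      show jet (fun j => algebraMap K L (w j)) (map (algebraMap K L) (φ (s i))) j =
        algebraMap K L (jet w (φ (s i)) j)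
      rcases j with - | j
      · show aeval (fun j => algebraMap K L (w j)) (map (algebraMap K L) (φ (s i))) =
          algebraMap K L (aeval w (φ (s i)))
        exact hmap w _
      · show aeval (fun j => algebraMap K L (w j)) (pderiv j (map (algebraMap K L) (φ (s i)))) =
          algebraMap K L (aeval w (pderiv j (φ (s i))))
        rw [pderiv_map]
        exact hmap w _
    have e2 : (fun a => eval (fun j => algebraMap K L (w j)) (map (algebraMap K L) (φ a))) =
        fun a => algebraMap K L (eval w (φ a)) := funext fun a => hmap w (φ a)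
    have e3 : (fun o : Option τ => o.elim 1 fun j => algebraMap K L (w j)) =
        fun o : Option τ => algebraMap K L (o.elim 1 w) := by
      funext o
      rcases o with - | j
      · exact (map_one _).symm
      · rfl
    rw [e1, e2, e3, logHeight_ext, logHeight_ext, logHeight_ext, ← hN] at h2
    have h3 : N * logHeight (fun s : Option τ → κ => mnr w φ s) ≤
        N * ((Fintype.card τ + 1) * logHeight (fun a => eval w (φ a)) +
          ε * logHeight (fun o : Option τ => o.elim 1 w) + C / N) := by
      refine h2.trans (le_of_eq ?_)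
      field_simp
    exact le_of_mul_le_mul_left h3 hN0

/-- The inequality for all Galois extensions of `ℚ` implies the inequality for all number fields. -/
theorem jacAff_of_galois (h : ∀ (L : Type u) [Field L] [NumberField L] [IsGalois ℚ L], JacAff L) (K : Type u)
    [Field K] [NumberField K] : JacAff K := by
  have h5 : Algebra.IsAlgebraic ℚ (AlgebraicClosure K) := Algebra.IsAlgebraic.trans ℚ K _
  have h6 : IsAlgClosure ℚ (AlgebraicClosure K) := ⟨AlgebraicClosure.isAlgClosed K, h5⟩
  have h7 : Normal ℚ (AlgebraicClosure K) := IsAlgClosure.normal ℚ (AlgebraicClosure K)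
  have h1 : FiniteDimensional ℚ (IntermediateField.normalClosure ℚ K (AlgebraicClosure K)) :=
    normalClosure.is_finiteDimensional ℚ K (AlgebraicClosure K)
  have h2 : NumberField (IntermediateField.normalClosure ℚ K (AlgebraicClosure K)) := ⟨⟩
  have h3 : Normal ℚ (IntermediateField.normalClosure ℚ K (AlgebraicClosure K)) :=
    normalClosure.normal ℚ K (AlgebraicClosure K)
  have h4 : IsGalois ℚ (IntermediateField.normalClosure ℚ K (AlgebraicClosure K)) := ⟨⟩
  exact jacAff_sub (h (IntermediateField.normalClosure ℚ K (AlgebraicClosure K)))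

end Pool.Agent.Lib.MP_17a322_nt.FQ
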