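import Pool.Agent.Lib.MP_17a322_nt.JAC.B0

universe u

namespace Pool.Agent.Lib.MP_17a322_nt.FQ

open MvPolynomial Height NumberField
open Pool.Agent.Lib.MP_17a322_nt.JAC

private theorem Y1_prim {ι : Type*} [Fintype ι] {x : ι → ℚ} (hx : x ≠ 0) :
    ∃ (c : ℚ) (z : ι → ℤ), c ≠ 0 ∧ Finset.univ.gcd z = 1 ∧ ∀ a, x a = c * z a := by
  obtain ⟨b, hb⟩ := IsLocalization.exist_integer_multiples_of_finite (nonZeroDivisors ℤ) x
  have hb0 : ((b : ℤ) : ℚ) ≠ 0 := by
    exact_mod_cast nonZeroDivisors.ne_zero b.2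
  choose y hy using hb
  have hy' : ∀ a, (y a : ℚ) = ((b : ℤ) : ℚ) * x a := by
    intro a
    have h := hy a
    rw [zsmul_eq_mul] at h
    exact h
  obtain ⟨a0, ha0⟩ : ∃ a, x a ≠ 0 := by
    by_contra h
    push Not at h
    exact hx (funext h)
  have hne : (Finset.univ : Finset ι).Nonempty := ⟨a0, Finset.mem_univ _⟩
  obtain ⟨z, hz, hz1⟩ := Finset.extract_gcd y hne
  obtain ⟨g, hg⟩ : ∃ g : ℤ, g = Finset.univ.gcd y := ⟨_, rfl⟩
  rw [← hg] at hz
  have hg0 : (g : ℚ) ≠ 0 := by
    intro h0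
    have h1 : g = 0 := by exact_mod_cast h0
    have h2 := hy' a0
    rw [hz a0 (Finset.mem_univ _), h1, zero_mul, Int.cast_zero] at h2
    exact mul_ne_zero hb0 ha0 h2.symm
  refine ⟨g / (b : ℤ), z, div_ne_zero hg0 hb0, hz1, fun a => ?_⟩
  have h2 := hy' a
  rw [hz a (Finset.mem_univ _)] at h2
  push_cast at h2
  field_simp
  linarith

private theorem Y1_fin {K : Type u} [Field K] [NumberField K] {ι : Type*} [Fintype ι] [Nonempty ι]
    {z : ι → ℤ} (v : FinitePlace K) (hz : Finset.univ.gcd z = 1) :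
    ⨆ i, v ((z i : ℤ) : K) = 1 := by
  have hv : IsNonarchimedean (v ·) := FinitePlace.add_le v
  have H (n : ℤ) : v (n : K) ≤ 1 := IsNonarchimedean.apply_intCast_le_one hv
  obtain ⟨f, hf⟩ := Finset.gcd_eq_sum_mul .univ z
  have hf' := congrArg (fun n : ℤ => v (n : K)) hf
  simp only [hz, Int.cast_one, map_one, Int.cast_sum, Int.cast_mul] at hf'
  have hf2 := hf'.trans_le hv.apply_sum_univ_le
  obtain ⟨i, hi⟩ := exists_eq_ciSup_of_finite (f := fun i ↦ v ((z i : K) * (f i : K)))
  rw [← hi, map_mul] at hf2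
  have hf3 : 1 ≤ v (z i : K) := hf2.trans <| mul_le_of_le_one_right (apply_nonneg v _) (H _)
  exact le_antisymm (ciSup_le fun i => H (z i)) <| Finite.le_ciSup_of_le i hf3

private theorem Y1_inf {K : Type u} [Field K] [NumberField K] (v : InfinitePlace K) (n : ℤ) :
    v (n : K) = |(n : ℝ)| := by
  rw [← InfinitePlace.norm_embedding_eq v, map_intCast, Complex.norm_intCast]

/-- The height over `K` of a rational vector. -/
theorem height_bc {K : Type u} [Field K] [NumberField K] {ι : Type*} [Finite ι] (x : ι → ℚ) :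
    logHeight (fun a => algebraMap ℚ K (x a)) = Module.finrank ℚ K * logHeight x := by
  have : Fintype ι := Fintype.ofFinite ι
  by_cases hx : x = 0
  · subst hx
    have h0 : (fun a : ι => algebraMap ℚ K ((0 : ι → ℚ) a)) = 0 := by
      funext a
      exact map_zero _
    rw [h0, logHeight_zero, logHeight_zero, mul_zero]
  obtain ⟨c, z, hc, hz, hxz⟩ := Y1_prim hx
  have : Nonempty ι := by
    by_contra h
    rw [not_nonempty_iff] at h
    exact hx (funext fun a => (h.false a).elim)
  have e1 : x = c • (((↑) : ℤ → ℚ) ∘ z) := by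
    funext a
    rw [hxz a]
    rfl
  have e2 : (fun a => algebraMap ℚ K (x a)) = algebraMap ℚ K c • fun a => ((z a : ℤ) : K) := by
    funext a
    rw [hxz a, map_mul, map_intCast]
    rfl
  have hc' : algebraMap ℚ K c ≠ 0 := (map_ne_zero _).2 hc
  rw [e2, logHeight_smul_eq_logHeight _ hc', e1, logHeight_smul_eq_logHeight _ hc,
    Rat.logHeight_eq_max_abs_of_gcd_eq_one hz, logHeight_eq_log_mulHeight]
  have hz0 : (fun a => ((z a : ℤ) : K)) ≠ 0 := by
    intro h
    apply hx
    rw [e1]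
    funext a
    have h1 : ((z a : ℤ) : K) = 0 := congrFun h a
    have h2 : z a = 0 := by exact_mod_cast h1
    show c * ((z a : ℤ) : ℚ) = 0
    rw [h2, Int.cast_zero, mul_zero]
  rw [NumberField.mulHeight_eq hz0, finprod_eq_one_of_forall_eq_one fun v => Y1_fin v hz, mul_one]
  have h3 : ∀ v : InfinitePlace K, (⨆ i, v ((z i : ℤ) : K)) = ((⨆ i, |z i| : ℤ) : ℝ) := by
    intro v
    rw [Finite.map_iSup_of_monotone _ Int.cast_mono]
    refine iSup_congr fun i => ?_
    rw [Y1_inf, Int.cast_abs]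
  have h4 : ∏ v : InfinitePlace K, (⨆ i, v ((z i : ℤ) : K)) ^ v.mult =
      ((⨆ i, |z i| : ℤ) : ℝ) ^ Module.finrank ℚ K := by
    rw [← InfinitePlace.sum_mult_eq (K := K), ← Finset.prod_pow_eq_pow_sum]
    exact Finset.prod_congr rfl fun v _ => by rw [h3 v]
  rw [h4, Real.log_pow]

/-- The inequality for Jacobian minors over a number field implies the one over `ℚ`. -/
theorem jac_down {K : Type u} [Field K] [NumberField K] (h : JacIneq K) : JacIneq ℚ := by
  classical
  intro τ κ _ _ _ Φ d hΦ ε hε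
  obtain ⟨N, hN⟩ : ∃ N : ℝ, N = (Module.finrank ℚ K : ℝ) := ⟨_, rfl⟩
  have hN0 : 0 < N := by
    rw [hN]
    exact_mod_cast Module.finrank_pos
  obtain ⟨G, C, hG, ⟨d', hd'⟩, hw⟩ := h τ κ (fun a => map (algebraMap ℚ K) (Φ a)) d
    (fun a => (hΦ a).map _) ε hε
  obtain ⟨m0, hm0⟩ := MvPolynomial.ne_zero_iff.1 hG
  obtain ⟨l, hl⟩ : ∃ l : Module.Dual ℚ K, l (coeff m0 G) ≠ 0 := by
    by_contra hcon
    push Not at hcon
    exact hm0 ((Module.forall_dual_apply_eq_zero_iff ℚ (coeff m0 G)).1 hcon)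
  obtain ⟨G', hG'⟩ : ∃ G' : MvPolynomial τ ℚ, G' = ∑ m ∈ G.support, monomial m (l (coeff m G)) :=
    ⟨_, rfl⟩
  have hc : ∀ m, coeff m G' = l (coeff m G) := by
    intro m
    rw [hG', coeff_sum]
    simp only [coeff_monomial]
    rw [Finset.sum_ite_eq' G.support m]
    split_ifs with h1
    · rfl
    · rw [notMem_support_iff.1 h1, map_zero]
  have hev : ∀ w : τ → ℚ, l (eval (fun j => algebraMap ℚ K (w j)) G) = eval w G' := by
    intro w
    rw [eval_eq', map_sum, hG', map_sum]
    refine Finset.sum_congr rfl fun m _ => ?_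
    rw [eval_monomial, Finsupp.prod_fintype _ _ fun i => pow_zero _]
    have e : ∏ i, algebraMap ℚ K (w i) ^ m i = algebraMap ℚ K (∏ i, w i ^ m i) := by
      rw [map_prod]
      exact Finset.prod_congr rfl fun i _ => (map_pow _ _ _).symm
    rw [e, mul_comm, ← Algebra.smul_def, map_smul, smul_eq_mul, mul_comm]
  have hmap : ∀ (w : τ → ℚ) (P : MvPolynomial τ ℚ),
      eval (fun j => algebraMap ℚ K (w j)) (map (algebraMap ℚ K) P) =
        algebraMap ℚ K (eval w P) := by
    intro w P
    rw [eval_map, eval₂_eq', eval_eq', map_sum]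
    refine Finset.sum_congr rfl fun m _ => ?_
    rw [map_mul, map_prod]
    congr 1
    exact Finset.prod_congr rfl fun i _ => (map_pow _ _ _).symm
  refine ⟨G', C / N, ?_, ⟨d', ?_⟩, fun w hne => ?_⟩
  · intro h0
    apply hl
    rw [← hc m0, h0, coeff_zero]
  · intro m hm
    rw [hc m] at hm
    exact hd' fun h0 => hm (by rw [h0, map_zero])
  · have h1 : eval (fun j => algebraMap ℚ K (w j)) G ≠ 0 := by
      intro h0
      apply hne
      rw [← hev w, h0, map_zero]
    have h2 := hw _ h1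
    have e1 : (fun s : τ → κ => (Matrix.of fun i j => eval (fun j => algebraMap ℚ K (w j))
        (pderiv j (map (algebraMap ℚ K) (Φ (s i))))).det) =
        fun s : τ → κ => algebraMap ℚ K ((Matrix.of fun i j => eval w (pderiv j (Φ (s i)))).det) := by
      funext s
      rw [RingHom.map_det]
      congr 1
      ext i j
      show eval (fun j => algebraMap ℚ K (w j)) (pderiv j (map (algebraMap ℚ K) (Φ (s i)))) =
        algebraMap ℚ K (eval w (pderiv j (Φ (s i))))
      rw [pderiv_map, hmap]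
    have e2 : (fun a => eval (fun j => algebraMap ℚ K (w j)) (map (algebraMap ℚ K) (Φ a))) =
        fun a => algebraMap ℚ K (eval w (Φ a)) := funext fun a => hmap w (Φ a)
    rw [e1, e2, height_bc, height_bc, height_bc, ← hN] at h2
    have h3 : N * logHeight (fun s : τ → κ =>
        (Matrix.of fun i j => eval w (pderiv j (Φ (s i)))).det) ≤
        N * (Fintype.card τ * logHeight (fun a => eval w (Φ a)) + ε * logHeight w + C / N) := by
      refine h2.trans (le_of_eq ?_)
      field_simp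
    exact le_of_mul_le_mul_left h3 hN0

end Pool.Agent.Lib.MP_17a322_nt.FQ
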