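import Pool.Agent.Lib.MP_17a322_nt.FQ.A1

universe u

namespace Pool.Agent.Lib.MP_17a322_nt.FQ

open Height NumberField

section

variable {k B : Type u} [Field k] [NumberField k] [Field B] [Algebra k B] {I : Type} (X : Evl k B I)

theorem A2_height {ι : Type*} [Fintype ι] (x : ι → k) :
    logHeight x ≤ ∑ a, logHeight₁ (x a) := by
  classical
  have hne : ∀ a, (![x a, 1] : Fin 2 → k) ≠ 0 := fun a h => by
    have := congrFun h 1
    simp at this
  have h1 := logHeight_fun_prod_eq (K := k) (x := fun a : ι => (![x a, 1] : Fin 2 → k)) hne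
  have h2 : x = (fun J : ι → Fin 2 => ∏ a, (![x a, 1] : Fin 2 → k) (J a)) ∘
      (fun b : ι => fun a : ι => if a = b then (0 : Fin 2) else 1) := by
    funext b
    simp only [Function.comp]
    rw [Finset.prod_eq_single b]
    · simp
    · intro c _ hc
      simp [hc]
    · intro h
      exact absurd (Finset.mem_univ b) h
  have h3 := logHeight_comp_le (K := k) (fun b : ι => fun a : ι => if a = b then (0 : Fin 2) else 1)
    (fun J : ι → Fin 2 => ∏ a, (![x a, 1] : Fin 2 → k) (J a))
  rw [← h2, h1] at h3
  refine h3.trans (le_of_eq ?_)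
  refine Finset.sum_congr rfl fun a _ => ?_
  rw [logHeight₁_eq_logHeight]

/-- The heights of the values of a finite family are bounded by a multiple of `h`. -/
theorem lm_bdd {ι : Type*} [Finite ι] (S : ι → B) :
    ∃ C : ℝ, ∀ᶠ i in (X.U : Filter I), logHeight (fun a => X.ev (S a) i) ≤ C * X.h i := by
  have := Fintype.ofFinite ι
  choose C hC using fun a => X.bdd (S a)
  refine ⟨∑ a, C a, ?_⟩
  filter_upwards [Filter.eventually_all.2 hC] with i hi
  refine (A2_height (fun a => X.ev (S a) i)).trans ?_
  rw [Finset.sum_mul]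
  exact Finset.sum_le_sum fun a _ => hi a

/-- The quotients of the heights by `h` converge along the ultrafilter. -/
theorem lm_tendsto {ι : Type*} [Finite ι] (S : ι → B) :
    Filter.Tendsto (fun i => logHeight (fun a => X.ev (S a) i) / X.h i) (X.U : Filter I) (nhds (X.lm S)) := by
  obtain ⟨C, hC⟩ := lm_bdd X S
  refine tendsto_nhds_limUnder ?_
  have hmem : ∀ᶠ i in (X.U : Filter I),
      logHeight (fun a => X.ev (S a) i) / X.h i ∈ Set.Icc (0 : ℝ) C := by
    filter_upwards [hC, ev_pos X] with i h1 h2
    exact ⟨div_nonneg (logHeight_nonneg _) h2.le, (div_le_iff₀ h2).2 h1⟩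
  obtain ⟨a, -, ha⟩ := (isCompact_Icc (a := (0 : ℝ)) (b := C)).ultrafilter_le_nhds
    (X.U.map fun i => logHeight (fun a => X.ev (S a) i) / X.h i)
    (by
      rw [Filter.le_principal_iff]
      exact hmem)
  exact ⟨a, ha⟩

/-- The limit is not negative. -/
theorem lm_nonneg {ι : Type*} [Finite ι] (S : ι → B) : 0 ≤ X.lm S := by
  refine ge_of_tendsto (lm_tendsto X S) ?_
  filter_upwards [ev_pos X] with i hi
  exact div_nonneg (logHeight_nonneg _) hi.le

/-- An inequality of the heights up to a constant gives an inequality of the limits. -/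
theorem lm_le_of {ι κ : Type*} [Finite ι] [Finite κ] (S : ι → B) (T : κ → B) (C : ℝ)
    (h : ∀ᶠ i in (X.U : Filter I), logHeight (fun a => X.ev (S a) i) ≤ logHeight (fun a => X.ev (T a) i) + C) :
    X.lm S ≤ X.lm T := by
  have h0 : Filter.Tendsto (fun i => C / X.h i) (X.U : Filter I) (nhds 0) := X.top.const_div_atTop C
  have h1 := (lm_tendsto X T).add h0
  rw [add_zero] at h1
  refine le_of_tendsto_of_tendsto (lm_tendsto X S) h1 ?_
  filter_upwards [h, ev_pos X] with i hi hp
  rw [← add_div]
  exact div_le_div_of_nonneg_right hi hp.le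

theorem A2_eq {ι κ : Type*} [Finite ι] [Finite κ] (S : ι → B) (T : κ → B)
    (h : ∀ᶠ i in (X.U : Filter I), logHeight (fun a => X.ev (S a) i) = logHeight (fun a => X.ev (T a) i)) :
    X.lm S = X.lm T := by
  refine le_antisymm (lm_le_of X S T 0 ?_) (lm_le_of X T S 0 ?_)
  · filter_upwards [h] with i hi
    rw [hi, add_zero]
  · filter_upwards [h] with i hi
    rw [hi, add_zero]

/-- The limit for a family obtained by a map of the index sets. -/
theorem lm_comp_le {ι κ : Type*} [Finite ι] [Finite κ] (f : ι → κ) (S : κ → B) :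
    X.lm (fun a => S (f a)) ≤ X.lm S := by
  refine lm_le_of X _ _ 0 (Filter.Eventually.of_forall fun i => ?_)
  rw [add_zero]
  exact logHeight_comp_le f (fun a => X.ev (S a) i)

/-- A surjective map of the index sets does not change the limit. -/
theorem lm_comp_eq {ι κ : Type*} [Finite ι] [Finite κ] (f : ι → κ) (hf : Function.Surjective f) (S : κ → B) :
    X.lm (fun a => S (f a)) = X.lm S := by
  refine le_antisymm (lm_comp_le X f S) ?_
  have h := lm_comp_le X (Function.surjInv hf) (fun a => S (f a))
  simpa only [Function.surjInv_eq hf] using h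

/-- The multiplication by a nonzero element does not change the limit. -/
theorem lm_smul {ι : Type*} [Finite ι] {c : B} (hc : c ≠ 0) (S : ι → B) :
    X.lm (fun a => c * S a) = X.lm S := by
  refine A2_eq X _ _ ?_
  filter_upwards [Filter.eventually_all.2 fun a => X.mul c (S a), ev_ne X hc] with i h1 h2
  have h3 : (fun a => X.ev (c * S a) i) = X.ev c i • (fun a => X.ev (S a) i) := by
    funext a
    rw [h1 a]
    rfl
  rw [h3]
  exact logHeight_smul_eq_logHeight _ h2

/-- The limit for the products of the elements of two families. -/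
theorem lm_mul {ι κ : Type*} [Finite ι] [Finite κ] {S : ι → B} {T : κ → B} (hS : S ≠ 0) (hT : T ≠ 0) :
    X.lm (fun p : ι × κ => S p.1 * T p.2) = X.lm S + X.lm T := by
  refine tendsto_nhds_unique (lm_tendsto X (fun p : ι × κ => S p.1 * T p.2))
    (Filter.Tendsto.congr' ?_ ((lm_tendsto X S).add (lm_tendsto X T)))
  filter_upwards [Filter.eventually_all.2 fun p : ι × κ => X.mul (S p.1) (T p.2), ev_fam_ne X hS,
    ev_fam_ne X hT] with i h1 h2 h3
  have h4 : (fun p : ι × κ => X.ev (S p.1 * T p.2) i) =
      fun p : ι × κ => (fun a => X.ev (S a) i) p.1 * (fun a => X.ev (T a) i) p.2 := by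
    funext p
    exact h1 p
  rw [h4, logHeight_fun_mul_eq h2 h3, add_div]

/-- The limit for the products of the elements of several families. -/
theorem lm_pi {α : Type*} [Fintype α] {ι : α → Type*} [∀ a, Finite (ι a)] {S : ∀ a, ι a → B} (hS : ∀ a, S a ≠ 0) :
    X.lm (fun p : ∀ a, ι a => ∏ a, S a (p a)) = ∑ a, X.lm (S a) := by
  refine tendsto_nhds_unique (lm_tendsto X (fun p : ∀ a, ι a => ∏ a, S a (p a)))
    (Filter.Tendsto.congr' ?_ (tendsto_finsetSum Finset.univ fun a _ => lm_tendsto X (S a)))
  filter_upwards [Filter.eventually_all.2 fun p : ∀ a, ι a => ev_prod X Finset.univ fun a => S a (p a),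
    Filter.eventually_all.2 fun a => ev_fam_ne X (hS a)] with i h1 h2
  have h4 : (fun p : ∀ a, ι a => X.ev (∏ a, S a (p a)) i) =
      fun p : ∀ a, ι a => ∏ a, (fun b => X.ev (S a b) i) (p a) := by
    funext p
    exact h1 p
  rw [h4, logHeight_fun_prod_eq (x := fun a b => X.ev (S a b) i) h2, Finset.sum_div]

/-- The limit for a constant family is zero. -/
theorem lm_single {ι : Type*} [Finite ι] (x : B) : X.lm (fun _ : ι => x) = 0 := by
  refine le_antisymm ?_ (lm_nonneg X _)
  refine (lm_comp_le X (fun _ : ι => ()) (fun _ : Unit => x)).trans (le_of_eq ?_)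
  refine tendsto_nhds_unique (lm_tendsto X (fun _ : Unit => x)) ?_
  refine Filter.Tendsto.congr (fun i => ?_) tendsto_const_nhds
  rw [logHeight_eq_zero_of_subsingleton, zero_div]

end

end Pool.Agent.Lib.MP_17a322_nt.FQ
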