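import Pool.Agent.Lib.MP_17a322_nt.FQ.H0

/-!
Heights on a field over `k`: the calculus of the functions which are quotients of maxima of values.
-/

universe u v

namespace Pool.Agent.Lib.MP_17a322_nt.FQ

variable {k : Type v} {E : Type u} [Field k] [Field E] [Algebra k E] {κ κ' : Type} [Fintype κ]
  [Fintype κ'] {H : Ht k E}

/-- The value of an element of the family is at most the maximum. -/
theorem le_nm (S : κ → E) (A : VQ k E) (a : κ) : A.1.valuation (S a) ≤ nm k S A :=
  Finset.le_sup (f := fun a => A.1.valuation (S a)) (Finset.mem_univ a)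

/-- A bound for all the values bounds the maximum. -/
theorem nm_le (S : κ → E) (A : VQ k E) (c : A.1.ValueGroup) (h : ∀ a, A.1.valuation (S a) ≤ c) :
    nm k S A ≤ c :=
  Finset.sup_le fun a _ => h a

/-- The maximum is attained, at an element which is not zero. -/
theorem nm_attain (S : κ → E) (hS : S ≠ 0) (A : VQ k E) :
    ∃ a, S a ≠ 0 ∧ nm k S A = A.1.valuation (S a) := by
  obtain ⟨a₀, ha₀⟩ := Function.ne_iff.mp hS
  have hne : (Finset.univ : Finset κ).Nonempty := ⟨a₀, Finset.mem_univ a₀⟩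
  obtain ⟨a, _, ha⟩ := Finset.exists_mem_eq_sup Finset.univ hne
    (fun a => A.1.valuation (S a))
  refine ⟨a, fun h => ?_, ha⟩
  have h1 : A.1.valuation (S a₀) ≤ A.1.valuation (S a) := ha ▸ le_nm S A a₀
  rw [h, map_zero] at h1
  have h2 : A.1.valuation (S a₀) = 0 := le_antisymm h1 zero_le
  exact ha₀ ((Valuation.zero_iff _).1 h2)

/-- The maximum is not zero. -/
theorem nm_ne (S : κ → E) (hS : S ≠ 0) (A : VQ k E) : nm k S A ≠ 0 := by
  obtain ⟨a, ha, h⟩ := nm_attain S hS A
  rw [h]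
  exact (Valuation.ne_zero_iff _).2 ha

theorem H1_zero (S : κ → E) (hS : S = 0) (A : VQ k E) : nm k S A = 0 := by
  refine le_antisymm (nm_le S A 0 fun a => ?_) zero_le
  rw [hS, Pi.zero_apply, map_zero]

/-- The maximum for the product of two families. -/
theorem nm_tn (S : κ → E) (T : κ' → E) (A : VQ k E) :
    nm k (tn S T) A = nm k S A * nm k T A := by
  refine le_antisymm (nm_le _ A _ fun a => ?_) ?_
  · show A.1.valuation (S a.1 * T a.2) ≤ _
    rw [map_mul]
    exact mul_le_mul' (le_nm S A a.1) (le_nm T A a.2)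
  · by_cases hS : S = 0
    · rw [H1_zero S hS A, zero_mul]
      exact zero_le
    · by_cases hT : T = 0
      · rw [H1_zero T hT A, mul_zero]
        exact zero_le
      · obtain ⟨a, _, ha⟩ := nm_attain S hS A
        obtain ⟨b, _, hb⟩ := nm_attain T hT A
        rw [ha, hb, ← map_mul]
        exact le_nm (tn S T) A (a, b)

/-- The elements of `k` which are not zero have the value one. -/
theorem val_alg (A : VQ k E) (c : k) (hc : c ≠ 0) : A.1.valuation (algebraMap k E c) = 1 := by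
  have h1 : A.1.valuation (algebraMap k E c) ≤ 1 := (A.1.valuation_le_one_iff _).2 (A.2 c)
  have h2 : A.1.valuation (algebraMap k E c⁻¹) ≤ 1 := (A.1.valuation_le_one_iff _).2 (A.2 c⁻¹)
  have h3 : A.1.valuation (algebraMap k E c) * A.1.valuation (algebraMap k E c⁻¹) = 1 := by
    rw [← map_mul, ← map_mul, mul_inv_cancel₀ hc, map_one, map_one]
  refine le_antisymm h1 ?_
  rw [← h3]
  calc _ ≤ A.1.valuation (algebraMap k E c) * 1 := mul_le_mul' le_rfl h2
    _ = _ := mul_one _

theorem H1_unit_ne (c : E) (hc : c ≠ 0) : (fun _ : Unit => c) ≠ 0 :=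
  fun h => hc (congrFun h ())

theorem H1_nm_unit (c : E) (A : VQ k E) : nm k (fun _ : Unit => c) A = A.1.valuation c :=
  le_antisymm (nm_le _ A _ fun _ => le_rfl) (le_nm (fun _ : Unit => c) A ())

omit [Fintype κ] [Fintype κ'] in
theorem H1_tn_ne {S : κ → E} {T : κ' → E} (hS : S ≠ 0) (hT : T ≠ 0) : tn S T ≠ 0 := by
  obtain ⟨a, ha⟩ := Function.ne_iff.mp hS
  obtain ⟨b, hb⟩ := Function.ne_iff.mp hT
  exact Function.ne_iff.mpr ⟨(a, b), mul_ne_zero ha hb⟩

theorem H1_lam_tn {S : κ → E} {T : κ' → E} (hS : S ≠ 0) (hT : T ≠ 0) :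
    H.lam (tn S T) = H.lam S + H.lam T := H.tensor S T hS hT

/-- The maximum of the values of a family has the height of the family. -/
theorem Lm_fam (S : κ → E) (hS : S ≠ 0) : Lm H (nm k S) (H.lam S) := by
  refine ⟨κ, Unit, inferInstance, inferInstance, S, fun _ => 1, hS, H1_unit_ne 1 one_ne_zero,
    fun A => ?_, ?_⟩
  · rw [H1_nm_unit, map_one, mul_one]
  · rw [H.single 1 one_ne_zero, sub_zero]

/-- The values of one element have the height zero. -/
theorem Lm_prin (c : E) (hc : c ≠ 0) : Lm H (fun A => A.1.valuation c) 0 := by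
  refine ⟨Unit, Unit, inferInstance, inferInstance, fun _ => c, fun _ => 1, H1_unit_ne c hc,
    H1_unit_ne 1 one_ne_zero, fun A => ?_, ?_⟩
  · rw [H1_nm_unit, H1_nm_unit, map_one, mul_one]
  · rw [H.single 1 one_ne_zero, H.single c hc, sub_zero]

/-- The constant function one has the height zero. -/
theorem Lm_one : Lm H (fun _ => 1) 0 := by
  have h := Lm_prin (k := k) (H := H) (1 : E) one_ne_zero
  have h1 : (fun A : VQ k E => A.1.valuation (1 : E)) = fun _ => 1 := by
    funext A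
    exact map_one _
  rw [h1] at h
  exact h

/-- The height of a product. -/
theorem Lm_mul {D D' : Fn k E} {x x' : ℝ} (h : Lm H D x) (h' : Lm H D' x') :
    Lm H (fun A => D A * D' A) (x + x') := by
  obtain ⟨κ, κ', _, _, S, T, hS, hT, hD, hx⟩ := h
  obtain ⟨ι, ι', _, _, S', T', hS', hT', hD', hx'⟩ := h'
  refine ⟨κ × ι, κ' × ι', inferInstance, inferInstance, tn S S', tn T T', H1_tn_ne hS hS',
    H1_tn_ne hT hT', fun A => ?_, ?_⟩
  · rw [nm_tn, nm_tn, mul_mul_mul_comm, hD, hD']
  · rw [H1_lam_tn hS hS', H1_lam_tn hT hT', hx, hx']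
    ring

/-- The height of an inverse. -/
theorem Lm_inv {D : Fn k E} {x : ℝ} (h : Lm H D x) : Lm H (fun A => (D A)⁻¹) (-x) := by
  obtain ⟨κ, κ', _, _, S, T, hS, hT, hD, hx⟩ := h
  refine ⟨κ', κ, inferInstance, inferInstance, T, S, hT, hS, fun A => ?_, ?_⟩
  · have h1 : D A ≠ 0 := by
      intro h0
      have h2 := hD A
      rw [h0, zero_mul] at h2
      exact nm_ne S hS A h2.symm
    rw [← hD A, inv_mul_cancel_left₀ h1]
  · rw [hx]
    ring

/-- The height of a quotient. -/
theorem Lm_div {D D' : Fn k E} {x x' : ℝ} (h : Lm H D x) (h' : Lm H D' x') :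
    Lm H (fun A => D A / D' A) (x - x') := by
  have h1 := Lm_mul h (Lm_inv h')
  rw [sub_eq_add_neg]
  simp only [div_eq_mul_inv]
  exact h1

/-- The height of a power. -/
theorem Lm_pow {D : Fn k E} {x : ℝ} (n : ℕ) (h : Lm H D x) : Lm H (fun A => D A ^ n) (n * x) := by
  induction n with
  | zero =>
    simp only [pow_zero, Nat.cast_zero, zero_mul]
    exact Lm_one
  | succ n ih =>
    have h1 := Lm_mul ih h
    have h2 : ((n + 1 : ℕ) : ℝ) * x = n * x + x := by push_cast; ring
    rw [h2]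
    simp only [pow_succ]
    exact h1

/-- The height is monotone. -/
theorem Lm_mono {D D' : Fn k E} {x x' : ℝ} (h : Lm H D x) (h' : Lm H D' x')
    (hD : ∀ A, D A ≤ D' A) : x ≤ x' := by
  obtain ⟨κ, κ', _, _, S, T, hS, hT, hDS, hx⟩ := h
  obtain ⟨ι, ι', _, _, S', T', hS', hT', hDS', hx'⟩ := h'
  have h1 : ∀ A : VQ k E, nm k (tn S T') A ≤ nm k (tn S' T) A := by
    intro A
    rw [nm_tn, nm_tn, ← hDS, ← hDS']
    calc D A * nm k T A * nm k T' A ≤ D' A * nm k T A * nm k T' A :=
          mul_le_mul' (mul_le_mul' (hD A) le_rfl) le_rfl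
      _ = _ := by rw [mul_right_comm]
  have h2 := H.mono (tn S T') (tn S' T) (H1_tn_ne hS hT') (H1_tn_ne hS' hT) h1
  rw [H1_lam_tn hS hT', H1_lam_tn hS' hT] at h2
  rw [hx, hx']
  linarith

/-- The height of a function is unique. -/
theorem Lm_uniq {D : Fn k E} {x x' : ℝ} (h : Lm H D x) (h' : Lm H D x') : x = x' :=
  le_antisymm (Lm_mono h h' fun _ => le_rfl) (Lm_mono h' h fun _ => le_rfl)

/-- The number `hl H D` is the height of `D`. -/
theorem hl_eq {D : Fn k E} {x : ℝ} (h : Lm H D x) : hl H D = x := by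
  have h1 : ∃ x, Lm H D x := ⟨x, h⟩
  unfold hl
  rw [dif_pos h1]
  exact Lm_uniq h1.choose_spec h

/-- A function which has a height is not zero anywhere. -/
theorem Lm_ne {D : Fn k E} {x : ℝ} (h : Lm H D x) (A : VQ k E) : D A ≠ 0 := by
  obtain ⟨κ, κ', _, _, S, T, hS, hT, hD, hx⟩ := h
  intro h0
  have h2 := hD A
  rw [h0, zero_mul] at h2
  exact nm_ne S hS A h2.symm

/-- The values of a function which has a height are values of elements of a finite set. -/
theorem Lm_attain {D : Fn k E} {x : ℝ} (h : Lm H D x) :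
    ∃ G : Finset E, (∀ g ∈ G, g ≠ 0) ∧ ∀ A, ∃ g ∈ G, D A = A.1.valuation g := by
  classical
  obtain ⟨κ, κ', _, _, S, T, hS, hT, hD, hx⟩ := h
  refine ⟨((Finset.univ : Finset (κ × κ')).image fun p => S p.1 / T p.2).filter (· ≠ 0),
    fun g hg => (Finset.mem_filter.1 hg).2, fun A => ?_⟩
  obtain ⟨a, ha, ha'⟩ := nm_attain S hS A
  obtain ⟨b, hb, hb'⟩ := nm_attain T hT A
  refine ⟨S a / T b, Finset.mem_filter.2 ⟨Finset.mem_image.2 ⟨(a, b), Finset.mem_univ _, rfl⟩,
    div_ne_zero ha hb⟩, ?_⟩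
  rw [map_div₀, ← ha', ← hb', ← hD A, mul_div_cancel_right₀ _ (nm_ne T hT A)]

/-- Heights of families are not negative. -/
theorem lam_nonneg (S : κ → E) (hS : S ≠ 0) : 0 ≤ H.lam S := by
  obtain ⟨a, ha⟩ := Function.ne_iff.mp hS
  exact Lm_mono (Lm_prin (H := H) (S a) ha) (Lm_fam S hS) fun A => le_nm S A a

/-- The powers of the maximum of the values of a family. -/
theorem Lm_fam_pow (S : κ → E) (hS : S ≠ 0) (n : ℕ) : Lm H (fun A => nm k S A ^ n) (n * H.lam S) :=
  Lm_pow n (Lm_fam S hS)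

end Pool.Agent.Lib.MP_17a322_nt.FQ
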