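import Mathlib

/-!
Heights on a field `E` over `k`, valuation rings, and norms on the derivations of `E` given by models:
definitions.
-/

universe u v

namespace Pool.Agent.Lib.MP_17a322_nt.FQ

section

variable (k : Type v) (E : Type u) [Field k] [Field E] [Algebra k E]

/-- The valuation rings of `E` which contain `k`. -/
abbrev VQ : Type u := {A : ValuationSubring E // ∀ c : k, algebraMap k E c ∈ A}

/-- The functions on the set of the valuation rings with values in the value groups. -/
abbrev Fn : Type u := ∀ A : VQ k E, A.1.ValueGroup

variable {E}

/-- The maximum of the values of the elements of a finite family. -/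
noncomputable def nm {κ : Type} [Fintype κ] (S : κ → E) : Fn k E := fun A =>
  Finset.univ.sup fun a => A.1.valuation (S a)

variable (E) in
/-- A height on the finite families of elements of `E` which are not zero: it is additive for
products of families, monotone with respect to the values at all valuation rings, and zero for
families with one element. -/
structure Ht where
  /-- The height of a family. -/
  lam : ∀ {κ : Type} [Fintype κ], (κ → E) → ℝ
  tensor : ∀ {κ κ' : Type} [Fintype κ] [Fintype κ'] (S : κ → E) (T : κ' → E), S ≠ 0 → T ≠ 0 →
    lam (fun a : κ × κ' => S a.1 * T a.2) = lam S + lam T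
  mono : ∀ {κ κ' : Type} [Fintype κ] [Fintype κ'] (S : κ → E) (T : κ' → E), S ≠ 0 → T ≠ 0 →
    (∀ A, nm k S A ≤ nm k T A) → lam S ≤ lam T
  single : ∀ c : E, c ≠ 0 → lam (fun _ : Unit => c) = 0

variable {k}

/-- The function `D` on the set of the valuation rings is the quotient of the maxima of the values of
two families, and `x` is the difference of the heights of the two families. -/
def Lm (H : Ht k E) (D : Fn k E) (x : ℝ) : Prop :=
  ∃ (κ κ' : Type) (_ : Fintype κ) (_ : Fintype κ') (S : κ → E) (T : κ' → E), S ≠ 0 ∧ T ≠ 0 ∧
    (∀ A, D A * nm k T A = nm k S A) ∧ x = H.lam S - H.lam T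

open Classical in
/-- The number `x` in `Lm`. -/
noncomputable def hl (H : Ht k E) (D : Fn k E) : ℝ := if h : ∃ x, Lm H D x then h.choose else 0

end

section

variable {k : Type v} {E : Type u} [Field k] [Field E] [Algebra k E] {κ κ' : Type}

/-- The linear functionals of the model `m`. -/
noncomputable def ps (m : κ → E) (p : κ × κ) : Derivation k E E →ₗ[E] E where
  toFun v := m p.1 * v (m p.2) - m p.2 * v (m p.1)
  map_add' v w := by simp only [Derivation.add_apply]; ring
  map_smul' c v := by simp only [Derivation.smul_apply, smul_eq_mul, RingHom.id_apply]; ring

variable [Fintype κ] [Fintype κ']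

/-- The norm of the derivation `v` at the valuation ring `A` given by the model `m`: the maximum of
the values of the `m a * v (m b) - m b * v (m a)`, divided by the square of the maximum of the values
of the `m a`. -/
noncomputable def mn (m : κ → E) (A : VQ k E) (v : Derivation k E E) : A.1.ValueGroup :=
  nm k (fun p => ps m p v) A / nm k m A ^ 2

/-- The maximum of the minors of the functionals of the model at the derivations `v j`, divided by a
power of the maximum of the values of the `m a`. -/
noncomputable def dv {ι : Type} [Fintype ι] [DecidableEq ι] (m : κ → E)
    (v : ι → Derivation k E E) : Fn k E := fun A =>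
  nm k (fun s : ι → κ × κ => (Matrix.of fun i j => ps m (s i) (v j)).det) A /
    nm k m A ^ (2 * Fintype.card ι)

variable (k) in
/-- The family `m` is a model: it is not zero, and its functionals separate the derivations. -/
def IsMd (m : κ → E) : Prop :=
  m ≠ 0 ∧ ∀ v : Derivation k E E, (∀ p, ps m p v = 0) → v = 0

variable (k) in
/-- The model `m'` is finer than `m`. -/
def Fi (m : κ → E) (m' : κ' → E) : Prop :=
  ∀ (A : VQ k E) (v : Derivation k E E), mn m A v ≤ mn m' A v

/-- The product of two families. -/
def tn (m : κ → E) (m' : κ' → E) : κ × κ' → E := fun a => m a.1 * m' a.2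

/-- The family `1, f`. -/
def on (f : E) : Bool → E := fun b => if b then f else 1

/-- The degree of a subspace of the space of the derivations with respect to the model `m`. -/
noncomputable def dg [FiniteDimensional E (Derivation k E E)] (H : Ht k E) (m : κ → E)
    (L : Submodule E (Derivation k E E)) : ℝ :=
  - hl H (dv m fun i : Fin (Module.finrank E L) =>
    ((Module.finBasis E L i : L) : Derivation k E E))

/-- The degree of a subspace: the infimum over all models. -/
noncomputable def dgI [FiniteDimensional E (Derivation k E E)] (H : Ht k E)
    (L : Submodule E (Derivation k E E)) : ℝ :=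
  sInf {x | ∃ (κ : Type) (_ : Fintype κ) (m : κ → E), IsMd k m ∧ x = dg H m L}

end

end Pool.Agent.Lib.MP_17a322_nt.FQ
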