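import Mathlib

/-!
Heights of vectors of a number field over an extension field.
-/

universe u v

namespace Pool.Agent.Lib.MP_17a322_nt.FQ

open Height NumberField

/-- The height of an integral vector. -/
theorem mulHeight_int {K : Type u} [Field K] [NumberField K] {ι : Type*} [Finite ι] (y : ι → 𝓞 K) (hy : y ≠ 0) :
    (Ideal.span (Set.range y)).absNorm * mulHeight (fun a => (y a : K)) = ∏ φ : K →+* ℂ, ⨆ a, ‖φ (y a)‖ := by
  classical
  have hy' : (fun a => (y a : K)) ≠ 0 := by
    intro h
    apply hy
    funext a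
    exact RingOfIntegers.ext (congrFun h a)
  rw [NumberField.mulHeight_eq hy', mul_left_comm, absNorm_mul_finprod_finitePlace_eq_one hy, mul_one]
  rw [← Finset.prod_fiberwise Finset.univ (fun φ : K →+* ℂ => InfinitePlace.mk φ)
    (fun φ => ⨆ a, ‖φ (y a)‖)]
  refine Finset.prod_congr rfl fun v _ => ?_
  have h1 : ∀ φ ∈ Finset.univ.filter (fun φ : K →+* ℂ => InfinitePlace.mk φ = v),
      (⨆ a, ‖φ (y a)‖) = ⨆ a, v (y a) := by
    intro φ hφ
    rw [Finset.mem_filter] at hφ
    rw [← hφ.2]
    rfl
  rw [Finset.prod_congr rfl h1, Finset.prod_const, InfinitePlace.card_filter_mk_eq]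

/-- The number of the embeddings over a given embedding. -/
theorem X9_card {K : Type u} {L : Type v} [Field K] [NumberField K] [Field L] [NumberField L] [Algebra K L]
    (φ : K →+* ℂ) [DecidablePred fun ψ : L →+* ℂ => ψ.comp (algebraMap K L) = φ] :
    (Finset.univ.filter fun ψ : L →+* ℂ => ψ.comp (algebraMap K L) = φ).card = Module.finrank K L := by
  let _ : Algebra K ℂ := φ.toAlgebra
  rw [← AlgHom.card K L ℂ, ← Fintype.card_subtype]
  refine Fintype.card_congr
    { toFun := fun ψ => { ψ.1 with commutes' := fun c => RingHom.congr_fun ψ.2 c }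
      invFun := fun ψ => ⟨ψ.toRingHom, ?_⟩
      left_inv := fun ψ => ?_
      right_inv := fun ψ => ?_ }
  · ext c
    exact ψ.commutes c
  · rfl
  · rfl

/-- The height over an extension field, for integral vectors. -/
theorem X9_int {K : Type u} {L : Type v} [Field K] [NumberField K] [Field L] [NumberField L] [Algebra K L] {ι : Type*}
    [Finite ι] (y : ι → 𝓞 K) (hy : y ≠ 0) :
    mulHeight (fun a => algebraMap K L (y a : K)) = mulHeight (fun a => (y a : K)) ^ Module.finrank K L := by
  classical
  set y' : ι → 𝓞 L := fun a => algebraMap (𝓞 K) (𝓞 L) (y a) with hy'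
  have hc : ∀ a, (y' a : L) = algebraMap K L (y a : K) := fun a => rfl
  have hy0 : y' ≠ 0 := by
    intro h
    apply hy
    funext a
    have h1 := congrFun h a
    have h2 : algebraMap K L (y a : K) = 0 := by
      rw [← hc, h1]
      rfl
    exact RingOfIntegers.ext ((map_eq_zero _).1 h2)
  have h1 := mulHeight_int y' hy0
  have h2 := mulHeight_int y hy
  have hspan : Ideal.span (Set.range y') = (Ideal.span (Set.range y)).map (algebraMap (𝓞 K) (𝓞 L)) := by
    rw [Ideal.map_span, ← Set.range_comp]
    rfl
  have hnorm : (Ideal.span (Set.range y')).absNorm =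
      (Ideal.span (Set.range y)).absNorm ^ Module.finrank K L := by
    rw [hspan, Ideal.absNorm_algebraMap, ← IsFractionRing.finrank_eq (𝓞 K) K (𝓞 L) L]
  have hprod : ∏ ψ : L →+* ℂ, (⨆ a, ‖ψ (y' a)‖) =
      (∏ φ : K →+* ℂ, ⨆ a, ‖φ (y a)‖) ^ Module.finrank K L := by
    rw [← Finset.prod_fiberwise Finset.univ (fun ψ : L →+* ℂ => ψ.comp (algebraMap K L))
      (fun ψ => ⨆ a, ‖ψ (y' a)‖), ← Finset.prod_pow]
    refine Finset.prod_congr rfl fun φ _ => ?_
    have h3 : ∀ ψ ∈ Finset.univ.filter (fun ψ : L →+* ℂ => ψ.comp (algebraMap K L) = φ),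
        (⨆ a, ‖ψ (y' a)‖) = ⨆ a, ‖φ (y a)‖ := by
      intro ψ hψ
      rw [Finset.mem_filter] at hψ
      rw [← hψ.2]
      rfl
    rw [Finset.prod_congr rfl h3, Finset.prod_const, X9_card]
  rw [hprod, ← h2, mul_pow, hnorm] at h1
  have hne : ((Ideal.span (Set.range y)).absNorm : ℝ) ^ Module.finrank K L ≠ 0 := by
    refine pow_ne_zero _ ?_
    rw [Nat.cast_ne_zero, Ne, Ideal.absNorm_eq_zero_iff, Ideal.span_eq_bot]
    intro h
    apply hy
    funext a
    exact h _ ⟨a, rfl⟩
  push_cast at h1
  exact mul_left_cancel₀ hne h1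

/-- The height over an extension field. -/
theorem logHeight_ext {K : Type u} {L : Type v} [Field K] [NumberField K] [Field L] [NumberField L] [Algebra K L] {ι : Type*}
    [Finite ι] (x : ι → K) :
    logHeight (fun a => algebraMap K L (x a)) = Module.finrank K L * logHeight x := by
  by_cases hx : x = 0
  · subst hx
    have h1 : (fun a : ι => algebraMap K L ((0 : ι → K) a)) = 0 := by
      funext a
      exact map_zero _
    rw [h1, logHeight_zero, logHeight_zero, mul_zero]
  obtain ⟨b, hb⟩ := IsLocalization.exist_integer_multiples_of_finite (nonZeroDivisors (𝓞 K)) x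
  choose y hy using hb
  have hb0 : ((b : 𝓞 K) : K) ≠ 0 := by
    intro h
    exact nonZeroDivisors.coe_ne_zero b (RingOfIntegers.ext h)
  have hyx : (fun a => (y a : K)) = ((b : 𝓞 K) : K) • x := by
    funext a
    have h1 := hy a
    rw [Algebra.smul_def] at h1
    exact h1
  have hy0 : y ≠ 0 := by
    intro h
    apply hx
    have h1 : ((b : 𝓞 K) : K) • x = 0 := by
      rw [← hyx, h]
      rfl
    exact (smul_eq_zero.1 h1).resolve_left hb0
  have h1 : (fun a => algebraMap K L (y a : K)) =
      algebraMap K L ((b : 𝓞 K) : K) • fun a => algebraMap K L (x a) := by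
    funext a
    have h2 := congrFun hyx a
    rw [Pi.smul_apply, smul_eq_mul, ← map_mul]
    exact congrArg _ h2
  have hb1 : algebraMap K L ((b : 𝓞 K) : K) ≠ 0 := (map_ne_zero _).2 hb0
  rw [← logHeight_smul_eq_logHeight _ hb1, ← h1, ← logHeight_smul_eq_logHeight x hb0, ← hyx,
    logHeight_eq_log_mulHeight, logHeight_eq_log_mulHeight, X9_int y hy0, Real.log_pow]

/-- The height under an isomorphism. -/
theorem X9_iso {K : Type u} {L : Type v} [Field K] [NumberField K] [Field L] [NumberField L] (f : K ≃+* L)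
    {ι : Type*} [Finite ι] (x : ι → K) : logHeight (fun a => f (x a)) = logHeight x := by
  let _ : Algebra K L := f.toRingHom.toAlgebra
  have h1 : Module.finrank K L = 1 := by
    rw [← Module.finrank_self K]
    let e : K ≃ₗ[K] L :=
      { f with
        map_smul' := fun c z => by
          show f (c * z) = f c * f z
          exact map_mul f c z }
    exact e.finrank_eq.symm
  have h2 := logHeight_ext (L := L) x
  rw [h1, Nat.cast_one, one_mul] at h2
  exact h2

/-- The height under an automorphism. -/
theorem logHeight_aut {K : Type u} [Field K] [NumberField K] (σ : K ≃ₐ[ℚ] K) {ι : Type*} [Finite ι] (x : ι → K) :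
    logHeight (fun a => σ (x a)) = logHeight x :=
  X9_iso σ.toRingEquiv x

end Pool.Agent.Lib.MP_17a322_nt.FQ
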