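import Pool.Agent.Lib.MP_17a322_nt.FQ.Defs

universe u

namespace Pool.Agent.Lib.MP_17a322_nt.FQ

open Height NumberField

section

variable {k B : Type u} [Field k] [NumberField k] [Field B] [Algebra k B] {I : Type} (X : Evl k B I)

/-- The evaluation of zero. -/
theorem ev_zero : ∀ᶠ i in (X.U : Filter I), X.ev 0 i = 0 := by
  have h := X.alg 0
  rwa [map_zero] at h

/-- The evaluation of one. -/
theorem ev_one : ∀ᶠ i in (X.U : Filter I), X.ev 1 i = 1 := by
  have h := X.alg 1
  rwa [map_one] at h

/-- The evaluation of the opposite. -/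
theorem ev_neg (x : B) : ∀ᶠ i in (X.U : Filter I), X.ev (-x) i = -X.ev x i := by
  have h := X.add x (-x)
  rw [add_neg_cancel] at h
  filter_upwards [h, ev_zero X] with i h1 h2
  rw [h2] at h1
  exact eq_neg_of_add_eq_zero_right h1.symm

/-- The evaluation of a difference. -/
theorem ev_sub (x y : B) : ∀ᶠ i in (X.U : Filter I), X.ev (x - y) i = X.ev x i - X.ev y i := by
  have h := X.add x (-y)
  rw [← sub_eq_add_neg] at h
  filter_upwards [h, ev_neg X y] with i h1 h2
  rw [h1, h2, sub_eq_add_neg]

/-- The values of a nonzero element are eventually nonzero. -/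
theorem ev_ne {x : B} (hx : x ≠ 0) : ∀ᶠ i in (X.U : Filter I), X.ev x i ≠ 0 := by
  have h := X.mul x x⁻¹
  rw [mul_inv_cancel₀ hx] at h
  filter_upwards [h, ev_one X] with i h1 h2 h3
  rw [h2, h3, zero_mul] at h1
  exact one_ne_zero h1

/-- The evaluation of the inverse. -/
theorem ev_inv (x : B) : ∀ᶠ i in (X.U : Filter I), X.ev x⁻¹ i = (X.ev x i)⁻¹ := by
  by_cases hx : x = 0
  · subst hx
    rw [inv_zero]
    filter_upwards [ev_zero X] with i h
    rw [h, inv_zero]
  · have h := X.mul x x⁻¹
    rw [mul_inv_cancel₀ hx] at h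
    filter_upwards [h, ev_one X] with i h1 h2
    rw [h2] at h1
    exact eq_inv_of_mul_eq_one_right h1.symm

/-- The evaluation separates the elements. -/
theorem ev_eq {x y : B} : (∀ᶠ i in (X.U : Filter I), X.ev x i = X.ev y i) ↔ x = y := by
  constructor
  · intro h
    by_contra hxy
    have h1 := ev_ne X (sub_ne_zero.2 hxy)
    have h2 := (h.and (h1.and (ev_sub X x y))).exists
    obtain ⟨i, h3, h4, h5⟩ := h2
    rw [h5, h3, sub_self] at h4
    exact h4 rfl
  · rintro rfl
    exact Filter.Eventually.of_forall fun _ => rfl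

/-- The evaluation of a sum. -/
theorem ev_sum {α : Type*} (s : Finset α) (f : α → B) :
    ∀ᶠ i in (X.U : Filter I), X.ev (∑ a ∈ s, f a) i = ∑ a ∈ s, X.ev (f a) i := by
  classical
  induction s using Finset.induction_on with
  | empty =>
    filter_upwards [ev_zero X] with i h
    rw [Finset.sum_empty, Finset.sum_empty, h]
  | insert a s ha ih =>
    filter_upwards [ih, X.add (f a) (∑ b ∈ s, f b)] with i h1 h2
    rw [Finset.sum_insert ha, Finset.sum_insert ha, h2, h1]

/-- The evaluation of a product. -/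
theorem ev_prod {α : Type*} (s : Finset α) (f : α → B) :
    ∀ᶠ i in (X.U : Filter I), X.ev (∏ a ∈ s, f a) i = ∏ a ∈ s, X.ev (f a) i := by
  classical
  induction s using Finset.induction_on with
  | empty =>
    filter_upwards [ev_one X] with i h
    rw [Finset.prod_empty, Finset.prod_empty, h]
  | insert a s ha ih =>
    filter_upwards [ih, X.mul (f a) (∏ b ∈ s, f b)] with i h1 h2
    rw [Finset.prod_insert ha, Finset.prod_insert ha, h2, h1]

/-- The evaluation of a power. -/
theorem ev_pow (x : B) (n : ℕ) : ∀ᶠ i in (X.U : Filter I), X.ev (x ^ n) i = X.ev x i ^ n := by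
  induction n with
  | zero =>
    filter_upwards [ev_one X] with i h
    rw [pow_zero, pow_zero, h]
  | succ n ih =>
    filter_upwards [ih, X.mul (x ^ n) x] with i h1 h2
    rw [pow_succ, pow_succ, h2, h1]

private theorem A1_aux_unit (u : ℤˣ) (x : B) :
    ∀ᶠ i in (X.U : Filter I), X.ev (u • x) i = u • X.ev x i := by
  rcases Int.units_eq_one_or u with rfl | rfl
  · exact Filter.Eventually.of_forall fun i => by rw [one_smul, one_smul]
  · filter_upwards [ev_neg X x] with i h
    rw [Units.neg_smul, one_smul, Units.neg_smul, one_smul, h]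

/-- The evaluation of a determinant. -/
theorem ev_det {α : Type*} [Fintype α] [DecidableEq α] (M : Matrix α α B) :
    ∀ᶠ i in (X.U : Filter I), X.ev M.det i = (Matrix.of fun a b => X.ev (M a b) i).det := by
  have h1 : ∀ σ : Equiv.Perm α, ∀ᶠ i in (X.U : Filter I),
      X.ev (Equiv.Perm.sign σ • ∏ a, M (σ a) a) i =
        Equiv.Perm.sign σ • ∏ a, X.ev (M (σ a) a) i := by
    intro σ
    filter_upwards [A1_aux_unit X (Equiv.Perm.sign σ) (∏ a, M (σ a) a),
      ev_prod X Finset.univ fun a => M (σ a) a] with i h2 h3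
    rw [h2, h3]
  have h2 := ev_sum X Finset.univ fun σ : Equiv.Perm α => Equiv.Perm.sign σ • ∏ a, M (σ a) a
  filter_upwards [h2, Filter.eventually_all.2 h1] with i h3 h4
  rw [Matrix.det_apply, Matrix.det_apply, h3]
  exact Finset.sum_congr rfl fun σ _ => h4 σ

/-- The evaluation of the values of polynomials. -/
theorem ev_aeval {σ : Type*} (x : σ → B) (p : MvPolynomial σ k) :
    ∀ᶠ i in (X.U : Filter I), X.ev (MvPolynomial.aeval x p) i = MvPolynomial.eval (fun s => X.ev (x s) i) p := by
  induction p using MvPolynomial.induction_on with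
  | C a =>
    filter_upwards [X.alg a] with i h
    rw [MvPolynomial.aeval_C, MvPolynomial.eval_C, h]
  | add p r hp hr =>
    filter_upwards [hp, hr, X.add (MvPolynomial.aeval x p) (MvPolynomial.aeval x r)] with i h1 h2 h3
    rw [map_add, map_add, h3, h1, h2]
  | mul_X p s hp =>
    filter_upwards [hp, X.mul (MvPolynomial.aeval x p) (x s)] with i h1 h2
    rw [map_mul, map_mul, MvPolynomial.aeval_X, MvPolynomial.eval_X, h2, h1]

/-- The scale is eventually positive. -/
theorem ev_pos : ∀ᶠ i in (X.U : Filter I), 0 < X.h i :=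
  X.top.eventually_gt_atTop 0

/-- A nonzero family has a nonzero value eventually. -/
theorem ev_fam_ne {ι : Type*} {S : ι → B} (hS : S ≠ 0) :
    ∀ᶠ i in (X.U : Filter I), (fun a => X.ev (S a) i) ≠ 0 := by
  obtain ⟨a, ha⟩ := Function.ne_iff.1 hS
  filter_upwards [ev_ne X ha] with i h1 h2
  exact h1 (congrFun h2 a)

end

end Pool.Agent.Lib.MP_17a322_nt.FQ
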