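import Pool.Agent.Lib.MP_17a322_nt.FQ.A2
import Pool.Agent.Lib.MP_17a322_nt.EQ.TR
import Pool.Agent.Lib.MP_17a322_nt.EQ.Q1

universe u

namespace Pool.Agent.Lib.MP_17a322_nt.FQ

open Height NumberField
open Pool.Agent.Lib.MP_17a322_nt.EQ

section

variable {k B : Type u} [Field k] [NumberField k] [Field B] [Algebra k B] {I : Type} (X : Evl k B I)

private theorem A3_dom {κ : Type*} [Fintype κ] (A : ValuationSubring B) {x : B} (hx : x ≠ 0) {T : κ → B}
    (h : A.valuation x ≤ nA A T) : ∃ j, A.valuation x ≤ A.valuation (T j) := by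
  have hpos : 0 < A.valuation x := zero_lt_iff.2 (by simpa using hx)
  rcases isEmpty_or_nonempty κ with he | he
  · exfalso
    have h0 : nA A T = 0 := by
      unfold nA
      rw [Finset.univ_eq_empty, Finset.sup_empty]
      rfl
    rw [h0] at h
    exact absurd h (not_le.2 hpos)
  · obtain ⟨j, _, hj⟩ := Finset.exists_mem_eq_sup (Finset.univ : Finset κ) Finset.univ_nonempty
      fun a => A.valuation (T a)
    refine ⟨j, ?_⟩
    unfold nA at h
    rwa [hj] at h

private theorem A3_le {ι : Type*} [Fintype ι] (A : ValuationSubring B) (S : ι → B) (a : ι) :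
    A.valuation (S a) ≤ nA A S :=
  Finset.le_sup (f := fun a => A.valuation (S a)) (Finset.mem_univ a)

/-- The constant at the place `v`. -/
private noncomputable def A3_c {σ : Type*} (P : MvPolynomial σ k) : Pl k → ℝ :=
  open Classical in fun v => match v with
    | Sum.inl w => 1 + ∑ a ∈ P.support, w.val (P.coeff a)
    | Sum.inr w => if ∀ a ∈ P.support, w.val (P.coeff a) ≤ 1 then 1
        else 1 + ∑ a ∈ P.support, w.val (P.coeff a)

private theorem A3_c_one {σ : Type*} (P : MvPolynomial σ k) (v : Pl k) : 1 ≤ A3_c P v := by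
  rcases v with w | w
  · have : 0 ≤ ∑ a ∈ P.support, w.val (P.coeff a) := Finset.sum_nonneg fun a _ => w.val.nonneg _
    simp only [A3_c]
    linarith
  · have : 0 ≤ ∑ a ∈ P.support, w.val (P.coeff a) := Finset.sum_nonneg fun a _ => w.val.nonneg _
    simp only [A3_c]
    split_ifs
    · exact le_refl _
    · linarith

private theorem A3_c_fin {σ : Type*} (P : MvPolynomial σ k) :
    {w : FinitePlace k | A3_c P (Sum.inr w) ≠ 1}.Finite := by
  refine Set.Finite.subset (P.support.finite_toSet.biUnion (t := fun a =>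
    Function.mulSupport fun w : FinitePlace k => w (P.coeff a)) fun a ha => ?_) ?_
  · exact FinitePlace.hasFiniteMulSupport (by simpa [MvPolynomial.mem_support_iff] using ha)
  · intro w hw
    simp only [A3_c, Set.mem_ofPred_eq, ne_eq, ite_eq_left_iff, Classical.not_imp] at hw
    obtain ⟨hw1, -⟩ := hw
    push Not at hw1
    obtain ⟨a, ha, hw2⟩ := hw1
    simp only [Set.mem_iUnion]
    exact ⟨a, ha, ne_of_gt hw2⟩

private theorem A3_bound {σ : Type*} [Fintype σ] [Nonempty σ] {r : ℕ} (P : MvPolynomial σ k)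
    (hP : ∀ a ∈ P.support, 1 ≤ a.degree ∧ a.degree ≤ r) (f : k) (g : σ → k)
    (h : f ^ r = ∑ a ∈ P.support, P.coeff a * (∏ j, g j ^ a j) * f ^ (r - a.degree)) (v : Pl k) :
    av v f ≤ A3_c P v * ⨆ j, av v (g j) := by
  rcases v with w | w
  · exact transfer_arch w.val P hP _ _ h
  · simp only [A3_c]
    split_ifs with hc
    · rw [one_mul]
      exact transfer_nonarch w.val (fun x y => w.add_le x y) P hP hc _ _ h
    · exact transfer_arch w.val P hP _ _ h

private theorem A3_rel {σ : Type*} [Fintype σ] {r : ℕ} (P : MvPolynomial σ k) (F : B) (G : σ → B)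
    (h : F ^ r = ∑ a ∈ P.support, algebraMap k B (P.coeff a) * (∏ j, G j ^ a j) * F ^ (r - a.degree)) :
    ∀ᶠ i in (X.U : Filter I), X.ev F i ^ r =
      ∑ a ∈ P.support, P.coeff a * (∏ j, X.ev (G j) i ^ a j) * X.ev F i ^ (r - a.degree) := by
  have h1 : ∀ a ∈ P.support, ∀ᶠ i in (X.U : Filter I),
      X.ev (algebraMap k B (P.coeff a) * (∏ j, G j ^ a j) * F ^ (r - a.degree)) i =
        P.coeff a * (∏ j, X.ev (G j) i ^ a j) * X.ev F i ^ (r - a.degree) := by
    intro a _
    have h2 : ∀ᶠ i in (X.U : Filter I), ∀ j, X.ev (G j ^ a j) i = X.ev (G j) i ^ a j :=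
      Filter.eventually_all.2 fun j => ev_pow X (G j) (a j)
    filter_upwards [X.mul (algebraMap k B (P.coeff a) * (∏ j, G j ^ a j)) (F ^ (r - a.degree)),
      X.mul (algebraMap k B (P.coeff a)) (∏ j, G j ^ a j), X.alg (P.coeff a),
      ev_prod X Finset.univ (fun j => G j ^ a j), h2, ev_pow X F (r - a.degree)] with i e1 e2 e3 e4 e5 e6
    rw [e1, e2, e3, e4, e6]
    simp only [e5]
  have h3 : ∀ᶠ i in (X.U : Filter I), ∀ a ∈ P.support,
      X.ev (algebraMap k B (P.coeff a) * (∏ j, G j ^ a j) * F ^ (r - a.degree)) i =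
        P.coeff a * (∏ j, X.ev (G j) i ^ a j) * X.ev F i ^ (r - a.degree) :=
    (Filter.eventually_all_finset P.support).2 h1
  filter_upwards [h3, ev_pow X F r, ev_sum X P.support fun a =>
    algebraMap k B (P.coeff a) * (∏ j, G j ^ a j) * F ^ (r - a.degree)] with i e1 e2 e3
  rw [← e2, h, e3]
  exact Finset.sum_congr rfl e1

/-- The transfer: if at every valuation ring of `B` which contains `k` all elements of the family `S` are at
most the maximum of the family `T`, then the height of `S` is at most the height of `T`. -/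
theorem lm_le {ι κ : Type*} [Fintype ι] [Fintype κ] {S : ι → B} {T : κ → B} (hS : S ≠ 0)
    (h : ∀ A : VR k B, nA A.1 S ≤ nA A.1 T) : X.lm S ≤ X.lm T := by
  classical
  have hdom : ∀ a, S a ≠ 0 → ∀ A : ValuationSubring B, (∀ c : k, algebraMap k B c ∈ A) →
      ∃ j, A.valuation (S a) ≤ A.valuation (T j) := fun a ha A hA =>
    A3_dom A ha ((A3_le A S a).trans (h ⟨A, hA⟩))
  obtain ⟨a₀, ha₀⟩ := Function.ne_iff.1 hS
  obtain ⟨j₀, hj₀⟩ := hdom a₀ ha₀ ⊤ fun c => ValuationSubring.mem_top _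
  have hTj : T j₀ ≠ 0 := by
    intro h0
    rw [h0, map_zero] at hj₀
    have h1 : (⊤ : ValuationSubring B).valuation (S a₀) = 0 := le_antisymm hj₀ zero_le
    exact ha₀ (by simpa using h1)
  have hT : T ≠ 0 := fun h0 => hTj (by rw [h0]; rfl)
  have hne : Nonempty κ := ⟨j₀⟩
  have hrel : ∀ a, ∃ (r : ℕ) (P : MvPolynomial κ k), (∀ m ∈ P.support, 1 ≤ m.degree ∧ m.degree ≤ r) ∧
      S a ^ r = ∑ m ∈ P.support, algebraMap k B (P.coeff m) * (∏ j, T j ^ m j) *
        S a ^ (r - m.degree) := by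
    intro a
    by_cases ha : S a = 0
    · exact ⟨1, 0, by simp, by simp [ha]⟩
    · obtain ⟨r, P, _, h1, h2⟩ := transfer_alg (k := k) (S a) T (hdom a ha)
      exact ⟨r, P, h1, h2⟩
  choose r P hP hPr using hrel
  let c : Pl k → ℝ := fun v => ∏ a, A3_c (P a) v
  have hone : ∀ (s : Finset ι) (v : Pl k), 1 ≤ ∏ a ∈ s, A3_c (P a) v := by
    intro s v
    have := Finset.prod_le_prod (s := s) (f := fun _ => (1 : ℝ)) (g := fun a => A3_c (P a) v)
      (fun _ _ => zero_le_one) fun a _ => A3_c_one (P a) v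
    rwa [Finset.prod_const_one] at this
  have hc1 : ∀ v, 1 ≤ c v := fun v => hone Finset.univ v
  have hcle : ∀ a v, A3_c (P a) v ≤ c v := by
    intro a v
    have h1 : c v = A3_c (P a) v * ∏ b ∈ Finset.univ.erase a, A3_c (P b) v :=
      (Finset.mul_prod_erase Finset.univ (fun b => A3_c (P b) v) (Finset.mem_univ a)).symm
    rw [h1]
    exact le_mul_of_one_le_right (zero_le_one.trans (A3_c_one (P a) v)) (hone _ v)
  have hcfs : FS fun v : Pl k => Real.log (c v) := by
    refine (Set.finite_iUnion fun a : ι => A3_c_fin (P a)).subset fun w hw => ?_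
    by_contra hcon
    simp only [Set.mem_iUnion, Set.mem_ofPred_eq, not_exists, not_not] at hcon
    refine hw ?_
    have : c (Sum.inr w) = 1 := Finset.prod_eq_one fun a _ => hcon a
    change Real.log (c (Sum.inr w)) = 0
    rw [this, Real.log_one]
  have hev : ∀ᶠ i in (X.U : Filter I), ∀ a, X.ev (S a) i ^ r a =
      ∑ m ∈ (P a).support, (P a).coeff m * (∏ j, X.ev (T j) i ^ m j) * X.ev (S a) i ^ (r a - m.degree) :=
    Filter.eventually_all.2 fun a => A3_rel X (P a) (S a) T (hPr a)
  refine lm_le_of X S T (psum fun v => Real.log (c v)) ?_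
  filter_upwards [hev, ev_fam_ne X hS, ev_fam_ne X hT] with i hi hSi hTi
  rw [← hl_psum_sup hSi, ← hl_psum_sup hTi, add_comm, ← hs_add hcfs (hl_fs_sup hTi)]
  refine hs_mono (hl_fs_sup hSi) (hs_fs_add hcfs (hl_fs_sup hTi)) fun v => ?_
  have hTp := hl_pos (av v) hTi
  have hcp : 0 < c v := lt_of_lt_of_le one_pos (hc1 v)
  rw [← Real.log_mul hcp.ne' hTp.ne']
  refine Real.log_le_log (hl_pos (av v) hSi) ?_
  have hnι : Nonempty ι := ⟨a₀⟩
  refine ciSup_le fun a => ?_
  exact (A3_bound (P a) (hP a) _ _ (hi a) v).trans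
    (mul_le_mul_of_nonneg_right (hcle a v) hTp.le)

end

end Pool.Agent.Lib.MP_17a322_nt.FQ
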