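import Pool.Agent.Lib.MP_17a322_nt.FQ.Defs

namespace Pool.Agent.Lib.MP_17a322_nt.FQ

section

variable {B : Type*} [Field B] (A : ValuationSubring B) {ι κ : Type*} [Fintype ι] [Fintype κ]

/-- Every value of the family is at most the maximum `nA A S`. -/
theorem val_le_nA (S : ι → B) (a : ι) : A.valuation (S a) ≤ nA A S :=
  Finset.le_sup (f := fun a => A.valuation (S a)) (Finset.mem_univ a)

theorem nA_le_iff (S : ι → B) (γ : A.ValueGroup) : nA A S ≤ γ ↔ ∀ a, A.valuation (S a) ≤ γ :=
  ⟨fun h a => (val_le_nA A S a).trans h, fun h => Finset.sup_le fun a _ => h a⟩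

theorem nA_attained [Nonempty ι] (S : ι → B) : ∃ a, nA A S = A.valuation (S a) := by
  obtain ⟨a, -, h⟩ := Finset.exists_mem_eq_sup Finset.univ Finset.univ_nonempty
    (fun a => A.valuation (S a))
  exact ⟨a, h⟩

theorem nA_eq_zero (S : ι → B) : nA A S = 0 ↔ S = 0 := by
  constructor
  · intro h
    funext a
    have h1 : A.valuation (S a) ≤ 0 := h ▸ val_le_nA A S a
    exact (map_eq_zero A.valuation).mp (le_antisymm h1 zero_le)
  · rintro rfl
    refine le_antisymm ((nA_le_iff A _ _).mpr fun a => ?_) zero_le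
    simp

theorem nA_zero : nA A (0 : ι → B) = 0 :=
  (nA_eq_zero A 0).mpr rfl

theorem nA_add (S T : ι → B) : nA A (S + T) ≤ max (nA A S) (nA A T) :=
  (nA_le_iff A _ _).mpr fun a =>
    (A.valuation.map_add (S a) (T a)).trans (max_le_max (val_le_nA A S a) (val_le_nA A T a))

theorem nA_smul (c : B) (S : ι → B) : nA A (fun a => c * S a) = A.valuation c * nA A S := by
  rcases isEmpty_or_nonempty ι with hι | hι
  · have h1 : nA A (fun a => c * S a) = 0 := (nA_eq_zero A _).mpr (Subsingleton.elim _ _)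
    have h2 : nA A S = 0 := (nA_eq_zero A _).mpr (Subsingleton.elim _ _)
    rw [h1, h2, mul_zero]
  · refine le_antisymm ((nA_le_iff A _ _).mpr fun a => ?_) ?_
    · rw [map_mul]
      exact mul_le_mul' le_rfl (val_le_nA A S a)
    · obtain ⟨a, ha⟩ := nA_attained A S
      rw [ha, ← map_mul]
      exact val_le_nA A (fun a => c * S a) a

theorem nA_mul (S : ι → B) (T : κ → B) :
    nA A (fun p : ι × κ => S p.1 * T p.2) = nA A S * nA A T := by
  rcases isEmpty_or_nonempty ι with hι | hι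
  · have h1 : nA A (fun p : ι × κ => S p.1 * T p.2) = 0 :=
      (nA_eq_zero A _).mpr (Subsingleton.elim _ _)
    have h2 : nA A S = 0 := (nA_eq_zero A _).mpr (Subsingleton.elim _ _)
    rw [h1, h2, zero_mul]
  rcases isEmpty_or_nonempty κ with hκ | hκ
  · have h1 : nA A (fun p : ι × κ => S p.1 * T p.2) = 0 :=
      (nA_eq_zero A _).mpr (Subsingleton.elim _ _)
    have h2 : nA A T = 0 := (nA_eq_zero A _).mpr (Subsingleton.elim _ _)
    rw [h1, h2, mul_zero]
  refine le_antisymm ((nA_le_iff A _ _).mpr fun p => ?_) ?_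
  · rw [map_mul]
    exact mul_le_mul' (val_le_nA A S p.1) (val_le_nA A T p.2)
  · obtain ⟨a, ha⟩ := nA_attained A S
    obtain ⟨b, hb⟩ := nA_attained A T
    rw [ha, hb, ← map_mul]
    exact val_le_nA A (fun p : ι × κ => S p.1 * T p.2) (a, b)

theorem nA_pi {α : Type*} [Fintype α] [DecidableEq α] {ι : α → Type*} [∀ a, Fintype (ι a)] (S : ∀ a, ι a → B) :
    nA A (fun p : ∀ a, ι a => ∏ a, S a (p a)) = ∏ a, nA A (S a) := by
  by_cases hne : ∀ a, Nonempty (ι a)
  · refine le_antisymm ((nA_le_iff A _ _).mpr fun p => ?_) ?_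
    · rw [map_prod]
      exact Finset.prod_le_prod' fun a _ => val_le_nA A (S a) (p a)
    · choose p hp using fun a => nA_attained A (S a)
      rw [Finset.prod_congr rfl fun a _ => hp a, ← map_prod]
      exact val_le_nA A (fun p : ∀ a, ι a => ∏ a, S a (p a)) p
  · push Not at hne
    obtain ⟨a, ha⟩ := hne
    have h1 : IsEmpty (∀ a, ι a) := ⟨fun p => ha.false (p a)⟩
    have h2 : nA A (fun p : ∀ a, ι a => ∏ a, S a (p a)) = 0 :=
      (nA_eq_zero A _).mpr (Subsingleton.elim _ _)
    have h3 : nA A (S a) = 0 := (nA_eq_zero A _).mpr (Subsingleton.elim _ _)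
    rw [h2]
    exact (Finset.prod_eq_zero (Finset.mem_univ a) h3).symm

theorem nA_comp_le (f : ι → κ) (S : κ → B) : nA A (fun a => S (f a)) ≤ nA A S :=
  (nA_le_iff A _ _).mpr fun a => val_le_nA A S (f a)

theorem nA_comp_eq (f : ι → κ) (hf : Function.Surjective f) (S : κ → B) : nA A (fun a => S (f a)) = nA A S := by
  refine le_antisymm (nA_comp_le A f S) ((nA_le_iff A _ _).mpr fun b => ?_)
  obtain ⟨a, rfl⟩ := hf b
  exact val_le_nA A (fun a => S (f a)) a

end

end Pool.Agent.Lib.MP_17a322_nt.FQ
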