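import Pool.Agent.Lib.MP_17a322_nt.FQ.K0
import Pool.Agent.Lib.MP_17a322_nt.EQ.Defs

/-!
Heights on ultrapowers, degrees of spaces of derivations: definitions.
-/

universe u

namespace Pool.Agent.Lib.MP_17a322_nt.FQ

open Height NumberField

/-- The valuation rings of `B` which contain the image of `k`. -/
abbrev VR (k B : Type*) [Field k] [Field B] [Algebra k B] :=
  {A : ValuationSubring B // ∀ c : k, algebraMap k B c ∈ A}

/-- The maximum of the absolute values of the elements of the family `S`. -/
noncomputable def nA {B : Type*} [Field B] (A : ValuationSubring B) {ι : Type*} [Fintype ι] (S : ι → B) :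
    A.ValueGroup :=
  Finset.univ.sup fun a => A.valuation (S a)

/-- The field `B` consists of the classes of the sequences in `k`, modulo the ultrafilter `U`, whose
heights are bounded by multiples of `h`. -/
structure Evl (k B : Type u) [Field k] [NumberField k] [Field B] [Algebra k B] (I : Type) where
  U : Ultrafilter I
  h : I → ℝ
  top : Filter.Tendsto h (U : Filter I) Filter.atTop
  ev : B → I → k
  add : ∀ x y, ∀ᶠ i in (U : Filter I), ev (x + y) i = ev x i + ev y i
  mul : ∀ x y, ∀ᶠ i in (U : Filter I), ev (x * y) i = ev x i * ev y i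
  alg : ∀ c : k, ∀ᶠ i in (U : Filter I), ev (algebraMap k B c) i = c
  bdd : ∀ x, ∃ C : ℝ, ∀ᶠ i in (U : Filter I), logHeight₁ (ev x i) ≤ C * h i
  surj : ∀ s : I → k, (∃ C : ℝ, ∀ᶠ i in (U : Filter I), logHeight₁ (s i) ≤ C * h i) →
    ∃ x, ∀ᶠ i in (U : Filter I), ev x i = s i

section

variable {k B : Type u} [Field k] [NumberField k] [Field B] [Algebra k B] {I : Type}

/-- The limit of the heights of the values of the family `S`, divided by `h`. -/
noncomputable def Evl.lm (X : Evl k B I) {ι : Type*} (S : ι → B) : ℝ :=
  Filter.limUnder (X.U : Filter I) fun i => logHeight (fun a => X.ev (S a) i) / X.h i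

end

section

variable {E : Type*} [Field E] {κ ρ : Type*}

/-- The Pluecker coordinates of a subspace of `E ^ κ`. -/
noncomputable def plu [Finite κ] (L : Submodule E (κ → E)) (s : Fin (Module.finrank E L) → κ) : E :=
  (Matrix.of fun a b => ((Module.finBasis E L a : L) : κ → E) (s b)).det

/-- The linear combination of the vectors `P j` with the coefficients `x j` in an extension field. -/
noncomputable def lin {B : Type*} [Field B] [Algebra E B] [Fintype ρ] (P : ρ → κ → E) (x : ρ → B) :
    κ → B :=
  fun a => ∑ j, x j * algebraMap E B (P j a)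

end

section

variable {k B : Type u} [Field k] [NumberField k] [Field B] [Algebra k B] {I : Type}
variable {E : Type*} [Field E] [Algebra E B] {κ : Type*}

/-- The height of a subspace of `E ^ κ`: the height of its Pluecker coordinates. -/
noncomputable def Evl.lPl [Finite κ] (X : Evl k B I) (L : Submodule E (κ → E)) : ℝ :=
  X.lm fun s => algebraMap E B (plu L s)

end

end Pool.Agent.Lib.MP_17a322_nt.FQ
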