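import Pool.Agent.Lib.MP_17a322_nt.FQ.I1

universe u v

namespace Pool.Agent.Lib.MP_17a322_nt.FQ

variable {k : Type v} {E : Type u} [Field k] [Field E] [Algebra k E] {ι : Type} [Fintype ι]
  [DecidableEq ι]

/-- The field of the elements of `E` which are killed by all elements of `F`. -/
def cst (F : Submodule E (Derivation k E E)) : IntermediateField k E where
  carrier := {f | ∀ v ∈ F, v f = 0}
  mul_mem' {a b} ha hb v hv := by
    rw [Derivation.leibniz, ha v hv, hb v hv, smul_zero, smul_zero, add_zero]
  one_mem' v _ := v.map_one_eq_zero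
  add_mem' {a b} ha hb v hv := by rw [map_add, ha v hv, hb v hv, add_zero]
  zero_mem' v _ := map_zero v
  algebraMap_mem' c v _ := v.map_algebraMap c
  inv_mem' a ha v hv := by
    rw [Derivation.leibniz_inv, ha v hv, smul_zero]

/-- The vector of the iterated derivatives of the functions `μ i`. -/
def cv (μ : ι → E) (l : List (Derivation k E E)) : ι → E := fun i => itd l (μ i)

/-- The span of the vectors of the iterated derivatives of order at most `n`. -/
def Wn {r : ℕ} (D : Fin r → Derivation k E E) (μ : ι → E) (n : ℕ) : Submodule E (ι → E) :=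
  Submodule.span E {c | ∃ l : List (Fin r), l.length ≤ n ∧ c = cv μ (l.map D)}

/-- The evaluation at `f`. -/
private def G1_ev (F : Submodule E (Derivation k E E)) (f : E) : F →ₗ[E] E where
  toFun v := (v : Derivation k E E) f
  map_add' _ _ := rfl
  map_smul' _ _ := rfl

private theorem G1_exists_x [FiniteDimensional E (Derivation k E E)]
    (F : Submodule E (Derivation k E E)) :
    ∃ x : Fin (Module.finrank E F) → E, ∀ v : F, (∀ i, (v : Derivation k E E) (x i) = 0) → v = 0 := by
  classical
  set S : Set (Module.Dual E F) := Set.range (G1_ev F) with hS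
  have hsep : ∀ v : F, (∀ f : E, (v : Derivation k E E) f = 0) → v = 0 := by
    intro v hv
    apply Subtype.ext
    ext f
    exact hv f
  have hspan : Submodule.span E S = ⊤ := by
    have h1 : (Submodule.span E S).dualCoannihilator = ⊥ := by
      rw [eq_bot_iff]
      intro v hv
      rw [Submodule.mem_bot]
      apply hsep
      intro f
      rw [Submodule.mem_dualCoannihilator] at hv
      exact hv (G1_ev F f) (Submodule.subset_span ⟨f, rfl⟩)
    have h2 := Subspace.dualCoannihilator_dualAnnihilator_eq (W := Submodule.span E S)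
    rw [h1, Submodule.dualAnnihilator_bot] at h2
    exact h2.symm
  obtain ⟨b, hbS, hbspan, hli⟩ := exists_linearIndependent E S
  let B₀ : Module.Basis b E (Module.Dual E F) := Module.Basis.mk hli (by
    rw [Subtype.range_coe, hbspan, hspan])
  have : Fintype b := Module.Basis.fintypeIndexOfRankLtAleph0 B₀ (Module.rank_lt_aleph0 E _)
  have hcard : Fintype.card b = Module.finrank E F := by
    rw [← Module.finrank_eq_card_basis B₀, Subspace.dual_finrank_eq]
  let e : b ≃ Fin (Module.finrank E F) := Fintype.equivFinOfCardEq hcard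
  have hx : ∀ i : Fin (Module.finrank E F), ∃ f : E, G1_ev F f = (e.symm i : Module.Dual E F) := fun i =>
    hbS (e.symm i).2
  choose x hx using hx
  refine ⟨x, fun v hv => hsep v fun f => ?_⟩
  have h1 : G1_ev F f ∈ Submodule.span E b := by
    rw [hbspan, hspan]
    trivial
  have h2 : ∀ φ ∈ Submodule.span E b, φ v = 0 := by
    intro φ hφ
    refine Submodule.span_induction (p := fun φ _ => φ v = 0) ?_ ?_ ?_ ?_ hφ
    · intro φ hφ
      have h3 := hx (e ⟨φ, hφ⟩)
      rw [Equiv.symm_apply_apply] at h3
      have h4 := hv (e ⟨φ, hφ⟩)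
      rw [← show G1_ev F (x (e ⟨φ, hφ⟩)) v = (v : Derivation k E E) (x (e ⟨φ, hφ⟩)) from rfl, h3] at h4
      exact h4
    · rfl
    · intro φ ψ _ _ h3 h4
      rw [LinearMap.add_apply, h3, h4, add_zero]
    · intro c φ _ h3
      rw [LinearMap.smul_apply, h3, smul_zero]
  exact h2 _ h1

/-- A commuting basis of a subspace which is closed under brackets. -/
theorem exists_comm [FiniteDimensional E (Derivation k E E)] (F : Submodule E (Derivation k E E))
    (hF : ∀ v ∈ F, ∀ w ∈ F, ⁅v, w⁆ ∈ F) :
    ∃ (x : Fin (Module.finrank E F) → E) (D : Fin (Module.finrank E F) → Derivation k E E),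
      (∀ i, D i ∈ F) ∧ (∀ i j, D i (x j) = if i = j then 1 else 0) ∧ (∀ i j, ⁅D i, D j⁆ = 0) ∧
        (∀ v ∈ F, v = ∑ i, v (x i) • D i) ∧ Submodule.span E (Set.range D) = F := by
  classical
  obtain ⟨x, hx⟩ := G1_exists_x F
  let T : F →ₗ[E] (Fin (Module.finrank E F) → E) := LinearMap.pi fun i => G1_ev F (x i)
  have hT : Function.Injective T := by
    rw [injective_iff_map_eq_zero]
    intro v hv
    exact hx v fun i => congrFun hv i
  let T' : F ≃ₗ[E] (Fin (Module.finrank E F) → E) := LinearEquiv.ofInjectiveOfFinrankEq T hT (by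
    rw [Module.finrank_fin_fun])
  have hT' : ∀ v : F, ∀ i, T' v i = (v : Derivation k E E) (x i) := fun v i => rfl
  let D : Fin (Module.finrank E F) → Derivation k E E := fun i => (T'.symm (Pi.single i 1) : F)
  have hDF : ∀ i, D i ∈ F := fun i => (T'.symm (Pi.single i 1)).2
  have hDx : ∀ i j, D i (x j) = if i = j then 1 else 0 := by
    intro i j
    have h1 : D i (x j) = T' (T'.symm (Pi.single i 1)) j := rfl
    rw [h1, LinearEquiv.apply_symm_apply, Pi.single_apply]
    by_cases h : i = j
    · rw [if_pos h, if_pos h.symm]
    · rw [if_neg h, if_neg (Ne.symm h)]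
  have hv : ∀ v ∈ F, v = ∑ i, v (x i) • D i := by
    intro v hvF
    have hs : ∑ i, v (x i) • D i ∈ F := Submodule.sum_mem _ fun i _ => F.smul_mem _ (hDF i)
    have h1 : (⟨v - ∑ i, v (x i) • D i, F.sub_mem hvF hs⟩ : F) = 0 := by
      apply hx
      intro j
      change (v - ∑ i, v (x i) • D i) (x j) = 0
      have h2 : (∑ i, v (x i) • D i) (x j) = ∑ i, v (x i) * D i (x j) := by
        have h3 := map_sum (Derivation.coeFnAddMonoidHom (R := k) (A := E) (M := E)) (fun i => v (x i) • D i)
          Finset.univ
        have h4 := congrFun h3 (x j)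
        rw [Finset.sum_apply] at h4
        exact h4
      rw [Derivation.sub_apply, h2, Finset.sum_eq_single j]
      · rw [hDx j j, if_pos rfl, mul_one, sub_self]
      · intro i _ hij
        rw [hDx i j, if_neg hij, mul_zero]
      · intro h
        exact absurd (Finset.mem_univ j) h
    exact sub_eq_zero.1 (congrArg Subtype.val h1)
  refine ⟨x, D, hDF, hDx, ?_, hv, ?_⟩
  · intro i j
    have h1 : (⟨⁅D i, D j⁆, hF _ (hDF i) _ (hDF j)⟩ : F) = 0 := by
      apply hx
      intro l
      change ⁅D i, D j⁆ (x l) = 0
      rw [Derivation.commutator_apply, hDx, hDx]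
      have h2 : ∀ (v : Derivation k E E) (P : Prop) [Decidable P], v (if P then 1 else 0) = 0 := by
        intro v P _
        by_cases h : P
        · rw [if_pos h, v.map_one_eq_zero]
        · rw [if_neg h, map_zero]
      rw [h2, h2, sub_zero]
    exact congrArg Subtype.val h1
  · apply le_antisymm
    · rw [Submodule.span_le]
      rintro _ ⟨i, rfl⟩
      exact hDF i
    · intro v hvF
      rw [hv v hvF]
      exact Submodule.sum_mem _ fun i _ => Submodule.smul_mem _ _ (Submodule.subset_span ⟨i, rfl⟩)

private theorem G1_span_kill {r : ℕ} (D : Fin r → Derivation k E E) (f : E) (h : ∀ j, D j f = 0)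
    (v : Derivation k E E) (hv : v ∈ Submodule.span E (Set.range D)) : v f = 0 := by
  refine Submodule.span_induction (p := fun v _ => v f = 0) ?_ ?_ ?_ ?_ hv
  · rintro _ ⟨j, rfl⟩
    exact h j
  · rfl
  · intro v w _ _ h1 h2
    rw [Derivation.add_apply, h1, h2, add_zero]
  · intro c v _ h1
    rw [Derivation.smul_apply, h1, smul_zero]

/-- The Wronskian criterion. -/
theorem wronskian (F : Submodule E (Derivation k E E)) {r : ℕ} (D : Fin r → Derivation k E E)
    (hD : Submodule.span E (Set.range D) = F) (μ : ι → E) (hμ : LinearIndependent (cst F) μ)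
    (a : ι → E) (h : ∀ l : List (Fin r), ∑ i, a i * itd (l.map D) (μ i) = 0) : a = 0 := by
  classical
  have key : ∀ (n : ℕ) (a : ι → E), (Finset.univ.filter fun i => a i ≠ 0).card = n →
      (∀ l : List (Fin r), ∑ i, a i * itd (l.map D) (μ i) = 0) → a = 0 := by
    intro n
    induction n using Nat.strong_induction_on with
    | _ n ih =>
      intro a hn ha
      by_contra hne
      obtain ⟨i₀, hi₀⟩ := Function.ne_iff.1 hne
      rw [Pi.zero_apply] at hi₀
      set b : ι → E := fun i => (a i₀)⁻¹ * a i with hb
      have hb0 : b i₀ = 1 := inv_mul_cancel₀ hi₀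
      have hbs : ∀ i, b i ≠ 0 ↔ a i ≠ 0 := by
        intro i
        simp only [hb]
        constructor
        · exact fun h1 h2 => h1 (by rw [h2, mul_zero])
        · exact fun h1 => mul_ne_zero (inv_ne_zero hi₀) h1
      have hbr : ∀ l : List (Fin r), ∑ i, b i * itd (l.map D) (μ i) = 0 := by
        intro l
        have h1 := ha l
        have h2 : ∑ i, b i * itd (l.map D) (μ i) = (a i₀)⁻¹ * ∑ i, a i * itd (l.map D) (μ i) := by
          rw [Finset.mul_sum]
          apply Finset.sum_congr rfl
          intro i _
          simp only [hb]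
          ring
        rw [h2, h1, mul_zero]
      have hDb : ∀ j i, D j (b i) = 0 := by
        intro j
        have h1 : (fun i => D j (b i)) = 0 := by
          refine ih _ ?_ (fun i => D j (b i)) rfl ?_
          · rw [← hn]
            apply Finset.card_lt_card
            rw [Finset.ssubset_iff_of_subset]
            · refine ⟨i₀, ?_, ?_⟩
              · rw [Finset.mem_filter]
                exact ⟨Finset.mem_univ _, hi₀⟩
              · rw [Finset.mem_filter]
                rintro ⟨_, h2⟩
                exact h2 (by rw [hb0, (D j).map_one_eq_zero])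
            · intro i hi
              rw [Finset.mem_filter] at hi ⊢
              refine ⟨hi.1, fun h2 => hi.2 ?_⟩
              have h3 : b i = 0 := by
                by_contra h4
                exact (hbs i).1 h4 h2
              rw [h3, map_zero]
          · intro l
            have h2 := hbr (j :: l)
            have h3 := congrArg (D j) (hbr l)
            rw [map_sum, map_zero] at h3
            have h4 : ∑ i, D j (b i * itd (l.map D) (μ i)) =
                ∑ i, b i * itd ((j :: l).map D) (μ i) + ∑ i, D j (b i) * itd (l.map D) (μ i) := by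
              rw [← Finset.sum_add_distrib]
              apply Finset.sum_congr rfl
              intro i _
              rw [Derivation.leibniz, smul_eq_mul, smul_eq_mul]
              have h5 : itd ((j :: l).map D) (μ i) = D j (itd (l.map D) (μ i)) := rfl
              rw [h5]
              ring
            rw [h4, h2, zero_add] at h3
            exact h3
        intro i
        exact congrFun h1 i
      have hbc : ∀ i, b i ∈ cst F := by
        intro i v hv
        rw [← hD] at hv
        exact G1_span_kill D (b i) (fun j => hDb j i) v hv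
      have h1 := hbr []
      have h2 := Fintype.linearIndependent_iff.1 hμ (fun i => ⟨b i, hbc i⟩) (by
        rw [← h1]
        apply Finset.sum_congr rfl
        intro i _
        rfl) i₀
      have h3 : b i₀ = 0 := congrArg Subtype.val h2
      rw [hb0] at h3
      exact one_ne_zero h3
  exact key _ a rfl h

/-- The spaces increase. -/
theorem Wn_mono {r : ℕ} (D : Fin r → Derivation k E E) (μ : ι → E) : Monotone (Wn D μ) := by
  intro n n' h
  apply Submodule.span_mono
  rintro c ⟨l, hl, hc⟩
  exact ⟨l, hl.trans h, hc⟩

private theorem G1_der {r : ℕ} (D : Fin r → Derivation k E E) (μ : ι → E) (n : ℕ) (c : ι → E)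
    (hc : c ∈ Wn D μ n) (j : Fin r) : (fun i => D j (c i)) ∈ Wn D μ (n + 1) := by
  refine Submodule.span_induction (p := fun c _ => (fun i => D j (c i)) ∈ Wn D μ (n + 1)) ?_ ?_ ?_ ?_ hc
  · rintro c ⟨l, hl, rfl⟩
    apply Submodule.subset_span
    exact ⟨j :: l, Nat.succ_le_succ hl, rfl⟩
  · have h1 : (fun i => D j ((0 : ι → E) i)) = 0 := by
      funext i
      rw [Pi.zero_apply, map_zero]
    rw [h1]
    exact Submodule.zero_mem _
  · intro c c' _ _ h1 h2
    have h3 : (fun i => D j ((c + c') i)) = (fun i => D j (c i)) + fun i => D j (c' i) := by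
      funext i
      rw [Pi.add_apply, map_add]
      rfl
    rw [h3]
    exact Submodule.add_mem _ h1 h2
  · intro e c hc h1
    have h3 : (fun i => D j ((e • c) i)) = e • (fun i => D j (c i)) + D j e • c := by
      funext i
      change D j (e * c i) = e * D j (c i) + D j e * c i
      rw [Derivation.leibniz, smul_eq_mul, smul_eq_mul, mul_comm (c i)]
    rw [h3]
    exact Submodule.add_mem _ (Submodule.smul_mem _ _ h1)
      (Submodule.smul_mem _ _ (Wn_mono D μ (Nat.le_succ n) hc))

/-- Derivatives raise the order by one. -/
theorem Wn_der {r : ℕ} (D : Fin r → Derivation k E E) (μ : ι → E) (n : ℕ) (c : ι → E)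
    (hc : c ∈ Wn D μ n) (v : Derivation k E E) (hv : v ∈ Submodule.span E (Set.range D)) :
    (fun i => v (c i)) ∈ Wn D μ (n + 1) := by
  refine Submodule.span_induction (p := fun v _ => (fun i => v (c i)) ∈ Wn D μ (n + 1)) ?_ ?_ ?_ ?_ hv
  · rintro _ ⟨j, rfl⟩
    exact G1_der D μ n c hc j
  · exact Submodule.zero_mem _
  · intro v w _ _ h1 h2
    exact Submodule.add_mem _ h1 h2
  · intro e v _ h1
    exact Submodule.smul_mem _ e h1

/-- Iterated derivatives raise the order by the length of the list. -/
theorem Wn_itd {r : ℕ} (D : Fin r → Derivation k E E) (μ : ι → E) (n : ℕ) (c : ι → E)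
    (hc : c ∈ Wn D μ n) (l : List (Derivation k E E))
    (hl : ∀ v ∈ l, v ∈ Submodule.span E (Set.range D)) :
    (fun i => itd l (c i)) ∈ Wn D μ (n + l.length) := by
  induction l with
  | nil => exact hc
  | cons v l ih =>
    have h1 := ih fun w hw => hl w (List.mem_cons_of_mem v hw)
    exact Wn_der D μ _ _ h1 v (hl v List.mem_cons_self)

/-- Scaling of the functions changes the iterated derivatives by terms of lower order. -/
theorem Wn_smul {r : ℕ} (D : Fin r → Derivation k E E) (μ : ι → E) (n : ℕ) (c : ι → E)
    (hc : c ∈ Wn D μ n) (e : E) (v : Derivation k E E) (l : List (Derivation k E E))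
    (hl : ∀ w ∈ v :: l, w ∈ Submodule.span E (Set.range D)) :
    (fun i => itd (v :: l) (e * c i) - e * itd (v :: l) (c i)) ∈ Wn D μ (n + l.length) := by
  induction l generalizing v with
  | nil =>
    have h1 : (fun i => itd [v] (e * c i) - e * itd [v] (c i)) = v e • c := by
      funext i
      change v (e * c i) - e * v (c i) = v e * c i
      rw [Derivation.leibniz, smul_eq_mul, smul_eq_mul]
      ring
    rw [h1]
    exact Submodule.smul_mem _ _ hc
  | cons w l ih =>
    have h1 := ih w fun w' hw' => hl w' (List.mem_cons_of_mem v hw')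
    have h2 := Wn_der D μ _ _ h1 v (hl v List.mem_cons_self)
    have h3 := Wn_itd D μ n c hc (w :: l) fun w' hw' => hl w' (List.mem_cons_of_mem v hw')
    have h4 : (fun i => itd (v :: w :: l) (e * c i) - e * itd (v :: w :: l) (c i)) =
        (fun i => v (itd (w :: l) (e * c i) - e * itd (w :: l) (c i))) +
          v e • fun i => itd (w :: l) (c i) := by
      funext i
      change v (itd (w :: l) (e * c i)) - e * v (itd (w :: l) (c i)) =
        v (itd (w :: l) (e * c i) - e * itd (w :: l) (c i)) + v e * itd (w :: l) (c i)
      rw [map_sub, Derivation.leibniz, smul_eq_mul, smul_eq_mul]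
      ring
    rw [h4]
    exact Submodule.add_mem _ h2 (Submodule.smul_mem _ _ h3)

private theorem G1_perm {r : ℕ} (D : Fin r → Derivation k E E) (hcomm : ∀ i j, ⁅D i, D j⁆ = 0)
    {l l' : List (Fin r)} (h : l.Perm l') (f : E) : itd (l.map D) f = itd (l'.map D) f := by
  induction h with
  | nil => rfl
  | cons a _ ih =>
    change D a _ = D a _
    exact congrArg (D a) ih
  | swap a b l =>
    change D b (D a (itd (l.map D) f)) = D a (D b (itd (l.map D) f))
    have h1 := congrArg (fun v : Derivation k E E => v (itd (l.map D) f)) (hcomm b a)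
    simp only [Derivation.commutator_apply] at h1
    exact sub_eq_zero.1 h1
  | trans _ _ ih1 ih2 => exact ih1.trans ih2

/-- The dimension of the spaces, if the derivations commute. -/
theorem Wn_finrank {r : ℕ} (D : Fin r → Derivation k E E) (hcomm : ∀ i j, ⁅D i, D j⁆ = 0)
    (μ : ι → E) (n : ℕ) : Module.finrank E (Wn D μ n) ≤ (n + 1) ^ r := by
  classical
  let L : (Fin r → Fin (n + 1)) → List (Fin r) := fun a =>
    (List.finRange r).flatMap fun i => List.replicate (a i : ℕ) i
  let φ : (Fin r → Fin (n + 1)) → (ι → E) := fun a => cv μ ((L a).map D)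
  have h1 : Wn D μ n ≤ Submodule.span E (Set.range φ) := by
    apply Submodule.span_mono
    rintro c ⟨l, hl, rfl⟩
    refine ⟨fun i => ⟨l.count i, Nat.lt_succ_of_le (List.count_le_length.trans hl)⟩, ?_⟩
    have h2 : l.Perm (L fun i => ⟨l.count i, Nat.lt_succ_of_le (List.count_le_length.trans hl)⟩) := by
      rw [List.perm_iff_count]
      intro a
      simp only [L, List.count_flatMap]
      have h3 : ∀ i : Fin r, List.count a (List.replicate (l.count i) i) = if i = a then l.count a else 0 := by
        intro i
        rw [List.count_replicate]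
        by_cases h : i = a
        · subst h
          simp
        · simp [h]
      have h4 : (List.map (List.count a ∘ fun i => List.replicate (l.count i) i) (List.finRange r)).sum =
          ∑ i : Fin r, (if i = a then l.count a else 0) := by
        rw [← List.sum_ofFn, List.ofFn_eq_map]
        congr 1
        apply List.map_congr_left
        intro i _
        exact h3 i
      rw [h4, Finset.sum_ite_eq' Finset.univ a, if_pos (Finset.mem_univ a)]
    funext i
    exact (G1_perm D hcomm h2 (μ i)).symm
  refine (Submodule.finrank_mono h1).trans ((finrank_range_le_card φ).trans (le_of_eq ?_))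
  rw [Fintype.card_fun, Fintype.card_fin, Fintype.card_fin]

/-- The spaces exhaust the whole space. -/
theorem Wn_top (F : Submodule E (Derivation k E E)) {r : ℕ} (D : Fin r → Derivation k E E)
    (hD : Submodule.span E (Set.range D) = F) (μ : ι → E) (hμ : LinearIndependent (cst F) μ) :
    ∃ J, Wn D μ J = ⊤ := by
  obtain ⟨J, hJ⟩ := monotone_stabilizes_iff_noetherian.2 (inferInstance : IsNoetherian E (ι → E))
    ⟨Wn D μ, Wn_mono D μ⟩
  refine ⟨J, ?_⟩
  by_contra hne
  obtain ⟨φ, hφ0, hφ⟩ := Submodule.exists_le_ker_of_lt_top (Wn D μ J) (lt_top_iff_ne_top.2 hne)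
  have h1 : ∀ c, φ c = ∑ i, φ (Pi.single i 1) * c i := by
    intro c
    rw [LinearMap.pi_apply_eq_sum_univ φ c]
    apply Finset.sum_congr rfl
    intro i _
    rw [smul_eq_mul, mul_comm]
    congr 2
    funext j
    rw [Pi.single_apply]
    by_cases h : i = j
    · rw [if_pos h, if_pos h.symm]
    · rw [if_neg h, if_neg (Ne.symm h)]
  have h2 : (fun i => φ (Pi.single i 1)) = 0 := by
    apply wronskian F D hD μ hμ
    intro l
    have h3 : cv μ (l.map D) ∈ Wn D μ (max J l.length) :=
      Submodule.subset_span ⟨l, le_max_right _ _, rfl⟩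
    have h4 : Wn D μ J = Wn D μ (max J l.length) := hJ _ (le_max_left _ _)
    rw [← h4] at h3
    have h5 : φ (cv μ (l.map D)) = 0 := hφ h3
    rw [h1] at h5
    exact h5
  apply hφ0
  apply LinearMap.ext
  intro c
  rw [h1, LinearMap.zero_apply]
  apply Finset.sum_eq_zero
  intro i _
  have h3 : φ (Pi.single i 1) = 0 := congrFun h2 i
  rw [h3, zero_mul]

end Pool.Agent.Lib.MP_17a322_nt.FQ
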