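import Pool.Agent.Lib.MP_17a322_nt.FQ.G1

/-!
Determinants of iterated derivatives.
-/

universe u v

set_option linter.unusedSectionVars false

namespace Pool.Agent.Lib.MP_17a322_nt.FQ

variable {k : Type v} {E : Type u} [Field k] [Field E] [Algebra k E] {ι : Type} [Fintype ι]
  [DecidableEq ι]

theorem G2_ext {X V : Type*} [AddCommGroup V] [Module E V] (f : X → V) (len : X → ℕ) (J : ℕ) :
    ∃ S : Set X, LinearIndepOn E f S ∧ S ⊆ {l | len l ≤ J} ∧
      ∀ n ≤ J, f '' {l | len l ≤ n} ⊆ Submodule.span E (f '' (S ∩ {l | len l ≤ n})) := by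
  induction J with
  | zero =>
    obtain ⟨S, hS, _, h1, h2⟩ := exists_linearIndepOn_extension (K := E) (v := f) (s := ∅)
      (t := {l | len l ≤ 0}) (linearIndepOn_empty E f) (Set.empty_subset _)
    refine ⟨S, h2, hS, fun n hn => ?_⟩
    have hn0 : n = 0 := Nat.le_zero.1 hn
    subst hn0
    rw [Set.inter_eq_left.2 hS]
    exact h1
  | succ J ih =>
    obtain ⟨S₀, hS₀, hS₀', h0⟩ := ih
    obtain ⟨S, hS, hSS, h1, h2⟩ := exists_linearIndepOn_extension (K := E) (v := f) (s := S₀)
      (t := {l | len l ≤ J + 1}) hS₀ (fun l hl => (hS₀' hl).trans (Nat.le_succ J))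
    refine ⟨S, h2, hS, fun n hn => ?_⟩
    rcases Nat.lt_or_ge n (J + 1) with h | h
    · refine (h0 n (Nat.lt_succ_iff.1 h)).trans ?_
      exact Submodule.span_mono (Set.image_mono (Set.inter_subset_inter_left _ hSS))
    · have hn0 : n = J + 1 := le_antisymm hn h
      subst hn0
      rw [Set.inter_eq_left.2 hS]
      exact h1

/-- A basis of iterated derivatives adapted to the order. -/
theorem exists_words {r : ℕ} (D : Fin r → Derivation k E E) (μ : ι → E)
    (hJ : ∃ J, Wn D μ J = ⊤) :
    ∃ w : ι → List (Fin r), LinearIndependent E (fun b => cv μ ((w b).map D)) ∧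
      ∀ n, Wn D μ n = Submodule.span E {c | ∃ b, (w b).length ≤ n ∧ c = cv μ ((w b).map D)} := by
  obtain ⟨J, hJ⟩ := hJ
  obtain ⟨S, hS, hSJ, h⟩ := G2_ext (E := E) (fun l : List (Fin r) => cv μ (l.map D))
    (fun l => l.length) J
  have hset : ∀ n, Wn D μ n = Submodule.span E
      ((fun l : List (Fin r) => cv μ (l.map D)) '' {l | l.length ≤ n}) := by
    intro n
    unfold Wn
    refine congrArg _ (Set.ext fun c => ?_)
    constructor
    · rintro ⟨l, hl, rfl⟩
      exact ⟨l, hl, rfl⟩
    · rintro ⟨l, hl, rfl⟩
      exact ⟨l, hl, rfl⟩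
  have htop : Submodule.span E ((fun l : List (Fin r) => cv μ (l.map D)) '' S) = ⊤ := by
    rw [← top_le_iff, ← hJ, hset, Submodule.span_le]
    refine (h J le_rfl).trans ?_
    exact Submodule.span_mono (Set.image_mono Set.inter_subset_left)
  have hli : LinearIndependent E (fun l : S => cv μ ((l : List (Fin r)).map D)) := hS
  have hr : Set.range (fun l : S => cv μ ((l : List (Fin r)).map D)) =
      (fun l : List (Fin r) => cv μ (l.map D)) '' S := by
    rw [Set.image_eq_range]
  let B : Module.Basis S E (ι → E) := Module.Basis.mk hli (by rw [hr, htop])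
  let e : ι ≃ S := (Pi.basisFun E ι).indexEquiv B
  refine ⟨fun b => (e b : List (Fin r)), hli.comp e e.injective, fun n => ?_⟩
  refine le_antisymm ?_ ?_
  · rcases Nat.lt_or_ge J n with hn | hn
    · have h1 : Submodule.span E ((fun l : List (Fin r) => cv μ (l.map D)) '' S) ≤
          Submodule.span E {c | ∃ b, ((e b : List (Fin r))).length ≤ n ∧
            c = cv μ ((e b : List (Fin r)).map D)} := by
        refine Submodule.span_mono ?_
        rintro _ ⟨l, hl, rfl⟩
        refine ⟨e.symm ⟨l, hl⟩, ?_, ?_⟩
        · rw [Equiv.apply_symm_apply]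
          exact (hSJ hl).trans hn.le
        · rw [Equiv.apply_symm_apply]
      rw [htop] at h1
      exact le_top.trans h1
    · rw [hset, Submodule.span_le]
      refine (h n hn).trans ?_
      refine Submodule.span_mono ?_
      rintro _ ⟨l, ⟨hl, hln⟩, rfl⟩
      refine ⟨e.symm ⟨l, hl⟩, ?_, ?_⟩
      · show (e (e.symm ⟨l, hl⟩) : List (Fin r)).length ≤ n
        rw [Equiv.apply_symm_apply]
        exact hln
      · show cv μ (l.map D) = cv μ ((e (e.symm ⟨l, hl⟩) : List (Fin r)).map D)
        rw [Equiv.apply_symm_apply]
  · unfold Wn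
    refine Submodule.span_mono ?_
    rintro c ⟨b, hb, rfl⟩
    exact ⟨_, hb, rfl⟩

/-- The number of the lists of length at most `n`. -/
theorem card_words {r : ℕ} (D : Fin r → Derivation k E E) (μ : ι → E) (w : ι → List (Fin r))
    (hw : LinearIndependent E (fun b => cv μ ((w b).map D)))
    (hs : ∀ n, Wn D μ n = Submodule.span E {c | ∃ b, (w b).length ≤ n ∧ c = cv μ ((w b).map D)})
    (n : ℕ) :
    Module.finrank E (Wn D μ n) = (Finset.univ.filter fun b => (w b).length ≤ n).card := by
  have h1 : LinearIndependent E
      (fun b : {b // (w b).length ≤ n} => cv μ ((w b.1).map D)) :=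
    hw.comp (Subtype.val : {b // (w b).length ≤ n} → ι) Subtype.val_injective
  have h2 := finrank_span_eq_card h1
  have h3 : Set.range (fun b : {b // (w b).length ≤ n} => cv μ ((w b.1).map D)) =
      {c | ∃ b, (w b).length ≤ n ∧ c = cv μ ((w b).map D)} := by
    ext c
    constructor
    · rintro ⟨⟨b, hb⟩, rfl⟩
      exact ⟨b, hb, rfl⟩
    · rintro ⟨b, hb, rfl⟩
      exact ⟨⟨b, hb⟩, rfl⟩
  rw [h3, ← hs n] at h2
  rw [h2, Fintype.card_subtype]

theorem G2_det_zero (W : Submodule E (ι → E)) (T : Finset ι)
    (hT : Module.finrank E W < T.card) (M : Matrix ι ι E) (hM : ∀ b ∈ T, M b ∈ W) :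
    M.det = 0 := by
  by_contra h0
  have h1 : LinearIndependent E M.row :=
    Matrix.linearIndependent_rows_iff_isUnit.2 ((Matrix.isUnit_iff_isUnit_det M).2
      (isUnit_iff_ne_zero.2 h0))
  have h2 : LinearIndependent E (fun b : T => (⟨M b.1, hM b.1 b.2⟩ : W)) := by
    refine LinearIndependent.of_comp W.subtype ?_
    exact h1.comp (Subtype.val : T → ι) Subtype.val_injective
  have h3 := h2.fintype_card_le_finrank
  rw [Fintype.card_coe] at h3
  omega

/-- Determinants do not change if rows are changed by elements of lower order. -/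
theorem det_congr_rows (W : ℕ → Submodule E (ι → E)) (hW : Monotone W) (j : ι → ℕ)
    (hj : ∀ n, Module.finrank E (W n) ≤ (Finset.univ.filter fun b => j b ≤ n).card)
    (c c' : ι → ι → E) (hc : ∀ b, c b ∈ W (j b))
    (h : ∀ b, c b = c' b ∨ ∃ n, j b = n + 1 ∧ c b - c' b ∈ W n) :
    (Matrix.of c).det = (Matrix.of c').det := by
  have hc' : ∀ b, c' b ∈ W (j b) := by
    intro b
    rcases h b with hb | ⟨n, hn, hb⟩
    · rw [← hb]
      exact hc b
    · have h1 : c b - c' b ∈ W (j b) := hW (by omega) hb
      have h2 := (W (j b)).sub_mem (hc b) h1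
      rwa [sub_sub_cancel] at h2
  have key : ∀ s : Finset ι,
      (Matrix.of fun b => if b ∈ s then c' b else c b).det = (Matrix.of c).det := by
    intro s
    induction s using Finset.induction_on with
    | empty => simp only [Finset.notMem_empty, if_false]
    | insert b₀ s hb₀ ih =>
      rw [← ih]
      set M : Matrix ι ι E := Matrix.of fun b => if b ∈ s then c' b else c b with hMdef
      have hM : ∀ b, M b ∈ W (j b) := by
        intro b
        show (if b ∈ s then c' b else c b) ∈ W (j b)
        split_ifs
        · exact hc' b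
        · exact hc b
      have h1 : (Matrix.of fun b => if b ∈ insert b₀ s then c' b else c b) =
          M.updateRow b₀ (c' b₀) := by
        ext b i
        by_cases hb : b = b₀
        · subst hb
          rw [Matrix.updateRow_self, Matrix.of_apply, if_pos (Finset.mem_insert_self _ _)]
        · rw [Matrix.updateRow_ne hb, Matrix.of_apply, hMdef, Matrix.of_apply]
          simp only [Finset.mem_insert, hb, false_or]
      have h2 : M = M.updateRow b₀ (c b₀) := by
        ext b i
        by_cases hb : b = b₀
        · subst hb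
          rw [Matrix.updateRow_self, hMdef, Matrix.of_apply, if_neg hb₀]
        · rw [Matrix.updateRow_ne hb]
      rw [h1]
      rcases h b₀ with hb | ⟨n, hn, hb⟩
      · rw [← hb, ← h2]
      · have h3 : c b₀ = c' b₀ + (c b₀ - c' b₀) := by abel
        have h4 : (M.updateRow b₀ (c b₀ - c' b₀)).det = 0 := by
          refine G2_det_zero (W n) (insert b₀ (Finset.univ.filter fun b => j b ≤ n)) ?_ _ ?_
          · rw [Finset.card_insert_of_notMem]
            · exact Nat.lt_succ_iff.2 (hj n)
            · intro hmem
              have := (Finset.mem_filter.1 hmem).2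
              omega
          · intro b hbT
            by_cases hbb : b = b₀
            · subst hbb
              rw [Matrix.updateRow_self]
              exact hb
            · rw [Matrix.updateRow_ne hbb]
              rcases Finset.mem_insert.1 hbT with hbT | hbT
              · exact absurd hbT hbb
              · exact hW (Finset.mem_filter.1 hbT).2 (hM b)
        conv_rhs => rw [h2, h3, Matrix.det_updateRow_add, h4, add_zero]
  have h1 := key Finset.univ
  simp only [Finset.mem_univ, if_true] at h1
  exact h1.symm

theorem G2_mem0 {r : ℕ} (D : Fin r → Derivation k E E) (μ : ι → E) : μ ∈ Wn D μ 0 :=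
  Submodule.subset_span ⟨[], le_rfl, rfl⟩

/-- A factor can be taken out of the determinant of the iterated derivatives. -/
theorem det_factor {r : ℕ} (D : Fin r → Derivation k E E) (μ : ι → E)
    (l : ι → List (Derivation k E E))
    (hl : ∀ b, ∀ v ∈ l b, v ∈ Submodule.span E (Set.range D))
    (hj : ∀ n, Module.finrank E (Wn D μ n) ≤
      (Finset.univ.filter fun b => (l b).length ≤ n).card) (h : E) :
    (Matrix.of fun b i => itd (l b) (h * μ i)).det =
      h ^ Fintype.card ι * (Matrix.of fun b i => itd (l b) (μ i)).det := by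
  rw [← Matrix.det_smul]
  have h1 := det_congr_rows (Wn D μ) (Wn_mono D μ) (fun b => (l b).length) hj
    (fun b i => itd (l b) (h * μ i)) (fun b i => h * itd (l b) (μ i)) ?_ ?_
  · rw [h1]
    refine congrArg Matrix.det ?_
    ext b i
    rw [Matrix.smul_apply, Matrix.of_apply, Matrix.of_apply, smul_eq_mul]
  · intro b
    have h2 : (fun i => h * μ i) ∈ Wn D μ 0 := (Wn D μ 0).smul_mem h (G2_mem0 D μ)
    have h3 := Wn_itd D μ 0 (fun i => h * μ i) h2 (l b) (hl b)
    rw [zero_add] at h3
    exact h3
  · intro b
    have hlb := hl b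
    generalize l b = lb at hlb
    cases lb with
    | nil => exact Or.inl rfl
    | cons v l' =>
      refine Or.inr ⟨l'.length, rfl, ?_⟩
      have h3 := Wn_smul D μ 0 μ (G2_mem0 D μ) h v l' hlb
      rw [zero_add] at h3
      exact h3

theorem G2_ofFn {α : Type*} {n : ℕ} (u : Fin n → α) (s : Fin n) :
    ∃ L₁ L₂ : List α, (∀ y, List.ofFn (Function.update u s y) = L₁ ++ y :: L₂) := by
  induction n with
  | zero => exact s.elim0
  | succ n ih =>
    refine Fin.cases ?_ (fun s => ?_) s
    · refine ⟨[], List.ofFn (fun i => u (Fin.succ i)), fun y => ?_⟩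
      rw [List.ofFn_succ, Function.update_self, List.nil_append]
      refine congrArg _ (congrArg _ (funext fun i => ?_))
      rw [Function.update_of_ne (Fin.succ_ne_zero i)]
    · obtain ⟨L₁, L₂, h⟩ := ih (fun i => u (Fin.succ i)) s
      refine ⟨u 0 :: L₁, L₂, fun y => ?_⟩
      rw [List.ofFn_succ, Function.update_of_ne (Fin.succ_ne_zero s).symm, List.cons_append, ← h y]
      refine congrArg _ (congrArg _ (funext fun i => ?_))
      by_cases hi : i = s
      · subst hi
        rw [Function.update_self, Function.update_self]
      · rw [Function.update_of_ne hi, Function.update_of_ne (fun h' => hi (Fin.succ_injective _ h'))]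

theorem G2_itd_append (l l' : List (Derivation k E E)) (f : E) :
    itd (l ++ l') f = itd l (itd l' f) := by
  unfold itd
  rw [List.foldr_append]

theorem G2_itd_cons (v : Derivation k E E) (l : List (Derivation k E E)) (f : E) :
    itd (v :: l) f = v (itd l f) := rfl

theorem G2_itd_add (l : List (Derivation k E E)) (f g : E) :
    itd l (f + g) = itd l f + itd l g := by
  induction l with
  | nil => rfl
  | cons v l ih => rw [G2_itd_cons, G2_itd_cons, G2_itd_cons, ih, map_add]

theorem G2_upd_ne {n : ι → ℕ} {M : Type*} [DecidableEq (Σ b : ι, Fin (n b))]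
    (x : (Σ b : ι, Fin (n b)) → M) {b₀ b : ι} (s₀ : Fin (n b₀)) (y : M) (hb : b ≠ b₀) :
    (fun s : Fin (n b) => Function.update x ⟨b₀, s₀⟩ y ⟨b, s⟩) = fun s => x ⟨b, s⟩ := by
  funext s
  rw [Function.update_of_ne]
  intro h
  exact hb (congrArg Sigma.fst h)

theorem G2_upd_self {n : ι → ℕ} {M : Type*} [DecidableEq (Σ b : ι, Fin (n b))]
    (x : (Σ b : ι, Fin (n b)) → M) {b₀ : ι} (s₀ : Fin (n b₀)) (y : M) :
    (fun s : Fin (n b₀) => Function.update x ⟨b₀, s₀⟩ y ⟨b₀, s⟩) =
      Function.update (fun s => x ⟨b₀, s⟩) s₀ y := by
  funext s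
  by_cases hs : s = s₀
  · subst hs
    rw [Function.update_self, Function.update_self]
  · rw [Function.update_of_ne hs, Function.update_of_ne]
    intro h
    exact hs (by simpa using h)

/-- The determinant is a multilinear form in the derivations. -/
theorem exists_form_det {r : ℕ} (D : Fin r → Derivation k E E) (F : Submodule E (Derivation k E E))
    (hD : Submodule.span E (Set.range D) = F) (μ : ι → E) (w : ι → List (Fin r))
    (hw : LinearIndependent E (fun b => cv μ ((w b).map D)))
    (hs : ∀ n, Wn D μ n = Submodule.span E {c | ∃ b, (w b).length ≤ n ∧ c = cv μ ((w b).map D)}) :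
    ∃ θ : MultilinearMap E (fun _ : (Σ b : ι, Fin (w b).length) => F) E, θ ≠ 0 ∧
      ∀ x, θ x = (Matrix.of fun b i =>
        itd (List.ofFn fun s : Fin (w b).length => (x ⟨b, s⟩ : Derivation k E E)) (μ i)).det := by
  have hj : ∀ n, Module.finrank E (Wn D μ n) ≤
      (Finset.univ.filter fun b => (w b).length ≤ n).card := fun n => (card_words D μ w hw hs n).le
  -- the rows
  have hmap : ∀ {n : ℕ} (u : Fin n → F), (List.ofFn fun s => (u s : Derivation k E E)) =
      (List.ofFn u).map (fun v : F => (v : Derivation k E E)) := by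
    intro n u
    rw [List.map_ofFn]
    rfl
  have hrow : ∀ {n : ℕ} (u : Fin n → F),
      (fun i => itd (List.ofFn fun s => (u s : Derivation k E E)) (μ i)) ∈ Wn D μ n := by
    intro n u
    have h1 := Wn_itd D μ 0 μ (G2_mem0 D μ) (List.ofFn fun s => (u s : Derivation k E E)) ?_
    · rw [List.length_ofFn, zero_add] at h1
      exact h1
    · intro v hv
      obtain ⟨s, rfl⟩ := (List.mem_ofFn' _ _).1 hv
      rw [hD]
      exact (u s).2
  let R : ((Σ b : ι, Fin (w b).length) → F) → ι → ι → E := fun x b i =>
    itd (List.ofFn fun s : Fin (w b).length => (x ⟨b, s⟩ : Derivation k E E)) (μ i)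
  have hupd : ∀ [DecidableEq (Σ b : ι, Fin (w b).length)] (x : (Σ b : ι, Fin (w b).length) → F)
      (b₀ : ι) (s₀ : Fin (w b₀).length) (y : F),
      (Matrix.of (R (Function.update x ⟨b₀, s₀⟩ y)) : Matrix ι ι E) =
        (Matrix.of (R x) : Matrix ι ι E).updateRow b₀ (fun i => itd (List.ofFn fun s =>
          ((Function.update (fun s => x ⟨b₀, s⟩) s₀ y s : F) : Derivation k E E)) (μ i)) := by
    intro _ x b₀ s₀ y
    ext b i
    by_cases hb : b = b₀
    · subst hb
      rw [Matrix.updateRow_self, Matrix.of_apply]
      have h1 := G2_upd_self x s₀ y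
      show itd (List.ofFn fun s => ((Function.update x ⟨b, s₀⟩ y ⟨b, s⟩ : F) :
        Derivation k E E)) (μ i) = _
      have h2 : (fun s => ((Function.update x ⟨b, s₀⟩ y ⟨b, s⟩ : F) : Derivation k E E)) =
          fun s => ((Function.update (fun s => x ⟨b, s⟩) s₀ y s : F) : Derivation k E E) := by
        funext s
        exact congrArg _ (congrFun h1 s)
      rw [h2]
    · rw [Matrix.updateRow_ne hb, Matrix.of_apply, Matrix.of_apply]
      have h1 := G2_upd_ne x s₀ y hb
      show itd (List.ofFn fun s => ((Function.update x ⟨b₀, s₀⟩ y ⟨b, s⟩ : F) :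
        Derivation k E E)) (μ i) = _
      have h2 : (fun s => ((Function.update x ⟨b₀, s₀⟩ y ⟨b, s⟩ : F) : Derivation k E E)) =
          fun s => ((x ⟨b, s⟩ : F) : Derivation k E E) := by
        funext s
        exact congrArg _ (congrFun h1 s)
      rw [h2]
  have hmem : ∀ (x : (Σ b : ι, Fin (w b).length) → F) (b : ι), R x b ∈ Wn D μ (w b).length :=
    fun x b => hrow fun s => x ⟨b, s⟩
  let θ : MultilinearMap E (fun _ : (Σ b : ι, Fin (w b).length) => F) E :=
    { toFun := fun x => (Matrix.of (R x) : Matrix ι ι E).det
      map_update_add' := by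
        rintro inst x ⟨b₀, s₀⟩ y y'
        rw [hupd, hupd, hupd, ← Matrix.det_updateRow_add]
        refine congrArg (fun c => Matrix.det (Matrix.updateRow (Matrix.of (R x)) b₀ c)) ?_
        obtain ⟨L₁, L₂, hL⟩ := G2_ofFn (fun s => x ⟨b₀, s⟩) s₀
        funext i
        rw [Pi.add_apply, hmap, hmap, hmap, hL, hL, hL, List.map_append, List.map_append,
          List.map_append, List.map_cons, List.map_cons, List.map_cons, G2_itd_append,
          G2_itd_append, G2_itd_append, G2_itd_cons, G2_itd_cons, G2_itd_cons, ← G2_itd_add]
        rfl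
      map_update_smul' := by
        rintro inst x ⟨b₀, s₀⟩ e y
        obtain ⟨L₁, L₂, hL⟩ := G2_ofFn (fun s => x ⟨b₀, s⟩) s₀
        have hlen : (w b₀).length = L₁.length + 1 + L₂.length := by
          have h1 := congrArg List.length (hL y)
          rw [List.length_ofFn, List.length_append, List.length_cons] at h1
          omega
        set g : ι → E := fun i => itd (List.ofFn fun s =>
          ((Function.update (fun s => x ⟨b₀, s⟩) s₀ y s : F) : Derivation k E E)) (μ i) with hg
        have hs1 : e • (Matrix.of (R (Function.update x ⟨b₀, s₀⟩ y)) : Matrix ι ι E).det =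
            ((Matrix.of (R x) : Matrix ι ι E).updateRow b₀ (e • g)).det := by
          rw [hupd, Matrix.det_updateRow_smul, smul_eq_mul]
        show (Matrix.of (R (Function.update x ⟨b₀, s₀⟩ (e • y))) : Matrix ι ι E).det = _
        rw [hs1]
        have h2 := det_congr_rows (Wn D μ) (Wn_mono D μ) (fun b => (w b).length) hj
          (R (Function.update x ⟨b₀, s₀⟩ (e • y)))
          ((Matrix.of (R x) : Matrix ι ι E).updateRow b₀ (e • g)) (hmem _) ?_
        · exact h2
        · intro b
          by_cases hb : b = b₀
          · subst hb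
            have h3 : ∀ z : F, (R (Function.update x ⟨b, s₀⟩ z) b : ι → E) =
                fun i => itd (L₁.map (fun v : F => (v : Derivation k E E)))
                  ((z : Derivation k E E)
                    (itd (L₂.map (fun v : F => (v : Derivation k E E))) (μ i))) := by
              intro z
              have h4 := congrArg (fun M : Matrix ι ι E => M b) (hupd x b s₀ z)
              rw [Matrix.updateRow_self] at h4
              refine Eq.trans h4 ?_
              funext i
              rw [hmap, hL, List.map_append, List.map_cons, G2_itd_append, G2_itd_cons]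
            have h5 : g = fun i => itd (L₁.map (fun v : F => (v : Derivation k E E)))
                  ((y : Derivation k E E)
                    (itd (L₂.map (fun v : F => (v : Derivation k E E))) (μ i))) := by
              rw [hg]
              funext i
              rw [hmap, hL, List.map_append, List.map_cons, G2_itd_append, G2_itd_cons]
            have h6 : ∀ L : List F, ∀ v ∈ L.map (fun v : F => (v : Derivation k E E)),
                v ∈ Submodule.span E (Set.range D) := by
              intro L v hv
              obtain ⟨v', _, rfl⟩ := List.mem_map.1 hv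
              rw [hD]
              exact v'.2
            rw [h3, Matrix.updateRow_self, h5]
            cases L₁ with
            | nil =>
              refine Or.inl ?_
              funext i
              rfl
            | cons v L₁ =>
              refine Or.inr ⟨L₂.length + 1 + L₁.length, ?_, ?_⟩
              · show (w b).length = _
                rw [hlen, List.length_cons]
                omega
              · have h7 := Wn_itd D μ 0 μ (G2_mem0 D μ)
                  (L₂.map (fun v : F => (v : Derivation k E E))) (h6 L₂)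
                rw [List.length_map, zero_add] at h7
                have h8 := Wn_der D μ _ _ h7 (y : Derivation k E E) (by rw [hD]; exact y.2)
                have h9 := Wn_smul D μ _ _ h8 e (v : Derivation k E E)
                  (L₁.map (fun v : F => (v : Derivation k E E))) (by
                    intro v' hv'
                    exact h6 (v :: L₁) v' (by rw [List.map_cons]; exact hv'))
                rw [List.length_map] at h9
                exact h9
          · refine Or.inl ?_
            rw [Matrix.updateRow_ne hb]
            have h4 := congrArg (fun M : Matrix ι ι E => M b) (hupd x b₀ s₀ (e • y))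
            rw [Matrix.updateRow_ne hb] at h4
            exact h4 }
  refine ⟨θ, fun h0 => ?_, fun x => rfl⟩
  have hDF : ∀ i, D i ∈ F := fun i => by
    rw [← hD]
    exact Submodule.subset_span ⟨i, rfl⟩
  have h1 : θ (fun p => ⟨D ((w p.1).get p.2), hDF _⟩) = 0 := by
    rw [h0]
    rfl
  have h2 : (Matrix.of (R (fun p => ⟨D ((w p.1).get p.2), hDF _⟩)) : Matrix ι ι E) =
      Matrix.of fun b => cv μ ((w b).map D) := by
    ext b i
    rw [Matrix.of_apply, Matrix.of_apply]
    show itd (List.ofFn fun s => D ((w b).get s)) (μ i) = itd ((w b).map D) (μ i)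
    have h3 : (List.ofFn fun s => D ((w b).get s)) = (w b).map D := by
      rw [← List.ofFn_get ((w b).map D)]
      apply List.ext_get
      · simp
      · intro n h h'
        simp
    rw [h3]
  have h3 : (Matrix.of fun b => cv μ ((w b).map D) : Matrix ι ι E).det = 0 := by
    rw [← h2]
    exact h1
  have h4 : IsUnit (Matrix.of fun b => cv μ ((w b).map D) : Matrix ι ι E) :=
    Matrix.linearIndependent_rows_iff_isUnit.1 hw
  rw [Matrix.isUnit_iff_isUnit_det, h3] at h4
  exact not_isUnit_zero h4

end Pool.Agent.Lib.MP_17a322_nt.FQ
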