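import Pool.Agent.Lib.MP_17a322_nt.FQ.G2
import Pool.Agent.Lib.MP_17a322_nt.FQ.D2

universe u v

namespace Pool.Agent.Lib.MP_17a322_nt.FQ

variable {k : Type v} {E : Type u} [Field k] [Field E] [Algebra k E] {κ : Type} [Fintype κ]

private theorem G3_det_le {Γ : Type*} [LinearOrderedCommGroupWithZero Γ] {E : Type*} [Field E]
    (v : Valuation E Γ) {ι : Type*} [Fintype ι] [DecidableEq ι] (M : Matrix ι ι E) (C : Γ)
    (h : ∀ i j, v (M i j) ≤ C) : v M.det ≤ C ^ Fintype.card ι := by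
  rw [Matrix.det_apply]
  refine v.map_sum_le fun σ _ => ?_
  have h1 : v (Equiv.Perm.sign σ • ∏ i, M (σ i) i) = v (∏ i, M (σ i) i) := by
    rcases Int.units_eq_one_or (Equiv.Perm.sign σ) with h2 | h2
    · rw [h2, one_smul]
    · rw [h2, Units.neg_smul, one_smul, Valuation.map_neg]
  rw [h1, map_prod]
  exact Finset.prod_le_pow_card _ _ _ fun i _ => h _ _

private theorem G3_sym_le {Γ : Type*} [LinearOrderedCommGroupWithZero Γ] {E : Type*} [Field E]
    (v : Valuation E Γ) {n K : ℕ} (f : Fin n → E) (C : Γ) (h : ∀ i, v (f i) ≤ C) (s : Sym (Fin n) K) :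
    v ((s : Multiset (Fin n)).map f).prod ≤ C ^ K := by
  rw [map_multiset_prod]
  have h1 := Multiset.prod_le_pow_card (((s : Multiset (Fin n)).map f).map v) C (by
    intro x hx
    rw [Multiset.mem_map] at hx
    obtain ⟨y, hy, hyx⟩ := hx
    rw [Multiset.mem_map] at hy
    obtain ⟨i, _, hi⟩ := hy
    rw [← hyx, ← hi]
    exact h i)
  rw [Multiset.card_map, Multiset.card_map] at h1
  have h2 : Multiset.card (s : Multiset (Fin n)) = K := s.2
  rwa [h2] at h1

/-- The bound of the determinants of iterated derivatives at one valuation ring. -/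
theorem det_bound {n K r : ℕ} (D : Fin r → Derivation k E E) (f : Fin n → E) (hf : f ≠ 0)
    (w : Sym (Fin n) K → List (Fin r))
    (hw : LinearIndependent E (fun b => cv (fun s : Sym (Fin n) K =>
      ((s : Multiset (Fin n)).map f).prod) ((w b).map D)))
    (hs : ∀ j, Wn D (fun s : Sym (Fin n) K => ((s : Multiset (Fin n)).map f).prod) j =
      Submodule.span E {c | ∃ b, (w b).length ≤ j ∧ c = cv (fun s : Sym (Fin n) K =>
        ((s : Multiset (Fin n)).map f).prod) ((w b).map D)})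
    (A : VQ k E) {q : ℕ} (u : Fin q → Derivation k E E)
    (hu : ∀ j, u j ∈ Submodule.span E (Set.range D)) (C : A.1.ValueGroup)
    (hC : ∀ (l : List (Fin q)), (∃ b, l.length = (w b).length) →
      ∀ (s : Sym (Fin n) K) (i : Fin n), f i ≠ 0 →
        A.1.valuation ((f i ^ K)⁻¹ * ((s : Multiset (Fin n)).map f).prod) ≤ 1 →
          A.1.valuation (itd (l.map u) ((f i ^ K)⁻¹ * ((s : Multiset (Fin n)).map f).prod)) ≤ C)
    (I : (Σ b : Sym (Fin n) K, Fin (w b).length) → Fin q) :
    A.1.valuation (Matrix.of fun (b i : Sym (Fin n) K) =>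
      itd (List.ofFn fun s : Fin (w b).length => u (I ⟨b, s⟩))
        ((i : Multiset (Fin n)).map f).prod).det ≤
      nm k f A ^ (K * Fintype.card (Sym (Fin n) K)) * C ^ Fintype.card (Sym (Fin n) K) := by
  obtain ⟨i₁, hi₁, hnm⟩ := nm_attain f hf A
  obtain ⟨μ, hμ⟩ : ∃ μ : Sym (Fin n) K → E,
      μ = fun s : Sym (Fin n) K => ((s : Multiset (Fin n)).map f).prod := ⟨_, rfl⟩
  obtain ⟨l, hl⟩ : ∃ l : Sym (Fin n) K → List (Derivation k E E),
      l = fun b => List.ofFn fun s : Fin (w b).length => u (I ⟨b, s⟩) := ⟨_, rfl⟩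
  have hlen : ∀ b, (l b).length = (w b).length := by
    intro b
    rw [hl]
    exact List.length_ofFn
  have hh : f i₁ ^ K ≠ 0 := pow_ne_zero _ hi₁
  rw [← hμ] at hw hs
  have hfac := det_factor D μ l (by
    intro b v hv
    rw [hl] at hv
    simp only [List.mem_ofFn] at hv
    obtain ⟨s, hs⟩ := hv
    rw [← hs]
    exact hu _) (by
    intro j
    rw [card_words D μ w hw hs j]
    simp only [hlen]
    exact le_rfl) (f i₁ ^ K)⁻¹
  have hgoal : (Matrix.of fun (b i : Sym (Fin n) K) =>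
      itd (List.ofFn fun s : Fin (w b).length => u (I ⟨b, s⟩)) ((i : Multiset (Fin n)).map f).prod).det =
      (f i₁ ^ K) ^ Fintype.card (Sym (Fin n) K) *
        (Matrix.of fun b i => itd (l b) ((f i₁ ^ K)⁻¹ * μ i)).det := by
    rw [hfac, ← mul_assoc, ← mul_pow, mul_inv_cancel₀ hh, one_pow, one_mul, hl, hμ]
  rw [hgoal, map_mul, map_pow, map_pow, ← hnm, ← pow_mul]
  refine mul_le_mul_right ?_ _
  refine G3_det_le _ _ _ fun b i => ?_
  have hle : A.1.valuation ((f i₁ ^ K)⁻¹ * μ i) ≤ 1 := by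
    rw [map_mul, map_inv₀, map_pow, hμ]
    have h1 := G3_sym_le A.1.valuation f (A.1.valuation (f i₁)) (fun j => by
      rw [← hnm]
      exact le_nm f A j) i
    have h2 : A.1.valuation (f i₁) ^ K ≠ 0 := pow_ne_zero _ ((Valuation.ne_zero_iff _).2 hi₁)
    rw [inv_mul_le_iff₀ (zero_lt_iff.2 h2), mul_one]
    exact h1
  have h1 := hC (List.ofFn fun s : Fin (w b).length => I ⟨b, s⟩) ⟨b, List.length_ofFn⟩ i i₁ hi₁ (by
    rw [hμ] at hle
    exact hle)
  rw [Matrix.of_apply, hl, hμ]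
  rw [List.map_ofFn] at h1
  exact h1

/-- The lower bound of the height of a family with many independent monomials. -/
theorem degree_bound [FiniteDimensional E (Derivation k E E)] (H : Ht k E) (hV : Vj H)
    (hT : Tens H) (m : κ → E) (hm : IsMd k m) {F : Submodule E (Derivation k E E)} {g : ℝ}
    (hF : Mx H F g) {r : ℕ} (D : Fin r → Derivation k E E) (hcomm : ∀ i j, ⁅D i, D j⁆ = 0)
    (hD : Submodule.span E (Set.range D) = F) {n K : ℕ} (f : Fin n → E) (hf : f ≠ 0)
    (hμ : LinearIndependent (cst F) fun s : Sym (Fin n) K => ((s : Multiset (Fin n)).map f).prod) :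
    ∃ w : Sym (Fin n) K → List (Fin r),
      (∀ j, (Finset.univ.filter fun b => (w b).length ≤ j).card ≤ (j + 1) ^ r) ∧
        g / (2 * Module.finrank E (Derivation k E E)) * ∑ b, ((w b).length : ℝ) ≤
          K * Fintype.card (Sym (Fin n) K) * H.lam f := by
  classical
  obtain ⟨μ, hμdef⟩ : ∃ μ : Sym (Fin n) K → E,
      μ = fun s : Sym (Fin n) K => ((s : Multiset (Fin n)).map f).prod := ⟨_, rfl⟩
  rw [← hμdef] at hμ
  have hJ := Wn_top F D hD μ hμ
  obtain ⟨w, hw, hs⟩ := exists_words D μ hJ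
  refine ⟨w, fun j => ?_, ?_⟩
  · have h1 := card_words D μ w hw hs j
    have h2 := Wn_finrank D hcomm μ j
    rw [h1] at h2
    exact h2
  obtain ⟨θ, hθ0, hθ⟩ := exists_form_det D F hD μ w hw hs
  obtain ⟨J, hJdef⟩ : ∃ J : ℕ, J = Finset.univ.sup fun b => (w b).length := ⟨_, rfl⟩
  have hJle : ∀ b, (w b).length ≤ J := fun b => by
    rw [hJdef]
    exact Finset.le_sup (f := fun b => (w b).length) (Finset.mem_univ b)
  obtain ⟨d, hd⟩ : ∃ d : ℕ, d = Fintype.card (Sym (Fin n) K) := ⟨_, rfl⟩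
  have key : ∀ η : ℝ, 0 < η → η ≤ g / 2 →
      g / (2 * Module.finrank E (Derivation k E E)) * ∑ b, ((w b).length : ℝ) ≤
        K * d * H.lam f + d * ((2 ^ J - 1) * η) := by
    intro η hη hη2
    obtain ⟨κ', _, m', hm', hFi, hnear⟩ := exists_near H hV m hm η hη
    have hself : ∀ L, dgI H L ≤ dg H m' L ∧ dg H m' L ≤ dgI H L + η :=
      hnear m' hm' (fun A v => le_rfl)
    have hNr : Nr H m' η := by
      intro κ'' _ m'' hm'' hFi''
      have h1 := (hself ⊤).2
      have h2 := (hnear m'' hm'' hFi'' ⊤).1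
      linarith
    have hslopes := slopes H hF m' η hη2 hself
    obtain ⟨C, x, hLm, hx, hC1, hfr⟩ := exists_frame_iter H m' hm' η hNr F
      (Set.range fun p : Fin n × Sym (Fin n) K => (f p.1 ^ K)⁻¹ * μ p.2) (Set.finite_range _) J
    have hLm' := Lm_mul (Lm_fam_pow (H := H) f hf (K * d)) (Lm_pow d hLm)
    have h1 := hT m' hm' F (g / (2 * Module.finrank E (Derivation k E E))) hslopes
      (Σ b : Sym (Fin n) K, Fin (w b).length) θ hθ0 _ _ hLm' (by
        intro A y
        obtain ⟨u, hu1, hu2, hu3, hu4⟩ := hfr A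
        refine norm_of_frame m' A F u hu1 hu3 θ _ (fun I => ?_) y
        rw [hθ]
        have h2 := det_bound D f hf w (by rw [← hμdef]; exact hw) (by rw [← hμdef]; exact hs) A u
          (fun j => by rw [hD]; exact hu1 j) (C A) (by
            rintro l ⟨b, hb⟩ s i hi hle
            have h3 := hu4 l (by rw [hb]; exact hJle b) ((f i ^ K)⁻¹ * μ s) ⟨(i, s), rfl⟩ (by
              rw [hμdef]
              exact hle)
            rw [hμdef] at h3
            exact h3) I
        rw [← hd] at h2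
        rw [hμdef]
        exact h2)
    have h2 : (Fintype.card (Σ b : Sym (Fin n) K, Fin (w b).length) : ℝ) = ∑ b, ((w b).length : ℝ) := by
      rw [Fintype.card_sigma]
      push_cast
      simp only [Fintype.card_fin]
    rw [h2] at h1
    refine h1.trans ?_
    push_cast
    have h3 : (d : ℝ) * x ≤ d * ((2 ^ J - 1) * η) := mul_le_mul_of_nonneg_left hx (Nat.cast_nonneg d)
    linarith
  rw [← hd]
  refine le_of_forall_pos_le_add fun ε hε => ?_
  have hg := hF.1
  have hM : 0 < (d : ℝ) * 2 ^ J + 1 := by positivity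
  obtain ⟨η, hη⟩ : ∃ η : ℝ, η = min (g / 2) (ε / (d * 2 ^ J + 1)) := ⟨_, rfl⟩
  have hη0 : 0 < η := by
    rw [hη]
    exact lt_min (by linarith) (div_pos hε hM)
  have hη1 : η ≤ g / 2 := hη ▸ min_le_left _ _
  have hη2 : η ≤ ε / (d * 2 ^ J + 1) := hη ▸ min_le_right _ _
  have h1 := key η hη0 hη1
  have h2 : (d : ℝ) * ((2 ^ J - 1) * η) ≤ ε := by
    rw [le_div_iff₀ hM] at hη2
    have h3 : (0 : ℝ) ≤ d := Nat.cast_nonneg d
    nlinarith [mul_nonneg h3 hη0.le]
  linarith

end Pool.Agent.Lib.MP_17a322_nt.FQ
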