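import Mathlib

namespace Pool.Agent.Lib.MP_17a322_nt.FQ

/-- A binomial coefficient of order `r + 1` is larger than the power of order `r`. -/
theorem exists_large (r t : ℕ) :
    ∃ K : ℕ, 0 < K ∧ 2 * (K * t + 1) ^ r ≤ (K + r + 1).choose (r + 1) := by
  have hf : 0 < (r + 1).factorial := Nat.factorial_pos _
  have hK : 0 < 2 * (t + 1) ^ r * (r + 1).factorial := by positivity
  refine ⟨2 * (t + 1) ^ r * (r + 1).factorial, hK, ?_⟩
  set K := 2 * (t + 1) ^ r * (r + 1).factorial with hKd
  have h1 : K * t + 1 ≤ K * (t + 1) := by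
    rw [Nat.mul_add, Nat.mul_one]
    exact Nat.add_le_add_left hK _
  have h2 : 2 * (K * t + 1) ^ r ≤ 2 * (K * (t + 1)) ^ r :=
    Nat.mul_le_mul_left _ (Nat.pow_le_pow_left h1 r)
  have h3 : 2 * (K * (t + 1)) ^ r * (r + 1).factorial = K ^ (r + 1) := by
    rw [mul_pow, pow_succ]
    conv_rhs => rw [hKd]
    rw [← hKd]
    ring
  have h4 : K ^ (r + 1) ≤ (K + r + 1).descFactorial (r + 1) := by
    calc K ^ (r + 1) ≤ (K + r + 1 + 1 - (r + 1)) ^ (r + 1) :=
          Nat.pow_le_pow_left (by omega) _
      _ ≤ _ := Nat.pow_sub_le_descFactorial _ _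
  rw [Nat.descFactorial_eq_factorial_mul_choose] at h4
  have h5 : (r + 1).factorial * (2 * (K * t + 1) ^ r) ≤
      (r + 1).factorial * (K + r + 1).choose (r + 1) := by
    calc (r + 1).factorial * (2 * (K * t + 1) ^ r)
        ≤ (r + 1).factorial * (2 * (K * (t + 1)) ^ r) := Nat.mul_le_mul_left _ h2
      _ = 2 * (K * (t + 1)) ^ r * (r + 1).factorial := Nat.mul_comm _ _
      _ = K ^ (r + 1) := h3
      _ ≤ _ := h4
  exact Nat.le_of_mul_le_mul_left h5 hf

/-- The number of the multisets of `K` elements of a set of `r + 2` elements. -/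
theorem card_sym (r K : ℕ) : Fintype.card (Sym (Fin (r + 2)) K) = (K + r + 1).choose (r + 1) := by
  rw [Sym.card_sym_fin_eq_multichoose, Nat.multichoose_eq]
  have e : r + 2 + K - 1 = K + r + 1 := by omega
  rw [e]
  exact Nat.choose_symm_of_eq_add (by omega)

/-- If few of the numbers are small, their sum is large. -/
theorem sum_ge {ι : Type} [Fintype ι] (j : ι → ℕ) (r N : ℕ)
    (h : (Finset.univ.filter fun b => j b ≤ N).card ≤ (N + 1) ^ r)
    (hN : 2 * (N + 1) ^ r ≤ Fintype.card ι) : Fintype.card ι * N ≤ 2 * ∑ b, j b := by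
  have h1 : (Finset.univ.filter fun b => j b ≤ N).card +
      (Finset.univ.filter fun b => ¬ j b ≤ N).card = Fintype.card ι := by
    rw [Finset.card_filter_add_card_filter_not, Finset.card_univ]
  have h2 : Fintype.card ι ≤ 2 * (Finset.univ.filter fun b => ¬ j b ≤ N).card := by omega
  have h3 : (Finset.univ.filter fun b => ¬ j b ≤ N).card * N ≤ ∑ b, j b := by
    calc (Finset.univ.filter fun b => ¬ j b ≤ N).card * N
        ≤ ∑ b ∈ Finset.univ.filter fun b => ¬ j b ≤ N, j b := by
          rw [← smul_eq_mul]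
          refine Finset.card_nsmul_le_sum _ _ _ fun b hb => ?_
          have := (Finset.mem_filter.mp hb).2
          omega
      _ ≤ ∑ b, j b := Finset.sum_le_sum_of_subset (Finset.filter_subset _ _)
  calc Fintype.card ι * N ≤ 2 * (Finset.univ.filter fun b => ¬ j b ≤ N).card * N :=
        Nat.mul_le_mul_right _ h2
    _ = 2 * ((Finset.univ.filter fun b => ¬ j b ≤ N).card * N) := by ring
    _ ≤ 2 * ∑ b, j b := Nat.mul_le_mul_left _ h3

/-- The exponents of the monomial. -/
private noncomputable def G4_e {n K : ℕ} (s : Sym (Fin (n + 1)) K) : Fin n →₀ ℕ :=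
  Finsupp.equivFunOnFinite.symm fun i => Multiset.count i.succ (s : Multiset (Fin (n + 1)))

private theorem G4_e_apply {n K : ℕ} (s : Sym (Fin (n + 1)) K) (i : Fin n) :
    G4_e s i = Multiset.count i.succ (s : Multiset (Fin (n + 1))) := rfl

private theorem G4_inj {n K : ℕ} : Function.Injective (G4_e (n := n) (K := K)) := by
  intro s s' h
  have hs : ∀ i : Fin n, Multiset.count i.succ (s : Multiset (Fin (n + 1))) =
      Multiset.count i.succ (s' : Multiset (Fin (n + 1))) := fun i => by
    rw [← G4_e_apply, ← G4_e_apply, h]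
  have key : ∀ u : Sym (Fin (n + 1)) K, Multiset.count 0 (u : Multiset (Fin (n + 1))) +
      ∑ i : Fin n, Multiset.count i.succ (u : Multiset (Fin (n + 1))) = K := fun u => by
    rw [← Fin.sum_univ_succ (fun a => Multiset.count a (u : Multiset (Fin (n + 1)))),
      Multiset.sum_count_eq_card (fun a _ => Finset.mem_univ a)]
    exact u.2
  apply Sym.coe_injective
  apply Multiset.ext.mpr
  intro a
  refine Fin.cases ?_ hs a
  have k1 := key s
  have k2 := key s'
  rw [Finset.sum_congr rfl fun i _ => hs i] at k1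
  omega

private theorem G4_prod {C E : Type*} [Field C] [Field E] [Algebra C E] {n K : ℕ} (f : Fin n → E)
    (s : Sym (Fin (n + 1)) K) :
    ((s : Multiset (Fin (n + 1))).map (Fin.cons 1 f : Fin (n + 1) → E)).prod =
      MvPolynomial.aeval (R := C) f (MvPolynomial.monomial (G4_e s) (1 : C)) := by
  classical
  rw [Finset.prod_multiset_map_count, Finset.prod_subset (Finset.subset_univ _),
    Fin.prod_univ_succ]
  · rw [MvPolynomial.aeval_monomial, map_one, one_mul, Finsupp.prod_fintype _ _ (fun i => pow_zero _)]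
    simp [G4_e_apply]
  · intro a _ ha
    rw [Multiset.mem_toFinset, ← Multiset.count_eq_zero] at ha
    rw [ha, pow_zero]

/-- Homogeneous monomials in `1, f 0, .., f (n - 1)` are linearly independent. -/
theorem linInd_monomials {C E : Type*} [Field C] [Field E] [Algebra C E] {n : ℕ} (f : Fin n → E)
    (hf : AlgebraicIndependent C f) (K : ℕ) :
    LinearIndependent C fun s : Sym (Fin (n + 1)) K =>
      ((s : Multiset (Fin (n + 1))).map (Fin.cons 1 f : Fin (n + 1) → E)).prod := by
  have h1 := (MvPolynomial.basisMonomials (Fin n) C).linearIndependent.comp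
    (G4_e (n := n) (K := K)) G4_inj
  have h2 := h1.map' (MvPolynomial.aeval (R := C) f).toLinearMap
    (LinearMap.ker_eq_bot.mpr hf)
  have h3 : (fun s : Sym (Fin (n + 1)) K =>
      ((s : Multiset (Fin (n + 1))).map (Fin.cons 1 f : Fin (n + 1) → E)).prod) =
      (MvPolynomial.aeval (R := C) f).toLinearMap ∘
        (MvPolynomial.basisMonomials (Fin n) C) ∘ (G4_e (n := n) (K := K)) := by
    funext s
    rw [G4_prod (C := C)]
    simp
  rw [h3]
  exact h2

end Pool.Agent.Lib.MP_17a322_nt.FQ
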