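import Pool.Agent.Lib.MP_17a322_nt.FQ.I1
import Pool.Agent.Lib.MP_17a322_nt.FQ.D2

universe u v

namespace Pool.Agent.Lib.MP_17a322_nt.FQ

variable {k : Type v} {E : Type u} [Field k] [Field E] [Algebra k E] {κ κ' : Type} [Fintype κ]
  [Fintype κ'] [FiniteDimensional E (Derivation k E E)]

/-- Functionals dual to the brackets modulo `F`. -/
theorem exists_dual (F : Submodule E (Derivation k E E)) (v₀ w₀ : Derivation k E E) (hv : v₀ ∈ F)
    (hw : w₀ ∈ F) (h : ⁅v₀, w₀⁆ ∉ F) :
    ∃ (s : ℕ) (L : Submodule E (Derivation k E E)) (v w : Fin s → Derivation k E E)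
      (γ : Fin s → Derivation k E E →ₗ[E] E), 0 < s ∧ F ≤ L ∧ (∀ i, v i ∈ F ∧ w i ∈ F) ∧
      (∀ i, ∀ x ∈ F, γ i x = 0) ∧ (∀ i j, γ i ⁅v j, w j⁆ = if i = j then 1 else 0) ∧
      (∀ x ∈ F, ∀ y ∈ F, ⁅x, y⁆ ∈ L) ∧
      (∀ y ∈ L, y - ∑ i, γ i y • ⁅v i, w i⁆ ∈ F) ∧
      ∀ f : Fin (Module.finrank E F) → Derivation k E E, LinearIndependent E f →
        Submodule.span E (Set.range f) = F →
          LinearIndependent E (Sum.elim f fun i => ⁅v i, w i⁆) ∧
            Submodule.span E (Set.range (Sum.elim f fun i => ⁅v i, w i⁆)) = L := by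
  classical
  set Q := Derivation k E E ⧸ F with hQ
  set π : Derivation k E E →ₗ[E] Q := F.mkQ with hπ
  have hπ0 : ∀ x, π x = 0 ↔ x ∈ F := fun x => by
    rw [hπ, Submodule.mkQ_apply, Submodule.Quotient.mk_eq_zero]
  set T : Set Q := {q | ∃ x ∈ F, ∃ y ∈ F, q = π ⁅x, y⁆} with hTd
  obtain ⟨b, hbT, hbs, hbi⟩ := exists_linearIndependent E T
  have hfin : Finite b := hbi.finite
  haveI : Fintype b := Fintype.ofFinite b
  set s : ℕ := Fintype.card b with hsd
  set e : Fin s ≃ b := (Fintype.equivFin b).symm with he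
  have hch : ∀ i : Fin s, ∃ x : Derivation k E E × Derivation k E E, (x.1 ∈ F ∧ x.2 ∈ F) ∧
      π ⁅x.1, x.2⁆ = (e i : Q) := by
    intro i
    obtain ⟨x, hx, y, hy, h1⟩ := hbT (e i).2
    exact ⟨(x, y), ⟨hx, hy⟩, h1.symm⟩
  choose vw hvw hvwe using hch
  set b' : Fin s → Q := fun i => (e i : Q) with hb'
  have hb'i : LinearIndependent E b' := hbi.comp e e.injective
  have hb's : Submodule.span E (Set.range b') = Submodule.span E T := by
    rw [← hbs]
    congr 1
    ext q
    constructor
    · rintro ⟨i, rfl⟩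
      exact (e i).2
    · intro hq
      exact ⟨e.symm ⟨q, hq⟩, by simp [hb']⟩
  set Φ : (Fin s → E) →ₗ[E] Q := Fintype.linearCombination E b' with hΦ
  have hΦa : ∀ c, Φ c = ∑ i, c i • b' i := fun c => by
    rw [hΦ, Fintype.linearCombination_apply]
  have hΦk : LinearMap.ker Φ = ⊥ := by
    rw [LinearMap.ker_eq_bot']
    intro c hc
    rw [hΦa] at hc
    funext i
    exact Fintype.linearIndependent_iff.1 hb'i c hc i
  obtain ⟨G, hG⟩ := LinearMap.exists_leftInverse_of_injective Φ hΦk
  have hGa : ∀ c, G (Φ c) = c := fun c => by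
    have := congrArg (fun l => l c) hG
    simpa using this
  set L : Submodule E (Derivation k E E) := (Submodule.span E T).comap π with hLd
  have hLm : ∀ y ∈ L, ∃ c : Fin s → E, π y = Φ c := by
    intro y hy
    have h1 : π y ∈ Submodule.span E (Set.range b') := by
      rw [hb's]
      exact hy
    obtain ⟨c, hc⟩ := (Submodule.mem_span_range_iff_exists_fun E).1 h1
    exact ⟨c, by rw [hΦa, hc]⟩
  have hbr : ∀ x ∈ F, ∀ y ∈ F, ⁅x, y⁆ ∈ L := fun x hx y hy =>
    Submodule.subset_span ⟨x, hx, y, hy, rfl⟩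
  have hFL : F ≤ L := by
    intro x hx
    show π x ∈ Submodule.span E T
    rw [(hπ0 x).2 hx]
    exact Submodule.zero_mem _
  have hs0 : 0 < s := by
    rcases Nat.eq_zero_or_pos s with h0 | h0
    · exfalso
      obtain ⟨c, hc⟩ := hLm _ (hbr v₀ hv w₀ hw)
      have : Φ c = 0 := by
        rw [hΦa]
        apply Finset.sum_eq_zero
        intro i _
        exact absurd i.2 (by omega)
      rw [this, hπ0] at hc
      exact h hc
    · exact h0
  set γ : Fin s → Derivation k E E →ₗ[E] E := fun i =>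
    (LinearMap.proj i).comp (G.comp π) with hγd
  have hγa : ∀ i y, γ i y = G (π y) i := fun i y => rfl
  have hγδ : ∀ i j, γ i ⁅(vw j).1, (vw j).2⁆ = if i = j then 1 else 0 := by
    intro i j
    rw [hγa, hvwe j]
    have h1 : (e j : Q) = Φ (Pi.single j 1) := by
      rw [hΦa, Finset.sum_eq_single j]
      · rw [Pi.single_eq_same, one_smul]
      · intro l _ hl
        rw [Pi.single_eq_of_ne hl, zero_smul]
      · intro hj
        exact absurd (Finset.mem_univ j) hj
    rw [h1, hGa, Pi.single_apply]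
  have hL : ∀ y ∈ L, y - ∑ i, γ i y • ⁅(vw i).1, (vw i).2⁆ ∈ F := by
    intro y hy
    obtain ⟨c, hc⟩ := hLm y hy
    rw [← hπ0, map_sub, map_sum, hc, hΦa, sub_eq_zero]
    refine Finset.sum_congr rfl fun i _ => ?_
    rw [map_smul, hvwe i, hγa, hc, hGa]
  refine ⟨s, L, fun i => (vw i).1, fun i => (vw i).2, γ, hs0, hFL, hvw, ?_, hγδ, hbr, hL, ?_⟩
  · intro i x hx
    rw [hγa, (hπ0 x).2 hx, map_zero]
    rfl
  · intro f hf hfs
    have hbi' : LinearIndependent E (fun i => ⁅(vw i).1, (vw i).2⁆) := by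
      apply LinearIndependent.of_comp π
      have : (π ∘ fun i => ⁅(vw i).1, (vw i).2⁆) = b' := by
        funext i
        exact hvwe i
      rw [this]
      exact hb'i
    constructor
    · refine hf.sum_type hbi' ?_
      rw [hfs, Submodule.disjoint_def]
      intro y hy hy'
      obtain ⟨c, hc⟩ := (Submodule.mem_span_range_iff_exists_fun E).1 hy'
      have h1 : π y = Φ c := by
        rw [← hc, map_sum, hΦa]
        refine Finset.sum_congr rfl fun i _ => ?_
        rw [map_smul, hvwe i]
      rw [(hπ0 y).2 hy] at h1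
      have h2 : c = 0 := by
        rw [← hGa c, ← h1, map_zero]
      rw [← hc, h2]
      simp
    · rw [Set.Sum.elim_range, Submodule.span_union, hfs]
      apply le_antisymm
      · refine sup_le hFL ?_
        rw [Submodule.span_le]
        rintro _ ⟨i, rfl⟩
        exact hbr _ (hvw i).1 _ (hvw i).2
      · intro y hy
        have h1 := hL y hy
        have h2 : y = (y - ∑ i, γ i y • ⁅(vw i).1, (vw i).2⁆) +
            ∑ i, γ i y • ⁅(vw i).1, (vw i).2⁆ := by abel
        rw [h2]
        refine Submodule.add_mem_sup h1 ?_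
        refine Submodule.sum_mem _ fun i _ => Submodule.smul_mem _ _ ?_
        exact Submodule.subset_span ⟨i, rfl⟩

theorem I2_smul_lie (c : E) (x y : Derivation k E E) : ⁅c • x, y⁆ = c • ⁅x, y⁆ - y c • x := by
  ext a
  simp only [Derivation.commutator_apply, Derivation.sub_apply, Derivation.smul_apply,
    smul_eq_mul, Derivation.leibniz]
  ring

theorem I2_lie_smul (c : E) (x y : Derivation k E E) : ⁅x, c • y⁆ = c • ⁅x, y⁆ + x c • y := by
  ext a
  simp only [Derivation.commutator_apply, Derivation.add_apply, Derivation.smul_apply,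
    smul_eq_mul, Derivation.leibniz]
  ring

theorem I2_row (F : Submodule E (Derivation k E E)) {s : ℕ}
    (γ : Fin s → Derivation k E E →ₗ[E] E) [DecidableEq (Fin s × Bool)] (x : Fin s × Bool → F)
    (i₀ : Fin s) (b₀ : Bool) (a : F) :
    (Matrix.of fun i j =>
      γ j ⁅(Function.update x (i₀, b₀) a (i, false) : Derivation k E E),
        (Function.update x (i₀, b₀) a (i, true) : Derivation k E E)⁆) =
    (Matrix.of fun i j =>
      γ j ⁅(x (i, false) : Derivation k E E), (x (i, true) : Derivation k E E)⁆).updateRow i₀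
      (fun j => γ j ⁅(if b₀ = true then (x (i₀, false) : Derivation k E E) else a),
        (if b₀ = true then (a : Derivation k E E) else x (i₀, true))⁆) := by
  ext i j
  by_cases hi : i = i₀
  · subst hi
    rw [Matrix.updateRow_self]
    cases b₀
    · rw [Matrix.of_apply, Function.update_self, Function.update_of_ne (by simp)]
      simp
    · rw [Matrix.of_apply, Function.update_self, Function.update_of_ne (by simp)]
      simp
  · rw [Matrix.updateRow_ne hi, Matrix.of_apply, Matrix.of_apply,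
      Function.update_of_ne (by simp [hi]), Function.update_of_ne (by simp [hi])]

/-- The multilinear form made of the brackets. -/
theorem exists_form (F : Submodule E (Derivation k E E)) {s : ℕ}
    (γ : Fin s → Derivation k E E →ₗ[E] E) (hγ : ∀ i, ∀ x ∈ F, γ i x = 0) :
    ∃ θ : MultilinearMap E (fun _ : Fin s × Bool => F) E, ∀ x : Fin s × Bool → F,
      θ x = (Matrix.of fun i j =>
        γ j ⁅(x (i, false) : Derivation k E E), (x (i, true) : Derivation k E E)⁆).det := by
  classical
  refine ⟨⟨fun x => (Matrix.of fun i j =>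
    γ j ⁅(x (i, false) : Derivation k E E), (x (i, true) : Derivation k E E)⁆).det, ?_, ?_⟩,
    fun x => rfl⟩
  · intro inst x ib a a'
    obtain ⟨i₀, b₀⟩ := ib
    rw [I2_row F γ x i₀ b₀ (a + a'), I2_row F γ x i₀ b₀ a, I2_row F γ x i₀ b₀ a']
    rw [← Matrix.det_updateRow_add]
    congr 1
    congr 1
    funext j
    cases b₀
    · simp only [Bool.false_eq_true, if_false, Submodule.coe_add, add_lie, map_add, Pi.add_apply]
    · simp only [if_true, Submodule.coe_add, lie_add, map_add, Pi.add_apply]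
  · intro inst x ib c a
    obtain ⟨i₀, b₀⟩ := ib
    rw [I2_row F γ x i₀ b₀ (c • a), I2_row F γ x i₀ b₀ a, smul_eq_mul,
      ← Matrix.det_updateRow_smul]
    congr 1
    congr 1
    funext j
    cases b₀
    · simp only [Bool.false_eq_true, if_false, Submodule.coe_smul, Pi.smul_apply, smul_eq_mul]
      rw [I2_smul_lie, map_sub, map_smul, map_smul, hγ j _ a.2, smul_zero, sub_zero, smul_eq_mul]
    · simp only [if_true, Submodule.coe_smul, Pi.smul_apply, smul_eq_mul]
      rw [I2_lie_smul, map_add, map_smul, map_smul, hγ j _ a.2, smul_zero, add_zero, smul_eq_mul]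

/-- Bound for the bracket of two derivations with small iterated derivatives. -/
theorem bracket_le (m : κ → E) (hm : IsMd k m) (A : VQ k E) (x y : Derivation k E E)
    (C : A.1.ValueGroup)
    (h : ∀ a b, m a ≠ 0 → A.1.valuation (m b / m a) ≤ 1 →
      A.1.valuation (itd [x, y] (m b / m a)) ≤ C ∧ A.1.valuation (itd [y, x] (m b / m a)) ≤ C) :
    mn m A ⁅x, y⁆ ≤ C := by
  obtain ⟨a, ha, hA⟩ := nm_attain m hm.1 A
  refine mn_le_chart m A a ha hA _ C fun b => ?_
  have h1 : A.1.valuation (m b / m a) ≤ 1 := by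
    rw [map_div₀]
    refine div_le_one_of_le₀ ?_ zero_le'
    rw [← hA]
    exact le_nm m A b
  obtain ⟨h2, h3⟩ := h a b ha h1
  have h4 : itd [x, y] (m b / m a) = x (y (m b / m a)) := rfl
  have h5 : itd [y, x] (m b / m a) = y (x (m b / m a)) := rfl
  rw [h4] at h2
  rw [h5] at h3
  rw [Derivation.commutator_apply]
  exact le_trans (Valuation.map_sub _ _ _) (max_le h2 h3)

/-- The subspace of maximal degree is closed under brackets. -/
theorem invol (H : Ht k E) (hV : Vj H) (hT : Tens H) (m : κ → E) (hm : IsMd k m)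
    {F : Submodule E (Derivation k E E)} {g : ℝ} (hF : Mx H F g) :
    ∀ v ∈ F, ∀ w ∈ F, ⁅v, w⁆ ∈ F := by
  classical
  intro v₀ hv₀ w₀ hw₀
  by_contra hnot
  obtain ⟨s, L, v, w, γ, hs, hFL, hvw, hγF, hγδ, hbr, hLF, hbasis⟩ :=
    exists_dual F v₀ w₀ hv₀ hw₀ hnot
  obtain ⟨θ, hθ⟩ := exists_form F γ hγF
  have hθ0 : θ ≠ 0 := by
    intro h0
    have h1 := hθ fun ib => if ib.2 = true then ⟨w ib.1, (hvw ib.1).2⟩ else ⟨v ib.1, (hvw ib.1).1⟩
    rw [h0, MultilinearMap.zero_apply] at h1
    have h2 : (Matrix.of fun i j => γ j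
        ⁅(((fun ib : Fin s × Bool => if ib.2 = true then (⟨w ib.1, (hvw ib.1).2⟩ : F) else
          ⟨v ib.1, (hvw ib.1).1⟩) (i, false) : F) : Derivation k E E),
        (((fun ib : Fin s × Bool => if ib.2 = true then (⟨w ib.1, (hvw ib.1).2⟩ : F) else
          ⟨v ib.1, (hvw ib.1).1⟩) (i, true) : F) : Derivation k E E)⁆) =
        (1 : Matrix (Fin s) (Fin s) E) := by
      ext i j
      rw [Matrix.of_apply]
      simp only [Bool.false_eq_true, if_false, if_true]
      rw [hγδ, Matrix.one_apply]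
      by_cases hij : j = i
      · rw [if_pos hij, if_pos hij.symm]
      · rw [if_neg hij, if_neg (Ne.symm hij)]
    rw [h2, Matrix.det_one] at h1
    exact zero_ne_one h1
  have hg := hF.1
  set z : ℕ := Module.finrank E (Derivation k E E) with hz
  have hz0 : 0 < z := by
    have : v₀ ≠ 0 := by
      rintro rfl
      rw [zero_lie] at hnot
      exact hnot F.zero_mem
    haveI : Nontrivial (Derivation k E E) := ⟨v₀, 0, this⟩
    exact Module.finrank_pos
  have hzR : (0 : ℝ) < z := by exact_mod_cast hz0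
  set g' : ℝ := g / (2 * z) with hg'
  have hg'0 : 0 < g' := div_pos hg (by positivity)
  set η : ℝ := min (g / 2) (g' / 4) with hη
  have hη0 : 0 < η := lt_min (by linarith) (by linarith)
  have hη1 : η ≤ g / 2 := min_le_left _ _
  have hη2 : η ≤ g' / 4 := min_le_right _ _
  obtain ⟨κ₁, _, m₁, hm₁, hFi, hnear⟩ := exists_near H hV m hm η hη0
  have hnear₁ : ∀ L, dgI H L ≤ dg H m₁ L ∧ dg H m₁ L ≤ dgI H L + η :=
    hnear m₁ hm₁ fun A v => le_rfl
  have hNr : Nr H m₁ η := by
    intro κ'' _ m'' hm'' hFi''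
    have h1 := (hnear m'' hm'' hFi'' ⊤).1
    have h2 := (hnear₁ ⊤).2
    linarith
  have hsl := slopes H hF m₁ η hη1 hnear₁
  set Φ : Set E := Set.range fun ab : κ₁ × κ₁ => m₁ ab.2 / m₁ ab.1 with hΦ
  obtain ⟨C, x, hCx, hx, hC1, hfr⟩ :=
    exists_frame_iter H m₁ hm₁ η hNr F Φ (Set.finite_range _) 2
  set f : Fin (Module.finrank E F) → Derivation k E E := fun i =>
    ((Module.finBasis E F i : F) : Derivation k E E) with hf
  have hfi : LinearIndependent E f :=
    (Module.finBasis E F).linearIndependent.map' F.subtype (Submodule.ker_subtype F)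
  have hfs : Submodule.span E (Set.range f) = F := by
    have h1 : Set.range f = F.subtype '' Set.range (Module.finBasis E F) := by
      rw [← Set.range_comp]
      rfl
    rw [h1, ← Submodule.map_span, (Module.finBasis E F).span_eq, Submodule.map_top,
      Submodule.range_subtype]
  obtain ⟨hbi, hbs⟩ := hbasis f hfi hfs
  set vw : Fin s → Derivation k E E := fun i => ⁅v i, w i⁆ with hvwd
  set D : Fn k E := fun A => dv m₁ f A * C A ^ s / dv m₁ (Sum.elim f vw) A with hD
  have hL1 : Lm H (dv m₁ f) (- dg H m₁ F) := by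
    have := dv_dg H m₁ hm₁ f hfi
    rw [hfs] at this
    exact this
  have hL2 : Lm H (dv m₁ (Sum.elim f vw)) (- dg H m₁ L) := by
    have := dv_dg H m₁ hm₁ (Sum.elim f vw) hbi
    rw [hbs] at this
    exact this
  have hLD : Lm H D ((- dg H m₁ F + s * x) - (- dg H m₁ L)) :=
    Lm_div (Lm_mul hL1 (Lm_pow s hCx)) hL2
  have hbound : ∀ (A : VQ k E) (y : Fin s × Bool → F), A.1.valuation (θ y) ≤
      D A * ∏ j, mn m₁ A (y j : Derivation k E E) := by
    intro A y
    obtain ⟨u, hu, hu1, huc, hui⟩ := hfr A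
    refine norm_of_frame m₁ A F u hu huc θ (D A) ?_ y
    intro I
    set r : Fin s → Derivation k E E := fun i => ⁅u (I (i, false)), u (I (i, true))⁆ with hr
    have hrL : ∀ i, r i ∈ L := fun i => hbr _ (hu _) _ (hu _)
    have hrC : ∀ i, mn m₁ A (r i) ≤ C A := by
      intro i
      refine bracket_le m₁ hm₁ A _ _ (C A) fun a b ha hab => ⟨?_, ?_⟩
      · exact hui [I (i, false), I (i, true)] le_rfl _ ⟨(a, b), rfl⟩ hab
      · exact hui [I (i, true), I (i, false)] le_rfl _ ⟨(a, b), rfl⟩ hab
    have hθI : θ (fun t => ⟨u (I t), hu (I t)⟩) = (Matrix.of fun i j => γ j (r i)).det := hθ _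
    rw [hθI]
    have hcf : ∀ i, ∃ c : Fin (Module.finrank E F) → E,
        r i = ∑ a, c a • f a + ∑ j, γ j (r i) • vw j := by
      intro i
      have h1 := hLF (r i) (hrL i)
      rw [← hfs] at h1
      obtain ⟨c, hc⟩ := (Submodule.mem_span_range_iff_exists_fun E).1 h1
      exact ⟨c, by rw [hc]; abel⟩
    choose c hc using hcf
    set P : Matrix (Fin (Module.finrank E F) ⊕ Fin s) (Fin (Module.finrank E F) ⊕ Fin s) E :=
      Matrix.fromBlocks 1 (Matrix.of fun a i => c i a) 0 (Matrix.of fun j i => γ j (r i)) with hP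
    have hPdet : P.det = (Matrix.of fun i j => γ j (r i)).det := by
      rw [hP, Matrix.det_fromBlocks_zero₂₁, Matrix.det_one, one_mul, ← Matrix.det_transpose]
      rfl
    have hfr' : Sum.elim f r = fun j => ∑ i, P i j • (Sum.elim f vw) i := by
      funext j
      rcases j with j | j
      · rw [Fintype.sum_sum_type]
        simp only [Sum.elim_inl, Sum.elim_inr, hP, Matrix.fromBlocks_apply₁₁,
          Matrix.fromBlocks_apply₂₁, Matrix.zero_apply, zero_smul, Finset.sum_const_zero, add_zero]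
        rw [Finset.sum_eq_single j]
        · rw [Matrix.one_apply_eq, one_smul]
        · intro l _ hl
          rw [Matrix.one_apply_ne hl, zero_smul]
        · intro hj
          exact absurd (Finset.mem_univ j) hj
      · rw [Fintype.sum_sum_type]
        simp only [Sum.elim_inl, Sum.elim_inr, hP, Matrix.fromBlocks_apply₁₂,
          Matrix.fromBlocks_apply₂₂, Matrix.of_apply]
        exact hc j
    have h1 : dv m₁ (Sum.elim f r) A =
        A.1.valuation (Matrix.of fun i j => γ j (r i)).det * dv m₁ (Sum.elim f vw) A := by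
      rw [hfr', dv_mul, hPdet]
    have h2 : dv m₁ (Sum.elim f r) A ≤ dv m₁ f A * C A ^ s := by
      refine le_trans (dv_sum_le m₁ hm₁.1 f r A) ?_
      refine mul_le_mul_right ?_ _
      have := Finset.prod_le_pow_card Finset.univ (fun j => mn m₁ A (r j)) (C A)
        fun j _ => hrC j
      rw [Finset.card_univ, Fintype.card_fin] at this
      exact this
    have h3 : dv m₁ (Sum.elim f vw) A ≠ 0 := Lm_ne hL2 A
    show A.1.valuation _ ≤ dv m₁ f A * C A ^ s / dv m₁ (Sum.elim f vw) A
    rw [le_div_iff₀ (zero_lt_iff.2 h3), ← h1]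
    exact h2
  have hfinal := hT m₁ hm₁ F g' hsl (Fin s × Bool) θ hθ0 D _ hLD hbound
  rw [Fintype.card_prod, Fintype.card_fin, Fintype.card_bool] at hfinal
  push_cast at hfinal
  have hs1 : (1 : ℝ) ≤ s := by exact_mod_cast hs
  have h4 := (hnear₁ L).2
  have h5 := hF.2.1 L
  have h6 := (hnear₁ F).1
  have hx' : x ≤ 3 * η := by
    refine le_trans hx (le_of_eq ?_)
    norm_num
  have h7 : (s : ℝ) * x ≤ s * (3 * η) := mul_le_mul_of_nonneg_left hx' (by linarith)
  have h8 : η ≤ s * η := by nlinarith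
  have h9 : (s : ℝ) * η ≤ s * (g' / 4) := mul_le_mul_of_nonneg_left hη2 (by linarith)
  have h10 : 0 < (s : ℝ) * g' := mul_pos (by linarith) hg'0
  nlinarith

end Pool.Agent.Lib.MP_17a322_nt.FQ
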