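import Pool.Agent.Lib.MP_17a322_nt.FQ.G3
import Pool.Agent.Lib.MP_17a322_nt.FQ.G4
import Pool.Agent.Lib.MP_17a322_nt.FQ.I2

universe u v

namespace Pool.Agent.Lib.MP_17a322_nt.FQ

variable {k : Type v} {E : Type u} [Field k] [Field E] [Algebra k E] {κ : Type} [Fintype κ]

/-- The constants of the subspace of maximal degree are many: `finrank F + 1` elements are never
algebraically independent over them. -/
theorem no_indep [FiniteDimensional E (Derivation k E E)] (H : Ht k E) (hV : Vj H)
    (hT : Tens H) (m : κ → E) (hm : IsMd k m) {F : Submodule E (Derivation k E E)} {g : ℝ}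
    (hF : Mx H F g) (hr : 0 < Module.finrank E F) (f : Fin (Module.finrank E F + 1) → E) :
    ¬ AlgebraicIndependent (cst F) f := by
  classical
  intro hf
  obtain ⟨x, D, -, -, hcomm, -, hspan⟩ := exists_comm F (invol H hV hT m hm hF)
  have hz : 0 < Module.finrank E (Derivation k E E) :=
    lt_of_lt_of_le hr (Submodule.finrank_le F)
  have hzR : (0 : ℝ) < Module.finrank E (Derivation k E E) := by exact_mod_cast hz
  set z : ℝ := (Module.finrank E (Derivation k E E) : ℝ) with hzdef
  have hg : 0 < g / (2 * z) := div_pos hF.1 (by positivity)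
  set g' : ℝ := g / (2 * z) with hg'
  set f' : Fin (Module.finrank E F + 1 + 1) → E := Fin.cons 1 f with hf'
  have hf'0 : f' ≠ 0 := by
    intro h
    have h0 := congrFun h 0
    rw [hf', Fin.cons_zero, Pi.zero_apply] at h0
    exact one_ne_zero h0
  obtain ⟨t, ht⟩ := exists_nat_gt (2 * H.lam f' / g')
  rw [div_lt_iff₀ hg] at ht
  obtain ⟨K, hK, hlarge⟩ := exists_large (Module.finrank E F) t
  have hcard := card_sym (Module.finrank E F) K
  have hli := linInd_monomials (C := cst F) f hf K
  obtain ⟨w, hw1, hw2⟩ := degree_bound H hV hT m hm hF D hcomm hspan f' hf'0 hli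
  rw [← hzdef, ← hg'] at hw2
  set d : ℕ := Fintype.card (Sym (Fin (Module.finrank E F + 1 + 1)) K) with hd
  have hdl : 2 * (K * t + 1) ^ Module.finrank E F ≤ d := by
    rw [hd]; rw [← hcard] at hlarge; exact hlarge
  have hd0 : 0 < d := lt_of_lt_of_le (by positivity) hdl
  have hsum := sum_ge (fun b => (w b).length) (Module.finrank E F) (K * t) (hw1 (K * t)) hdl
  have hsumR : (d : ℝ) * (K * t) ≤ 2 * ∑ b, ((w b).length : ℝ) := by exact_mod_cast hsum
  have hKR : (0 : ℝ) < K := by exact_mod_cast hK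
  have hdR : (0 : ℝ) < d := by exact_mod_cast hd0
  have h1 : g' * (d * (K * t)) ≤ 2 * (K * d * H.lam f') := by
    calc g' * (d * (K * t)) ≤ g' * (2 * ∑ b, ((w b).length : ℝ)) :=
          mul_le_mul_of_nonneg_left hsumR hg.le
      _ = 2 * (g' * ∑ b, ((w b).length : ℝ)) := by ring
      _ ≤ 2 * (K * d * H.lam f') := mul_le_mul_of_nonneg_left hw2 (by norm_num)
  have h2 : (K * d : ℝ) * (t * g') ≤ (K * d : ℝ) * (2 * H.lam f') := by
    calc (K * d : ℝ) * (t * g') = g' * (d * (K * t)) := by ring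
      _ ≤ 2 * (K * d * H.lam f') := h1
      _ = (K * d : ℝ) * (2 * H.lam f') := by ring
  have h3 : (t : ℝ) * g' ≤ 2 * H.lam f' := le_of_mul_le_mul_left h2 (mul_pos hKR hdR)
  exact absurd ht (not_lt.mpr h3)

end Pool.Agent.Lib.MP_17a322_nt.FQ
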