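import Pool.Agent.Lib.MP_17a322_nt.FQ.N2

/-!
The maximal minors of the vectors `f a * g l b - f b * g l a` and of the vectors `f`, `g l`.
-/

namespace Pool.Agent.Lib.MP_17a322_nt.FQ

section

variable {W G κ τ : Type*} [Field W] [LinearOrderedCommGroupWithZero G] (v : Valuation W G)
  [Fintype κ] [Fintype τ] [DecidableEq τ]

/-- The vectors `f`, `g l`. -/
def jv (f : κ → W) (g : τ → κ → W) : Option τ → κ → W := fun o => o.elim f g

/-- The vectors with the coordinates `f a * g l b - f b * g l a`. -/
def wv (f : κ → W) (g : τ → κ → W) : τ → κ × κ → W := fun l p => f p.1 * g l p.2 - f p.2 * g l p.1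

omit [Fintype κ] in
/-- The minors which contain the index `a₁`. -/
theorem plk_jv (f : κ → W) (g : τ → κ → W) (a₁ : κ) (ha : f a₁ ≠ 0) (t : τ → κ) :
    f a₁ ^ Fintype.card τ * plk (jv f g) (fun o => o.elim a₁ t) =
      f a₁ * plk (wv f g) (fun l => (a₁, t l)) := by
  rw [plk_apply, plk_apply]
  let e : τ ⊕ PUnit.{1} ≃ Option τ := (Equiv.optionEquivSumPUnit τ).symm
  let A : Matrix τ τ W := fun i l => g l (t i)
  let B : Matrix τ PUnit.{1} W := fun i _ => f (t i)
  let C : Matrix PUnit.{1} τ W := fun _ l => g l a₁
  let D : Matrix PUnit.{1} PUnit.{1} W := fun _ _ => f a₁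
  have h1 : (Matrix.of fun i j => jv f g j ((fun o : Option τ => o.elim a₁ t) i)).submatrix e e =
      Matrix.fromBlocks A B C D := by
    ext i j
    rcases i with i | i <;> rcases j with j | j <;> rfl
  rw [← Matrix.det_submatrix_equiv_self e, h1]
  let L : Matrix (τ ⊕ PUnit.{1}) (τ ⊕ PUnit.{1}) W :=
    Matrix.fromBlocks (f a₁ • (1 : Matrix τ τ W)) (-B) 0 1
  have hL : L.det = f a₁ ^ Fintype.card τ := by
    simp only [L]
    rw [Matrix.det_fromBlocks_zero₂₁, Matrix.det_one, mul_one, Matrix.det_smul, Matrix.det_one, mul_one]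
  have hLM : L * Matrix.fromBlocks A B C D =
      Matrix.fromBlocks (Matrix.of fun i j => wv f g j ((fun l => (a₁, t l)) i)) 0 C D := by
    simp only [L]
    rw [Matrix.fromBlocks_multiply]
    congr 1
    · ext i l
      simp only [Matrix.add_apply, Matrix.mul_apply, Matrix.smul_apply, Matrix.one_apply, smul_eq_mul,
        mul_ite, mul_one, mul_zero, ite_mul, zero_mul, Finset.sum_ite_eq, Finset.mem_univ, if_true,
        Matrix.neg_apply, Finset.univ_unique, Finset.sum_singleton, Matrix.of_apply, A, B, C, wv]
      ring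
    · ext i l
      simp only [Matrix.add_apply, Matrix.mul_apply, Matrix.smul_apply, Matrix.one_apply, smul_eq_mul,
        mul_ite, mul_one, mul_zero, ite_mul, zero_mul, Finset.sum_ite_eq, Finset.mem_univ, if_true,
        Matrix.neg_apply, Finset.univ_unique, Finset.sum_singleton, B, D, Matrix.zero_apply]
      ring
    · rw [Matrix.zero_mul, zero_add, Matrix.one_mul]
    · rw [Matrix.zero_mul, zero_add, Matrix.one_mul]
  have hD : D.det = f a₁ := by
    rw [Matrix.det_unique]
  calc f a₁ ^ Fintype.card τ * (Matrix.fromBlocks A B C D).det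
      = (L * Matrix.fromBlocks A B C D).det := by rw [Matrix.det_mul, hL]
    _ = f a₁ * (Matrix.of fun i j => wv f g j ((fun l => (a₁, t l)) i)).det := by
        rw [hLM, Matrix.det_fromBlocks_zero₁₂, hD, mul_comm]

/-- The minors are bounded by the minors which contain the index `a₁` at which `|f|` has its maximum. -/
theorem vn_plk_jv_le (f : κ → W) (g : τ → κ → W) (a₁ : κ) (ha : f a₁ ≠ 0) (ha' : ∀ a, v (f a) ≤ v (f a₁))
    (γ : G) (h : ∀ t : τ → κ, v (plk (jv f g) (fun o => o.elim a₁ t)) ≤ γ) :
    vn v (plk (jv f g)) ≤ γ := by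
  apply vn_le
  intro s
  have hva : v (f a₁) ≠ 0 := (Valuation.ne_zero_iff v).2 ha
  have hva' : 0 < v (f a₁) := pos_of_ne_zero hva
  have hstep : ∀ i : Option τ, v (plk (jv f g) (Function.update s i a₁)) ≤ γ := by
    intro i
    have h2 : (fun o : Option τ => o.elim a₁
        (fun l => Function.update s i a₁ (Equiv.swap i none (some l)))) =
        fun o => Function.update s i a₁ (Equiv.swap i none o) := by
      funext o
      rcases o with _ | l
      · rw [Equiv.swap_apply_right, Function.update_self]
        rfl
      · rfl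
    have h3 := h (fun l => Function.update s i a₁ (Equiv.swap i none (some l)))
    rw [h2] at h3
    have h4 : plk (jv f g) (fun o => Function.update s i a₁ (Equiv.swap i none o)) =
        ((Equiv.Perm.sign (Equiv.swap i none) : ℤˣ) : ℤ) * plk (jv f g) (Function.update s i a₁) := by
      rw [plk_apply, plk_apply]
      exact Matrix.det_permute (Equiv.swap i none)
        (Matrix.of fun i' j => jv f g j (Function.update s i a₁ i'))
    rw [h4, map_mul] at h3
    have h5 : v (((Equiv.Perm.sign (Equiv.swap i none) : ℤˣ) : ℤ) : W) = 1 := by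
      rcases Int.units_eq_one_or (Equiv.Perm.sign (Equiv.swap i none)) with h6 | h6
      · rw [h6, Units.val_one, Int.cast_one, map_one]
      · rw [h6, Units.val_neg, Units.val_one, Int.cast_neg, Int.cast_one, Valuation.map_neg, map_one]
    rw [h5, one_mul] at h3
    exact h3
  have hcr := Matrix.mulVec_cramer (Matrix.transpose (Matrix.of fun i j => jv f g j (s i)))
    (fun j => jv f g j a₁)
  have h7 := congrFun hcr none
  rw [Matrix.det_transpose, Pi.smul_apply, smul_eq_mul, Matrix.mulVec, dotProduct] at h7
  have h8 : ∀ i : Option τ, Matrix.cramer (Matrix.transpose (Matrix.of fun i j => jv f g j (s i)))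
      (fun j => jv f g j a₁) i = plk (jv f g) (Function.update s i a₁) := by
    intro i
    rw [Matrix.cramer_transpose_apply, plk_apply]
    congr 1
    ext i' j
    by_cases hi : i' = i
    · rw [hi, Matrix.updateRow_self, Matrix.of_apply, Function.update_self]
    · rw [Matrix.updateRow_ne hi, Matrix.of_apply, Matrix.of_apply, Function.update_of_ne hi]
  have h9 : v (plk (jv f g) s) * v (f a₁) ≤ γ * v (f a₁) := by
    rw [← map_mul]
    have h10 : plk (jv f g) s * f a₁ = ∑ i, f (s i) * plk (jv f g) (Function.update s i a₁) := by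
      rw [plk_apply]
      refine Eq.trans h7.symm ?_
      apply Finset.sum_congr rfl
      intro i _
      rw [h8 i]
      rfl
    rw [h10]
    apply v.map_sum_le
    intro i _
    rw [map_mul, mul_comm]
    exact mul_le_mul' (hstep i) (ha' (s i))
  exact le_of_mul_le_mul_right h9 hva'

/-- The minors of the two systems of vectors. -/
theorem vn_plk_wv (f : κ → W) (hf : f ≠ 0) (g : τ → κ → W) :
    vn v (plk (wv f g)) * vn v f = vn v f ^ Fintype.card τ * vn v (plk (jv f g)) := by
  classical
  obtain ⟨a₁, ha, hva⟩ := vn_attained' v hf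
  have hN : vn v f ≠ 0 := (vn_ne_zero v).2 hf
  have hN' : 0 < vn v f := pos_of_ne_zero hN
  have hle : ∀ a, v (f a) ≤ v (f a₁) := by
    intro a
    rw [hva]
    exact le_vn v f a
  have hplk : ∀ t : τ → κ, vn v f ^ Fintype.card τ * v (plk (jv f g) (fun o => o.elim a₁ t)) =
      vn v f * v (plk (wv f g) (fun l => (a₁, t l))) := by
    intro t
    have h1 := congrArg v (plk_jv f g a₁ ha t)
    rw [map_mul, map_mul, map_pow, hva] at h1
    exact h1
  have hpow : 0 < vn v f ^ Fintype.card τ := pow_pos hN' _
  apply le_antisymm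
  · have h1 : vn v (plk (wv f g)) ≤ vn v (plk fun (l : τ) (b : κ) => wv f g l (a₁, b)) := by
      have h2 : wv f g = fun l p => ∑ b', ((if b' = p.2 then f p.1 / f a₁ else 0) -
          (if b' = p.1 then f p.2 / f a₁ else 0)) * wv f g l (a₁, b') := by
        funext l p
        have h3 : ∀ b', ((if b' = p.2 then f p.1 / f a₁ else 0) -
            (if b' = p.1 then f p.2 / f a₁ else 0)) * wv f g l (a₁, b') =
            (if b' = p.2 then f p.1 / f a₁ * wv f g l (a₁, b') else 0) -
            (if b' = p.1 then f p.2 / f a₁ * wv f g l (a₁, b') else 0) := by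
          intro b'
          split <;> split <;> ring
        rw [Finset.sum_congr rfl fun b' _ => h3 b', Finset.sum_sub_distrib, Finset.sum_ite_eq',
          Finset.sum_ite_eq', if_pos (Finset.mem_univ _), if_pos (Finset.mem_univ _)]
        unfold wv
        field_simp
        ring
      have h4 := vn_plk_map v (fun (p : κ × κ) (b' : κ) => (if b' = p.2 then f p.1 / f a₁ else 0) -
          (if b' = p.1 then f p.2 / f a₁ else 0)) 1 (by
        intro p b'
        have h5 : ∀ a, v (f a / f a₁) ≤ 1 := by
          intro a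
          rw [map_div₀]
          exact div_le_one_of_le₀ (hle a) zero_le
        refine (v.map_sub _ _).trans (max_le ?_ ?_)
        · split
          · exact h5 _
          · rw [map_zero]
            exact zero_le
        · split
          · exact h5 _
          · rw [map_zero]
            exact zero_le) (fun (l : τ) (b : κ) => wv f g l (a₁, b))
      rw [one_pow, one_mul] at h4
      exact (le_of_eq (congrArg (fun y => vn v (plk y)) h2)).trans h4
    have h6 : vn v (plk fun (l : τ) (b : κ) => wv f g l (a₁, b)) * vn v f ≤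
        vn v f ^ Fintype.card τ * vn v (plk (jv f g)) := by
      by_cases h0 : (plk fun (l : τ) (b : κ) => wv f g l (a₁, b)) = 0
      · rw [h0, (vn_eq_zero v).2 rfl, zero_mul]
        exact zero_le
      obtain ⟨t, -, ht⟩ := vn_attained' v h0
      rw [← ht]
      have h7 : plk (fun (l : τ) (b : κ) => wv f g l (a₁, b)) t =
          plk (wv f g) (fun l => (a₁, t l)) := rfl
      rw [h7, mul_comm, ← hplk t]
      exact mul_le_mul_right (le_vn v (plk (jv f g)) _) _
    exact (mul_le_mul_left h1 _).trans h6
  · have h1 := vn_plk_jv_le v f g a₁ ha hle (vn v f * vn v (plk (wv f g)) / vn v f ^ Fintype.card τ) (by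
      intro t
      rw [le_div_iff₀ hpow, mul_comm, hplk t]
      exact mul_le_mul_right (le_vn v (plk (wv f g)) _) _)
    rw [le_div_iff₀ hpow] at h1
    rw [mul_comm, mul_comm (vn v (plk (wv f g)))]
    exact h1

end

end Pool.Agent.Lib.MP_17a322_nt.FQ
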