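import Mathlib

/-!
Multilinear forms and weighted filtrations: definitions.

A multilinear form of degree `N` on `E ^ ρ` is given by its coefficients `c I`, `I : Fin N → ρ`. A
weighted filtration of the space `W ^ ρ` is given by a basis `b j`, `j ∈ ρ`, and real weights `y j`.
-/

universe u

namespace Pool.Agent.Lib.MP_17a322_nt.FQ

section

variable {E W ρ : Type*} [Field E] [Field W] [Algebra E W] [Fintype ρ] {N : ℕ}

/-- The value of the multilinear form with the coefficients `c` at the vectors `v k`, with coordinates
in an extension field of the field of the coefficients. -/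
noncomputable def mev (c : (Fin N → ρ) → E) (v : Fin N → ρ → W) : W :=
  ∑ I : Fin N → ρ, algebraMap E W (c I) * ∏ k, v k (I k)

/-- The indices of the nonzero coefficients of the form with respect to the vectors `b j`. -/
noncomputable def spt (c : (Fin N → ρ) → E) (b : ρ → ρ → W) : Finset (Fin N → ρ) :=
  open Classical in Finset.univ.filter fun I => mev c (fun k => b (I k)) ≠ 0

end

section

variable {W ρ : Type*} [Field W]

/-- The step `t` of the filtration with the basis `b` and the weights `y`. -/
def Fil (b : ρ → ρ → W) (y : ρ → ℝ) (t : ℝ) : Submodule W (ρ → W) :=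
  Submodule.span W (b '' {j | t ≤ y j})

/-- Two weighted filtrations are equal. -/
def FEq (b : ρ → ρ → W) (y : ρ → ℝ) (b' : ρ → ρ → W) (y' : ρ → ℝ) : Prop :=
  ∀ t, Fil b y t = Fil b' y' t

end

section

variable {ρ : Type*} [Fintype ρ] {N : ℕ}

/-- The function which is minimised: the largest weight of an index in `S`, plus half the sum of the
squares of the weights. -/
noncomputable def PhiS (S : Finset (Fin N → ρ)) (hS : S.Nonempty) (y : ρ → ℝ) : ℝ :=
  S.sup' hS (fun I => ∑ k, y (I k)) + (∑ j, y j ^ 2) / 2

end

end Pool.Agent.Lib.MP_17a322_nt.FQ
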