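import Pool.Agent.Lib.MP_17a322_nt.FQ.K0

namespace Pool.Agent.Lib.MP_17a322_nt.FQ

section

variable {W V : Type*} [Field W] [AddCommGroup V] [Module W V] {n : ℕ}

/-- the span of the first `m` vectors -/
def K1_A (W : Type*) {V : Type*} [Field W] [AddCommGroup V] [Module W V] {n : ℕ} (a : Fin n → V)
    (m : ℕ) : Submodule W V := Submodule.span W (a '' {k | k.val < m})

theorem K1_A_zero (a : Fin n → V) : K1_A W a 0 = ⊥ := by
  unfold K1_A
  have : {k : Fin n | k.val < 0} = ∅ := by
    ext k
    simp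
  rw [this, Set.image_empty, Submodule.span_empty]

theorem K1_A_mono (a : Fin n → V) {m m' : ℕ} (h : m ≤ m') : K1_A W a m ≤ K1_A W a m' := by
  unfold K1_A
  refine Submodule.span_mono (Set.image_mono ?_)
  intro k hk
  exact lt_of_lt_of_le hk h

theorem K1_A_succ (a : Fin n → V) (k : Fin n) :
    K1_A W a (k.val + 1) = Submodule.span W (insert (a k) (a '' {l | l.val < k.val})) := by
  unfold K1_A
  congr 1
  rw [← Set.image_insert_eq]
  congr 1
  ext l
  simp only [Set.mem_ofPred_eq, Set.mem_insert_iff, Fin.ext_iff]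
  omega

theorem K1_mem (a : Fin n → V) (k : Fin n) : a k ∈ K1_A W a (k.val + 1) := by
  rw [K1_A_succ]
  exact Submodule.subset_span (Set.mem_insert _ _)

theorem K1_notMem {a : Fin n → V} (ha : LinearIndependent W a) (k : Fin n) :
    a k ∉ K1_A W a k.val := by
  unfold K1_A
  refine ha.notMem_span_image ?_
  simp

/-- a system adapted to a flag spans the flag -/
theorem K1_flag {a d : Fin n → V} (h1 : ∀ k : Fin n, d k ∈ K1_A W a (k.val + 1))
    (h2 : ∀ k : Fin n, d k ∉ K1_A W a k.val) (m : ℕ) (hm : m ≤ n) : K1_A W d m = K1_A W a m := by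
  induction m with
  | zero => rw [K1_A_zero, K1_A_zero]
  | succ m ih =>
    have ih' := ih (by omega)
    set k : Fin n := ⟨m, by omega⟩ with hk
    have e1 : K1_A W d (m + 1) = Submodule.span W {d k} ⊔ K1_A W a m := by
      rw [← ih']
      have := K1_A_succ (W := W) d k
      rw [Submodule.span_insert] at this
      exact this
    have e2 : K1_A W a (m + 1) = Submodule.span W {a k} ⊔ K1_A W a m := by
      have := K1_A_succ (W := W) a k
      rw [Submodule.span_insert] at this
      exact this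
    rw [e1, e2]
    apply le_antisymm
    · refine sup_le ?_ le_sup_right
      rw [Submodule.span_singleton_le_iff_mem, ← e2]
      exact h1 k
    · refine sup_le ?_ le_sup_right
      rw [Submodule.span_singleton_le_iff_mem]
      have h3 := h1 k
      rw [K1_A_succ] at h3
      have h4 := mem_span_insert_exchange h3 (h2 k)
      rw [Submodule.span_insert] at h4
      exact h4

open Classical in
/-- a basis adapted to two flags -/
theorem K1_flags {a a' : Fin n → V} (ha : LinearIndependent W a) (ha' : K1_A W a' n = ⊤) :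
    ∃ (d : Fin n → V) (σ : Equiv.Perm (Fin n)), (∀ m ≤ n, K1_A W d m = K1_A W a m) ∧
      ∀ m ≤ n, K1_A W (d ∘ σ.symm) m = K1_A W a' m := by
  have hP : ∀ i : Fin n, ∃ j : ℕ, ∃ v, v ∈ K1_A W a (i.val + 1) ∧ v ∈ K1_A W a' j ∧
      v ∉ K1_A W a i.val := fun i =>
    ⟨n, a i, K1_mem a i, by rw [ha']; exact Submodule.mem_top, K1_notMem ha i⟩
  have hN : ∀ i : Fin n, Nat.find (hP i) ≤ n := fun i =>
    Nat.find_min' (hP i) ⟨a i, K1_mem a i, by rw [ha']; exact Submodule.mem_top, K1_notMem ha i⟩
  have h0 : ∀ i : Fin n, Nat.find (hP i) ≠ 0 := by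
    intro i h
    obtain ⟨v, -, h2, h3⟩ := Nat.find_spec (hP i)
    rw [h, K1_A_zero, Submodule.mem_bot] at h2
    rw [h2] at h3
    exact h3 (Submodule.zero_mem _)
  have hs : ∀ i : Fin n, ∃ s : Fin n, s.val + 1 = Nat.find (hP i) := fun i =>
    ⟨⟨Nat.find (hP i) - 1, by have := hN i; have := h0 i; omega⟩, by
      have := h0 i
      show Nat.find (hP i) - 1 + 1 = Nat.find (hP i)
      omega⟩
  choose s hs using hs
  have hd : ∀ i : Fin n, ∃ v, v ∈ K1_A W a (i.val + 1) ∧ v ∈ K1_A W a' ((s i).val + 1) ∧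
      v ∉ K1_A W a i.val := by
    intro i
    rw [hs i]
    exact Nat.find_spec (hP i)
  choose d hd1 hd2 hd3 using hd
  have hmin : ∀ (i : Fin n) (v : V), v ∈ K1_A W a (i.val + 1) → v ∈ K1_A W a' (s i).val →
      v ∈ K1_A W a i.val := by
    intro i v h1 h2
    by_contra h3
    exact Nat.find_min (hP i) (m := (s i).val) (by rw [← hs i]; omega) ⟨v, h1, h2, h3⟩
  have hd4 : ∀ i : Fin n, d i ∉ K1_A W a' (s i).val := fun i h => hd3 i (hmin i _ (hd1 i) h)
  have hlt : ∀ i k : Fin n, i < k → s i ≠ s k := by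
    intro i k hik he
    have h1 := hd2 k
    have h2 := hd2 i
    rw [← he, K1_A_succ] at h1
    rw [K1_A_succ] at h2
    have h3 := mem_span_insert_exchange h2 (hd4 i)
    have h4 : Submodule.span W (insert (a' (s i)) (a' '' {l | l.val < (s i).val})) ≤
        Submodule.span W (insert (d i) (a' '' {l | l.val < (s i).val})) := by
      rw [Submodule.span_le, Set.insert_subset_iff]
      exact ⟨h3, fun x hx => Submodule.subset_span (Set.mem_insert_of_mem _ hx)⟩
    obtain ⟨c, w, hw, hc⟩ := Submodule.mem_span_insert.1 (h4 h1)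
    have h5 : d i ∈ K1_A W a k.val := K1_A_mono a (Nat.succ_le_of_lt hik) (hd1 i)
    have h6 : w ∈ K1_A W a (k.val + 1) := by
      have : w = d k - c • d i := by
        rw [hc]
        abel
      rw [this]
      exact Submodule.sub_mem _ (hd1 k)
        (Submodule.smul_mem _ _ (K1_A_mono a (Nat.le_succ _) h5))
    have h7 : w ∈ K1_A W a k.val := by
      refine hmin k w h6 ?_
      rw [← he]
      exact hw
    apply hd3 k
    rw [hc]
    exact Submodule.add_mem _ (Submodule.smul_mem _ _ h5) h7
  have hinj : Function.Injective s := by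
    intro i k he
    rcases lt_trichotomy i k with h | h | h
    · exact absurd he (hlt i k h)
    · exact h
    · exact absurd he.symm (hlt k i h)
  have hbij : Function.Bijective s := Finite.injective_iff_bijective.1 hinj
  refine ⟨d, Equiv.ofBijective s hbij, fun m hm => K1_flag hd1 hd3 m hm, fun m hm => ?_⟩
  have e : ∀ k : Fin n, s ((Equiv.ofBijective s hbij).symm k) = k := fun k =>
    (Equiv.ofBijective s hbij).apply_symm_apply k
  refine K1_flag (fun k => ?_) (fun k => ?_) m hm
  · have := hd2 ((Equiv.ofBijective s hbij).symm k)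
    rw [e k] at this
    exact this
  · have := hd4 ((Equiv.ofBijective s hbij).symm k)
    rw [e k] at this
    exact this

/-- the initial segments -/
theorem K1_seg {S : Set (Fin n)} (hS : ∀ k l : Fin n, k ≤ l → l ∈ S → k ∈ S) :
    ∃ m ≤ n, S = {k | k.val < m} := by
  classical
  by_cases h : ∃ j : ℕ, ∃ hj : j < n, (⟨j, hj⟩ : Fin n) ∉ S
  · obtain ⟨hj, h1⟩ := Nat.find_spec h
    refine ⟨Nat.find h, hj.le, ?_⟩
    ext k
    constructor
    · intro hk
      by_contra h2
      exact h1 (hS ⟨Nat.find h, hj⟩ k (not_lt.1 h2) hk)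
    · intro hk
      by_contra h2
      exact Nat.find_min h hk ⟨k.2, h2⟩
  · refine ⟨n, le_rfl, ?_⟩
    ext k
    constructor
    · intro _
      exact k.2
    · intro _
      by_contra h2
      exact h ⟨k.val, k.2, h2⟩

/-- an enumeration with decreasing weights -/
theorem K1_sort {ρ : Type*} [Fintype ρ] (y : ρ → ℝ) (hn : Fintype.card ρ = n) :
    ∃ e : Fin n ≃ ρ, ∀ k l : Fin n, k ≤ l → y (e l) ≤ y (e k) := by
  have e0 : Fin n ≃ ρ := (Fintype.equivFinOfCardEq hn).symm
  refine ⟨(Tuple.sort fun k => -y (e0 k)).trans e0, fun k l h => ?_⟩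
  have := Tuple.monotone_sort (fun k => -y (e0 k)) h
  simp only [Function.comp_apply] at this
  simp only [Equiv.trans_apply]
  linarith

end

/-- Two weighted filtrations have a common adapted basis. -/
theorem common_basis {W ρ : Type*} [Field W] [Fintype ρ] [DecidableEq ρ] (b b' : ρ → ρ → W)
    (hb : LinearIndependent W b) (hb' : LinearIndependent W b') (y y' : ρ → ℝ) :
    ∃ (d : ρ → ρ → W) (z z' : ρ → ℝ), LinearIndependent W d ∧ FEq d z b y ∧ FEq d z' b' y' := by
  obtain ⟨e, he⟩ := K1_sort y rfl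
  obtain ⟨e', he'⟩ := K1_sort y' rfl
  have hfin : Module.finrank W (ρ → W) = Fintype.card ρ := Module.finrank_fintype_fun_eq_card W
  have htop : ∀ a : Fin (Fintype.card ρ) → (ρ → W), LinearIndependent W a →
      K1_A W a (Fintype.card ρ) = ⊤ := by
    intro a ha
    have h1 : {k : Fin (Fintype.card ρ) | k.val < Fintype.card ρ} = Set.univ := by
      ext k
      simp
    unfold K1_A
    rw [h1, Set.image_univ]
    exact ha.span_eq_top_of_card_eq_finrank' (by rw [Fintype.card_fin, hfin])
  have ha : LinearIndependent W (b ∘ e) := hb.comp _ e.injective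
  have ha' : LinearIndependent W (b' ∘ e') := hb'.comp _ e'.injective
  obtain ⟨d, σ, h1, h2⟩ := K1_flags ha (htop _ ha')
  have hind : LinearIndependent W d := by
    refine linearIndependent_of_top_le_span_of_card_eq_finrank ?_ (by rw [Fintype.card_fin, hfin])
    have h3 := h1 _ le_rfl
    rw [htop _ ha] at h3
    rw [← h3]
    unfold K1_A
    exact Submodule.span_mono (Set.image_subset_range _ _)
  refine ⟨d ∘ e.symm, y, fun j => y' (e' (σ (e.symm j))), hind.comp _ e.symm.injective,
    fun t => ?_, fun t => ?_⟩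
  · obtain ⟨m, hm, hS⟩ := K1_seg (S := {k : Fin (Fintype.card ρ) | t ≤ y (e k)})
      (fun k l hkl hl => le_trans hl (he k l hkl))
    have h3 := h1 m hm
    unfold K1_A at h3
    rw [← hS] at h3
    have i1 : (d ∘ e.symm) '' {j | t ≤ y j} = d '' {k | t ≤ y (e k)} := by
      ext v
      constructor
      · rintro ⟨j, hj, rfl⟩
        exact ⟨e.symm j, by simpa using hj, rfl⟩
      · rintro ⟨k, hk, rfl⟩
        exact ⟨e k, hk, by simp⟩
    have i2 : b '' {j | t ≤ y j} = (b ∘ e) '' {k | t ≤ y (e k)} := by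
      ext v
      constructor
      · rintro ⟨j, hj, rfl⟩
        exact ⟨e.symm j, by simpa using hj, by simp⟩
      · rintro ⟨k, hk, rfl⟩
        exact ⟨e k, hk, rfl⟩
    unfold Fil
    rw [i1, i2]
    exact h3
  · obtain ⟨m, hm, hS⟩ := K1_seg (S := {k : Fin (Fintype.card ρ) | t ≤ y' (e' k)})
      (fun k l hkl hl => le_trans hl (he' k l hkl))
    have h3 := h2 m hm
    unfold K1_A at h3
    rw [← hS] at h3
    have i1 : (d ∘ e.symm) '' {j | t ≤ y' (e' (σ (e.symm j)))} =
        (d ∘ σ.symm) '' {k | t ≤ y' (e' k)} := by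
      ext v
      constructor
      · rintro ⟨j, hj, rfl⟩
        exact ⟨σ (e.symm j), hj, by simp⟩
      · rintro ⟨k, hk, rfl⟩
        exact ⟨e (σ.symm k), by simpa using hk, by simp⟩
    have i2 : b' '' {j | t ≤ y' j} = (b' ∘ e') '' {k | t ≤ y' (e' k)} := by
      ext v
      constructor
      · rintro ⟨j, hj, rfl⟩
        exact ⟨e'.symm j, by simpa using hj, by simp⟩
      · rintro ⟨k, hk, rfl⟩
        exact ⟨e' k, hk, rfl⟩
    unfold Fil
    rw [i1, i2]
    exact h3

end Pool.Agent.Lib.MP_17a322_nt.FQ
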