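import Pool.Agent.Lib.MP_17a322_nt.FQ.K0

namespace Pool.Agent.Lib.MP_17a322_nt.FQ

open Filter Topology

variable {ρ : Type*} [Fintype ρ] {N : ℕ}

private theorem K2_cont (S : Finset (Fin N → ρ)) (hS : S.Nonempty) : Continuous (PhiS S hS) := by
  unfold PhiS
  refine Continuous.add ?_ ?_
  · refine Continuous.finset_sup'_apply hS fun I _ => ?_
    exact continuous_finsetSum _ fun k _ => continuous_apply (I k)
  · refine Continuous.div_const ?_ 2
    exact continuous_finsetSum _ fun j _ => (continuous_apply j).pow 2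

private theorem K2_zero (S : Finset (Fin N → ρ)) (hS : S.Nonempty) :
    PhiS S hS (fun _ => 0) = 0 := by
  unfold PhiS
  simp [Finset.sup'_const]

private theorem K2_lower (S : Finset (Fin N → ρ)) (hS : S.Nonempty) (y : ρ → ℝ) :
    ‖y‖ ^ 2 / 2 - N * ‖y‖ ≤ PhiS S hS y := by
  obtain ⟨I, hI⟩ := hS
  have h1 : -(N * ‖y‖) ≤ S.sup' ⟨I, hI⟩ (fun I => ∑ k, y (I k)) := by
    have h2 : -(N * ‖y‖) ≤ ∑ k, y (I k) := by
      have h3 : ∑ _k : Fin N, -‖y‖ ≤ ∑ k, y (I k) := by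
        refine Finset.sum_le_sum fun k _ => ?_
        have h4 := norm_le_pi_norm y (I k)
        rw [Real.norm_eq_abs] at h4
        exact (abs_le.1 h4).1
      rw [Finset.sum_const, Finset.card_univ, Fintype.card_fin, nsmul_eq_mul] at h3
      linarith
    exact h2.trans (Finset.le_sup' (fun I => ∑ k, y (I k)) hI)
  have h5 : ‖y‖ ^ 2 ≤ ∑ j, y j ^ 2 := by
    have h6 : 0 ≤ ∑ j, y j ^ 2 := Finset.sum_nonneg fun j _ => sq_nonneg _
    have h7 : ‖y‖ ≤ Real.sqrt (∑ j, y j ^ 2) := by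
      rw [pi_norm_le_iff_of_nonneg (Real.sqrt_nonneg _)]
      intro j
      rw [Real.norm_eq_abs, ← Real.sqrt_sq_eq_abs]
      exact Real.sqrt_le_sqrt (Finset.single_le_sum (f := fun j => y j ^ 2)
        (fun j _ => sq_nonneg _) (Finset.mem_univ j))
    calc ‖y‖ ^ 2 ≤ (Real.sqrt (∑ j, y j ^ 2)) ^ 2 := by
          exact pow_le_pow_left₀ (norm_nonneg _) h7 2
      _ = _ := Real.sq_sqrt h6
  unfold PhiS
  linarith

/-- The minimum is attained. -/
theorem Phi_min (S : Finset (Fin N → ρ)) (hS : S.Nonempty) : ∃ y, ∀ y', PhiS S hS y ≤ PhiS S hS y' := by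
  have hc : IsCompact (Metric.closedBall (0 : ρ → ℝ) (2 * N)) := isCompact_closedBall _ _
  have h0 : (0 : ρ → ℝ) ∈ Metric.closedBall (0 : ρ → ℝ) (2 * N) :=
    Metric.mem_closedBall_self (by positivity)
  obtain ⟨y, -, hy⟩ := hc.exists_isMinOn ⟨0, h0⟩ (K2_cont S hS).continuousOn
  refine ⟨y, fun y' => ?_⟩
  by_cases h : y' ∈ Metric.closedBall (0 : ρ → ℝ) (2 * N)
  · exact hy h
  · rw [mem_closedBall_zero_iff, not_le] at h
    have h1 : PhiS S hS y ≤ PhiS S hS (fun _ => 0) := hy h0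
    rw [K2_zero] at h1
    have h2 := K2_lower S hS y'
    have h3 : (0 : ℝ) ≤ N := Nat.cast_nonneg N
    nlinarith [norm_nonneg y']

/-- Strict convexity. -/
theorem Phi_mid (S : Finset (Fin N → ρ)) (hS : S.Nonempty) (y y' : ρ → ℝ) (hne : y ≠ y') :
    PhiS S hS (fun j => (y j + y' j) / 2) < max (PhiS S hS y) (PhiS S hS y') := by
  have h1 : S.sup' hS (fun I => ∑ k, (y (I k) + y' (I k)) / 2) ≤
      (S.sup' hS (fun I => ∑ k, y (I k)) + S.sup' hS (fun I => ∑ k, y' (I k))) / 2 := by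
    refine Finset.sup'_le _ _ fun I hI => ?_
    have h2 := Finset.le_sup' (fun I => ∑ k, y (I k)) hI
    have h3 := Finset.le_sup' (fun I => ∑ k, y' (I k)) hI
    rw [← Finset.sum_div, Finset.sum_add_distrib]
    linarith
  have h4 : ∑ j, ((y j + y' j) / 2) ^ 2 = (∑ j, y j ^ 2 + ∑ j, y' j ^ 2) / 2 -
      (∑ j, (y j - y' j) ^ 2) / 4 := by
    rw [← Finset.sum_add_distrib, Finset.sum_div, Finset.sum_div, ← Finset.sum_sub_distrib]
    exact Finset.sum_congr rfl fun j _ => by ring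
  have h5 : 0 < ∑ j, (y j - y' j) ^ 2 := by
    obtain ⟨j, hj⟩ := Function.ne_iff.1 hne
    refine Finset.sum_pos' (fun j _ => sq_nonneg _) ⟨j, Finset.mem_univ j, ?_⟩
    have := sub_ne_zero.2 hj
    positivity
  have h6 : PhiS S hS (fun j => (y j + y' j) / 2) < (PhiS S hS y + PhiS S hS y') / 2 := by
    unfold PhiS
    linarith
  have h7 := le_max_left (PhiS S hS y) (PhiS S hS y')
  have h8 := le_max_right (PhiS S hS y) (PhiS S hS y')
  linarith

private theorem K2_aux (A c : ℝ) (hc : 0 ≤ c) (h : ∀ s : ℝ, |s| < 1 → 0 ≤ s * A + s ^ 2 * c) :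
    A = 0 := by
  by_contra hA
  have hd : 0 < 2 * c + |A| + 1 := by positivity
  have hA2 : 0 < A ^ 2 := by positivity
  have h1 := h (-A / (2 * c + |A| + 1)) (by
    rw [abs_div, abs_neg, abs_of_pos hd, div_lt_one hd]
    linarith)
  have h2 : -A / (2 * c + |A| + 1) * A + (-A / (2 * c + |A| + 1)) ^ 2 * c =
      -(A ^ 2 * (c + |A| + 1) / (2 * c + |A| + 1) ^ 2) := by
    field_simp
    ring
  rw [h2] at h1
  have h3 : 0 < A ^ 2 * (c + |A| + 1) / (2 * c + |A| + 1) ^ 2 := by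
    have h4 := abs_nonneg A
    positivity
  linarith

/-- The conditions at the minimum. -/
theorem Phi_crit (S : Finset (Fin N → ρ)) (hS : S.Nonempty) (y : ρ → ℝ) (hy : ∀ y', PhiS S hS y ≤ PhiS S hS y') :
    (∀ j, y j ≤ 0) ∧ (∑ j, y j = -(N : ℝ)) ∧ (∀ I ∈ S, ∑ k, y (I k) ≤ -∑ j, y j ^ 2) ∧
      ∀ x : ρ → ℝ, ∃ I ∈ S, ∑ k, y (I k) = -∑ j, y j ^ 2 ∧ -∑ j, y j * x j ≤ ∑ k, x (I k) := by
  have hQ : 0 ≤ ∑ j, y j ^ 2 := Finset.sum_nonneg fun j _ => sq_nonneg _
  -- (1)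
  have c1 : ∀ j, y j ≤ 0 := by
    intro j
    by_contra hj
    rw [not_le] at hj
    have h1 := hy (fun j => min (y j) 0)
    have h2 : S.sup' hS (fun I => ∑ k, min (y (I k)) 0) ≤ S.sup' hS (fun I => ∑ k, y (I k)) := by
      refine Finset.sup'_le _ _ fun I hI => ?_
      exact (Finset.sum_le_sum fun k _ => min_le_left _ _).trans
        (Finset.le_sup' (fun I => ∑ k, y (I k)) hI)
    have h3 : ∑ j, min (y j) 0 ^ 2 < ∑ j, y j ^ 2 := by
      refine Finset.sum_lt_sum (fun i _ => ?_) ⟨j, Finset.mem_univ j, ?_⟩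
      · rcases le_total (y i) 0 with h | h
        · rw [min_eq_left h]
        · rw [min_eq_right h, zero_pow two_ne_zero]
          exact sq_nonneg _
      · rw [min_eq_right hj.le, zero_pow two_ne_zero]
        exact pow_pos hj 2
    unfold PhiS at h1
    linarith
  -- (2)
  have c2 : ∑ j, y j = -(N : ℝ) := by
    have h1 : (N : ℝ) + ∑ j, y j = 0 := by
      refine K2_aux _ ((Fintype.card ρ : ℝ) / 2) (by positivity) fun s _ => ?_
      have h2 := hy (fun j => y j + s)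
      have h3 : S.sup' hS (fun I => ∑ k, (y (I k) + s)) ≤
          S.sup' hS (fun I => ∑ k, y (I k)) + N * s := by
        refine Finset.sup'_le _ _ fun I hI => ?_
        rw [Finset.sum_add_distrib, Finset.sum_const, Finset.card_univ, Fintype.card_fin,
          nsmul_eq_mul]
        have := Finset.le_sup' (fun I => ∑ k, y (I k)) hI
        linarith
      have h4 : ∑ j, (y j + s) ^ 2 = ∑ j, y j ^ 2 + 2 * s * ∑ j, y j +
          (Fintype.card ρ : ℝ) * s ^ 2 := by
        have h5 : ∀ j, (y j + s) ^ 2 = y j ^ 2 + 2 * s * y j + s ^ 2 := fun j => by ring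
        simp only [h5, Finset.sum_add_distrib, ← Finset.mul_sum, Finset.sum_const,
          Finset.card_univ, nsmul_eq_mul]
      unfold PhiS at h2
      rw [h4] at h2
      nlinarith
    linarith
  -- (3)
  have c3 : S.sup' hS (fun I => ∑ k, y (I k)) + ∑ j, y j ^ 2 = 0 := by
    refine K2_aux _ ((∑ j, y j ^ 2) / 2) (by positivity) fun s hs => ?_
    have hs1 : 0 ≤ 1 + s := by
      have := (abs_lt.1 hs).1
      linarith
    have h2 := hy (fun j => (1 + s) * y j)
    have h3 : S.sup' hS (fun I => ∑ k, (1 + s) * y (I k)) ≤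
        (1 + s) * S.sup' hS (fun I => ∑ k, y (I k)) := by
      refine Finset.sup'_le _ _ fun I hI => ?_
      rw [← Finset.mul_sum]
      exact mul_le_mul_of_nonneg_left (Finset.le_sup' (fun I => ∑ k, y (I k)) hI) hs1
    have h4 : ∑ j, ((1 + s) * y j) ^ 2 = (1 + s) ^ 2 * ∑ j, y j ^ 2 := by
      rw [Finset.mul_sum]
      exact Finset.sum_congr rfl fun j _ => by ring
    unfold PhiS at h2
    rw [h4] at h2
    nlinarith
  have c3' : S.sup' hS (fun I => ∑ k, y (I k)) = -∑ j, y j ^ 2 := by linarith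
  refine ⟨c1, c2, fun I hI => ?_, fun x => ?_⟩
  · rw [← c3']
    exact Finset.le_sup' (fun I => ∑ k, y (I k)) hI
  -- (4)
  by_contra hcon
  push Not at hcon
  have key : ∀ I ∈ S, ∀ᶠ s in 𝓝[>] (0 : ℝ), ∑ k, y (I k) + s * ∑ k, x (I k) <
      -∑ j, y j ^ 2 + s * (-∑ j, y j * x j) - s ^ 2 * (∑ j, x j ^ 2) / 2 := by
    intro I hI
    by_cases hm : ∑ k, y (I k) = -∑ j, y j ^ 2
    · have h1 := hcon I hI hm
      have h2 : Tendsto (fun s : ℝ => -∑ j, y j * x j - s * (∑ j, x j ^ 2) / 2) (𝓝[>] 0)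
          (𝓝 (-∑ j, y j * x j - 0 * (∑ j, x j ^ 2) / 2)) := by
        refine Tendsto.mono_left (Continuous.tendsto ?_ 0) nhdsWithin_le_nhds
        fun_prop
      have h3 := h2.eventually (lt_mem_nhds (by
        rw [zero_mul, zero_div, sub_zero]
        exact h1))
      filter_upwards [h3, self_mem_nhdsWithin] with s hs1 hs2
      have hs3 : (0 : ℝ) < s := hs2
      rw [hm]
      nlinarith
    · have h0 : ∑ k, y (I k) < -∑ j, y j ^ 2 := by
        refine lt_of_le_of_ne ?_ hm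
        rw [← c3']
        exact Finset.le_sup' (fun I => ∑ k, y (I k)) hI
      have h2 : Tendsto (fun s : ℝ => -∑ j, y j ^ 2 + s * (-∑ j, y j * x j) -
          s ^ 2 * (∑ j, x j ^ 2) / 2 - (∑ k, y (I k) + s * ∑ k, x (I k))) (𝓝[>] 0)
          (𝓝 (-∑ j, y j ^ 2 + 0 * (-∑ j, y j * x j) -
          0 ^ 2 * (∑ j, x j ^ 2) / 2 - (∑ k, y (I k) + 0 * ∑ k, x (I k)))) := by
        refine Tendsto.mono_left (Continuous.tendsto ?_ 0) nhdsWithin_le_nhds
        fun_prop
      have h3 := h2.eventually (lt_mem_nhds (show (0 : ℝ) < _ by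
        rw [zero_mul, zero_mul]
        norm_num
        linarith))
      filter_upwards [h3] with s hs1
      linarith
  have key2 : ∀ᶠ s in 𝓝[>] (0 : ℝ), ∀ I ∈ S, ∑ k, y (I k) + s * ∑ k, x (I k) <
      -∑ j, y j ^ 2 + s * (-∑ j, y j * x j) - s ^ 2 * (∑ j, x j ^ 2) / 2 :=
    (Finset.eventually_all S).2 key
  obtain ⟨s, hs⟩ := key2.exists
  have h1 := hy (fun j => y j + s * x j)
  have h2 : S.sup' hS (fun I => ∑ k, (y (I k) + s * x (I k))) <
      -∑ j, y j ^ 2 + s * (-∑ j, y j * x j) - s ^ 2 * (∑ j, x j ^ 2) / 2 := by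
    rw [Finset.sup'_lt_iff]
    intro I hI
    rw [Finset.sum_add_distrib, ← Finset.mul_sum]
    exact hs I hI
  have h3 : ∑ j, (y j + s * x j) ^ 2 = ∑ j, y j ^ 2 + 2 * s * ∑ j, y j * x j +
      s ^ 2 * ∑ j, x j ^ 2 := by
    rw [Finset.mul_sum, Finset.mul_sum, ← Finset.sum_add_distrib, ← Finset.sum_add_distrib]
    exact Finset.sum_congr rfl fun j _ => by ring
  unfold PhiS at h1
  rw [h3, c3'] at h1
  linarith

end Pool.Agent.Lib.MP_17a322_nt.FQ
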