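import Pool.Agent.Lib.MP_17a322_nt.FQ.K0

namespace Pool.Agent.Lib.MP_17a322_nt.FQ

variable {E W ρ : Type*} [Field E] [Field W] [Algebra E W] [Fintype ρ] [DecidableEq ρ] {N : ℕ}

/-- The form in terms of another basis. -/
theorem mev_expand (c : (Fin N → ρ) → E) (b : ρ → ρ → W) (a : Fin N → ρ → W) :
    mev c (fun k => ∑ j, a k j • b j) = ∑ I : Fin N → ρ, (∏ k, a k (I k)) * mev c (fun k => b (I k)) := by
  unfold mev
  have h1 : ∀ I' : Fin N → ρ, ∏ k, (∑ j, a k j • b j) (I' k) =
      ∑ I : Fin N → ρ, (∏ k, a k (I k)) * ∏ k, b (I k) (I' k) := by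
    intro I'
    have h2 : ∀ k, (∑ j, a k j • b j) (I' k) = ∑ j, a k j * b j (I' k) := by
      intro k
      simp [Finset.sum_apply]
    rw [Finset.prod_congr rfl fun k _ => h2 k, Finset.prod_univ_sum, Fintype.piFinset_univ]
    refine Finset.sum_congr rfl fun I _ => ?_
    rw [Finset.prod_mul_distrib]
  rw [Finset.sum_congr rfl fun I' _ => by rw [h1 I']]
  simp only [Finset.mul_sum]
  rw [Finset.sum_comm]
  refine Finset.sum_congr rfl fun I _ => Finset.sum_congr rfl fun I' _ => ?_
  ring

private theorem K3_span (b : ρ → ρ → W) (hb : LinearIndependent W b) (x : ρ → W) : ∃ a : ρ → W, ∑ j, a j • b j = x := by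
  have h1 : Submodule.span W (Set.range b) = ⊤ := by
    refine hb.span_eq_top_of_card_eq_finrank' ?_
    rw [Module.finrank_fintype_fun_eq_card]
  have h2 : x ∈ Submodule.span W (Set.range b) := by
    rw [h1]
    exact Submodule.mem_top
  exact (Submodule.mem_span_range_iff_exists_fun W).1 h2

private theorem K3_unit (c : (Fin N → ρ) → E) (I0 : Fin N → ρ) :
    mev c (fun k => (Pi.single (I0 k) (1 : W) : ρ → W)) = algebraMap E W (c I0) := by
  unfold mev
  rw [Finset.sum_eq_single I0]
  · simp
  · intro I _ hI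
    obtain ⟨k, hk⟩ := Function.ne_iff.1 hI
    rw [Finset.prod_eq_zero (Finset.mem_univ k) (Pi.single_eq_of_ne hk 1), mul_zero]
  · intro h
    exact absurd (Finset.mem_univ _) h

/-- The form has a nonzero coefficient with respect to every basis. -/
theorem spt_nonempty (c : (Fin N → ρ) → E) (hc : c ≠ 0) (b : ρ → ρ → W) (hb : LinearIndependent W b) : (spt c b).Nonempty := by
  classical
  by_contra h
  rw [Finset.not_nonempty_iff_eq_empty] at h
  have h1 : ∀ I : Fin N → ρ, mev c (fun k => b (I k)) = 0 := by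
    intro I
    by_contra h2
    have h3 : I ∈ spt c b := by
      unfold spt
      exact Finset.mem_filter.2 ⟨Finset.mem_univ _, h2⟩
    rw [h] at h3
    exact absurd h3 (Finset.notMem_empty _)
  apply hc
  funext I0
  choose a ha using fun k => K3_span b hb (Pi.single (I0 k) (1 : W) : ρ → W)
  have h4 := mev_expand c b a
  have h5 : (fun k => ∑ j, a k j • b j) = fun k => (Pi.single (I0 k) (1 : W) : ρ → W) := funext ha
  rw [h5, K3_unit] at h4
  have h6 : algebraMap E W (c I0) = 0 := by
    rw [h4]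
    refine Finset.sum_eq_zero fun I _ => ?_
    rw [h1 I, mul_zero]
  exact (map_eq_zero (algebraMap E W)).1 h6

/-- Weights of indices and filtrations. -/
theorem spt_le (c : (Fin N → ρ) → E) (b b' : ρ → ρ → W) (y y' : ρ → ℝ) (h : ∀ t, Fil b y t ≤ Fil b' y' t)
    (I : Fin N → ρ) (hI : I ∈ spt c b) : ∃ I' ∈ spt c b', ∑ k, y (I k) ≤ ∑ k, y' (I' k) := by
  classical
  have h1 : ∀ k, ∃ a : ρ → W, ∑ j, a j • b' j = b (I k) ∧ ∀ j, a j ≠ 0 → y (I k) ≤ y' j := by
    intro k
    have h2 : b (I k) ∈ Fil b' y' (y (I k)) :=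
      h _ (Submodule.subset_span ⟨I k, le_refl (y (I k)), rfl⟩)
    unfold Fil at h2
    rw [Finsupp.mem_span_image_iff_linearCombination] at h2
    obtain ⟨l, hl, hl2⟩ := h2
    refine ⟨l, ?_, fun j hj => ?_⟩
    · rw [← hl2, Finsupp.linearCombination_apply, Finsupp.sum_fintype]
      intro i
      exact zero_smul _ _
    · exact (Finsupp.mem_supported _ _).1 hl (Finsupp.mem_support_iff.2 hj)
  choose a ha ha2 using h1
  have h3 : mev c (fun k => b (I k)) ≠ 0 := by
    unfold spt at hI
    exact (Finset.mem_filter.1 hI).2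
  have h4 : (fun k => b (I k)) = fun k => ∑ j, a k j • b' j := funext fun k => (ha k).symm
  rw [h4, mev_expand] at h3
  obtain ⟨I', -, h5⟩ := Finset.exists_ne_zero_of_sum_ne_zero h3
  refine ⟨I', ?_, ?_⟩
  · unfold spt
    exact Finset.mem_filter.2 ⟨Finset.mem_univ _, right_ne_zero_of_mul h5⟩
  · refine Finset.sum_le_sum fun k _ => ha2 k _ ?_
    exact Finset.prod_ne_zero_iff.1 (left_ne_zero_of_mul h5) k (Finset.mem_univ _)

private theorem K3_card (b : ρ → ρ → W) (hb : LinearIndependent W b) (y : ρ → ℝ) (t : ℝ) :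
    Module.finrank W (Fil b y t) = (Finset.univ.filter fun j => t ≤ y j).card := by
  classical
  have h1 : Fil b y t = Submodule.span W (Set.range fun j : {j // t ≤ y j} => b j.1) := by
    unfold Fil
    congr 1
    ext x
    constructor
    · rintro ⟨j, hj, rfl⟩
      exact ⟨⟨j, hj⟩, rfl⟩
    · rintro ⟨j, rfl⟩
      exact ⟨j.1, j.2, rfl⟩
  have h2 : Module.finrank W (Submodule.span W (Set.range fun j : {j // t ≤ y j} => b j.1)) =
      Fintype.card {j // t ≤ y j} := finrank_span_eq_card (hb.comp _ Subtype.val_injective)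
  rw [h1, h2, Fintype.card_subtype]

private theorem K3_lt (y : ρ → ℝ) (y' : ρ → ℝ) (v : ℝ)
    (h : ∀ t, (Finset.univ.filter fun j => t ≤ y j).card = (Finset.univ.filter fun j => t ≤ y' j).card) :
    (Finset.univ.filter fun j => v < y j).card = (Finset.univ.filter fun j => v < y' j).card := by
  classical
  have h1 : ∃ t : ℝ, v < t ∧ (∀ j, v < y j → t ≤ y j) ∧ ∀ j, v < y' j → t ≤ y' j := by
    set S : Finset ℝ := ((Finset.univ.image y) ∪ (Finset.univ.image y')).filter fun x => v < x with hS
    by_cases hne : S.Nonempty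
    · refine ⟨S.min' hne, ?_, ?_, ?_⟩
      · exact (Finset.mem_filter.1 (S.min'_mem hne)).2
      · intro j hj
        refine S.min'_le _ (Finset.mem_filter.2 ⟨Finset.mem_union_left _ (Finset.mem_image_of_mem _ (Finset.mem_univ _)), hj⟩)
      · intro j hj
        refine S.min'_le _ (Finset.mem_filter.2 ⟨Finset.mem_union_right _ (Finset.mem_image_of_mem _ (Finset.mem_univ _)), hj⟩)
    · rw [Finset.not_nonempty_iff_eq_empty] at hne
      refine ⟨v + 1, by linarith, ?_, ?_⟩
      · intro j hj
        have h2 : y j ∈ S :=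
          Finset.mem_filter.2 ⟨Finset.mem_union_left _ (Finset.mem_image_of_mem _ (Finset.mem_univ _)), hj⟩
        rw [hne] at h2
        exact absurd h2 (Finset.notMem_empty _)
      · intro j hj
        have h2 : y' j ∈ S :=
          Finset.mem_filter.2 ⟨Finset.mem_union_right _ (Finset.mem_image_of_mem _ (Finset.mem_univ _)), hj⟩
        rw [hne] at h2
        exact absurd h2 (Finset.notMem_empty _)
  obtain ⟨t, h2, h3, h4⟩ := h1
  have h5 : (Finset.univ.filter fun j => v < y j) = Finset.univ.filter fun j => t ≤ y j :=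
    Finset.filter_congr fun j _ => ⟨h3 j, fun h6 => lt_of_lt_of_le h2 h6⟩
  have h6 : (Finset.univ.filter fun j => v < y' j) = Finset.univ.filter fun j => t ≤ y' j :=
    Finset.filter_congr fun j _ => ⟨h4 j, fun h6 => lt_of_lt_of_le h2 h6⟩
  rw [h5, h6, h t]

private theorem K3_split (y : ρ → ℝ) (v : ℝ) : (Finset.univ.filter fun j => v ≤ y j).card =
    (Finset.univ.filter fun j => v = y j).card + (Finset.univ.filter fun j => v < y j).card := by
  classical
  rw [← Finset.card_union_of_disjoint]
  · congr 1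
    ext j
    simp only [Finset.mem_filter, Finset.mem_univ, true_and, Finset.mem_union]
    exact le_iff_eq_or_lt
  · rw [Finset.disjoint_filter]
    intro j _ h1 h2
    exact h2.ne h1

/-- Equal filtrations have equal weights. -/
theorem sum_eq_of_FEq (b b' : ρ → ρ → W) (hb : LinearIndependent W b) (hb' : LinearIndependent W b') (y y' : ρ → ℝ)
    (h : FEq b y b' y') (f : ℝ → ℝ) : ∑ j, f (y j) = ∑ j, f (y' j) := by
  classical
  have h1 : ∀ t, (Finset.univ.filter fun j => t ≤ y j).card = (Finset.univ.filter fun j => t ≤ y' j).card := by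
    intro t
    rw [← K3_card b hb, ← K3_card b' hb', h t]
  have h2 : ∀ v, (Finset.univ.filter fun j => v = y j).card = (Finset.univ.filter fun j => v = y' j).card := by
    intro v
    have h3 := K3_split y v
    have h4 := K3_split y' v
    have h5 := K3_lt y y' v h1
    have h6 := h1 v
    omega
  have h3 : (Finset.univ : Finset ρ).val.map y = (Finset.univ : Finset ρ).val.map y' := by
    ext v
    rw [Multiset.count_map, Multiset.count_map]
    exact h2 v
  have h4 := congrArg (fun s : Multiset ℝ => (s.map f).sum) h3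
  simp only [Multiset.map_map] at h4
  exact h4

private theorem K3_sup (c : (Fin N → ρ) → E) (b b' : ρ → ρ → W) (y y' : ρ → ℝ) (h : ∀ t, Fil b y t ≤ Fil b' y' t)
    (h1 : (spt c b).Nonempty) (h2 : (spt c b').Nonempty) :
    (spt c b).sup' h1 (fun I => ∑ k, y (I k)) ≤ (spt c b').sup' h2 (fun I => ∑ k, y' (I k)) := by
  refine Finset.sup'_le _ _ fun I hI => ?_
  obtain ⟨I', hI', h3⟩ := spt_le c b b' y y' h I hI
  exact h3.trans (Finset.le_sup' (fun I => ∑ k, y' (I k)) hI')

/-- The function `PhiS` depends only on the filtration. -/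
theorem Phi_eq_of_FEq (c : (Fin N → ρ) → E) (b b' : ρ → ρ → W) (hb : LinearIndependent W b) (hb' : LinearIndependent W b')
    (y y' : ρ → ℝ) (h : FEq b y b' y') (h1 : (spt c b).Nonempty) (h2 : (spt c b').Nonempty) :
    PhiS (spt c b) h1 y = PhiS (spt c b') h2 y' := by
  unfold PhiS
  rw [le_antisymm (K3_sup c b b' y y' (fun t => (h t).le) h1 h2) (K3_sup c b' b y' y (fun t => (h t).ge) h2 h1),
    sum_eq_of_FEq b b' hb hb' y y' h fun t => t ^ 2]

/-- The function `PhiS` is monotone in the set. -/
theorem Phi_mono {S S' : Finset (Fin N → ρ)} (h : S ⊆ S') (hS : S.Nonempty) (hS' : S'.Nonempty) (y : ρ → ℝ) :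
    PhiS S hS y ≤ PhiS S' hS' y := by
  unfold PhiS
  have h1 := Finset.sup'_mono (fun I : Fin N → ρ => ∑ k, y (I k)) h hS
  linarith

end Pool.Agent.Lib.MP_17a322_nt.FQ
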