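import Pool.Agent.Lib.MP_17a322_nt.FQ.K1
import Pool.Agent.Lib.MP_17a322_nt.FQ.K2
import Pool.Agent.Lib.MP_17a322_nt.FQ.K3

namespace Pool.Agent.Lib.MP_17a322_nt.FQ

variable {E W ρ : Type*} [Field E] [Field W] [Algebra E W] [Fintype ρ] [DecidableEq ρ] {N : ℕ}

/-- The optimal filtration exists. -/
theorem exists_opt (c : (Fin N → ρ) → E) (hc : c ≠ 0) :
    ∃ (b : ρ → ρ → W) (hb : LinearIndependent W b) (y : ρ → ℝ), ∀ (b' : ρ → ρ → W) (hb' : LinearIndependent W b') (y' : ρ → ℝ),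
      PhiS (spt c b) (spt_nonempty c hc b hb) y ≤ PhiS (spt c b') (spt_nonempty c hc b' hb') y' := by
  classical
  have hmin : ∀ S : {S : Finset (Fin N → ρ) // S.Nonempty}, ∃ y, ∀ y',
      PhiS S.1 S.2 y ≤ PhiS S.1 S.2 y' := fun S => Phi_min S.1 S.2
  choose Y hY using hmin
  obtain ⟨T, hTdef⟩ : ∃ T : Set {S : Finset (Fin N → ρ) // S.Nonempty},
      ∀ S, S ∈ T ↔ ∃ b : ρ → ρ → W, LinearIndependent W b ∧ spt c b = S.1 :=
    ⟨{S | ∃ b : ρ → ρ → W, LinearIndependent W b ∧ spt c b = S.1}, fun _ => Iff.rfl⟩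
  have hT : T.Nonempty := by
    have hb : LinearIndependent W (fun j : ρ => (Pi.single j (1 : W) : ρ → W)) := by
      have h1 := (Pi.basisFun W ρ).linearIndependent
      have h2 : (fun j : ρ => (Pi.single j (1 : W) : ρ → W)) = ⇑(Pi.basisFun W ρ) := by
        funext j
        rw [Pi.basisFun_apply]
      rw [h2]
      exact h1
    exact ⟨⟨spt c _, spt_nonempty c hc _ hb⟩, (hTdef _).2 ⟨_, hb, rfl⟩⟩
  obtain ⟨S, hS, hSmin⟩ := Set.exists_min_image T (fun S => PhiS S.1 S.2 (Y S)) (Set.toFinite T) hT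
  obtain ⟨b, hb, hSb⟩ := (hTdef S).1 hS
  have e : S = ⟨spt c b, spt_nonempty c hc b hb⟩ := Subtype.ext hSb.symm
  subst e
  exact ⟨b, hb, Y ⟨spt c b, spt_nonempty c hc b hb⟩, fun b' hb' y' =>
    (hSmin ⟨spt c b', spt_nonempty c hc b' hb'⟩ ((hTdef _).2 ⟨b', hb', rfl⟩)).trans (hY _ y')⟩

/-- The optimal filtration is unique. -/
theorem opt_unique (c : (Fin N → ρ) → E) (hc : c ≠ 0) (b b' : ρ → ρ → W) (hb : LinearIndependent W b) (hb' : LinearIndependent W b')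
    (y y' : ρ → ℝ)
    (h : ∀ (b₁ : ρ → ρ → W) (hb₁ : LinearIndependent W b₁) (y₁ : ρ → ℝ),
      PhiS (spt c b) (spt_nonempty c hc b hb) y ≤ PhiS (spt c b₁) (spt_nonempty c hc b₁ hb₁) y₁)
    (h' : ∀ (b₁ : ρ → ρ → W) (hb₁ : LinearIndependent W b₁) (y₁ : ρ → ℝ),
      PhiS (spt c b') (spt_nonempty c hc b' hb') y' ≤ PhiS (spt c b₁) (spt_nonempty c hc b₁ hb₁) y₁) :
    FEq b y b' y' := by
  obtain ⟨d, z, z', hd, h1, h2⟩ := common_basis b b' hb hb' y y'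
  by_cases hz : z = z'
  · intro t
    rw [← h1 t, ← h2 t, hz]
  · exfalso
    have h3 := Phi_mid (spt c d) (spt_nonempty c hc d hd) z z' hz
    rw [Phi_eq_of_FEq c d b hd hb z y h1 _ (spt_nonempty c hc b hb),
      Phi_eq_of_FEq c d b' hd hb' z' y' h2 _ (spt_nonempty c hc b' hb')] at h3
    exact absurd (max_le (h d hd _) (h' d hd _)) (not_le.2 h3)

end Pool.Agent.Lib.MP_17a322_nt.FQ
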