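import Pool.Agent.Lib.MP_17a322_nt.FQ.K0

namespace Pool.Agent.Lib.MP_17a322_nt.FQ

/-- the support of a vector -/
noncomputable def K5_supp {A ρ : Type*} [Field A] [Fintype ρ] (x : ρ → A) : Finset ρ :=
  open Classical in Finset.univ.filter fun j => x j ≠ 0

theorem K5_mem_supp {A ρ : Type*} [Field A] [Fintype ρ] (x : ρ → A) (j : ρ) :
    j ∈ K5_supp x ↔ x j ≠ 0 := by
  classical
  unfold K5_supp
  rw [Finset.mem_filter]
  exact ⟨fun h => h.2, fun h => ⟨Finset.mem_univ _, h⟩⟩

theorem K5_supp_empty {A ρ : Type*} [Field A] [Fintype ρ] (x : ρ → A) (h : K5_supp x = ∅) : x = 0 := by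
  funext j
  by_contra hj
  have h1 : j ∈ K5_supp x := (K5_mem_supp x j).mpr hj
  rw [h] at h1
  exact absurd h1 (Finset.notMem_empty j)

/-- Galois descent for subspaces: a subspace of `Ē ^ ρ` stable under the Galois group is spanned by
vectors with coordinates in `E`. -/
theorem galois_descent {E : Type*} [Field E] [CharZero E] {ρ : Type*} [Fintype ρ]
    (M : Submodule (AlgebraicClosure E) (ρ → AlgebraicClosure E))
    (h : ∀ σ : AlgebraicClosure E ≃ₐ[E] AlgebraicClosure E, ∀ x ∈ M, (fun j => σ (x j)) ∈ M) :
    ∃ M₀ : Submodule E (ρ → E),
      M = Submodule.span (AlgebraicClosure E) ((fun (x : ρ → E) j => algebraMap E (AlgebraicClosure E) (x j)) '' (M₀ : Set (ρ → E))) := by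
  classical
  let M₀ : Submodule E (ρ → E) :=
    { carrier := {x | (fun j => algebraMap E (AlgebraicClosure E) (x j)) ∈ M}
      add_mem' := by
        intro x y hx hy
        have := M.add_mem hx hy
        refine (congrArg (· ∈ M) ?_).mp this
        funext j
        exact (map_add (algebraMap E (AlgebraicClosure E)) (x j) (y j)).symm
      zero_mem' := by
        have : (fun j : ρ => algebraMap E (AlgebraicClosure E) ((0 : ρ → E) j)) = 0 := by
          funext j
          exact map_zero _
        show (fun j : ρ => algebraMap E (AlgebraicClosure E) ((0 : ρ → E) j)) ∈ M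
        rw [this]
        exact M.zero_mem
      smul_mem' := by
        intro c x hx
        have := M.smul_mem (algebraMap E (AlgebraicClosure E) c) hx
        refine (congrArg (· ∈ M) ?_).mp this
        funext j
        exact (map_mul (algebraMap E (AlgebraicClosure E)) c (x j)).symm }
  refine ⟨M₀, le_antisymm ?_ ?_⟩
  · have key : ∀ n : ℕ, ∀ x ∈ M, (K5_supp x).card = n → x ∈ Submodule.span (AlgebraicClosure E)
        ((fun (x : ρ → E) j => algebraMap E (AlgebraicClosure E) (x j)) '' (M₀ : Set (ρ → E))) := by
      intro n
      induction n using Nat.strong_induction_on with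
      | _ n ih =>
        intro x hx hn
        by_cases hx0 : x = 0
        · rw [hx0]
          exact Submodule.zero_mem _
        -- nonzero vectors of `M` with support in that of `x`, of minimal support
        have hex : ∃ m : ℕ, ∃ u ∈ M, u ≠ 0 ∧ K5_supp u ⊆ K5_supp x ∧ (K5_supp u).card = m :=
          ⟨_, x, hx, hx0, Finset.Subset.refl _, rfl⟩
        obtain ⟨u, hu, hu0, hux, hum⟩ := Nat.find_spec hex
        have hmin : ∀ v ∈ M, K5_supp v ⊆ K5_supp x → (K5_supp v).card < Nat.find hex → v = 0 := by
          intro v hv hvx hlt
          by_contra hv0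
          exact Nat.find_min hex hlt ⟨v, hv, hv0, hvx, rfl⟩
        have hj : ∃ j, u j ≠ 0 := by
          by_contra hc
          push Not at hc
          exact hu0 (funext hc)
        obtain ⟨j, hj⟩ := hj
        let w : ρ → AlgebraicClosure E := (u j)⁻¹ • u
        have hw : w ∈ M := M.smul_mem _ hu
        have hwj : w j = 1 := inv_mul_cancel₀ hj
        have hws : K5_supp w = K5_supp u := by
          ext i
          rw [K5_mem_supp, K5_mem_supp]
          show (u j)⁻¹ * u i ≠ 0 ↔ u i ≠ 0
          rw [mul_ne_zero_iff]
          exact ⟨fun h => h.2, fun h => ⟨inv_ne_zero hj, h⟩⟩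
        have hfix : ∀ σ : AlgebraicClosure E ≃ₐ[E] AlgebraicClosure E, ∀ i, σ (w i) = w i := by
          intro σ i
          have h1 : (fun j => σ (w j)) - w ∈ M := M.sub_mem (h σ w hw) hw
          have h2 : K5_supp ((fun j => σ (w j)) - w) ⊆ (K5_supp u).erase j := by
            intro a ha
            rw [K5_mem_supp] at ha
            rw [Finset.mem_erase]
            have ha' : σ (w a) - w a ≠ 0 := ha
            refine ⟨?_, ?_⟩
            · rintro rfl
              rw [hwj, map_one, sub_self] at ha'
              exact ha' rfl
            · rw [← hws, K5_mem_supp]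
              intro hwa
              rw [hwa, map_zero, sub_self] at ha'
              exact ha' rfl
          have hju : j ∈ K5_supp u := (K5_mem_supp u j).mpr hj
          have h3 : (K5_supp ((fun j => σ (w j)) - w)).card < Nat.find hex := by
            refine lt_of_le_of_lt (Finset.card_le_card h2) ?_
            rw [Finset.card_erase_of_mem hju, hum]
            have : 0 < (K5_supp u).card := Finset.card_pos.mpr ⟨j, hju⟩
            rw [hum] at this
            omega
          have h4 := hmin _ h1 (h2.trans ((Finset.erase_subset _ _).trans hux)) h3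
          have h5 := congrFun h4 i
          exact sub_eq_zero.mp h5
        have hrat : ∀ i, ∃ a : E, algebraMap E (AlgebraicClosure E) a = w i := by
          intro i
          exact (InfiniteGalois.mem_range_algebraMap_iff_fixed (w i)).mpr fun σ => hfix σ i
        choose a ha using hrat
        have hwspan : w ∈ Submodule.span (AlgebraicClosure E)
            ((fun (x : ρ → E) j => algebraMap E (AlgebraicClosure E) (x j)) '' (M₀ : Set (ρ → E))) := by
          refine Submodule.subset_span ⟨a, ?_, funext ha⟩
          show (fun j => algebraMap E (AlgebraicClosure E) (a j)) ∈ M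
          rw [show (fun j => algebraMap E (AlgebraicClosure E) (a j)) = w from funext ha]
          exact hw
        have hjx : j ∈ K5_supp x := hux ((K5_mem_supp u j).mpr hj)
        have h6 : K5_supp (x - x j • w) ⊆ (K5_supp x).erase j := by
          intro b hb
          rw [K5_mem_supp] at hb
          have hb' : x b - x j * w b ≠ 0 := hb
          rw [Finset.mem_erase]
          refine ⟨?_, ?_⟩
          · rintro rfl
            rw [hwj, mul_one, sub_self] at hb'
            exact hb' rfl
          · rw [K5_mem_supp]
            intro hxb
            have hwb : w b = 0 := by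
              by_contra hc
              have : b ∈ K5_supp w := (K5_mem_supp w b).mpr hc
              rw [hws] at this
              exact (K5_mem_supp x b).mp (hux this) hxb
            rw [hxb, hwb, mul_zero, sub_self] at hb'
            exact hb' rfl
        have h7 : (K5_supp (x - x j • w)).card < n := by
          refine lt_of_le_of_lt (Finset.card_le_card h6) ?_
          rw [Finset.card_erase_of_mem hjx, hn]
          have : 0 < (K5_supp x).card := Finset.card_pos.mpr ⟨j, hjx⟩
          omega
        have h8 := ih _ h7 _ (M.sub_mem hx (M.smul_mem (x j) hw)) rfl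
        have h9 := Submodule.add_mem _ h8 (Submodule.smul_mem _ (x j) hwspan)
        rw [sub_add_cancel] at h9
        exact h9
    intro x hx
    exact key _ x hx rfl
  · rw [Submodule.span_le]
    rintro _ ⟨x, hx, rfl⟩
    exact hx

theorem K5_finrank_fil {W ρ : Type*} [Field W] [Fintype ρ] [DecidableEq ρ] (b : ρ → ρ → W)
    (hb : LinearIndependent W b) (y : ρ → ℝ) (t : ℝ) [Fintype {j // t ≤ y j}] :
    Module.finrank W (Fil b y t) = Fintype.card {j // t ≤ y j} := by
  have h1 : LinearIndependent W (fun j : {j // t ≤ y j} => b j.1) := hb.comp _ Subtype.val_injective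
  have h2 : Fil b y t = Submodule.span W (Set.range fun j : {j // t ≤ y j} => b j.1) := by
    unfold Fil
    congr 1
    ext x
    constructor
    · rintro ⟨j, hj, rfl⟩
      exact ⟨⟨j, hj⟩, rfl⟩
    · rintro ⟨j, rfl⟩
      exact ⟨j.1, j.2, rfl⟩
  rw [h2, finrank_span_eq_card h1]

theorem K5_li_map {E W ρ : Type*} [Field E] [Field W] [Algebra E W] [Fintype ρ] [DecidableEq ρ]
    (e : ρ → ρ → E) (he : LinearIndependent E e) :
    LinearIndependent W (fun i j => algebraMap E W (e i j)) := by
  have h1 : IsUnit (Matrix.of e) := Matrix.linearIndependent_rows_iff_isUnit.mp he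
  have h2 : IsUnit ((Matrix.of e).map (algebraMap E W)) := by
    have := h1.map (algebraMap E W).mapMatrix
    exact this
  exact Matrix.linearIndependent_rows_iff_isUnit.mpr h2

theorem K5_finrank_le {E W ρ : Type*} [Field E] [Field W] [Algebra E W] [Fintype ρ]
    (M : Submodule E (ρ → E)) :
    Module.finrank W (Submodule.span W ((fun (x : ρ → E) j => algebraMap E W (x j)) '' (M : Set (ρ → E)))) ≤
      Module.finrank E M := by
  classical
  let B := Module.finBasis E M
  have h1 : Submodule.span W ((fun (x : ρ → E) j => algebraMap E W (x j)) '' (M : Set (ρ → E))) ≤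
      Submodule.span W (Set.range fun k => fun j => algebraMap E W ((B k : ρ → E) j)) := by
    rw [Submodule.span_le]
    rintro _ ⟨x, hx, rfl⟩
    have hs := B.sum_repr ⟨x, hx⟩
    have h2 : (fun j => algebraMap E W (x j)) =
        ∑ k, algebraMap E W (B.repr ⟨x, hx⟩ k) • (fun j => algebraMap E W ((B k : ρ → E) j)) := by
      funext j
      have h3 : x j = ∑ k, B.repr ⟨x, hx⟩ k * (B k : ρ → E) j := by
        have h4 := congrArg (fun v : M => (v : ρ → E) j) hs
        simp only at h4
        rw [← h4, Submodule.coe_sum, Finset.sum_apply]
        rfl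
      rw [h3, map_sum, Finset.sum_apply]
      refine Finset.sum_congr rfl fun k _ => ?_
      rw [map_mul]
      rfl
    show (fun j => algebraMap E W (x j)) ∈ Submodule.span W
      (Set.range fun k => fun j => algebraMap E W ((B k : ρ → E) j))
    rw [h2]
    exact Submodule.sum_mem _ fun k _ => Submodule.smul_mem _ _ (Submodule.subset_span ⟨k, rfl⟩)
  refine (Submodule.finrank_mono h1).trans ?_
  refine (finrank_range_le_card _).trans ?_
  rw [Fintype.card_fin]

/-- A basis of a filtration by rational subspaces: if the steps of the filtration are spanned by vectors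
over the small field, there is a basis over the small field which defines the same filtration. -/
theorem adapted_basis {E W ρ : Type*} [Field E] [Field W] [Algebra E W] [Fintype ρ] [DecidableEq ρ] (b : ρ → ρ → W)
    (hb : LinearIndependent W b) (y : ρ → ℝ) (M : ℝ → Submodule E (ρ → E))
    (hM : ∀ t, Fil b y t = Submodule.span W ((fun (x : ρ → E) j => algebraMap E W (x j)) '' (M t : Set (ρ → E)))) :
    ∃ e : ρ → ρ → E, LinearIndependent E e ∧ FEq (fun i j => algebraMap E W (e i j)) y b y := by
  classical
  have hdim : ∀ t, Fintype.card {j // t ≤ y j} ≤ Module.finrank E (M t) := by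
    intro t
    rw [← K5_finrank_fil b hb y t, hM t]
    exact K5_finrank_le (M t)
  have key : ∃ e : ρ → ρ → E, LinearIndepOn E e ((Finset.univ : Finset ρ) : Set ρ) ∧
      ∀ j ∈ (Finset.univ : Finset ρ), e j ∈ M (y j) := by
    refine Finset.induction_on_min_value (ι := ρ) y
      (motive := fun s => ∃ e : ρ → ρ → E, LinearIndepOn E e (s : Set ρ) ∧ ∀ j ∈ s, e j ∈ M (y j))
      Finset.univ ?_ ?_
    · refine ⟨fun _ => 0, ?_, fun j hj => absurd hj (Finset.notMem_empty j)⟩
      rw [Finset.coe_empty]
      exact linearIndepOn_empty _ _
    · rintro a s ha hmin ⟨e, he, hes⟩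
      have hcard : s.card < Module.finrank E (M (y a)) := by
        refine lt_of_lt_of_le ?_ (hdim (y a))
        rw [Fintype.card_subtype]
        have h1 : insert a s ⊆ Finset.univ.filter fun j => y a ≤ y j := by
          intro j hj
          rw [Finset.mem_filter]
          refine ⟨Finset.mem_univ _, ?_⟩
          rcases Finset.mem_insert.mp hj with h2 | h2
          · rw [h2]
          · exact hmin j h2
        have h3 := Finset.card_le_card h1
        rw [Finset.card_insert_of_notMem ha] at h3
        omega
      have hv : ∃ v ∈ M (y a), v ∉ Submodule.span E (e '' (s : Set ρ)) := by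
        by_contra hc
        push Not at hc
        have h4 : M (y a) ≤ Submodule.span E (e '' (s : Set ρ)) := hc
        have h5 := Submodule.finrank_mono h4
        have h6 : Module.finrank E (Submodule.span E (e '' (s : Set ρ))) ≤ s.card := by
          have h7 : (e '' (s : Set ρ)) = ((s.image e : Finset (ρ → E)) : Set (ρ → E)) := by
            rw [Finset.coe_image]
          rw [h7]
          exact (finrank_span_finset_le_card _).trans Finset.card_image_le
        omega
      obtain ⟨v, hvM, hvs⟩ := hv
      have heq : Set.EqOn e (Function.update e a v) (s : Set ρ) := by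
        intro j hj
        have hja : j ≠ a := by
          rintro rfl
          exact ha hj
        rw [Function.update_of_ne hja]
      refine ⟨Function.update e a v, ?_, ?_⟩
      · rw [Finset.coe_insert]
        refine (he.congr heq).insert ?_
        rw [Function.update_self, ← Set.image_congr heq]
        exact hvs
      · intro j hj
        rcases Finset.mem_insert.mp hj with h2 | h2
        · rw [h2, Function.update_self]
          exact hvM
        · rw [← heq h2]
          exact hes j h2
  obtain ⟨e, he, heM⟩ := key
  rw [Finset.coe_univ, linearIndepOn_univ_iff] at he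
  refine ⟨e, he, fun t => ?_⟩
  have hli := K5_li_map (W := W) e he
  refine Submodule.eq_of_le_of_finrank_eq ?_ ?_
  · show Submodule.span W _ ≤ _
    rw [Submodule.span_le]
    rintro _ ⟨j, hj, rfl⟩
    have h1 : (fun i => algebraMap E W (e j i)) ∈ Fil b y (y j) := by
      rw [hM (y j)]
      exact Submodule.subset_span ⟨e j, heM j (Finset.mem_univ j), rfl⟩
    have h2 : Fil b y (y j) ≤ Fil b y t := by
      unfold Fil
      refine Submodule.span_mono (Set.image_mono ?_)
      intro i hi
      exact le_trans (show t ≤ y j from hj) (show y j ≤ y i from hi)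
    exact h2 h1
  · rw [K5_finrank_fil _ hli y t, K5_finrank_fil b hb y t]

end Pool.Agent.Lib.MP_17a322_nt.FQ
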