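import Pool.Agent.Lib.MP_17a322_nt.FQ.K0

namespace Pool.Agent.Lib.MP_17a322_nt.FQ

private theorem K6_hom {E A : Type*} [Field E] [CommRing A] [Nontrivial A] [Algebra E A]
    [Algebra.FiniteType E A] : Nonempty (A →ₐ[E] AlgebraicClosure E) := by
  obtain ⟨m, hm⟩ := Ideal.exists_maximal A
  let _ : Field (A ⧸ m) := Ideal.Quotient.field m
  have : Module.Finite E (A ⧸ m) := finite_of_finite_type_of_isJacobsonRing E (A ⧸ m)
  have : Algebra.IsAlgebraic E (A ⧸ m) := Algebra.IsAlgebraic.of_finite E (A ⧸ m)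
  exact ⟨(IsAlgClosed.lift : (A ⧸ m) →ₐ[E] AlgebraicClosure E).comp (Ideal.Quotient.mkₐ E m)⟩

/-- A condition on a basis with coordinates in an extension field can be satisfied over the algebraic
closure (Nullstellensatz). -/
theorem nullst {E W ρ : Type*} [Field E] [Field W] [Algebra E W] [Fintype ρ] [DecidableEq ρ] {N : ℕ} (c : (Fin N → ρ) → E)
    (b : ρ → ρ → W) (hb : LinearIndependent W b) :
    ∃ b' : ρ → ρ → AlgebraicClosure E, LinearIndependent (AlgebraicClosure E) b' ∧ spt c b' ⊆ spt c b := by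
  classical
  have hdet : (Matrix.of b).det ≠ 0 := by
    have h1 : IsUnit (Matrix.of b) := Matrix.linearIndependent_rows_iff_isUnit.1 hb
    exact ((Matrix.isUnit_iff_isUnit_det _).1 h1).ne_zero
  set S : Set W := Set.range (fun p : ρ × ρ => b p.1 p.2) ∪ {((Matrix.of b).det)⁻¹} with hS
  have hSf : S.Finite := (Set.finite_range _).union (Set.finite_singleton _)
  have hft : Algebra.FiniteType E (Algebra.adjoin E S) :=
    (Subalgebra.fg_iff_finiteType _).1 (Subalgebra.fg_def.2 ⟨S, hSf, rfl⟩)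
  obtain ⟨φ⟩ := K6_hom (E := E) (A := Algebra.adjoin E S)
  have hbm : ∀ i j, b i j ∈ Algebra.adjoin E S := fun i j =>
    Algebra.subset_adjoin (Or.inl ⟨(i, j), rfl⟩)
  have hdm : ((Matrix.of b).det)⁻¹ ∈ Algebra.adjoin E S := Algebra.subset_adjoin (Or.inr rfl)
  set b₁ : ρ → ρ → Algebra.adjoin E S := fun i j => ⟨b i j, hbm i j⟩ with hb₁
  have hd₁ : ((Matrix.of b₁).det : W) = (Matrix.of b).det := by
    have h1 := RingHom.map_det (Algebra.adjoin E S).val.toRingHom (Matrix.of b₁)
    exact h1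
  refine ⟨fun i j => φ (b₁ i j), ?_, ?_⟩
  · have h1 : (Matrix.of b₁).det * ⟨((Matrix.of b).det)⁻¹, hdm⟩ = 1 := by
      refine Subtype.ext ?_
      change ((Matrix.of b₁).det : W) * ((Matrix.of b).det)⁻¹ = 1
      rw [hd₁, mul_inv_cancel₀ hdet]
    have h2 : IsUnit (Matrix.of fun i j => φ (b₁ i j)).det := by
      have h3 : (Matrix.of fun i j => φ (b₁ i j)).det = φ (Matrix.of b₁).det := by
        have h4 := RingHom.map_det φ.toRingHom (Matrix.of b₁)
        exact h4.symm
      rw [h3]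
      refine IsUnit.of_mul_eq_one (φ ⟨((Matrix.of b).det)⁻¹, hdm⟩) ?_
      rw [← map_mul, h1, map_one]
    exact Matrix.linearIndependent_rows_iff_isUnit.2 ((Matrix.isUnit_iff_isUnit_det _).2 h2)
  · intro I hI
    unfold spt at hI ⊢
    rw [Finset.mem_filter] at hI ⊢
    refine ⟨Finset.mem_univ _, fun h0 => hI.2 ?_⟩
    set x : Algebra.adjoin E S := ∑ J : Fin N → ρ, algebraMap E (Algebra.adjoin E S) (c J) *
      ∏ k, b₁ (I k) (J k) with hx
    have h1 : (x : W) = mev c (fun k => b (I k)) := by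
      unfold mev
      rw [hx]
      change (Algebra.adjoin E S).val _ = _
      rw [map_sum]
      refine Finset.sum_congr rfl fun J _ => ?_
      rw [map_mul, map_prod]
      rfl
    have h2 : x = 0 := Subtype.ext (by rw [h1, h0]; rfl)
    have h3 : φ x = mev c (fun k => fun j => φ (b₁ (I k) j)) := by
      unfold mev
      rw [hx, map_sum]
      refine Finset.sum_congr rfl fun J _ => ?_
      rw [map_mul, map_prod, AlgHom.commutes]
    rw [h2, map_zero] at h3
    exact h3.symm

end Pool.Agent.Lib.MP_17a322_nt.FQ
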