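import Pool.Agent.Lib.MP_17a322_nt.FQ.K4
import Pool.Agent.Lib.MP_17a322_nt.FQ.K5
import Pool.Agent.Lib.MP_17a322_nt.FQ.K6

namespace Pool.Agent.Lib.MP_17a322_nt.FQ

/-- The values of the form and the homomorphisms of extension fields. -/
private theorem K7_mev_map {E W W' ρ : Type*} [Field E] [Field W] [Algebra E W] [Field W'] [Algebra E W'] [Fintype ρ] {N : ℕ}
    (σ : W →ₐ[E] W') (c : (Fin N → ρ) → E) (v : Fin N → ρ → W) :
    mev c (fun k j => σ (v k j)) = σ (mev c v) := by
  unfold mev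
  rw [map_sum]
  refine Finset.sum_congr rfl fun I _ => ?_
  rw [map_mul, map_prod, AlgHom.commutes]

/-- The support does not change under homomorphisms of extension fields. -/
private theorem K7_spt_map {E W W' ρ : Type*} [Field E] [Field W] [Algebra E W] [Field W'] [Algebra E W'] [Fintype ρ] {N : ℕ}
    (σ : W →ₐ[E] W') (c : (Fin N → ρ) → E) (b : ρ → ρ → W) :
    spt c (fun i j => σ (b i j)) = spt c b := by
  classical
  ext I
  unfold spt
  rw [Finset.mem_filter, Finset.mem_filter]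
  have h1 : mev c (fun k => (fun i j => σ (b i j)) (I k)) = σ (mev c fun k => b (I k)) :=
    K7_mev_map σ c fun k => b (I k)
  rw [h1, Ne, Ne, map_eq_zero]

/-- The function which is minimised depends only on the set. -/
private theorem K7_Phi_congr {ρ : Type*} [Fintype ρ] {N : ℕ} {S S' : Finset (Fin N → ρ)} (h : S = S') (hS : S.Nonempty)
    (hS' : S'.Nonempty) (y : ρ → ℝ) : PhiS S hS y = PhiS S' hS' y := by
  subst h
  rfl

/-- Bases are mapped to bases. -/
private theorem K7_indep_map {W W' ρ : Type*} [Field W] [Field W'] [Fintype ρ] [DecidableEq ρ] (f : W →+* W') (b : ρ → ρ → W)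
    (hb : LinearIndependent W b) : LinearIndependent W' fun i j => f (b i j) := by
  have h1 : IsUnit (Matrix.of b) := Matrix.linearIndependent_rows_iff_isUnit.1 hb
  have h2 : IsUnit ((Matrix.of b).map f) := h1.map (RingHom.mapMatrix f)
  exact Matrix.linearIndependent_rows_iff_isUnit.2 h2

/-- The dimension of a step of a filtration. -/
private theorem K7_finrank {W ρ : Type*} [Field W] [Fintype ρ] (b : ρ → ρ → W) (hb : LinearIndependent W b) (y : ρ → ℝ)
    (t : ℝ) : Module.finrank W (Fil b y t) = Nat.card {j | t ≤ y j} := by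
  classical
  have h1 : Fil b y t = Submodule.span W (Set.range fun j : {j | t ≤ y j} => b j) := by
    unfold Fil
    rw [Set.image_eq_range]
  have h2 : LinearIndependent W fun j : {j | t ≤ y j} => b j := hb.comp _ Subtype.val_injective
  rw [h1, finrank_span_eq_card h2, Nat.card_eq_fintype_card]

/-- Filtrations with the same weights are equal if the first is contained in the second. -/
private theorem K7_FEq_of_le {W ρ : Type*} [Field W] [Fintype ρ] (b b' : ρ → ρ → W) (hb : LinearIndependent W b)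
    (hb' : LinearIndependent W b') (y : ρ → ℝ) (h : ∀ t, Fil b y t ≤ Fil b' y t) : FEq b y b' y := by
  intro t
  refine Submodule.eq_of_le_of_finrank_eq (h t) ?_
  rw [K7_finrank b hb y t, K7_finrank b' hb' y t]

/-- If the filtration does not change under `σ`, then its steps are stable. -/
private theorem K7_stab {E W ρ : Type*} [Field E] [Field W] [Algebra E W] (σ : W ≃ₐ[E] W) (b : ρ → ρ → W)
    (y : ρ → ℝ) (t : ℝ) (h : FEq (fun i j => σ (b i j)) y b y) (x : ρ → W) (hx : x ∈ Fil b y t) :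
    (fun j => σ (x j)) ∈ Fil b y t := by
  rw [← h t]
  unfold Fil at hx ⊢
  induction hx using Submodule.span_induction with
  | mem x hx =>
    obtain ⟨j, hj, rfl⟩ := hx
    exact Submodule.subset_span ⟨j, hj, rfl⟩
  | zero =>
    have h1 : (fun j => σ ((0 : ρ → W) j)) = 0 := by
      funext j
      exact map_zero σ
    rw [h1]
    exact zero_mem _
  | add x z _ _ h1 h2 =>
    have h3 : (fun j => σ ((x + z) j)) = (fun j => σ (x j)) + fun j => σ (z j) := by
      funext j
      rw [Pi.add_apply, Pi.add_apply, map_add]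
    rw [h3]
    exact add_mem h1 h2
  | smul a x _ h1 =>
    have h3 : (fun j => σ ((a • x) j)) = σ a • fun j => σ (x j) := by
      funext j
      rw [Pi.smul_apply, Pi.smul_apply, smul_eq_mul, smul_eq_mul, map_mul]
    rw [h3]
    exact Submodule.smul_mem _ _ h1

/-- The rational filtration which is optimal over all extension fields. -/
private theorem K7_core.{u} {E : Type u} [Field E] [CharZero E] {ρ : Type*} [Fintype ρ] [DecidableEq ρ] {N : ℕ}
    (c : (Fin N → ρ) → E) (hc : c ≠ 0) :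
    ∃ (e : ρ → ρ → E) (y₀ : ρ → ℝ), LinearIndependent E e ∧
      ∀ (W : Type u) [Field W] [Algebra E W] (b : ρ → ρ → W) (hb : LinearIndependent W b),
        (∀ j, b j ∈ Submodule.span W ((fun i j' => algebraMap E W (e i j')) '' {i | y₀ j ≤ y₀ i})) →
        ∀ y', PhiS (spt c b) (spt_nonempty c hc b hb) y₀ ≤ PhiS (spt c b) (spt_nonempty c hc b hb) y' := by
  obtain ⟨b₀, hb₀, y₀, hopt⟩ := exists_opt (W := AlgebraicClosure E) c hc
  have h1 : ∀ σ : AlgebraicClosure E ≃ₐ[E] AlgebraicClosure E, FEq (fun i j => σ (b₀ i j)) y₀ b₀ y₀ := by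
    intro σ
    have hbσ : LinearIndependent (AlgebraicClosure E) fun i j => σ (b₀ i j) :=
      K7_indep_map (σ : AlgebraicClosure E →+* AlgebraicClosure E) b₀ hb₀
    refine opt_unique c hc _ _ hbσ hb₀ y₀ y₀ ?_ hopt
    intro b₁ hb₁ y₁
    have h2 : spt c (fun i j => σ (b₀ i j)) = spt c b₀ := K7_spt_map σ.toAlgHom c b₀
    rw [K7_Phi_congr h2 _ (spt_nonempty c hc b₀ hb₀)]
    exact hopt b₁ hb₁ y₁
  have h2 : ∀ t, ∃ M₀ : Submodule E (ρ → E), Fil b₀ y₀ t =
      Submodule.span (AlgebraicClosure E) ((fun (x : ρ → E) j => algebraMap E (AlgebraicClosure E) (x j)) '' (M₀ : Set (ρ → E))) :=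
    fun t => galois_descent (Fil b₀ y₀ t) fun σ x hx => K7_stab σ b₀ y₀ t (h1 σ) x hx
  choose M hM using h2
  obtain ⟨e, he, hFe⟩ := adapted_basis b₀ hb₀ y₀ M hM
  have heW : ∀ (W : Type u) [Field W] [Algebra E W], LinearIndependent W fun i j => algebraMap E W (e i j) :=
    fun W _ _ => K7_indep_map (algebraMap E W) e he
  have hspt : ∀ (W : Type u) [Field W] [Algebra E W], spt c (fun i j => algebraMap E W (e i j)) = spt c e :=
    fun W _ _ => K7_spt_map (Algebra.ofId E W) c e
  refine ⟨e, y₀, he, ?_⟩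
  intro W _ _ b hb hbe y'
  have h3 : FEq b y₀ (fun i j => algebraMap E W (e i j)) y₀ := by
    refine K7_FEq_of_le b _ hb (heW W) y₀ fun t => ?_
    unfold Fil
    rw [Submodule.span_le]
    rintro _ ⟨j, hj, rfl⟩
    refine Submodule.span_mono (Set.image_mono ?_) (hbe j)
    intro i hi
    exact le_trans (show t ≤ y₀ j from hj) hi
  have h4 : PhiS (spt c b) (spt_nonempty c hc b hb) y₀ = PhiS (spt c b₀) (spt_nonempty c hc b₀ hb₀) y₀ := by
    rw [Phi_eq_of_FEq c b _ hb (heW W) y₀ y₀ h3 _ (spt_nonempty c hc _ (heW W)),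
      K7_Phi_congr (hspt W) _ (spt_nonempty c hc e he),
      ← K7_Phi_congr (hspt (AlgebraicClosure E)) (spt_nonempty c hc _ (heW (AlgebraicClosure E))) _,
      Phi_eq_of_FEq c _ b₀ (heW (AlgebraicClosure E)) hb₀ y₀ y₀ hFe]
  obtain ⟨b', hb', hsub⟩ := nullst c b hb
  rw [h4]
  exact (hopt b' hb' y').trans (Phi_mono hsub _ _ y')

/-- Kempf's optimal filtration of a multilinear form is rational, and optimal over all extension fields. -/
theorem kempf.{u} {E : Type u} [Field E] [CharZero E] {ρ : Type*} [Fintype ρ] [DecidableEq ρ] {N : ℕ} (c : (Fin N → ρ) → E)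
    (hc : c ≠ 0) :
    ∃ (e : ρ → ρ → E) (a : ρ → ℝ), LinearIndependent E e ∧ (∀ j, 0 ≤ a j) ∧ ∑ j, a j = N ∧
      ∀ (W : Type u) [Field W] [Algebra E W] (b : ρ → ρ → W), LinearIndependent W b →
        (∀ j, b j ∈ Submodule.span W ((fun i j' => algebraMap E W (e i j')) '' {i | a i ≤ a j})) →
        (∀ I ∈ spt c b, ∑ j, a j ^ 2 ≤ ∑ k, a (I k)) ∧
          ∀ y : ρ → ℝ, ∃ I ∈ spt c b, ∑ k, a (I k) = ∑ j, a j ^ 2 ∧ ∑ j, a j * y j ≤ ∑ k, y (I k) := by
  obtain ⟨e, y₀, he, hmin⟩ := K7_core c hc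
  have h0 := Phi_crit (spt c e) (spt_nonempty c hc e he) y₀ (hmin E e he fun j =>
    Submodule.subset_span ⟨j, show y₀ j ≤ y₀ j from le_rfl, rfl⟩)
  refine ⟨e, fun j => -y₀ j, he, fun j => ?_, ?_, ?_⟩
  · have h1 := h0.1 j
    linarith
  · rw [Finset.sum_neg_distrib, h0.2.1, neg_neg]
  · intro W _ _ b hb hbe
    have hbe' : ∀ j, b j ∈ Submodule.span W ((fun i j' => algebraMap E W (e i j')) '' {i | y₀ j ≤ y₀ i}) := by
      intro j
      refine Submodule.span_mono (Set.image_mono ?_) (hbe j)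
      intro i hi
      exact neg_le_neg_iff.1 (show -y₀ i ≤ -y₀ j from hi)
    have h1 := Phi_crit (spt c b) (spt_nonempty c hc b hb) y₀ (hmin W b hb hbe')
    have h2 : ∑ j, (-y₀ j) ^ 2 = ∑ j, y₀ j ^ 2 := Finset.sum_congr rfl fun j _ => neg_sq _
    refine ⟨fun I hI => ?_, fun y => ?_⟩
    · rw [h2, Finset.sum_neg_distrib]
      have h3 := h1.2.2.1 I hI
      linarith
    · obtain ⟨I, hI, h3, h4⟩ := h1.2.2.2 y
      refine ⟨I, hI, ?_, ?_⟩
      · rw [h2, Finset.sum_neg_distrib, h3, neg_neg]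
      · have h5 : ∑ j, -y₀ j * y j = -∑ j, y₀ j * y j := by
          rw [← Finset.sum_neg_distrib]
          exact Finset.sum_congr rfl fun j _ => neg_mul _ _
        rw [h5]
        exact h4

end Pool.Agent.Lib.MP_17a322_nt.FQ
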