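import Mathlib

/-!
Sup norms of vectors over a valued field, and the vectors of maximal minors: definitions and first
properties.
-/

namespace Pool.Agent.Lib.MP_17a322_nt.FQ

section VN

variable {W G κ κ' : Type*} [Field W] [LinearOrderedCommGroupWithZero G] (v : Valuation W G)
  [Fintype κ] [Fintype κ']

/-- The sup norm of a vector over a valued field. -/
noncomputable def vn (S : κ → W) : G := Finset.univ.sup fun a => v (S a)

theorem le_vn (S : κ → W) (a : κ) : v (S a) ≤ vn v S :=
  Finset.le_sup (f := fun a => v (S a)) (Finset.mem_univ a)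

theorem vn_le {S : κ → W} {g : G} (h : ∀ a, v (S a) ≤ g) : vn v S ≤ g :=
  Finset.sup_le fun a _ => h a

theorem vn_le_iff {S : κ → W} {g : G} : vn v S ≤ g ↔ ∀ a, v (S a) ≤ g :=
  ⟨fun h a => (le_vn v S a).trans h, vn_le v⟩

/-- The norm is attained. -/
theorem vn_attained {S : κ → W} (h : vn v S ≠ 0) : ∃ a, v (S a) = vn v S := by
  classical
  have hne : (Finset.univ : Finset κ).Nonempty := by
    by_contra hc
    rw [Finset.not_nonempty_iff_eq_empty] at hc
    apply h
    unfold vn
    rw [hc, Finset.sup_empty]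
    exact bot_eq_zero
  obtain ⟨a, -, ha⟩ := Finset.exists_mem_eq_sup Finset.univ hne (fun a => v (S a))
  exact ⟨a, ha.symm⟩

theorem vn_eq_zero {S : κ → W} : vn v S = 0 ↔ S = 0 := by
  constructor
  · intro h
    funext a
    have h1 := le_vn v S a
    rw [h, le_zero_iff, map_eq_zero] at h1
    exact h1
  · rintro rfl
    apply le_antisymm _ zero_le
    apply vn_le
    intro a
    simp

theorem vn_ne_zero {S : κ → W} : vn v S ≠ 0 ↔ S ≠ 0 := (vn_eq_zero v).not

theorem vn_attained' {S : κ → W} (h : S ≠ 0) : ∃ a, S a ≠ 0 ∧ v (S a) = vn v S := by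
  obtain ⟨a, ha⟩ := vn_attained v ((vn_ne_zero v).2 h)
  refine ⟨a, ?_, ha⟩
  intro h0
  rw [h0, map_zero] at ha
  exact (vn_ne_zero v).2 h ha.symm

theorem vn_smul (c : W) (S : κ → W) : vn v (c • S) = v c * vn v S := by
  by_cases hS : S = 0
  · subst hS
    rw [smul_zero, (vn_eq_zero v).2 rfl, mul_zero]
  apply le_antisymm
  · apply vn_le
    intro a
    rw [Pi.smul_apply, smul_eq_mul, map_mul]
    exact mul_le_mul_right (le_vn v S a) _
  · obtain ⟨a, -, ha⟩ := vn_attained' v hS
    rw [← ha, ← map_mul]
    exact le_vn v (c • S) a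

theorem vn_add_le (S T : κ → W) : vn v (S + T) ≤ max (vn v S) (vn v T) := by
  apply vn_le
  intro a
  exact (v.map_add (S a) (T a)).trans (max_le_max (le_vn v S a) (le_vn v T a))

theorem vn_neg (S : κ → W) : vn v (-S) = vn v S := by
  unfold vn
  congr 1
  funext a
  rw [Pi.neg_apply, Valuation.map_neg]

theorem vn_sum_le {ι : Type*} (s : Finset ι) (S : ι → κ → W) {g : G} (h : ∀ i ∈ s, vn v (S i) ≤ g) :
    vn v (∑ i ∈ s, S i) ≤ g := by
  apply vn_le
  intro a
  rw [Finset.sum_apply]
  apply v.map_sum_le
  intro i hi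
  exact (le_vn v (S i) a).trans (h i hi)

/-- The norm of a tensor product of vectors. -/
theorem vn_tensor (S : κ → W) (T : κ' → W) :
    vn v (fun p : κ × κ' => S p.1 * T p.2) = vn v S * vn v T := by
  apply le_antisymm
  · apply vn_le
    intro p
    rw [map_mul]
    exact mul_le_mul' (le_vn v S p.1) (le_vn v T p.2)
  · by_cases hS : S = 0
    · rw [(vn_eq_zero v).2 hS, zero_mul]
      exact zero_le
    by_cases hT : T = 0
    · rw [(vn_eq_zero v).2 hT, mul_zero]
      exact zero_le
    obtain ⟨a, -, ha⟩ := vn_attained' v hS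
    obtain ⟨b, -, hb⟩ := vn_attained' v hT
    rw [← ha, ← hb, ← map_mul]
    exact le_vn v (fun p : κ × κ' => S p.1 * T p.2) (a, b)

theorem vn_comp_equiv (S : κ → W) (e : κ' ≃ κ) : vn v (S ∘ e) = vn v S := by
  apply le_antisymm
  · exact vn_le v fun a => le_vn v S (e a)
  · apply vn_le
    intro a
    have h := le_vn v (S ∘ e) (e.symm a)
    rw [Function.comp_apply, e.apply_symm_apply] at h
    exact h

theorem vn_comp_le (S : κ → W) (f : κ' → κ) : vn v (S ∘ f) ≤ vn v S :=
  vn_le v fun a => le_vn v S (f a)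

end VN

section PLK

variable {W ι ι' κ : Type*} [Field W] [Fintype ι] [DecidableEq ι] [Fintype ι'] [DecidableEq ι']

/-- The vector of the maximal minors of a tuple of vectors: the entry at `I` is the determinant of the
entries of the vectors with the indices `I i`. -/
noncomputable def plk (x : ι → κ → W) : (ι → κ) → W :=
  fun I => (Matrix.of fun i j => x j (I i)).det

theorem plk_apply (x : ι → κ → W) (I : ι → κ) :
    plk x I = (Matrix.of fun i j => x j (I i)).det := rfl

/-- The minors of a tuple of combinations of the vectors. -/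
theorem plk_comb_vec (t : ι → ι → W) (x : ι → κ → W) :
    plk (fun j => ∑ k, t j k • x k) = (Matrix.of t).det • plk x := by
  funext I
  rw [Pi.smul_apply, smul_eq_mul, plk_apply, plk_apply, ← Matrix.det_transpose (Matrix.of t), mul_comm,
    ← Matrix.det_mul]
  congr 1
  ext i j
  rw [Matrix.mul_apply, Matrix.of_apply, Finset.sum_apply]
  apply Finset.sum_congr rfl
  intro k _
  rw [Matrix.of_apply, Matrix.transpose_apply, Matrix.of_apply, Pi.smul_apply, smul_eq_mul, mul_comm]

/-- Another index set for the vectors. -/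
theorem plk_reindex (x : ι → κ → W) (e : ι' ≃ ι) (I : ι' → κ) :
    plk (fun j => x (e j)) I = plk x (fun i => I (e.symm i)) := by
  rw [plk_apply, plk_apply, ← Matrix.det_submatrix_equiv_self e]
  congr 1
  ext i j
  simp

/-- The minors of a linearly dependent tuple are zero. -/
theorem plk_eq_zero {x : ι → κ → W} (h : ¬ LinearIndependent W x) : plk x = 0 := by
  rw [Fintype.not_linearIndependent_iff] at h
  obtain ⟨g, hg, i₀, hi₀⟩ := h
  funext I
  rw [plk_apply, Pi.zero_apply]
  by_contra hdet
  have h1 : (Matrix.of fun i j => x j (I i)).mulVec g = 0 := by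
    funext i
    have h2 := congrFun hg (I i)
    rw [Finset.sum_apply] at h2
    rw [Matrix.mulVec, dotProduct, Pi.zero_apply]
    rw [Pi.zero_apply] at h2
    rw [← h2]
    apply Finset.sum_congr rfl
    intro k _
    rw [Matrix.of_apply, Pi.smul_apply, smul_eq_mul, mul_comm]
  have h3 := Matrix.eq_zero_of_mulVec_eq_zero hdet h1
  exact hi₀ (congrFun h3 i₀)

end PLK

section PLKV

variable {W G ι ι' κ : Type*} [Field W] [LinearOrderedCommGroupWithZero G] (v : Valuation W G)
  [Fintype ι] [DecidableEq ι] [Fintype ι'] [DecidableEq ι'] [Fintype κ]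

theorem vn_plk_reindex (x : ι → κ → W) (e : ι' ≃ ι) :
    vn v (plk fun j => x (e j)) = vn v (plk x) := by
  have h : (plk fun j => x (e j)) = plk x ∘ (Equiv.arrowCongr e (Equiv.refl κ)) := by
    funext I
    rw [plk_reindex, Function.comp_apply]
    rfl
  rw [h]
  exact vn_comp_equiv v _ _

theorem vn_plk_comb_vec (t : ι → ι → W) (x : ι → κ → W) :
    vn v (plk fun j => ∑ k, t j k • x k) = v (Matrix.of t).det * vn v (plk x) := by
  rw [plk_comb_vec, vn_smul]

/-- The minors of no vectors. -/
theorem vn_plk_empty [IsEmpty ι] (x : ι → κ → W) : vn v (plk x) = 1 := by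
  apply le_antisymm
  · apply vn_le
    intro I
    rw [plk_apply, Matrix.det_isEmpty, map_one]
  · have h := le_vn v (plk x) (fun i => isEmptyElim i)
    rw [plk_apply, Matrix.det_isEmpty, map_one] at h
    exact h

/-- Hadamard's inequality: the minors are at most the product of the norms of the vectors. -/
theorem vn_plk_le_prod (x : ι → κ → W) : vn v (plk x) ≤ ∏ j, vn v (x j) := by
  apply vn_le
  intro I
  rw [plk_apply, ← Matrix.det_transpose, Matrix.det_apply]
  apply v.map_sum_le
  intro σ _
  have h1 : v (Equiv.Perm.sign σ • ∏ i, (Matrix.of fun i j => x j (I i)).transpose (σ i) i) =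
      v (∏ i, (Matrix.of fun i j => x j (I i)).transpose (σ i) i) := by
    rcases Int.units_eq_one_or (Equiv.Perm.sign σ) with h | h
    · rw [h, one_smul]
    · rw [h, Units.neg_smul, one_smul, Valuation.map_neg]
  rw [h1, map_prod]
  have h2 : (∏ i, v ((Matrix.of fun i j => x j (I i)).transpose (σ i) i)) ≤ ∏ i, vn v (x (σ i)) := by
    apply Finset.prod_le_prod'
    intro i _
    rw [Matrix.transpose_apply, Matrix.of_apply]
    exact le_vn v (x (σ i)) (I i)
  refine h2.trans (le_of_eq ?_)
  exact Equiv.prod_comp σ (fun j => vn v (x j))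

end PLKV

end Pool.Agent.Lib.MP_17a322_nt.FQ
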