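import Pool.Agent.Lib.MP_17a322_nt.FQ.N0

/-!
Orthonormal frames over a valued field, from a finite list (Gaussian elimination with pivoting).
-/

namespace Pool.Agent.Lib.MP_17a322_nt.FQ

section

variable {E κ ι : Type*} [Field E] [Fintype κ] [DecidableEq ι]

/-- The functionals `g k` are dual to the vectors `e j`. -/
def DualFr (e g : ι → κ → E) : Prop := ∀ j k, ∑ a, g k a * e j a = if j = k then 1 else 0

/-- The vectors `e j` and the functionals `g j` are integral for a valuation of an extension field. -/
def IntFr {W G : Type*} [Field W] [Algebra E W] [LinearOrderedCommGroupWithZero G]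
    (v : Valuation W G) (e g : ι → κ → E) : Prop :=
  (∀ j a, v (algebraMap E W (e j a)) ≤ 1) ∧ ∀ j a, v (algebraMap E W (g j a)) ≤ 1

end

section

theorem image_cons_Iic {α : Type*} {z : ℕ} (x0 : α) (x : Fin z → α) (i : Fin z) :
    (Fin.cons x0 x : Fin (z + 1) → α) '' Set.Iic i.succ = insert x0 (x '' Set.Iic i) := by
  ext y
  constructor
  · rintro ⟨k, hk, rfl⟩
    revert hk
    refine Fin.cases ?_ ?_ k
    · intro _
      rw [Fin.cons_zero]
      exact Set.mem_insert _ _
    · intro k hk
      rw [Fin.cons_succ]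
      refine Set.mem_insert_of_mem _ ⟨k, ?_, rfl⟩
      exact Fin.succ_le_succ_iff.1 hk
  · intro hy
    rcases hy with rfl | ⟨k, hk, rfl⟩
    · exact ⟨0, Fin.zero_le _, Fin.cons_zero _ _⟩
    · exact ⟨k.succ, Fin.succ_le_succ_iff.2 hk, Fin.cons_succ _ _ _⟩

theorem image_cons_Iic_zero {α : Type*} {z : ℕ} (x0 : α) (x : Fin z → α) :
    (Fin.cons x0 x : Fin (z + 1) → α) '' Set.Iic 0 = {x0} := by
  ext y
  constructor
  · rintro ⟨k, hk, rfl⟩
    have hk0 : k = 0 := le_antisymm hk (Fin.zero_le _)
    rw [hk0, Fin.cons_zero]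
    exact Set.mem_singleton _
  · rintro rfl
    exact ⟨0, Set.mem_Iic.2 le_rfl, Fin.cons_zero _ _⟩

variable {E : Type*} {κ : Type*} [Field E]

private theorem N1_span (z : ℕ) (b0 : κ → E) (b : Fin z → κ → E) (c : E) (hc : c ≠ 0)
    (m : Fin z → E) (e : Fin z → κ → E)
    (he : ∀ j, Submodule.span E (e '' Set.Iic j) =
      Submodule.span E ((fun j => b j - m j • (c • b0)) '' Set.Iic j)) (j : Fin (z + 1)) :
    Submodule.span E ((Fin.cons (c • b0) e : Fin (z + 1) → κ → E) '' Set.Iic j) =
      Submodule.span E ((Fin.cons b0 b : Fin (z + 1) → κ → E) '' Set.Iic j) := by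
  have h0 : Submodule.span E {c • b0} = Submodule.span E {b0} :=
    Submodule.span_singleton_smul_eq (IsUnit.mk0 c hc) b0
  refine Fin.cases ?_ ?_ j
  · rw [image_cons_Iic_zero, image_cons_Iic_zero, h0]
  · intro i
    rw [image_cons_Iic, image_cons_Iic, Submodule.span_insert, Submodule.span_insert, h0, he i]
    apply le_antisymm
    · refine sup_le le_sup_left (Submodule.span_le.2 ?_)
      rintro _ ⟨k, hk, rfl⟩
      refine Submodule.sub_mem _ ?_ ?_
      · exact Submodule.mem_sup_right (Submodule.subset_span ⟨k, hk, rfl⟩)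
      · exact Submodule.mem_sup_left (Submodule.smul_mem _ _
          (Submodule.smul_mem _ _ (Submodule.mem_span_singleton_self b0)))
    · refine sup_le le_sup_left (Submodule.span_le.2 ?_)
      rintro _ ⟨k, hk, rfl⟩
      have h1 : b k = (b k - m k • (c • b0)) + m k • (c • b0) := by abel
      rw [SetLike.mem_coe, h1]
      refine Submodule.add_mem _ ?_ ?_
      · exact Submodule.mem_sup_right (Submodule.subset_span ⟨k, hk, rfl⟩)
      · exact Submodule.mem_sup_left (Submodule.smul_mem _ _
          (Submodule.smul_mem _ _ (Submodule.mem_span_singleton_self b0)))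

private theorem N1_indep (z : ℕ) (b : Fin (z + 1) → κ → E) (hb : LinearIndependent E b) (c : E)
    (m : Fin z → E) : LinearIndependent E (fun j : Fin z => b j.succ - m j • (c • b 0)) := by
  rw [Fintype.linearIndependent_iff] at hb ⊢
  intro g hg i
  have h := hb (Fin.cons (-∑ j, g j * m j * c) g) ?_ i.succ
  · rw [Fin.cons_succ] at h
    exact h
  · rw [Fin.sum_univ_succ, Fin.cons_zero]
    simp only [Fin.cons_succ]
    rw [← hg]
    simp only [smul_sub, Finset.sum_sub_distrib, neg_smul, Finset.sum_smul, smul_smul, mul_assoc]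
    abel

/-- ORTHONORMAL FRAMES FROM A FINITE LIST: for linearly independent vectors `b j` there is a finite
list of frames, adapted to all flags to which `b` is adapted, such that for every valuation of every
extension field one of the frames is integral together with its dual functionals. -/
theorem frames.{u, k, w, t} {E : Type u} {κ : Type k} [Field E] [Fintype κ] : ∀ {z : ℕ}
    (b : Fin z → κ → E) (_ : LinearIndependent E b),
    ∃ L : Finset ((Fin z → κ → E) × (Fin z → κ → E)),
      (∀ p ∈ L, DualFr p.1 p.2 ∧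
        ∀ j, Submodule.span E (p.1 '' Set.Iic j) = Submodule.span E (b '' Set.Iic j)) ∧
      ∀ (W : Type w) [Field W] [Algebra E W] (G : Type t) [LinearOrderedCommGroupWithZero G]
        (v : Valuation W G), ∃ p ∈ L, IntFr v p.1 p.2 := by
  classical
  intro z
  induction z with
  | zero =>
    intro b _
    refine ⟨{(fun j => j.elim0, fun j => j.elim0)}, ?_, ?_⟩
    · intro p _
      exact ⟨fun j => j.elim0, fun j => j.elim0⟩
    · intro W _ _ G _ v
      exact ⟨_, Finset.mem_singleton_self _, fun j => j.elim0, fun j => j.elim0⟩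
  | succ z ih =>
    intro b hb
    have hL : ∀ a₀ : κ, ∃ L : Finset ((Fin z → κ → E) × (Fin z → κ → E)),
      (∀ p ∈ L, DualFr p.1 p.2 ∧
        ∀ j, Submodule.span E (p.1 '' Set.Iic j) = Submodule.span E
          ((fun j : Fin z => b j.succ - b j.succ a₀ • ((b 0 a₀)⁻¹ • b 0)) '' Set.Iic j)) ∧
      ∀ (W : Type w) [Field W] [Algebra E W] (G : Type t) [LinearOrderedCommGroupWithZero G]
        (v : Valuation W G), ∃ p ∈ L, IntFr v p.1 p.2 :=
      fun a₀ => ih _ (N1_indep z b hb _ _)
    choose L hL1 hL2 using hL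
    let f : κ → (Fin z → κ → E) × (Fin z → κ → E) → (Fin (z + 1) → κ → E) × (Fin (z + 1) → κ → E) :=
      fun a₀ p => (Fin.cons ((b 0 a₀)⁻¹ • b 0) p.1, Fin.cons (Pi.single a₀ 1)
        (fun k => p.2 k - (∑ a, p.2 k a * ((b 0 a₀)⁻¹ • b 0) a) • (Pi.single a₀ 1 : κ → E)))
    refine ⟨(Finset.univ.filter fun a₀ => b 0 a₀ ≠ 0).biUnion fun a₀ => (L a₀).image (f a₀), ?_, ?_⟩
    · intro q hq
      rw [Finset.mem_biUnion] at hq
      obtain ⟨a₀, ha₀, hq⟩ := hq
      rw [Finset.mem_filter] at ha₀
      obtain ⟨p, hp, rfl⟩ := Finset.mem_image.1 hq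
      obtain ⟨hd, hs⟩ := hL1 a₀ p hp
      have he0 : ((b 0 a₀)⁻¹ • b 0) a₀ = 1 := by
        rw [Pi.smul_apply, smul_eq_mul, inv_mul_cancel₀ ha₀.2]
      have he : ∀ j, p.1 j a₀ = 0 := by
        intro j
        have h1 : p.1 j ∈ Submodule.span E (p.1 '' Set.Iic j) :=
          Submodule.subset_span ⟨j, Set.mem_Iic.2 le_rfl, rfl⟩
        rw [hs j] at h1
        have h2 : Submodule.span E
          ((fun j : Fin z => b j.succ - b j.succ a₀ • ((b 0 a₀)⁻¹ • b 0)) '' Set.Iic j) ≤
            LinearMap.ker (LinearMap.proj a₀ : (κ → E) →ₗ[E] E) := by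
          rw [Submodule.span_le]
          rintro _ ⟨k, -, rfl⟩
          rw [SetLike.mem_coe, LinearMap.mem_ker, LinearMap.proj_apply]
          change b k.succ a₀ - b k.succ a₀ * ((b 0 a₀)⁻¹ • b 0) a₀ = 0
          rw [he0, mul_one, sub_self]
        exact LinearMap.mem_ker.1 (h2 h1)
      constructor
      · intro j k
        refine Fin.cases ?_ ?_ k
        · have h1 : ∀ x : κ → E, ∑ a, (f a₀ p).2 0 a * x a = x a₀ := by
            intro x
            simp only [f, Fin.cons_zero, Pi.single_apply, ite_mul, one_mul, zero_mul,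
              Finset.sum_ite_eq', Finset.mem_univ, if_true]
          rw [h1]
          refine Fin.cases ?_ ?_ j
          · rw [if_pos rfl]
            exact he0
          · intro j
            rw [if_neg (Fin.succ_ne_zero j)]
            exact he j
        · intro k
          have h1 : ∀ x : κ → E, ∑ a, (f a₀ p).2 k.succ a * x a =
              (∑ a, p.2 k a * x a) - (∑ a, p.2 k a * ((b 0 a₀)⁻¹ • b 0) a) * x a₀ := by
            intro x
            simp only [f, Fin.cons_succ, Pi.sub_apply, Pi.smul_apply, Pi.single_apply, smul_eq_mul,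
              sub_mul, Finset.sum_sub_distrib, mul_ite, mul_one, mul_zero, ite_mul, zero_mul,
              Finset.sum_ite_eq', Finset.mem_univ, if_true]
          rw [h1]
          refine Fin.cases ?_ ?_ j
          · rw [if_neg (Fin.succ_ne_zero k).symm]
            have h2 : (f a₀ p).1 0 = (b 0 a₀)⁻¹ • b 0 := rfl
            rw [h2, he0, mul_one, sub_self]
          · intro j
            have h2 : (f a₀ p).1 j.succ = p.1 j := rfl
            rw [h2, he j, mul_zero, sub_zero, hd j k]
            simp only [Fin.succ_inj]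
      · intro j
        have h1 := N1_span z (b 0) (fun j => b j.succ) (b 0 a₀)⁻¹ (inv_ne_zero ha₀.2)
          (fun j => b j.succ a₀) p.1 hs j
        have h2 : (Fin.cons (b 0) (fun j : Fin z => b j.succ) : Fin (z + 1) → κ → E) = b := by
          funext i
          refine Fin.cases ?_ ?_ i
          · rfl
          · intro i
            rfl
        rw [h2] at h1
        exact h1
    · intro W _ _ G _ v
      have hb0 : (fun a => algebraMap E W (b 0 a)) ≠ 0 := by
        intro h
        apply hb.ne_zero 0
        funext a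
        have h1 := congrFun h a
        rw [Pi.zero_apply, map_eq_zero] at h1
        exact h1
      obtain ⟨a₀, ha₀, hmax⟩ := vn_attained' v hb0
      have ha₀' : b 0 a₀ ≠ 0 := fun h => ha₀ (by rw [h, map_zero])
      obtain ⟨p, hp, hi1, hi2⟩ := hL2 a₀ W G v
      have he0 : ∀ a, v (algebraMap E W (((b 0 a₀)⁻¹ • b 0) a)) ≤ 1 := by
        intro a
        rw [Pi.smul_apply, smul_eq_mul, map_mul, map_mul, map_inv₀, map_inv₀]
        have h1 : v (algebraMap E W (b 0 a)) ≤ v (algebraMap E W (b 0 a₀)) := by
          rw [hmax]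
          exact le_vn v (fun a => algebraMap E W (b 0 a)) a
        have h2 : v (algebraMap E W (b 0 a₀)) ≠ 0 := (Valuation.ne_zero_iff v).2 ha₀
        calc (v (algebraMap E W (b 0 a₀)))⁻¹ * v (algebraMap E W (b 0 a))
            ≤ (v (algebraMap E W (b 0 a₀)))⁻¹ * v (algebraMap E W (b 0 a₀)) :=
              mul_le_mul_right h1 _
          _ = 1 := inv_mul_cancel₀ h2
      refine ⟨f a₀ p, ?_, ?_, ?_⟩
      · rw [Finset.mem_biUnion]
        exact ⟨a₀, Finset.mem_filter.2 ⟨Finset.mem_univ _, ha₀'⟩, Finset.mem_image_of_mem _ hp⟩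
      · intro j a
        refine Fin.cases ?_ ?_ j
        · exact he0 a
        · intro j
          exact hi1 j a
      · intro j a
        have hs : v (algebraMap E W ((Pi.single a₀ 1 : κ → E) a)) ≤ 1 := by
          rw [Pi.single_apply]
          split
          · rw [map_one, map_one]
          · rw [map_zero, map_zero]
            exact zero_le
        refine Fin.cases ?_ ?_ j
        · exact hs
        · intro k
          have h2 : (f a₀ p).2 k.succ a = p.2 k a -
            (∑ a, p.2 k a * ((b 0 a₀)⁻¹ • b 0) a) * (Pi.single a₀ 1 : κ → E) a := rfl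
          rw [h2, map_sub, map_mul, map_sum]
          refine (v.map_sub _ _).trans (max_le (hi2 k a) ?_)
          rw [map_mul]
          refine mul_le_one' (v.map_sum_le fun a _ => ?_) hs
          rw [map_mul, map_mul]
          exact mul_le_one' (hi2 k a) (he0 a)

end

end Pool.Agent.Lib.MP_17a322_nt.FQ
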