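import Pool.Agent.Lib.MP_17a322_nt.FQ.N1

/-!
Orthonormal frames: norms and maximal minors in coordinates.
-/

namespace Pool.Agent.Lib.MP_17a322_nt.FQ

section

variable {W G κ κ' ι ι' : Type*} [Field W] [LinearOrderedCommGroupWithZero G] (v : Valuation W G)
  [Fintype κ] [Fintype κ'] [Fintype ι] [DecidableEq ι] [Fintype ι'] [DecidableEq ι']

/-- An orthonormal frame: integral vectors with integral dual functionals. -/
def OnFr (e g : ι → κ → W) : Prop :=
  DualFr e g ∧ (∀ j a, v (e j a) ≤ 1) ∧ ∀ j a, v (g j a) ≤ 1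

variable {v}

omit [Fintype ι] in
/-- A frame over a smaller field which is integral for the valuation is orthonormal. -/
theorem onFr_of {E : Type*} [Field E] [Algebra E W] {e g : ι → κ → E} (hd : DualFr e g)
    (hi : IntFr v e g) :
    OnFr v (fun j a => algebraMap E W (e j a)) (fun j a => algebraMap E W (g j a)) := by
  refine ⟨?_, hi.1, hi.2⟩
  intro j k
  have h := congrArg (algebraMap E W) (hd j k)
  rw [map_sum] at h
  simp only [map_mul] at h
  rw [h]
  split
  · rw [map_one]
  · rw [map_zero]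

/-- The coordinates in a frame. -/
theorem OnFr.coord {e g : ι → κ → W} (h : OnFr v e g) (c : ι → W) (k : ι) :
    ∑ a, g k a * (∑ j, c j • e j) a = c k := by
  have h1 : ∀ a, g k a * (∑ j, c j • e j) a = ∑ j, c j * (g k a * e j a) := by
    intro a
    rw [Finset.sum_apply, Finset.mul_sum]
    apply Finset.sum_congr rfl
    intro j _
    rw [Pi.smul_apply, smul_eq_mul]
    ring
  rw [Finset.sum_congr rfl fun a _ => h1 a, Finset.sum_comm]
  have h2 : ∀ j, ∑ a, c j * (g k a * e j a) = if j = k then c j else 0 := by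
    intro j
    rw [← Finset.mul_sum, h.1 j k, mul_ite, mul_one, mul_zero]
  rw [Finset.sum_congr rfl fun j _ => h2 j, Finset.sum_ite_eq' Finset.univ k c,
    if_pos (Finset.mem_univ k)]

/-- The norm in an orthonormal frame. -/
theorem OnFr.vn_eq {e g : ι → κ → W} (h : OnFr v e g) (c : ι → W) :
    vn v (∑ j, c j • e j) = vn v c := by
  apply le_antisymm
  · apply vn_sum_le
    intro j _
    rw [vn_smul]
    calc v (c j) * vn v (e j) ≤ vn v c * 1 := mul_le_mul' (le_vn v c j) (vn_le v (h.2.1 j))
      _ = vn v c := mul_one _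
  · apply vn_le
    intro k
    rw [← h.coord c k]
    apply v.map_sum_le
    intro a _
    rw [map_mul]
    calc v (g k a) * v ((∑ j, c j • e j) a) ≤ 1 * vn v (∑ j, c j • e j) :=
          mul_le_mul' (h.2.2 k a) (le_vn v _ a)
      _ = vn v (∑ j, c j • e j) := one_mul _

variable (v)

/-- The minors after a change of the functionals. -/
theorem vn_plk_map (t : κ' → κ → W) (γ : G) (ht : ∀ a' a, v (t a' a) ≤ γ) (x : ι → κ → W) :
    vn v (plk fun j a' => ∑ a, t a' a * x j a) ≤ γ ^ Fintype.card ι * vn v (plk x) := by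
  classical
  apply vn_le
  intro I
  have h1 : (Matrix.of fun i j => ∑ a, t (I i) a * x j a).det =
      ∑ K : ι → κ, (∏ i, t (I i) (K i)) * plk x K := by
    have h2 : (Matrix.of fun i j => ∑ a, t (I i) a * x j a) =
        fun i => ∑ a, (t (I i) a) • fun j => x j a := by
      funext i j
      rw [Matrix.of_apply, Finset.sum_apply]
      rfl
    have h3 : (Matrix.detRowAlternating (fun i => ∑ a, (t (I i) a) • fun j => x j a) : W) =
        ∑ K : ι → κ, Matrix.detRowAlternating (fun i => (t (I i) (K i)) • fun j => x j (K i)) := by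
      exact (Matrix.detRowAlternating (n := ι) (R := W)).toMultilinearMap.map_sum
        (fun i a => (t (I i) a) • fun j => x j a)
    have h4 : ∀ K : ι → κ, (Matrix.detRowAlternating
        (fun i => (t (I i) (K i)) • fun j => x j (K i)) : W) = (∏ i, t (I i) (K i)) * plk x K := by
      intro K
      exact (Matrix.detRowAlternating (n := ι) (R := W)).toMultilinearMap.map_smul_univ
        (fun i => t (I i) (K i)) (fun i j => x j (K i))
    rw [h2]
    exact h3.trans (Finset.sum_congr rfl fun K _ => h4 K)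
  rw [plk_apply, h1]
  apply v.map_sum_le
  intro K _
  rw [map_mul, map_prod]
  refine mul_le_mul' ?_ (le_vn v (plk x) K)
  rw [← Finset.card_univ, ← Finset.prod_const]
  exact Finset.prod_le_prod' fun i _ => ht (I i) (K i)

variable {v}

/-- The minors in an orthonormal frame. -/
theorem OnFr.vn_plk_eq {e g : ι → κ → W} (h : OnFr v e g) (c : ι' → ι → W) :
    vn v (plk fun j => ∑ k, c j k • e k) = vn v (plk c) := by
  apply le_antisymm
  · have h1 := vn_plk_map v (fun a k => e k a) 1 (fun a k => h.2.1 k a) c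
    rw [one_pow, one_mul] at h1
    refine le_trans (le_of_eq ?_) h1
    congr 2
    funext j a
    rw [Finset.sum_apply]
    apply Finset.sum_congr rfl
    intro k _
    rw [Pi.smul_apply, smul_eq_mul, mul_comm]
  · have h1 := vn_plk_map v g 1 h.2.2 (fun j => ∑ k, c j k • e k)
    rw [one_pow, one_mul] at h1
    refine le_trans (le_of_eq ?_) h1
    congr 2
    funext j k
    exact (h.coord (c j) k).symm

variable (v)

/-- The minors of a square tuple. -/
theorem vn_plk_square (t : ι → ι → W) : vn v (plk t) = v (Matrix.of t).det := by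
  apply le_antisymm
  · apply vn_le
    intro I
    by_cases hI : Function.Injective I
    · have hb : Function.Bijective I := Finite.injective_iff_bijective.1 hI
      have h1 : plk t I = ((Matrix.of t).transpose.submatrix (Equiv.ofBijective I hb) id).det := rfl
      rw [h1, Matrix.det_permute, Matrix.det_transpose, map_mul]
      have h2 : v ((Equiv.Perm.sign (Equiv.ofBijective I hb) : ℤ) : W) = 1 := by
        rcases Int.units_eq_one_or (Equiv.Perm.sign (Equiv.ofBijective I hb)) with h | h
        · rw [h]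
          simp
        · rw [h]
          simp
      rw [h2, one_mul]
    · rw [Function.Injective] at hI
      push Not at hI
      obtain ⟨i, j, hij, hne⟩ := hI
      have h1 : plk t I = 0 := by
        rw [plk_apply]
        apply Matrix.det_zero_of_row_eq hne
        funext k
        rw [Matrix.of_apply, Matrix.of_apply, hij]
      rw [h1, map_zero]
      exact zero_le
  · have h := le_vn v (plk t) id
    have h1 : plk t id = (Matrix.of t).det := by
      rw [plk_apply, ← Matrix.det_transpose]
      rfl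
    rw [h1] at h
    exact h

variable {v}

/-- The minors of a tuple in an orthonormal frame of its span. -/
theorem OnFr.vn_plk {e g : ι → κ → W} (h : OnFr v e g) (t : ι → ι → W) :
    vn v (plk fun j => ∑ k, t j k • e k) = v (Matrix.of t).det := by
  rw [h.vn_plk_eq, vn_plk_square]

variable (v)

/-- An orthonormal frame of two consecutive blocks. -/
theorem exists_onFr_sum (x : ι → κ → W) (y : ι' → κ → W)
    (h : LinearIndependent W (Sum.elim x y)) :
    ∃ (e g : ι ⊕ ι' → κ → W) (s : ι → ι → W) (t : ι' → ι ⊕ ι' → W), OnFr v e g ∧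
      (∀ j, x j = ∑ k, s j k • e (Sum.inl k)) ∧ (∀ j, y j = ∑ k, t j k • e k) ∧
      (∀ j, e (Sum.inl j) ∈ Submodule.span W (Set.range x)) := by
  classical
  let q : ι ⊕ ι' ≃ Fin (Fintype.card ι + Fintype.card ι') :=
    (Equiv.sumCongr (Fintype.equivFin ι) (Fintype.equivFin ι')).trans finSumFinEquiv
  have hb : LinearIndependent W (Sum.elim x y ∘ q.symm) := h.comp q.symm q.symm.injective
  obtain ⟨L, hL1, hL2⟩ := frames (Sum.elim x y ∘ q.symm) hb
  obtain ⟨p, hp, hi⟩ := hL2 W G v
  obtain ⟨hd, hs⟩ := hL1 p hp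
  have hinl : ∀ i : ι, q (Sum.inl i) = Fin.castAdd (Fintype.card ι') (Fintype.equivFin ι i) := by
    intro i
    rfl
  have hle : ∀ (i : ι) (k : Fin (Fintype.card ι + Fintype.card ι')), k ≤ q (Sum.inl i) →
      ∃ i' : ι, k = q (Sum.inl i') := by
    intro i k hk
    rw [hinl] at hk
    refine ⟨(Fintype.equivFin ι).symm ⟨k, lt_of_le_of_lt hk (Fintype.equivFin ι i).2⟩, ?_⟩
    rw [hinl, Equiv.apply_symm_apply]
    rfl
  have hself : ∀ (f : Fin (Fintype.card ι + Fintype.card ι') → κ → W) (k), f k ∈
      Submodule.span W (f '' Set.Iic k) := fun f k =>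
    Submodule.subset_span ⟨k, Set.mem_Iic.2 le_rfl, rfl⟩
  have hx : ∀ j, x j ∈ Submodule.span W (Set.range fun k => p.1 (q (Sum.inl k))) := by
    intro j
    have h1 := hself (Sum.elim x y ∘ q.symm) (q (Sum.inl j))
    rw [← hs, Function.comp_apply, Equiv.symm_apply_apply, Sum.elim_inl] at h1
    refine Submodule.span_mono ?_ h1
    rintro _ ⟨k, hk, rfl⟩
    obtain ⟨i', rfl⟩ := hle j k hk
    exact ⟨i', rfl⟩
  have hy : ∀ j, y j ∈ Submodule.span W (Set.range fun k => p.1 (q k)) := by
    intro j
    have h1 := hself (Sum.elim x y ∘ q.symm) (q (Sum.inr j))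
    rw [← hs, Function.comp_apply, Equiv.symm_apply_apply, Sum.elim_inr] at h1
    refine Submodule.span_mono ?_ h1
    rintro _ ⟨k, hk, rfl⟩
    exact ⟨q.symm k, congrArg p.1 (Equiv.apply_symm_apply q k)⟩
  have hx' : ∀ j, ∃ s : ι → W, ∑ k, s k • p.1 (q (Sum.inl k)) = x j := fun j =>
    (Submodule.mem_span_range_iff_exists_fun W).1 (hx j)
  have hy' : ∀ j, ∃ t : ι ⊕ ι' → W, ∑ k, t k • p.1 (q k) = y j := fun j =>
    (Submodule.mem_span_range_iff_exists_fun W).1 (hy j)
  choose s hs' using hx'
  choose t ht' using hy'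
  refine ⟨fun j => p.1 (q j), fun j => p.2 (q j), s, t, ⟨?_, ?_, ?_⟩, fun j => (hs' j).symm,
    fun j => (ht' j).symm, ?_⟩
  · intro j k
    rw [hd (q j) (q k)]
    simp only [EmbeddingLike.apply_eq_iff_eq]
  · exact fun j a => hi.1 (q j) a
  · exact fun j a => hi.2 (q j) a
  · intro j
    have h1 := hself p.1 (q (Sum.inl j))
    rw [hs] at h1
    refine Submodule.span_mono ?_ h1
    rintro _ ⟨k, hk, rfl⟩
    obtain ⟨i', rfl⟩ := hle j k hk
    rw [Function.comp_apply, Equiv.symm_apply_apply, Sum.elim_inl]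
    exact ⟨i', rfl⟩

/-- An orthonormal frame of the span of linearly independent vectors. -/
theorem exists_onFr (x : ι → κ → W) (h : LinearIndependent W x) :
    ∃ (e g : ι → κ → W) (s : ι → ι → W), OnFr v e g ∧ ∀ j, x j = ∑ k, s j k • e k := by
  have h1 : LinearIndependent W (Sum.elim x (fun j : Empty => (j.elim : κ → W))) := by
    have h2 : Sum.elim x (fun j : Empty => (j.elim : κ → W)) = x ∘ (Equiv.sumEmpty ι Empty) := by
      funext j
      rcases j with j | j
      · rfl
      · exact j.elim
    rw [h2]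
    exact h.comp _ (Equiv.injective _)
  obtain ⟨e, g, s, t, hon, hx, -, -⟩ := exists_onFr_sum v x (fun j : Empty => (j.elim : κ → W)) h1
  refine ⟨fun j => e (Sum.inl j), fun j => g (Sum.inl j), s, ⟨?_, ?_, ?_⟩, hx⟩
  · intro j k
    rw [hon.1 (Sum.inl j) (Sum.inl k)]
    simp only [Sum.inl.injEq]
  · exact fun j a => hon.2.1 (Sum.inl j) a
  · exact fun j a => hon.2.2 (Sum.inl j) a

/-- Triangular orthonormal frames: with respect to any order of the vectors. -/
theorem exists_onFr_ord {n : ℕ} (q : ι ≃ Fin n) (x : ι → κ → W) (h : LinearIndependent W x) :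
    ∃ (e g : ι → κ → W) (s : ι → ι → W), OnFr v e g ∧ (∀ j, x j = ∑ k, s j k • e k) ∧
      ∀ j k, q j < q k → s j k = 0 := by
  classical
  have hb : LinearIndependent W (x ∘ q.symm) := h.comp q.symm q.symm.injective
  obtain ⟨L, hL1, hL2⟩ := frames (x ∘ q.symm) hb
  obtain ⟨p, hp, hi⟩ := hL2 W G v
  obtain ⟨hd, hs⟩ := hL1 p hp
  have hon : OnFr v (fun j => p.1 (q j)) (fun j => p.2 (q j)) := by
    refine ⟨?_, ?_, ?_⟩
    · intro j k
      rw [hd (q j) (q k)]
      simp only [EmbeddingLike.apply_eq_iff_eq]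
    · exact fun j a => hi.1 (q j) a
    · exact fun j a => hi.2 (q j) a
  refine ⟨fun j => p.1 (q j), fun j => p.2 (q j), fun j k => ∑ a, p.2 (q k) a * x j a, hon, ?_, ?_⟩
  · intro j
    have h1 : x j ∈ Submodule.span W (Set.range fun k => p.1 (q k)) := by
      have h2 : x j ∈ Submodule.span W ((x ∘ q.symm) '' Set.Iic (q j)) := by
        refine Submodule.subset_span ⟨q j, Set.mem_Iic.2 le_rfl, ?_⟩
        rw [Function.comp_apply, Equiv.symm_apply_apply]
      rw [← hs] at h2
      refine Submodule.span_mono ?_ h2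
      rintro _ ⟨k, hk, rfl⟩
      exact ⟨q.symm k, congrArg p.1 (Equiv.apply_symm_apply q k)⟩
    obtain ⟨c, hc⟩ := (Submodule.mem_span_range_iff_exists_fun W).1 h1
    have h3 : ∀ k, ∑ a, p.2 (q k) a * x j a = c k := by
      intro k
      rw [← hc]
      exact hon.coord c k
    change x j = ∑ k, (∑ a, p.2 (q k) a * x j a) • p.1 (q k)
    rw [Finset.sum_congr rfl fun k _ => congrArg (fun t => t • p.1 (q k)) (h3 k)]
    exact hc.symm
  · intro j k hjk
    have h2 : x j ∈ Submodule.span W ((x ∘ q.symm) '' Set.Iic (q j)) := by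
      refine Submodule.subset_span ⟨q j, Set.mem_Iic.2 le_rfl, ?_⟩
      rw [Function.comp_apply, Equiv.symm_apply_apply]
    rw [← hs] at h2
    let f : (κ → W) →ₗ[W] W := ∑ a, (p.2 (q k) a) • LinearMap.proj a
    have hf : ∀ y : κ → W, f y = ∑ a, p.2 (q k) a * y a := by
      intro y
      simp only [f, LinearMap.sum_apply, LinearMap.smul_apply, LinearMap.proj_apply, smul_eq_mul]
    have h3 : Submodule.span W (p.1 '' Set.Iic (q j)) ≤ LinearMap.ker f := by
      rw [Submodule.span_le]
      rintro _ ⟨l, hl, rfl⟩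
      rw [SetLike.mem_coe, LinearMap.mem_ker, hf, hd l (q k),
        if_neg (ne_of_lt (lt_of_le_of_lt (Set.mem_Iic.1 hl) hjk))]
    have h4 := LinearMap.mem_ker.1 (h3 h2)
    rw [hf] at h4
    exact h4

omit [LinearOrderedCommGroupWithZero G] [Fintype κ] in
/-- The matrix of independent vectors is invertible. -/
theorem det_ne_zero_of_indep {x e : ι → κ → W} {s : ι → ι → W} (hx : LinearIndependent W x)
    (hs : ∀ j, x j = ∑ k, s j k • e k) : (Matrix.of s).det ≠ 0 := by
  intro h0
  obtain ⟨c, hc, hcs⟩ := Matrix.exists_vecMul_eq_zero_iff.2 h0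
  rw [Fintype.linearIndependent_iff] at hx
  apply hc
  funext i
  refine hx c ?_ i
  have h1 : ∀ j, c j • x j = ∑ k, (c j * s j k) • e k := by
    intro j
    rw [hs j, Finset.smul_sum]
    apply Finset.sum_congr rfl
    intro l _
    rw [smul_smul]
  rw [Finset.sum_congr rfl fun j _ => h1 j, Finset.sum_comm]
  apply Finset.sum_eq_zero
  intro k _
  have h2 := congrFun hcs k
  rw [Matrix.vecMul, dotProduct, Pi.zero_apply] at h2
  rw [← Finset.sum_smul]
  have h3 : ∑ i, c i * s i k = 0 := h2
  rw [h3, zero_smul]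

/-- The minors are monotone in the norm. -/
theorem vn_plk_mono (x : ι → κ → W) (x' : ι → κ' → W) (γ : G)
    (h : ∀ c : ι → W, vn v (∑ j, c j • x j) ≤ γ * vn v (∑ j, c j • x' j)) :
    vn v (plk x) ≤ γ ^ Fintype.card ι * vn v (plk x') := by
  by_cases hx' : LinearIndependent W x'
  · obtain ⟨e, g, s, hon, hs⟩ := exists_onFr v x' hx'
    have hdet : (Matrix.of s).det ≠ 0 := det_ne_zero_of_indep hx' hs
    -- the vectors which correspond to the frame
    have hinv : ∀ k j, ∑ i, (Matrix.of s)⁻¹ k i * s i j = if k = j then 1 else 0 := by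
      intro k j
      have h1 := Matrix.nonsing_inv_mul (Matrix.of s) (isUnit_iff_ne_zero.2 hdet)
      have h2 := congrFun (congrFun h1 k) j
      rw [Matrix.mul_apply, Matrix.one_apply] at h2
      exact h2
    have hinv' : ∀ k j, ∑ i, s k i * (Matrix.of s)⁻¹ i j = if k = j then 1 else 0 := by
      intro k j
      have h1 := Matrix.mul_nonsing_inv (Matrix.of s) (isUnit_iff_ne_zero.2 hdet)
      have h2 := congrFun (congrFun h1 k) j
      rw [Matrix.mul_apply, Matrix.one_apply] at h2
      exact h2
    have he : ∀ k, ∑ j, (Matrix.of s)⁻¹ k j • x' j = e k := by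
      intro k
      have h1 : ∀ j, (Matrix.of s)⁻¹ k j • x' j = ∑ l, ((Matrix.of s)⁻¹ k j * s j l) • e l := by
        intro j
        rw [hs j, Finset.smul_sum]
        apply Finset.sum_congr rfl
        intro l _
        rw [smul_smul]
      rw [Finset.sum_congr rfl fun j _ => h1 j, Finset.sum_comm]
      have h2 : ∀ l, ∑ j, ((Matrix.of s)⁻¹ k j * s j l) • e l = if k = l then e l else 0 := by
        intro l
        rw [← Finset.sum_smul, hinv k l, ite_smul, one_smul, zero_smul]
      rw [Finset.sum_congr rfl fun l _ => h2 l, Finset.sum_ite_eq Finset.univ k e,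
        if_pos (Finset.mem_univ k)]
    have hn : ∀ k, vn v (∑ j, (Matrix.of s)⁻¹ k j • x j) ≤ γ := by
      intro k
      refine (h _).trans ?_
      rw [he k]
      calc γ * vn v (e k) ≤ γ * 1 := mul_le_mul_right (vn_le v (hon.2.1 k)) _
        _ = γ := mul_one _
    have hx : x = fun j => ∑ k, s j k • ∑ i, (Matrix.of s)⁻¹ k i • x i := by
      funext j
      have h1 : ∀ k, s j k • ∑ i, (Matrix.of s)⁻¹ k i • x i =
          ∑ i, (s j k * (Matrix.of s)⁻¹ k i) • x i := by
        intro k
        rw [Finset.smul_sum]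
        apply Finset.sum_congr rfl
        intro l _
        rw [smul_smul]
      rw [Finset.sum_congr rfl fun k _ => h1 k, Finset.sum_comm]
      have h2 : ∀ i, ∑ k, (s j k * (Matrix.of s)⁻¹ k i) • x i = if j = i then x i else 0 := by
        intro i
        rw [← Finset.sum_smul, hinv' j i, ite_smul, one_smul, zero_smul]
      rw [Finset.sum_congr rfl fun l _ => h2 l, Finset.sum_ite_eq Finset.univ j x,
        if_pos (Finset.mem_univ j)]
    have h3 : vn v (plk x') = v (Matrix.of s).det := by
      rw [funext hs]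
      exact hon.vn_plk s
    rw [h3]
    have h4 : vn v (plk x) = v (Matrix.of s).det *
        vn v (plk fun k => ∑ i, (Matrix.of s)⁻¹ k i • x i) := by
      rw [← vn_plk_comb_vec, ← hx]
    rw [h4, mul_comm]
    refine mul_le_mul' ((vn_plk_le_prod v _).trans ?_) le_rfl
    rw [← Finset.card_univ, ← Finset.prod_const]
    exact Finset.prod_le_prod' fun k _ => hn k
  · have hx : ¬ LinearIndependent W x := by
      rw [Fintype.not_linearIndependent_iff] at hx' ⊢
      obtain ⟨c, hc, i₀, hi₀⟩ := hx'
      refine ⟨c, ?_, i₀, hi₀⟩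
      have h1 := h c
      rw [hc, (vn_eq_zero v).2 rfl, mul_zero, le_zero_iff, vn_eq_zero] at h1
      exact h1
    rw [plk_eq_zero hx, (vn_eq_zero v).2 rfl]
    exact zero_le

end

end Pool.Agent.Lib.MP_17a322_nt.FQ
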