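import Pool.Agent.Lib.MP_17a322_nt.FQ.S0

namespace Pool.Agent.Lib.MP_17a322_nt.FQ

section

variable {F : Type*} [CommRing F] {κ ι : Type*} [Fintype ι] [DecidableEq ι] [Fintype κ]

private theorem S1_expand (y z : ι → κ → F) :
    gr2 y z = ∑ s : ι → κ, mns y s * ∏ b, z b (s b) := by
  classical
  unfold gr2 mns
  rw [Matrix.det_apply']
  have h1 : ∀ σ : Equiv.Perm ι, (∏ i, (Matrix.of fun a b => ∑ c, y a c * z b c) (σ i) i) =
      ∑ s : ι → κ, ∏ i, (y (σ i) (s i) * z i (s i)) := by
    intro σ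
    simp only [Matrix.of_apply]
    rw [Finset.prod_univ_sum, Fintype.piFinset_univ]
  simp only [h1, Finset.mul_sum]
  rw [Finset.sum_comm]
  refine Finset.sum_congr rfl fun s _ => ?_
  rw [Matrix.det_apply', Finset.sum_mul]
  refine Finset.sum_congr rfl fun σ _ => ?_
  simp only [Matrix.of_apply]
  rw [Finset.prod_mul_distrib, mul_assoc]

omit [Fintype κ] in
private theorem S1_perm (y : ι → κ → F) (s : ι → κ) (τ : Equiv.Perm ι) :
    mns y (fun b => s (τ b)) = (Equiv.Perm.sign τ : ℤ) * mns y s := by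
  unfold mns
  have h := Matrix.det_permute' τ (Matrix.of fun a b => y a (s b))
  rw [← h]
  rfl

omit [Fintype κ] in
private theorem S1_tr (z : ι → κ → F) (s : ι → κ) :
    mns z s = ∑ τ : Equiv.Perm ι, ((Equiv.Perm.sign τ : ℤ) : F) * ∏ b, z b (s (τ b)) := by
  unfold mns
  rw [← Matrix.det_transpose, Matrix.det_apply']
  rfl

/-- The formula of Cauchy and Binet, summed over all maps `s`. -/
theorem gr2_eq (y z : ι → κ → F) :
    ((Fintype.card ι).factorial : F) * gr2 y z = ∑ s : ι → κ, mns y s * mns z s := by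
  classical
  have h1 : ∀ τ : Equiv.Perm ι, gr2 y z = ∑ s : ι → κ, mns y s *
      (((Equiv.Perm.sign τ : ℤ) : F) * ∏ b, z b (s (τ b))) := by
    intro τ
    rw [S1_expand]
    rw [← Equiv.sum_comp (Equiv.arrowCongr τ⁻¹ (Equiv.refl κ))]
    refine Finset.sum_congr rfl fun s _ => ?_
    have e1 : (Equiv.arrowCongr τ⁻¹ (Equiv.refl κ)) s = fun b => s (τ b) := rfl
    rw [e1, S1_perm]
    ring
  have h2 : ∑ _τ : Equiv.Perm ι, gr2 y z = ((Fintype.card ι).factorial : F) * gr2 y z := by
    rw [Finset.sum_const, Finset.card_univ, Fintype.card_perm, nsmul_eq_mul]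
  rw [← h2, Finset.sum_congr rfl fun τ _ => h1 τ, Finset.sum_comm]
  refine Finset.sum_congr rfl fun s _ => ?_
  rw [S1_tr z s, Finset.mul_sum]

/-- The mixed Gram determinant is symmetric. -/
theorem gr2_comm (y z : ι → κ → F) : gr2 y z = gr2 z y := by
  unfold gr2
  rw [← Matrix.det_transpose]
  congr 1
  ext a b
  simp only [Matrix.transpose_apply, Matrix.of_apply]
  exact Finset.sum_congr rfl fun c _ => mul_comm _ _

/-- A change of the vectors by a matrix. -/
theorem gr_mul (T : Matrix ι ι F) (y : ι → κ → F) : gr (fun a c => ∑ b, T a b * y b c) = T.det ^ 2 * gr y := by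
  have h : (Matrix.of fun a b => ∑ c, (∑ a', T a a' * y a' c) * (∑ b', T b b' * y b' c)) =
      T * (Matrix.of fun a b => ∑ c, y a c * y b c) * T.transpose := by
    have h1 : (Matrix.of fun a b => ∑ c, y a c * y b c) = Matrix.of y * (Matrix.of y).transpose := rfl
    have h2 : (Matrix.of fun a b => ∑ c, (∑ a', T a a' * y a' c) * (∑ b', T b b' * y b' c)) =
        (T * Matrix.of y) * (T * Matrix.of y).transpose := rfl
    rw [h1, h2, Matrix.transpose_mul]
    simp only [Matrix.mul_assoc]
  unfold gr gr2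
  rw [h, Matrix.det_mul, Matrix.det_mul, Matrix.det_transpose]
  ring

/-- Renumbering does not change the Gram determinant. -/
theorem gr_reindex {ι' : Type*} [Fintype ι'] [DecidableEq ι'] (e : ι' ≃ ι) (y : ι → κ → F) :
    gr (fun a => y (e a)) = gr y := by
  unfold gr gr2
  rw [← Matrix.det_submatrix_equiv_self e (Matrix.of fun a b => ∑ c, y a c * y b c)]
  rfl

/-- The Gram determinant of linearly independent integer vectors is positive. -/
theorem gr_pos {κ ι : Type} [Fintype ι] [DecidableEq ι] [Fintype κ] (y : ι → κ → ℤ)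
    (hy : LinearIndependent ℤ y) : 0 < gr y := by
  classical
  have h0 : 0 ≤ gr y := by
    have h := gr2_eq y y
    have h1 : 0 ≤ ∑ s : ι → κ, mns y s * mns y s := Finset.sum_nonneg fun s _ => mul_self_nonneg _
    have h2 : (0 : ℤ) < ((Fintype.card ι).factorial : ℤ) := by exact_mod_cast Nat.factorial_pos _
    by_contra hn
    rw [not_le] at hn
    have h3 : ((Fintype.card ι).factorial : ℤ) * gr2 y y < 0 := mul_neg_of_pos_of_neg h2 hn
    omega
  refine lt_of_le_of_ne h0 fun h => ?_
  obtain ⟨v, hv, hv0⟩ := Matrix.exists_vecMul_eq_zero_iff.2 (show (Matrix.of fun a b => ∑ c, y a c * y b c).det = 0 from h.symm)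
  have h1 : ∑ c, (∑ a, v a * y a c) ^ 2 = 0 := by
    have e1 : (Matrix.of fun a b => ∑ c, y a c * y b c) = Matrix.of y * (Matrix.of y).transpose := rfl
    have e2 : ∑ c, (∑ a, v a * y a c) ^ 2 = dotProduct (Matrix.vecMul v (Matrix.of y)) (Matrix.vecMul v (Matrix.of y)) := by
      simp only [Matrix.vecMul, dotProduct, Matrix.of_apply, sq]
    rw [e1, ← Matrix.vecMul_vecMul] at hv0
    have e3 : dotProduct (Matrix.vecMul (Matrix.vecMul v (Matrix.of y)) (Matrix.of y).transpose) v = 0 := by
      rw [hv0]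
      exact zero_dotProduct v
    rw [← Matrix.dotProduct_mulVec, Matrix.mulVec_transpose] at e3
    rw [e2, e3]
  have h2 : ∀ c, ∑ a, v a * y a c = 0 := by
    intro c
    have := (Finset.sum_eq_zero_iff_of_nonneg (fun c _ => sq_nonneg (∑ a, v a * y a c))).1 h1 c (Finset.mem_univ c)
    exact pow_eq_zero_iff (two_ne_zero) |>.1 this
  apply hv
  funext a
  exact Fintype.linearIndependent_iff.1 hy v (by
    funext c
    simpa [Finset.sum_apply, smul_eq_mul] using h2 c) a

end

end Pool.Agent.Lib.MP_17a322_nt.FQ
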