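import Pool.Agent.Lib.MP_17a322_nt.FQ.S1
import Pool.Agent.Lib.MP_17a322_nt.EQ.H1

namespace Pool.Agent.Lib.MP_17a322_nt.FQ

open Height NumberField
open Pool.Agent.Lib.MP_17a322_nt.EQ

section

variable {κ ι : Type} [Fintype ι] [DecidableEq ι] [Fintype κ]

/-- Linearly independent vectors over a field have a nonzero minor. -/
private theorem S2_minor {F : Type*} [Field F] {y : ι → κ → F} (hi : LinearIndependent F y) :
    ∃ s : ι → κ, mns y s ≠ 0 := by
  classical
  set e := Fintype.equivFin ι with he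
  have hi' : LinearIndependent F (fun k : Fin (Fintype.card ι) => y (e.symm k)) :=
    hi.comp _ e.symm.injective
  obtain ⟨s, hs⟩ := H1_minor hi'
  refine ⟨fun b => s (e b), ?_⟩
  intro h
  apply hs
  rw [← h]
  unfold mns
  rw [← Matrix.det_submatrix_equiv_self e.symm (Matrix.of fun a b => y a (s (e b)))]
  congr 1
  ext a b
  simp

omit [Fintype κ] in
private theorem S2_map {R S : Type*} [CommRing R] [CommRing S] (f : R →+* S) (y : ι → κ → R) (s : ι → κ) :
    mns (fun a c => f (y a c)) s = f (mns y s) := by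
  unfold mns
  rw [RingHom.map_det]
  congr 1

/-- The minors of a saturated family have greatest common divisor `1`. -/
theorem sat_gcd {y : ι → κ → ℤ} (hy : Sat y) : Finset.univ.gcd (mns y) = 1 := by
  classical
  by_contra hne
  obtain ⟨hli, hsat⟩ := hy
  set g : ℤ := Finset.univ.gcd (mns y) with hg
  have hg0 : 0 ≤ g := Int.nonneg_of_normalize_eq_self Finset.normalize_gcd
  have hg1 : g.natAbs ≠ 1 := by
    intro h
    apply hne
    omega
  obtain ⟨p, hp, hpg⟩ := Nat.exists_prime_and_dvd hg1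
  have hpdvd : ∀ s : ι → κ, (p : ℤ) ∣ mns y s := by
    intro s
    have h1 : (p : ℤ) ∣ g := Int.natCast_dvd.2 hpg
    exact h1.trans (Finset.gcd_dvd (Finset.mem_univ s))
  have : Fact p.Prime := ⟨hp⟩
  have hdep : ¬ LinearIndependent (ZMod p) (fun a c => ((y a c : ℤ) : ZMod p)) := by
    intro h
    obtain ⟨s, hs⟩ := S2_minor h
    apply hs
    have h1 := S2_map (Int.castRingHom (ZMod p)) y s
    have h2 : mns (fun a c => ((y a c : ℤ) : ZMod p)) s = ((mns y s : ℤ) : ZMod p) := h1
    rw [h2]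
    exact (ZMod.intCast_zmod_eq_zero_iff_dvd _ _).2 (hpdvd s)
  rw [Fintype.not_linearIndependent_iff] at hdep
  obtain ⟨c, hc, a0, ha0⟩ := hdep
  choose c' hc' using fun a => ZMod.intCast_surjective (c a)
  have hdv : ∀ i : κ, (p : ℤ) ∣ ∑ a, c' a * y a i := by
    intro i
    rw [← ZMod.intCast_zmod_eq_zero_iff_dvd]
    have h1 := congrFun hc i
    simp only [Finset.sum_apply, Pi.smul_apply, smul_eq_mul, Pi.zero_apply] at h1
    push_cast
    simp only [hc']
    exact h1
  choose v hv using hdv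
  have hp0 : (p : ℤ) ≠ 0 := by exact_mod_cast hp.ne_zero
  have hmem : (p : ℤ) • v ∈ Submodule.span ℤ (Set.range y) := by
    have h1 : (p : ℤ) • v = ∑ a, c' a • y a := by
      funext i
      simp only [Finset.sum_apply, Pi.smul_apply, smul_eq_mul]
      exact (hv i).symm
    rw [h1]
    exact Submodule.sum_mem _ fun a _ => Submodule.smul_mem _ _ (Submodule.subset_span ⟨a, rfl⟩)
  have hv2 := hsat v p hp0 hmem
  rw [Submodule.mem_span_range_iff_exists_fun] at hv2
  obtain ⟨d, hd⟩ := hv2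
  have hz : ∑ a, (c' a - p * d a) • y a = 0 := by
    funext i
    simp only [Finset.sum_apply, Pi.smul_apply, smul_eq_mul, Pi.zero_apply, sub_mul, Finset.sum_sub_distrib]
    rw [hv i, ← hd]
    simp only [Finset.sum_apply, Pi.smul_apply, smul_eq_mul, Finset.mul_sum, mul_assoc, sub_self]
  have h3 := Fintype.linearIndependent_iff.1 hli _ hz a0
  apply ha0
  rw [← hc' a0, ZMod.intCast_zmod_eq_zero_iff_dvd]
  exact ⟨d a0, by linarith⟩

omit [Fintype ι] [DecidableEq ι] [Fintype κ] in
/-- The family of rational vectors of a linearly independent family of integer vectors. -/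
private theorem S2_li {y : ι → κ → ℤ} (hy : LinearIndependent ℤ y) :
    LinearIndependent ℚ (fun a c => (y a c : ℚ)) := by
  rw [← LinearIndependent.iff_fractionRing ℤ ℚ]
  let f : (κ → ℤ) →ₗ[ℤ] (κ → ℚ) :=
    { toFun := fun v c => (v c : ℚ)
      map_add' := fun v w => by funext c; simp
      map_smul' := fun n v => by funext c; simp }
  have hf : LinearMap.ker f = ⊥ := by
    rw [LinearMap.ker_eq_bot']
    intro v hv
    funext c
    have := congrFun hv c
    simpa [f] using this
  exact hy.map' f hf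

private theorem S2_sup_cast {α : Type*} [Finite α] [Nonempty α] (x : α → ℤ) :
    (((⨆ i, |x i| : ℤ)) : ℝ) = ⨆ i, |((x i : ℤ) : ℝ)| := by
  have h := Finite.map_iSup_of_monotone (fun i => |x i|) (Int.cast_mono (R := ℝ))
  rw [h]
  simp only [Int.cast_abs]

omit [Fintype ι] [DecidableEq ι] [Fintype κ] in
/-- Renumbering of a saturated family. -/
private theorem S2_sat {y : ι → κ → ℤ} (hy : Sat y) {ι' : Type} [Fintype ι'] (e : ι' ≃ ι) :
    Sat (fun a => y (e a)) := by
  obtain ⟨h1, h2⟩ := hy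
  refine ⟨h1.comp _ e.injective, ?_⟩
  have hr : Set.range (fun a => y (e a)) = Set.range y := by
    exact e.surjective.range_comp y
  rw [hr]
  exact h2

/-- The height of the span of a saturated family is the logarithm of the greatest minor. -/
theorem hPl_sat {y : ι → κ → ℤ} (hy : Sat y) :
    hPl (Submodule.span ℚ (Set.range fun a c => (y a c : ℚ))) = Real.log (⨆ s : ι → κ, |((mns y s : ℤ) : ℝ)|) := by
  classical
  set e := Fintype.equivFin ι with he
  have hli : LinearIndependent ℚ (fun a c => (y a c : ℚ)) := S2_li hy.1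
  have hli' : LinearIndependent ℚ (fun (k : Fin (Fintype.card ι)) c => (y (e.symm k) c : ℚ)) :=
    hli.comp _ e.symm.injective
  have hfin : Module.finrank ℚ (Submodule.span ℚ (Set.range fun a c => (y a c : ℚ))) = Fintype.card ι :=
    finrank_span_eq_card hli
  rw [hPl_eq _ hfin (fun k c => (y (e.symm k) c : ℚ))
    (fun k => Submodule.subset_span ⟨e.symm k, rfl⟩) hli']
  obtain ⟨s0, hs0⟩ := S2_minor hli'
  have : Nonempty (Fin (Fintype.card ι) → κ) := ⟨s0⟩
  have hs := S2_sat hy e.symm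
  have hg := sat_gcd hs
  have hx := Rat.logHeight_eq_max_abs_of_gcd_eq_one hg
  have h1 : (fun s : Fin (Fintype.card ι) → κ => (Matrix.of fun a b => ((y (e.symm a) (s b) : ℤ) : ℚ)).det) =
      ((↑) : ℤ → ℚ) ∘ mns (fun a => y (e.symm a)) := by
    funext s
    exact S2_map (Int.castRingHom ℚ) (fun a => y (e.symm a)) s
  rw [h1, hx]
  rw [S2_sup_cast]
  congr 1
  refine Function.Surjective.iSup_congr (fun s b => s (e b)) ?_ ?_
  · intro s
    exact ⟨fun b => s (e.symm b), by funext b; simp⟩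
  · intro s
    congr 2
    unfold mns
    rw [← Matrix.det_submatrix_equiv_self e.symm (Matrix.of fun a b => y a (s (e b)))]
    congr 1
    ext a b
    simp

/-- The height of the span of a saturated family and its Gram determinant. -/
theorem hPl_gr {y : ι → κ → ℤ} (hy : Sat y) :
    2 * hPl (Submodule.span ℚ (Set.range fun a c => (y a c : ℚ))) ≤
        Real.log ((gr y : ℤ) : ℝ) + Real.log ((Fintype.card ι).factorial) ∧
      Real.log ((gr y : ℤ) : ℝ) ≤ 2 * hPl (Submodule.span ℚ (Set.range fun a c => (y a c : ℚ))) +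
        Real.log (Fintype.card (ι → κ)) := by
  classical
  rw [hPl_sat hy]
  obtain ⟨s0, hs0⟩ := S2_minor (S2_li hy.1)
  have hs0' : mns y s0 ≠ 0 := by
    intro h
    apply hs0
    have h1 := S2_map (Int.castRingHom ℚ) y s0
    have h2 : mns (fun a c => ((y a c : ℤ) : ℚ)) s0 = ((mns y s0 : ℤ) : ℚ) := h1
    rw [h2, h]
    simp
  have : Nonempty (ι → κ) := ⟨s0⟩
  set M : ℝ := ⨆ s : ι → κ, |((mns y s : ℤ) : ℝ)| with hM
  have hbdd : ∀ s : ι → κ, |((mns y s : ℤ) : ℝ)| ≤ M := fun s =>
    le_ciSup (Set.finite_range (fun s : ι → κ => |((mns y s : ℤ) : ℝ)|)).bddAbove s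
  have hMpos : 0 < M := by
    refine lt_of_lt_of_le ?_ (hbdd s0)
    rw [abs_pos]
    exact_mod_cast hs0'
  obtain ⟨s1, hs1⟩ := exists_eq_ciSup_of_finite (f := fun s : ι → κ => |((mns y s : ℤ) : ℝ)|)
  have hgr : (0 : ℝ) < ((gr y : ℤ) : ℝ) := by exact_mod_cast gr_pos y hy.1
  have hfac : (1 : ℝ) ≤ ((Fintype.card ι).factorial : ℝ) := by exact_mod_cast Nat.factorial_pos _
  have hsum : ((Fintype.card ι).factorial : ℝ) * ((gr y : ℤ) : ℝ) = ∑ s : ι → κ, ((mns y s : ℤ) : ℝ) ^ 2 := by
    have h1 := gr2_eq y y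
    have h2 : ((Fintype.card ι).factorial : ℤ) * gr y = ∑ s : ι → κ, mns y s * mns y s := h1
    have h3 : (((Fintype.card ι).factorial : ℤ) : ℝ) * ((gr y : ℤ) : ℝ) = ∑ s : ι → κ, ((mns y s : ℤ) : ℝ) * ((mns y s : ℤ) : ℝ) := by
      exact_mod_cast h2
    simpa [sq] using h3
  have hlow : M ^ 2 ≤ ((Fintype.card ι).factorial : ℝ) * ((gr y : ℤ) : ℝ) := by
    rw [hsum, hM, ← hs1, sq_abs]
    exact Finset.single_le_sum (f := fun s : ι → κ => ((mns y s : ℤ) : ℝ) ^ 2) (fun s _ => sq_nonneg _) (Finset.mem_univ s1)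
  have hup : ((gr y : ℤ) : ℝ) ≤ (Fintype.card (ι → κ) : ℝ) * M ^ 2 := by
    have h1 : ((gr y : ℤ) : ℝ) ≤ ((Fintype.card ι).factorial : ℝ) * ((gr y : ℤ) : ℝ) := le_mul_of_one_le_left hgr.le hfac
    have h2 : ∑ s : ι → κ, ((mns y s : ℤ) : ℝ) ^ 2 ≤ ∑ _s : ι → κ, M ^ 2 := by
      refine Finset.sum_le_sum fun s _ => ?_
      rw [← sq_abs]
      exact pow_le_pow_left₀ (abs_nonneg _) (hbdd s) 2
    rw [Finset.sum_const, Finset.card_univ, nsmul_eq_mul] at h2
    linarith
  have hcard : (0 : ℝ) < (Fintype.card (ι → κ) : ℝ) := by exact_mod_cast Fintype.card_pos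
  constructor
  · have h1 := Real.log_le_log (by positivity) hlow
    rw [Real.log_mul (by positivity) (ne_of_gt hgr), Real.log_pow] at h1
    push_cast at h1
    linarith
  · have h1 := Real.log_le_log hgr hup
    rw [Real.log_mul (ne_of_gt hcard) (by positivity), Real.log_pow] at h1
    push_cast at h1 ⊢
    linarith

end

end Pool.Agent.Lib.MP_17a322_nt.FQ
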