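import Pool.Agent.Lib.MP_17a322_nt.FQ.S0

namespace Pool.Agent.Lib.MP_17a322_nt.FQ

section

variable {κ ι ι' : Type} [Fintype ι] [DecidableEq ι] [Fintype κ] [Fintype ι'] [DecidableEq ι']

/-- The inclusion of the integer vectors. -/
private def S3_cast (κ : Type) : (κ → ℤ) →ₗ[ℤ] (κ → ℚ) :=
  ((Int.castAddHom ℚ).compLeft κ).toIntLinearMap

omit [Fintype κ] in
private theorem S3_cast_apply (v : κ → ℤ) : S3_cast κ v = fun c => (v c : ℚ) := rfl

omit [Fintype κ] in
private theorem S3_cast_inj : Function.Injective (S3_cast κ) := by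
  intro v w h
  funext c
  have h1 := congrFun h c
  exact Int.cast_injective (α := ℚ) h1

/-- Clearing of the denominators. -/
private theorem S3_den {α : Type} [Fintype α] (q : α → ℚ) :
    ∃ (n : ℤ) (p : α → ℤ), n ≠ 0 ∧ ∀ a, (n : ℚ) * q a = p a := by
  classical
  refine ⟨∏ a, ((q a).den : ℤ), fun a => (∏ b ∈ Finset.univ.erase a, ((q b).den : ℤ)) * (q a).num,
    ?_, ?_⟩
  · rw [Finset.prod_ne_zero_iff]
    intro a _
    exact_mod_cast (q a).den_nz
  · intro a
    rw [← Finset.mul_prod_erase Finset.univ (fun a => ((q a).den : ℤ)) (Finset.mem_univ a)]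
    push_cast
    have h := Rat.mul_den_eq_num (q a)
    calc ((q a).den : ℚ) * (∏ x ∈ Finset.univ.erase a, ((q x).den : ℚ)) * q a
        = (∏ x ∈ Finset.univ.erase a, ((q x).den : ℚ)) * (q a * ((q a).den : ℚ)) := by ring
      _ = _ := by rw [h]

/-- JOB S3 (all theorems of the file). Free abelian groups. `sat_left`: easy (linear independence). `sat_basis`: the integer vectors in `W` form a finitely generated torsion free group, hence free; a basis of it spans `W` over `ℚ` (clear denominators); its number of elements is `finrank W`. `sat_extend`: `L` = the group of the integer vectors in `W`, `L'` = the span of `w`; `L / L'` is torsion free by `Sat w`,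
finitely generated, hence free; lift a basis of it (`Module.Basis.sumQuot` or similar); the number of the elements is `finrank W - card ι`. `sat_span`: two saturated families with the same span over `ℚ` have the same span over `ℤ`. `sat_gr`: two bases of the same group have the same Gram determinant, because the matrix of the change has the determinant `±1`
(use the matrix `T` and `gr_mul` of the file S1 - import it if you want). -/
theorem sat_left {w : ι → κ → ℤ} {z : ι' → κ → ℤ} (h : Sat (Sum.elim w z)) : Sat w := by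
  have hl : LinearIndependent ℤ w := h.1.comp Sum.inl Sum.inl_injective
  refine ⟨hl, fun v n hn hv => ?_⟩
  have h1 : v ∈ Submodule.span ℤ (Set.range (Sum.elim w z)) := by
    refine h.2 v n hn (Submodule.span_mono ?_ hv)
    rintro _ ⟨a, rfl⟩
    exact ⟨Sum.inl a, rfl⟩
  obtain ⟨c, hc⟩ := (Submodule.mem_span_range_iff_exists_fun ℤ).1 h1
  obtain ⟨e, he⟩ := (Submodule.mem_span_range_iff_exists_fun ℤ).1 hv
  have h2 : ∑ i, (n * c i - Sum.elim e (fun _ => 0) i) • Sum.elim w z i = 0 := by
    simp only [sub_smul, Finset.sum_sub_distrib, mul_smul, ← Finset.smul_sum, hc]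
    rw [Fintype.sum_sum_type (fun i => Sum.elim e (fun _ => (0 : ℤ)) i • Sum.elim w z i)]
    simp only [Sum.elim_inl, Sum.elim_inr, zero_smul, Finset.sum_const_zero, add_zero, he, sub_self]
  have h3 := Fintype.linearIndependent_iff.1 h.1 _ h2
  have h4 : ∀ j, c (Sum.inr j) = 0 := by
    intro j
    have := h3 (Sum.inr j)
    simp only [Sum.elim_inr, sub_zero] at this
    exact (mul_eq_zero.1 this).resolve_left hn
  rw [Submodule.mem_span_range_iff_exists_fun]
  refine ⟨fun a => c (Sum.inl a), ?_⟩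
  rw [← hc, Fintype.sum_sum_type]
  simp only [Sum.elim_inl, Sum.elim_inr, h4, zero_smul, Finset.sum_const_zero, add_zero]

omit [DecidableEq ι] in
/-- If `v` is an integer vector in the span over `ℚ` of the saturated family `y` then it is in the span over `ℤ`. -/
private theorem S3_sat_mem {y : ι → κ → ℤ} (hy : Sat y) {v : κ → ℤ}
    (hv : (fun c => (v c : ℚ)) ∈ Submodule.span ℚ (Set.range fun a c => (y a c : ℚ))) :
    v ∈ Submodule.span ℤ (Set.range y) := by
  obtain ⟨q, hq⟩ := (Submodule.mem_span_range_iff_exists_fun ℚ).1 hv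
  obtain ⟨n, p, hn, hp⟩ := S3_den q
  refine hy.2 v n hn ?_
  rw [Submodule.mem_span_range_iff_exists_fun]
  refine ⟨p, ?_⟩
  apply S3_cast_inj
  rw [map_sum]
  funext c
  have h1 := congrFun hq c
  simp only [Finset.sum_apply, Pi.smul_apply, smul_eq_mul] at h1
  have h2 : (S3_cast κ (n • v)) c = (n : ℚ) * (v c : ℚ) := by
    rw [S3_cast_apply]
    show (((n • v) c : ℤ) : ℚ) = _
    rw [Pi.smul_apply, smul_eq_mul]
    push_cast
    rfl
  rw [h2, ← h1, Finset.mul_sum, Finset.sum_apply]
  refine Finset.sum_congr rfl fun a _ => ?_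
  have h3 : (S3_cast κ (p a • y a)) c = (p a : ℚ) * (y a c : ℚ) := by
    rw [S3_cast_apply]
    show (((p a • y a) c : ℤ) : ℚ) = _
    rw [Pi.smul_apply, smul_eq_mul]
    push_cast
    rfl
  rw [h3, ← hp a, mul_assoc]

/-- The integer vectors of a rational space. -/
private def S3_L (W : Submodule ℚ (κ → ℚ)) : Submodule ℤ (κ → ℤ) :=
  (W.restrictScalars ℤ).comap (S3_cast κ)

omit [Fintype κ] in
private theorem S3_mem_L {W : Submodule ℚ (κ → ℚ)} {v : κ → ℤ} :
    v ∈ S3_L W ↔ (fun c => (v c : ℚ)) ∈ W := Iff.rfl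

/-- Linear independence over `ℤ` and over `ℚ`. -/
theorem indep_iff (y : ι → κ → ℤ) : LinearIndependent ℤ y ↔ LinearIndependent ℚ (fun a c => (y a c : ℚ)) := by
  rw [← LinearIndependent.iff_fractionRing (R := ℤ) (K := ℚ)]
  have h : LinearIndependent ℤ (S3_cast κ ∘ y) ↔ LinearIndependent ℤ y :=
    LinearMap.linearIndependent_iff _ (LinearMap.ker_eq_bot.2 S3_cast_inj)
  exact h.symm

private theorem S3_extend {w : ι → κ → ℤ} (hw : Sat w) (W : Submodule ℚ (κ → ℚ)) (hW : ∀ a, (fun c => (w a c : ℚ)) ∈ W) :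
    ∃ (r : ℕ) (z : Fin r → κ → ℤ), Sat (Sum.elim w z) ∧
      Submodule.span ℚ (Set.range fun a c => (Sum.elim w z a c : ℚ)) = W := by
  classical
  set L := S3_L W with hL
  set L' : Submodule ℤ L := (Submodule.span ℤ (Set.range w)).comap L.subtype with hL'
  have hmem : ∀ x : L, x ∈ L' ↔ (x : κ → ℤ) ∈ Submodule.span ℤ (Set.range w) := fun x => Iff.rfl
  haveI : Module.Finite ℤ L := inferInstance
  haveI : IsAddTorsionFree (L ⧸ L') := by
    refine ⟨fun n hn => ?_⟩
    intro x y hxy
    simp only at hxy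
    have h1 : n • (x - y) = 0 := by rw [smul_sub, hxy, sub_self]
    obtain ⟨v, hv⟩ := Submodule.mkQ_surjective L' (x - y)
    have h2 : (n : ℤ) • v ∈ L' := by
      rw [← Submodule.Quotient.mk_eq_zero L', Submodule.Quotient.mk_smul]
      have h3 : Submodule.Quotient.mk v = x - y := hv
      rw [h3, natCast_zsmul, h1]
    have h4 : v ∈ L' := by
      rw [hmem] at h2 ⊢
      exact hw.2 _ (n : ℤ) (by exact_mod_cast hn) h2
    have h5 : x - y = 0 := by
      rw [← hv]
      exact (Submodule.Quotient.mk_eq_zero L').2 h4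
    exact sub_eq_zero.1 h5
  haveI : Module.Free ℤ (L ⧸ L') := inferInstance
  let b := Module.finBasis ℤ (L ⧸ L')
  have hs : ∀ j, ∃ v : L, L'.mkQ v = b j := fun j => Submodule.mkQ_surjective L' (b j)
  choose z hz using hs
  refine ⟨Module.finrank ℤ (L ⧸ L'), fun j => (z j : κ → ℤ), ?_⟩
  have hwL : ∀ a, w a ∈ L := fun a => hW a
  have hspanL : ∀ v ∈ Submodule.span ℤ (Set.range (Sum.elim w fun j => (z j : κ → ℤ))), v ∈ L := by
    intro v hv
    refine (Submodule.span_le.2 ?_) hv
    rintro _ ⟨i, rfl⟩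
    rcases i with a | j
    · exact hwL a
    · exact (z j).2
  have hLspan : ∀ v ∈ L, v ∈ Submodule.span ℤ (Set.range (Sum.elim w fun j => (z j : κ → ℤ))) := by
    intro v hv
    have h1 := b.sum_repr (L'.mkQ ⟨v, hv⟩)
    have h2 : (⟨v, hv⟩ : L) - ∑ j, b.repr (L'.mkQ ⟨v, hv⟩) j • z j ∈ L' := by
      have h5 : L'.mkQ ((⟨v, hv⟩ : L) - ∑ j, b.repr (L'.mkQ ⟨v, hv⟩) j • z j) = 0 := by
        rw [map_sub, map_sum, sub_eq_zero]
        conv_lhs => rw [← h1]
        refine Finset.sum_congr rfl fun j _ => ?_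
        rw [map_smul, hz]
      exact (Submodule.Quotient.mk_eq_zero L').1 h5
    rw [hmem] at h2
    have h3 : v = ((⟨v, hv⟩ : L) - ∑ j, b.repr (L'.mkQ ⟨v, hv⟩) j • z j : L) +
        ∑ j, b.repr (L'.mkQ ⟨v, hv⟩) j • (z j : κ → ℤ) := by
      rw [Submodule.coe_sub, Submodule.coe_sum]
      simp only [Submodule.coe_smul, sub_add_cancel]
    rw [h3]
    refine Submodule.add_mem _ (Submodule.span_mono ?_ h2) (Submodule.sum_mem _ fun j _ => ?_)
    · rintro _ ⟨a, rfl⟩
      exact ⟨Sum.inl a, rfl⟩
    · exact Submodule.smul_mem _ _ (Submodule.subset_span ⟨Sum.inr j, rfl⟩)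
  have hind : LinearIndependent ℤ (Sum.elim w fun j => (z j : κ → ℤ)) := by
    rw [Fintype.linearIndependent_iff]
    intro c hc
    rw [Fintype.sum_sum_type] at hc
    simp only [Sum.elim_inl, Sum.elim_inr] at hc
    have h1 : ∑ j, c (Sum.inr j) • z j ∈ L' := by
      rw [hmem, Submodule.coe_sum]
      simp only [Submodule.coe_smul]
      have h2 : ∑ j, c (Sum.inr j) • (z j : κ → ℤ) = -∑ a, c (Sum.inl a) • w a :=
        eq_neg_of_add_eq_zero_right hc
      rw [h2]
      exact Submodule.neg_mem _ (Submodule.sum_mem _ fun a _ =>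
        Submodule.smul_mem _ _ (Submodule.subset_span ⟨a, rfl⟩))
    have h3 : ∑ j, c (Sum.inr j) • b j = 0 := by
      have h7 : L'.mkQ (∑ j, c (Sum.inr j) • z j) = 0 := (Submodule.Quotient.mk_eq_zero L').2 h1
      rw [map_sum] at h7
      rw [← h7]
      refine Finset.sum_congr rfl fun j _ => ?_
      rw [map_smul, hz]
    have h4 := Fintype.linearIndependent_iff.1 b.linearIndependent _ h3
    have h5 : ∑ a, c (Sum.inl a) • w a = 0 := by
      simpa only [h4, zero_smul, Finset.sum_const_zero, add_zero] using hc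
    have h6 := Fintype.linearIndependent_iff.1 hw.1 _ h5
    rintro (a | j)
    · exact h6 a
    · exact h4 j
  refine ⟨⟨hind, fun v n hn hv => hLspan v ?_⟩, ?_⟩
  · have h1 : n • v ∈ L := hspanL _ hv
    have h2 : (fun c => ((n • v) c : ℚ)) ∈ W := h1
    have h3 : (fun c => (v c : ℚ)) = (n : ℚ)⁻¹ • fun c => (((n • v) c : ℤ) : ℚ) := by
      funext c
      have hn' : (n : ℚ) ≠ 0 := by exact_mod_cast hn
      simp only [Pi.smul_apply, smul_eq_mul]
      push_cast
      field_simp
    show (fun c => (v c : ℚ)) ∈ W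
    rw [h3]
    exact W.smul_mem _ h2
  · apply le_antisymm
    · rw [Submodule.span_le]
      rintro _ ⟨i, rfl⟩
      rcases i with a | j
      · exact hW a
      · exact (z j).2
    · intro x hx
      obtain ⟨n, p, hn, hp⟩ := S3_den x
      have hn' : (n : ℚ) ≠ 0 := by exact_mod_cast hn
      have h1 : (fun c => (p c : ℚ)) = (n : ℚ) • x := by
        funext c
        rw [Pi.smul_apply, smul_eq_mul]
        exact (hp c).symm
      have h2 : p ∈ L := by
        show (fun c => (p c : ℚ)) ∈ W
        rw [h1]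
        exact W.smul_mem _ hx
      obtain ⟨c, hc⟩ := (Submodule.mem_span_range_iff_exists_fun ℤ).1 (hLspan p h2)
      have h3 : x = ∑ i, ((n : ℚ)⁻¹ * (c i : ℚ)) •
          (fun k => ((Sum.elim w (fun j => (z j : κ → ℤ)) i k : ℤ) : ℚ)) := by
        have h4 : x = (n : ℚ)⁻¹ • fun k => (p k : ℚ) := by
          rw [h1, smul_smul, inv_mul_cancel₀ hn', one_smul]
        rw [h4]
        funext k
        rw [Pi.smul_apply, smul_eq_mul, Finset.sum_apply, ← hc, Finset.sum_apply]
        push_cast
        rw [Finset.mul_sum]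
        refine Finset.sum_congr rfl fun i _ => ?_
        simp only [Pi.smul_apply, smul_eq_mul]
        push_cast
        ring
      rw [h3]
      exact Submodule.sum_mem _ fun i _ => Submodule.smul_mem _ _ (Submodule.subset_span ⟨i, rfl⟩)

theorem sat_extend {w : ι → κ → ℤ} (hw : Sat w) (W : Submodule ℚ (κ → ℚ)) (hW : ∀ a, (fun c => (w a c : ℚ)) ∈ W)
    {m : ℕ} (hm : Module.finrank ℚ W = Fintype.card ι + m) :
    ∃ z : Fin m → κ → ℤ, Sat (Sum.elim w z) ∧
      Submodule.span ℚ (Set.range fun a c => (Sum.elim w z a c : ℚ)) = W := by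
  obtain ⟨r, z, h1, h2⟩ := S3_extend hw W hW
  have h3 := finrank_span_eq_card ((indep_iff _).1 h1.1)
  rw [h2, hm, Fintype.card_sum, Fintype.card_fin] at h3
  obtain rfl : m = r := by omega
  exact ⟨z, h1, h2⟩

theorem sat_basis (W : Submodule ℚ (κ → ℚ)) :
    ∃ y : Fin (Module.finrank ℚ W) → κ → ℤ, Sat y ∧ Submodule.span ℚ (Set.range fun a c => (y a c : ℚ)) = W := by
  have h0 : Sat (fun a : Empty => (Empty.elim a : κ → ℤ)) := by
    refine ⟨linearIndependent_empty_type, fun v n hn hv => ?_⟩
    rw [Set.range_eq_empty, Submodule.span_empty, Submodule.mem_bot] at hv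
    have h1 : v = 0 := by
      funext c
      have h2 := congrFun hv c
      rw [Pi.smul_apply, smul_eq_mul, Pi.zero_apply] at h2
      exact (mul_eq_zero.1 h2).resolve_left hn
    rw [h1]
    exact Submodule.zero_mem _
  obtain ⟨z, h1, h2⟩ := sat_extend h0 W (fun a => a.elim) (m := Module.finrank ℚ W)
    (by rw [Fintype.card_empty, zero_add])
  have h3 : Set.range (Sum.elim (fun a : Empty => (Empty.elim a : κ → ℤ)) z) = Set.range z := by
    rw [Set.Sum.elim_range, Set.range_eq_empty, Set.empty_union]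
  refine ⟨z, ⟨h1.1.comp Sum.inr Sum.inr_injective, fun v n hn hv => ?_⟩, ?_⟩
  · rw [← h3] at hv ⊢
    exact h1.2 v n hn hv
  · refine Eq.trans ?_ h2
    have h4 : (Set.range fun a c => (z a c : ℚ)) = Set.range fun a c =>
        ((Sum.elim (fun a : Empty => (Empty.elim a : κ → ℤ)) z a c : ℤ) : ℚ) := by
      ext x
      constructor
      · rintro ⟨j, rfl⟩
        exact ⟨Sum.inr j, rfl⟩
      · rintro ⟨a | j, rfl⟩
        · exact a.elim
        · exact ⟨j, rfl⟩
    rw [h4]

/-- If `v` is an integer vector in the span over `ℚ` of the saturated family `y` then it is in the span over `ℤ`. -/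
theorem sat_mem {y : ι → κ → ℤ} (hy : Sat y) {v : κ → ℤ}
    (hv : (fun c => (v c : ℚ)) ∈ Submodule.span ℚ (Set.range fun a c => (y a c : ℚ))) :
    v ∈ Submodule.span ℤ (Set.range y) :=
  S3_sat_mem hy hv

/-- A unimodular change of the last vectors. -/
theorem sat_add {w : ι → κ → ℤ} {z : ι' → κ → ℤ} (h : Sat (Sum.elim w z)) (c : ι' → ι → ℤ) :
    Sat (Sum.elim w fun j => z j + ∑ a, c j a • w a) ∧
      Submodule.span ℤ (Set.range (Sum.elim w fun j => z j + ∑ a, c j a • w a)) =
        Submodule.span ℤ (Set.range (Sum.elim w z)) := by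
  have hspan : Submodule.span ℤ (Set.range (Sum.elim w fun j => z j + ∑ a, c j a • w a)) =
        Submodule.span ℤ (Set.range (Sum.elim w z)) := by
    apply le_antisymm
    · rw [Submodule.span_le]
      rintro _ ⟨a | j, rfl⟩
      · exact Submodule.subset_span ⟨Sum.inl a, rfl⟩
      · refine Submodule.add_mem _ (Submodule.subset_span ⟨Sum.inr j, rfl⟩)
          (Submodule.sum_mem _ fun a _ => Submodule.smul_mem _ _ (Submodule.subset_span ⟨Sum.inl a, rfl⟩))
    · rw [Submodule.span_le]
      rintro _ ⟨a | j, rfl⟩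
      · exact Submodule.subset_span ⟨Sum.inl a, rfl⟩
      · have h1 : Sum.elim w z (Sum.inr j) = (z j + ∑ a, c j a • w a) - ∑ a, c j a • w a := by
          rw [Sum.elim_inr, add_sub_cancel_right]
        rw [h1]
        refine Submodule.sub_mem _ (Submodule.subset_span ⟨Sum.inr j, rfl⟩)
          (Submodule.sum_mem _ fun a _ => Submodule.smul_mem _ _ (Submodule.subset_span ⟨Sum.inl a, rfl⟩))
  refine ⟨⟨?_, fun v n hn hv => ?_⟩, hspan⟩
  · rw [Fintype.linearIndependent_iff]
    intro e he
    rw [Fintype.sum_sum_type] at he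
    simp only [Sum.elim_inl, Sum.elim_inr] at he
    have h2 : ∑ i, (Sum.elim (fun a => e (Sum.inl a) + ∑ j, e (Sum.inr j) * c j a)
        (fun j => e (Sum.inr j)) i) • Sum.elim w z i = 0 := by
      rw [Fintype.sum_sum_type]
      simp only [Sum.elim_inl, Sum.elim_inr]
      rw [← he]
      simp only [add_smul, smul_add, Finset.sum_add_distrib, Finset.smul_sum, Finset.sum_smul, mul_smul]
      rw [Finset.sum_comm]
      abel
    have h3 := Fintype.linearIndependent_iff.1 h.1 _ h2
    have h4 : ∀ j, e (Sum.inr j) = 0 := fun j => h3 (Sum.inr j)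
    rintro (a | j)
    · have h5 := h3 (Sum.inl a)
      simpa only [Sum.elim_inl, h4, zero_mul, Finset.sum_const_zero, add_zero] using h5
    · exact h4 j
  · rw [hspan] at hv ⊢
    exact h.2 v n hn hv

end

end Pool.Agent.Lib.MP_17a322_nt.FQ
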