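import Pool.Agent.Lib.MP_17a322_nt.FQ.S1

namespace Pool.Agent.Lib.MP_17a322_nt.FQ

section

variable {κ ι : Type} [Fintype ι] [DecidableEq ι] [Fintype κ]

/-- The Gram matrix of `w` over `ℚ`. -/
private def S4_A (w : ι → κ → ℤ) : Matrix ι ι ℚ := Matrix.of fun a b => ((∑ c, w a c * w b c : ℤ) : ℚ)

private def S4_dot (x y : κ → ℤ) : ℚ := ((∑ c, x c * y c : ℤ) : ℚ)

private theorem S4_dot_comm (x y : κ → ℤ) : S4_dot x y = S4_dot y x := by
  unfold S4_dot
  congr 1
  exact Finset.sum_congr rfl fun c _ => mul_comm _ _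

private def S4_row {α : Type} (w : ι → κ → ℤ) (x : α → κ → ℤ) : Matrix α ι ℚ :=
  Matrix.of fun i b => S4_dot (x i) (w b)

private def S4_col {α : Type} (w : ι → κ → ℤ) (x : α → κ → ℤ) : Matrix ι α ℚ :=
  Matrix.of fun a j => S4_dot (w a) (x j)

private theorem S4_A_det (w : ι → κ → ℤ) : (S4_A w).det = ((gr w : ℤ) : ℚ) := by
  unfold S4_A gr gr2
  rw [Int.cast_det]
  rfl

omit [Fintype ι] [DecidableEq ι] in
private theorem S4_A_symm (w : ι → κ → ℤ) : (S4_A w).transpose = S4_A w := by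
  ext a b
  simp only [S4_A, Matrix.transpose_apply, Matrix.of_apply]
  congr 1
  exact Finset.sum_congr rfl fun c _ => mul_comm _ _

/-- The form obtained by projection to the orthogonal complement of `w`. -/
private noncomputable def S4_q (w : ι → κ → ℤ) (x y : κ → ℤ) : ℚ :=
  S4_dot x y - ∑ a, ∑ b, S4_dot x (w a) * (S4_A w)⁻¹ a b * S4_dot (w b) y

private theorem S4_q_comm (w : ι → κ → ℤ) (x y : κ → ℤ) : S4_q w x y = S4_q w y x := by
  unfold S4_q
  rw [S4_dot_comm x y, Finset.sum_comm]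
  congr 1
  refine Finset.sum_congr rfl fun a _ => Finset.sum_congr rfl fun b _ => ?_
  have h1 : (S4_A w)⁻¹ b a = (S4_A w)⁻¹ a b := by
    have h2 : (S4_A w)⁻¹.transpose = (S4_A w)⁻¹ := by
      rw [Matrix.transpose_nonsing_inv, S4_A_symm]
    exact congrFun (congrFun h2 a) b
  rw [h1, S4_dot_comm x (w b), S4_dot_comm (w a) y]
  ring

private theorem S4_schur {α : Type} (w : ι → κ → ℤ) (x y : α → κ → ℤ) :
    (Matrix.of fun i j => S4_dot (x i) (y j)) - S4_row w x * (S4_A w)⁻¹ * S4_col w y =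
      Matrix.of fun i j => S4_q w (x i) (y j) := by
  ext i j
  rw [Matrix.sub_apply, Matrix.of_apply, Matrix.of_apply]
  unfold S4_q
  congr 1
  rw [Matrix.mul_apply]
  simp only [Matrix.mul_apply, Finset.sum_mul]
  rw [Finset.sum_comm]
  rfl

private theorem S4_det {α : Type} [Fintype α] [DecidableEq α] (w : ι → κ → ℤ) (hw : gr w ≠ 0)
    (x y : α → κ → ℤ) :
    ((gr2 (Sum.elim w x) (Sum.elim w y) : ℤ) : ℚ) =
      ((gr w : ℤ) : ℚ) * (Matrix.of fun i j => S4_q w (x i) (y j)).det := by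
  have hA : IsUnit (S4_A w).det := by
    rw [S4_A_det]
    exact isUnit_iff_ne_zero.2 (by exact_mod_cast hw)
  haveI : Invertible (S4_A w) := Matrix.invertibleOfIsUnitDet _ hA
  have h1 : ((gr2 (Sum.elim w x) (Sum.elim w y) : ℤ) : ℚ) =
      (Matrix.fromBlocks (S4_A w) (S4_col w y) (S4_row w x)
        (Matrix.of fun i j => S4_dot (x i) (y j))).det := by
    unfold gr2
    rw [Int.cast_det]
    congr 1
    ext a b
    rcases a with a | a <;> rcases b with b | b <;> rfl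
  rw [h1, Matrix.det_fromBlocks₁₁, S4_A_det, Matrix.invOf_eq_nonsing_inv, S4_schur]

private theorem S4_one (w : ι → κ → ℤ) (hw : gr w ≠ 0) (x y : κ → ℤ) :
    ((gr2 (ad w x) (ad w y) : ℤ) : ℚ) = ((gr w : ℤ) : ℚ) * S4_q w x y := by
  unfold ad
  rw [S4_det w hw, Matrix.det_unique]
  rfl

private def S4_e2 : Unit ⊕ Unit ≃ Fin 2 where
  toFun := Sum.elim (fun _ => 0) (fun _ => 1)
  invFun := ![Sum.inl (), Sum.inr ()]
  left_inv := by
    rintro (a | a) <;> rfl
  right_inv := by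
    intro i
    fin_cases i <;> rfl

private theorem S4_two (w : ι → κ → ℤ) (hw : gr w ≠ 0) (v z : κ → ℤ) :
    ((gr (ad (ad w v) z) : ℤ) : ℚ) =
      ((gr w : ℤ) : ℚ) * (S4_q w v v * S4_q w z z - S4_q w v z * S4_q w z v) := by
  have h1 : gr (ad (ad w v) z) = gr (Sum.elim w ![v, z]) := by
    rw [← gr_reindex ((Equiv.sumAssoc ι Unit Unit).trans (Equiv.sumCongr (Equiv.refl ι) S4_e2))]
    congr 1
    funext a
    rcases a with (a | a) | a <;> rfl
  rw [h1]
  unfold gr at hw ⊢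
  rw [S4_det w hw, Matrix.det_fin_two]
  rfl

/-- JOB S4 (all theorems of the file). `gr_schur` over `ℚ` or over `ℤ`: let `A = (w a · w b)` be the Gram matrix of `w`, `det A = gr w ≠ 0` (`gr_pos`), over `ℚ`. For vectors `x`, `y` put `q x y = x · y - (x · w) A⁻¹ (w · y)`. Then `gr2 (ad w x) (ad w y) = gr w * q x y` and `gr (ad (ad w v) z) = gr w * (q v v * q z z - q v z ^ 2)` (Schur complements: `Matrix.det_fromBlocks₁₁`),
so `gr w * gr (ad (ad w v) z) = gr (ad w v) * gr (ad w z) - gr2 (ad w v) (ad w z) ^ 2`. `gr2_add`: linearity in the last row. `reduce`: choose the integer `c` with `|gr2 (ad w v) (ad w (z + c v))| ≤ gr (ad w v) / 2` (rounding), then use `gr_schur` and the hypothesis. Note that `gr (ad (ad w v) (z + c v)) = gr (ad (ad w v) z)`. -/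
theorem gr_schur (w : ι → κ → ℤ) (hw : LinearIndependent ℤ w) (v z : κ → ℤ) :
    gr w * gr (ad (ad w v) z) = gr (ad w v) * gr (ad w z) - gr2 (ad w v) (ad w z) ^ 2 := by
  have h0 : gr w ≠ 0 := (gr_pos w hw).ne'
  have h1 := S4_two w h0 v z
  have h2 : ((gr (ad w v) : ℤ) : ℚ) = ((gr w : ℤ) : ℚ) * S4_q w v v := S4_one w h0 v v
  have h3 : ((gr (ad w z) : ℤ) : ℚ) = ((gr w : ℤ) : ℚ) * S4_q w z z := S4_one w h0 z z
  have h4 := S4_one w h0 v z
  have h5 := S4_q_comm w z v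
  have h6 : ((gr w * gr (ad (ad w v) z) : ℤ) : ℚ) =
      ((gr (ad w v) * gr (ad w z) - gr2 (ad w v) (ad w z) ^ 2 : ℤ) : ℚ) := by
    push_cast
    rw [h1, h2, h3, h4, h5]
    ring
  exact_mod_cast h6

theorem gr2_add (w : ι → κ → ℤ) (v z : κ → ℤ) (c : ℤ) :
    gr2 (ad w v) (ad w (z + c • v)) = gr2 (ad w v) (ad w z) + c * gr (ad w v) := by
  have h1 : ∀ x : κ → ℤ, (Matrix.of fun a b => ∑ k, ad w v a k * ad w x b k) =
      (Matrix.of fun a b => ∑ k, ad w v a k * ad w v b k).updateCol (Sum.inr ())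
        (fun a => ∑ k, ad w v a k * x k) := by
    intro x
    ext a b
    rcases b with b | b
    · rw [Matrix.updateCol_ne (by simp)]
      rfl
    · rw [Matrix.updateCol_self]
      rfl
  have h2 : ∀ x : κ → ℤ, gr2 (ad w v) (ad w x) =
      ((Matrix.of fun a b => ∑ k, ad w v a k * ad w v b k).updateCol (Sum.inr ())
        (fun a => ∑ k, ad w v a k * x k)).det := by
    intro x
    unfold gr2
    rw [h1 x]
  have h3 : (fun a => ∑ k, ad w v a k * (z + c • v) k) =
      (fun a => ∑ k, ad w v a k * z k) + c • fun a => ∑ k, ad w v a k * v k := by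
    funext a
    rw [Pi.add_apply, Pi.smul_apply, smul_eq_mul, Finset.mul_sum, ← Finset.sum_add_distrib]
    refine Finset.sum_congr rfl fun k _ => ?_
    rw [Pi.add_apply, Pi.smul_apply, smul_eq_mul]
    ring
  have h4 : gr (ad w v) = gr2 (ad w v) (ad w v) := rfl
  rw [h4, h2, h2 z, h2 v, h3, Matrix.det_updateCol_add, Matrix.det_updateCol_smul]

theorem gr_ad_add (w : ι → κ → ℤ) (v z : κ → ℤ) (c : ℤ) :
    gr (ad (ad w v) (z + c • v)) = gr (ad (ad w v) z) := by
  have hne : (Sum.inr () : (ι ⊕ Unit) ⊕ Unit) ≠ Sum.inl (Sum.inr ()) := by simp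
  have h1 := gr_mul (Matrix.transvection (Sum.inr () : (ι ⊕ Unit) ⊕ Unit) (Sum.inl (Sum.inr ())) c)
    (ad (ad w v) z)
  rw [Matrix.det_transvection_of_ne _ _ hne, one_pow, one_mul] at h1
  rw [← h1]
  congr 1
  funext a k
  simp only [Matrix.transvection, Matrix.add_apply, add_mul, Finset.sum_add_distrib,
    Matrix.one_apply, ite_mul, one_mul, zero_mul, Finset.sum_ite_eq, Finset.mem_univ, if_true]
  rw [Finset.sum_eq_single (Sum.inl (Sum.inr ()))]
  · rcases a with a | a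
    · rw [Matrix.single_apply_of_ne _ _ _ _ _ (by simp)]
      simp [ad]
    · rw [show a = () from rfl, Matrix.single_apply_same]
      simp [ad]
  · intro b _ hb
    rw [Matrix.single_apply_of_ne _ _ _ _ _ (by
      rintro ⟨_, h⟩
      exact hb h.symm), zero_mul]
  · intro h
    exact absurd (Finset.mem_univ _) h

theorem reduce (w : ι → κ → ℤ) (v z : κ → ℤ) (hw : LinearIndependent ℤ (ad (ad w v) z))
    (hmin : ∀ c : ℤ, gr (ad w v) ≤ gr (ad w (z + c • v))) :
    ∃ c : ℤ, 3 * (gr (ad w v) * gr (ad w (z + c • v))) ≤ 4 * (gr w * gr (ad (ad w v) z)) := by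
  have hv : LinearIndependent ℤ (ad w v) := hw.comp Sum.inl Sum.inl_injective
  have hw0 : LinearIndependent ℤ w := hv.comp Sum.inl Sum.inl_injective
  have hG := gr_pos _ hv
  obtain ⟨c, hc⟩ : ∃ c : ℤ, 2 * |gr2 (ad w v) (ad w z) + c * gr (ad w v)| ≤ gr (ad w v) := by
    have h1 := Int.emod_nonneg (gr2 (ad w v) (ad w z)) hG.ne'
    have h2 := Int.emod_lt_of_pos (gr2 (ad w v) (ad w z)) hG
    have h3 := Int.emod_add_mul_ediv (gr2 (ad w v) (ad w z)) (gr (ad w v))
    rcases le_or_gt (2 * (gr2 (ad w v) (ad w z) % gr (ad w v))) (gr (ad w v)) with h | h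
    · refine ⟨-(gr2 (ad w v) (ad w z) / gr (ad w v)), ?_⟩
      have h4 : gr2 (ad w v) (ad w z) + -(gr2 (ad w v) (ad w z) / gr (ad w v)) * gr (ad w v) =
          gr2 (ad w v) (ad w z) % gr (ad w v) := by linarith
      rw [h4, abs_of_nonneg h1]
      exact h
    · refine ⟨-(gr2 (ad w v) (ad w z) / gr (ad w v)) - 1, ?_⟩
      have h4 : gr2 (ad w v) (ad w z) + (-(gr2 (ad w v) (ad w z) / gr (ad w v)) - 1) * gr (ad w v) =
          gr2 (ad w v) (ad w z) % gr (ad w v) - gr (ad w v) := by linarith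
      rw [h4, abs_of_nonpos (by linarith)]
      linarith
  refine ⟨c, ?_⟩
  have h5 := gr_schur w hw0 v (z + c • v)
  rw [gr_ad_add, gr2_add] at h5
  have h6 := hmin c
  have h7 : 4 * (gr2 (ad w v) (ad w z) + c * gr (ad w v)) ^ 2 ≤ gr (ad w v) ^ 2 := by
    have h8 : (2 * |gr2 (ad w v) (ad w z) + c * gr (ad w v)|) ^ 2 ≤ gr (ad w v) ^ 2 :=
      pow_le_pow_left₀ (by positivity) hc 2
    rw [mul_pow, sq_abs] at h8
    linarith
  have h9 : gr (ad w v) ^ 2 ≤ gr (ad w v) * gr (ad w (z + c • v)) := by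
    rw [sq]
    exact mul_le_mul_of_nonneg_left h6 hG.le
  rw [h5]
  linarith

end

end Pool.Agent.Lib.MP_17a322_nt.FQ
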