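import Pool.Agent.Lib.MP_17a322_nt.FQ.S3
import Pool.Agent.Lib.MP_17a322_nt.FQ.S4

namespace Pool.Agent.Lib.MP_17a322_nt.FQ

theorem S5_scale {κ ι : Type} [Fintype ι] [DecidableEq ι] [Fintype κ] (w : ι → κ → ℤ) (v : κ → ℤ) (n : ℤ)
    (c : ι → ℤ) : gr (ad w (n • v + ∑ a, c a • w a)) = n ^ 2 * gr (ad w v) := by
  have h := gr_mul (Matrix.fromBlocks (1 : Matrix ι ι ℤ) 0 (Matrix.of fun (_ : Unit) a => c a)
    (Matrix.of fun (_ : Unit) (_ : Unit) => n)) (ad w v)
  rw [Matrix.det_fromBlocks_zero₁₂, Matrix.det_one, one_mul, Matrix.det_unique] at h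
  rw [show (Matrix.of fun (_ : Unit) (_ : Unit) => n) default default = n from rfl] at h
  rw [← h]
  refine congrArg gr ?_
  funext a k
  rw [Fintype.sum_sum_type]
  rcases a with a | a
  · show w a k = ∑ b, (1 : Matrix ι ι ℤ) a b * w b k + ∑ _b : Unit, (0 : ℤ) * v k
    rw [Finset.sum_eq_single a]
    · simp
    · intro b _ hb
      rw [Matrix.one_apply_ne hb.symm, zero_mul]
    · intro h
      exact absurd (Finset.mem_univ _) h
  · show (n • v + ∑ a, c a • w a) k = ∑ b, c b * w b k + ∑ _b : Unit, n * v k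
    have hu : ∑ _b : Unit, n * v k = n * v k := Fintype.sum_unique _
    rw [hu, Pi.add_apply, Finset.sum_apply, add_comm]
    rfl

theorem S5_li_of_gr {κ ι : Type} [Fintype ι] [DecidableEq ι] [Fintype κ] (y : ι → κ → ℤ) (h : gr y ≠ 0) :
    LinearIndependent ℤ y := by
  rw [Fintype.linearIndependent_iff]
  intro g hg
  by_contra hne
  push Not at hne
  obtain ⟨i, hi⟩ := hne
  apply h
  have h1 : ∃ v ≠ 0, Matrix.vecMul v (Matrix.of fun a b => ∑ c, y a c * y b c) = 0 := by
    refine ⟨g, fun h0 => hi (congrFun h0 i), ?_⟩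
    funext b
    show ∑ a, g a * ∑ c, y a c * y b c = 0
    have h2 : ∀ c, ∑ a, g a * y a c = 0 := by
      intro c
      have := congrFun hg c
      rw [Finset.sum_apply] at this
      exact this
    calc ∑ a, g a * ∑ c, y a c * y b c = ∑ a, ∑ c, g a * y a c * y b c := by
          refine Finset.sum_congr rfl fun a _ => ?_
          rw [Finset.mul_sum]
          exact Finset.sum_congr rfl fun c _ => by ring
      _ = ∑ c, (∑ a, g a * y a c) * y b c := by
          rw [Finset.sum_comm]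
          exact Finset.sum_congr rfl fun c _ => by rw [Finset.sum_mul]
      _ = 0 := by
          refine Finset.sum_eq_zero fun c _ => ?_
          rw [h2 c, zero_mul]
  exact Matrix.exists_vecMul_eq_zero_iff.1 h1

theorem S5_gr_eq_same {κ ι : Type} [Fintype ι] [DecidableEq ι] [Fintype κ] (y y' : ι → κ → ℤ)
    (hy : LinearIndependent ℤ y)
    (hs : Submodule.span ℤ (Set.range y) = Submodule.span ℤ (Set.range y')) : gr y = gr y' := by
  have h1 : ∀ a, ∃ t : ι → ℤ, ∑ b, t b • y b = y' a := by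
    intro a
    have h : y' a ∈ Submodule.span ℤ (Set.range y) := by
      rw [hs]
      exact Submodule.subset_span ⟨a, rfl⟩
    exact (Submodule.mem_span_range_iff_exists_fun ℤ).1 h
  have h2 : ∀ a, ∃ t : ι → ℤ, ∑ b, t b • y' b = y a := by
    intro a
    have h : y a ∈ Submodule.span ℤ (Set.range y') := by
      rw [← hs]
      exact Submodule.subset_span ⟨a, rfl⟩
    exact (Submodule.mem_span_range_iff_exists_fun ℤ).1 h
  choose T hT using h1
  choose T' hT' using h2
  have h3 : Matrix.of T' * Matrix.of T = 1 := by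
    ext a c
    have h4 : ∑ c, (∑ b, T' a b * T b c - if a = c then 1 else 0) • y c = 0 := by
      have h5 : ∑ c, (∑ b, T' a b * T b c) • y c = y a := by
        calc ∑ c, (∑ b, T' a b * T b c) • y c = ∑ c, ∑ b, (T' a b * T b c) • y c := by
              exact Finset.sum_congr rfl fun c _ => Finset.sum_smul
          _ = ∑ b, T' a b • ∑ c, T b c • y c := by
              rw [Finset.sum_comm]
              refine Finset.sum_congr rfl fun b _ => ?_
              rw [Finset.smul_sum]
              exact Finset.sum_congr rfl fun c _ => by rw [smul_smul]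
          _ = y a := by
              rw [Finset.sum_congr rfl fun b _ => by rw [hT b]]
              exact hT' a
      have h6 : ∑ c, (if a = c then (1 : ℤ) else 0) • y c = y a := by
        rw [Finset.sum_eq_single a]
        · rw [if_pos rfl, one_smul]
        · intro b _ hb
          rw [if_neg hb.symm, zero_smul]
        · intro h
          exact absurd (Finset.mem_univ _) h
      have h7 : ∑ c, (∑ b, T' a b * T b c - if a = c then 1 else 0) • y c =
          ∑ c, (∑ b, T' a b * T b c) • y c - ∑ c, (if a = c then (1 : ℤ) else 0) • y c := by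
        rw [← Finset.sum_sub_distrib]
        exact Finset.sum_congr rfl fun c _ => sub_smul _ _ _
      rw [h7, h5, h6, sub_self]
    have h8 := Fintype.linearIndependent_iff.1 hy _ h4 c
    rw [Matrix.mul_apply, Matrix.one_apply]
    exact sub_eq_zero.1 h8
  have h9 : (Matrix.of T').det * (Matrix.of T).det = 1 := by
    rw [← Matrix.det_mul, h3, Matrix.det_one]
  have h10 : (Matrix.of T).det ^ 2 = 1 := by
    have h11 : IsUnit (Matrix.of T).det := IsUnit.of_mul_eq_one _ (by rw [mul_comm]; exact h9)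
    rcases Int.isUnit_iff.1 h11 with h | h
    · rw [h]; norm_num
    · rw [h]; norm_num
  have h12 := gr_mul (Matrix.of T) y
  rw [h10, one_mul] at h12
  rw [← h12]
  refine congrArg gr ?_
  funext a c
  have := congrFun (hT a) c
  rw [Finset.sum_apply] at this
  exact this

theorem S5_gr_eq {κ ι ι' : Type} [Fintype ι] [DecidableEq ι] [Fintype ι'] [DecidableEq ι'] [Fintype κ]
    (y : ι → κ → ℤ) (y' : ι' → κ → ℤ) (hy : LinearIndependent ℤ y) (hy' : LinearIndependent ℤ y')
    (hs : Submodule.span ℤ (Set.range y) = Submodule.span ℤ (Set.range y')) : gr y = gr y' := by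
  have h1 := finrank_span_eq_card hy
  have h2 := finrank_span_eq_card hy'
  rw [hs] at h1
  have h3 : Fintype.card ι = Fintype.card ι' := h1.symm.trans h2
  obtain ⟨e⟩ := Fintype.card_eq.1 h3
  rw [← gr_reindex e y']
  refine S5_gr_eq_same y _ hy ?_
  rw [hs]
  congr 1
  exact (e.surjective.range_comp y').symm

theorem S5_sat_reindex {κ ι ι' : Type} (e : ι' ≃ ι) {y : ι → κ → ℤ} (hy : Sat y) :
    Sat (fun a => y (e a)) := by
  have h1 : Set.range (fun a => y (e a)) = Set.range y := e.surjective.range_comp y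
  refine ⟨hy.1.comp e e.injective, ?_⟩
  rw [h1]
  exact hy.2

theorem S5_span_reindex {κ ι ι' : Type} (e : ι' ≃ ι) (y : ι → κ → ℤ) :
    Submodule.span ℤ (Set.range (fun a => y (e a))) = Submodule.span ℤ (Set.range y) := by
  rw [show Set.range (fun a => y (e a)) = Set.range y from e.surjective.range_comp y]

/-- the numbering of the vectors with the first of the last ones separated -/
def S5_e (ι : Type) (m : ℕ) : (ι ⊕ Unit) ⊕ Fin m ≃ ι ⊕ Fin (m + 1) where
  toFun := Sum.elim (Sum.elim Sum.inl fun _ => Sum.inr 0) fun j => Sum.inr j.succ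
  invFun := Sum.elim (fun i => Sum.inl (Sum.inl i))
    (Fin.cases (Sum.inl (Sum.inr ())) fun j => Sum.inr j)
  left_inv := by
    rintro ((i | i) | j) <;> rfl
  right_inv := by
    rintro (i | j)
    · rfl
    · refine Fin.cases ?_ (fun j => ?_) j <;> rfl

theorem S5_sat_ad {κ ι : Type} [Fintype κ] [Fintype ι] [DecidableEq ι] {m : ℕ} {w : ι → κ → ℤ} {y : Fin m → κ → ℤ}
    (h : Sat (Sum.elim w y)) (j : Fin m) : Sat (ad w (y j)) := by
  let f : (ι ⊕ Unit) ⊕ {i : Fin m // i ≠ j} → ι ⊕ Fin m :=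
    Sum.elim (Sum.elim Sum.inl (fun _ => Sum.inr j)) (fun i => Sum.inr i.1)
  have hf : Function.Bijective f := by
    constructor
    · rintro ((a | a) | a) ((b | b) | b) hab
      · have := Sum.inl.inj hab
        rw [this]
      · cases hab
      · cases hab
      · cases hab
      · rfl
      · exact absurd (Sum.inr.inj hab).symm b.2
      · cases hab
      · exact absurd (Sum.inr.inj hab) a.2
      · rw [Subtype.ext (Sum.inr.inj hab)]
    · rintro (a | a)
      · exact ⟨Sum.inl (Sum.inl a), rfl⟩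
      · by_cases ha : a = j
        · exact ⟨Sum.inl (Sum.inr ()), by rw [ha]; rfl⟩
        · exact ⟨Sum.inr ⟨a, ha⟩, rfl⟩
  have h1 := S5_sat_reindex (Equiv.ofBijective f hf) h
  have h2 : (fun a => Sum.elim w y (Equiv.ofBijective f hf a)) = Sum.elim (ad w (y j)) (fun i : {i : Fin m // i ≠ j} => y i.1) := by
    funext a
    rcases a with (a | a) | a <;> rfl
  rw [h2] at h1
  exact sat_left h1

/-- the first step of the reduction: a vector of the group for which the Gram determinant is minimal -/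
theorem S5_min {κ ι : Type} [Fintype κ] [Fintype ι] [DecidableEq ι] {m : ℕ} (w : ι → κ → ℤ)
    (z : Fin (m + 1) → κ → ℤ) (h : Sat (Sum.elim w z)) :
    ∃ v ∈ Submodule.span ℤ (Set.range (Sum.elim w z)), Sat (ad w v) ∧
      ∀ u ∈ Submodule.span ℤ (Set.range (Sum.elim w z)), LinearIndependent ℤ (ad w u) →
        gr (ad w v) ≤ gr (ad w u) := by
  classical
  have hL : ∀ a, w a ∈ Submodule.span ℤ (Set.range (Sum.elim w z)) := fun a =>
    Submodule.subset_span ⟨Sum.inl a, rfl⟩
  have hw : Sat w := sat_left h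
  have hex : ∃ n : ℕ, ∃ v ∈ Submodule.span ℤ (Set.range (Sum.elim w z)), LinearIndependent ℤ (ad w v) ∧
      (gr (ad w v)).toNat = n :=
    ⟨_, z 0, Submodule.subset_span ⟨Sum.inr 0, rfl⟩, (S5_sat_ad h 0).1, rfl⟩
  obtain ⟨v, hv, hli, hn⟩ := Nat.find_spec hex
  have hpos := gr_pos _ hli
  have hmin : ∀ u ∈ Submodule.span ℤ (Set.range (Sum.elim w z)), LinearIndependent ℤ (ad w u) →
      gr (ad w v) ≤ gr (ad w u) := by
    intro u hu hlu
    have h1 := Nat.find_min' hex ⟨u, hu, hlu, rfl⟩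
    rw [← hn] at h1
    have h2 := gr_pos _ hlu
    omega
  refine ⟨v, hv, ⟨hli, ?_⟩, hmin⟩
  intro u n hn0 hu
  have hsub : Submodule.span ℤ (Set.range (ad w v)) ≤ Submodule.span ℤ (Set.range (Sum.elim w z)) := by
    rw [Submodule.span_le]
    rintro _ ⟨a | a, rfl⟩
    · exact hL a
    · exact hv
  have huL : u ∈ Submodule.span ℤ (Set.range (Sum.elim w z)) := h.2 u n hn0 (hsub hu)
  obtain ⟨t, ht⟩ := (Submodule.mem_span_range_iff_exists_fun ℤ).1 hu
  rw [Fintype.sum_sum_type] at ht
  have hun : ∑ x : Unit, t (Sum.inr x) • ad w v (Sum.inr x) = t (Sum.inr ()) • v := Fintype.sum_unique _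
  rw [hun] at ht
  have ht' : ∑ a, t (Sum.inl a) • w a + t (Sum.inr ()) • v = n • u := ht
  set b := t (Sum.inr ()) with hb
  set q := b / n with hq
  set r := b % n with hr
  have hbr : n * q + r = b := Int.mul_ediv_add_emod b n
  have hr0 : 0 ≤ r := Int.emod_nonneg b hn0
  have hrn : r < |n| := Int.emod_lt_abs b hn0
  have hu' : n • (u - q • v) = r • v + ∑ a, t (Sum.inl a) • w a := by
    rw [smul_sub, ← ht', ← hbr, add_smul, smul_smul]
    abel
  have hu'L : u - q • v ∈ Submodule.span ℤ (Set.range (Sum.elim w z)) :=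
    Submodule.sub_mem _ huL (Submodule.smul_mem _ _ hv)
  have hg1 : n ^ 2 * gr (ad w (u - q • v)) = r ^ 2 * gr (ad w v) := by
    have e1 := S5_scale w (u - q • v) n 0
    have e2 := S5_scale w v r (fun a => t (Sum.inl a))
    have e3 : n • (u - q • v) + ∑ a, (0 : ι → ℤ) a • w a = n • (u - q • v) := by
      rw [Finset.sum_eq_zero (fun a _ => by rw [Pi.zero_apply, zero_smul]), add_zero]
    rw [e3, hu'] at e1
    rw [← e1, ← e2]
  have hrz : r = 0 := by
    by_contra hrne
    have hg2 : gr (ad w (u - q • v)) ≠ 0 := by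
      intro h0
      rw [h0, mul_zero] at hg1
      exact mul_ne_zero (pow_ne_zero 2 hrne) hpos.ne' hg1.symm
    have hg3 := hmin _ hu'L (S5_li_of_gr _ hg2)
    have hn2 : 0 < n ^ 2 := by positivity
    have hg4 : n ^ 2 * gr (ad w v) ≤ r ^ 2 * gr (ad w v) := by
      rw [← hg1]
      exact mul_le_mul_of_nonneg_left hg3 hn2.le
    have hg5 : n ^ 2 ≤ r ^ 2 := le_of_mul_le_mul_right hg4 hpos
    have hg6 : r ^ 2 < n ^ 2 := by
      rw [← sq_abs n]
      exact pow_lt_pow_left₀ hrn hr0 two_ne_zero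
    omega
  rw [hrz, zero_smul, zero_add] at hu'
  have hu2 : u - q • v ∈ Submodule.span ℤ (Set.range w) := by
    refine hw.2 _ n hn0 ?_
    rw [hu']
    exact Submodule.sum_mem _ fun a _ => Submodule.smul_mem _ _ (Submodule.subset_span ⟨a, rfl⟩)
  have hwle : Submodule.span ℤ (Set.range w) ≤ Submodule.span ℤ (Set.range (ad w v)) := by
    rw [Submodule.span_le]
    rintro _ ⟨a, rfl⟩
    exact Submodule.subset_span ⟨Sum.inl a, rfl⟩
  have hu3 := Submodule.add_mem _ (hwle hu2) (Submodule.smul_mem _ q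
    (Submodule.subset_span (⟨Sum.inr (), rfl⟩ : v ∈ Set.range (ad w v))))
  rw [sub_add_cancel] at hu3
  exact hu3

theorem S5_cast_mem {κ ι : Type} {y : ι → κ → ℤ} {v : κ → ℤ} (hv : v ∈ Submodule.span ℤ (Set.range y)) :
    (fun c => (v c : ℚ)) ∈ Submodule.span ℚ (Set.range fun a c => (y a c : ℚ)) := by
  induction hv using Submodule.span_induction with
  | mem x h =>
    obtain ⟨a, rfl⟩ := h
    exact Submodule.subset_span ⟨a, rfl⟩
  | zero =>
    have : (fun c : κ => ((0 : κ → ℤ) c : ℚ)) = 0 := by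
      funext c
      exact Int.cast_zero
    rw [this]
    exact Submodule.zero_mem _
  | add x y _ _ hx hy =>
    have := Submodule.add_mem _ hx hy
    refine (congrArg (· ∈ _) ?_).mp this
    funext c
    exact (Int.cast_add _ _).symm
  | smul n x _ hx =>
    have := Submodule.smul_mem _ (n : ℚ) hx
    refine (congrArg (· ∈ _) ?_).mp this
    funext c
    exact (Int.cast_mul _ _).symm

/-- the extension of a saturated pair inside the group of a saturated family -/
theorem S5_ext {κ ι : Type} [Fintype κ] [Fintype ι] [DecidableEq ι] {m : ℕ} (w : ι → κ → ℤ)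
    (z : Fin (m + 1) → κ → ℤ) (h : Sat (Sum.elim w z)) {v : κ → ℤ}
    (hv : v ∈ Submodule.span ℤ (Set.range (Sum.elim w z))) (hs : Sat (ad w v)) :
    ∃ z' : Fin m → κ → ℤ, Sat (Sum.elim (ad w v) z') ∧
      Submodule.span ℤ (Set.range (Sum.elim (ad w v) z')) = Submodule.span ℤ (Set.range (Sum.elim w z)) := by
  classical
  have hW : ∀ a, (fun c => ((ad w v a c : ℤ) : ℚ)) ∈
      Submodule.span ℚ (Set.range fun a c => (Sum.elim w z a c : ℚ)) := by
    rintro (a | a)
    · exact Submodule.subset_span ⟨Sum.inl a, rfl⟩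
    · exact S5_cast_mem hv
  have hfin : Module.finrank ℚ (Submodule.span ℚ (Set.range fun a c => (Sum.elim w z a c : ℚ))) =
      Fintype.card (ι ⊕ Unit) + m := by
    rw [finrank_span_eq_card ((indep_iff _).1 h.1), Fintype.card_sum, Fintype.card_sum, Fintype.card_fin,
      Fintype.card_unit]
    omega
  obtain ⟨z', hz', hzW⟩ := sat_extend hs _ hW hfin
  refine ⟨z', hz', le_antisymm ?_ ?_⟩
  · rw [Submodule.span_le]
    rintro _ ⟨a, rfl⟩
    refine sat_mem h ?_
    rw [← hzW]
    exact Submodule.subset_span ⟨a, rfl⟩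
  · rw [Submodule.span_le]
    rintro _ ⟨a, rfl⟩
    refine sat_mem hz' ?_
    rw [hzW]
    exact Submodule.subset_span ⟨a, rfl⟩

theorem S5_li_add {κ ι : Type} [Fintype ι] {w : ι → κ → ℤ} {v x : κ → ℤ}
    (h : LinearIndependent ℤ (ad (ad w v) x)) (c : ℤ) : LinearIndependent ℤ (ad w (x + c • v)) := by
  rw [Fintype.linearIndependent_iff] at h ⊢
  intro g hg
  let F : (ι ⊕ Unit) ⊕ Unit → ℤ :=
    Sum.elim (Sum.elim (fun a => g (Sum.inl a)) (fun _ => g (Sum.inr ()) * c)) (fun _ => g (Sum.inr ()))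
  have hF : ∑ i, F i • ad (ad w v) x i = 0 := by
    rw [Fintype.sum_sum_type, Fintype.sum_sum_type]
    rw [Fintype.sum_sum_type] at hg
    have e1 : ∑ u : Unit, g (Sum.inr u) • ad w (x + c • v) (Sum.inr u) = g (Sum.inr ()) • (x + c • v) :=
      Fintype.sum_unique _
    rw [e1] at hg
    have e2 : ∑ a : Unit, F (Sum.inl (Sum.inr a)) • ad (ad w v) x (Sum.inl (Sum.inr a)) =
        (g (Sum.inr ()) * c) • v := Fintype.sum_unique _
    have e3 : ∑ a : Unit, F (Sum.inr a) • ad (ad w v) x (Sum.inr a) =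
        g (Sum.inr ()) • x := Fintype.sum_unique _
    rw [e2, e3]
    have e4 : ∑ a : ι, g (Sum.inl a) • w a + (g (Sum.inr ()) * c) • v + g (Sum.inr ()) • x = 0 := by
      rw [smul_add, smul_smul] at hg
      have hg' : ∑ a : ι, g (Sum.inl a) • w a + (g (Sum.inr ()) • x + (g (Sum.inr ()) * c) • v) = 0 := hg
      rw [← hg']
      abel
    exact e4
  have h1 := h F hF
  rintro (a | a)
  · exact h1 (Sum.inl (Sum.inl a))
  · exact h1 (Sum.inr a)

theorem S5_real {m : ℕ} {G G1 g : ℝ} {X Y : Fin m → ℝ} (hG : 0 < G) (hG1 : 0 < G1) (hg : 0 ≤ g)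
    (hX : ∀ j, 0 ≤ X j) (h1 : ∀ j, 3 * (G1 * X j) ≤ 4 * (G * Y j))
    (h2 : (∏ j, Y j) * G1 ≤ (4 / 3) ^ (m ^ 2) * (G1 ^ m * g)) :
    (G1 * ∏ j, X j) * G ≤ (4 / 3) ^ ((m + 1) ^ 2) * (G ^ (m + 1) * g) := by
  have h3 : ∏ j, (G1 * X j) ≤ ∏ j, (4 / 3 * (G * Y j)) := by
    refine Finset.prod_le_prod (fun j _ => mul_nonneg hG1.le (hX j)) fun j _ => ?_
    have := h1 j
    linarith
  rw [Finset.prod_mul_distrib, Finset.prod_mul_distrib, Finset.prod_mul_distrib, Finset.prod_const,
    Finset.prod_const, Finset.prod_const, Finset.card_univ, Fintype.card_fin] at h3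
  have h4 : G1 ^ m * ((G1 * ∏ j, X j) * G) ≤ G1 ^ m * ((4 / 3) ^ (m ^ 2 + m) * (G ^ (m + 1) * g)) := by
    calc G1 ^ m * ((G1 * ∏ j, X j) * G) = (G1 * G) * (G1 ^ m * ∏ j, X j) := by ring
      _ ≤ (G1 * G) * ((4 / 3) ^ m * (G ^ m * ∏ j, Y j)) :=
          mul_le_mul_of_nonneg_left h3 (mul_pos hG1 hG).le
      _ = ((4 / 3) ^ m * G ^ (m + 1)) * ((∏ j, Y j) * G1) := by ring
      _ ≤ ((4 / 3) ^ m * G ^ (m + 1)) * ((4 / 3) ^ (m ^ 2) * (G1 ^ m * g)) :=
          mul_le_mul_of_nonneg_left h2 (by positivity)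
      _ = G1 ^ m * ((4 / 3) ^ (m ^ 2 + m) * (G ^ (m + 1) * g)) := by
          rw [pow_add]
          ring
  have h5 := le_of_mul_le_mul_left h4 (pow_pos hG1 m)
  refine h5.trans ?_
  have h6 : ((4 : ℝ) / 3) ^ (m ^ 2 + m) ≤ (4 / 3) ^ ((m + 1) ^ 2) := by
    refine pow_le_pow_right₀ (by norm_num) ?_
    nlinarith
  exact mul_le_mul_of_nonneg_right h6 (by positivity)

/-- Reduction theory for the quotient of two saturated lattices. -/
theorem reduction {κ : Type} [Fintype κ] (m : ℕ) :
    ∀ {ι : Type} [Fintype ι] [DecidableEq ι] (w : ι → κ → ℤ) (z : Fin m → κ → ℤ), Sat (Sum.elim w z) →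
      ∃ y : Fin m → κ → ℤ, Sat (Sum.elim w y) ∧
        Submodule.span ℤ (Set.range (Sum.elim w y)) = Submodule.span ℤ (Set.range (Sum.elim w z)) ∧
        (∏ j, ((gr (ad w (y j)) : ℤ) : ℝ)) * ((gr w : ℤ) : ℝ) ≤
          (4 / 3) ^ (m ^ 2) * (((gr w : ℤ) : ℝ) ^ m * ((gr (Sum.elim w z) : ℤ) : ℝ)) := by
  induction m with
  | zero =>
    intro ι _ _ w z h
    refine ⟨z, h, rfl, ?_⟩
    have h1 : gr (Sum.elim w z) = gr w := by
      have h2 := gr_reindex (Equiv.sumEmpty ι (Fin 0)) w
      rw [← h2]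
      refine congrArg gr ?_
      funext a
      rcases a with a | a
      · rfl
      · exact a.elim0
    rw [h1]
    norm_num
  | succ m ih =>
    intro ι _ _ w z h
    obtain ⟨v, hv, hs, hmin⟩ := S5_min w z h
    obtain ⟨z', hz', hzL⟩ := S5_ext w z h hv hs
    obtain ⟨y', hy', hyL, hprod⟩ := ih (ad w v) z' hz'
    have hy'L : ∀ j, y' j ∈ Submodule.span ℤ (Set.range (Sum.elim w z)) := by
      intro j
      rw [← hzL, ← hyL]
      exact Submodule.subset_span ⟨Sum.inr j, rfl⟩
    have hli : ∀ j, LinearIndependent ℤ (ad (ad w v) (y' j)) := fun j => (S5_sat_ad hy' j).1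
    have hred : ∀ j, ∃ c : ℤ, 3 * (gr (ad w v) * gr (ad w (y' j + c • v))) ≤
        4 * (gr w * gr (ad (ad w v) (y' j))) := fun j =>
      reduce w v (y' j) (hli j) fun c => hmin _
        (Submodule.add_mem _ (hy'L j) (Submodule.smul_mem _ c hv)) (S5_li_add (hli j) c)
    choose c hc using hred
    have hadd := sat_add hy' (fun j => Sum.elim (0 : ι → ℤ) (fun _ : Unit => c j))
    have hfam : (fun j => y' j + ∑ a, Sum.elim (0 : ι → ℤ) (fun _ : Unit => c j) a • ad w v a) =
        fun j => y' j + c j • v := by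
      funext j
      rw [Fintype.sum_sum_type]
      have e1 : ∑ a : ι, Sum.elim (0 : ι → ℤ) (fun _ : Unit => c j) (Sum.inl a) • ad w v (Sum.inl a) = 0 :=
        Finset.sum_eq_zero fun a _ => by
          rw [Sum.elim_inl, Pi.zero_apply, zero_smul]
      have e2 : ∑ a : Unit, Sum.elim (0 : ι → ℤ) (fun _ : Unit => c j) (Sum.inr a) • ad w v (Sum.inr a) =
          c j • v := Fintype.sum_unique _
      rw [e1, e2, zero_add]
    rw [hfam] at hadd
    let y : Fin (m + 1) → κ → ℤ := Fin.cons v fun j => y' j + c j • v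
    have hyr : (fun a => Sum.elim w y (S5_e ι m a)) = Sum.elim (ad w v) (fun j => y' j + c j • v) := by
      funext a
      rcases a with (a | a) | a <;> rfl
    have hsat : Sat (Sum.elim w y) := by
      have h1 := S5_sat_reindex (S5_e ι m).symm (y := Sum.elim (ad w v) (fun j => y' j + c j • v)) hadd.1
      rw [← hyr] at h1
      have h2 : (fun a => (fun a => Sum.elim w y (S5_e ι m a)) ((S5_e ι m).symm a)) = Sum.elim w y := by
        funext a
        show Sum.elim w y (S5_e ι m ((S5_e ι m).symm a)) = _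
        rw [Equiv.apply_symm_apply]
      rw [h2] at h1
      exact h1
    have hspan : Submodule.span ℤ (Set.range (Sum.elim w y)) = Submodule.span ℤ (Set.range (Sum.elim w z)) := by
      rw [← S5_span_reindex (S5_e ι m) (Sum.elim w y), hyr, hadd.2, hyL, hzL]
    refine ⟨y, hsat, hspan, ?_⟩
    have hGz : gr (Sum.elim (ad w v) z') = gr (Sum.elim w z) := S5_gr_eq _ _ hz'.1 h.1 hzL
    rw [hGz] at hprod
    rw [Fin.prod_univ_succ]
    have hw : Sat w := sat_left h
    have hGp : (0 : ℝ) < ((gr w : ℤ) : ℝ) := by exact_mod_cast gr_pos _ hw.1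
    have hG1p : (0 : ℝ) < ((gr (ad w v) : ℤ) : ℝ) := by exact_mod_cast gr_pos _ hs.1
    have hgp : (0 : ℝ) ≤ ((gr (Sum.elim w z) : ℤ) : ℝ) := by exact_mod_cast (gr_pos _ h.1).le
    refine S5_real (X := fun j => ((gr (ad w (y j.succ)) : ℤ) : ℝ))
      (Y := fun j => ((gr (ad (ad w v) (y' j)) : ℤ) : ℝ)) hGp hG1p hgp ?_ ?_ hprod
    · intro j
      exact_mod_cast (gr_pos _ (S5_sat_ad hsat j.succ).1).le
    · intro j
      exact_mod_cast hc j

/-- A part of a saturated family is saturated. -/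
theorem sat_ad {κ ι : Type} [Fintype κ] [Fintype ι] [DecidableEq ι] {m : ℕ} {w : ι → κ → ℤ} {y : Fin m → κ → ℤ}
    (h : Sat (Sum.elim w y)) (j : Fin m) : Sat (ad w (y j)) :=
  S5_sat_ad h j

end Pool.Agent.Lib.MP_17a322_nt.FQ
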