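import Pool.Agent.Lib.MP_17a322_nt.FQ.S2
import Pool.Agent.Lib.MP_17a322_nt.FQ.S5

namespace Pool.Agent.Lib.MP_17a322_nt.FQ

open Height NumberField
open Pool.Agent.Lib.MP_17a322_nt.EQ

/-- An inclusion of spans over `ℤ` gives an inclusion of spans over `ℚ`. -/
theorem S6_span_mono {κ ι ι' : Type} (u : ι → κ → ℤ) (v : ι' → κ → ℤ)
    (h : Submodule.span ℤ (Set.range u) ≤ Submodule.span ℤ (Set.range v)) :
    Submodule.span ℚ (Set.range fun a c => (u a c : ℚ)) ≤
      Submodule.span ℚ (Set.range fun a c => (v a c : ℚ)) := by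
  let φ : (κ → ℤ) →ₗ[ℤ] (κ → ℚ) :=
    { toFun := fun x c => (x c : ℚ)
      map_add' := by
        intro x y
        funext c
        simp
      map_smul' := by
        intro n x
        funext c
        simp }
  have hle : Submodule.span ℤ (Set.range v) ≤
      ((Submodule.span ℚ (Set.range fun a c => (v a c : ℚ))).restrictScalars ℤ).comap φ := by
    rw [Submodule.span_le]
    rintro _ ⟨a, rfl⟩
    exact Submodule.subset_span ⟨a, rfl⟩
  rw [Submodule.span_le]
  rintro _ ⟨a, rfl⟩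
  exact hle (h (Submodule.subset_span ⟨a, rfl⟩))

/-- The span of two families. -/
theorem S6_span_elim {κ ι ι' : Type} (u : ι → κ → ℤ) (v : ι' → κ → ℤ) :
    Submodule.span ℚ (Set.range fun a c => (Sum.elim u v a c : ℚ)) =
      Submodule.span ℚ (Set.range fun a c => (u a c : ℚ)) ⊔
        Submodule.span ℚ (Set.range fun a c => (v a c : ℚ)) := by
  rw [← Submodule.span_union]
  congr 1
  ext x
  constructor
  · rintro ⟨a, rfl⟩
    rcases a with a | a
    · exact Or.inl ⟨a, rfl⟩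
    · exact Or.inr ⟨a, rfl⟩
  · rintro (⟨a, rfl⟩ | ⟨a, rfl⟩)
    · exact ⟨Sum.inl a, rfl⟩
    · exact ⟨Sum.inr a, rfl⟩

/-- The constant for the dimensions `p` and `p + m`. -/
noncomputable def S6_c (N p m : ℕ) : ℝ :=
  (m : ℝ) ^ 2 * Real.log (4 / 3) + Real.log ((N ^ (p + m) : ℕ) : ℝ) + Real.log (p.factorial : ℝ) +
    (m : ℝ) * (Real.log ((p + 1).factorial : ℝ) + Real.log ((N ^ p : ℕ) : ℝ))

theorem S6_c_nonneg (N p m : ℕ) : 0 ≤ S6_c N p m := by
  unfold S6_c
  have h1 : 0 ≤ Real.log (4 / 3) := Real.log_nonneg (by norm_num)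
  have h2 := Real.log_natCast_nonneg (N ^ (p + m))
  have h3 := Real.log_natCast_nonneg p.factorial
  have h4 := Real.log_natCast_nonneg (p + 1).factorial
  have h5 := Real.log_natCast_nonneg (N ^ p)
  positivity

/-- Reduction theory for subspaces of `ℚ ^ κ`: a complement of `W'` in `W` with a basis such that the
heights of the extensions of `W'` by one basis vector are small. -/
theorem split_hPl (κ : Type) [Fintype κ] :
    ∃ C : ℝ, ∀ W' W : Submodule ℚ (κ → ℚ), W' ≤ W → ∀ m : ℕ, Module.finrank ℚ W = Module.finrank ℚ W' + m →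
      ∃ y : Fin m → κ → ℚ, W' ⊔ Submodule.span ℚ (Set.range y) = W ∧
        ∑ j, (hPl (W' ⊔ Submodule.span ℚ {y j}) - hPl W') ≤ hPl W - hPl W' + C := by
  classical
  set N := Fintype.card κ with hN
  refine ⟨∑ p ∈ Finset.range (N + 1), ∑ m ∈ Finset.range (N + 1), S6_c N p m, ?_⟩
  intro W' W hle m hm
  obtain ⟨p, hp⟩ : ∃ p, p = Module.finrank ℚ W' := ⟨_, rfl⟩
  obtain ⟨w, hw, hwW⟩ : ∃ w : Fin p → κ → ℤ, Sat w ∧
      Submodule.span ℚ (Set.range fun a c => (w a c : ℚ)) = W' := by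
    rw [hp]
    exact sat_basis W'
  have hin : ∀ a, (fun c => (w a c : ℚ)) ∈ W := by
    intro a
    apply hle
    rw [← hwW]
    exact Submodule.subset_span ⟨a, rfl⟩
  have hm' : Module.finrank ℚ W = Fintype.card (Fin p) + m := by
    rw [Fintype.card_fin, hp]
    exact hm
  obtain ⟨z, hz, hzW⟩ := sat_extend hw W hin hm'
  obtain ⟨y, hy, hsp, hred⟩ := reduction m w z hz
  have hyW : Submodule.span ℚ (Set.range fun a c => (Sum.elim w y a c : ℚ)) = W := by
    rw [← hzW]
    exact le_antisymm (S6_span_mono _ _ hsp.le) (S6_span_mono _ _ hsp.ge)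
  refine ⟨fun j c => (y j c : ℚ), ?_, ?_⟩
  · rw [S6_span_elim, hwW] at hyW
    exact hyW
  have hadj : ∀ j, W' ⊔ Submodule.span ℚ {fun c => (y j c : ℚ)} =
      Submodule.span ℚ (Set.range fun a c => ((ad w (y j) a c : ℤ) : ℚ)) := by
    intro j
    have h := S6_span_elim w (fun _ : Unit => y j)
    rw [hwW] at h
    rw [ad, h]
    congr 2
    ext x
    constructor
    · rintro rfl
      exact ⟨(), rfl⟩
    · rintro ⟨a, rfl⟩
      rfl
  have hpN : p ≤ N := by
    have h := Submodule.finrank_le W'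
    rw [Module.finrank_fintype_fun_eq_card] at h
    rw [hp]
    exact h
  have hmN : m ≤ N := by
    have h := Submodule.finrank_le W
    rw [Module.finrank_fintype_fun_eq_card] at h
    omega
  have hC : S6_c N p m ≤ ∑ p ∈ Finset.range (N + 1), ∑ m ∈ Finset.range (N + 1), S6_c N p m := by
    have h1 : S6_c N p m ≤ ∑ m ∈ Finset.range (N + 1), S6_c N p m :=
      Finset.single_le_sum (f := fun m => S6_c N p m) (fun i _ => S6_c_nonneg N p i)
        (Finset.mem_range.2 (by omega))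
    have h2 : ∑ m ∈ Finset.range (N + 1), S6_c N p m ≤
        ∑ p ∈ Finset.range (N + 1), ∑ m ∈ Finset.range (N + 1), S6_c N p m :=
      Finset.single_le_sum (f := fun p => ∑ m ∈ Finset.range (N + 1), S6_c N p m)
        (fun i _ => Finset.sum_nonneg fun j _ => S6_c_nonneg N i j) (Finset.mem_range.2 (by omega))
    exact h1.trans h2
  have gw : (0 : ℝ) < ((gr w : ℤ) : ℝ) := by exact_mod_cast gr_pos w hw.1
  have gz : (0 : ℝ) < ((gr (Sum.elim w z) : ℤ) : ℝ) := by exact_mod_cast gr_pos _ hz.1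
  have ga : ∀ j, (0 : ℝ) < ((gr (ad w (y j)) : ℤ) : ℝ) := fun j => by
    exact_mod_cast gr_pos _ (sat_ad hy j).1
  have gprod : (0 : ℝ) < ∏ j, ((gr (ad w (y j)) : ℤ) : ℝ) := Finset.prod_pos fun j _ => ga j
  have hlog := Real.log_le_log (mul_pos gprod gw) hred
  rw [Real.log_mul gprod.ne' gw.ne', Real.log_prod (fun j _ => (ga j).ne'),
    Real.log_mul (by positivity) (by positivity), Real.log_mul (by positivity) gz.ne', Real.log_pow,
    Real.log_pow] at hlog
  have e1 : ∀ j, 2 * hPl (W' ⊔ Submodule.span ℚ {fun c => (y j c : ℚ)}) ≤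
      Real.log ((gr (ad w (y j)) : ℤ) : ℝ) + Real.log ((p + 1).factorial : ℝ) := by
    intro j
    have h := (hPl_gr (sat_ad hy j)).1
    rw [← hadj j] at h
    simpa using h
  have e2 := (hPl_gr hw).1
  have e3 := (hPl_gr hw).2
  have e4 := (hPl_gr hz).2
  rw [hwW] at e2 e3
  rw [hzW] at e4
  have c1 : Fintype.card (Fin p → κ) = N ^ p := by simp [hN]
  have c2 : Fintype.card (Fin p ⊕ Fin m → κ) = N ^ (p + m) := by simp [hN]
  have c3 : Fintype.card (Fin p) = p := Fintype.card_fin p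
  rw [c1] at e3
  rw [c2] at e4
  rw [c3] at e2
  have hsum : ∑ j, (2 * hPl (W' ⊔ Submodule.span ℚ {fun c => (y j c : ℚ)}) - 2 * hPl W') ≤
      ∑ j, (Real.log ((gr (ad w (y j)) : ℤ) : ℝ) + (Real.log ((p + 1).factorial : ℝ) +
        Real.log ((N ^ p : ℕ) : ℝ) - Real.log ((gr w : ℤ) : ℝ))) := by
    apply Finset.sum_le_sum
    intro j _
    have h := e1 j
    linarith
  rw [Finset.sum_add_distrib, Finset.sum_const, Finset.card_univ, Fintype.card_fin, nsmul_eq_mul] at hsum
  have hsum2 : ∑ j, (2 * hPl (W' ⊔ Submodule.span ℚ {fun c => (y j c : ℚ)}) - 2 * hPl W') =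
      2 * ∑ j, (hPl (W' ⊔ Submodule.span ℚ {fun c => (y j c : ℚ)}) - hPl W') := by
    rw [Finset.mul_sum]
    apply Finset.sum_congr rfl
    intro j _
    ring
  rw [hsum2] at hsum
  have hnn := S6_c_nonneg N p m
  have hdef : S6_c N p m = (m : ℝ) ^ 2 * Real.log (4 / 3) + Real.log ((N ^ (p + m) : ℕ) : ℝ) +
      Real.log (p.factorial : ℝ) +
      (m : ℝ) * (Real.log ((p + 1).factorial : ℝ) + Real.log ((N ^ p : ℕ) : ℝ)) := rfl
  push_cast at hlog
  have key : 2 * ∑ j, (hPl (W' ⊔ Submodule.span ℚ {fun c => (y j c : ℚ)}) - hPl W') ≤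
      2 * (hPl W - hPl W') + S6_c N p m := by
    rw [hdef]
    nlinarith [hsum, hlog, e2, e4]
  linarith

end Pool.Agent.Lib.MP_17a322_nt.FQ
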