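import Pool.Agent.Lib.MP_17a322_nt.FQ.S6
import Pool.Agent.Lib.MP_17a322_nt.FQ.A6

namespace Pool.Agent.Lib.MP_17a322_nt.FQ

open Height NumberField
open Pool.Agent.Lib.MP_17a322_nt.EQ

variable {B : Type} [Field B] [Algebra ℚ B] {I : Type} (X : Evl ℚ B I)

/-- The height of the coefficients: if the heights of the values of the linear combinations of linearly
independent vectors are bounded by a multiple of `h`, then the coefficient vectors are, up to scaling,
the values of a vector over `B`. -/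
theorem lift_coeff {Λ : Type} [Fintype Λ] {m : ℕ} (Pi : Fin m → Λ → B) (hPi : LinearIndependent B Pi)
    (x : I → Fin m → ℚ) (hx : ∀ᶠ i in (X.U : Filter I), x i ≠ 0)
    (hb : ∃ C : ℝ, ∀ᶠ i in (X.U : Filter I), logHeight (fun a => ∑ l, x i l * X.ev (Pi l a) i) ≤ C * X.h i) :
    ∃ y : Fin m → B, y ≠ 0 ∧ ∃ c : I → ℚ, ∀ᶠ i in (X.U : Filter I), c i ≠ 0 ∧ ∀ l, X.ev (y l) i = c i * x i l := by
  classical
  obtain ⟨R, hR⟩ : ∃ R : Fin m → Λ → B, ∀ l l', ∑ a, R l a * Pi l' a = if l = l' then 1 else 0 := by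
    obtain ⟨f, hf⟩ : ∃ f : (Fin m → B) →ₗ[B] (Λ → B), f = Fintype.linearCombination B Pi := ⟨_, rfl⟩
    have hinj : LinearMap.ker f = ⊥ := by
      rw [hf, LinearMap.ker_eq_bot]
      exact linearIndependent_iff_injective_fintypeLinearCombination.1 hPi
    obtain ⟨g, hg⟩ := LinearMap.exists_leftInverse_of_injective f hinj
    refine ⟨fun l a => g (fun j => if a = j then 1 else 0) l, fun l l' => ?_⟩
    have h1 : g (Pi l') = _root_.Pi.single l' 1 := by
      have h2 : f (_root_.Pi.single l' 1) = Pi l' := by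
        rw [hf, Fintype.linearCombination_apply_single, one_smul]
      rw [← h2]
      have h3 := LinearMap.congr_fun hg (_root_.Pi.single l' 1)
      exact h3
    have h4 := LinearMap.pi_apply_eq_sum_univ g (Pi l')
    have h5 := congrFun (h4.symm.trans h1) l
    rw [Finset.sum_apply, _root_.Pi.single_apply] at h5
    rw [← h5]
    refine Finset.sum_congr rfl fun a _ => ?_
    rw [_root_.Pi.smul_apply, smul_eq_mul, mul_comm]
  have h1 : ∀ᶠ i in (X.U : Filter I), ∀ l l', ∑ a, X.ev (R l a) i * X.ev (Pi l' a) i = if l = l' then 1 else 0 := by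
    rw [Filter.eventually_all]
    intro l
    rw [Filter.eventually_all]
    intro l'
    have e1 := ev_sum X Finset.univ (fun a => R l a * Pi l' a)
    have e2 : ∀ᶠ i in (X.U : Filter I), ∀ a, X.ev (R l a * Pi l' a) i = X.ev (R l a) i * X.ev (Pi l' a) i :=
      Filter.eventually_all.2 fun a => X.mul _ _
    rw [hR] at e1
    have e3 : ∀ᶠ i in (X.U : Filter I), X.ev (if l = l' then (1 : B) else 0) i = if l = l' then 1 else 0 := by
      by_cases h : l = l'
      · simp only [h, if_true]
        exact ev_one X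
      · simp only [h, if_false]
        exact ev_zero X
    filter_upwards [e1, e2, e3] with i i1 i2 i3
    rw [← i3, i1]
    exact Finset.sum_congr rfl fun a _ => (i2 a).symm
  obtain ⟨C, hC⟩ := hb
  obtain ⟨C1, hC1⟩ := lm_bdd X (fun p : Fin m × Λ => R p.1 p.2)
  have h2 : ∀ᶠ i in (X.U : Filter I), logHeight (x i) ≤ (1 + C1 + C) * X.h i := by
    have e0 := X.top.eventually_ge_atTop (totalWeight ℚ * Real.log (Nat.card Λ))
    filter_upwards [h1, hC, hC1, e0] with i i1 i2 i3 i0
    have e1 : x i = fun l => ∑ a, X.ev (R l a) i * (∑ l', x i l' * X.ev (Pi l' a) i) := by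
      funext l
      have e2 : ∑ a, X.ev (R l a) i * (∑ l', x i l' * X.ev (Pi l' a) i) =
          ∑ l', x i l' * ∑ a, X.ev (R l a) i * X.ev (Pi l' a) i := by
        simp only [Finset.mul_sum]
        rw [Finset.sum_comm]
        exact Finset.sum_congr rfl fun _ _ => Finset.sum_congr rfl fun _ _ => by ring
      rw [e2]
      simp only [i1]
      simp
    have e3 := logHeight_linearMap_apply_le (fun p : Fin m × Λ => X.ev (R p.1 p.2) i)
      (fun a => ∑ l', x i l' * X.ev (Pi l' a) i)
    rw [e1]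
    refine e3.trans ?_
    linarith
  have h3 : ∃ l₀, ∀ᶠ i in (X.U : Filter I), x i l₀ ≠ 0 := by
    have e1 : ∀ᶠ i in (X.U : Filter I), ∃ l, x i l ≠ 0 := by
      filter_upwards [hx] with i hi
      exact Function.ne_iff.1 hi
    exact Ultrafilter.eventually_exists_iff.1 e1
  obtain ⟨l₀, hl₀⟩ := h3
  have h4 : ∀ l, ∃ y : B, ∀ᶠ i in (X.U : Filter I), X.ev y i = x i l / x i l₀ := by
    intro l
    refine X.surj (fun i => x i l / x i l₀) ⟨1 + C1 + C, ?_⟩
    filter_upwards [h2] with i hi
    rw [logHeight₁_div_eq_logHeight]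
    have e1 : ![x i l, x i l₀] = x i ∘ ![l, l₀] := by
      funext j
      fin_cases j <;> rfl
    rw [e1]
    exact (logHeight_comp_le ![l, l₀] (x i)).trans hi
  choose y hy using h4
  refine ⟨y, ?_, fun i => (x i l₀)⁻¹, ?_⟩
  · intro h0
    have e1 := hy l₀
    have e2 : y l₀ = 0 := congrFun h0 l₀
    rw [e2] at e1
    have e3 : ∀ᶠ i in (X.U : Filter I), False := by
      filter_upwards [e1, hl₀, ev_zero X] with i i1 i2 i3
      rw [i3, div_self i2] at i1
      exact zero_ne_one i1
    exact (Filter.eventually_false_iff_eq_bot.1 e3 ▸ X.U.neBot).ne rfl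
  · have e1 : ∀ᶠ i in (X.U : Filter I), ∀ l, X.ev (y l) i = x i l / x i l₀ := Filter.eventually_all.2 hy
    filter_upwards [hl₀, e1] with i i1 i2
    refine ⟨inv_ne_zero i1, fun l => ?_⟩
    rw [i2 l, div_eq_mul_inv, mul_comm]

end Pool.Agent.Lib.MP_17a322_nt.FQ
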