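import Pool.Agent.Lib.MP_17a322_nt.FQ.S7

namespace Pool.Agent.Lib.MP_17a322_nt.FQ

open Height NumberField
open Pool.Agent.Lib.MP_17a322_nt.EQ

/-- The minors are linear in the last row. -/
private theorem S8_lin {F : Type*} [CommRing F] {κ ι : Type*} [Fintype ι] [DecidableEq ι] {m : ℕ}
    (w : ι → κ → F) (z : Fin m → κ → F) (x : Fin m → F) (s : ι ⊕ Unit → κ) :
    mns (ad w fun c => ∑ l, x l * z l c) s = ∑ l, x l * mns (ad w (z l)) s := by
  have key : ∀ v : κ → F, mns (ad w v) s =
      (Matrix.detRowAlternating.toMultilinearMap.toLinearMap (fun a b => ad w 0 a (s b)) (Sum.inr ()))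
        (fun b => v (s b)) := by
    intro v
    rw [MultilinearMap.toLinearMap_apply]
    change (Matrix.of fun a b => ad w v a (s b)).det =
      Matrix.det (Function.update (fun a b => ad w 0 a (s b)) (Sum.inr ()) fun b => v (s b))
    refine congrArg Matrix.det ?_
    funext a b
    rcases a with a | ⟨⟩
    · rw [Function.update_of_ne (by simp)]
      rfl
    · rw [Function.update_self]
      rfl
  rw [key]
  have h1 : (fun b => ∑ l, x l * z l (s b)) = ∑ l, x l • fun b => z l (s b) := by
    funext b
    simp [Finset.sum_apply]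
  rw [h1, map_sum]
  refine Finset.sum_congr rfl fun l _ => ?_
  rw [map_smul, key, smul_eq_mul]

/-- The vectors `w` and a nontrivial combination of the vectors `z`. -/
private theorem S8_indep {F : Type*} [Field F] {κ ι : Type*} {m : ℕ} {w : ι → κ → F} {z : Fin m → κ → F}
    (h : LinearIndependent F (Sum.elim w z)) {x : Fin m → F} (hx : x ≠ 0) :
    LinearIndependent F (ad w fun c => ∑ l, x l * z l c) := by
  rw [linearIndependent_sum] at h
  obtain ⟨h1, h2, h3⟩ := h
  rw [Sum.elim_comp_inl] at h1 h3
  rw [Sum.elim_comp_inr] at h2 h3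
  have hv : (fun c => ∑ l, x l * z l c) = ∑ l, x l • z l := by
    funext c
    simp [Finset.sum_apply]
  have hmem : (fun c => ∑ l, x l * z l c) ∈ Submodule.span F (Set.range z) := by
    rw [hv]
    exact Submodule.sum_mem _ fun l _ => Submodule.smul_mem _ _ (Submodule.subset_span ⟨l, rfl⟩)
  have hne : (fun c => ∑ l, x l * z l c) ≠ 0 := by
    rw [hv]
    intro h0
    exact hx (funext fun l => Fintype.linearIndependent_iff.mp h2 x h0 l)
  refine LinearIndependent.sum_type h1 ?_ ?_
  · rw [linearIndependent_unique_iff]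
    exact hne
  · refine h3.mono_right ?_
    rw [Submodule.span_le]
    rintro _ ⟨_, rfl⟩
    exact hmem

/-- The span of `w` and one more vector. -/
private theorem S8_span {F : Type*} [Field F] {κ ι : Type*} (w : ι → κ → F) (v : κ → F) :
    Submodule.span F (Set.range (ad w v)) =
      Submodule.span F (Set.range w) ⊔ Submodule.span F {v} := by
  unfold ad
  rw [Set.Sum.elim_range, Submodule.span_union, Set.range_const]

/-- A vector may be changed by an element of the subspace. -/
private theorem S8_sup {F : Type*} [Field F] {κ : Type*} (W : Submodule F (κ → F)) {u v : κ → F} (h : u - v ∈ W) :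
    W ⊔ Submodule.span F {u} = W ⊔ Submodule.span F {v} := by
  have key : ∀ u v : κ → F, u - v ∈ W → W ⊔ Submodule.span F {u} ≤ W ⊔ Submodule.span F {v} := by
    intro u v h
    refine sup_le le_sup_left ?_
    rw [Submodule.span_singleton_le_iff_mem]
    have h1 : u = (u - v) + v := by abel
    rw [h1]
    exact Submodule.add_mem_sup h (Submodule.mem_span_singleton_self v)
  refine le_antisymm (key u v h) (key v u ?_)
  rw [← neg_sub]
  exact W.neg_mem h

/-- A multiple of a vector spans the same line. -/
private theorem S8_scale {F : Type*} [Field F] {κ : Type*} (W : Submodule F (κ → F)) {u : κ → F} {c : F} (h : c ≠ 0) :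
    W ⊔ Submodule.span F {c • u} = W ⊔ Submodule.span F {u} := by
  rw [Submodule.span_singleton_smul_eq (isUnit_iff_ne_zero.mpr h)]

/-- The reduction theory for two families of rational vectors. -/
private theorem S8_pure (κ ι : Type) [Fintype κ] [Fintype ι] [DecidableEq ι] (m : ℕ) :
    ∃ C : ℝ, ∀ (w : ι → κ → ℚ) (z : Fin m → κ → ℚ), LinearIndependent ℚ (Sum.elim w z) →
      ∃ t : Matrix (Fin m) (Fin m) ℚ, t.det ≠ 0 ∧
        ∑ j, (hPl (Submodule.span ℚ (Set.range (ad w fun c => ∑ l, t j l * z l c))) -
          hPl (Submodule.span ℚ (Set.range w))) ≤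
          hPl (Submodule.span ℚ (Set.range (Sum.elim w z))) - hPl (Submodule.span ℚ (Set.range w)) + C := by
  classical
  obtain ⟨C, hC⟩ := split_hPl κ
  refine ⟨C, fun w z h => ?_⟩
  have h0 := h
  rw [linearIndependent_sum] at h
  obtain ⟨h1, h2, h3⟩ := h
  rw [Sum.elim_comp_inl] at h1 h3
  rw [Sum.elim_comp_inr] at h2 h3
  have hle : Submodule.span ℚ (Set.range w) ≤ Submodule.span ℚ (Set.range (Sum.elim w z)) := by
    rw [Set.Sum.elim_range, Submodule.span_union]
    exact le_sup_left
  have hf1 : Module.finrank ℚ (Submodule.span ℚ (Set.range w)) = Fintype.card ι := finrank_span_eq_card h1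
  have hf2 : Module.finrank ℚ (Submodule.span ℚ (Set.range (Sum.elim w z))) = Fintype.card ι + m := by
    rw [finrank_span_eq_card h0, Fintype.card_sum, Fintype.card_fin]
  obtain ⟨y, hy, hin⟩ := hC _ _ hle m (by rw [hf1, hf2])
  have hcoef : ∀ j, ∃ t : Fin m → ℚ, y j - (fun c => ∑ l, t l * z l c) ∈ Submodule.span ℚ (Set.range w) := by
    intro j
    have hj : y j ∈ Submodule.span ℚ (Set.range (Sum.elim w z)) := by
      rw [← hy]
      exact Submodule.mem_sup_right (Submodule.subset_span ⟨j, rfl⟩)
    rw [Submodule.mem_span_range_iff_exists_fun] at hj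
    obtain ⟨c, hc⟩ := hj
    refine ⟨fun l => c (Sum.inr l), ?_⟩
    rw [Fintype.sum_sum_type] at hc
    have hv : (fun b => ∑ l, c (Sum.inr l) * z l b) = ∑ l, c (Sum.inr l) • z l := by
      funext b
      simp [Finset.sum_apply]
    rw [hv, ← hc]
    simp only [Sum.elim_inl, Sum.elim_inr, add_sub_cancel_right]
    exact Submodule.sum_mem _ fun l _ => Submodule.smul_mem _ _ (Submodule.subset_span ⟨l, rfl⟩)
  choose t ht using hcoef
  have hLI : LinearIndependent ℚ (Sum.elim w y) := by
    rw [linearIndependent_iff_card_eq_finrank_span]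
    unfold Set.finrank
    rw [Set.Sum.elim_range, Submodule.span_union, hy, hf2, Fintype.card_sum, Fintype.card_fin]
  rw [linearIndependent_sum] at hLI
  obtain ⟨_, g2, g3⟩ := hLI
  rw [Sum.elim_comp_inl] at g3
  rw [Sum.elim_comp_inr] at g2 g3
  refine ⟨Matrix.of t, ?_, ?_⟩
  · intro hdet
    obtain ⟨c, hc0, hc⟩ := Matrix.exists_vecMul_eq_zero_iff.mpr hdet
    have hsum : ∑ j, c j • y j ∈ Submodule.span ℚ (Set.range w) := by
      have e1 : ∑ j, c j • y j = ∑ j, c j • (y j - fun b => ∑ l, t j l * z l b) := by
        have e2 : ∑ j, c j • (fun b => ∑ l, t j l * z l b) = (0 : κ → ℚ) := by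
          funext b
          have e3 : ∀ l, ∑ j, c j * t j l = 0 := by
            intro l
            have := congrFun hc l
            simpa [Matrix.vecMul, dotProduct] using this
          calc (∑ j, c j • (fun b => ∑ l, t j l * z l b)) b = ∑ j, ∑ l, c j * (t j l * z l b) := by
                simp [Finset.sum_apply, Finset.mul_sum]
            _ = ∑ l, (∑ j, c j * t j l) * z l b := by
                rw [Finset.sum_comm]
                refine Finset.sum_congr rfl fun l _ => ?_
                rw [Finset.sum_mul]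
                exact Finset.sum_congr rfl fun j _ => by ring
            _ = 0 := by simp [e3]
        simp only [smul_sub, Finset.sum_sub_distrib, e2, sub_zero]
      rw [e1]
      exact Submodule.sum_mem _ fun j _ => Submodule.smul_mem _ _ (ht j)
    have hsum' : ∑ j, c j • y j ∈ Submodule.span ℚ (Set.range y) :=
      Submodule.sum_mem _ fun j _ => Submodule.smul_mem _ _ (Submodule.subset_span ⟨j, rfl⟩)
    have hz : ∑ j, c j • y j = 0 := Submodule.disjoint_def.mp g3 _ hsum hsum'
    exact hc0 (funext fun j => Fintype.linearIndependent_iff.mp g2 c hz j)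
  · have hsp : ∀ j, Submodule.span ℚ (Set.range w) ⊔ Submodule.span ℚ {y j} =
        Submodule.span ℚ (Set.range (ad w fun c => ∑ l, Matrix.of t j l * z l c)) := by
      intro j
      rw [S8_span, S8_sup _ (ht j)]
      rfl
    simp only [hsp] at hin
    exact hin

/-- The values of the minors are the minors of the values. -/
private theorem S8_ev_mns {B : Type} [Field B] [Algebra ℚ B] {I : Type} (X : Evl ℚ B I) {κ ι : Type} [Fintype κ]
    [Fintype ι] [DecidableEq ι] (y : ι → κ → B) :
    ∀ᶠ i in (X.U : Filter I), ∀ s, X.ev (mns y s) i = mns (fun a b => X.ev (y a b) i) s := by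
  rw [Filter.eventually_all]
  intro s
  exact ev_det X _

variable {B : Type} [Field B] [Algebra ℚ B] {I : Type} (X : Evl ℚ B I)

/-- The splitting of one level over the big field. -/
theorem split_level {κ ι : Type} [Fintype κ] [Fintype ι] [DecidableEq ι] {m : ℕ} (w : ι → κ → B) (z : Fin m → κ → B)
    (h : LinearIndependent B (Sum.elim w z)) :
    ∃ x : Matrix (Fin m) (Fin m) B, x.det ≠ 0 ∧
      ∑ j, (X.lm (mns (ad w (fun c => ∑ l, x j l * z l c))) - X.lm (mns w)) ≤
        X.lm (mns (Sum.elim w z)) - X.lm (mns w) := by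
  classical
  have hw : LinearIndependent B w := by
    have h1 := h.comp Sum.inl Sum.inl_injective
    rwa [Sum.elim_comp_inl] at h1
  have hnn : ∀ V : Submodule ℚ (κ → ℚ), 0 ≤ hPl V := fun V => logHeight_nonneg _
  have hev1 : ∀ i, (fun a b => X.ev (Sum.elim w z a b) i) =
      Sum.elim (fun a b => X.ev (w a b) i) (fun l b => X.ev (z l b) i) := by
    intro i
    funext a b
    rcases a with a | a <;> rfl
  have E1 : ∀ᶠ i in (X.U : Filter I),
      LinearIndependent ℚ (Sum.elim (fun a b => X.ev (w a b) i) (fun l b => X.ev (z l b) i)) := by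
    filter_upwards [ev_indep X (Sum.elim w z) h] with i hi
    rwa [hev1] at hi
  obtain ⟨C, hC⟩ := S8_pure κ ι m
  have hex : ∀ i, ∃ t : Matrix (Fin m) (Fin m) ℚ,
      LinearIndependent ℚ (Sum.elim (fun a b => X.ev (w a b) i) (fun l b => X.ev (z l b) i)) →
      t.det ≠ 0 ∧
        ∑ j, (hPl (Submodule.span ℚ (Set.range (ad (fun a b => X.ev (w a b) i)
          fun c => ∑ l, t j l * X.ev (z l c) i))) -
          hPl (Submodule.span ℚ (Set.range fun a b => X.ev (w a b) i))) ≤
          hPl (Submodule.span ℚ (Set.range (Sum.elim (fun a b => X.ev (w a b) i) (fun l b => X.ev (z l b) i)))) -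
            hPl (Submodule.span ℚ (Set.range fun a b => X.ev (w a b) i)) + C := by
    intro i
    by_cases hi : LinearIndependent ℚ (Sum.elim (fun a b => X.ev (w a b) i) (fun l b => X.ev (z l b) i))
    · obtain ⟨t, ht⟩ := hC _ _ hi
      exact ⟨t, fun _ => ht⟩
    · exact ⟨0, fun hi' => absurd hi' hi⟩
  choose t ht using hex
  have hrow : ∀ i, (t i).det ≠ 0 → ∀ j, t i j ≠ 0 := by
    intro i hi j hj
    exact hi (Matrix.det_eq_zero_of_row_eq_zero j fun l => congrFun hj l)
  have Epos := ev_pos X
  -- the heights of the spans of `w` and of `w, z`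
  obtain ⟨C1, hC1⟩ := lm_bdd X (mns (Sum.elim w z))
  obtain ⟨C2, hC2⟩ := lm_bdd X (mns w)
  have E2 := ev_hPl X (Sum.elim w z) h
  have E3 := ev_hPl X w hw
  have hlift : ∀ j : Fin m, ∃ y : Fin m → B, y ≠ 0 ∧ ∃ c : I → ℚ, ∀ᶠ i in (X.U : Filter I),
      c i ≠ 0 ∧ ∀ l, X.ev (y l) i = c i * t i j l := by
    intro j
    refine lift_coeff X (fun l => mns (ad w (z l))) ?_ (fun i => t i j) ?_ ?_
    · rw [Fintype.linearIndependent_iff]
      intro g hg
      by_contra hcon
      have hg0 : g ≠ 0 := fun h0 => hcon fun l => congrFun h0 l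
      refine mns_ne (S8_indep h hg0) ?_
      funext s
      rw [S8_lin]
      have := congrFun hg s
      simpa [Finset.sum_apply] using this
    · filter_upwards [E1] with i hi
      exact hrow i (ht i hi).1 j
    · refine ⟨C1 + m * C2 + |C|, ?_⟩
      have E4 : ∀ᶠ i in (X.U : Filter I), ∀ l, ∀ s, X.ev (mns (ad w (z l)) s) i =
          mns (fun a b => X.ev (ad w (z l) a b) i) s := by
        rw [Filter.eventually_all]
        intro l
        exact S8_ev_mns X (ad w (z l))
      have E5 : ∀ᶠ i in (X.U : Filter I), 1 ≤ X.h i := X.top.eventually_ge_atTop 1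
      filter_upwards [E1, hC1, hC2, E2, E3, E4, E5] with i hi a1 a2 a3 a4 a5 a6
      obtain ⟨b1, b2⟩ := ht i hi
      have e1 : (fun s => ∑ l, t i j l * X.ev (mns (ad w (z l)) s) i) =
          mns (ad (fun a b => X.ev (w a b) i) fun c => ∑ l, t i j l * X.ev (z l c) i) := by
        funext s
        rw [S8_lin (fun a b => X.ev (w a b) i) (fun l c => X.ev (z l c) i) (t i j) s]
        refine Finset.sum_congr rfl fun l _ => ?_
        rw [a5 l s]
        refine congrArg (fun q => t i j l * mns q s) ?_
        funext a b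
        rcases a with a | a <;> rfl
      rw [e1, ← hPl_span _ (S8_indep hi (hrow i b1 j))]
      rw [hev1] at a3
      rw [Finset.sum_sub_distrib, Finset.sum_const, Finset.card_univ, Fintype.card_fin, nsmul_eq_mul] at b2
      have c1 := Finset.single_le_sum (f := fun j => hPl (Submodule.span ℚ (Set.range (ad (fun a b => X.ev (w a b) i)
          fun c => ∑ l, t i j l * X.ev (z l c) i)))) (fun j _ => hnn _) (Finset.mem_univ j)
      have c2 := hnn (Submodule.span ℚ (Set.range fun a b => X.ev (w a b) i))
      have c3 : C ≤ |C| := le_abs_self C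
      have c4 : |C| ≤ |C| * X.h i := le_mul_of_one_le_right (abs_nonneg C) a6
      have c5 : (m : ℝ) * hPl (Submodule.span ℚ (Set.range fun a b => X.ev (w a b) i)) ≤ m * (C2 * X.h i) := by
        rw [← a4]
        exact mul_le_mul_of_nonneg_left a2 (Nat.cast_nonneg m)
      rw [← a3] at b2
      calc _ ≤ _ := c1
        _ ≤ C1 * X.h i + m * (C2 * X.h i) + |C| * X.h i := by linarith
        _ = (C1 + m * C2 + |C|) * X.h i := by ring
  choose x hx0 c hxc using hlift
  refine ⟨Matrix.of x, ?_, ?_⟩
  · intro hdet
    have F1 := ev_det X (Matrix.of x)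
    have F2 := ev_zero X
    have F3 : ∀ᶠ i in (X.U : Filter I), ∀ j, c j i ≠ 0 ∧ ∀ l, X.ev (x j l) i = c j i * t i j l := by
      rw [Filter.eventually_all]
      exact hxc
    obtain ⟨i, f0, f1, f2, f3⟩ := (E1.and (F1.and (F2.and F3))).exists
    rw [hdet, f2] at f1
    have e1 : (Matrix.of fun a b => X.ev (Matrix.of x a b) i) = Matrix.of fun a b => c a i * t i a b := by
      ext a b
      simp only [Matrix.of_apply]
      exact (f3 a).2 b
    rw [e1, Matrix.det_mul_column] at f1
    exact mul_ne_zero (Finset.prod_ne_zero_iff.mpr fun a _ => (f3 a).1) (ht i f0).1 f1.symm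
  · have G1 : ∀ j, Filter.Tendsto (fun i => hPl (Submodule.span ℚ (Set.range (ad (fun a b => X.ev (w a b) i)
        fun c => ∑ l, t i j l * X.ev (z l c) i))) / X.h i) (X.U : Filter I)
        (nhds (X.lm (mns (ad w fun c => ∑ l, Matrix.of x j l * z l c)))) := by
      intro j
      refine (lm_hPl X _ (S8_indep h (hx0 j))).congr' ?_
      have H1 : ∀ᶠ i in (X.U : Filter I), ∀ b, X.ev (∑ l, x j l * z l b) i = ∑ l, X.ev (x j l * z l b) i := by
        rw [Filter.eventually_all]
        intro b
        exact ev_sum X _ _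
      have H2 : ∀ᶠ i in (X.U : Filter I), ∀ b l, X.ev (x j l * z l b) i = X.ev (x j l) i * X.ev (z l b) i := by
        rw [Filter.eventually_all]
        intro b
        rw [Filter.eventually_all]
        intro l
        exact X.mul _ _
      filter_upwards [hxc j, H1, H2] with i a1 a2 a3
      refine congrArg (fun q => hPl q / X.h i) ?_
      have e1 : (fun a b => X.ev (ad w (fun c => ∑ l, x j l * z l c) a b) i) =
          ad (fun a b => X.ev (w a b) i) (c j i • fun b => ∑ l, t i j l * X.ev (z l b) i) := by
        funext a b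
        rcases a with a | a
        · rfl
        · change X.ev (∑ l, x j l * z l b) i = c j i * ∑ l, t i j l * X.ev (z l b) i
          rw [a2 b, Finset.mul_sum]
          refine Finset.sum_congr rfl fun l _ => ?_
          rw [a3 b l, a1.2 l]
          ring
      rw [e1, S8_span, S8_scale _ a1.1, ← S8_span]
    have G2 := lm_hPl X w hw
    have G3 := lm_hPl X (Sum.elim w z) h
    have G4 : Filter.Tendsto (fun i => C / X.h i) (X.U : Filter I) (nhds 0) := X.top.const_div_atTop C
    have L1 := tendsto_finsetSum (Finset.univ : Finset (Fin m)) fun j _ => (G1 j).sub G2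
    have L2 := (G3.sub G2).add G4
    rw [add_zero] at L2
    refine le_of_tendsto_of_tendsto L1 L2 ?_
    filter_upwards [E1, Epos] with i hi hpos
    have b2 := (ht i hi).2
    simp only [hev1]
    rw [← sub_div, ← add_div]
    simp only [← sub_div]
    rw [← Finset.sum_div]
    exact div_le_div_of_nonneg_right b2 hpos.le

end Pool.Agent.Lib.MP_17a322_nt.FQ
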