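import Pool.Agent.Lib.MP_17a322_nt.FQ.A4
import Pool.Agent.Lib.MP_17a322_nt.FQ.S0
import Pool.Agent.Lib.MP_17a322_nt.FQ.K0

namespace Pool.Agent.Lib.MP_17a322_nt.FQ

private theorem T0_row {B : Type*} [Field B] {κ ι : Type*} [Fintype ι]
    [DecidableEq ι] (w : ι → κ → B) (u : κ → B) (x : ι → B) :
    mns (ad w (fun c => u c + ∑ j, x j * w j c)) = mns (ad w u) := by
  funext s
  unfold mns
  have h : (Matrix.of fun a b => ad w (fun c => u c + ∑ j, x j * w j c) a (s b)) =
      Matrix.fromBlocks 1 0 (Matrix.of fun (_ : Unit) (j : ι) => x j) 1 *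
        (Matrix.of fun a b => ad w u a (s b)) := by
    ext a b
    rw [Matrix.mul_apply, Fintype.sum_sum_type]
    rcases a with a | a
    · simp only [Matrix.of_apply, ad, Sum.elim_inl, Matrix.fromBlocks_apply₁₁,
        Matrix.fromBlocks_apply₁₂, Matrix.zero_apply, zero_mul, Finset.sum_const_zero, add_zero]
      rw [Finset.sum_eq_single a]
      · simp
      · intro j _ hj
        rw [Matrix.one_apply_ne (Ne.symm hj), zero_mul]
      · intro h
        exact absurd (Finset.mem_univ a) h
    · simp only [Matrix.of_apply, ad, Sum.elim_inr, Sum.elim_inl, Matrix.fromBlocks_apply₂₁,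
        Matrix.fromBlocks_apply₂₂, Finset.univ_unique, Finset.sum_singleton]
      have : (1 : Matrix Unit Unit B) a default = 1 := by
        rw [Subsingleton.elim a default, Matrix.one_apply_eq]
      rw [this, one_mul, add_comm]
  rw [h, Matrix.det_mul, Matrix.det_fromBlocks_zero₁₂]
  simp

private theorem T0_low {B : Type*} [Field B] {κ ι : Type*} [Fintype ι]
    [DecidableEq ι] (w : ι → κ → B) (u : κ → B) (s : ι → κ) (hs : ∀ b, u (s b) = 0) (c : κ) :
    mns (ad w u) (Sum.elim s fun _ => c) = mns w s * u c := by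
  unfold mns
  have h : (Matrix.of fun a b => ad w u a (Sum.elim s (fun _ => c) b)) =
      Matrix.fromBlocks (Matrix.of fun a b => w a (s b)) (Matrix.of fun (a : ι) (_ : Unit) => w a c) 0
        (Matrix.of fun (_ _ : Unit) => u c) := by
    ext a b
    rcases a with a | a <;> rcases b with b | b <;> simp [ad, hs]
  rw [h, Matrix.det_fromBlocks_zero₂₁]
  simp

private theorem T0_adj {B : Type*} [Field B] (A : ValuationSubring B) {κ ι : Type*} [Fintype κ] [Fintype ι]
    [DecidableEq ι] [DecidableEq κ] (w : ι → κ → B) (u : κ → B) (s : ι ⊕ Unit → κ) (b : ι ⊕ Unit) :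
    A.valuation ((Matrix.of fun a b => ad w u a (s b)).adjugate b (Sum.inr ())) ≤ nA A (mns w) := by
  rw [Matrix.adjugate_apply]
  obtain ⟨σ, hσ⟩ : ∃ σ : Equiv.Perm (ι ⊕ Unit), σ = Equiv.swap b (Sum.inr ()) := ⟨_, rfl⟩
  have hσ1 : σ (Sum.inr ()) = b := by
    rw [hσ, Equiv.swap_apply_right]
  obtain ⟨N, hN⟩ : ∃ N, N = (Matrix.of fun a b => ad w u a (s b)).updateRow (Sum.inr ())
    (Pi.single b (1 : B)) := ⟨_, rfl⟩
  rw [← hN]
  have h1 : (N.submatrix id σ).det = Equiv.Perm.sign σ * N.det := Matrix.det_permute' σ N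
  have h2 : N.submatrix id σ = Matrix.fromBlocks (Matrix.of fun a b' => w a (s (σ (Sum.inl b'))))
      (Matrix.of fun (a : ι) (_ : Unit) => w a (s b)) 0 (1 : Matrix Unit Unit B) := by
    ext a b'
    rw [Matrix.submatrix_apply, id_eq, hN]
    rcases a with a | a
    · rw [Matrix.updateRow_ne (by simp)]
      rcases b' with b' | b'
      · simp [ad]
      · rw [Subsingleton.elim b' ()]
        simp [ad, hσ1]
    · rw [Subsingleton.elim a (), Matrix.updateRow_self]
      rcases b' with b' | b'
      · rw [Matrix.fromBlocks_apply₂₁, Matrix.zero_apply, Pi.single_eq_of_ne]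
        rw [← hσ1]
        intro h
        exact absurd (σ.injective h) (by simp)
      · rw [Subsingleton.elim b' (), Matrix.fromBlocks_apply₂₂, hσ1, Pi.single_eq_same,
          Matrix.one_apply_eq]
  rw [h2, Matrix.det_fromBlocks_zero₂₁, Matrix.det_one, mul_one] at h1
  have h3 : A.valuation N.det = A.valuation (mns w fun b' => s (σ (Sum.inl b'))) := by
    unfold mns
    rw [h1]
    rcases Int.units_eq_one_or (Equiv.Perm.sign σ) with h | h
    · rw [h]
      simp
    · rw [h]
      simp [Valuation.map_neg]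
  rw [h3]
  exact val_le_nA A (mns w) _

private theorem T0_minorF {F : Type*} [Field F] {κ : Type*} [Fintype κ] {r : ℕ} {y : Fin r → κ → F}
    (hi : LinearIndependent F y) : ∃ s : Fin r → κ, (Matrix.of fun a b => y a (s b)).det ≠ 0 := by
  obtain ⟨M, hM⟩ : ∃ M : Matrix (Fin r) κ F, M = Matrix.of y := ⟨_, rfl⟩
  have hMa : ∀ a k, M a k = y a k := by
    intro a k
    rw [hM]
    rfl
  have hrank : M.rank = r := by
    have h1 : LinearIndependent F M.row := by
      rw [hM]
      exact hi
    rw [h1.rank_matrix, Fintype.card_fin]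
  have hfin : Module.finrank F (Submodule.span F (Set.range M.col)) = r := by
    rw [← Matrix.rank_eq_finrank_span_cols, hrank]
  obtain ⟨f, hf1, hf2, hf3⟩ := Submodule.exists_fun_fin_finrank_span_eq F (Set.range M.col)
  choose t ht using hf1
  refine ⟨fun b => t (Fin.cast hfin.symm b), ?_⟩
  have h2 : LinearIndependent F (fun b : Fin r => f (Fin.cast hfin.symm b)) :=
    hf3.comp _ (Fin.cast_injective _)
  have h3 : IsUnit (Matrix.of fun (a : Fin r) (b : Fin r) => y a (t (Fin.cast hfin.symm b))) := by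
    rw [← Matrix.linearIndependent_cols_iff_isUnit]
    have h4 : (Matrix.of fun (a : Fin r) (b : Fin r) => y a (t (Fin.cast hfin.symm b))).col =
        fun b : Fin r => f (Fin.cast hfin.symm b) := by
      funext b a
      have h5 := congrFun (ht (Fin.cast hfin.symm b)) a
      refine Eq.trans ?_ h5
      exact (hMa a _).symm
    rw [h4]
    exact h2
  exact ((Matrix.isUnit_iff_isUnit_det _).1 h3).ne_zero

private theorem T0_minor {B : Type*} [Field B] {κ ι : Type*} [Fintype κ] [Fintype ι]
    [DecidableEq ι] (w : ι → κ → B) (hw : LinearIndependent B w) : ∃ s : ι → κ, mns w s ≠ 0 := by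
  obtain ⟨s, hs⟩ := T0_minorF (hw.comp _ (Fintype.equivFin ι).symm.injective)
  refine ⟨fun b => s (Fintype.equivFin ι b), ?_⟩
  unfold mns
  rw [← Matrix.det_submatrix_equiv_self (Fintype.equivFin ι).symm]
  have h : (Matrix.of fun a b => w a (s (Fintype.equivFin ι b))).submatrix (Fintype.equivFin ι).symm
      (Fintype.equivFin ι).symm = Matrix.of fun a b => (w ∘ (Fintype.equivFin ι).symm) a (s b) := by
    ext a b
    simp
  rw [h]
  exact hs

/-- The norm on the quotient by the span of `w`. -/
theorem quot_attained {B : Type*} [Field B] (A : ValuationSubring B) {κ ι : Type*} [Fintype κ] [Fintype ι]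
    [DecidableEq ι] [DecidableEq κ] (w : ι → κ → B) (hw : LinearIndependent B w) (u : κ → B) :
    ∃ x : ι → B, nA A (fun c => u c + ∑ j, x j * w j c) * nA A (mns w) = nA A (mns (ad w u)) := by
  obtain ⟨s₀, hs₀⟩ := T0_minor w hw
  have : Nonempty (ι → κ) := ⟨s₀⟩
  obtain ⟨s, hs⟩ := nA_attained A (mns w)
  have hne : mns w s ≠ 0 := by
    intro h0
    rw [h0, map_zero, nA_eq_zero] at hs
    exact hs₀ (congrFun hs s₀)
  obtain ⟨W, hW⟩ : ∃ W : Matrix ι ι B, W = Matrix.of fun a b => w a (s b) := ⟨_, rfl⟩
  have hWdet : IsUnit W.det := by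
    rw [hW]
    exact isUnit_iff_ne_zero.2 hne
  obtain ⟨x, hx⟩ : ∃ x : ι → B, x = Matrix.vecMul (fun b => - u (s b)) W⁻¹ := ⟨_, rfl⟩
  have hxW : Matrix.vecMul x W = fun b => - u (s b) := by
    rw [hx, Matrix.vecMul_vecMul, Matrix.nonsing_inv_mul W hWdet, Matrix.vecMul_one]
  obtain ⟨u', hu'⟩ : ∃ u' : κ → B, u' = fun c => u c + ∑ j, x j * w j c := ⟨_, rfl⟩
  have hu0 : ∀ b, u' (s b) = 0 := by
    intro b
    have h1 := congrFun hxW b
    rw [Matrix.vecMul, dotProduct] at h1
    rw [hu']
    show u (s b) + ∑ j, x j * w j (s b) = 0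
    rw [hW] at h1
    simp only [Matrix.of_apply] at h1
    rw [h1]
    ring
  refine ⟨x, ?_⟩
  rw [← T0_row w u x, ← hu']
  refine le_antisymm ?_ ?_
  · rw [hs, mul_comm, ← nA_smul, nA_le_iff]
    intro c
    rw [← T0_low w u' s hu0 c]
    exact val_le_nA A (mns (ad w u')) _
  · rw [nA_le_iff]
    intro s'
    unfold mns
    rw [Matrix.det_eq_sum_mul_adjugate_row _ (Sum.inr ())]
    refine Valuation.map_sum_le _ fun b _ => ?_
    rw [map_mul]
    refine mul_le_mul' ?_ ?_
    · exact val_le_nA A u' (s' b)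
    · exact T0_adj A w u' s' b

private theorem T0_abel {ρ : Type*} [Fintype ρ] [DecidableEq ρ] (a : ρ → ℝ) (ha : ∀ j, 0 ≤ a j)
    (Φ : Finset ρ → ℝ) (g : ℝ)
    (h : ∀ t : ℝ, g * (Finset.univ.filter fun i => t ≤ a i).card ≤
      Φ (Finset.univ.filter fun i => a i < t) - Φ Finset.univ) (s : Finset ℝ) :
    s ⊆ Finset.univ.image a → (∀ t ∈ s, ∀ i, a i ≤ t → a i ∈ s) → ∀ M ∈ s, (∀ t ∈ s, t ≤ M) →
      g * ∑ i, min (a i) M ≤ ∑ t ∈ s,
        t * (Φ (Finset.univ.filter fun i => a i < t) - Φ (Finset.univ.filter fun i => a i ≤ t)) +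
          M * (Φ (Finset.univ.filter fun i => a i ≤ M) - Φ Finset.univ) := by
  induction s using Finset.induction_on_max with
  | empty =>
    intro _ _ M hM
    exact absurd hM (Finset.notMem_empty M)
  | insert N s hN ih =>
    intro hs hd M hM hmax
    have hMN : M = N := by
      rcases Finset.mem_insert.1 hM with h1 | h1
      · exact h1
      · exact absurd (hmax N (Finset.mem_insert_self N s)) (not_le.2 (hN M h1))
    subst hMN
    have hNs : M ∉ s := fun h1 => lt_irrefl _ (hN M h1)
    rw [Finset.sum_insert hNs]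
    have hM0 : 0 ≤ M := by
      obtain ⟨i, _, hi⟩ := Finset.mem_image.1 (hs hM)
      rw [← hi]
      exact ha i
    have hh := h M
    have hcard : ∀ m : ℝ, m ≤ M → (∀ i, a i < M → a i ≤ m) →
        ∑ i, min (a i) M = ∑ i, min (a i) m + (M - m) * (Finset.univ.filter fun i => M ≤ a i).card := by
      intro m hm hlt
      have e1 : ∀ i, min (a i) M = min (a i) m + if M ≤ a i then (M - m) else 0 := by
        intro i
        by_cases hi : M ≤ a i
        · rw [if_pos hi, min_eq_right hi, min_eq_right (hm.trans hi)]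
          ring
        · rw [if_neg hi, min_eq_left (not_le.1 hi).le, min_eq_left (hlt i (not_le.1 hi)), add_zero]
      rw [Finset.sum_congr rfl fun i _ => e1 i, Finset.sum_add_distrib, ← Finset.sum_filter,
        Finset.sum_const, nsmul_eq_mul]
      ring
    rcases s.eq_empty_or_nonempty with h0 | hne
    · subst h0
      have hall : ∀ i, M ≤ a i := by
        intro i
        by_contra hi
        have := hd M hM i (not_le.1 hi).le
        simp only [insert_empty_eq, Finset.mem_singleton] at this
        exact hi this.ge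
      have e1 := hcard 0 hM0 fun i hi => absurd (hall i) (not_le.2 hi)
      have e2 : ∑ i, min (a i) 0 = 0 := Finset.sum_eq_zero fun i _ => min_eq_right (ha i)
      rw [e2, zero_add, sub_zero] at e1
      rw [e1, Finset.sum_empty]
      nlinarith [mul_le_mul_of_nonneg_left hh hM0]
    · obtain ⟨m, hm⟩ : ∃ m, m = s.max' hne := ⟨_, rfl⟩
      have hms : m ∈ s := by
        rw [hm]
        exact s.max'_mem hne
      have hmM : m < M := hN m hms
      have hlt : ∀ i, a i < M → a i ≤ m := by
        intro i hi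
        have h1 := hd M hM i hi.le
        rcases Finset.mem_insert.1 h1 with h2 | h2
        · exact absurd h2 hi.ne
        · rw [hm]
          exact s.le_max' _ h2
      have h2 := ih (fun t ht => hs (Finset.mem_insert_of_mem ht)) (by
        intro t ht i hi
        have h1 := hd t (Finset.mem_insert_of_mem ht) i hi
        rcases Finset.mem_insert.1 h1 with h2 | h2
        · have := hN t ht
          linarith
        · exact h2) m hms (fun t ht => by
          rw [hm]
          exact s.le_max' t ht)
      have e1 := hcard m hmM.le hlt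
      have e3 : (Finset.univ.filter fun i => a i ≤ m) = Finset.univ.filter fun i => a i < M := by
        refine Finset.filter_congr fun i _ => ⟨fun h1 => lt_of_le_of_lt h1 hmM, fun h1 => hlt i h1⟩
      rw [e3] at h2
      rw [e1]
      have h3 := mul_le_mul_of_nonneg_left hh (sub_pos.2 hmM).le
      nlinarith [h2, h3]

/-- The sum over the levels. -/
theorem abel {ρ : Type*} [Fintype ρ] [DecidableEq ρ] (a : ρ → ℝ) (ha : ∀ j, 0 ≤ a j) (Φ : Finset ρ → ℝ) (g : ℝ)
    (h : ∀ t : ℝ, g * (Finset.univ.filter fun i => t ≤ a i).card ≤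
      Φ (Finset.univ.filter fun i => a i < t) - Φ Finset.univ) :
    g * ∑ j, a j ≤ ∑ t ∈ Finset.univ.image a,
      t * (Φ (Finset.univ.filter fun i => a i < t) - Φ (Finset.univ.filter fun i => a i ≤ t)) := by
  rcases (Finset.univ.image a).eq_empty_or_nonempty with h0 | hne
  · rw [h0, Finset.sum_empty]
    have h1 : (Finset.univ : Finset ρ) = ∅ := Finset.image_eq_empty.1 h0
    rw [h1, Finset.sum_empty, mul_zero]
  · obtain ⟨M, hM⟩ : ∃ M, M = (Finset.univ.image a).max' hne := ⟨_, rfl⟩
    have hMm : M ∈ Finset.univ.image a := by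
      rw [hM]
      exact Finset.max'_mem _ hne
    have hle : ∀ i, a i ≤ M := by
      intro i
      rw [hM]
      exact Finset.le_max' _ _ (Finset.mem_image_of_mem a (Finset.mem_univ i))
    have h1 := T0_abel a ha Φ g h (Finset.univ.image a) (Finset.Subset.refl _)
      (fun t _ i _ => Finset.mem_image_of_mem a (Finset.mem_univ i)) M hMm (fun t ht => by
        rw [hM]
        exact Finset.le_max' _ t ht)
    have e1 : (Finset.univ.filter fun i => a i ≤ M) = Finset.univ :=
      Finset.filter_true_of_mem fun i _ => hle i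
    rw [e1, sub_self, mul_zero, add_zero] at h1
    rw [Finset.sum_congr rfl fun i _ => min_eq_left (hle i)] at h1
    exact h1

end Pool.Agent.Lib.MP_17a322_nt.FQ
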