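import Pool.Agent.Lib.MP_17a322_nt.FQ.T0
import Pool.Agent.Lib.MP_17a322_nt.FQ.Defs
import Pool.Agent.Lib.MP_17a322_nt.FQ.K3

namespace Pool.Agent.Lib.MP_17a322_nt.FQ

section

variable {E W ρ κ : Type*} [Field E] [Field W] [Algebra E W] [Fintype ρ] [DecidableEq ρ] [Fintype κ] {N : ℕ}

/-- The coordinatewise images of linearly independent vectors are linearly independent over the extension field. -/
private theorem T1_ext {α : Type*} [Fintype α] (P : α → κ → E) (hP : LinearIndependent E P) (x : α → W)
    (hx : ∀ a, ∑ j, x j * algebraMap E W (P j a) = 0) : x = 0 := by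
  classical
  have h1 : ∀ φ : Module.Dual E W, ∀ j, φ (x j) = 0 := by
    intro φ
    refine (Fintype.linearIndependent_iff.1 hP) (fun j => φ (x j)) ?_
    funext a
    rw [Finset.sum_apply]
    have h2 := congrArg φ (hx a)
    rw [map_zero, map_sum] at h2
    have h3 : ∀ j, φ (x j * algebraMap E W (P j a)) = (φ (x j) • P j) a := by
      intro j
      rw [mul_comm, ← Algebra.smul_def, map_smul, Pi.smul_apply, smul_eq_mul, smul_eq_mul, mul_comm]
    exact (Finset.sum_congr rfl fun j _ => (h3 j).symm).trans h2
  funext j
  exact (Module.forall_dual_apply_eq_zero_iff E (x j)).1 fun φ => h1 φ j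

private theorem T1_indE {α : Type*} [Fintype α] (e : α → κ → E) (he : LinearIndependent E e) :
    LinearIndependent W (fun i j' => algebraMap E W (e i j')) := by
  classical
  rw [Fintype.linearIndependent_iff]
  intro g hg
  have h1 := T1_ext e he g fun a => by
    have h2 := congrFun hg a
    simpa [Finset.sum_apply] using h2
  intro i
  exact congrFun h1 i

omit [DecidableEq ρ] in
private theorem T1_span (e : ρ → ρ → E) (a : ρ → ℝ)
    (b : ρ → ρ → W) (hb : LinearIndependent W b)
    (hba : ∀ j, b j ∈ Submodule.span W ((fun i j' => algebraMap E W (e i j')) '' {i | a i ≤ a j})) (t : ℝ) :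
    Submodule.span W ((fun i j' => algebraMap E W (e i j')) '' {i | a i < t}) =
      Submodule.span W (b '' {i | a i < t}) := by
  classical
  symm
  refine Submodule.eq_of_le_of_finrank_le ?_ ?_
  · rw [Submodule.span_le]
    rintro _ ⟨j, hj, rfl⟩
    refine Submodule.span_mono (Set.image_mono ?_) (hba j)
    intro i hi
    exact lt_of_le_of_lt (show a i ≤ a j from hi) (show a j < t from hj)
  · have h1 : b '' {i | a i < t} = Set.range (fun i : {i // a i < t} => b i.1) := by
      ext x
      constructor
      · rintro ⟨j, hj, rfl⟩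
        exact ⟨⟨j, hj⟩, rfl⟩
      · rintro ⟨j, rfl⟩
        exact ⟨j.1, j.2, rfl⟩
    have h2 : (fun i j' => algebraMap E W (e i j')) '' {i | a i < t} =
        Set.range (fun i : {i // a i < t} => (fun j' => algebraMap E W (e i.1 j') : ρ → W)) := by
      ext x
      constructor
      · rintro ⟨j, hj, rfl⟩
        exact ⟨⟨j, hj⟩, rfl⟩
      · rintro ⟨j, rfl⟩
        exact ⟨j.1, j.2, rfl⟩
    have h3 : Module.finrank W (Submodule.span W (Set.range (fun i : {i // a i < t} => b i.1))) =
        Fintype.card {i // a i < t} := finrank_span_eq_card (hb.comp _ Subtype.val_injective)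
    rw [h1, h2, h3]
    exact finrank_range_le_card _

/-- The value of the form at the leading indices does not change if vectors of lower levels are added. -/
theorem lead_eq (c : (Fin N → ρ) → E) (e : ρ → ρ → E) (a : ρ → ℝ) (he : LinearIndependent E e)
    (hopt : ∀ b : ρ → ρ → W, LinearIndependent W b →
      (∀ j, b j ∈ Submodule.span W ((fun i j' => algebraMap E W (e i j')) '' {i | a i ≤ a j})) →
      ∀ I ∈ spt c b, ∑ j, a j ^ 2 ≤ ∑ k, a (I k))
    (b : ρ → ρ → W) (hb : LinearIndependent W b)
    (hba : ∀ j, b j ∈ Submodule.span W ((fun i j' => algebraMap E W (e i j')) '' {i | a i ≤ a j}))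
    (I : Fin N → ρ) (hI : ∑ k, a (I k) = ∑ j, a j ^ 2) (u : Fin N → ρ → W)
    (hu : ∀ k, u k ∈ Submodule.span W ((fun i j' => algebraMap E W (e i j')) '' {i | a i < a (I k)})) :
    mev c (fun k => b (I k) + u k) = mev c (fun k => b (I k)) := by
  classical
  have h1 : ∀ k, ∃ x : ρ → W, ∑ j, x j • b j = u k ∧ ∀ j, x j ≠ 0 → a j < a (I k) := by
    intro k
    have h2 := hu k
    rw [T1_span e a b hb hba, Finsupp.mem_span_image_iff_linearCombination] at h2
    obtain ⟨l, hl, hl2⟩ := h2
    refine ⟨l, ?_, fun j hj => ?_⟩
    · rw [← hl2, Finsupp.linearCombination_apply, Finsupp.sum_fintype]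
      intro i
      exact zero_smul _ _
    · exact (Finsupp.mem_supported _ _).1 hl (Finsupp.mem_support_iff.2 hj)
  choose x hx hx2 using h1
  have h3 : (fun k => b (I k) + u k) = fun k => ∑ j, ((if j = I k then 1 else 0) + x k j) • b j := by
    funext k
    rw [← hx k]
    simp only [add_smul, Finset.sum_add_distrib, ite_smul, one_smul, zero_smul, Finset.sum_ite_eq',
      Finset.mem_univ, if_true]
  rw [h3, mev_expand, Finset.sum_eq_single I]
  · rw [Finset.prod_eq_one, one_mul]
    intro k _
    have h4 : x k (I k) = 0 := by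
      by_contra h5
      exact lt_irrefl _ (hx2 k _ h5)
    rw [if_pos rfl, h4, add_zero]
  · intro I' _ hI'
    by_cases h5 : ∏ k, ((if I' k = I k then (1 : W) else 0) + x k (I' k)) = 0
    · rw [h5, zero_mul]
    · have h6 : ∀ k, I' k = I k ∨ a (I' k) < a (I k) := by
        intro k
        by_cases h7 : I' k = I k
        · exact Or.inl h7
        · right
          refine hx2 k _ ?_
          have h8 := Finset.prod_ne_zero_iff.1 h5 k (Finset.mem_univ k)
          rw [if_neg h7, zero_add] at h8
          exact h8
      obtain ⟨k0, hk0⟩ := Function.ne_iff.1 hI'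
      have h9 : ∑ k, a (I' k) < ∑ k, a (I k) := by
        refine Finset.sum_lt_sum (fun k _ => ?_) ⟨k0, Finset.mem_univ _, ?_⟩
        · rcases h6 k with h10 | h10
          · rw [h10]
          · exact h10.le
        · exact (h6 k0).resolve_left hk0
      have h10 : mev c (fun k => b (I' k)) = 0 := by
        by_contra h11
        have h12 : I' ∈ spt c b := by
          unfold spt
          exact Finset.mem_filter.2 ⟨Finset.mem_univ _, h11⟩
        have h13 := hopt b hb hba I' h12
        rw [hI] at h9
        exact absurd h13 (not_le.2 h9)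
      rw [h10, mul_zero]
  · intro h
    exact absurd (Finset.mem_univ _) h

/-- `lin` is linear in `x`, and injective if the vectors `P j` are linearly independent. -/
theorem lin_add (P : ρ → κ → E) (x y : ρ → W) : lin P (x + y) = lin P x + lin P y := by
  funext a
  simp only [lin, Pi.add_apply, add_mul, Finset.sum_add_distrib]

theorem lin_smul (P : ρ → κ → E) (t : W) (x : ρ → W) : lin P (t • x) = t • lin P x := by
  funext a
  simp only [lin, Pi.smul_apply, smul_eq_mul, Finset.mul_sum, mul_assoc]

theorem lin_sum {α : Type*} (P : ρ → κ → E) (s : Finset α) (t : α → W) (x : α → ρ → W) :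
    lin P (∑ i ∈ s, t i • x i) = ∑ i ∈ s, t i • lin P (x i) := by
  classical
  induction s using Finset.induction_on with
  | empty =>
    funext a
    simp [lin]
  | insert i s hi ih => rw [Finset.sum_insert hi, Finset.sum_insert hi, lin_add, lin_smul, ih]

theorem lin_indep {α : Type*} (P : ρ → κ → E) (hP : LinearIndependent E P) (x : α → ρ → W)
    (hx : LinearIndependent W x) : LinearIndependent W (fun i => lin P (x i)) := by
  classical
  rw [linearIndependent_iff'] at hx ⊢
  intro s g hg i hi
  refine hx s g ?_ i hi
  rw [← lin_sum] at hg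
  exact T1_ext P hP _ fun a => congrFun hg a

/-- The pointwise bound. -/
theorem lead_bound (A : ValuationSubring W) (P : ρ → κ → E) (hP : LinearIndependent E P) (c : (Fin N → ρ) → E)
    {α β : Type*} [Fintype α] [Fintype β] (S : α → W) (T : β → W)
    (hbd : ∀ x : Fin N → ρ → W, A.valuation (mev c x) * nA A T ≤ nA A S * ∏ k, nA A (lin P (x k)))
    (e : ρ → ρ → E) (a : ρ → ℝ) (he : LinearIndependent E e)
    (hopt : ∀ b : ρ → ρ → W, LinearIndependent W b →
      (∀ j, b j ∈ Submodule.span W ((fun i j' => algebraMap E W (e i j')) '' {i | a i ≤ a j})) →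
      ∀ I ∈ spt c b, ∑ j, a j ^ 2 ≤ ∑ k, a (I k))
    (b : ρ → ρ → W) (hb : LinearIndependent W b)
    (hba : ∀ j, b j ∈ Submodule.span W ((fun i j' => algebraMap E W (e i j')) '' {i | a i ≤ a j}))
    (I : Fin N → ρ) (hI : ∑ k, a (I k) = ∑ j, a j ^ 2) :
    A.valuation (mev c (fun k => b (I k))) * nA A T *
        ∏ k, nA A (mns fun i : {x // x ∈ Finset.univ.filter fun i => a i < a (I k)} =>
          lin P (fun l => algebraMap E W (e i l))) ≤
      nA A S * ∏ k, nA A (mns (ad (fun i : {x // x ∈ Finset.univ.filter fun i => a i < a (I k)} =>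
          lin P (fun l => algebraMap E W (e i l))) (lin P (b (I k))))) := by
  classical
  have h0 : ∀ k, LinearIndependent W (fun i : {x // x ∈ Finset.univ.filter fun i => a i < a (I k)} =>
      lin P (fun l => algebraMap E W (e i l))) := by
    intro k
    exact lin_indep P hP (fun (i : {x // x ∈ Finset.univ.filter fun i => a i < a (I k)}) (l : ρ) =>
      algebraMap E W (e i l)) ((T1_indE e he).comp _ Subtype.val_injective)
  have h1 := fun k => quot_attained A _ (h0 k) (lin P (b (I k)))
  choose x hx using h1
  set u : Fin N → ρ → W := fun k => ∑ i : {x // x ∈ Finset.univ.filter fun i => a i < a (I k)},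
    x k i • (fun l => algebraMap E W (e i l)) with hu
  have h2 : ∀ k, lin P (b (I k) + u k) = fun cc => lin P (b (I k)) cc +
      ∑ j, x k j * (lin P (fun l => algebraMap E W (e j l))) cc := by
    intro k
    rw [lin_add, hu]
    simp only
    rw [lin_sum]
    funext cc
    simp only [Pi.add_apply, Finset.sum_apply, Pi.smul_apply, smul_eq_mul]
  have h3 : mev c (fun k => b (I k) + u k) = mev c (fun k => b (I k)) := by
    refine lead_eq c e a he hopt b hb hba I hI u fun k => ?_
    rw [hu]
    refine Submodule.sum_mem _ fun i _ => Submodule.smul_mem _ _ (Submodule.subset_span ?_)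
    exact ⟨i.1, (Finset.mem_filter.1 i.2).2, rfl⟩
  have h4 := hbd (fun k => b (I k) + u k)
  rw [h3] at h4
  calc A.valuation (mev c (fun k => b (I k))) * nA A T *
        ∏ k, nA A (mns fun i : {x // x ∈ Finset.univ.filter fun i => a i < a (I k)} =>
          lin P (fun l => algebraMap E W (e i l)))
      ≤ (nA A S * ∏ k, nA A (lin P (b (I k) + u k))) *
        ∏ k, nA A (mns fun i : {x // x ∈ Finset.univ.filter fun i => a i < a (I k)} =>
          lin P (fun l => algebraMap E W (e i l))) := mul_le_mul_left h4 _
    _ = nA A S * ∏ k, nA A (mns (ad (fun i : {x // x ∈ Finset.univ.filter fun i => a i < a (I k)} =>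
          lin P (fun l => algebraMap E W (e i l))) (lin P (b (I k))))) := by
        rw [mul_assoc, ← Finset.prod_mul_distrib]
        congr 1
        refine Finset.prod_congr rfl fun k _ => ?_
        rw [h2 k]
        exact hx k

end

end Pool.Agent.Lib.MP_17a322_nt.FQ
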