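import Pool.Agent.Lib.MP_17a322_nt.FQ.T1
import Pool.Agent.Lib.MP_17a322_nt.FQ.A3
import Pool.Agent.Lib.MP_17a322_nt.FQ.A6

universe u

namespace Pool.Agent.Lib.MP_17a322_nt.FQ

section

variable {E B ρ : Type*} [Field E] [Field B] [Algebra E B] [Fintype ρ] [DecidableEq ρ]

/-- Linearly independent vectors remain linearly independent over an extension field. -/
private theorem T2_base {e : ρ → ρ → E} (he : LinearIndependent E e) :
    LinearIndependent B (fun i l => algebraMap E B (e i l)) := by
  have h1 : IsUnit (Matrix.of e) := by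
    rw [← Matrix.linearIndependent_rows_iff_isUnit]
    exact he
  have h2 : IsUnit ((Matrix.of e).map (algebraMap E B)) :=
    h1.map (RingHom.mapMatrix (algebraMap E B))
  rw [← Matrix.linearIndependent_rows_iff_isUnit] at h2
  exact h2

/-- The vector `b j` is not in the span of the `e i` of the smaller levels. -/
private theorem T2_notMem {e : ρ → ρ → E} (he : LinearIndependent E e) (a : ρ → ℝ) {b : ρ → ρ → B}
    (hb : LinearIndependent B b)
    (hba : ∀ j, b j ∈ Submodule.span B ((fun i j' => algebraMap E B (e i j')) '' {i | a i ≤ a j}))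
    (j : ρ) :
    b j ∉ Submodule.span B ((fun i j' => algebraMap E B (e i j')) '' {i | a i < a j}) := by
  classical
  have he' : LinearIndependent B (fun i l => algebraMap E B (e i l)) := T2_base he
  have hle : Submodule.span B (b '' {i | a i < a j}) ≤
      Submodule.span B ((fun i j' => algebraMap E B (e i j')) '' {i | a i < a j}) := by
    rw [Submodule.span_le]
    rintro _ ⟨i, hi, rfl⟩
    have h1 := hba i
    refine Submodule.span_mono ?_ h1
    apply Set.image_mono
    intro l hl
    exact lt_of_le_of_lt (show a l ≤ a i from hl) (show a i < a j from hi)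
  have hc1 : Module.finrank B (Submodule.span B (b '' {i | a i < a j})) =
      Fintype.card {i // a i < a j} := by
    have h1 : LinearIndependent B (fun i : {i // a i < a j} => b i.1) :=
      hb.comp _ Subtype.val_injective
    rw [← finrank_span_eq_card h1]
    have h2 : b '' {i | a i < a j} = Set.range (fun i : {i // a i < a j} => b i.1) := by
      ext x
      constructor
      · rintro ⟨i, hi, rfl⟩
        exact ⟨⟨i, hi⟩, rfl⟩
      · rintro ⟨i, rfl⟩
        exact ⟨i.1, i.2, rfl⟩
    rw [h2]
  have hc2 : Module.finrank B (Submodule.span B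
      ((fun i j' => algebraMap E B (e i j')) '' {i | a i < a j})) =
      Fintype.card {i // a i < a j} := by
    have h1 : LinearIndependent B (fun i : {i // a i < a j} => fun l => algebraMap E B (e i.1 l)) :=
      he'.comp _ Subtype.val_injective
    rw [← finrank_span_eq_card h1]
    have h2 : (fun i j' => algebraMap E B (e i j')) '' {i | a i < a j} =
        Set.range (fun i : {i // a i < a j} => fun l => algebraMap E B (e i.1 l)) := by
      ext x
      constructor
      · rintro ⟨i, hi, rfl⟩
        exact ⟨⟨i, hi⟩, rfl⟩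
      · rintro ⟨i, rfl⟩
        exact ⟨i.1, i.2, rfl⟩
    rw [h2]
  have heq := Submodule.eq_of_le_of_finrank_eq hle (hc1.trans hc2.symm)
  rw [← heq]
  exact hb.notMem_span_image (fun h => lt_irrefl (a j) (show a j < a j from h))

/-- The product of nonzero families is not zero. -/
private theorem T2_prod_ne {α : Type*} [Fintype α] {ι : α → Type*} {S : ∀ a, ι a → B}
    (hS : ∀ a, S a ≠ 0) : (fun p : ∀ a, ι a => ∏ a, S a (p a)) ≠ 0 := by
  have h1 : ∀ a, ∃ x, S a x ≠ 0 := fun a => Function.ne_iff.mp (hS a)
  choose x hx using h1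
  intro h
  have h2 : ∏ a, S a (x a) = 0 := congrFun h x
  exact (Finset.prod_ne_zero_iff.mpr fun a _ => hx a) h2

/-- The product of two nonzero families is not zero. -/
private theorem T2_mul_ne {ι κ : Type*} {S : ι → B} {T : κ → B} (hS : S ≠ 0) (hT : T ≠ 0) :
    (fun p : ι × κ => S p.1 * T p.2) ≠ 0 := by
  obtain ⟨x, hx⟩ := Function.ne_iff.mp hS
  obtain ⟨y, hy⟩ := Function.ne_iff.mp hT
  intro h
  have h2 : S x * T y = 0 := congrFun h (x, y)
  exact (mul_ne_zero hx hy) h2

end

section

variable {k B : Type u} [Field k] [NumberField k] [Field B] [Algebra k B] {I₀ : Type} (X : Evl k B I₀)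
variable {E : Type u} [Field E] [Algebra E B] {ρ κ : Type} [Fintype ρ] [DecidableEq ρ] [Fintype κ] {N : ℕ}

/-- The inequality of the heights which follows from the pointwise bound `lead_bound`. -/
theorem lead_lm (P : ρ → κ → E) (hP : LinearIndependent E P) (c : (Fin N → ρ) → E)
    {α β : Type} [Fintype α] [Fintype β] (S : α → B) (T : β → B) (hS : S ≠ 0) (hT : T ≠ 0)
    (hbd : ∀ (A : VR k B) (x : Fin N → ρ → B),
      A.1.valuation (mev c x) * nA A.1 T ≤ nA A.1 S * ∏ k, nA A.1 (lin P (x k)))
    (e : ρ → ρ → E) (a : ρ → ℝ) (he : LinearIndependent E e)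
    (hopt : ∀ b : ρ → ρ → B, LinearIndependent B b →
      (∀ j, b j ∈ Submodule.span B ((fun i j' => algebraMap E B (e i j')) '' {i | a i ≤ a j})) →
      ∀ I ∈ spt c b, ∑ j, a j ^ 2 ≤ ∑ k, a (I k))
    (b : ρ → ρ → B) (hb : LinearIndependent B b)
    (hba : ∀ j, b j ∈ Submodule.span B ((fun i j' => algebraMap E B (e i j')) '' {i | a i ≤ a j}))
    (I : Fin N → ρ) (hI : ∑ k, a (I k) = ∑ j, a j ^ 2) (hIs : I ∈ spt c b) :
    X.lm T + ∑ k, X.lm (mns fun i : {x // x ∈ Finset.univ.filter fun i => a i < a (I k)} =>
          lin P (fun l => algebraMap E B (e i l))) ≤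
      X.lm S + ∑ k, X.lm (mns (ad (fun i : {x // x ∈ Finset.univ.filter fun i => a i < a (I k)} =>
          lin P (fun l => algebraMap E B (e i l))) (lin P (b (I k))))) := by
  classical
  have hm0 : mev c (fun k => b (I k)) ≠ 0 := by
    have h := hIs
    unfold spt at h
    exact (Finset.mem_filter.mp h).2
  have he' : LinearIndependent B (fun i l => algebraMap E B (e i l)) := T2_base he
  have hw0 : ∀ k, LinearIndependent B (fun i : {x // x ∈ Finset.univ.filter fun i => a i < a (I k)} =>
      fun l => algebraMap E B (e i l)) := fun k => he'.comp _ Subtype.val_injective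
  have hw : ∀ k, mns (fun i : {x // x ∈ Finset.univ.filter fun i => a i < a (I k)} =>
      lin P (fun l => algebraMap E B (e i l))) ≠ 0 := by
    intro k
    exact mns_ne (lin_indep P hP _ (hw0 k))
  have hu : ∀ k, mns (ad (fun i : {x // x ∈ Finset.univ.filter fun i => a i < a (I k)} =>
      lin P (fun l => algebraMap E B (e i l))) (lin P (b (I k)))) ≠ 0 := by
    intro k
    have h1 : LinearIndependent B (Sum.elim
        (fun i : {x // x ∈ Finset.univ.filter fun i => a i < a (I k)} =>
          fun l => algebraMap E B (e i l)) (fun _ : Unit => b (I k))) := by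
      refine LinearIndependent.sum_type (hw0 k) ?_ ?_
      · rw [linearIndependent_unique_iff]
        exact hb.ne_zero (I k)
      · rw [Set.range_const, Submodule.disjoint_span_singleton]
        intro hmem
        exfalso
        refine T2_notMem he a hb hba (I k) ?_
        have h2 : Set.range (fun i : {x // x ∈ Finset.univ.filter fun i => a i < a (I k)} =>
            fun l => algebraMap E B (e i l)) =
            (fun i j' => algebraMap E B (e i j')) '' {i | a i < a (I k)} := by
          ext x
          constructor
          · rintro ⟨i, rfl⟩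
            exact ⟨i.1, (Finset.mem_filter.mp i.2).2, rfl⟩
          · rintro ⟨i, hi, rfl⟩
            exact ⟨⟨i, Finset.mem_filter.mpr ⟨Finset.mem_univ _, hi⟩⟩, rfl⟩
        rw [← h2]
        exact hmem
    have h2 := lin_indep P hP _ h1
    have h3 : (fun i => lin P (Sum.elim
        (fun i : {x // x ∈ Finset.univ.filter fun i => a i < a (I k)} =>
          fun l => algebraMap E B (e i l)) (fun _ : Unit => b (I k)) i)) =
        ad (fun i : {x // x ∈ Finset.univ.filter fun i => a i < a (I k)} =>
          lin P (fun l => algebraMap E B (e i l))) (lin P (b (I k))) := by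
      funext i
      rcases i with i | i
      · rfl
      · rfl
    rw [h3] at h2
    exact mns_ne h2
  have hT' : (fun q => mev c (fun k => b (I k)) * T q) ≠ 0 := by
    obtain ⟨q, hq⟩ := Function.ne_iff.mp hT
    intro h
    exact (mul_ne_zero hm0 hq) (congrFun h q)
  have hLp := T2_prod_ne (B := B) hw
  have hRp := T2_prod_ne (B := B) hu
  have hmain := lm_le X (T2_mul_ne (B := B) hT' hLp) (T := fun p : α × (∀ k : Fin N,
      ({x // x ∈ Finset.univ.filter fun i => a i < a (I k)} ⊕ Unit → κ)) => S p.1 *
      ∏ k, mns (ad (fun i : {x // x ∈ Finset.univ.filter fun i => a i < a (I k)} =>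
        lin P (fun l => algebraMap E B (e i l))) (lin P (b (I k)))) (p.2 k)) (by
    intro A
    have h1 := lead_bound A.1 P hP c S T (hbd A) e a he hopt b hb hba I hI
    have h2 : nA A.1 (fun p : β × (∀ k : Fin N,
        ({x // x ∈ Finset.univ.filter fun i => a i < a (I k)} → κ)) =>
        (fun q => mev c (fun k => b (I k)) * T q) p.1 *
          (fun s : (∀ k : Fin N, ({x // x ∈ Finset.univ.filter fun i => a i < a (I k)} → κ)) =>
          ∏ k, mns (fun i : {x // x ∈ Finset.univ.filter fun i => a i < a (I k)} =>
            lin P (fun l => algebraMap E B (e i l))) (s k)) p.2) =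
        A.1.valuation (mev c (fun k => b (I k))) * nA A.1 T *
          ∏ k, nA A.1 (mns fun i : {x // x ∈ Finset.univ.filter fun i => a i < a (I k)} =>
            lin P (fun l => algebraMap E B (e i l))) := by
      have h4 := nA_mul A.1 (fun q => mev c (fun k => b (I k)) * T q)
        (fun s : (∀ k : Fin N, ({x // x ∈ Finset.univ.filter fun i => a i < a (I k)} → κ)) =>
          ∏ k, mns (fun i : {x // x ∈ Finset.univ.filter fun i => a i < a (I k)} =>
            lin P (fun l => algebraMap E B (e i l))) (s k))
      rw [nA_smul, nA_pi] at h4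
      exact h4
    have h3 : nA A.1 (fun p : α × (∀ k : Fin N,
        ({x // x ∈ Finset.univ.filter fun i => a i < a (I k)} ⊕ Unit → κ)) => S p.1 *
        ∏ k, mns (ad (fun i : {x // x ∈ Finset.univ.filter fun i => a i < a (I k)} =>
          lin P (fun l => algebraMap E B (e i l))) (lin P (b (I k)))) (p.2 k)) =
        nA A.1 S * ∏ k, nA A.1 (mns (ad (fun i : {x // x ∈ Finset.univ.filter fun i => a i < a (I k)} =>
          lin P (fun l => algebraMap E B (e i l))) (lin P (b (I k))))) := by
      have h4 := nA_mul A.1 S (fun s : (∀ k : Fin N,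
        ({x // x ∈ Finset.univ.filter fun i => a i < a (I k)} ⊕ Unit → κ)) =>
        ∏ k, mns (ad (fun i : {x // x ∈ Finset.univ.filter fun i => a i < a (I k)} =>
          lin P (fun l => algebraMap E B (e i l))) (lin P (b (I k)))) (s k))
      rw [nA_pi] at h4
      exact h4
    exact (h2.trans_le h1).trans_eq h3.symm)
  have h5 := lm_mul X hT' hLp
  have h6 := lm_mul X hS hRp
  rw [lm_pi X hw, lm_smul X hm0] at h5
  rw [lm_pi X hu] at h6
  rw [← h5, ← h6]
  exact hmain

end

end Pool.Agent.Lib.MP_17a322_nt.FQ
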