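import Pool.Agent.Lib.MP_17a322_nt.FQ.T1
import Pool.Agent.Lib.MP_17a322_nt.FQ.S8

namespace Pool.Agent.Lib.MP_17a322_nt.FQ

section

variable {B : Type} [Field B] [Algebra ℚ B] {I₀ : Type} (X : Evl ℚ B I₀)
variable {E : Type} [Field E] [Algebra E B] {ρ κ : Type} [Fintype ρ] [DecidableEq ρ] [Fintype κ]

/-- A bijection of the index set. -/
theorem T3_mns {F : Type*} [CommRing F] {κ ι ι' : Type*} [Fintype ι] [DecidableEq ι] [Fintype ι']
    [DecidableEq ι'] (g : ι' ≃ ι) (y : ι → κ → F) (s : ι' → κ) :
    mns (fun i => y (g i)) s = mns y (fun b => s (g.symm b)) := by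
  unfold mns
  rw [← Matrix.det_submatrix_equiv_self g (Matrix.of fun a b => y a (s (g.symm b)))]
  congr 1
  ext a b
  simp [Matrix.submatrix_apply]

theorem T3_lm {ι ι' : Type*} {i1 : Fintype ι} {i2 : DecidableEq ι} {i3 : Fintype ι'} {i4 : DecidableEq ι'}
    (g : ι' ≃ ι) (y : ι → κ → B) : X.lm (mns (fun i => y (g i))) = X.lm (mns y) := by
  have h1 : mns (fun i => y (g i)) = fun s : ι' → κ => mns y ((fun s' : ι' → κ => fun b => s' (g.symm b)) s) := by
    funext s
    exact T3_mns g y s
  rw [h1]
  refine lm_comp_eq X (fun s' : ι' → κ => fun b => s' (g.symm b)) ?_ (mns y)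
  intro s
  exact ⟨fun a => s (g a), by funext b; simp⟩

/-- The images of the vectors in the big field are linearly independent. -/
theorem T3_base (e : ρ → ρ → E) (he : LinearIndependent E e) :
    LinearIndependent B (fun i l => algebraMap E B (e i l)) := by
  have h1 : (Matrix.of e).det ≠ 0 := by
    intro h0
    have h2 := (Matrix.linearIndependent_rows_iff_isUnit (A := Matrix.of e)).1 he
    rw [Matrix.isUnit_iff_isUnit_det, h0] at h2
    exact not_isUnit_zero h2
  have h3 : ((algebraMap E B).mapMatrix (Matrix.of e)).det ≠ 0 := by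
    rw [← RingHom.map_det]
    intro h4
    exact h1 ((map_eq_zero (algebraMap E B)).1 h4)
  exact Matrix.linearIndependent_rows_of_det_ne_zero h3

/-- The splitting of one level. -/
theorem T3_gen (v : ρ → κ → B) (hv : LinearIndependent B v) {ι ι' S : Type} (k1 : Fintype ι)
    (k2 : DecidableEq ι) (k3 : Fintype ι') (k4 : DecidableEq ι') {i5 : Fintype S} {i6 : DecidableEq S}
    (f : ι → ρ) (f' : ι' → ρ) (f0 : S → ρ) (hinj : Function.Injective (Sum.elim f f0))
    (hinj' : Function.Injective f') (hm : ∀ i, ∃ j, f' j = Sum.elim f f0 i)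
    (hm' : ∀ j, ∃ i, f' j = Sum.elim f f0 i) :
    ∃ x : Matrix S S B, x.det ≠ 0 ∧
      ∀ (i1 i1' : Fintype ι) (i2 i2' : DecidableEq ι) (i3 : Fintype ι') (i4 : DecidableEq ι')
        (j1 : Fintype (ι ⊕ Unit)) (j2 : DecidableEq (ι ⊕ Unit)),
      ∑ j, (X.lm (@mns B _ κ _ j1 j2 (ad (fun i => v (f i)) (fun c => ∑ l, x j l * v (f0 l) c))) -
        X.lm (@mns B _ κ _ i1 i2 (fun i => v (f i)))) ≤
        X.lm (@mns B _ κ _ i3 i4 fun i => v (f' i)) - X.lm (@mns B _ κ _ i1' i2' (fun i => v (f i))) := by
  obtain ⟨σ⟩ : Nonempty (Fin (Fintype.card S) ≃ S) := ⟨(Fintype.equivFin _).symm⟩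
  have hinj2 : Function.Injective (Sum.elim f (fun l => f0 (σ l))) := by
    have h1 : Sum.elim f (fun l => f0 (σ l)) = Sum.elim f f0 ∘ Sum.map id σ := by
      funext i
      rcases i with i | i <;> rfl
    rw [h1]
    exact hinj.comp (Sum.map_injective.2 ⟨Function.injective_id, σ.injective⟩)
  have hind : LinearIndependent B (Sum.elim (fun i => v (f i)) (fun l => v (f0 (σ l)))) := by
    have h1 := hv.comp _ hinj2
    have h2 : (Sum.elim (fun i => v (f i)) (fun l => v (f0 (σ l)))) = v ∘
        (Sum.elim f (fun l => f0 (σ l))) := by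
      funext i
      rcases i with i | i <;> rfl
    rw [h2]
    exact h1
  obtain ⟨x, hx, hle⟩ := split_level X _ _ hind
  refine ⟨x.submatrix σ.symm σ.symm, ?_, ?_⟩
  · rw [Matrix.det_submatrix_equiv_self]
    exact hx
  · intro i1 i1' i2 i2' i3 i4 j1 j2
    obtain rfl : k1 = i1 := Subsingleton.elim _ _
    obtain rfl : k2 = i2 := Subsingleton.elim _ _
    obtain rfl : k1 = i1' := Subsingleton.elim _ _
    obtain rfl : k2 = i2' := Subsingleton.elim _ _
    obtain rfl : k3 = i3 := Subsingleton.elim _ _
    obtain rfl : k4 = i4 := Subsingleton.elim _ _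
    obtain rfl : j1 = instFintypeSum ι Unit := Subsingleton.elim _ _
    obtain rfl : j2 = instDecidableEqSum := Subsingleton.elim _ _
    choose g1 hg1 using hm
    have hb : Function.Bijective (fun i : ι ⊕ Fin (Fintype.card S) => g1 (Sum.map id σ i)) := by
      constructor
      · intro i j h
        have h1 := congrArg f' h
        simp only [hg1] at h1
        exact (Sum.map_injective.2 ⟨Function.injective_id, σ.injective⟩) (hinj h1)
      · intro j
        obtain ⟨i, hi⟩ := hm' j
        refine ⟨Sum.map id σ.symm i, hinj' ?_⟩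
        simp only [hg1, hi]
        congr 1
        rcases i with i | i <;> simp
    have h3 : X.lm (mns (Sum.elim (fun i => v (f i)) (fun l => v (f0 (σ l))))) =
        X.lm (mns fun i => v (f' i)) := by
      rw [← T3_lm X (Equiv.ofBijective _ hb) (fun i => v (f' i))]
      congr 2
      funext i
      rw [Equiv.ofBijective_apply, hg1]
      rcases i with i | i <;> rfl
    rw [h3] at hle
    refine le_of_eq_of_le ?_ hle
    rw [← Equiv.sum_comp σ]
    refine Finset.sum_congr rfl fun j _ => ?_
    congr 4
    funext c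
    rw [← Equiv.sum_comp σ]
    refine Finset.sum_congr rfl fun l _ => ?_
    simp

/-- The splitting of one level. -/
theorem T3_level (v : ρ → κ → B) (hv : LinearIndependent B v) (a : ρ → ℝ) (t : ℝ) :
    ∃ x : Matrix {i : ρ // a i = t} {i : ρ // a i = t} B, x.det ≠ 0 ∧
      ∀ (i1 i1' : Fintype {x // x ∈ Finset.univ.filter fun i => a i < t})
        (i2 i2' : DecidableEq {x // x ∈ Finset.univ.filter fun i => a i < t})
        (i3 : Fintype {x // x ∈ Finset.univ.filter fun i => a i ≤ t})
        (i4 : DecidableEq {x // x ∈ Finset.univ.filter fun i => a i ≤ t})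
        (j1 : Fintype ({x // x ∈ Finset.univ.filter fun i => a i < t} ⊕ Unit))
        (j2 : DecidableEq ({x // x ∈ Finset.univ.filter fun i => a i < t} ⊕ Unit)),
      ∑ j, (X.lm (@mns B _ κ _ j1 j2 (ad (fun i => v i) (fun c => ∑ l, x j l * v l c))) -
        X.lm (@mns B _ κ _ i1 i2 (fun i => v i))) ≤
        X.lm (@mns B _ κ _ i3 i4 fun i => v i) - X.lm (@mns B _ κ _ i1' i2' (fun i => v i)) := by
  refine T3_gen X v hv inferInstance inferInstance inferInstance inferInstance
    (fun i : {x // x ∈ Finset.univ.filter fun i => a i < t} => (i : ρ))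
    (fun i : {x // x ∈ Finset.univ.filter fun i => a i ≤ t} => (i : ρ))
    (fun i : {i : ρ // a i = t} => (i : ρ)) ?_ Subtype.val_injective ?_ ?_
  · rintro (i | i) (j | j) h
    · exact congrArg Sum.inl (Subtype.ext h)
    · exfalso
      have h1 := (Finset.mem_filter.1 i.2).2
      have h2 := j.2
      simp only [Sum.elim_inl, Sum.elim_inr] at h
      rw [h, h2] at h1
      exact lt_irrefl _ h1
    · exfalso
      have h1 := (Finset.mem_filter.1 j.2).2
      have h2 := i.2
      simp only [Sum.elim_inl, Sum.elim_inr] at h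
      rw [← h, h2] at h1
      exact lt_irrefl _ h1
    · exact congrArg Sum.inr (Subtype.ext h)
  · rintro (i | i)
    · exact ⟨⟨i, Finset.mem_filter.2 ⟨Finset.mem_univ _, (Finset.mem_filter.1 i.2).2.le⟩⟩, rfl⟩
    · exact ⟨⟨i, Finset.mem_filter.2 ⟨Finset.mem_univ _, i.2.le⟩⟩, rfl⟩
  · rintro ⟨i, hi⟩
    have hi' := (Finset.mem_filter.1 hi).2
    rcases hi'.lt_or_eq with h | h
    · exact ⟨Sum.inl ⟨i, Finset.mem_filter.2 ⟨Finset.mem_univ _, h⟩⟩, rfl⟩
    · exact ⟨Sum.inr ⟨i, h⟩, rfl⟩

/-- The basis over the big field which splits all levels. -/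
theorem exists_split (P : ρ → κ → E) (hP : LinearIndependent E P) (e : ρ → ρ → E) (a : ρ → ℝ)
    (he : LinearIndependent E e) :
    ∃ b : ρ → ρ → B, LinearIndependent B b ∧
      (∀ j, b j ∈ Submodule.span B ((fun i j' => algebraMap E B (e i j')) '' {i | a i ≤ a j})) ∧
      ∀ t ∈ Finset.univ.image a, ∑ j ∈ Finset.univ.filter (fun j => a j = t),
        (X.lm (mns (ad (fun i : {x // x ∈ Finset.univ.filter fun i => a i < t} =>
            lin P (fun l => algebraMap E B (e i l))) (lin P (b j)))) -
          X.lm (mns fun i : {x // x ∈ Finset.univ.filter fun i => a i < t} =>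
            lin P (fun l => algebraMap E B (e i l)))) ≤
        X.lm (mns fun i : {x // x ∈ Finset.univ.filter fun i => a i ≤ t} =>
            lin P (fun l => algebraMap E B (e i l))) -
          X.lm (mns fun i : {x // x ∈ Finset.univ.filter fun i => a i < t} =>
            lin P (fun l => algebraMap E B (e i l))) := by
  set eB : ρ → ρ → B := fun i l => algebraMap E B (e i l) with heB
  have hBi : LinearIndependent B eB := T3_base e he
  have hlin : LinearIndependent B (fun i => lin P (eB i)) := lin_indep P hP eB hBi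
  choose x hx hle using T3_level X (fun i => lin P (eB i)) hlin a
  set M : Matrix ρ ρ B := fun j i => if h : a i = a j then x (a j) ⟨j, rfl⟩ ⟨i, h⟩ else 0 with hM
  have hMne : ∀ j i, a i ≠ a j → M j i = 0 := by
    intro j i h
    simp [hM, h]
  have hMeq : ∀ (t : ℝ) (j i : ρ) (hj : a j = t) (hi : a i = t), M j i = x t ⟨j, hj⟩ ⟨i, hi⟩ := by
    intro t j i hj hi
    subst hj
    simp [hM, hi]
  have hdet : M.det ≠ 0 := by
    have hbt : Matrix.BlockTriangular M a := by
      intro i j h
      exact hMne i j h.ne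
    rw [hbt.det]
    refine Finset.prod_ne_zero_iff.2 fun t _ => ?_
    have h4 : M.toSquareBlock a t = x t := by
      ext i j
      exact hMeq t i j i.2 j.2
    rw [h4]
    exact hx t
  refine ⟨fun j => ∑ i, M j i • eB i, ?_, ?_, ?_⟩
  · have h5 : (fun j => ∑ i, M j i • eB i) = (M * Matrix.of eB : Matrix ρ ρ B) := by
      funext j l
      simp [Matrix.mul_apply, Finset.sum_apply]
    rw [h5]
    refine Matrix.linearIndependent_rows_of_det_ne_zero ?_
    rw [Matrix.det_mul]
    refine mul_ne_zero hdet ?_
    intro h0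
    have h2 := (Matrix.linearIndependent_rows_iff_isUnit (A := Matrix.of eB)).1 hBi
    rw [Matrix.isUnit_iff_isUnit_det, h0] at h2
    exact not_isUnit_zero h2
  · intro j
    refine Submodule.sum_mem _ fun i _ => ?_
    by_cases h : a i = a j
    · exact Submodule.smul_mem _ _ (Submodule.subset_span ⟨i, h.le, rfl⟩)
    · rw [hMne j i h, zero_smul]
      exact Submodule.zero_mem _
  · intro t _
    have h6 : ∀ j : {j // a j = t}, lin P (∑ i, M j i • eB i) = fun c => ∑ l, x t j l * lin P (eB l) c := by
      intro j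
      rw [lin_sum]
      funext c
      rw [Finset.sum_apply]
      have h7 : ∀ i, i ∉ (Finset.univ.filter fun i => a i = t) → (M j i • lin P (eB i)) c = 0 := by
        intro i hi
        have hi' : a i ≠ a j := by
          intro h8
          exact hi (Finset.mem_filter.2 ⟨Finset.mem_univ _, h8.trans j.2⟩)
        rw [hMne j i hi', zero_smul]
        rfl
      rw [← Finset.sum_subset (Finset.subset_univ (Finset.univ.filter fun i => a i = t))
        (fun i _ hi => h7 i hi)]
      rw [Finset.sum_subtype (p := fun j => a j = t) (Finset.univ.filter fun j => a j = t)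
        (fun j => by simp)]
      refine Finset.sum_congr rfl fun i _ => ?_
      rw [hMeq t j i j.2 i.2]
      rfl
    rw [Finset.sum_subtype (p := fun j => a j = t) (Finset.univ.filter fun j => a j = t)
      (fun j => by simp)]
    rw [Finset.sum_congr rfl fun j _ => by rw [h6 j]]
    exact hle t _ _ _ _ _ _ _ _

end

end Pool.Agent.Lib.MP_17a322_nt.FQ
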