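import Pool.Agent.Lib.MP_17a322_nt.FQ.T2
import Pool.Agent.Lib.MP_17a322_nt.FQ.T3
import Pool.Agent.Lib.MP_17a322_nt.FQ.K7

namespace Pool.Agent.Lib.MP_17a322_nt.FQ

section

variable {B : Type} [Field B] [Algebra ℚ B] {I₀ : Type} (X : Evl ℚ B I₀)
variable {E : Type} [Field E] [CharZero E] [Algebra E B] {ρ κ : Type} [Fintype ρ] [DecidableEq ρ] [Fintype κ] {N : ℕ}

omit [CharZero E] in
/-- The vectors `∑ l, e i l • P l` are linearly independent. -/
private lemma T4_indep (P : ρ → κ → E) (hP : LinearIndependent E P) (e : ρ → ρ → E) (he : LinearIndependent E e)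
    (s : Finset ρ) : LinearIndependent E (fun i : {x // x ∈ s} => lin P (e i)) := by
  have h1 : LinearIndependent E (fun i : ρ => lin (B := E) P (e i)) := lin_indep P hP e he
  exact h1.comp (fun i : {x // x ∈ s} => (i : ρ)) Subtype.val_injective

omit [CharZero E] in
/-- The height of the span of the vectors `∑ l, e i l • P l`, `i ∈ s`. -/
private lemma T4_lPl (P : ρ → κ → E) (hP : LinearIndependent E P) (e : ρ → ρ → E) (he : LinearIndependent E e)
    (s : Finset ρ) :
    X.lPl (Submodule.span E (Set.range fun i : {x // x ∈ s} => lin P (e i))) =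
      X.lm (mns fun i : {x // x ∈ s} => lin P (fun l => algebraMap E B (e i l))) := by
  rw [lPl_eq X _ (T4_indep P hP e he s)]
  have h1 : (fun q : {x // x ∈ s} → κ => algebraMap E B (mns (fun i : {x // x ∈ s} => lin P (e i)) q)) =
      mns fun i : {x // x ∈ s} => lin P (fun l => algebraMap E B (e i l)) := by
    funext q
    unfold mns
    rw [RingHom.map_det]
    refine congrArg Matrix.det ?_
    ext a b
    simp only [RingHom.mapMatrix_apply, Matrix.map_apply, Matrix.of_apply, lin, map_sum, map_mul,
      Algebra.algebraMap_self, RingHom.id_apply]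
  rw [h1]

omit [CharZero E] [DecidableEq ρ] [Fintype κ] in
/-- The vectors `∑ l, e i l • P l` are in the span of `P`. -/
private lemma T4_univ (P : ρ → κ → E) (e : ρ → ρ → E) (s : Finset ρ) : Submodule.span E (Set.range fun i : {x // x ∈ s} => lin P (e i)) ≤
      Submodule.span E (Set.range P) := by
  rw [Submodule.span_le]
  rintro v ⟨i, rfl⟩
  have h1 : lin P (e i) = ∑ l, e i l • P l := by
    funext c
    simp only [lin, Algebra.algebraMap_self, RingHom.id_apply, Finset.sum_apply, Pi.smul_apply, smul_eq_mul]
  change lin P (e i) ∈ _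
  rw [h1]
  exact Submodule.sum_mem _ fun l _ => Submodule.smul_mem _ _ (Submodule.subset_span ⟨l, rfl⟩)

omit [CharZero E] in
/-- The dimension of the span of the vectors `∑ l, e i l • P l`, `i ∈ s`. -/
private lemma T4_finrank (P : ρ → κ → E) (hP : LinearIndependent E P) (e : ρ → ρ → E) (he : LinearIndependent E e)
    (s : Finset ρ) :
    Module.finrank E (Submodule.span E (Set.range fun i : {x // x ∈ s} => lin P (e i))) = s.card := by
  rw [finrank_span_eq_card (T4_indep P hP e he s)]
  simp

omit [CharZero E] in
/-- The hypothesis of the theorem `abel`. -/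
private lemma T4_abel (P : ρ → κ → E) (hP : LinearIndependent E P) (g : ℝ)
    (hg : ∀ L : Submodule E (κ → E), L < Submodule.span E (Set.range P) →
      g * ((Fintype.card ρ : ℝ) - Module.finrank E L) ≤ X.lPl L - X.lPl (Submodule.span E (Set.range P)))
    (e : ρ → ρ → E) (he : LinearIndependent E e) (a : ρ → ℝ) (t : ℝ) :
    g * (Finset.univ.filter fun i => t ≤ a i).card ≤
      X.lm (mns fun i : {x // x ∈ Finset.univ.filter fun i => a i < t} =>
          lin P (fun l => algebraMap E B (e i l))) -
        X.lm (mns fun i : {x // x ∈ (Finset.univ : Finset ρ)} => lin P (fun l => algebraMap E B (e i l))) := by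
  have hcard : (Finset.univ.filter fun i => a i < t).card + (Finset.univ.filter fun i => t ≤ a i).card =
      Fintype.card ρ := by
    have h1 := Finset.card_filter_add_card_filter_not (s := (Finset.univ : Finset ρ)) (fun i => a i < t)
    have h2 : (Finset.univ.filter fun i => ¬ a i < t) = Finset.univ.filter fun i => t ≤ a i := by
      ext i
      simp
    rw [h2] at h1
    rw [h1]
    exact Finset.card_univ
  have huniv : Submodule.span E (Set.range fun i : {x // x ∈ (Finset.univ : Finset ρ)} => lin P (e i)) =
      Submodule.span E (Set.range P) := by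
    refine Submodule.eq_of_le_of_finrank_eq (T4_univ P e _) ?_
    rw [T4_finrank P hP e he, finrank_span_eq_card hP]
    exact Finset.card_univ
  by_cases hc : (Finset.univ.filter fun i => a i < t) = (Finset.univ : Finset ρ)
  · rw [hc] at hcard
    have h0 : (Finset.univ.filter fun i => t ≤ a i).card = 0 := by
      have h3 : (Finset.univ : Finset ρ).card = Fintype.card ρ := Finset.card_univ
      omega
    rw [h0, hc]
    simp
  · have hlt : Submodule.span E (Set.range fun i : {x // x ∈ Finset.univ.filter fun i => a i < t} => lin P (e i)) <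
        Submodule.span E (Set.range P) := by
      refine lt_of_le_of_ne (T4_univ P e _) ?_
      intro h
      have h1 := T4_finrank P hP e he (Finset.univ.filter fun i => a i < t)
      rw [h, finrank_span_eq_card hP] at h1
      exact hc (Finset.eq_univ_of_card _ h1.symm)
    have h1 := hg _ hlt
    rw [T4_finrank P hP e he, ← huniv, T4_lPl X P hP e he, T4_lPl X P hP e he] at h1
    have h2 : ((Fintype.card ρ : ℝ) - ((Finset.univ.filter fun i => a i < t).card : ℝ)) =
        ((Finset.univ.filter fun i => t ≤ a i).card : ℝ) := by
      have h3 : ((Fintype.card ρ : ℕ) : ℝ) = ((Finset.univ.filter fun i => a i < t).card : ℝ) +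
          ((Finset.univ.filter fun i => t ≤ a i).card : ℝ) := by
        rw [← hcard]
        push_cast
        ring
      rw [h3]
      ring
    rw [h2] at h1
    exact h1

/-- The tensor theorem: if all proper subspaces of the span of the vectors `P` have a height which is larger by
`g` times the codimension, then the norm of the multilinear form `c` is at least `g * N`. -/
theorem tens (P : ρ → κ → E) (hP : LinearIndependent E P) (g : ℝ)
    (hg : ∀ L : Submodule E (κ → E), L < Submodule.span E (Set.range P) →
      g * ((Fintype.card ρ : ℝ) - Module.finrank E L) ≤ X.lPl L - X.lPl (Submodule.span E (Set.range P)))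
    (c : (Fin N → ρ) → E) (hc : c ≠ 0) {α β : Type} [Fintype α] [Fintype β] (S : α → B) (T : β → B)
    (hS : S ≠ 0) (hT : T ≠ 0)
    (hbd : ∀ (A : VR ℚ B) (x : Fin N → ρ → B),
      A.1.valuation (mev c x) * nA A.1 T ≤ nA A.1 S * ∏ k, nA A.1 (lin P (x k))) :
    g * N ≤ X.lm S - X.lm T := by
  obtain ⟨e, a, he, ha, hsum, hk⟩ := kempf c hc
  obtain ⟨b, hb, hba, hsp⟩ := exists_split X P hP e a he
  obtain ⟨hspt, hy⟩ := hk B b hb hba
  obtain ⟨I, hI, hIa, hId⟩ := hy fun j =>
    X.lm (mns fun i : {x // x ∈ Finset.univ.filter fun i => a i < a j} => lin P (fun l => algebraMap E B (e i l))) -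
      X.lm (mns (ad (fun i : {x // x ∈ Finset.univ.filter fun i => a i < a j} =>
          lin P (fun l => algebraMap E B (e i l))) (lin P (b j))))
  have hlead := lead_lm X P hP c S T hS hT hbd e a he (fun b hb hba => (hk B b hb hba).1) b hb hba I hIa hI
  have hab := abel a ha (fun s : Finset ρ =>
    X.lm (mns fun i : {x // x ∈ s} => lin P (fun l => algebraMap E B (e i l)))) g
    (fun t => T4_abel X P hP g hg e he a t)
  rw [hsum] at hab
  refine le_trans hab ?_
  refine le_trans ?_ (le_trans hId ?_)
  · have h1 := Finset.sum_fiberwise_of_maps_to (s := (Finset.univ : Finset ρ)) (t := Finset.univ.image a) (g := a)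
      (fun j _ => Finset.mem_image_of_mem a (Finset.mem_univ j))
      (fun j => a j * (X.lm (mns fun i : {x // x ∈ Finset.univ.filter fun i => a i < a j} =>
          lin P (fun l => algebraMap E B (e i l))) -
        X.lm (mns (ad (fun i : {x // x ∈ Finset.univ.filter fun i => a i < a j} =>
          lin P (fun l => algebraMap E B (e i l))) (lin P (b j))))))
    rw [← h1]
    refine Finset.sum_le_sum fun t ht => ?_
    have h2 : ∀ j ∈ Finset.univ.filter (fun j => a j = t), a j * (X.lm (mns fun i : {x // x ∈
          Finset.univ.filter fun i => a i < a j} => lin P (fun l => algebraMap E B (e i l))) -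
        X.lm (mns (ad (fun i : {x // x ∈ Finset.univ.filter fun i => a i < a j} =>
          lin P (fun l => algebraMap E B (e i l))) (lin P (b j))))) =
        t * (X.lm (mns fun i : {x // x ∈
          Finset.univ.filter fun i => a i < t} => lin P (fun l => algebraMap E B (e i l))) -
        X.lm (mns (ad (fun i : {x // x ∈ Finset.univ.filter fun i => a i < t} =>
          lin P (fun l => algebraMap E B (e i l))) (lin P (b j))))) := by
      intro j hj
      have h3 : a j = t := (Finset.mem_filter.mp hj).2
      rw [h3]
    rw [Finset.sum_congr rfl h2, ← Finset.mul_sum]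
    have ht0 : 0 ≤ t := by
      obtain ⟨j, _, rfl⟩ := Finset.mem_image.mp ht
      exact ha j
    refine mul_le_mul_of_nonneg_left ?_ ht0
    have h4 := hsp t ht
    have h5 : ∑ j ∈ Finset.univ.filter (fun j => a j = t), (X.lm (mns fun i : {x // x ∈
          Finset.univ.filter fun i => a i < t} => lin P (fun l => algebraMap E B (e i l))) -
        X.lm (mns (ad (fun i : {x // x ∈ Finset.univ.filter fun i => a i < t} =>
          lin P (fun l => algebraMap E B (e i l))) (lin P (b j))))) =
        -∑ j ∈ Finset.univ.filter (fun j => a j = t),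
        (X.lm (mns (ad (fun i : {x // x ∈ Finset.univ.filter fun i => a i < t} =>
            lin P (fun l => algebraMap E B (e i l))) (lin P (b j)))) -
          X.lm (mns fun i : {x // x ∈ Finset.univ.filter fun i => a i < t} =>
            lin P (fun l => algebraMap E B (e i l)))) := by
      rw [← Finset.sum_neg_distrib]
      exact Finset.sum_congr rfl fun j _ => by ring
    rw [h5]
    linarith
  · rw [Finset.sum_sub_distrib]
    linarith

end

end Pool.Agent.Lib.MP_17a322_nt.FQ
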