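import Pool.Agent.Lib.MP_17a322_nt.FQ.J1
import Pool.Agent.Lib.MP_17a322_nt.FQ.H2
import Pool.Agent.Lib.MP_17a322_nt.EQ.G0

/-!
The homogeneous ideal of a point over an extension field, and its tangent space.
-/

universe u

namespace Pool.Agent.Lib.MP_17a322_nt.FQ

open MvPolynomial
open Pool.Agent.Lib.MP_17a322_nt.EQ (IsPt Tan dif)

variable {k E : Type u} [Field k] [Field E] [Algebra k E] {ι : Type} [Fintype ι]

/-- The homogeneous ideal of the point `m`. -/
noncomputable def gI (k : Type u) {E : Type u} [Field k] [Field E] [Algebra k E] {ι : Type} (m : ι → E) :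
    Ideal (MvPolynomial ι k) :=
  RingHom.ker (aeval (R := k) fun i => (Polynomial.C (m i) * Polynomial.X : Polynomial E))

/-- The value of a homogeneous polynomial at the point of the cone with parameter `X`. -/
private theorem V1_hom (m : ι → E) {F : MvPolynomial ι k} {d : ℕ} (hF : F.IsHomogeneous d) :
    aeval (R := k) (fun i => (Polynomial.C (m i) * Polynomial.X : Polynomial E)) F =
      Polynomial.X ^ d * Polynomial.C (aeval m F) := by
  have h1 := EQ.aeval_mul hF (Polynomial.X : Polynomial E) (fun i => Polynomial.C (m i))
  have h2 := EQ.aeval_map (Polynomial.CAlgHom : E →ₐ[k] Polynomial E) m F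
  have h3 : (fun i => (Polynomial.C (m i) * Polynomial.X : Polynomial E)) =
      fun i => Polynomial.X * Polynomial.C (m i) := by
    funext i
    exact mul_comm _ _
  rw [h3, h1]
  congr 1

/-- The value of a polynomial at the point of the cone with parameter `X`. -/
private theorem V1_sum (m : ι → E) (F : MvPolynomial ι k) :
    aeval (R := k) (fun i => (Polynomial.C (m i) * Polynomial.X : Polynomial E)) F =
      ∑ d ∈ Finset.range (F.totalDegree + 1),
        Polynomial.X ^ d * Polynomial.C (aeval m (homogeneousComponent d F)) := by
  conv_lhs => rw [← sum_homogeneousComponent F]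
  rw [map_sum]
  exact Finset.sum_congr rfl fun d _ => V1_hom m (homogeneousComponent_isHomogeneous d F)

/-- A polynomial is in the ideal of the point if and only if all its homogeneous components vanish at the
point. -/
theorem mem_gI (m : ι → E) (F : MvPolynomial ι k) :
    F ∈ gI k m ↔ ∀ d, aeval m (homogeneousComponent d F) = 0 := by
  rw [gI, RingHom.mem_ker, V1_sum]
  constructor
  · intro h d
    by_cases hd : F.totalDegree < d
    · rw [homogeneousComponent_eq_zero _ _ hd, map_zero]
    · have h1 := congrArg (fun f : Polynomial E => f.coeff d) h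
      simp only [Polynomial.finsetSum_coeff, Polynomial.coeff_zero] at h1
      rw [Finset.sum_eq_single d] at h1
      · rwa [Polynomial.coeff_X_pow_mul', if_pos le_rfl, Nat.sub_self, Polynomial.coeff_C_zero] at h1
      · intro e _ he
        rw [Polynomial.coeff_X_pow_mul']
        split_ifs with hed
        · rw [Polynomial.coeff_C, if_neg]
          omega
        · rfl
      · intro h2
        exact absurd (Finset.mem_range.2 (by omega)) h2
  · intro h
    refine Finset.sum_eq_zero fun d _ => ?_
    rw [h d, map_zero, mul_zero]

/-- The ideal of a point is prime. -/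
theorem gI_prime (m : ι → E) : (gI k m).IsPrime := by
  unfold gI
  exact RingHom.ker_isPrime _

/-- The ideal of a point is homogeneous. -/
theorem gI_homog (m : ι → E) : ∀ F ∈ gI k m, ∀ i, homogeneousComponent i F ∈ gI k m := by
  intro F hF i
  rw [mem_gI] at hF ⊢
  intro d
  rw [homogeneousComponent_of_mem (homogeneousComponent_mem i F)]
  split_ifs with h
  · exact hF i
  · rw [map_zero]

/-- The polynomials of the ideal of a point vanish at it. -/
theorem gI_aeval (m : ι → E) {F : MvPolynomial ι k} (hF : F ∈ gI k m) : aeval m F = 0 := by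
  rw [mem_gI] at hF
  rw [← sum_homogeneousComponent F, map_sum]
  exact Finset.sum_eq_zero fun d _ => hF d

/-- A homogeneous polynomial which is not in the ideal of a point does not vanish at it. -/
theorem gI_ne (m : ι → E) {G : MvPolynomial ι k} {d : ℕ} (hG : G.IsHomogeneous d) (h : G ∉ gI k m) :
    aeval m G ≠ 0 := by
  intro h0
  apply h
  rw [mem_gI]
  intro e
  rw [homogeneousComponent_of_mem ((mem_homogeneousSubmodule d G).2 hG)]
  split_ifs
  · exact h0
  · rw [map_zero]

/-- The point lies in the tangent space of the cone. -/
theorem self_mem_gI (m : ι → E) (hm : m ≠ 0) : m ∈ Tan (gI k m) m :=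
  EQ.self_mem_Tan (gI_homog m) ⟨hm, fun _ hF => gI_aeval m hF⟩

/-- The derivative of the coordinates of the point lies in the tangent space of the cone. -/
theorem der_mem_gI (m : ι → E) (D : Derivation k E E) : (fun i => D (m i)) ∈ Tan (gI k m) m := by
  rw [EQ.mem_Tan]
  intro F hF
  have h1 : ∀ P : MvPolynomial ι k, dif m P (fun i => D (m i)) = D (aeval m P) := by
    intro P
    induction P using MvPolynomial.induction_on with
    | C a => rw [EQ.dif_C, aeval_C, D.map_algebraMap]
    | add p q hp hq => rw [EQ.dif_add, map_add, map_add, hp, hq]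
    | mul_X p i hp =>
      rw [EQ.dif_mul, EQ.dif_X, hp, map_mul, aeval_X, D.leibniz, smul_eq_mul, smul_eq_mul]
  rw [h1, gI_aeval m hF, map_zero]

end Pool.Agent.Lib.MP_17a322_nt.FQ
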