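import Pool.Agent.Lib.MP_17a322_nt.FQ.V1
import Pool.Agent.Lib.MP_17a322_nt.FQ.V2
import Pool.Agent.Lib.MP_17a322_nt.ABN.Sard

/-!
The tangent vectors of the cone at the generic point are given by derivations.
-/

universe u

set_option linter.unusedSectionVars false

namespace Pool.Agent.Lib.MP_17a322_nt.FQ

open MvPolynomial
open Pool.Agent.Lib.MP_17a322_nt.EQ (IsPt Tan dif)

variable {k E : Type u} [Field k] [Field E] [Algebra k E] {ι : Type} [Fintype ι]

/-- The differential of a power of a coordinate which is one, in a direction in which it is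
constant. -/
theorem V3_pow (m : ι → E) {i₀ : ι} (t : ι → E) (ht : t i₀ = 0) (n : ℕ) :
    dif m ((X i₀ : MvPolynomial ι k) ^ n) t = 0 := by
  induction n with
  | zero => rw [pow_zero, EQ.dif_one]
  | succ n ih => rw [pow_succ, EQ.dif_mul, ih, EQ.dif_X, ht, mul_zero, mul_zero, add_zero]

/-- The differential vanishes on all polynomials which vanish at the generic point. -/
theorem V3_claim (m : ι → E) {i₀ : ι} (h1 : m i₀ = 1) {t : ι → E} (ht : t ∈ Tan (gI k m) m)
    (ht0 : t i₀ = 0) (P : MvPolynomial ι k) (hP : aeval m P = 0) : dif m P t = 0 := by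
  classical
  set d := P.totalDegree with hd
  set P' : MvPolynomial ι k := ∑ e ∈ Finset.range (d + 1), X i₀ ^ (d - e) * homogeneousComponent e P
    with hP'
  have hsum : ∑ e ∈ Finset.range (d + 1), homogeneousComponent e P = P := sum_homogeneousComponent P
  have hhom : P'.IsHomogeneous d := by
    refine IsHomogeneous.sum _ _ _ fun e he => ?_
    have h2 : d = (d - e) + e := by
      have := Finset.mem_range.1 he
      omega
    conv_rhs => rw [h2]
    refine IsHomogeneous.mul ?_ (homogeneousComponent_isHomogeneous e P)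
    have h3 := (isHomogeneous_X k i₀).pow (d - e)
    rwa [one_mul] at h3
  have haev : aeval m P' = 0 := by
    rw [hP', map_sum]
    have h2 : ∀ e ∈ Finset.range (d + 1), aeval m (X i₀ ^ (d - e) * homogeneousComponent e P) =
        aeval m (homogeneousComponent e P) := by
      intro e _
      rw [map_mul, map_pow, aeval_X, h1, one_pow, one_mul]
    rw [Finset.sum_congr rfl h2, ← map_sum, hsum, hP]
  have hmem : P' ∈ gI k m := by
    rw [mem_gI]
    intro e
    by_cases he : e = d
    · subst he
      rw [homogeneousComponent_of_mem hhom, if_pos rfl]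
      exact haev
    · rw [homogeneousComponent_of_mem hhom, if_neg he, map_zero]
  have h2 := EQ.mem_Tan.1 ht P' hmem
  rw [hP', EQ.dif_sum] at h2
  have h3 : ∀ e ∈ Finset.range (d + 1), dif m (X i₀ ^ (d - e) * homogeneousComponent e P) t =
      dif m (homogeneousComponent e P) t := by
    intro e _
    rw [EQ.dif_mul, V3_pow m t ht0, mul_zero, add_zero, map_pow, aeval_X, h1, one_pow, one_mul]
  rw [Finset.sum_congr rfl h3, ← EQ.dif_sum, hsum] at h2
  exact h2

/-- Elements of the field are quotients of values of polynomials. -/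
theorem V3_rep (m : ι → E) (hE : IntermediateField.adjoin k (Set.range m) = ⊤) (x : E) :
    ∃ P Q : MvPolynomial ι k, aeval m Q ≠ 0 ∧ x * aeval m Q = aeval m P := by
  have hx : x ∈ IntermediateField.adjoin k (Set.range m) := by
    rw [hE]
    exact IntermediateField.mem_top
  obtain ⟨P, Q, h⟩ := (IntermediateField.mem_adjoin_range_iff (F := k) m x).1 hx
  by_cases hQ : aeval m Q = 0
  · refine ⟨0, 1, ?_, ?_⟩
    · rw [map_one]
      exact one_ne_zero
    · rw [h, hQ, div_zero, zero_mul, map_zero]
  · exact ⟨P, Q, hQ, by rw [h, div_mul_cancel₀ _ hQ]⟩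

/-- The value of the derivation does not depend on the representation. -/
theorem V3_uniq (m : ι → E) {t : ι → E}
    (hc : ∀ P : MvPolynomial ι k, aeval m P = 0 → dif m P t = 0) {x : E}
    {P Q P' Q' : MvPolynomial ι k} (hQ : aeval m Q ≠ 0) (hQ' : aeval m Q' ≠ 0)
    (h : x * aeval m Q = aeval m P) (h' : x * aeval m Q' = aeval m P') :
    (dif m P t - x * dif m Q t) / aeval m Q = (dif m P' t - x * dif m Q' t) / aeval m Q' := by
  have h2 := hc (P * Q' - P' * Q) (by
    rw [map_sub, map_mul, map_mul, ← h, ← h']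
    ring)
  rw [EQ.dif_sub, EQ.dif_mul, EQ.dif_mul, ← h, ← h'] at h2
  rw [div_eq_div_iff hQ hQ']
  linear_combination h2

/-- The tangent vectors of the cone are given by derivations. -/
theorem mem_gI_Tan (m : ι → E) {i₀ : ι} (h1 : m i₀ = 1)
    (hE : IntermediateField.adjoin k (Set.range m) = ⊤) {y : ι → E} (hy : y ∈ Tan (gI k m) m) :
    ∃ (c : E) (D : Derivation k E E), ∀ i, y i = c * m i + D (m i) := by
  have hm : m ≠ 0 := fun h0 => by
    have h2 := congrFun h0 i₀
    rw [h1, Pi.zero_apply] at h2
    exact one_ne_zero h2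
  set t : ι → E := y - (y i₀) • m with htdef
  have ht : t ∈ Tan (gI k m) m := Submodule.sub_mem _ hy (Submodule.smul_mem _ _ (self_mem_gI m hm))
  have ht0 : t i₀ = 0 := by
    rw [htdef, Pi.sub_apply, Pi.smul_apply, smul_eq_mul, h1, mul_one, sub_self]
  have hc := V3_claim (k := k) m h1 ht ht0
  choose P Q hQ hPQ using V3_rep (k := k) m hE
  let f : E → E := fun x => (dif m (P x) t - x * dif m (Q x) t) / aeval m (Q x)
  have hf : ∀ {x : E} {P' Q' : MvPolynomial ι k}, aeval m Q' ≠ 0 → x * aeval m Q' = aeval m P' →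
      f x = (dif m P' t - x * dif m Q' t) / aeval m Q' := fun hQ' h' =>
    V3_uniq m hc (hQ _) hQ' (hPQ _) h'
  have hadd : ∀ x x', f (x + x') = f x + f x' := by
    intro x x'
    have hne : aeval m (Q x * Q x') ≠ 0 := by
      rw [map_mul]
      exact mul_ne_zero (hQ x) (hQ x')
    have h2 := hf (x := x + x') (P' := P x * Q x' + P x' * Q x) (Q' := Q x * Q x') hne (by
      rw [map_mul, map_add, map_mul, map_mul, ← hPQ, ← hPQ]
      ring)
    rw [h2]
    show _ = (dif m (P x) t - x * dif m (Q x) t) / aeval m (Q x) +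
      (dif m (P x') t - x' * dif m (Q x') t) / aeval m (Q x')
    have hQx := hQ x
    have hQx' := hQ x'
    rw [div_add_div _ _ hQx hQx', map_mul, EQ.dif_add, EQ.dif_mul, EQ.dif_mul, EQ.dif_mul,
      ← hPQ x, ← hPQ x']
    refine congrArg (· / _) ?_
    ring
  have hmul : ∀ x x', f (x * x') = x * f x' + x' * f x := by
    intro x x'
    have hne : aeval m (Q x * Q x') ≠ 0 := by
      rw [map_mul]
      exact mul_ne_zero (hQ x) (hQ x')
    have h2 := hf (x := x * x') (P' := P x * P x') (Q' := Q x * Q x') hne (by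
      rw [map_mul, map_mul, ← hPQ, ← hPQ]
      ring)
    rw [h2]
    show _ = x * ((dif m (P x') t - x' * dif m (Q x') t) / aeval m (Q x')) +
      x' * ((dif m (P x) t - x * dif m (Q x) t) / aeval m (Q x))
    have hQx := hQ x
    have hQx' := hQ x'
    rw [mul_div_assoc', mul_div_assoc', div_add_div _ _ hQx' hQx, map_mul, EQ.dif_mul, EQ.dif_mul,
      ← hPQ x, ← hPQ x', div_eq_div_iff (mul_ne_zero hQx hQx') (mul_ne_zero hQx' hQx)]
    ring
  have hsmul : ∀ (c : k) x, f (c • x) = c • f x := by
    intro c x
    have h2 := hf (x := c • x) (P' := C c * P x) (Q' := Q x) (hQ x) (by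
      rw [map_mul, aeval_C, ← hPQ, Algebra.smul_def]
      ring)
    rw [h2, EQ.dif_mul, EQ.dif_C, mul_zero, add_zero, aeval_C, Algebra.smul_def, Algebra.smul_def]
    show _ = algebraMap k E c * ((dif m (P x) t - x * dif m (Q x) t) / aeval m (Q x))
    rw [mul_div_assoc']
    refine congrArg (· / _) ?_
    ring
  let D : Derivation k E E := Derivation.mk'
    { toFun := f, map_add' := hadd, map_smul' := hsmul } hmul
  refine ⟨y i₀, D, fun i => ?_⟩
  have h2 : D (m i) = t i := by
    have h3 := hf (x := m i) (P' := X i) (Q' := 1) (by rw [map_one]; exact one_ne_zero) (by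
      rw [map_one, mul_one, aeval_X])
    rw [map_one, div_one, EQ.dif_one, mul_zero, sub_zero, EQ.dif_X] at h3
    exact h3
  rw [h2, htdef, Pi.sub_apply, Pi.smul_apply, smul_eq_mul]
  ring

/-- The tangent space of the cone at the generic point. -/
theorem Tan_gI (m : ι → E) {i₀ : ι} (h1 : m i₀ = 1) (hE : IntermediateField.adjoin k (Set.range m) = ⊤)
    {z : ℕ} (D : Fin z → Derivation k E E) (hD₀ : ⊤ ≤ Submodule.span E (Set.range D)) :
    Tan (gI k m) m = Submodule.span E (Set.range (jv m fun j i => D j (m i))) := by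
  have hm : m ≠ 0 := fun h0 => by
    have h2 := congrFun h0 i₀
    rw [h1, Pi.zero_apply] at h2
    exact one_ne_zero h2
  refine le_antisymm (fun y hy => ?_) ?_
  · obtain ⟨c, D', h⟩ := mem_gI_Tan m h1 hE hy
    have hD' : D' ∈ Submodule.span E (Set.range D) := hD₀ Submodule.mem_top
    obtain ⟨a, ha⟩ := (Submodule.mem_span_range_iff_exists_fun E).1 hD'
    have h2 : y = c • (jv m (fun j i => D j (m i)) none) +
        ∑ j, a j • (jv m (fun j i => D j (m i)) (some j)) := by
      funext i
      rw [h i, ← ha, Pi.add_apply, Finset.sum_apply, Pi.smul_apply, smul_eq_mul]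
      refine congrArg₂ (· + ·) rfl ?_
      have h3 : ∀ T : Finset (Fin z), (∑ j ∈ T, a j • D j) (m i) = ∑ j ∈ T, a j * D j (m i) := by
        classical
        intro T
        induction T using Finset.induction_on with
        | empty => rw [Finset.sum_empty, Finset.sum_empty, Derivation.zero_apply]
        | insert j T hj ih =>
          rw [Finset.sum_insert hj, Finset.sum_insert hj, Derivation.add_apply, ih,
            Derivation.smul_apply, smul_eq_mul]
      rw [h3]
      rfl
    rw [h2]
    refine Submodule.add_mem _ (Submodule.smul_mem _ _ (Submodule.subset_span ⟨none, rfl⟩)) ?_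
    exact Submodule.sum_mem _ fun j _ => Submodule.smul_mem _ _ (Submodule.subset_span ⟨some j, rfl⟩)
  · rw [Submodule.span_le]
    rintro _ ⟨o, rfl⟩
    cases o with
    | none => exact self_mem_gI m hm
    | some j => exact der_mem_gI m (D j)

end Pool.Agent.Lib.MP_17a322_nt.FQ
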