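import Pool.Agent.Lib.MP_17a322_nt.FQ.A1
import Pool.Agent.Lib.MP_17a322_nt.EQ.G0

/-!
Specialisation of the tangent space.
-/

set_option linter.unusedSectionVars false

universe u

namespace Pool.Agent.Lib.MP_17a322_nt.FQ

open MvPolynomial
open Pool.Agent.Lib.MP_17a322_nt.EQ (IsPt Tan dif)

variable {k B : Type u} [Field k] [NumberField k] [Field B] [Algebra k B] {I : Type} (X : Evl k B I)
  {E : Type u} [Field E] [Algebra k E] [Algebra E B] [IsScalarTower k E B] {ι : Type} [Fintype ι]

/-- The value at `i` of an element of `E`. -/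
noncomputable def eE (x : E) (i : I) : k := X.ev (algebraMap E B x) i

/-- The values of polynomials. -/
theorem eE_aeval (p : ι → E) (F : MvPolynomial ι k) :
    ∀ᶠ i in (X.U : Filter I), eE X (aeval p F) i = aeval (fun a => eE X (p a) i) F := by
  have h1 : algebraMap E B (aeval p F) = aeval (fun a => algebraMap E B (p a)) F := by
    rw [← MvPolynomial.aeval_algebraMap_apply]
    rfl
  filter_upwards [ev_aeval X (fun a => algebraMap E B (p a)) F] with i hi
  unfold eE
  rw [h1, hi, MvPolynomial.aeval_eq_eval]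

private theorem V4_zero : ∀ᶠ i in (X.U : Filter I), eE X (0 : E) i = 0 := by
  filter_upwards [ev_zero X] with i hi
  unfold eE
  rw [map_zero, hi]

/-- The values of the differentials. -/
theorem eE_dif (p y : ι → E) (F : MvPolynomial ι k) :
    ∀ᶠ i in (X.U : Filter I), eE X (dif p F y) i = dif (fun a => eE X (p a) i) F fun a => eE X (y a) i := by
  have h1 : algebraMap E B (dif p F y) =
      ∑ a, algebraMap E B (aeval p (pderiv a F)) * algebraMap E B (y a) := by
    rw [EQ.dif_apply, map_sum]
    exact Finset.sum_congr rfl fun a _ => map_mul _ _ _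
  have h2 : ∀ᶠ i in (X.U : Filter I), ∀ a : ι,
      X.ev (algebraMap E B (aeval p (pderiv a F)) * algebraMap E B (y a)) i =
        X.ev (algebraMap E B (aeval p (pderiv a F))) i * X.ev (algebraMap E B (y a)) i :=
    Filter.eventually_all.2 fun a => X.mul _ _
  have h3 : ∀ᶠ i in (X.U : Filter I), ∀ a : ι,
      eE X (aeval p (pderiv a F)) i = aeval (fun a => eE X (p a) i) (pderiv a F) :=
    Filter.eventually_all.2 fun a => eE_aeval X p (pderiv a F)
  filter_upwards [ev_sum X Finset.univ fun a : ι =>
    algebraMap E B (aeval p (pderiv a F)) * algebraMap E B (y a), h2, h3] with i hi1 hi2 hi3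
  unfold eE at hi3 ⊢
  rw [h1, hi1, EQ.dif_apply]
  refine Finset.sum_congr rfl fun a _ => ?_
  rw [hi2, hi3]

/-- The values of a nonzero element. -/
theorem eE_ne {x : E} (hx : x ≠ 0) : ∀ᶠ i in (X.U : Filter I), eE X x i ≠ 0 :=
  ev_ne X (by rwa [Ne, map_eq_zero])

/-- The values of determinants. -/
theorem eE_det {α : Type} [Fintype α] [DecidableEq α] (M : α → α → E) :
    ∀ᶠ i in (X.U : Filter I), eE X (Matrix.of M).det i = (Matrix.of fun a b => eE X (M a b) i).det := by
  filter_upwards [ev_det X ((algebraMap E B).mapMatrix (Matrix.of M))] with i hi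
  unfold eE
  rw [RingHom.map_det, hi]
  rfl

private theorem V4_sum {α : Type} [Fintype α] (f g : α → E) :
    ∀ᶠ i in (X.U : Filter I), eE X (∑ a, f a * g a) i = ∑ a, eE X (f a) i * eE X (g a) i := by
  have h2 : ∀ᶠ i in (X.U : Filter I), ∀ a : α,
      X.ev (algebraMap E B (f a) * algebraMap E B (g a)) i =
        X.ev (algebraMap E B (f a)) i * X.ev (algebraMap E B (g a)) i :=
    Filter.eventually_all.2 fun a => X.mul _ _
  filter_upwards [ev_sum X Finset.univ fun a : α => algebraMap E B (f a) * algebraMap E B (g a), h2]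
    with i hi1 hi2
  unfold eE
  rw [map_sum]
  simp only [map_mul]
  rw [hi1]
  exact Finset.sum_congr rfl fun a _ => hi2 a

/-- Independent vectors have dual functionals. -/
private theorem V4_dual {L : Type*} [Field L] {ρ ι : Type} [Fintype ρ] [DecidableEq ρ] [Fintype ι]
    (y : ρ → ι → L) (hy : LinearIndependent L y) :
    ∃ N : ι → ρ → L, ∀ j l, ∑ a, y j a * N a l = if j = l then 1 else 0 := by
  classical
  have hker : LinearMap.ker (Fintype.linearCombination L y) = ⊥ := by
    rw [LinearMap.ker_eq_bot']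
    intro c hc
    rw [Fintype.linearCombination_apply] at hc
    exact funext fun i => Fintype.linearIndependent_iff.1 hy c hc i
  obtain ⟨g, hg⟩ := LinearMap.exists_leftInverse_of_injective _ hker
  have hgy : ∀ j, g (y j) = Pi.single j 1 := by
    intro j
    have h1 := LinearMap.congr_fun hg (Pi.single j 1)
    rw [LinearMap.comp_apply, Fintype.linearCombination_apply_single, one_smul] at h1
    exact h1
  refine ⟨fun a l => g (Pi.single a 1) l, fun j l => ?_⟩
  have h1 : y j = ∑ a, y j a • (Pi.single a 1 : ι → L) := by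
    funext b
    rw [Finset.sum_apply, Finset.sum_eq_single b]
    · rw [Pi.smul_apply, Pi.single_eq_same, smul_eq_mul, mul_one]
    · intro a _ ha
      rw [Pi.smul_apply, Pi.single_eq_of_ne (Ne.symm ha), smul_zero]
    · intro h
      exact absurd (Finset.mem_univ b) h
  have h2 := congrFun (hgy j) l
  rw [h1, map_sum, Finset.sum_apply] at h2
  simp only [map_smul, Pi.smul_apply, smul_eq_mul] at h2
  rw [h2, Pi.single_apply]
  by_cases h : l = j
  · rw [if_pos h, if_pos h.symm]
  · rw [if_neg h, if_neg (Ne.symm h)]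

private theorem V4_li {L : Type*} [Field L] {ρ ι : Type} [Fintype ρ] [DecidableEq ρ] [Fintype ι]
    (y : ρ → ι → L) (N : ι → ρ → L) (h : ∀ j l, ∑ a, y j a * N a l = if j = l then 1 else 0) :
    LinearIndependent L y := by
  rw [Fintype.linearIndependent_iff]
  intro c hc l
  have h1 : ∑ a, (∑ j, c j • y j) a * N a l = c l := by
    simp only [Finset.sum_apply, Pi.smul_apply, smul_eq_mul, Finset.sum_mul]
    rw [Finset.sum_comm]
    simp only [mul_assoc, ← Finset.mul_sum, h, mul_ite, mul_one, mul_zero, Finset.sum_ite_eq',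
      Finset.mem_univ, if_true]
  rw [← h1, hc]
  exact Finset.sum_eq_zero fun a _ => by rw [Pi.zero_apply, zero_mul]

/-- Linearly independent vectors stay independent. -/
theorem eE_li {ρ : Type} [Fintype ρ] (y : ρ → ι → E) (hy : LinearIndependent E y) :
    ∀ᶠ i in (X.U : Filter I), LinearIndependent k fun j a => eE X (y j a) i := by
  classical
  obtain ⟨N, hN⟩ := V4_dual y hy
  have h1 : ∀ᶠ i in (X.U : Filter I), ∀ j l,
      eE X (∑ a, y j a * N a l) i = ∑ a, eE X (y j a) i * eE X (N a l) i :=
    Filter.eventually_all.2 fun j => Filter.eventually_all.2 fun l => V4_sum X _ _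
  have h2 : ∀ᶠ i in (X.U : Filter I), eE X (1 : E) i = 1 := by
    filter_upwards [ev_one X] with i hi
    unfold eE
    rw [map_one, hi]
  filter_upwards [h1, h2, V4_zero (E := E) X] with i hi1 hi2 hi3
  refine V4_li _ (fun a l => eE X (N a l) i) fun j l => ?_
  rw [← hi1, hN]
  by_cases h : j = l
  · rw [if_pos h, if_pos h, hi2]
  · rw [if_neg h, if_neg h, hi3]

/-- The zeros of an ideal and the differentials, from generators. -/
private theorem V4_span {L : Type u} [Field L] [Algebra k L] (S : Set (MvPolynomial ι k)) (q w : ι → L)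
    (h0 : ∀ G ∈ S, aeval q G = 0) {F : MvPolynomial ι k} (hF : F ∈ Ideal.span S) :
    aeval q F = 0 ∧ ((∀ G ∈ S, dif q G w = 0) → dif q F w = 0) := by
  induction hF using Submodule.span_induction with
  | mem x hx => exact ⟨h0 x hx, fun h => h x hx⟩
  | zero => exact ⟨map_zero _, fun _ => EQ.dif_zero q w⟩
  | add x y _ _ hx hy =>
    refine ⟨?_, fun h => ?_⟩
    · rw [map_add, hx.1, hy.1, add_zero]
    · rw [EQ.dif_add, hx.2 h, hy.2 h, add_zero]
  | smul a x _ hx =>
    refine ⟨?_, fun h => ?_⟩
    · rw [smul_eq_mul, map_mul, hx.1, mul_zero]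
    · rw [smul_eq_mul, EQ.dif_mul, hx.1, hx.2 h, mul_zero, zero_mul, add_zero]

/-- Specialisation of the tangent space. -/
theorem spec_Tan (J : Ideal (MvPolynomial ι k)) (p : ι → E) (hp : ∀ F ∈ J, aeval p F = 0) (hp0 : p ≠ 0)
    {ρ : Type} [Fintype ρ] (y : ρ → ι → E) (hy : LinearIndependent E y)
    (hT : Tan J p = Submodule.span E (Set.range y)) :
    ∀ᶠ i in (X.U : Filter I), IsPt J (fun a => eE X (p a) i) ∧
      Module.finrank k (Tan J fun a => eE X (p a) i) = Fintype.card ρ ∧
      (∀ j, (fun a => eE X (y j a) i) ∈ Tan J fun a => eE X (p a) i) ∧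
      LinearIndependent k fun j a => eE X (y j a) i := by
  classical
  obtain ⟨S, hS⟩ : J.FG := IsNoetherian.noetherian J
  have hS' : Ideal.span (S : Set (MvPolynomial ι k)) = J := hS
  have hSJ : ∀ G ∈ S, G ∈ J := fun G hG => by
    rw [← hS']
    exact Ideal.subset_span hG
  -- the rows
  obtain ⟨R, hR⟩ : ∃ R : Matrix S ι E, R = Matrix.of fun G a => aeval p (pderiv a G.1) := ⟨_, rfl⟩
  have hRa : ∀ G a, R G a = aeval p (pderiv a G.1) := fun G a => by
    rw [hR]
    rfl
  have hker : LinearMap.ker R.mulVecLin = Tan J p := by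
    ext w
    rw [LinearMap.mem_ker, EQ.mem_Tan, Matrix.mulVecLin_apply]
    have h1 : ∀ G : S, (R.mulVec w) G = dif p G.1 w := by
      intro G
      rw [EQ.dif_apply, hR]
      rfl
    constructor
    · intro h F hF
      rw [← hS'] at hF
      refine (V4_span _ p w (fun G hG => hp G (hSJ G hG)) hF).2 fun G hG => ?_
      rw [← h1 ⟨G, hG⟩, h]
      rfl
    · intro h
      funext G
      rw [h1, h _ (hSJ _ G.2)]
      rfl
  have hTf : Module.finrank E (Tan J p) = Fintype.card ρ := by
    rw [hT]
    exact finrank_span_eq_card hy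
  have hrank : R.rank + Fintype.card ρ = Fintype.card ι := by
    have h1 := LinearMap.finrank_range_add_finrank_ker R.mulVecLin
    rw [hker, hTf, Module.finrank_fintype_fun_eq_card] at h1
    exact h1
  obtain ⟨g, hg1, -, hg3⟩ := Submodule.exists_fun_fin_finrank_span_eq E (Set.range R.row)
  choose t ht using hg1
  have hfr : Module.finrank E (Submodule.span E (Set.range R.row)) = R.rank :=
    (Matrix.rank_eq_finrank_span_row R).symm
  have hli := eE_li X g hg3
  have hrow : ∀ᶠ i in (X.U : Filter I), ∀ l (a : ι),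
      eE X (aeval p (pderiv a (t l).1)) i = aeval (fun a => eE X (p a) i) (pderiv a (t l).1) :=
    Filter.eventually_all.2 fun l => Filter.eventually_all.2 fun a => eE_aeval X p _
  have hae : ∀ᶠ i in (X.U : Filter I), ∀ G : S,
      eE X (aeval p G.1) i = aeval (fun a => eE X (p a) i) G.1 :=
    Filter.eventually_all.2 fun G => eE_aeval X p _
  have hdf : ∀ᶠ i in (X.U : Filter I), ∀ (G : S) (j : ρ),
      eE X (dif p G.1 (y j)) i = dif (fun a => eE X (p a) i) G.1 fun a => eE X (y j a) i :=
    Filter.eventually_all.2 fun G => Filter.eventually_all.2 fun j => eE_dif X p (y j) _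
  obtain ⟨a₀, ha₀⟩ : ∃ a, p a ≠ 0 := by
    by_contra h
    push Not at h
    exact hp0 (funext h)
  have hyT : ∀ j, y j ∈ Tan J p := by
    intro j
    rw [hT]
    exact Submodule.subset_span ⟨j, rfl⟩
  filter_upwards [hli, hrow, hae, hdf, eE_ne X ha₀, eE_li X y hy, V4_zero (E := E) X]
    with i h1 h2 h3 h4 h5 h6 h7
  obtain ⟨q, hq⟩ : ∃ q : ι → k, q = fun a => eE X (p a) i := ⟨_, rfl⟩
  rw [← hq] at h2 h3 h4 ⊢
  have h0 : ∀ G ∈ (S : Set (MvPolynomial ι k)), aeval q G = 0 := by
    intro G hG
    have h8 := h3 ⟨G, hG⟩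
    rw [← h8]
    change eE X (aeval p G) i = 0
    rw [hp G (hSJ G hG), h7]
  have hJ : ∀ F ∈ J, aeval q F = 0 := by
    intro F hF
    rw [← hS'] at hF
    exact (V4_span _ q 0 h0 hF).1
  have hyq : ∀ j, (fun a => eE X (y j a) i) ∈ Tan J q := by
    intro j
    rw [EQ.mem_Tan]
    intro F hF
    rw [← hS'] at hF
    refine (V4_span _ q _ h0 hF).2 fun G hG => ?_
    have h8 := h4 ⟨G, hG⟩ j
    rw [← h8]
    change eE X (dif p G (y j)) i = 0
    rw [EQ.mem_Tan.1 (hyT j) G (hSJ G hG), h7]
  refine ⟨⟨?_, hJ⟩, ?_, hyq, h6⟩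
  · intro h
    have h8 := congrFun h a₀
    rw [hq] at h8
    exact h5 h8
  · apply le_antisymm
    · -- the upper bound
      obtain ⟨R', hR'⟩ : ∃ R' : Matrix (Fin (Module.finrank E (Submodule.span E (Set.range R.row)))) ι k,
        R' = Matrix.of fun l a => aeval q (pderiv a (t l).1) := ⟨_, rfl⟩
      have hR'li : LinearIndependent k R'.row := by
        have h8 : R'.row = fun j a => eE X (g j a) i := by
          funext l a
          have h14 : g l a = aeval p (pderiv a (t l).1) := by
            rw [← ht l]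
            change R (t l) a = _
            rw [hRa]
          rw [h14, h2 l a, hR']
          rfl
        rw [h8]
        exact h1
      have hr' : R'.rank = R.rank := by
        rw [← hfr, hR'li.rank_matrix, Fintype.card_fin]
      have h9 := LinearMap.finrank_range_add_finrank_ker R'.mulVecLin
      rw [Module.finrank_fintype_fun_eq_card] at h9
      have h10 : Module.finrank k (LinearMap.range R'.mulVecLin) = R'.rank := rfl
      have h11 : Tan J q ≤ LinearMap.ker R'.mulVecLin := by
        intro w hw
        rw [LinearMap.mem_ker, Matrix.mulVecLin_apply]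
        funext l
        have h12 : (R'.mulVec w) l = dif q (t l).1 w := by
          rw [EQ.dif_apply, hR']
          rfl
        rw [h12, EQ.mem_Tan.1 hw _ (hSJ _ (t l).2)]
        rfl
      have h13 := Submodule.finrank_mono h11
      omega
    · -- the lower bound
      have h8 : Submodule.span k (Set.range fun j a => eE X (y j a) i) ≤ Tan J q := by
        rw [Submodule.span_le]
        rintro _ ⟨j, rfl⟩
        exact hyq j
      have h9 := Submodule.finrank_mono h8
      rwa [finrank_span_eq_card h6] at h9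

end Pool.Agent.Lib.MP_17a322_nt.FQ
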