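import Pool.Agent.Lib.MP_17a322_nt.FQ.X1
import Pool.Agent.Lib.MP_17a322_nt.FQ.J1
import Pool.Agent.Lib.MP_17a322_nt.FQ.H3

/-!
The degree of the space of all derivations in terms of the jets; multiples of models.
-/

universe u

namespace Pool.Agent.Lib.MP_17a322_nt.FQ

section

variable {k : Type u} {E : Type u} [Field k] [Field E] [Algebra k E] {ι : Type} [Fintype ι]

private theorem V5_nm {κ : Type} [Fintype κ] (S : κ → E) (A : VQ k E) :
    nm k S A = vn A.1.valuation S := rfl

private theorem V5_ps {κ : Type} (m : κ → E) (c : E) (p : κ × κ) (v : Derivation k E E) :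
    ps (fun a => c * m a) p v = c ^ 2 * ps m p v := by
  have h1 : ps (fun a => c * m a) p v =
      c * m p.1 * v (c * m p.2) - c * m p.2 * v (c * m p.1) := rfl
  have h2 : ps m p v = m p.1 * v (m p.2) - m p.2 * v (m p.1) := rfl
  rw [h1, h2, Derivation.leibniz, Derivation.leibniz]
  simp only [smul_eq_mul]
  ring

/-- The degree of all derivations in terms of the jets. -/
theorem dg_top_jets [FiniteDimensional E (Derivation k E E)] (H : Ht k E) (m : ι → E) (hm : IsMd k m) {z : ℕ}
    (D : Fin z → Derivation k E E) (hD : LinearIndependent E D) (hD₀ : ⊤ ≤ Submodule.span E (Set.range D))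
    (hj : LinearIndependent E (jv m fun j i => D j (m i))) :
    dg H m ⊤ = (z + 1) * H.lam m - H.lam (plk (jv m fun j i => D j (m i))) := by
  have hs : Submodule.span E (Set.range D) = ⊤ := top_le_iff.mp hD₀
  have hQ : plk (jv m fun j i => D j (m i)) ≠ 0 := plk_ne_zero _ hj
  have key : ∀ A : VQ k E, nm k (plk (wv m fun j i => D j (m i))) A * nm k m A =
      nm k m A ^ z * nm k (plk (jv m fun j i => D j (m i))) A := by
    intro A
    have h := vn_plk_wv A.1.valuation m hm.1 (fun (j : Fin z) i => D j (m i))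
    rw [Fintype.card_fin] at h
    exact h
  have hP : plk (wv m fun j i => D j (m i)) ≠ 0 := by
    intro h0
    let A : VQ k E := ⟨⊤, fun c => ValuationSubring.mem_top _⟩
    have h1 := key A
    rw [V5_nm (plk (wv m fun j i => D j (m i))) A, (vn_eq_zero A.1.valuation).2 h0, zero_mul] at h1
    exact mul_ne_zero (pow_ne_zero _ (nm_ne m hm.1 A)) (nm_ne _ hQ A) h1.symm
  have e1 : Lm H (fun A => nm k (plk (wv m fun j i => D j (m i))) A * nm k m A)
      (H.lam (plk (wv m fun j i => D j (m i))) + H.lam m) :=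
    Lm_mul (Lm_fam _ hP) (Lm_fam m hm.1)
  have e2 : Lm H (fun A => nm k m A ^ z * nm k (plk (jv m fun j i => D j (m i))) A)
      (z * H.lam m + H.lam (plk (jv m fun j i => D j (m i)))) :=
    Lm_mul (Lm_fam_pow m hm.1 z) (Lm_fam _ hQ)
  have e3 : (fun A => nm k (plk (wv m fun j i => D j (m i))) A * nm k m A : Fn k E) =
      fun A => nm k m A ^ z * nm k (plk (jv m fun j i => D j (m i))) A := funext key
  rw [e3] at e1
  have e4 := Lm_uniq e1 e2
  have e5 := dv_dg H m hm D hD
  rw [hs] at e5
  have e6 : Lm H (dv m D) (H.lam (plk (wv m fun j i => D j (m i))) -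
      ((2 * Fintype.card (Fin z) : ℕ) : ℝ) * H.lam m) :=
    Lm_div (Lm_fam _ hP) (Lm_fam_pow m hm.1 (2 * Fintype.card (Fin z)))
  have e7 := Lm_uniq e5 e6
  rw [Fintype.card_fin] at e7
  push_cast at e7
  linarith

/-- The norm of a derivation does not depend on the scaling of the model. -/
theorem mn_smul_model (m : ι → E) (c : E) (hc : c ≠ 0) (A : VQ k E) (v : Derivation k E E) :
    mn (fun a => c * m a) A v = mn m A v := by
  have h1 : nm k (fun p => ps (fun a => c * m a) p v) A =
      A.1.valuation (c ^ 2) * nm k (fun p => ps m p v) A := by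
    have h2 : (fun p => ps (fun a => c * m a) p v) = (c ^ 2) • fun p => ps m p v := by
      funext p
      rw [Pi.smul_apply, smul_eq_mul, V5_ps]
    rw [h2]
    exact vn_smul A.1.valuation _ _
  have h3 : nm k (fun a => c * m a) A = A.1.valuation c * nm k m A :=
    vn_smul A.1.valuation c m
  have hc' : A.1.valuation c ≠ 0 := by simpa using hc
  unfold mn
  rw [h1, h3, mul_pow, map_pow, mul_div_mul_left _ _ (pow_ne_zero 2 hc')]

/-- A nonzero multiple of a model is a model. -/
theorem IsMd_smul (m : ι → E) (c : E) (hc : c ≠ 0) (hm : IsMd k m) : IsMd k fun a => c * m a := by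
  refine ⟨fun h => hm.1 ?_, fun v hv => hm.2 v fun p => ?_⟩
  · funext a
    have h1 := congrFun h a
    simp only [Pi.zero_apply, mul_eq_zero, hc, false_or] at h1
    exact h1
  · have h1 := hv p
    rw [V5_ps] at h1
    exact (mul_eq_zero.mp h1).resolve_left (pow_ne_zero 2 hc)

end

end Pool.Agent.Lib.MP_17a322_nt.FQ
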