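import Pool.Agent.Lib.MP_17a322_nt.FQ.V3
import Pool.Agent.Lib.MP_17a322_nt.FQ.V4
import Pool.Agent.Lib.MP_17a322_nt.FQ.V5
import Pool.Agent.Lib.MP_17a322_nt.FQ.T5
import Pool.Agent.Lib.MP_17a322_nt.EQ.H1
import Pool.Agent.Lib.MP_17a322_nt.JAC.Defs

/-!
Vojta's conjecture over `k`: the degree of the space of all derivations is not negative.
-/

universe u

namespace Pool.Agent.Lib.MP_17a322_nt.FQ

open MvPolynomial Height NumberField
open Pool.Agent.Lib.MP_17a322_nt.EQ (IsPt Tan dif hCan hPl)
open Pool.Agent.Lib.MP_17a322_nt.JAC (VojtaGauss)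

section

variable {k B : Type u} [Field k] [NumberField k] [Field B] [Algebra k B] {I : Type} (X : Evl k B I)
  {E : Type u} [Field E] [Algebra k E] [Algebra E B] [IsScalarTower k E B]
  [FiniteDimensional E (Derivation k E E)] {ι : Type} [Fintype ι]

omit [FiniteDimensional E (Derivation k E E)] in
/-- The height of the minors of the vectors at `i` with the index type `Option`. -/
theorem V6_hPl {z : ℕ} (V : Submodule k (ι → k)) (hr : Module.finrank k V = Fintype.card (Option (Fin z)))
    (y : Option (Fin z) → ι → k) (hy : ∀ o, y o ∈ V) (hi : LinearIndependent k y) :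
    hPl V = logHeight fun s : Option (Fin z) → ι => (Matrix.of fun a b => y b (s a)).det := by
  classical
  have hc : Fintype.card (Option (Fin z)) = z + 1 := by
    rw [Fintype.card_option, Fintype.card_fin]
  rw [hc] at hr
  let e : Fin (z + 1) ≃ Option (Fin z) := finSuccEquiv z
  have hi' : LinearIndependent k fun a => y (e a) := hi.comp e e.injective
  rw [Pool.Agent.Lib.MP_17a322_nt.EQ.hPl_eq V hr (fun a => y (e a)) (fun a => hy (e a)) hi']
  have h1 : (fun s : Fin (z + 1) → ι => (Matrix.of fun a b => y (e a) (s b)).det) =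
      (fun s : Option (Fin z) → ι => (Matrix.of fun a b => y b (s a)).det) ∘
        (Equiv.arrowCongr e (Equiv.refl ι)) := by
    funext s
    rw [Function.comp_apply, ← Matrix.det_transpose, ← Matrix.det_submatrix_equiv_self e]
    refine congrArg Matrix.det ?_
    ext a b
    simp [Matrix.submatrix_apply, Matrix.transpose_apply, Matrix.of_apply]
  rw [h1]
  exact logHeight_comp_equiv _ _

/-- Vojta's conjecture over `k`: the degree of the space of all derivations is not negative. -/
theorem dg_nonneg_gen (hV : VojtaGauss k) (m : ι → E) {i₀ : ι} (h1 : m i₀ = 1)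
    (hE : IntermediateField.adjoin k (Set.range m) = ⊤) : 0 ≤ dg (X.ht E) m ⊤ := by
  classical
  obtain ⟨z, D, hD, hD₀⟩ : ∃ (z : ℕ) (D : Fin z → Derivation k E E), LinearIndependent E D ∧
      ⊤ ≤ Submodule.span E (Set.range D) :=
    ⟨_, Module.finBasis E (Derivation k E E), (Module.finBasis E (Derivation k E E)).linearIndependent,
      (Module.finBasis E (Derivation k E E)).span_eq.ge⟩
  have hm0 : m ≠ 0 := fun h => one_ne_zero (h1.symm.trans (congrFun h i₀))
  obtain ⟨y, hyd⟩ : ∃ y : Option (Fin z) → ι → E, y = jv m fun j i => D j (m i) := ⟨_, rfl⟩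
  have hy : LinearIndependent E y := by
    rw [hyd]
    exact jv_li m h1 hE D hD
  have hT : Tan (gI k m) m = Submodule.span E (Set.range y) := by
    rw [hyd]
    exact Tan_gI m h1 hE D hD₀
  have hdg := dg_top_jets (X.ht E) m (gen_IsMd m h1 hE) D hD hD₀ (by rw [← hyd]; exact hy)
  rw [← hyd] at hdg
  rw [hdg]
  have key : ∀ ε : ℝ, 0 < ε → (X.ht E).lam (plk y) ≤ (z + 1 + ε) * (X.ht E).lam m := by
    intro ε hε
    obtain ⟨G, C, hG, ⟨d, hGd⟩, hGp⟩ := hV ι (gI k m) (gI_prime m) (gI_homog m) ε hε
    have e1 := spec_Tan X (gI k m) m (fun F hF => gI_aeval m hF) hm0 y hy hT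
    have e2 := eE_aeval X m G
    have e3 := eE_ne X (gI_ne m hGd hG)
    have e4 : ∀ᶠ i in (X.U : Filter I), ∀ s : Option (Fin z) → ι,
        eE X (plk y s) i = (Matrix.of fun a b => eE X (y b (s a)) i).det :=
      Filter.eventually_all.mpr fun s => eE_det X fun a b => y b (s a)
    have e5 := ev_pos X
    have t1 := lm_tendsto X (fun s : Option (Fin z) → ι => algebraMap E B (plk y s))
    have t2 := lm_tendsto X (fun a => algebraMap E B (m a))
    have t3 : Filter.Tendsto (fun i => C / X.h i) (X.U : Filter I) (nhds 0) :=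
      tendsto_const_nhds.div_atTop X.top
    have t4 := (t2.const_mul ((z : ℝ) + 1 + ε)).add t3
    rw [add_zero] at t4
    refine le_of_tendsto_of_tendsto t1 t4 ?_
    filter_upwards [e1, e2, e3, e4, e5] with i g1 g2 g3 g4 g5
    obtain ⟨f1, f2, f3, f4⟩ := g1
    have f5 : eval (fun a => eE X (m a) i) G ≠ 0 := by
      rw [← MvPolynomial.coe_aeval_eq_eval]
      rw [g2] at g3
      exact g3
    have f6 := hGp _ f1 f5
    unfold hCan at f6
    rw [V6_hPl _ f2 (fun o a => eE X (y o a) i) f3 f4, f2, Fintype.card_option, Fintype.card_fin] at f6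
    have f7 : (fun s : Option (Fin z) → ι => (Matrix.of fun a b => eE X (y b (s a)) i).det) =
        fun s => X.ev (algebraMap E B (plk y s)) i := by
      funext s
      rw [← g4 s]
      rfl
    rw [f7] at f6
    have f8 : (fun a => eE X (m a) i) = fun a => X.ev (algebraMap E B (m a)) i := rfl
    rw [f8] at f6
    push_cast at f6
    show _ / X.h i ≤ (z + 1 + ε) * (logHeight (fun a => X.ev (algebraMap E B (m a)) i) / X.h i) +
      C / X.h i
    rw [← mul_div_assoc, ← add_div]
    refine div_le_div_of_nonneg_right ?_ g5.le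
    linarith
  have h0 : 0 ≤ (X.ht E).lam m := lam_nonneg m hm0
  have h2 : (X.ht E).lam (plk y) ≤ (z + 1) * (X.ht E).lam m := by
    refine le_of_forall_pos_le_add fun δ hδ => ?_
    have h3 := key (δ / ((X.ht E).lam m + 1)) (by positivity)
    have h4 : δ / ((X.ht E).lam m + 1) * (X.ht E).lam m ≤ δ := by
      rw [div_mul_eq_mul_div, div_le_iff₀ (by positivity)]
      nlinarith
    calc _ ≤ _ := h3
      _ = (z + 1) * (X.ht E).lam m + δ / ((X.ht E).lam m + 1) * (X.ht E).lam m := by ring
      _ ≤ _ := by linarith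
  linarith

end

end Pool.Agent.Lib.MP_17a322_nt.FQ
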