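import Pool.Agent.Lib.MP_17a322_nt.FQ.H1
import Pool.Agent.Lib.MP_17a322_nt.FQ.N3

/-!
Subspaces of `F ^ z` with a norm given by linearly independent vectors `P j`: the heights of the maximal
minors.
-/

universe u v

namespace Pool.Agent.Lib.MP_17a322_nt.FQ

section

variable {F : Type u} [Field F] {κ : Type} {z : ℕ}

/-- The linear combination of the vectors `P j` with the coefficients `c j`. -/
def cmb (P : Fin z → κ → F) (c : Fin z → F) : κ → F := ∑ j, c j • P j

/-- Independent vectors have a nonzero maximal minor. -/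
theorem X1_minor {L ι : Type*} [Field L] [Finite ι] {n : ℕ} (y : Fin n → ι → L)
    (hy : LinearIndependent L y) :
    ∃ s : Fin n → ι, (Matrix.of fun k m => y k (s m)).det ≠ 0 := by
  classical
  have := Fintype.ofFinite ι
  let M : Matrix (Fin n) ι L := Matrix.of y
  have hr : M.rank = n := by
    have h0 : LinearIndependent L M.row := hy
    simpa using LinearIndependent.rank_matrix h0
  obtain ⟨g, hg1, hg2, hg3⟩ := Submodule.exists_fun_fin_finrank_span_eq L (Set.range M.col)
  have hfr : Module.finrank L (Submodule.span L (Set.range M.col)) = n := by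
    rw [← Matrix.rank_eq_finrank_span_cols]
    exact hr
  choose t ht using hg1
  refine ⟨fun m => t (Fin.cast hfr.symm m), ?_⟩
  have hli : LinearIndependent L
      (Matrix.of fun k m => y k (t (Fin.cast hfr.symm m))).col := by
    have h1 : (Matrix.of fun k m => y k (t (Fin.cast hfr.symm m))).col =
        g ∘ (Fin.cast hfr.symm) := by
      funext m
      simp only [Function.comp]
      rw [← ht]
      rfl
    rw [h1]
    exact hg3.comp _ (Fin.cast_injective _)
  have h2 := (Matrix.linearIndependent_cols_iff_isUnit.mp hli)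
  exact ((Matrix.isUnit_iff_isUnit_det _).mp h2).ne_zero

/-- The maximal minors of linearly independent vectors are not all zero. -/
theorem plk_ne_zero {ι : Type} [Fintype ι] [DecidableEq ι] [Finite κ] (x : ι → κ → F)
    (hx : LinearIndependent F x) : plk x ≠ 0 := by
  intro h0
  obtain ⟨s, hs⟩ := X1_minor (fun k => x ((Fintype.equivFin ι).symm k))
    (hx.comp _ (Fintype.equivFin ι).symm.injective)
  apply hs
  have h1 := plk_reindex x (Fintype.equivFin ι).symm s
  rw [h0, Pi.zero_apply, plk_apply, ← Matrix.det_transpose] at h1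
  exact h1

/-- The combinations of linearly independent vectors. -/
theorem cmb_li {ι : Type} {P : Fin z → κ → F} (hP : LinearIndependent F P) {y : ι → Fin z → F}
    (hy : LinearIndependent F y) : LinearIndependent F fun i => cmb P (y i) := by
  have h1 : Function.Injective (Fintype.linearCombination F P) := by
    rw [← LinearMap.ker_eq_bot, LinearMap.ker_eq_bot']
    intro c hc
    rw [Fintype.linearCombination_apply] at hc
    funext j
    exact Fintype.linearIndependent_iff.1 hP c hc j
  exact hy.map' (Fintype.linearCombination F P) (LinearMap.ker_eq_bot.2 h1)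

/-- The vector `cmb` as a linear map. -/
theorem X1_cmb_sum {ι : Type} [Fintype ι] (P : Fin z → κ → F) (t : ι → F) (b : ι → Fin z → F) :
    cmb P (∑ i, t i • b i) = ∑ i, t i • cmb P (b i) := by
  have h : ∀ c, cmb P c = Fintype.linearCombination F P c := fun c =>
    (Fintype.linearCombination_apply F P c).symm
  simp only [h, map_sum, map_smul]

/-- A basis of a subspace. -/
noncomputable def X1_bv (N : Submodule F (Fin z → F)) (i : Fin (Module.finrank F N)) : Fin z → F :=
  ((Module.finBasis F N i : N) : Fin z → F)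

theorem X1_bv_li (N : Submodule F (Fin z → F)) : LinearIndependent F (X1_bv N) :=
  (Module.finBasis F N).linearIndependent.map' N.subtype N.ker_subtype

theorem X1_bv_span (N : Submodule F (Fin z → F)) :
    Submodule.span F (Set.range (X1_bv N)) = N := by
  have h1 : Set.range (X1_bv N) = N.subtype '' Set.range (Module.finBasis F N) := by
    rw [← Set.range_comp]
    rfl
  rw [h1, Submodule.span_image, (Module.finBasis F N).span_eq, Submodule.map_subtype_top]

end

section

variable {k : Type v} {F : Type u} [Field k] [Field F] [Algebra k F] {κ : Type} [Fintype κ] {z : ℕ}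

/-- The height of the vector of the maximal minors of the images of a basis of `N`. -/
noncomputable def pH (H : Ht k F) (P : Fin z → κ → F) (N : Submodule F (Fin z → F)) : ℝ :=
  H.lam (plk fun i : Fin (Module.finrank F N) => cmb P ((Module.finBasis F N i : N) : Fin z → F))

theorem X1_congr {κ' : Type} [Fintype κ'] (H : Ht k F) (S : κ → F) (T : κ' → F) (hS : S ≠ 0) (hT : T ≠ 0)
    (h : ∀ A : VQ k F, nm k S A = nm k T A) : H.lam S = H.lam T :=
  le_antisymm (H.mono S T hS hT fun A => (h A).le) (H.mono T S hT hS fun A => (h A).ge)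

/-- The product family is not zero. -/
theorem X1_tn_ne {κ κ' : Type} (S : κ → F) (T : κ' → F) (hS : S ≠ 0) (hT : T ≠ 0) :
    tn S T ≠ 0 := by
  obtain ⟨a, ha⟩ := Function.ne_iff.1 hS
  obtain ⟨b, hb⟩ := Function.ne_iff.1 hT
  refine Function.ne_iff.2 ⟨(a, b), ?_⟩
  exact mul_ne_zero ha hb

/-- The height does not depend on the scaling. -/
theorem lam_smul (H : Ht k F) (c : F) (hc : c ≠ 0) (S : κ → F) (hS : S ≠ 0) :
    H.lam (c • S) = H.lam S := by
  have hc1 : (fun _ : Unit => c) ≠ 0 := fun h => hc (congrFun h ())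
  have h1 := H.tensor (fun _ : Unit => c) S hc1 hS
  rw [H.single c hc, zero_add] at h1
  rw [← h1]
  refine X1_congr H _ _ (smul_ne_zero hc hS) (X1_tn_ne (fun _ : Unit => c) S hc1 hS) fun A => ?_
  refine le_antisymm (nm_le _ A _ fun a => ?_) (nm_le _ A _ fun a => ?_)
  · exact le_nm (fun a : Unit × κ => c * S a.2) A ((), a)
  · exact le_nm (c • S) A a.2

/-- The height depends only on the values. -/
theorem lam_congr {κ' : Type} [Fintype κ'] (H : Ht k F) (S : κ → F) (T : κ' → F) (hS : S ≠ 0) (hT : T ≠ 0)
    (h : ∀ A : VQ k F, nm k S A = nm k T A) : H.lam S = H.lam T :=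
  X1_congr H S T hS hT h

/-- The height of the minors can be computed with every basis of the subspace. -/
theorem pH_eq (H : Ht k F) {P : Fin z → κ → F} (hP : LinearIndependent F P) {ι : Type} [Fintype ι]
    [DecidableEq ι] {y : ι → Fin z → F} (hy : LinearIndependent F y) :
    H.lam (plk fun i => cmb P (y i)) = pH H P (Submodule.span F (Set.range y)) := by
  set N := Submodule.span F (Set.range y) with hN
  have hcard : Fintype.card ι = Module.finrank F N := (finrank_span_eq_card hy).symm
  let e : ι ≃ Fin (Module.finrank F N) := Fintype.equivFinOfCardEq hcard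
  have hyN : ∀ i, y i ∈ N := fun i => Submodule.subset_span ⟨i, rfl⟩
  let t : ι → ι → F := fun i i' => (Module.finBasis F N).repr ⟨y i, hyN i⟩ (e i')
  have h1 : ∀ i, y i = ∑ i', t i i' • X1_bv N (e i') := by
    intro i
    have h2 := (Module.finBasis F N).sum_repr ⟨y i, hyN i⟩
    have h3 := congrArg (fun n : N => (n : Fin z → F)) h2
    simp only [Submodule.coe_sum, Submodule.coe_smul] at h3
    rw [← h3]
    exact (Equiv.sum_comp e fun l => (Module.finBasis F N).repr ⟨y i, hyN i⟩ l • X1_bv N l).symm
  have h2 : (fun i => cmb P (y i)) = fun i => ∑ i', t i i' • cmb P (X1_bv N (e i')) := by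
    funext i
    rw [← X1_cmb_sum, ← h1]
  have hb : LinearIndependent F fun i' => cmb P (X1_bv N (e i')) :=
    cmb_li hP ((X1_bv_li N).comp e e.injective)
  have hne := plk_ne_zero _ hb
  have hne' := plk_ne_zero _ (cmb_li hP hy)
  have hdet : (Matrix.of t).det ≠ 0 := by
    intro h0
    rw [h2, plk_comb_vec, h0, zero_smul] at hne'
    exact hne' rfl
  rw [h2, plk_comb_vec, lam_smul H _ hdet _ hne]
  have hne2 : plk (fun l => cmb P (X1_bv N l)) ≠ 0 := plk_ne_zero _ (cmb_li hP (X1_bv_li N))
  exact lam_congr H _ _ hne hne2 fun A =>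
    vn_plk_reindex A.1.valuation (fun l => cmb P (X1_bv N l)) e

/-- The height of the minors is not negative. -/
theorem pH_nonneg (H : Ht k F) {P : Fin z → κ → F} (hP : LinearIndependent F P)
    (N : Submodule F (Fin z → F)) : 0 ≤ pH H P N :=
  lam_nonneg _ (plk_ne_zero _ (cmb_li hP (X1_bv_li N)))

/-- The height of the whole space. -/
theorem pH_top (H : Ht k F) {P : Fin z → κ → F} (hP : LinearIndependent F P) :
    pH H P ⊤ = H.lam (plk P) := by
  have h1 : LinearIndependent F fun j : Fin z => (Pi.single j (1 : F) : Fin z → F) := by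
    have h2 := (Pi.basisFun F (Fin z)).linearIndependent
    have h3 : (⇑(Pi.basisFun F (Fin z))) = fun j : Fin z => (Pi.single j (1 : F) : Fin z → F) := by
      funext j
      exact Pi.basisFun_apply F (Fin z) j
    rwa [h3] at h2
  have h2 : Submodule.span F (Set.range fun j : Fin z => (Pi.single j (1 : F) : Fin z → F)) = ⊤ := by
    have h3 := (Pi.basisFun F (Fin z)).span_eq
    have h4 : (⇑(Pi.basisFun F (Fin z))) = fun j : Fin z => (Pi.single j (1 : F) : Fin z → F) := by
      funext j
      exact Pi.basisFun_apply F (Fin z) j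
    rwa [h4] at h3
  have h3 := pH_eq H hP h1
  rw [h2] at h3
  rw [← h3]
  congr 2
  funext j
  unfold cmb
  rw [Finset.sum_eq_single j]
  · rw [Pi.single_eq_same, one_smul]
  · intro i _ hi
    rw [Pi.single_eq_of_ne hi, zero_smul]
  · intro h
    exact absurd (Finset.mem_univ j) h

/-- Submodularity. -/
theorem pH_sub (H : Ht k F) {P : Fin z → κ → F} (hP : LinearIndependent F P)
    (N N' : Submodule F (Fin z → F)) :
    pH H P (N ⊓ N') + pH H P (N ⊔ N') ≤ pH H P N + pH H P N' := by
  obtain ⟨Q, hQ⟩ := Submodule.exists_isCompl (N ⊓ N')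
  have hNQ : (N ⊓ N') ⊔ (Q ⊓ N) = N := by
    rw [← sup_inf_assoc_of_le Q (inf_le_left : N ⊓ N' ≤ N), hQ.sup_eq_top, top_inf_eq]
  have hN'Q : (N ⊓ N') ⊔ (Q ⊓ N') = N' := by
    rw [← sup_inf_assoc_of_le Q (inf_le_right : N ⊓ N' ≤ N'), hQ.sup_eq_top, top_inf_eq]
  have hsup : (N ⊓ N') ⊔ ((Q ⊓ N) ⊔ (Q ⊓ N')) = N ⊔ N' := by
    refine le_antisymm (sup_le (inf_le_left.trans le_sup_left)
      (sup_le (inf_le_right.trans le_sup_left) (inf_le_right.trans le_sup_right))) (sup_le ?_ ?_)
    · calc N = (N ⊓ N') ⊔ (Q ⊓ N) := hNQ.symm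
        _ ≤ _ := sup_le le_sup_left (le_sup_left.trans le_sup_right)
    · calc N' = (N ⊓ N') ⊔ (Q ⊓ N') := hN'Q.symm
        _ ≤ _ := sup_le le_sup_left (le_sup_right.trans le_sup_right)
  let w := X1_bv (N ⊓ N')
  let x := X1_bv (Q ⊓ N)
  let y := X1_bv (Q ⊓ N')
  have sw : Submodule.span F (Set.range w) = N ⊓ N' := X1_bv_span _
  have sx : Submodule.span F (Set.range x) = Q ⊓ N := X1_bv_span _
  have sy : Submodule.span F (Set.range y) = Q ⊓ N' := X1_bv_span _
  have lw : LinearIndependent F w := X1_bv_li _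
  have lwx : LinearIndependent F (Sum.elim w x) := by
    refine lw.sum_type (X1_bv_li _) ?_
    rw [sw, sx]
    exact hQ.disjoint.mono_right inf_le_left
  have lwy : LinearIndependent F (Sum.elim w y) := by
    refine lw.sum_type (X1_bv_li _) ?_
    rw [sw, sy]
    exact hQ.disjoint.mono_right inf_le_left
  have lxy : LinearIndependent F (Sum.elim x y) := by
    refine (X1_bv_li _).sum_type (X1_bv_li _) ?_
    rw [X1_bv_span, X1_bv_span, disjoint_iff]
    have h1 : Q ⊓ N ⊓ (Q ⊓ N') ≤ (N ⊓ N') ⊓ Q :=
      le_inf (le_inf (inf_le_left.trans inf_le_right) (inf_le_right.trans inf_le_right))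
        (inf_le_left.trans inf_le_left)
    rw [hQ.inf_eq_bot] at h1
    exact le_bot_iff.1 h1
  have sxy : Submodule.span F (Set.range (Sum.elim x y)) = (Q ⊓ N) ⊔ (Q ⊓ N') := by
    rw [Set.Sum.elim_range, Submodule.span_union, sx, sy]
  have lwxy : LinearIndependent F (Sum.elim w (Sum.elim x y)) := by
    refine lw.sum_type lxy ?_
    rw [sw, sxy]
    exact hQ.disjoint.mono_right (sup_le inf_le_left inf_le_left)
  have swx : Submodule.span F (Set.range (Sum.elim w x)) = N := by
    rw [Set.Sum.elim_range, Submodule.span_union, sw, sx, hNQ]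
  have swy : Submodule.span F (Set.range (Sum.elim w y)) = N' := by
    rw [Set.Sum.elim_range, Submodule.span_union, sw, sy, hN'Q]
  have swxy : Submodule.span F (Set.range (Sum.elim w (Sum.elim x y))) = N ⊔ N' := by
    rw [Set.Sum.elim_range, Submodule.span_union, sw, sxy, hsup]
  have e1 := pH_eq H hP lw
  have e2 := pH_eq H hP lwx
  have e3 := pH_eq H hP lwy
  have e4 := pH_eq H hP lwxy
  rw [sw] at e1
  rw [swx] at e2
  rw [swy] at e3
  rw [swxy] at e4
  have n1 := plk_ne_zero _ (cmb_li hP lw)
  have n2 := plk_ne_zero _ (cmb_li hP lwx)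
  have n3 := plk_ne_zero _ (cmb_li hP lwy)
  have n4 := plk_ne_zero _ (cmb_li hP lwxy)
  rw [← e1, ← e2, ← e3, ← e4, ← H.tensor _ _ n1 n4, ← H.tensor _ _ n2 n3]
  refine H.mono _ _ (X1_tn_ne _ _ n1 n4) (X1_tn_ne _ _ n2 n3) fun A => ?_
  have f2 : (fun i => cmb P (Sum.elim w x i)) =
      Sum.elim (fun i => cmb P (w i)) fun i => cmb P (x i) := by
    funext i
    rcases i with i | i <;> rfl
  have f3 : (fun i => cmb P (Sum.elim w y i)) =
      Sum.elim (fun i => cmb P (w i)) fun i => cmb P (y i) := by
    funext i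
    rcases i with i | i <;> rfl
  have f4 : (fun i => cmb P (Sum.elim w (Sum.elim x y) i)) =
      Sum.elim (fun i => cmb P (w i)) (Sum.elim (fun i => cmb P (x i)) fun i => cmb P (y i)) := by
    funext i
    rcases i with i | i | i <;> rfl
  have key := vn_plk_submod A.1.valuation (fun i => cmb P (w i)) (fun i => cmb P (x i))
    (fun i => cmb P (y i))
  rw [← f2, ← f3, ← f4] at key
  have g1 := nm_tn (plk fun i => cmb P (w i)) (plk fun i => cmb P (Sum.elim w (Sum.elim x y) i)) A
  have g2 := nm_tn (plk fun i => cmb P (Sum.elim w x i)) (plk fun i => cmb P (Sum.elim w y i)) A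
  calc nm k (tn (plk fun i => cmb P (w i)) (plk fun i => cmb P (Sum.elim w (Sum.elim x y) i))) A
      = _ := g1
    _ ≤ _ := key
    _ = _ := g2.symm

end

end Pool.Agent.Lib.MP_17a322_nt.FQ
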