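import Pool.Agent.Lib.MP_17a322_nt.FQ.X9
import Pool.Agent.Lib.MP_17a322_nt.FQ.A2

/-!
The big fields over `ℚ` and over a Galois number field `K`.
-/

universe u

namespace Pool.Agent.Lib.MP_17a322_nt.FQ

open Height NumberField

variable {K BK : Type u} [Field K] [NumberField K] [Field BK] [Algebra K BK] {I : Type} (XK : Evl K BK I)
  {BQ : Type} [Field BQ] [Algebra ℚ BQ] (XQ : Evl ℚ BQ I)

private theorem X10_cast (t : ℚ) : algebraMap ℚ K t = (t : K) := eq_ratCast _ _

private theorem X10_h1 (t : ℚ) : logHeight₁ (t : K) = Module.finrank ℚ K * logHeight₁ t := by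
  rw [logHeight₁_eq_logHeight, logHeight₁_eq_logHeight, ← logHeight_ext (L := K) ![t, 1]]
  congr 1
  funext a
  refine Fin.cases ?_ (fun b => ?_) a
  · exact (X10_cast t).symm
  · have hb : b = 0 := Subsingleton.elim _ _
    rw [hb]
    exact (map_one (algebraMap ℚ K)).symm

private theorem X10_h2 (σ : K ≃ₐ[ℚ] K) (t : K) : logHeight₁ (σ t) = logHeight₁ t := by
  rw [logHeight₁_eq_logHeight, logHeight₁_eq_logHeight, ← logHeight_aut σ ![t, 1]]
  congr 1
  funext a
  refine Fin.cases ?_ (fun b => ?_) a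
  · rfl
  · have hb : b = 0 := Subsingleton.elim _ _
    rw [hb]
    exact (map_one σ).symm

/-- The embedding of the big field over `ℚ` in that over `K`. -/
theorem exists_emb (hU : XK.U = XQ.U) (hh : XK.h = XQ.h) :
    ∃ j : BQ →+* BK, ∀ x, ∀ᶠ i in (XK.U : Filter I), XK.ev (j x) i = (XQ.ev x i : ℚ) := by
  have h1 : ∀ x : BQ, ∃ y : BK, ∀ᶠ i in (XK.U : Filter I), XK.ev y i = ((XQ.ev x i : ℚ) : K) := by
    intro x
    refine XK.surj (fun i => ((XQ.ev x i : ℚ) : K)) ?_
    obtain ⟨C, hC⟩ := XQ.bdd x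
    refine ⟨Module.finrank ℚ K * C, ?_⟩
    rw [hU, hh]
    filter_upwards [hC] with i hi
    rw [X10_h1, mul_assoc]
    exact mul_le_mul_of_nonneg_left hi (Nat.cast_nonneg _)
  choose f hf using h1
  refine ⟨{ toFun := f, map_one' := ?_, map_mul' := ?_, map_zero' := ?_, map_add' := ?_ }, hf⟩
  · refine (ev_eq XK).1 ?_
    have h2 := ev_one XQ
    rw [← hU] at h2
    filter_upwards [hf 1, h2, ev_one XK] with i h3 h4 h5
    rw [h3, h4, h5, Rat.cast_one]
  · intro x y
    refine (ev_eq XK).1 ?_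
    have h2 := XQ.mul x y
    rw [← hU] at h2
    filter_upwards [hf (x * y), h2, hf x, hf y, XK.mul (f x) (f y)] with i h3 h4 h5 h6 h7
    rw [h3, h4, h7, h5, h6, Rat.cast_mul]
  · refine (ev_eq XK).1 ?_
    have h2 := ev_zero XQ
    rw [← hU] at h2
    filter_upwards [hf 0, h2, ev_zero XK] with i h3 h4 h5
    rw [h3, h4, h5, Rat.cast_zero]
  · intro x y
    refine (ev_eq XK).1 ?_
    have h2 := XQ.add x y
    rw [← hU] at h2
    filter_upwards [hf (x + y), h2, hf x, hf y, XK.add (f x) (f y)] with i h3 h4 h5 h6 h7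
    rw [h3, h4, h7, h5, h6, Rat.cast_add]

/-- The Galois group acts on the big field over `K`. -/
theorem exists_act : ∃ s : (K ≃ₐ[ℚ] K) →* (BK ≃+* BK),
    ∀ σ x, ∀ᶠ i in (XK.U : Filter I), XK.ev (s σ x) i = σ (XK.ev x i) := by
  have h1 : ∀ (σ : K ≃ₐ[ℚ] K) (x : BK), ∃ y : BK, ∀ᶠ i in (XK.U : Filter I),
      XK.ev y i = σ (XK.ev x i) := by
    intro σ x
    refine XK.surj (fun i => σ (XK.ev x i)) ?_
    obtain ⟨C, hC⟩ := XK.bdd x
    refine ⟨C, ?_⟩
    filter_upwards [hC] with i hi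
    rw [X10_h2]
    exact hi
  choose f hf using h1
  have hmul : ∀ σ τ x, f (σ * τ) x = f σ (f τ x) := by
    intro σ τ x
    refine (ev_eq XK).1 ?_
    filter_upwards [hf (σ * τ) x, hf σ (f τ x), hf τ x] with i h2 h3 h4
    rw [h2, h3, h4]
    rfl
  have hone : ∀ x, f 1 x = x := by
    intro x
    refine (ev_eq XK).1 ?_
    filter_upwards [hf 1 x] with i h2
    rw [h2]
    rfl
  let s : (K ≃ₐ[ℚ] K) → (BK ≃+* BK) := fun σ =>
    { toFun := f σ
      invFun := f σ⁻¹
      left_inv := fun x => by rw [← hmul, inv_mul_cancel, hone]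
      right_inv := fun x => by rw [← hmul, mul_inv_cancel, hone]
      map_mul' := fun x y => by
        refine (ev_eq XK).1 ?_
        filter_upwards [hf σ (x * y), XK.mul x y, hf σ x, hf σ y, XK.mul (f σ x) (f σ y)]
          with i h3 h4 h5 h6 h7
        rw [h3, h4, h7, h5, h6, map_mul]
      map_add' := fun x y => by
        refine (ev_eq XK).1 ?_
        filter_upwards [hf σ (x + y), XK.add x y, hf σ x, hf σ y, XK.add (f σ x) (f σ y)]
          with i h3 h4 h5 h6 h7
        rw [h3, h4, h7, h5, h6, map_add] }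
  refine ⟨{ toFun := s, map_one' := ?_, map_mul' := ?_ }, hf⟩
  · ext x
    exact hone x
  · intro σ τ
    ext x
    exact hmul σ τ x

/-- The heights over the two big fields. -/
theorem lm_emb (j : BQ →+* BK) (hj : ∀ x, ∀ᶠ i in (XK.U : Filter I), XK.ev (j x) i = (XQ.ev x i : ℚ))
    (hU : XK.U = XQ.U) (hh : XK.h = XQ.h) {κ : Type} [Fintype κ] (S : κ → BQ) :
    XK.lm (fun a => j (S a)) = Module.finrank ℚ K * XQ.lm S := by
  have h1 := lm_tendsto XK (fun a => j (S a))
  have h2 := (lm_tendsto XQ S).const_mul (Module.finrank ℚ K : ℝ)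
  rw [← hU] at h2
  refine tendsto_nhds_unique h1 (h2.congr' ?_)
  have h3 : ∀ᶠ i in (XK.U : Filter I), ∀ a, XK.ev (j (S a)) i = ((XQ.ev (S a) i : ℚ) : K) :=
    Filter.eventually_all.2 fun a => hj (S a)
  filter_upwards [h3] with i hi
  have h4 : (fun a => XK.ev (j (S a)) i) = fun a => algebraMap ℚ K (XQ.ev (S a) i) := by
    funext a
    rw [hi a, X10_cast]
  rw [h4, logHeight_ext, hh]
  ring

/-- The heights are invariant under the Galois group. -/
theorem lm_act (s : (K ≃ₐ[ℚ] K) →* (BK ≃+* BK))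
    (hs : ∀ σ x, ∀ᶠ i in (XK.U : Filter I), XK.ev (s σ x) i = σ (XK.ev x i)) (σ : K ≃ₐ[ℚ] K) {κ : Type} [Fintype κ]
    (S : κ → BK) : XK.lm (fun a => s σ (S a)) = XK.lm S := by
  have h1 := lm_tendsto XK (fun a => s σ (S a))
  have h2 := lm_tendsto XK S
  refine tendsto_nhds_unique h1 (h2.congr' ?_)
  have h3 : ∀ᶠ i in (XK.U : Filter I), ∀ a, XK.ev (s σ (S a)) i = σ (XK.ev (S a) i) :=
    Filter.eventually_all.2 fun a => hs σ (S a)
  filter_upwards [h3] with i hi
  have h4 : (fun a => XK.ev (s σ (S a)) i) = fun a => σ (XK.ev (S a) i) := funext hi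
  rw [h4, logHeight_aut]

end Pool.Agent.Lib.MP_17a322_nt.FQ
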