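import Pool.Agent.Lib.MP_17a322_nt.FQ.X10

/-!
The coordinates of the elements of the big field over `K`.
-/

universe u

namespace Pool.Agent.Lib.MP_17a322_nt.FQ

open Height NumberField

variable {K BK : Type u} [Field K] [NumberField K] [Field BK] [Algebra K BK] {I : Type} (XK : Evl K BK I)
  {BQ : Type} [Field BQ] [Algebra ℚ BQ] (XQ : Evl ℚ BQ I)

/-- The action of the Galois group on constants. -/
private theorem X11_act (s : (K ≃ₐ[ℚ] K) →* (BK ≃+* BK))
    (hs : ∀ σ x, ∀ᶠ i in (XK.U : Filter I), XK.ev (s σ x) i = σ (XK.ev x i)) (σ : K ≃ₐ[ℚ] K) (c : K) :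
    s σ (algebraMap K BK c) = algebraMap K BK (σ c) := by
  rw [← ev_eq XK]
  filter_upwards [hs σ (algebraMap K BK c), XK.alg c, XK.alg (σ c)] with i h1 h2 h3
  rw [h1, h2, h3]

/-- The height of a rational number is at most its height as an element of `K`. -/
private theorem X11_height (q : ℚ) : logHeight₁ q ≤ logHeight₁ (q : K) := by
  have h1 := logHeight_ext (K := ℚ) (L := K) ![q, 1]
  have h2 : (fun a => algebraMap ℚ K (![q, 1] a)) = ![(q : K), 1] := by
    funext a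
    fin_cases a <;> simp
  rw [h2, ← logHeight₁_eq_logHeight, ← logHeight₁_eq_logHeight] at h1
  rw [h1]
  have h3 : (1 : ℝ) ≤ Module.finrank ℚ K := by
    exact_mod_cast Module.finrank_pos (R := ℚ) (M := K)
  have h4 : 0 ≤ logHeight₁ q := zero_le_logHeight₁ q
  nlinarith

/-- The elements fixed by the Galois group come from the big field over `ℚ`. -/
theorem fixed_mem_range [IsGalois ℚ K] (hU : XK.U = XQ.U) (hh : XK.h = XQ.h) (j : BQ →+* BK)
    (hj : ∀ x, ∀ᶠ i in (XK.U : Filter I), XK.ev (j x) i = (XQ.ev x i : ℚ)) (s : (K ≃ₐ[ℚ] K) →* (BK ≃+* BK))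
    (hs : ∀ σ x, ∀ᶠ i in (XK.U : Filter I), XK.ev (s σ x) i = σ (XK.ev x i)) (x : BK)
    (hx : ∀ σ, s σ x = x) : ∃ y : BQ, j y = x := by
  classical
  have h1 : ∀ᶠ i in (XK.U : Filter I), ∀ σ : K ≃ₐ[ℚ] K, σ (XK.ev x i) = XK.ev x i := by
    rw [Filter.eventually_all]
    intro σ
    filter_upwards [hs σ x] with i h
    rw [hx σ] at h
    exact h.symm
  have h2 : ∀ᶠ i in (XK.U : Filter I), ∃ q : ℚ, (q : K) = XK.ev x i := by
    filter_upwards [h1] with i h
    obtain ⟨q, hq⟩ := (IsGalois.mem_range_algebraMap_iff_fixed (F := ℚ) (XK.ev x i)).2 h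
    exact ⟨q, by rw [← hq]; simp⟩
  let q : I → ℚ := fun i => if h : ∃ q : ℚ, (q : K) = XK.ev x i then h.choose else 0
  have h3 : ∀ᶠ i in (XK.U : Filter I), ((q i : ℚ) : K) = XK.ev x i := by
    filter_upwards [h2] with i h
    have h4 : q i = h.choose := dif_pos h
    rw [h4]
    exact h.choose_spec
  obtain ⟨C, hC⟩ := XK.bdd x
  have h5 : ∃ C : ℝ, ∀ᶠ i in (XQ.U : Filter I), logHeight₁ (q i) ≤ C * XQ.h i := by
    refine ⟨C, ?_⟩
    rw [← hU, ← hh]
    filter_upwards [h3, hC] with i h6 h7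
    rw [← h6] at h7
    exact (X11_height (K := K) (q i)).trans h7
  obtain ⟨y, hy⟩ := XQ.surj q h5
  refine ⟨y, ?_⟩
  rw [← ev_eq XK]
  rw [← hU] at hy
  filter_upwards [hj y, hy, h3] with i h6 h7 h8
  rw [h6, h7, h8]

/-- The coordinates of the elements of the big field over `K`. -/
theorem exists_coord [IsGalois ℚ K] (hU : XK.U = XQ.U) (hh : XK.h = XQ.h) (j : BQ →+* BK)
    (hj : ∀ x, ∀ᶠ i in (XK.U : Filter I), XK.ev (j x) i = (XQ.ev x i : ℚ)) {m : ℕ} (ω : Module.Basis (Fin m) ℚ K)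
    (x : BK) : ∃ u : Fin m → BQ, x = ∑ a, algebraMap K BK (ω a) * j (u a) := by
  classical
  obtain ⟨s, hs⟩ := exists_act XK
  let ω' : Module.Basis (Fin m) ℚ K :=
    (Algebra.traceForm ℚ K).dualBasis (traceForm_nondegenerate ℚ K) ω
  let M : Matrix (Fin m) (K ≃ₐ[ℚ] K) K := Matrix.of fun a σ => σ (ω' a)
  let N : Matrix (K ≃ₐ[ℚ] K) (Fin m) K := Matrix.of fun σ b => σ (ω b)
  have hMN : M * N = 1 := by
    ext a b
    rw [Matrix.mul_apply]
    have h1 : ∑ σ : K ≃ₐ[ℚ] K, M a σ * N σ b = ∑ σ : K ≃ₐ[ℚ] K, σ (ω' a * ω b) :=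
      Finset.sum_congr rfl fun σ _ => (map_mul σ _ _).symm
    rw [h1, ← trace_eq_sum_automorphisms]
    have h2 : Algebra.trace ℚ K (ω' a * ω b) = if b = a then 1 else 0 :=
      LinearMap.BilinForm.apply_dualBasis_left (traceForm_nondegenerate ℚ K) ω a b
    rw [h2, Matrix.one_apply]
    by_cases hab : a = b
    · rw [if_pos hab, if_pos hab.symm, map_one]
    · rw [if_neg hab, if_neg (Ne.symm hab), map_zero]
  have hcard : Fintype.card (Fin m) = Fintype.card (K ≃ₐ[ℚ] K) := by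
    rw [← Nat.card_eq_fintype_card (α := K ≃ₐ[ℚ] K), IsGalois.card_aut_eq_finrank,
      Module.finrank_eq_card_basis ω]
  have hNM : N * M = 1 := (Matrix.mul_eq_one_comm_of_card_eq _ _ _ hcard).1 hMN
  have hkey : ∀ τ : K ≃ₐ[ℚ] K, ∑ a, ω a * τ (ω' a) = if τ = 1 then 1 else 0 := by
    intro τ
    have h1 := congrFun (congrFun hNM 1) τ
    rw [Matrix.mul_apply, Matrix.one_apply] at h1
    have h2 : ∑ a, N 1 a * M a τ = ∑ a, ω a * τ (ω' a) :=
      Finset.sum_congr rfl fun a _ => rfl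
    rw [h2] at h1
    rw [h1]
    by_cases hτ : τ = 1
    · rw [if_pos hτ, if_pos hτ.symm]
    · rw [if_neg hτ, if_neg (Ne.symm hτ)]
  have hfix : ∀ a, ∃ y : BQ, j y = ∑ σ : K ≃ₐ[ℚ] K, s σ (algebraMap K BK (ω' a) * x) := by
    intro a
    refine fixed_mem_range XK XQ hU hh j hj s hs _ fun τ => ?_
    rw [map_sum]
    have h1 : ∀ σ, s τ (s σ (algebraMap K BK (ω' a) * x)) = s (τ * σ) (algebraMap K BK (ω' a) * x) :=
      fun σ => by rw [map_mul s τ σ]; rfl
    simp only [h1]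
    exact Fintype.sum_equiv (Equiv.mulLeft τ) _ _ fun σ => rfl
  choose u hu using hfix
  refine ⟨u, ?_⟩
  have h1 : ∀ σ : K ≃ₐ[ℚ] K, ∑ a, algebraMap K BK (ω a) * s σ (algebraMap K BK (ω' a) * x) =
      if σ = 1 then x else 0 := by
    intro σ
    have h2 : ∀ a, algebraMap K BK (ω a) * s σ (algebraMap K BK (ω' a) * x) =
        algebraMap K BK (ω a * σ (ω' a)) * s σ x := fun a => by
      rw [map_mul (s σ), X11_act XK s hs, map_mul (algebraMap K BK), mul_assoc]
    simp only [h2]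
    rw [← Finset.sum_mul, ← map_sum, hkey σ]
    by_cases hσ : σ = 1
    · rw [if_pos hσ, if_pos hσ, map_one, one_mul, hσ, map_one]
      rfl
    · rw [if_neg hσ, if_neg hσ, map_zero, zero_mul]
  simp only [hu, Finset.mul_sum]
  rw [Finset.sum_comm]
  simp only [h1]
  rw [Finset.sum_ite_eq' Finset.univ 1 (fun _ => x), if_pos (Finset.mem_univ _)]

/-- The coordinates are unique. -/
theorem coord_unique (j : BQ →+* BK)
    (hj : ∀ x, ∀ᶠ i in (XK.U : Filter I), XK.ev (j x) i = (XQ.ev x i : ℚ)) (hU : XK.U = XQ.U) {m : ℕ}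
    (ω : Module.Basis (Fin m) ℚ K) (u : Fin m → BQ) (h : ∑ a, algebraMap K BK (ω a) * j (u a) = 0) : u = 0 := by
  have h1 : ∀ᶠ i in (XK.U : Filter I), ∀ a, XK.ev (algebraMap K BK (ω a) * j (u a)) i =
      ω a * ((XQ.ev (u a) i : ℚ) : K) := by
    rw [Filter.eventually_all]
    intro a
    filter_upwards [XK.mul (algebraMap K BK (ω a)) (j (u a)), XK.alg (ω a), hj (u a)] with i h2 h3 h4
    rw [h2, h3, h4]
  have h2 : ∀ᶠ i in (XK.U : Filter I), ∀ a, XQ.ev (u a) i = 0 := by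
    filter_upwards [h1, ev_sum XK Finset.univ fun a => algebraMap K BK (ω a) * j (u a), ev_zero XK]
      with i h3 h4 h5
    rw [h, h5] at h4
    have h6 : ∑ a, (XQ.ev (u a) i) • ω a = 0 := by
      rw [h4]
      refine Finset.sum_congr rfl fun a _ => ?_
      rw [h3 a, mul_comm, Rat.smul_def]
    exact fun a => (Fintype.linearIndependent_iff.1 ω.linearIndependent) (fun a => XQ.ev (u a) i) h6 a
  funext a
  rw [Pi.zero_apply, ← ev_eq XQ, ← hU]
  have h3 := ev_zero XQ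
  rw [← hU] at h3
  filter_upwards [h2, h3] with i h4 h5
  rw [h4 a, h5]

end Pool.Agent.Lib.MP_17a322_nt.FQ
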