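import Pool.Agent.Lib.MP_17a322_nt.FQ.X1

/-!
Galois descent for subspaces, and the supremum argument.
-/

universe u v

namespace Pool.Agent.Lib.MP_17a322_nt.FQ

private theorem X2_li {E : Type v} {F : Type u} [Field E] [Field F] [Algebra E F] {ι κ : Type*}
    {y : ι → κ → E} (hy : LinearIndependent E y) :
    LinearIndependent F fun i a => algebraMap E F (y i a) := by
  rw [linearIndependent_iff']
  intro t c hc i hi
  rw [← Module.forall_dual_apply_eq_zero_iff E (c i)]
  intro l
  refine linearIndependent_iff'.1 hy t (fun i => l (c i)) ?_ i hi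
  funext a
  have h1 := congrFun hc a
  rw [Finset.sum_apply, Pi.zero_apply] at h1
  rw [Finset.sum_apply, Pi.zero_apply]
  have h2 := congrArg l h1
  rw [map_sum, map_zero] at h2
  rw [← h2]
  refine Finset.sum_congr rfl fun j _ => ?_
  rw [Pi.smul_apply, Pi.smul_apply, smul_eq_mul, smul_eq_mul, mul_comm (c j), ← Algebra.smul_def, map_smul,
    smul_eq_mul, mul_comm]

private theorem X2_claim {E : Type v} {F : Type u} [Field E] [Field F] [Algebra E F] [CharZero F]
    {G : Type*} [Group G] [Finite G] (s : G →* (F ≃ₐ[E] F))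
    (hfix : ∀ x : F, (∀ σ, s σ x = x) → ∃ y : E, algebraMap E F y = x) {z : ℕ}
    (N : Submodule F (Fin z → F)) (hN : ∀ σ, ∀ x ∈ N, (fun j => s σ (x j)) ∈ N) (n : ℕ) :
    ∀ x ∈ N, {j | x j ≠ 0}.ncard = n →
      x ∈ Submodule.span F {w | w ∈ N ∧ ∃ y : Fin z → E, (fun j => algebraMap E F (y j)) = w} := by
  classical
  have hG : Fintype G := Fintype.ofFinite G
  induction n using Nat.strong_induction_on with
  | _ n ih =>
    intro x hx hn
    by_cases h0 : x = 0
    · rw [h0]
      exact zero_mem _
    obtain ⟨j₀, hj₀⟩ := Function.ne_iff.1 h0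
    have hj₁ : x j₀ ≠ 0 := hj₀
    obtain ⟨x', hx'⟩ : ∃ x' : Fin z → F, x' = (x j₀)⁻¹ • x := ⟨_, rfl⟩
    have hx'N : x' ∈ N := by
      rw [hx']
      exact N.smul_mem _ hx
    have hx'1 : x' j₀ = 1 := by
      rw [hx', Pi.smul_apply, smul_eq_mul, inv_mul_cancel₀ hj₁]
    have hx'0 : ∀ j, x j = 0 → x' j = 0 := by
      intro j hj
      rw [hx', Pi.smul_apply, hj, smul_zero]
    suffices hs : x' ∈ Submodule.span F {w | w ∈ N ∧ ∃ y : Fin z → E, (fun j => algebraMap E F (y j)) = w} by
      have h1 : x = x j₀ • x' := by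
        rw [hx', smul_smul, mul_inv_cancel₀ hj₁, one_smul]
      rw [h1]
      exact Submodule.smul_mem _ _ hs
    have hw : ∀ σ, (fun j => s σ (x' j)) - x' ∈
        Submodule.span F {w | w ∈ N ∧ ∃ y : Fin z → E, (fun j => algebraMap E F (y j)) = w} := by
      intro σ
      refine ih _ ?_ _ (N.sub_mem (hN σ x' hx'N) hx'N) rfl
      rw [← hn]
      refine Set.ncard_lt_ncard ?_ (Set.toFinite _)
      rw [Set.ssubset_iff_of_subset]
      · refine ⟨j₀, hj₁, fun h => h ?_⟩
        rw [Pi.sub_apply, hx'1, map_one, sub_self]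
      · intro j hj hxj
        apply hj
        rw [Pi.sub_apply, hx'0 j hxj, map_zero, sub_self]
    have ht : (∑ σ, fun j => s σ (x' j)) ∈
        Submodule.span F {w | w ∈ N ∧ ∃ y : Fin z → E, (fun j => algebraMap E F (y j)) = w} := by
      refine Submodule.subset_span ⟨N.sum_mem fun σ _ => hN σ x' hx'N, ?_⟩
      have h2 : ∀ j, ∃ y : E, algebraMap E F y = ∑ σ, s σ (x' j) := by
        intro j
        refine hfix _ fun τ => ?_
        rw [map_sum]
        refine Fintype.sum_equiv (Equiv.mulLeft τ) _ _ fun σ => ?_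
        rw [Equiv.coe_mulLeft, map_mul]
        rfl
      choose y hy using h2
      refine ⟨y, ?_⟩
      funext j
      rw [hy, Finset.sum_apply]
    have h3 : x' = (Nat.card G : F)⁻¹ • ((∑ σ, fun j => s σ (x' j)) - ∑ σ, ((fun j => s σ (x' j)) - x')) := by
      have h4 : (Nat.card G : F) ≠ 0 := by
        rw [Nat.cast_ne_zero]
        exact Nat.card_pos.ne'
      rw [Finset.sum_sub_distrib, sub_sub_cancel, Finset.sum_const, Finset.card_univ, ← Nat.card_eq_fintype_card,
        ← Nat.cast_smul_eq_nsmul F, smul_smul, inv_mul_cancel₀ h4, one_smul]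
    rw [h3]
    exact Submodule.smul_mem _ _ (sub_mem ht (sum_mem fun σ _ => hw σ))

/-- Galois descent for subspaces: a stable subspace of `F ^ z` has a basis over `E`. -/
theorem descent_subspace {E : Type v} {F : Type u} [Field E] [Field F] [Algebra E F] [CharZero F]
    {G : Type*} [Group G] [Finite G] (s : G →* (F ≃ₐ[E] F))
    (hfix : ∀ x : F, (∀ σ, s σ x = x) → ∃ y : E, algebraMap E F y = x) {z : ℕ}
    (N : Submodule F (Fin z → F)) (hN : ∀ σ, ∀ x ∈ N, (fun j => s σ (x j)) ∈ N) :
    ∃ y : Fin (Module.finrank F N) → Fin z → E, LinearIndependent E y ∧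
      Submodule.span F (Set.range fun i j => algebraMap E F (y i j)) = N := by
  classical
  obtain ⟨Φ, hΦ⟩ : ∃ Φ : (Fin z → E) →ₗ[E] (Fin z → F), ∀ y j, Φ y j = algebraMap E F (y j) :=
    ⟨(Algebra.linearMap E F).compLeft (Fin z), fun _ _ => rfl⟩
  obtain ⟨M, hM⟩ : ∃ M : Submodule E (Fin z → E), ∀ y, y ∈ M ↔ Φ y ∈ N :=
    ⟨(N.restrictScalars E).comap Φ, fun _ => Iff.rfl⟩
  have hΦ' : ∀ y, Φ y = fun j => algebraMap E F (y j) := fun y => funext fun j => hΦ y j
  have hli : LinearIndependent E fun i => ((Module.finBasis E M i : M) : Fin z → E) :=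
    (Module.finBasis E M).linearIndependent.map' M.subtype M.ker_subtype
  have hliF := X2_li (F := F) hli
  have hspan : Submodule.span F (Set.range fun i j =>
      algebraMap E F (((Module.finBasis E M i : M) : Fin z → E) j)) = N := by
    apply le_antisymm
    · rw [Submodule.span_le]
      rintro _ ⟨i, rfl⟩
      have h1 := (hM _).1 (Module.finBasis E M i).2
      rw [hΦ'] at h1
      exact h1
    · intro x hx
      have h2 := X2_claim s hfix N hN _ x hx rfl
      have h3 : {w | w ∈ N ∧ ∃ y : Fin z → E, (fun j => algebraMap E F (y j)) = w} ⊆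
          (Submodule.span F (Set.range fun i j =>
            algebraMap E F (((Module.finBasis E M i : M) : Fin z → E) j)) : Set (Fin z → F)) := by
        rintro _ ⟨hw, y, rfl⟩
        have hy : y ∈ M := by
          rw [hM, hΦ']
          exact hw
        have h4 := (Module.finBasis E M).sum_repr ⟨y, hy⟩
        have h5 : y = ∑ i, (Module.finBasis E M).repr ⟨y, hy⟩ i • ((Module.finBasis E M i : M) : Fin z → E) := by
          have h6 := congrArg M.subtype h4
          rw [map_sum] at h6
          exact h6.symm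
        have h7 : (fun j => algebraMap E F (y j)) = ∑ i, algebraMap E F ((Module.finBasis E M).repr ⟨y, hy⟩ i) •
            fun j => algebraMap E F (((Module.finBasis E M i : M) : Fin z → E) j) := by
          funext j
          have h8 := congrFun h5 j
          rw [Finset.sum_apply] at h8
          rw [Finset.sum_apply]
          have h9 := congrArg (algebraMap E F) h8
          rw [map_sum] at h9
          rw [h9]
          refine Finset.sum_congr rfl fun i _ => ?_
          rw [Pi.smul_apply, Pi.smul_apply, smul_eq_mul, smul_eq_mul, map_mul]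
        rw [h7]
        exact sum_mem fun i _ => Submodule.smul_mem _ _ (Submodule.subset_span ⟨i, rfl⟩)
      exact Submodule.span_le.2 h3 h2
  have hfr : Module.finrank F N = Module.finrank E M := by
    rw [← hspan, finrank_span_eq_card hliF, Fintype.card_fin]
  refine ⟨fun i => ((Module.finBasis E M (Fin.cast hfr i) : M) : Fin z → E), ?_, ?_⟩
  · exact hli.comp (Fin.cast hfr) (Fin.cast_injective hfr)
  · refine Eq.trans ?_ hspan
    congr 1
    ext w
    constructor
    · rintro ⟨i, rfl⟩
      exact ⟨Fin.cast hfr i, rfl⟩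
    · rintro ⟨i, rfl⟩
      exact ⟨Fin.cast hfr.symm i, rfl⟩

/-- The images of linearly independent vectors are linearly independent. -/
theorem li_algebraMap {E : Type v} {F : Type u} [Field E] [Field F] [Algebra E F] {ι κ : Type*} [Finite κ]
    {y : ι → κ → E} (hy : LinearIndependent E y) :
    LinearIndependent F fun i a => algebraMap E F (y i a) := X2_li hy

/-- The supremum argument: a bounded supermodular function, invariant under a finite group, is bounded by its
values at the stable elements. -/
theorem sup_stable {L : Type*} [Lattice L] [BoundedOrder L] {G : Type*} [Group G] [Fintype G]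
    (act : G → L → L) (hact : ∀ σ τ N, act σ (act τ N) = act (σ * τ) N)
    (hsup : ∀ σ N N', act σ (N ⊔ N') = act σ N ⊔ act σ N')
    (f : L → ℝ) (hf : ∀ N N', f N + f N' ≤ f (N ⊓ N') + f (N ⊔ N')) (hinv : ∀ σ N, f (act σ N) = f N)
    (hB : ∃ B : ℝ, ∀ N, f N ≤ B) (b : ℝ) (hb : ∀ N, (∀ σ, act σ N = N) → f N ≤ b) :
    ∀ N, f N ≤ b := by
  classical
  obtain ⟨B, hB⟩ := hB
  have hbdd : BddAbove (Set.range f) := ⟨B, by rintro _ ⟨N, rfl⟩; exact hB N⟩
  have hle : ∀ N, f N ≤ sSup (Set.range f) := fun N => le_csSup hbdd ⟨N, rfl⟩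
  suffices hS : sSup (Set.range f) ≤ b from fun N => (hle N).trans hS
  have hc : (0 : ℝ) < Fintype.card G := by exact_mod_cast Fintype.card_pos
  refine le_of_forall_pos_le_add fun ε hε => ?_
  obtain ⟨_, ⟨N₀, rfl⟩, hN₀⟩ := exists_lt_of_lt_csSup (Set.range_nonempty f)
    (sub_lt_self (sSup (Set.range f)) (div_pos hε hc))
  have key : ∀ (T : Finset G) (hT : T.Nonempty), sSup (Set.range f) - T.card * (ε / Fintype.card G) ≤
      f (T.sup' hT fun σ => act σ N₀) := by
    intro T hT
    induction hT using Finset.Nonempty.cons_induction with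
    | singleton σ =>
      rw [Finset.sup'_singleton, hinv, Finset.card_singleton, Nat.cast_one, one_mul]
      exact hN₀.le
    | cons σ T hσ hT ih =>
      rw [Finset.sup'_cons hT, Finset.card_cons]
      have h1 := hf (act σ N₀) (T.sup' hT fun σ => act σ N₀)
      have h2 := hle (act σ N₀ ⊓ T.sup' hT fun σ => act σ N₀)
      rw [hinv] at h1
      push_cast
      linarith
  have hst : ∀ τ, act τ (Finset.univ.sup' Finset.univ_nonempty fun σ => act σ N₀) =
      Finset.univ.sup' Finset.univ_nonempty fun σ => act σ N₀ := by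
    intro τ
    rw [Finset.apply_sup'_eq_sup'_comp Finset.univ_nonempty (act τ) (hsup τ)]
    apply le_antisymm
    · refine Finset.sup'_le _ _ fun σ _ => ?_
      change act τ (act σ N₀) ≤ _
      rw [hact]
      exact Finset.le_sup' (fun σ => act σ N₀) (Finset.mem_univ (τ * σ))
    · refine Finset.sup'_le _ _ fun σ _ => ?_
      have h3 : act σ N₀ = act τ (act (τ⁻¹ * σ) N₀) := by
        rw [hact, mul_inv_cancel_left]
      rw [h3]
      exact Finset.le_sup' (act τ ∘ fun σ => act σ N₀) (Finset.mem_univ (τ⁻¹ * σ))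
  have h4 := key Finset.univ Finset.univ_nonempty
  have h5 := hb _ hst
  rw [Finset.card_univ, mul_div_cancel₀ _ hc.ne'] at h4
  linarith

end Pool.Agent.Lib.MP_17a322_nt.FQ
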