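import Pool.Agent.Lib.MP_17a322_nt.FQ.X2

/-!
The descent of the degrees of subspaces.
-/

universe u v w

namespace Pool.Agent.Lib.MP_17a322_nt.FQ

section

variable {k : Type w} {K : Type v} {E : Type u} {F : Type v} [Field k] [Field K] [Field E] [Field F]
  [Algebra k E] [Algebra K F] [Algebra E F] {κ : Type} [Fintype κ] {z : ℕ}

omit [Fintype κ] in
/-- The minors commute with ring homomorphisms. -/
theorem X3_plk_map {A B : Type*} [Field A] [Field B] (f : A →+* B) {ι : Type} [Fintype ι]
    [DecidableEq ι] (x : ι → κ → A) :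
    plk (fun i a => f (x i a)) = fun I => f (plk x I) := by
  funext I
  rw [plk_apply, plk_apply, RingHom.map_det]
  rfl

omit [Fintype κ] in
/-- The combinations commute with ring homomorphisms. -/
theorem X3_cmb_map {A B : Type*} [Field A] [Field B] (f : A →+* B) (P : Fin z → κ → A)
    (c : Fin z → A) :
    cmb (fun j a => f (P j a)) (fun j => f (c j)) = fun a => f (cmb P c a) := by
  funext a
  simp only [cmb, Finset.sum_apply, Pi.smul_apply, smul_eq_mul, map_sum, map_mul]

/-- The height of the minors of a subspace which is defined over `E`. -/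
theorem pH_map (H : Ht k E) (HF : Ht K F) (mm : ℝ)
    (hm : ∀ {κ' : Type} [Fintype κ'] (S : κ' → E), S ≠ 0 →
      HF.lam (fun a => algebraMap E F (S a)) = mm * H.lam S)
    {P : Fin z → κ → E} (hP : LinearIndependent E P) {r : ℕ} {y : Fin r → Fin z → E}
    (hy : LinearIndependent E y) :
    pH HF (fun j a => algebraMap E F (P j a))
      (Submodule.span F (Set.range fun i j => algebraMap E F (y i j))) =
        mm * pH H P (Submodule.span E (Set.range y)) := by
  have hPF : LinearIndependent F fun j a => algebraMap E F (P j a) := li_algebraMap hP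
  have hyF : LinearIndependent F fun i j => algebraMap E F (y i j) := li_algebraMap hy
  rw [← pH_eq HF hPF hyF, ← pH_eq H hP hy, ← hm _ (plk_ne_zero _ (cmb_li hP hy))]
  congr 1
  rw [← X3_plk_map (algebraMap E F)]
  congr 1
  funext i
  exact X3_cmb_map (algebraMap E F) P (y i)

/-- The action on the subspaces. -/
def X3_act {G : Type} [Group G] (s : G →* (F ≃ₐ[E] F)) (σ : G) (N : Submodule F (Fin z → F)) :
    Submodule F (Fin z → F) where
  carrier := {x | (fun j => s σ⁻¹ (x j)) ∈ N}
  add_mem' := by
    intro x y hx hy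
    have h := N.add_mem hx hy
    have h1 : ((fun j => s σ⁻¹ (x j)) + fun j => s σ⁻¹ (y j)) = fun j => s σ⁻¹ ((x + y) j) := by
      funext j
      simp only [Pi.add_apply, map_add]
    rw [h1] at h
    exact h
  zero_mem' := by
    have h1 : (fun j => s σ⁻¹ ((0 : Fin z → F) j)) = 0 := by
      funext j
      simp only [Pi.zero_apply, map_zero]
    show (fun j => s σ⁻¹ ((0 : Fin z → F) j)) ∈ N
    rw [h1]
    exact N.zero_mem
  smul_mem' := by
    intro c x hx
    have h := N.smul_mem (s σ⁻¹ c) hx
    have h1 : (s σ⁻¹ c • fun j => s σ⁻¹ (x j)) = fun j => s σ⁻¹ ((c • x) j) := by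
      funext j
      simp only [Pi.smul_apply, smul_eq_mul, map_mul]
    rw [h1] at h
    exact h

theorem X3_mem {G : Type} [Group G] (s : G →* (F ≃ₐ[E] F)) (σ : G) (N : Submodule F (Fin z → F))
    (x : Fin z → F) : x ∈ X3_act s σ N ↔ (fun j => s σ⁻¹ (x j)) ∈ N := Iff.rfl

theorem X3_inv {G : Type} [Group G] (s : G →* (F ≃ₐ[E] F)) (σ : G) (x : F) :
    s σ⁻¹ (s σ x) = x := by
  rw [← AlgEquiv.mul_apply, ← map_mul, inv_mul_cancel, map_one, AlgEquiv.one_apply]

theorem X3_inv' {G : Type} [Group G] (s : G →* (F ≃ₐ[E] F)) (σ : G) (x : F) :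
    s σ (s σ⁻¹ x) = x := by
  rw [← AlgEquiv.mul_apply, ← map_mul, mul_inv_cancel, map_one, AlgEquiv.one_apply]

theorem X3_act_act {G : Type} [Group G] (s : G →* (F ≃ₐ[E] F)) (σ τ : G)
    (N : Submodule F (Fin z → F)) : X3_act s σ (X3_act s τ N) = X3_act s (σ * τ) N := by
  ext x
  rw [X3_mem, X3_mem, X3_mem, mul_inv_rev, map_mul]
  rfl

theorem X3_act_one {G : Type} [Group G] (s : G →* (F ≃ₐ[E] F)) (N : Submodule F (Fin z → F)) :
    X3_act s 1 N = N := by
  ext x
  rw [X3_mem, inv_one, map_one]
  rfl

theorem X3_mono {G : Type} [Group G] (s : G →* (F ≃ₐ[E] F)) (σ : G)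
    {N N' : Submodule F (Fin z → F)} (h : N ≤ N') : X3_act s σ N ≤ X3_act s σ N' :=
  fun _ hx => h hx

/-- The action is by isomorphisms of the lattice. -/
def X3_iso {G : Type} [Group G] (s : G →* (F ≃ₐ[E] F)) (σ : G) :
    Submodule F (Fin z → F) ≃o Submodule F (Fin z → F) where
  toFun := X3_act s σ
  invFun := X3_act s σ⁻¹
  left_inv N := by rw [X3_act_act, inv_mul_cancel, X3_act_one]
  right_inv N := by rw [X3_act_act, mul_inv_cancel, X3_act_one]
  map_rel_iff' := by
    intro N N'
    refine ⟨fun h => ?_, fun h => X3_mono s σ h⟩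
    have h1 := X3_mono s σ⁻¹ h
    simp only [Equiv.coe_fn_mk] at h1
    rw [X3_act_act, X3_act_act, inv_mul_cancel, X3_act_one, X3_act_one] at h1
    exact h1

/-- The images of a basis. -/
theorem X3_basis {G : Type} [Group G] (s : G →* (F ≃ₐ[E] F)) (σ : G)
    (N : Submodule F (Fin z → F)) :
    LinearIndependent F (fun i : Fin (Module.finrank F N) => fun j =>
      s σ (((Module.finBasis F N i : N) : Fin z → F) j)) ∧
    Submodule.span F (Set.range fun i : Fin (Module.finrank F N) => fun j =>
      s σ (((Module.finBasis F N i : N) : Fin z → F) j)) = X3_act s σ N := by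
  have hb : LinearIndependent F
      (fun i : Fin (Module.finrank F N) => ((Module.finBasis F N i : N) : Fin z → F)) :=
    (Module.finBasis F N).linearIndependent.map' N.subtype N.ker_subtype
  constructor
  · have h := hb.map_of_injective_injective (fun r : F => s σ⁻¹ r)
      (AddMonoidHom.mk' (fun x : Fin z → F => fun j => s σ (x j)) (by
        intro x y
        funext j
        simp only [Pi.add_apply, map_add]))
      (by
        intro r hr
        have h1 := congrArg (s σ) hr
        rw [X3_inv', map_zero] at h1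
        exact h1)
      (by
        intro x hx
        funext j
        have h1 := congrFun hx j
        have h2 : s σ (x j) = 0 := h1
        have h3 := congrArg (s σ⁻¹) h2
        rw [X3_inv, map_zero] at h3
        exact h3)
      (by
        intro r x
        funext j
        show s σ ((s σ⁻¹ r • x) j) = (r • fun j => s σ (x j)) j
        rw [Pi.smul_apply, Pi.smul_apply, smul_eq_mul, smul_eq_mul, map_mul, X3_inv'])
    exact h
  · apply le_antisymm
    · rw [Submodule.span_le]
      rintro _ ⟨i, rfl⟩
      show (fun j => s σ⁻¹ (s σ (((Module.finBasis F N i : N) : Fin z → F) j))) ∈ N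
      have h1 : (fun j => s σ⁻¹ (s σ (((Module.finBasis F N i : N) : Fin z → F) j))) =
          ((Module.finBasis F N i : N) : Fin z → F) := by
        funext j
        rw [X3_inv]
      rw [h1]
      exact (Module.finBasis F N i).2
    · intro x hx
      rw [X3_mem] at hx
      have h1 := (Module.finBasis F N).sum_repr ⟨_, hx⟩
      have h2 := congrArg (fun v : N => (v : Fin z → F)) h1
      simp only [Submodule.coe_sum, Submodule.coe_smul] at h2
      have h3 : x = ∑ i, s σ ((Module.finBasis F N).repr ⟨_, hx⟩ i) • (fun j =>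
          s σ (((Module.finBasis F N i : N) : Fin z → F) j)) := by
        funext j
        have h4 := congrFun h2 j
        have h5 := congrArg (s σ) h4
        rw [X3_inv'] at h5
        rw [← h5, Finset.sum_apply, Finset.sum_apply, map_sum]
        refine Finset.sum_congr rfl fun i _ => ?_
        rw [Pi.smul_apply, Pi.smul_apply, smul_eq_mul, smul_eq_mul, map_mul]
      rw [h3]
      refine Submodule.sum_mem _ fun i _ => Submodule.smul_mem _ _ (Submodule.subset_span ⟨i, rfl⟩)

/-- The descent of the bound for the degrees of the subspaces. -/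
theorem descent [CharZero F] {G : Type} [Group G] [Fintype G] (s : G →* (F ≃ₐ[E] F))
    (hfix : ∀ x : F, (∀ σ, s σ x = x) → ∃ y : E, algebraMap E F y = x)
    (H : Ht k E) (HF : Ht K F) (mm : ℝ) (hmm : 0 < mm)
    (hm : ∀ {κ' : Type} [Fintype κ'] (S : κ' → E), S ≠ 0 →
      HF.lam (fun a => algebraMap E F (S a)) = mm * H.lam S)
    (hs : ∀ {κ' : Type} [Fintype κ'] (σ : G) (S : κ' → F), S ≠ 0 →
      HF.lam (fun a => s σ (S a)) = HF.lam S)
    {P : Fin z → κ → E} (hP : LinearIndependent E P) (c η : ℝ)
    (hQ : ∀ L : Submodule E (Fin z → E),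
      Module.finrank E L * c - pH H P L ≤ z * c - H.lam (plk P) + η)
    (N : Submodule F (Fin z → F)) :
    Module.finrank F N * (mm * c) - pH HF (fun j a => algebraMap E F (P j a)) N ≤
      z * (mm * c) - HF.lam (plk fun j a => algebraMap E F (P j a)) + mm * η := by
  have hPF : LinearIndependent F fun j a => algebraMap E F (P j a) := li_algebraMap hP
  refine sup_stable (X3_act s) (X3_act_act s) (fun σ N N' => map_sup (X3_iso s σ) N N')
    (fun N => Module.finrank F N * (mm * c) - pH HF (fun j a => algebraMap E F (P j a)) N)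
    ?_ ?_ ⟨z * |mm * c|, ?_⟩ _ ?_ N
  · intro N N'
    have h1 := pH_sub HF hPF N N'
    have h2 := Submodule.finrank_sup_add_finrank_inf_eq N N'
    have h3 : (Module.finrank F ↥(N ⊔ N') : ℝ) + Module.finrank F ↥(N ⊓ N') =
        Module.finrank F N + Module.finrank F N' := by
      exact_mod_cast h2
    have h4 : (Module.finrank F ↥(N ⊔ N') : ℝ) * (mm * c) + Module.finrank F ↥(N ⊓ N') * (mm * c) =
        Module.finrank F N * (mm * c) + Module.finrank F N' * (mm * c) := by
      rw [← add_mul, h3, add_mul]
    linarith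
  · intro σ N
    obtain ⟨h1, h2⟩ := X3_basis s σ N
    have h3 : Module.finrank F (X3_act s σ N) = Module.finrank F N := by
      rw [← h2, finrank_span_eq_card h1, Fintype.card_fin]
    have h4 : pH HF (fun j a => algebraMap E F (P j a)) (X3_act s σ N) =
        pH HF (fun j a => algebraMap E F (P j a)) N := by
      rw [← h2, ← pH_eq HF hPF h1]
      have hb : LinearIndependent F
          (fun i : Fin (Module.finrank F N) => ((Module.finBasis F N i : N) : Fin z → F)) :=
        (Module.finBasis F N).linearIndependent.map' N.subtype N.ker_subtype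
      have h5 := hs σ _ (plk_ne_zero _ (cmb_li hPF hb))
      unfold pH
      rw [← h5]
      congr 1
      have h6 := X3_plk_map ((s σ : F ≃ₐ[E] F) : F →+* F)
        (fun i : Fin (Module.finrank F N) => cmb (fun j a => algebraMap E F (P j a))
          ((Module.finBasis F N i : N) : Fin z → F))
      refine Eq.trans ?_ h6
      congr 1
      funext i
      have h7 := X3_cmb_map ((s σ : F ≃ₐ[E] F) : F →+* F) (fun j a => algebraMap E F (P j a))
        ((Module.finBasis F N i : N) : Fin z → F)
      refine Eq.trans ?_ h7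
      congr 1
      funext j a
      exact ((s σ).commutes (P j a)).symm
    rw [h3, h4]
  · intro N
    have h1 := pH_nonneg HF hPF N
    have h2 : (Module.finrank F N : ℝ) ≤ z := by
      have h3 := Submodule.finrank_le N
      rw [Module.finrank_fin_fun] at h3
      exact_mod_cast h3
    have h4 : (Module.finrank F N : ℝ) * (mm * c) ≤ z * |mm * c| :=
      (mul_le_mul_of_nonneg_left (le_abs_self _) (Nat.cast_nonneg _)).trans
        (mul_le_mul_of_nonneg_right h2 (abs_nonneg _))
    linarith
  · intro N hN
    have hN' : ∀ σ, ∀ x ∈ N, (fun j => s σ (x j)) ∈ N := by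
      intro σ x hx
      rw [← hN σ⁻¹, X3_mem, inv_inv] at hx
      exact hx
    obtain ⟨y, hy, hspan⟩ := descent_subspace s hfix N hN'
    have h1 := pH_map H HF mm hm hP hy
    rw [hspan] at h1
    have h2 := finrank_span_eq_card hy
    rw [Fintype.card_fin] at h2
    have h3 := hQ (Submodule.span E (Set.range y))
    rw [h2] at h3
    have h4 : HF.lam (plk fun j a => algebraMap E F (P j a)) = mm * H.lam (plk P) := by
      rw [← hm _ (plk_ne_zero P hP), ← X3_plk_map (algebraMap E F)]
    rw [h1, h4]
    have h5 := mul_le_mul_of_nonneg_left h3 hmm.le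
    linarith

end

end Pool.Agent.Lib.MP_17a322_nt.FQ
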