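import Pool.Agent.Lib.MP_17a322_nt.FQ.H2

/-!
Extension of the derivations of `E` to `F = E ⊗ K`.
-/

universe u v

namespace Pool.Agent.Lib.MP_17a322_nt.FQ

variable {K : Type v} {E : Type u} {F : Type v} [Field K] [CharZero K] [Field E] [Algebra ℚ E] [Field F]
  [Algebra K F] [Algebra E F] {m : ℕ} (ω : Module.Basis (Fin m) ℚ K) (b : Module.Basis (Fin m) E F)
  (hb : ∀ i, b i = algebraMap K F (ω i))

private theorem X4_sum {R A M : Type*} [CommSemiring R] [CommSemiring A] [AddCommMonoid M] [Algebra R A]
    [Module A M] [Module R M] {ι : Type*} (s : Finset ι) (f : ι → Derivation R A M) (x : A) :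
    (∑ i ∈ s, f i) x = ∑ i ∈ s, f i x := by
  classical
  induction s using Finset.induction_on with
  | empty => simp
  | insert i s hi ih => rw [Finset.sum_insert hi, Finset.sum_insert hi, Derivation.add_apply, ih]

private theorem X4_rat (q : ℚ) :
    algebraMap K F (algebraMap ℚ K q) = algebraMap E F (algebraMap ℚ E q) := by
  have h : (algebraMap K F).comp (algebraMap ℚ K) = (algebraMap E F).comp (algebraMap ℚ E) :=
    Subsingleton.elim _ _
  exact congrArg (fun f : ℚ →+* F => f q) h

include hb

private theorem X4_repr (c : K) (i : Fin m) :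
    b.repr (algebraMap K F c) i = algebraMap ℚ E (ω.repr c i) := by
  have h1 : algebraMap K F c = ∑ j, algebraMap ℚ E (ω.repr c j) • b j := by
    conv_lhs => rw [← ω.sum_repr c]
    rw [map_sum]
    refine Finset.sum_congr rfl fun j _ => ?_
    rw [Algebra.smul_def, map_mul, X4_rat (E := E), Algebra.smul_def, hb]
  rw [h1, b.repr_sum_self]

omit hb in
private theorem X4_add (D : Derivation ℚ E E) :
    ∃ T : F →+ F, ∀ x : F, T x = ∑ i, algebraMap E F (D (b.repr x i)) * b i := by
  let T : F →+ F :=
    { toFun := fun x => ∑ i, algebraMap E F (D (b.repr x i)) * b i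
      map_zero' := by simp
      map_add' := fun x y => by
        rw [← Finset.sum_add_distrib]
        refine Finset.sum_congr rfl fun i _ => ?_
        rw [map_add, Finsupp.add_apply, map_add, map_add, add_mul] }
  exact ⟨T, fun x => rfl⟩

/-- The extension of a derivation of `E` to a derivation of `F` over `K`. -/
theorem exists_ext (D : Derivation ℚ E E) :
    ∃ D' : Derivation K F F, ∀ y, D' (algebraMap E F y) = algebraMap E F (D y) := by
  obtain ⟨T, hT⟩ := X4_add b D
  have hK : ∀ c : K, T (algebraMap K F c) = 0 := by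
    intro c
    rw [hT]
    refine Finset.sum_eq_zero fun i _ => ?_
    rw [X4_repr ω b hb, Derivation.map_algebraMap, map_zero, zero_mul]
  have hE : ∀ (e : E) (x : F), T (e • x) = e • T x + algebraMap E F (D e) * x := by
    intro e x
    have h1 : x = ∑ i, b.repr x i • b i := (b.sum_repr x).symm
    have h2 : algebraMap E F (D e) * x = ∑ i, algebraMap E F (D e) * (b.repr x i • b i) := by
      conv_lhs => rw [h1]
      rw [Finset.mul_sum]
    rw [h2, hT, hT, Finset.smul_sum, ← Finset.sum_add_distrib]
    refine Finset.sum_congr rfl fun i _ => ?_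
    rw [map_smul, Finsupp.smul_apply, smul_eq_mul, Derivation.leibniz, smul_eq_mul, smul_eq_mul,
      map_add, map_mul, map_mul, Algebra.smul_def, Algebra.smul_def]
    ring
  have hbi : ∀ i, T (b i) = 0 := fun i => by rw [hb, hK]
  have hsum : ∀ x : F, x = ∑ i, b.repr x i • b i := fun x => (b.sum_repr x).symm
  have hmul : ∀ i (y : F), T (b i * y) = b i * T y := by
    intro i y
    have h1 : b i * y = ∑ j, b.repr y j • (b i * b j) := by
      conv_lhs => rw [hsum y]
      rw [Finset.mul_sum]
      refine Finset.sum_congr rfl fun j _ => ?_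
      rw [Algebra.mul_smul_comm]
    have h2 : T y = ∑ j, algebraMap E F (D (b.repr y j)) * b j := hT y
    rw [h1, map_sum, h2, Finset.mul_sum]
    refine Finset.sum_congr rfl fun j _ => ?_
    rw [hE, hb i, hb j, ← map_mul, hK, smul_zero, zero_add, map_mul]
    ring
  have hleib : ∀ x y : F, T (x * y) = x * T y + y * T x := by
    intro x y
    have h1 : x * y = ∑ i, b.repr x i • (b i * y) := by
      conv_lhs => rw [hsum x]
      rw [Finset.sum_mul]
      refine Finset.sum_congr rfl fun j _ => ?_
      rw [Algebra.smul_mul_assoc]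
    have h2 : T x = ∑ j, algebraMap E F (D (b.repr x j)) * b j := hT x
    have h3 : x * T y = ∑ i, (b.repr x i • b i) * T y := by
      conv_lhs => rw [hsum x]
      rw [Finset.sum_mul]
    rw [h1, map_sum, h2, h3, Finset.mul_sum, ← Finset.sum_add_distrib]
    refine Finset.sum_congr rfl fun j _ => ?_
    rw [hE, hmul, Algebra.smul_mul_assoc]
    ring
  let L : F →ₗ[K] F :=
    { toFun := T
      map_add' := T.map_add
      map_smul' := fun c x => by
        rw [Algebra.smul_def, hleib, hK, mul_zero, add_zero, RingHom.id_apply, Algebra.smul_def] }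
  refine ⟨Derivation.mk' L fun x y => ?_, fun y => ?_⟩
  · show T (x * y) = x • T y + y • T x
    rw [hleib, smul_eq_mul, smul_eq_mul]
  · show T (algebraMap E F y) = algebraMap E F (D y)
    have h1 : algebraMap E F y = y • (1 : F) := Algebra.algebraMap_eq_smul_one y
    rw [h1, hE]
    have h2 : T 1 = 0 := by
      have := hK 1
      rwa [map_one] at this
    rw [h2, smul_zero, zero_add, mul_one]

omit [Algebra ℚ E] in
/-- Two derivations of `F` over `K` which agree on `E` are equal. -/
theorem ext_unique (D D' : Derivation K F F) (h : ∀ y : E, D (algebraMap E F y) = D' (algebraMap E F y)) :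
    D = D' := by
  ext x
  have h1 : x = ∑ i, algebraMap E F (b.repr x i) * algebraMap K F (ω i) := by
    conv_lhs => rw [← b.sum_repr x]
    refine Finset.sum_congr rfl fun i _ => ?_
    rw [Algebra.smul_def, hb]
  rw [h1, map_sum, map_sum]
  refine Finset.sum_congr rfl fun i _ => ?_
  rw [Derivation.leibniz, Derivation.leibniz, Derivation.map_algebraMap, Derivation.map_algebraMap, h]

/-- Every derivation of `F` over `K` is a combination of the extensions of a generating system of
derivations of `E`. -/
theorem ext_span {z : ℕ} (D₀ : Fin z → Derivation ℚ E E)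
    (hD₀ : ⊤ ≤ Submodule.span E (Set.range D₀)) (D' : Fin z → Derivation K F F)
    (hD' : ∀ j y, D' j (algebraMap E F y) = algebraMap E F (D₀ j y)) (D'' : Derivation K F F) :
    ∃ c : Fin z → F, D'' = ∑ j, c j • D' j := by
  have hDi : ∀ i : Fin m, ∃ G : Derivation ℚ E E, ∀ y, G y = b.repr (D'' (algebraMap E F y)) i := by
    intro i
    let G₀ : E →+ E :=
      { toFun := fun y => b.repr (D'' (algebraMap E F y)) i
        map_zero' := by simp
        map_add' := fun x y => by simp }
    refine ⟨Derivation.mk' G₀.toRatLinearMap fun x y => ?_, fun y => rfl⟩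
    show b.repr (D'' (algebraMap E F (x * y))) i =
      x • b.repr (D'' (algebraMap E F y)) i + y • b.repr (D'' (algebraMap E F x)) i
    have h1 : D'' (algebraMap E F (x * y)) =
        x • D'' (algebraMap E F y) + y • D'' (algebraMap E F x) := by
      rw [map_mul, Derivation.leibniz, smul_eq_mul, smul_eq_mul, Algebra.smul_def, Algebra.smul_def]
    rw [h1, map_add, map_smul, map_smul]
    rfl
  choose G hG using hDi
  have hspan : ∀ i : Fin m, ∃ a : Fin z → E, ∑ j, a j • D₀ j = G i := by
    intro i
    exact (Submodule.mem_span_range_iff_exists_fun E).1 (hD₀ (Submodule.mem_top (x := G i)))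
  choose a ha using hspan
  refine ⟨fun j => ∑ i, algebraMap E F (a i j) * b i, ?_⟩
  refine ext_unique ω b hb _ _ fun y => ?_
  have h1 : D'' (algebraMap E F y) = ∑ i, algebraMap E F (G i y) * b i := by
    conv_lhs => rw [← b.sum_repr (D'' (algebraMap E F y))]
    refine Finset.sum_congr rfl fun i _ => ?_
    rw [Algebra.smul_def, hG]
  have h2 : ∀ i, G i y = ∑ j, a i j * D₀ j y := by
    intro i
    rw [← ha i, X4_sum]
    rfl
  have h3 : (∑ j, (∑ i, algebraMap E F (a i j) * b i) • D' j) (algebraMap E F y) =
      ∑ j, (∑ i, algebraMap E F (a i j) * b i) * algebraMap E F (D₀ j y) := by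
    rw [X4_sum]
    refine Finset.sum_congr rfl fun j _ => ?_
    rw [Derivation.smul_apply, hD', smul_eq_mul]
  rw [h3, h1]
  simp only [h2, map_sum, map_mul, Finset.sum_mul]
  rw [Finset.sum_comm]
  refine Finset.sum_congr rfl fun j _ => Finset.sum_congr rfl fun i _ => ?_
  ring

end Pool.Agent.Lib.MP_17a322_nt.FQ
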