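import Pool.Agent.Lib.MP_17a322_nt.FQ.X4
import Pool.Agent.Lib.MP_17a322_nt.FQ.N2

/-!
The comparison of two models over `E` holds over `F`.
-/

universe u v

namespace Pool.Agent.Lib.MP_17a322_nt.FQ

variable {K : Type v} {E : Type u} {F : Type v} [Field K] [CharZero K] [Field E] [Algebra ℚ E] [Field F]
  [Algebra K F] [Algebra E F] {κ κ' : Type} [Fintype κ] [Fintype κ']

/-- The functionals of the extended model at the extended derivation. -/
theorem ps_ext (m : κ → E) (D : Derivation ℚ E E) (D' : Derivation K F F)
    (hD' : ∀ y, D' (algebraMap E F y) = algebraMap E F (D y)) (p : κ × κ) :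
    ps (fun a => algebraMap E F (m a)) p D' = algebraMap E F (ps m p D) := by
  change algebraMap E F (m p.1) * D' (algebraMap E F (m p.2)) -
      algebraMap E F (m p.2) * D' (algebraMap E F (m p.1)) =
    algebraMap E F (m p.1 * D (m p.2) - m p.2 * D (m p.1))
  rw [hD', hD', map_sub, map_mul, map_mul]

/-- The valuation ring of `E` under a valuation ring of `F`. -/
theorem exists_comap (A : VQ K F) :
    ∃ A₀ : VQ ℚ E, ∀ x y : E, A₀.1.valuation x ≤ A₀.1.valuation y ↔
      A.1.valuation (algebraMap E F x) ≤ A.1.valuation (algebraMap E F y) := by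
  refine ⟨⟨A.1.comap (algebraMap E F), fun c => ?_⟩, fun x y => ?_⟩
  · rw [ValuationSubring.mem_comap, eq_ratCast (algebraMap ℚ E) c, map_ratCast,
      ← map_ratCast (algebraMap K F) c]
    exact A.2 _
  · rw [ValuationSubring.valuation_le_iff, ValuationSubring.valuation_le_iff]
    constructor
    · rintro ⟨a, ha⟩
      refine ⟨⟨algebraMap E F (a : E), ValuationSubring.mem_comap.1 a.2⟩, ?_⟩
      change algebraMap E F (a : E) * algebraMap E F y = algebraMap E F x
      rw [← map_mul, ha]
    · rintro ⟨a, ha⟩
      by_cases hy : y = 0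
      · refine ⟨0, ?_⟩
        rw [hy, map_zero, mul_zero] at ha
        rw [hy, mul_zero]
        exact ((map_eq_zero (algebraMap E F)).1 ha.symm).symm
      · have hy' : algebraMap E F y ≠ 0 := (map_ne_zero (algebraMap E F)).2 hy
        have h1 : algebraMap E F (x / y) = (a : F) := by
          rw [map_div₀, ← ha, mul_div_cancel_right₀ _ hy']
        refine ⟨⟨x / y, ?_⟩, ?_⟩
        · change x / y ∈ A.1.comap (algebraMap E F)
          rw [ValuationSubring.mem_comap, h1]
          exact a.2
        · change x / y * y = x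
          exact div_mul_cancel₀ x hy

omit [CharZero K] in
/-- The maximum of the values of the elements of a family over `E`. -/
private theorem X5_nm {A : VQ K F} {A₀ : VQ ℚ E}
    (hA : ∀ x y : E, A₀.1.valuation x ≤ A₀.1.valuation y ↔
      A.1.valuation (algebraMap E F x) ≤ A.1.valuation (algebraMap E F y)) (S : κ → E) (a : κ)
    (ha : nm ℚ S A₀ = A₀.1.valuation (S a)) :
    nm K (fun a => algebraMap E F (S a)) A = A.1.valuation (algebraMap E F (S a)) := by
  apply le_antisymm
  · refine nm_le _ A _ fun b => ?_
    refine (hA _ _).1 ?_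
    rw [← ha]
    exact le_nm S A₀ b
  · exact le_nm (fun a => algebraMap E F (S a)) A a

/-- The comparison for one derivation of `E` and its extension. -/
private theorem X5_one (m : κ → E) (m' : κ' → E) (hm : m ≠ 0) (hm' : m' ≠ 0) (h : Fi ℚ m m')
    (A : VQ K F) (w : Derivation ℚ E E) (w' : Derivation K F F)
    (hw : ∀ y, w' (algebraMap E F y) = algebraMap E F (w y)) :
    mn (fun a => algebraMap E F (m a)) A w' ≤ mn (fun a => algebraMap E F (m' a)) A w' := by
  obtain ⟨A₀, hA⟩ := exists_comap (E := E) A
  obtain ⟨a, ha0, ha⟩ := nm_attain m hm A₀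
  obtain ⟨a', ha0', ha'⟩ := nm_attain m' hm' A₀
  have h1 := h A₀ w
  unfold mn at h1 ⊢
  rw [X5_nm hA m a ha, X5_nm hA m' a' ha']
  rw [ha, ha'] at h1
  have hv : (0 : A₀.1.ValueGroup) < A₀.1.valuation (m a) ^ 2 :=
    zero_lt_iff.2 (pow_ne_zero _ ((Valuation.ne_zero_iff _).2 ha0))
  have hv' : (0 : A₀.1.ValueGroup) < A₀.1.valuation (m' a') ^ 2 :=
    zero_lt_iff.2 (pow_ne_zero _ ((Valuation.ne_zero_iff _).2 ha0'))
  have hu : (0 : A.1.ValueGroup) < A.1.valuation (algebraMap E F (m a)) ^ 2 :=
    zero_lt_iff.2 (pow_ne_zero _ ((Valuation.ne_zero_iff _).2 ((map_ne_zero _).2 ha0)))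
  have hu' : (0 : A.1.ValueGroup) < A.1.valuation (algebraMap E F (m' a')) ^ 2 :=
    zero_lt_iff.2 (pow_ne_zero _ ((Valuation.ne_zero_iff _).2 ((map_ne_zero _).2 ha0')))
  rw [div_le_div_iff₀ hv hv'] at h1
  rw [div_le_div_iff₀ hu hu']
  -- the values at `E`
  have h2 : ∀ p, A.1.valuation (ps (fun a => algebraMap E F (m a)) p w') *
      A.1.valuation (algebraMap E F (m' a')) ^ 2 ≤
      nm K (fun p => ps (fun a => algebraMap E F (m' a)) p w') A *
        A.1.valuation (algebraMap E F (m a)) ^ 2 := by
    intro p
    have h3 : A₀.1.valuation (ps m p w) * A₀.1.valuation (m' a') ^ 2 ≤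
        nm ℚ (fun p => ps m' p w) A₀ * A₀.1.valuation (m a) ^ 2 :=
      (mul_le_mul_left (le_nm (fun p => ps m p w) A₀ p) _).trans h1
    rw [ps_ext m w w' hw p]
    by_cases hz : (fun p => ps m' p w) = 0
    · have h4 : nm ℚ (fun p => ps m' p w) A₀ = 0 := by
        rw [hz]
        refine le_antisymm (nm_le _ _ _ fun b => ?_) zero_le
        rw [Pi.zero_apply, map_zero]
      rw [h4, zero_mul, le_zero_iff, mul_eq_zero] at h3
      rcases h3 with h3 | h3
      · rw [(map_eq_zero _).1 h3, map_zero, map_zero, zero_mul]
        exact zero_le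
      · exact absurd h3 hv'.ne'
    · obtain ⟨p', -, hp'⟩ := nm_attain _ hz A₀
      rw [hp', ← map_pow, ← map_pow, ← map_mul, ← map_mul] at h3
      have h4 := (hA _ _).1 h3
      rw [map_mul, map_mul, map_pow, map_pow, map_mul, map_mul, map_pow, map_pow,
        ← ps_ext m' w w' hw p'] at h4
      exact h4.trans (mul_le_mul_left
        (le_nm (fun p => ps (fun a => algebraMap E F (m' a)) p w') A p') _)
  rw [← le_div_iff₀ hu']
  refine nm_le _ A _ fun p => ?_
  rw [le_div_iff₀ hu']
  exact h2 p

/-- A model which is finer over `E` is finer over `F`. -/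
theorem fi_ext {z : ℕ} (D : Fin z → Derivation ℚ E E) (hD : LinearIndependent E D)
    (D' : Fin z → Derivation K F F) (hD' : ∀ j y, D' j (algebraMap E F y) = algebraMap E F (D j y))
    (m : κ → E) (m' : κ' → E) (hm : IsMd ℚ m) (hm' : IsMd ℚ m') (h : Fi ℚ m m') (A : VQ K F)
    (c : Fin z → F) :
    mn (fun a => algebraMap E F (m a)) A (∑ j, c j • D' j) ≤
      mn (fun a => algebraMap E F (m' a)) A (∑ j, c j • D' j) := by
  classical
  -- the vectors of the values of the functionals
  let Ψ : Derivation ℚ E E →ₗ[E] (κ' × κ' → E) := LinearMap.pi (ps m')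
  have hΨ : ∀ (v : Derivation ℚ E E) (p : κ' × κ'), Ψ v p = ps m' p v := fun _ _ => rfl
  have hker : LinearMap.ker Ψ = ⊥ := by
    rw [LinearMap.ker_eq_bot']
    intro v hv
    exact hm'.2 v fun p => congrFun hv p
  have hP : LinearIndependent E fun j => Ψ (D j) := hD.map' Ψ hker
  obtain ⟨L, hL1, hL2⟩ := frames.{u, 0, v, v} (fun j => Ψ (D j)) hP
  obtain ⟨⟨e, g⟩, hp, hint⟩ := hL2 F A.1.ValueGroup A.1.valuation
  obtain ⟨hdual, hspan⟩ := hL1 _ hp
  have hon := onFr_of hdual hint
  have he : ∀ i, e i ∈ Submodule.span E (Set.range fun j => Ψ (D j)) := by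
    intro i
    have h1 : e i ∈ Submodule.span E (e '' Set.Iic i) :=
      Submodule.subset_span ⟨i, Set.mem_Iic.2 le_rfl, rfl⟩
    rw [hspan i] at h1
    exact Submodule.span_mono (Set.image_subset_range _ _) h1
  have hP' : ∀ j, Ψ (D j) ∈ Submodule.span E (Set.range e) := by
    intro j
    have h1 : Ψ (D j) ∈ Submodule.span E ((fun j => Ψ (D j)) '' Set.Iic j) :=
      Submodule.subset_span ⟨j, Set.mem_Iic.2 le_rfl, rfl⟩
    rw [← hspan j] at h1
    exact Submodule.span_mono (Set.image_subset_range _ _) h1
  choose t ht using fun i => (Submodule.mem_span_range_iff_exists_fun E).1 (he i)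
  choose s hs using fun j => (Submodule.mem_span_range_iff_exists_fun E).1 (hP' j)
  have hst : ∀ j l, ∑ i, s j i * t i l = if l = j then 1 else 0 := by
    intro j l
    have h1 : ∑ l, ((∑ i, s j i * t i l) - if l = j then 1 else 0) • Ψ (D l) = 0 := by
      simp only [sub_smul, Finset.sum_sub_distrib, ite_smul, one_smul, zero_smul,
        Finset.sum_ite_eq', Finset.mem_univ, if_true]
      rw [sub_eq_zero]
      calc ∑ l, (∑ i, s j i * t i l) • Ψ (D l) = ∑ l, ∑ i, s j i • (t i l • Ψ (D l)) := by
            refine Finset.sum_congr rfl fun l _ => ?_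
            rw [Finset.sum_smul]
            refine Finset.sum_congr rfl fun i _ => ?_
            rw [smul_smul]
        _ = ∑ i, s j i • ∑ l, t i l • Ψ (D l) := by
            rw [Finset.sum_comm]
            refine Finset.sum_congr rfl fun i _ => ?_
            rw [Finset.smul_sum]
        _ = ∑ i, s j i • e i := by
            refine Finset.sum_congr rfl fun i _ => ?_
            rw [ht i]
        _ = Ψ (D j) := hs j
    exact sub_eq_zero.1 (Fintype.linearIndependent_iff.1 hP _ h1 l)
  -- the frame of derivations and its extension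
  let w : Fin z → Derivation ℚ E E := fun i => ∑ j, t i j • D j
  let w' : Fin z → Derivation K F F := fun i => ∑ j, algebraMap E F (t i j) • D' j
  have hsumE : ∀ (r : Fin z → E) (y : E), (∑ j, r j • D j) y = ∑ j, r j * D j y := by
    intro r y
    have h1 : ∀ q : Finset (Fin z), (∑ j ∈ q, r j • D j) y = ∑ j ∈ q, r j * D j y := by
      intro q
      induction q using Finset.induction_on with
      | empty => rw [Finset.sum_empty, Finset.sum_empty, Derivation.coe_zero, Pi.zero_apply]
      | insert a q ha ih =>
        rw [Finset.sum_insert ha, Finset.sum_insert ha, Derivation.add_apply, ih,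
          Derivation.smul_apply, smul_eq_mul]
    exact h1 _
  have hsumF : ∀ (r : Fin z → F) (y : F), (∑ j, r j • D' j) y = ∑ j, r j * D' j y := by
    intro r y
    have h1 : ∀ q : Finset (Fin z), (∑ j ∈ q, r j • D' j) y = ∑ j ∈ q, r j * D' j y := by
      intro q
      induction q using Finset.induction_on with
      | empty => rw [Finset.sum_empty, Finset.sum_empty, Derivation.coe_zero, Pi.zero_apply]
      | insert a q ha ih =>
        rw [Finset.sum_insert ha, Finset.sum_insert ha, Derivation.add_apply, ih,
          Derivation.smul_apply, smul_eq_mul]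
    exact h1 _
  have hw : ∀ i y, w' i (algebraMap E F y) = algebraMap E F (w i y) := by
    intro i y
    change (∑ j, algebraMap E F (t i j) • D' j) (algebraMap E F y) =
      algebraMap E F ((∑ j, t i j • D j) y)
    rw [hsumE, hsumF, map_sum]
    refine Finset.sum_congr rfl fun j _ => ?_
    rw [hD', map_mul]
  have hew : ∀ i p, ps m' p (w i) = e i p := by
    intro i p
    rw [← hΨ]
    have h1 : Ψ (w i) = ∑ j, t i j • Ψ (D j) := by
      change Ψ (∑ j, t i j • D j) = _
      rw [map_sum]
      refine Finset.sum_congr rfl fun j _ => ?_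
      rw [map_smul]
    rw [h1, ht i]
  -- the coefficients
  let c' : Fin z → F := fun i => ∑ j, c j * algebraMap E F (s j i)
  have hc : ∑ j, c j • D' j = ∑ i, c' i • w' i := by
    symm
    calc ∑ i, c' i • w' i = ∑ i, ∑ l, (c' i * algebraMap E F (t i l)) • D' l := by
          refine Finset.sum_congr rfl fun i _ => ?_
          change c' i • ∑ l, algebraMap E F (t i l) • D' l = _
          rw [Finset.smul_sum]
          refine Finset.sum_congr rfl fun l _ => ?_
          rw [smul_smul]
      _ = ∑ l, (∑ i, c' i * algebraMap E F (t i l)) • D' l := by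
          rw [Finset.sum_comm]
          refine Finset.sum_congr rfl fun l _ => ?_
          rw [Finset.sum_smul]
      _ = ∑ l, c l • D' l := by
          refine Finset.sum_congr rfl fun l _ => ?_
          congr 1
          calc ∑ i, c' i * algebraMap E F (t i l) =
              ∑ i, ∑ j, c j * algebraMap E F (s j i * t i l) := by
                refine Finset.sum_congr rfl fun i _ => ?_
                change (∑ j, c j * algebraMap E F (s j i)) * algebraMap E F (t i l) = _
                rw [Finset.sum_mul]
                refine Finset.sum_congr rfl fun j _ => ?_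
                rw [map_mul, mul_assoc]
            _ = ∑ j, c j * algebraMap E F (∑ i, s j i * t i l) := by
                rw [Finset.sum_comm]
                refine Finset.sum_congr rfl fun j _ => ?_
                rw [map_sum, Finset.mul_sum]
            _ = c l := by
                simp only [hst]
                rw [Finset.sum_eq_single l]
                · rw [if_pos rfl, map_one, mul_one]
                · intro j _ hj
                  rw [if_neg (Ne.symm hj), map_zero, mul_zero]
                · intro h
                  exact absurd (Finset.mem_univ l) h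
  rw [hc]
  -- the norm of the finer model
  have hps : ∀ p, ps (fun a => algebraMap E F (m' a)) p (∑ i, c' i • w' i) =
      (∑ i, c' i • fun p => algebraMap E F (e i p)) p := by
    intro p
    rw [map_sum, Finset.sum_apply]
    refine Finset.sum_congr rfl fun i _ => ?_
    rw [map_smul, ps_ext m' (w i) (w' i) (hw i) p, hew, Pi.smul_apply]
  have hN : nm K (fun p => ps (fun a => algebraMap E F (m' a)) p (∑ i, c' i • w' i)) A =
      vn A.1.valuation c' := by
    have h1 : (fun p => ps (fun a => algebraMap E F (m' a)) p (∑ i, c' i • w' i)) =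
        ∑ i, c' i • fun p => algebraMap E F (e i p) := funext hps
    rw [h1]
    exact hon.vn_eq c'
  refine mn_sum_le _ A (fun i => c' i • w' i) _ fun i => ?_
  rw [mn_smul]
  have h1 : mn (fun a => algebraMap E F (m' a)) A (w' i) ≤
      1 / nm K (fun a => algebraMap E F (m' a)) A ^ 2 := by
    unfold mn
    refine div_le_div_of_nonneg_right ?_ zero_le
    refine nm_le _ A _ fun p => ?_
    rw [ps_ext m' (w i) (w' i) (hw i) p, hew]
    exact hint.1 i p
  have h2 : mn (fun a => algebraMap E F (m' a)) A (∑ i, c' i • w' i) =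
      vn A.1.valuation c' * (1 / nm K (fun a => algebraMap E F (m' a)) A ^ 2) := by
    unfold mn
    rw [hN, mul_one_div]
  rw [h2]
  exact mul_le_mul' (le_vn A.1.valuation c' i)
    ((X5_one m m' hm.1 hm'.1 h A (w i) (w' i) (hw i)).trans h1)

end Pool.Agent.Lib.MP_17a322_nt.FQ
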