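import Pool.Agent.Lib.MP_17a322_nt.FQ.X4

/-!
For every family in `F` there is a family in `E` with a larger norm: the products of the conjugates.
-/

universe u v

namespace Pool.Agent.Lib.MP_17a322_nt.FQ

variable {K : Type v} {E : Type u} {F : Type v} [Field K] [NumberField K] [IsGalois ℚ K] [Field E]
  [Field F] [Algebra K F] [Algebra E F] {m : ℕ} (ω : Module.Basis (Fin m) ℚ K)
  (b : Module.Basis (Fin m) E F) (hb : ∀ i, b i = algebraMap K F (ω i))
  (s : (K ≃ₐ[ℚ] K) →* (F ≃ₐ[E] F)) (hs : ∀ σ c, s σ (algebraMap K F c) = algebraMap K F (σ c))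

omit [IsGalois ℚ K] in
include hb in
theorem X6_expand (x : F) :
    x = ∑ j, algebraMap E F (b.repr x j) * algebraMap K F (ω j) := by
  conv_lhs => rw [← b.sum_repr x]
  refine Finset.sum_congr rfl fun j _ => ?_
  rw [Algebra.smul_def, hb j]

omit [IsGalois ℚ K] in
include hb hs in
theorem X6_conj (x : F) (σ : K ≃ₐ[ℚ] K) :
    s σ x = ∑ j, algebraMap E F (b.repr x j) * algebraMap K F (σ (ω j)) := by
  conv_lhs => rw [X6_expand ω b hb x, map_sum]
  refine Finset.sum_congr rfl fun j _ => ?_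
  rw [map_mul, AlgEquiv.commutes, hs]

include hb hs in
/-- The coordinates of an element of `F` are combinations of its conjugates with coefficients in `K`. -/
theorem coord_conj : ∃ t : Fin m → (K ≃ₐ[ℚ] K) → K, ∀ (x : F) (i : Fin m),
    algebraMap E F (b.repr x i) = ∑ σ, algebraMap K F (t i σ) * s σ x := by
  classical
  let ω' := (Algebra.traceForm ℚ K).dualBasis (traceForm_nondegenerate ℚ K) ω
  have hω' : ∀ i j, Algebra.trace ℚ K (ω' i * ω j) = if j = i then 1 else 0 := fun i j => by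
    rw [← Algebra.traceForm_apply]
    exact LinearMap.BilinForm.apply_dualBasis_left (traceForm_nondegenerate ℚ K) ω i j
  refine ⟨fun i σ => σ (ω' i), fun x i => ?_⟩
  have h1 : ∀ σ : K ≃ₐ[ℚ] K, algebraMap K F (σ (ω' i)) * s σ x =
      ∑ j, algebraMap E F (b.repr x j) * algebraMap K F (σ (ω' i * ω j)) := fun σ => by
    rw [X6_conj ω b hb s hs x σ, Finset.mul_sum]
    refine Finset.sum_congr rfl fun j _ => ?_
    rw [map_mul, map_mul]
    ring
  rw [Finset.sum_congr rfl fun σ _ => h1 σ, Finset.sum_comm]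
  have h2 : ∀ j, ∑ σ : K ≃ₐ[ℚ] K, algebraMap E F (b.repr x j) * algebraMap K F (σ (ω' i * ω j)) =
      if j = i then algebraMap E F (b.repr x j) else 0 := fun j => by
    rw [← Finset.mul_sum, ← map_sum, ← trace_eq_sum_automorphisms, hω' i j]
    by_cases hji : j = i
    · rw [if_pos hji, if_pos hji, map_one, map_one, mul_one]
    · rw [if_neg hji, if_neg hji, map_zero, map_zero, mul_zero]
  rw [Finset.sum_congr rfl fun j _ => h2 j, Finset.sum_ite_eq' Finset.univ i, if_pos (Finset.mem_univ i)]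

omit [NumberField K] [IsGalois ℚ K] in
theorem X6_le_one (A : VQ K F) (c : K) : A.1.valuation (algebraMap K F c) ≤ 1 :=
  (A.1.valuation_le_one_iff _).mpr (A.2 c)

/-- The products of the conjugates of the elements of a family. -/
noncomputable def X6P {N : ℕ} (e : Fin N ≃ (K ≃ₐ[ℚ] K)) {κ : Type} (f : κ → F) (a : Fin N → κ) : F :=
  ∏ n, s (e n) (f (a n))

omit [IsGalois ℚ K] [Algebra K F] in
theorem X6_conj_P {N : ℕ} (e : Fin N ≃ (K ≃ₐ[ℚ] K)) {κ : Type} (f : κ → F) (a : Fin N → κ)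
    (σ : K ≃ₐ[ℚ] K) :
    s σ (X6P s e f a) = X6P s e f (fun n => a (e.symm (σ⁻¹ * e n))) := by
  rw [X6P, X6P, map_prod]
  have h1 : ∀ n, s σ (s (e n) (f (a n))) = s (σ * e n) (f (a n)) := fun n => by
    rw [map_mul, AlgEquiv.mul_apply]
  rw [Finset.prod_congr rfl fun n _ => h1 n]
  refine Fintype.prod_equiv ((e.trans (Equiv.mulLeft σ)).trans e.symm) _ _ fun n => ?_
  have h2 : e (((e.trans (Equiv.mulLeft σ)).trans e.symm) n) = σ * e n := by
    simp only [Equiv.trans_apply, Equiv.coe_mulLeft, Equiv.apply_symm_apply]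
  rw [h2, inv_mul_cancel_left, Equiv.symm_apply_apply]

include hb hs in
/-- The products of the conjugates give a family in `E` with a larger norm. -/
theorem exists_model {κ : Type} [Fintype κ] (f : κ → F) (hf : f ≠ 0) :
    ∃ (κ₀ : Type) (_ : Fintype κ₀) (m₀ : κ₀ → E), m₀ ≠ 0 ∧
      ∀ (A : VQ K F) (D : Derivation K F F), mn f A D ≤ mn (fun a => algebraMap E F (m₀ a)) A D := by
  classical
  let e : Fin (Fintype.card (K ≃ₐ[ℚ] K)) ≃ (K ≃ₐ[ℚ] K) := (Fintype.equivFin _).symm
  let N := Fintype.card (K ≃ₐ[ℚ] K)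
  let P : (Fin N → κ) → F := X6P s e f
  have hPdef : ∀ a, P a = ∏ n, s (e n) (f (a n)) := fun a => rfl
  let m₀ : (Fin N → κ) × Fin m → E := fun p => b.repr (P p.1) p.2
  obtain ⟨c₀, hc₀⟩ := Function.ne_iff.mp hf
  rw [Pi.zero_apply] at hc₀
  have hsne : ∀ σ c, f c ≠ 0 → s σ (f c) ≠ 0 := fun σ c hc => by
    rw [Ne, EmbeddingLike.map_eq_zero_iff]
    exact hc
  have hP0 : P (fun _ => c₀) ≠ 0 := by
    rw [hPdef]
    exact Finset.prod_ne_zero_iff.mpr fun n _ => hsne _ _ hc₀
  have hP : P ≠ 0 := Function.ne_iff.mpr ⟨_, hP0⟩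
  have hm₀ : m₀ ≠ 0 := by
    intro h0
    apply hP0
    rw [X6_expand ω b hb (P fun _ => c₀)]
    refine Finset.sum_eq_zero fun j _ => ?_
    have h1 : b.repr (P fun _ => c₀) j = 0 := congrFun h0 (⟨fun _ => c₀, j⟩ : (Fin N → κ) × Fin m)
    rw [h1, map_zero, zero_mul]
  let M : (Fin N → κ) × Fin m → F := fun p => algebraMap E F (m₀ p)
  refine ⟨(Fin N → κ) × Fin m, inferInstance, m₀, hm₀, fun A D => ?_⟩
  change mn f A D ≤ mn M A D
  have hPM : ∀ a, P a = ∑ i, M (a, i) * algebraMap K F (ω i) := fun a =>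
    X6_expand ω b hb (P a)
  obtain ⟨t, ht⟩ := coord_conj ω b hb s hs
  -- the maxima agree
  have h1 : nm K P A = nm K M A := by
    refine le_antisymm (nm_le _ _ _ fun a => ?_) (nm_le _ _ _ fun p => ?_)
    · rw [hPM a]
      refine Valuation.map_sum_le _ fun i _ => ?_
      rw [map_mul]
      calc _ ≤ nm K M A * 1 := mul_le_mul' (le_nm M A (a, i)) (X6_le_one A _)
        _ = _ := mul_one _
    · have e1 : M p = ∑ σ, algebraMap K F (t p.2 σ) * s σ (P p.1) := ht (P p.1) p.2
      rw [e1]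
      refine Valuation.map_sum_le _ fun σ _ => ?_
      rw [map_mul]
      have e2 : s σ (P p.1) = P (fun n => p.1 (e.symm (σ⁻¹ * e n))) := X6_conj_P s e f p.1 σ
      rw [e2]
      calc _ ≤ 1 * nm K P A := mul_le_mul' (X6_le_one A _) (le_nm P A _)
        _ = _ := one_mul _
  have h2 : mn P A D ≤ mn M A D := by
    rw [mn, mn, h1]
    refine div_le_div_of_nonneg_right ?_ zero_le
    refine nm_le _ _ _ fun q => ?_
    have e1 : ∀ a, D (P a) = ∑ i, D (M (a, i)) * algebraMap K F (ω i) := fun a => by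
      rw [hPM a, map_sum]
      refine Finset.sum_congr rfl fun i _ => ?_
      rw [Derivation.leibniz, D.map_algebraMap, smul_zero, zero_add, smul_eq_mul, mul_comm]
    have e2 : ps P q D = ∑ i, ∑ j, algebraMap K F (ω i * ω j) * ps M ((q.1, i), (q.2, j)) D := by
      have e3 : ps P q D = P q.1 * D (P q.2) - P q.2 * D (P q.1) := rfl
      rw [e3, e1, e1, hPM q.1, hPM q.2, Finset.sum_mul_sum, Finset.sum_mul_sum, Finset.sum_comm (s :=
        (Finset.univ : Finset (Fin m))) (f := fun i j => M (q.2, i) * algebraMap K F (ω i) *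
          (D (M (q.1, j)) * algebraMap K F (ω j))), ← Finset.sum_sub_distrib]
      refine Finset.sum_congr rfl fun i _ => ?_
      rw [← Finset.sum_sub_distrib]
      refine Finset.sum_congr rfl fun j _ => ?_
      have e4 : ps M ((q.1, i), (q.2, j)) D = M (q.1, i) * D (M (q.2, j)) - M (q.2, j) * D (M (q.1, i)) := rfl
      rw [e4, map_mul]
      ring
    rw [e2]
    refine Valuation.map_sum_le _ fun i _ => Valuation.map_sum_le _ fun j _ => ?_
    rw [map_mul]
    calc _ ≤ 1 * nm K (fun p => ps M p D) A :=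
          mul_le_mul' (X6_le_one A _) (le_nm (fun p => ps M p D) A ((q.1, i), (q.2, j)))
      _ = _ := one_mul _
  refine le_trans ?_ h2
  -- the chart
  have h3 : ∀ n, ∃ c, s (e n) (f c) ≠ 0 ∧ ∀ c', A.1.valuation (s (e n) (f c')) ≤
      A.1.valuation (s (e n) (f c)) := fun n => by
    have hne : (fun c => s (e n) (f c)) ≠ 0 := Function.ne_iff.mpr ⟨c₀, hsne _ _ hc₀⟩
    obtain ⟨c, hc, hc'⟩ := nm_attain (fun c => s (e n) (f c)) hne A
    exact ⟨c, hc, fun c' => (le_nm (fun c => s (e n) (f c)) A c').trans hc'.le⟩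
  choose a₁ ha₁ ha₁' using h3
  have hPa : P a₁ ≠ 0 := by
    rw [hPdef]
    exact Finset.prod_ne_zero_iff.mpr fun n _ => ha₁ n
  have hPn : nm K P A = A.1.valuation (P a₁) := by
    refine le_antisymm (nm_le _ _ _ fun a => ?_) (le_nm P A a₁)
    rw [hPdef, hPdef, map_prod, map_prod]
    exact Finset.prod_le_prod' fun n _ => ha₁' n (a n)
  let n₁ : Fin N := e.symm 1
  have hn₁ : ∀ y : F, s (e n₁) y = y := fun y => by
    have e1 : e n₁ = 1 := Equiv.apply_symm_apply _ _
    rw [e1, map_one]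
    rfl
  have hfa : f (a₁ n₁) ≠ 0 := by
    have e1 := ha₁ n₁
    rwa [hn₁] at e1
  have hfn : nm K f A = A.1.valuation (f (a₁ n₁)) := by
    refine le_antisymm (nm_le _ _ _ fun c => ?_) (le_nm f A _)
    have e1 := ha₁' n₁ c
    rwa [hn₁, hn₁] at e1
  refine mn_le_chart f A (a₁ n₁) hfa hfn D _ fun c => ?_
  have e5 : P (Function.update a₁ n₁ c) / P a₁ = f c / f (a₁ n₁) := by
    rw [div_eq_div_iff hPa hfa]
    have e6 : P (Function.update a₁ n₁ c) =
        f c * ∏ n ∈ Finset.univ.erase n₁, s (e n) (f (a₁ n)) := by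
      rw [hPdef, ← Finset.mul_prod_erase _ _ (Finset.mem_univ n₁), Function.update_self, hn₁]
      congr 1
      refine Finset.prod_congr rfl fun n hn => ?_
      rw [Function.update_of_ne (Finset.ne_of_mem_erase hn)]
    have e7 : P a₁ = f (a₁ n₁) * ∏ n ∈ Finset.univ.erase n₁, s (e n) (f (a₁ n)) := by
      rw [hPdef, ← Finset.mul_prod_erase _ _ (Finset.mem_univ n₁), hn₁]
    rw [e6, e7]
    ring
  rw [← e5]
  exact mn_chart_le P A a₁ hPa hPn D _

include hb hs in
/-- The elements fixed by all conjugations are in `E`. -/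
theorem fixed_mem (x : F) (hx : ∀ σ, s σ x = x) : ∃ y : E, algebraMap E F y = x := by
  classical
  have hF : CharZero F := charZero_of_injective_algebraMap (algebraMap K F).injective
  have hcard : (Fintype.card (K ≃ₐ[ℚ] K) : F) ≠ 0 := Nat.cast_ne_zero.mpr Fintype.card_ne_zero
  have h1 : (Fintype.card (K ≃ₐ[ℚ] K) : F) * x =
      algebraMap E F (∑ j, b.repr x j * ((Algebra.trace ℚ K (ω j) : ℚ) : E)) := by
    have e1 : (Fintype.card (K ≃ₐ[ℚ] K) : F) * x = ∑ σ : K ≃ₐ[ℚ] K, s σ x := by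
      rw [Finset.sum_congr rfl fun σ _ => hx σ, Finset.sum_const, Finset.card_univ, nsmul_eq_mul]
    rw [e1, Finset.sum_congr rfl fun σ _ => X6_conj ω b hb s hs x σ, Finset.sum_comm, map_sum]
    refine Finset.sum_congr rfl fun j _ => ?_
    rw [← Finset.mul_sum, ← map_sum, ← trace_eq_sum_automorphisms, map_mul, map_ratCast, eq_ratCast,
      map_ratCast]
  refine ⟨((Fintype.card (K ≃ₐ[ℚ] K) : E))⁻¹ * ∑ j, b.repr x j * ((Algebra.trace ℚ K (ω j) : ℚ) : E),
    ?_⟩
  rw [map_mul, ← h1, map_inv₀, map_natCast, inv_mul_cancel_left₀ hcard]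

end Pool.Agent.Lib.MP_17a322_nt.FQ
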