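import Pool.Agent.Lib.MP_17a322_nt.FQ.X1
import Pool.Agent.Lib.MP_17a322_nt.FQ.J1
import Pool.Agent.Lib.MP_17a322_nt.FQ.H2
import Pool.Agent.Lib.MP_17a322_nt.ABN.Sard

/-!
The quotient of the space of the derivations which is given by the coordinates `x`.
-/

universe u v

namespace Pool.Agent.Lib.MP_17a322_nt.FQ

open Pool.Agent.Lib.MP_17a322_nt.JAC (mnr jet)

variable {K : Type v} {F : Type v} [Field K] [Field F] [Algebra K F] {κ κ' τ : Type} [Fintype κ]
  [Fintype κ'] [Fintype τ] [DecidableEq τ] {z : ℕ}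

omit [Fintype κ] [Fintype κ'] [Fintype τ] [DecidableEq τ] in
private theorem X7_cmb (D : Fin z → Derivation K F F) (m : κ' → F) (c : Fin z → F) (p : κ' × κ') :
    cmb (fun j p => ps m p (D j)) c p = ps m p (∑ j, c j • D j) := by
  unfold cmb
  rw [Finset.sum_apply, map_sum]
  refine Finset.sum_congr rfl fun j _ => ?_
  rw [Pi.smul_apply, map_smul]

omit [Fintype κ] [Fintype κ'] in
private theorem X7_sum {ι : Type} [Fintype ι] (D : Fin z → Derivation K F F) (w : ι → Fin z → F)
    (c : ι → F) : ∑ i, c i • (∑ j, w i j • D j) = ∑ j, (∑ i, c i * w i j) • D j := by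
  simp only [Finset.smul_sum, Finset.sum_smul, smul_smul]
  exact Finset.sum_comm

omit [Fintype κ] in
private theorem X7_mnr (x : τ → F) (φ : κ → MvPolynomial τ K) :
    plk (jv (fun a => MvPolynomial.aeval x (φ a))
      (fun l a => MvPolynomial.aeval x (MvPolynomial.pderiv l (φ a)))) = mnr x φ := by
  funext s
  rw [plk_apply]
  unfold mnr
  congr 1
  ext i j
  cases j with
  | none => rfl
  | some j => rfl

private theorem X7_vle {G : Type*} [LinearOrderedCommGroupWithZero G] (a b p q f m : G) (n : ℕ) (hf : f ≠ 0)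
    (h1 : a * ((m ^ 2 / f ^ 2) ^ n * b) ≤ p) (h2 : b * f = f ^ n * q) :
    a * m ^ (2 * n) * f ^ n * q ≤ p * f ^ (2 * n) * f := by
  have h3 : a * m ^ (2 * n) * f ^ n * q = (a * ((m ^ 2 / f ^ 2) ^ n * b)) * f ^ (2 * n) * f := by
    have h4 : (m ^ 2 / f ^ 2) ^ n * f ^ (2 * n) = m ^ (2 * n) := by
      rw [div_pow, ← pow_mul, ← pow_mul, div_mul_cancel₀ _ (pow_ne_zero _ hf)]
    calc a * m ^ (2 * n) * f ^ n * q = a * m ^ (2 * n) * (f ^ n * q) := by rw [mul_assoc]
      _ = a * ((m ^ 2 / f ^ 2) ^ n * f ^ (2 * n)) * (b * f) := by rw [h2, h4]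
      _ = _ := by
        simp only [mul_assoc, mul_left_comm, mul_comm]
  rw [h3]
  exact mul_le_mul_left (mul_le_mul_left h1 _) _

/-- Block triangular minors, at one valuation ring `A`. -/
theorem block_ineq (D : Fin z → Derivation K F F) (x : τ → F) (φ : κ → MvPolynomial τ K)
    (hf : (fun a => MvPolynomial.aeval x (φ a)) ≠ 0) (m : κ' → F) (hm : m ≠ 0) {r : ℕ}
    (y : Fin r → Fin z → F) (hy : ∀ i l, (∑ j, y i j • D j) (x l) = 0) (d : τ → Fin z → F)
    (hd : ∀ i l, (∑ j, d i j • D j) (x l) = if l = i then 1 else 0) (A : VQ K F)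
    (hmn : ∀ c : Fin z → F, mn (fun a => MvPolynomial.aeval x (φ a)) A (∑ j, c j • D j) ≤
      mn m A (∑ j, c j • D j)) :
    nm K (plk fun i => cmb (fun j p => ps m p (D j)) (y i)) A * nm K m A ^ (2 * Fintype.card τ) *
        nm K (fun a => MvPolynomial.aeval x (φ a)) A ^ Fintype.card τ * nm K (mnr x φ) A ≤
      nm K (plk fun i => cmb (fun j p => ps m p (D j)) (Sum.elim y d i)) A *
        nm K (fun a => MvPolynomial.aeval x (φ a)) A ^ (2 * Fintype.card τ) *
          nm K (fun a => MvPolynomial.aeval x (φ a)) A := by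
  obtain ⟨f, hff⟩ : ∃ f : κ → F, f = fun a => MvPolynomial.aeval x (φ a) := ⟨_, rfl⟩
  obtain ⟨g, hg⟩ : ∃ g : τ → κ → F,
    g = fun l a => MvPolynomial.aeval x (MvPolynomial.pderiv l (φ a)) := ⟨_, rfl⟩
  have hJ : plk (jv f g) = mnr x φ := by
    rw [hff, hg]
    exact X7_mnr x φ
  rw [← hJ]
  rw [← hff] at hf hmn ⊢
  obtain ⟨a₀, ha₀, ha⟩ := nm_attain m hm A
  obtain ⟨b₀, hb₀, hb⟩ := nm_attain f hf A
  have hmne := nm_ne (k := K) m hm A
  have hfne := nm_ne (k := K) f hf A
  obtain ⟨α, hα⟩ : ∃ α : F, α = (m a₀ / f b₀) ^ 2 := ⟨_, rfl⟩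
  have hvα : A.1.valuation α = nm K m A ^ 2 / nm K f A ^ 2 := by
    rw [hα, map_pow, map_div₀, ← ha, ← hb, div_pow]
  have hPs : ∀ c : Fin z → F, A.1.valuation α * nm K (fun q => ps f q (∑ j, c j • D j)) A ≤
      nm K (fun p => ps m p (∑ j, c j • D j)) A := by
    intro c
    have h1 := hmn c
    unfold mn at h1
    rw [hvα]
    calc nm K m A ^ 2 / nm K f A ^ 2 * nm K (fun q => ps f q (∑ j, c j • D j)) A
        = nm K m A ^ 2 * (nm K (fun q => ps f q (∑ j, c j • D j)) A / nm K f A ^ 2) := by
          rw [div_mul_eq_mul_div, mul_div_assoc]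
      _ ≤ nm K m A ^ 2 * (nm K (fun p => ps m p (∑ j, c j • D j)) A / nm K m A ^ 2) :=
          mul_le_mul_right h1 _
      _ = nm K (fun p => ps m p (∑ j, c j • D j)) A := by
          rw [mul_div_cancel₀ _ (pow_ne_zero _ hmne)]
  -- the vectors X
  obtain ⟨w, hw⟩ : ∃ w : Fin r ⊕ τ → Fin z → F, w = Sum.elim y d := ⟨_, rfl⟩
  obtain ⟨X, hX⟩ : ∃ X : Fin r ⊕ τ → (κ' × κ') ⊕ (κ × κ) → F,
    X = fun i => Sum.elim (fun p => ps m p (∑ j, w i j • D j))
      (fun q => α * ps f q (∑ j, w i j • D j)) := ⟨_, rfl⟩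
  have hmono : vn A.1.valuation (plk X) ≤
      1 ^ Fintype.card (Fin r ⊕ τ) * vn A.1.valuation (plk fun i => cmb (fun j p => ps m p (D j)) (w i)) := by
    refine vn_plk_mono A.1.valuation X (fun i => cmb (fun j p => ps m p (D j)) (w i)) 1 fun c => ?_
    rw [one_mul]
    have h1 : ∑ i, c i • cmb (fun j p => ps m p (D j)) (w i) =
        fun p => ps m p (∑ j, (∑ i, c i * w i j) • D j) := by
      funext p
      rw [Finset.sum_apply, ← X7_sum, map_sum]
      refine Finset.sum_congr rfl fun i _ => ?_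
      rw [Pi.smul_apply, X7_cmb, map_smul]
    rw [h1]
    refine vn_le _ fun p => ?_
    rcases p with p | q
    · have h2 : (∑ i, c i • X i) (Sum.inl p) = ps m p (∑ j, (∑ i, c i * w i j) • D j) := by
        rw [Finset.sum_apply, ← X7_sum, map_sum]
        refine Finset.sum_congr rfl fun i _ => ?_
        rw [Pi.smul_apply, map_smul, hX]
        rfl
      rw [h2]
      exact le_vn A.1.valuation (fun p => ps m p (∑ j, (∑ i, c i * w i j) • D j)) p
    · have h2 : (∑ i, c i • X i) (Sum.inr q) = α * ps f q (∑ j, (∑ i, c i * w i j) • D j) := by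
        rw [Finset.sum_apply, ← X7_sum, map_sum, Finset.mul_sum]
        refine Finset.sum_congr rfl fun i _ => ?_
        rw [Pi.smul_apply, map_smul, hX]
        change c i • (α * ps f q (∑ j, w i j • D j)) = _
        rw [smul_eq_mul, smul_eq_mul]
        ring
      rw [h2, map_mul]
      refine le_trans (mul_le_mul_right (le_vn A.1.valuation
        (fun q => ps f q (∑ j, (∑ i, c i * w i j) • D j)) q) _) (hPs _)
  rw [one_pow, one_mul] at hmono
  -- the values of the derivations
  have hf0 : ∀ i : Fin r, ∀ a, (∑ j, w (Sum.inl i) j • D j) (f a) = 0 := by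
    intro i a
    rw [hff]
    change (∑ j, w (Sum.inl i) j • D j) (MvPolynomial.aeval x (φ a)) = 0
    rw [ABN.der_aeval]
    refine Finset.sum_eq_zero fun l _ => ?_
    have h1 : (∑ j, w (Sum.inl i) j • D j) (x l) = 0 := by
      rw [hw]
      exact hy i l
    rw [h1, mul_zero]
  have hf1 : ∀ (i : τ) (a : κ), (∑ j, w (Sum.inr i) j • D j) (f a) = g i a := by
    intro i a
    rw [hff, hg]
    change (∑ j, w (Sum.inr i) j • D j) (MvPolynomial.aeval x (φ a)) = _
    rw [ABN.der_aeval, Finset.sum_eq_single i]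
    · have h1 : (∑ j, w (Sum.inr i) j • D j) (x i) = 1 := by
        rw [hw]
        exact (hd i i).trans (if_pos rfl)
      rw [h1, mul_one]
    · intro l _ hl
      have h1 : (∑ j, w (Sum.inr i) j • D j) (x l) = 0 := by
        rw [hw]
        exact (hd i l).trans (if_neg hl)
      rw [h1, mul_zero]
    · intro h
      exact absurd (Finset.mem_univ i) h
  -- the block triangular minors
  have hblock : ∀ (s : Fin r → κ' × κ') (t : τ → κ × κ),
      plk X (Sum.elim (fun i => Sum.inl (s i)) (fun i => Sum.inr (t i))) =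
        plk (fun i => cmb (fun j p => ps m p (D j)) (y i)) s *
          (α ^ Fintype.card τ * plk (wv f g) t) := by
    intro s t
    have h1 : (Matrix.of fun i j => X j
        ((Sum.elim (fun i => Sum.inl (s i)) (fun i => Sum.inr (t i)) :
          Fin r ⊕ τ → (κ' × κ') ⊕ (κ × κ)) i)) =
        Matrix.fromBlocks (Matrix.of fun i j => cmb (fun j p => ps m p (D j)) (y j) (s i))
          (Matrix.of fun (i : Fin r) (j : τ) => X (Sum.inr j) (Sum.inl (s i))) 0
          (α • Matrix.of fun i j => wv f g j (t i)) := by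
      ext i j
      rcases i with i | i <;> rcases j with j | j
      · rw [Matrix.of_apply, Matrix.fromBlocks_apply₁₁, Matrix.of_apply, X7_cmb, hX, hw]
        rfl
      · rfl
      · rw [Matrix.of_apply, Matrix.fromBlocks_apply₂₁, hX]
        change α * ps f (t i) (∑ j', w (Sum.inl j) j' • D j') = 0
        have h2 : ps f (t i) (∑ j', w (Sum.inl j) j' • D j') = 0 := by
          change f (t i).1 * (∑ j', w (Sum.inl j) j' • D j') (f (t i).2) -
            f (t i).2 * (∑ j', w (Sum.inl j) j' • D j') (f (t i).1) = 0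
          rw [hf0, hf0, mul_zero, mul_zero, sub_zero]
        rw [h2, mul_zero]
      · rw [Matrix.of_apply, Matrix.fromBlocks_apply₂₂, hX, Matrix.smul_apply, Matrix.of_apply,
          smul_eq_mul]
        change α * ps f (t i) (∑ j', w (Sum.inr j) j' • D j') = _
        congr 1
        change f (t i).1 * (∑ j', w (Sum.inr j) j' • D j') (f (t i).2) -
          f (t i).2 * (∑ j', w (Sum.inr j) j' • D j') (f (t i).1) = _
        rw [hf1, hf1]
        rfl
    rw [plk_apply, h1, Matrix.det_fromBlocks_zero₂₁, Matrix.det_smul]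
    rfl
  have hle : nm K (plk fun i => cmb (fun j p => ps m p (D j)) (y i)) A *
      ((nm K m A ^ 2 / nm K f A ^ 2) ^ Fintype.card τ * vn A.1.valuation (plk (wv f g))) ≤
        nm K (plk fun i => cmb (fun j p => ps m p (D j)) (Sum.elim y d i)) A := by
    rw [hw] at hmono
    refine le_trans ?_ hmono
    rw [← hvα, ← map_pow, ← vn_smul]
    have h1 := vn_tensor A.1.valuation (plk fun i => cmb (fun j p => ps m p (D j)) (y i))
      (α ^ Fintype.card τ • plk (wv f g))
    refine le_trans (le_of_eq h1.symm) (vn_le _ fun p => ?_)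
    have h2 := hblock p.1 p.2
    rw [Pi.smul_apply, smul_eq_mul, ← h2]
    exact le_vn A.1.valuation (plk X) _
  exact X7_vle _ _ _ _ _ _ _ hfne hle (vn_plk_wv A.1.valuation f hf g)

/-- The height of the minors of the jets of the `φ a` at `x`, if the subspaces of the derivations have no
large degrees. -/
theorem quot_ineq (H : Ht K F) (D : Fin z → Derivation K F F) (x : τ → F) (φ : κ → MvPolynomial τ K)
    (hf : (fun a => MvPolynomial.aeval x (φ a)) ≠ 0) (hne : mnr x φ ≠ 0) (m : κ' → F) (hm : m ≠ 0)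
    (hP : LinearIndependent F fun j (p : κ' × κ') => ps m p (D j))
    (hdual : ∀ w : τ → F, ∃ c : Fin z → F, ∀ l, (∑ j, c j • D j) (x l) = w l)
    (hmn : ∀ (A : VQ K F) (c : Fin z → F), mn (fun a => MvPolynomial.aeval x (φ a)) A (∑ j, c j • D j) ≤
      mn m A (∑ j, c j • D j)) (η : ℝ)
    (hN : ∀ N : Submodule F (Fin z → F),
      Module.finrank F N * (2 * H.lam m) - pH H (fun j p => ps m p (D j)) N ≤
        z * (2 * H.lam m) - H.lam (plk fun j p => ps m p (D j)) + η) :
    H.lam (mnr x φ) ≤ (Fintype.card τ + 1) * H.lam (fun a => MvPolynomial.aeval x (φ a)) + η := by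
  classical
  have hder : ∀ (c : Fin z → F) (l : τ), (∑ j, c j • D j) (x l) = ∑ j, c j * D j (x l) := by
    intro c l
    have h1 : ∀ s : Finset (Fin z), (∑ j ∈ s, c j • D j) (x l) = ∑ j ∈ s, c j * D j (x l) := by
      intro s
      induction s using Finset.induction_on with
      | empty => rw [Finset.sum_empty, Finset.sum_empty, Derivation.coe_zero, Pi.zero_apply]
      | insert a s ha ih =>
        rw [Finset.sum_insert ha, Finset.sum_insert ha, Derivation.add_apply, ih,
          Derivation.smul_apply, smul_eq_mul]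
    exact h1 _
  let E : τ → (Fin z → F) →ₗ[F] F := fun l =>
    { toFun := fun c => ∑ j, c j * D j (x l)
      map_add' := fun a b => by simp only [Pi.add_apply, add_mul, Finset.sum_add_distrib]
      map_smul' := fun a b => by
        simp only [Pi.smul_apply, smul_eq_mul, RingHom.id_apply, Finset.mul_sum, mul_assoc] }
  have hE : ∀ l c, E l c = (∑ j, c j • D j) (x l) := fun l c => (hder c l).symm
  obtain ⟨N, hNdef⟩ : ∃ N : Submodule F (Fin z → F), ∀ c, c ∈ N ↔ ∀ l, E l c = 0 := by
    refine ⟨⨅ l, LinearMap.ker (E l), fun c => ?_⟩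
    rw [Submodule.mem_iInf]
    rfl
  obtain ⟨y, hyd⟩ : ∃ y : Fin (Module.finrank F N) → Fin z → F,
    y = fun i => ((Module.finBasis F N i : N) : Fin z → F) := ⟨_, rfl⟩
  have hyN : ∀ i, y i ∈ N := by
    intro i
    rw [hyd]
    exact (Module.finBasis F N i).2
  have hy : ∀ i l, (∑ j, y i j • D j) (x l) = 0 := fun i l => by
    rw [← hE]
    exact (hNdef _).1 (hyN i) l
  choose d hd using fun i : τ => hdual (fun l => if l = i then 1 else 0)
  have hyli : LinearIndependent F y := by
    rw [hyd]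
    exact (Module.finBasis F N).linearIndependent.map' N.subtype (Submodule.ker_subtype N)
  have hspan : ∀ c ∈ N, c ∈ Submodule.span F (Set.range y) := by
    intro c hc
    have h1 := (Module.finBasis F N).sum_repr ⟨c, hc⟩
    have h2 := congrArg (fun t : N => (t : Fin z → F)) h1
    have h3 : c = ∑ i, (Module.finBasis F N).repr ⟨c, hc⟩ i • y i := by
      rw [hyd]
      refine h2.symm.trans ?_
      change N.subtype (∑ i, (Module.finBasis F N).repr ⟨c, hc⟩ i • Module.finBasis F N i) = _
      rw [map_sum]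
      rfl
    rw [h3]
    exact Submodule.sum_mem _ fun i _ => Submodule.smul_mem _ _ (Submodule.subset_span ⟨i, rfl⟩)
  have hli : LinearIndependent F (Sum.elim y d) := by
    rw [Fintype.linearIndependent_iff]
    intro g hg
    have h0 : ∀ l, g (Sum.inr l) = 0 := by
      intro l
      have h1 := congrArg (E l) hg
      rw [map_sum, map_zero, Fintype.sum_sum_type] at h1
      have h2 : ∑ i : Fin (Module.finrank F N), E l (g (Sum.inl i) • Sum.elim y d (Sum.inl i)) = 0 := by
        refine Finset.sum_eq_zero fun i _ => ?_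
        rw [map_smul, hE]
        change g (Sum.inl i) • (∑ j, y i j • D j) (x l) = 0
        rw [hy, smul_zero]
      have h3 : ∑ i : τ, E l (g (Sum.inr i) • Sum.elim y d (Sum.inr i)) = g (Sum.inr l) := by
        rw [Finset.sum_eq_single l]
        · rw [map_smul, hE]
          change g (Sum.inr l) • (∑ j, d l j • D j) (x l) = _
          rw [hd, if_pos rfl, smul_eq_mul, mul_one]
        · intro i _ hi
          rw [map_smul, hE]
          change g (Sum.inr i) • (∑ j, d i j • D j) (x l) = _
          rw [hd, if_neg (Ne.symm hi), smul_zero]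
        · intro h
          exact absurd (Finset.mem_univ l) h
      rw [h2, h3, zero_add] at h1
      exact h1
    rw [Fintype.sum_sum_type] at hg
    have h1 : ∑ i : τ, g (Sum.inr i) • Sum.elim y d (Sum.inr i) = 0 :=
      Finset.sum_eq_zero fun i _ => by rw [h0, zero_smul]
    rw [h1, add_zero] at hg
    have h2 := Fintype.linearIndependent_iff.1 hyli (fun i => g (Sum.inl i)) hg
    rintro (i | i)
    · exact h2 i
    · exact h0 i
  have htop : Submodule.span F (Set.range (Sum.elim y d)) = ⊤ := by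
    rw [eq_top_iff]
    intro c _
    have h1 : c - ∑ l, E l c • d l ∈ N := by
      rw [hNdef]
      intro l
      rw [map_sub, map_sum, Finset.sum_eq_single l]
      · rw [map_smul, hE l (d l), hd, if_pos rfl, smul_eq_mul, mul_one, sub_self]
      · intro i _ hi
        rw [map_smul, hE l (d i), hd, if_neg (Ne.symm hi), smul_zero]
      · intro h
        exact absurd (Finset.mem_univ l) h
    have h2 : Set.range y ⊆ Set.range (Sum.elim y d) := by
      rintro _ ⟨i, rfl⟩
      exact ⟨Sum.inl i, rfl⟩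
    have h3 := Submodule.span_mono h2 (hspan _ h1)
    have h4 : ∑ l, E l c • d l ∈ Submodule.span F (Set.range (Sum.elim y d)) :=
      Submodule.sum_mem _ fun l _ => Submodule.smul_mem _ _ (Submodule.subset_span ⟨Sum.inr l, rfl⟩)
    have h5 : c = (c - ∑ l, E l c • d l) + ∑ l, E l c • d l := (sub_add_cancel _ _).symm
    rw [h5]
    exact Submodule.add_mem _ h3 h4
  have hcard : (z : ℝ) = Module.finrank F N + Fintype.card τ := by
    have h1 := finrank_span_eq_card hli
    rw [htop, finrank_top, Module.finrank_fin_fun, Fintype.card_sum, Fintype.card_fin] at h1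
    exact_mod_cast h1
  have hyd' := pH_eq H hP hli
  rw [htop, pH_top H hP] at hyd'
  have hyN' : H.lam (plk fun i => cmb (fun j p => ps m p (D j)) (y i)) =
      pH H (fun j p => ps m p (D j)) N := by
    rw [hyd]
    rfl
  have hn1 : (plk fun i => cmb (fun j (p : κ' × κ') => ps m p (D j)) (y i)) ≠ 0 :=
    plk_ne_zero _ (cmb_li hP hyli)
  have hn2 : (plk fun i => cmb (fun j (p : κ' × κ') => ps m p (D j)) (Sum.elim y d i)) ≠ 0 :=
    plk_ne_zero _ (cmb_li hP hli)
  have L1 := Lm_mul (Lm_mul (Lm_mul (Lm_fam (H := H) _ hn1) (Lm_fam_pow (H := H) m hm (2 * Fintype.card τ)))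
    (Lm_fam_pow (H := H) _ hf (Fintype.card τ))) (Lm_fam (H := H) _ hne)
  have L2 := Lm_mul (Lm_mul (Lm_fam (H := H) _ hn2) (Lm_fam_pow (H := H) _ hf (2 * Fintype.card τ)))
    (Lm_fam (H := H) _ hf)
  have h1 := Lm_mono L1 L2 fun A => block_ineq D x φ hf m hm y hy d hd A (hmn A)
  rw [hyN', hyd'] at h1
  have h2 := hN N
  rw [hcard] at h2
  push_cast at h1
  linarith

end Pool.Agent.Lib.MP_17a322_nt.FQ
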