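import Pool.Agent.Lib.MP_17a322_nt.FQ.X3
import Pool.Agent.Lib.MP_17a322_nt.FQ.X5
import Pool.Agent.Lib.MP_17a322_nt.FQ.X6
import Pool.Agent.Lib.MP_17a322_nt.FQ.X7
import Pool.Agent.Lib.MP_17a322_nt.FQ.H4

/-!
The descent of the inequality from `ℚ` to a Galois extension.
-/

universe u v

namespace Pool.Agent.Lib.MP_17a322_nt.FQ

open Pool.Agent.Lib.MP_17a322_nt.JAC (mnr jet)

section

variable {k : Type v} {E : Type u} [Field k] [Field E] [Algebra k E]
  [FiniteDimensional E (Derivation k E E)] {κ : Type} [Fintype κ]

omit [FiniteDimensional E (Derivation k E E)] [Fintype κ] in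
/-- The vectors of the values of the functionals of a model are linearly independent. -/
private lemma X8_li (m : κ → E) (hm : IsMd k m) {z : ℕ} (D : Fin z → Derivation k E E)
    (hD : LinearIndependent E D) : LinearIndependent E fun j (p : κ × κ) => ps m p (D j) := by
  have h1 : LinearMap.ker (LinearMap.pi fun p : κ × κ => ps (k := k) m p) = ⊥ := by
    rw [LinearMap.ker_eq_bot']
    intro v hv
    refine hm.2 v fun p => ?_
    exact congrFun hv p
  exact hD.map' _ h1

/-- The degree in terms of the heights of the minors. -/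
theorem dg_pH (H : Ht k E) (m : κ → E) (hm : IsMd k m) {z : ℕ} (D : Fin z → Derivation k E E)
    (hD : LinearIndependent E D) (L : Submodule E (Fin z → E)) :
    dg H m (L.map (Fintype.linearCombination E D)) =
      Module.finrank E L * (2 * H.lam m) - pH H (fun j p => ps m p (D j)) L := by
  classical
  set y : Fin (Module.finrank E L) → Fin z → E := fun i => ((Module.finBasis E L i : L) : Fin z → E) with hy0
  have hP := X8_li m hm D hD
  have hy : LinearIndependent E y :=
    (Module.finBasis E L).linearIndependent.map' L.subtype L.ker_subtype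
  have hinj : LinearMap.ker (Fintype.linearCombination E D) = ⊥ := by
    rw [LinearMap.ker_eq_bot']
    intro c hc
    rw [Fintype.linearCombination_apply] at hc
    funext j
    exact (Fintype.linearIndependent_iff.mp hD) c hc j
  set v : Fin (Module.finrank E L) → Derivation k E E :=
    fun i => Fintype.linearCombination E D (y i) with hv0
  have hv : LinearIndependent E v := hy.map' _ hinj
  have hspan : Submodule.span E (Set.range v) = L.map (Fintype.linearCombination E D) := by
    have h1 : Submodule.span E (Set.range y) = L := by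
      have h2 : Set.range y = L.subtype '' Set.range (Module.finBasis E L) := by
        rw [← Set.range_comp]
        rfl
      rw [h2, ← Submodule.map_span, (Module.finBasis E L).span_eq, Submodule.map_top, Submodule.range_subtype]
    have h3 : Set.range v = (Fintype.linearCombination E D) '' Set.range y := by
      rw [← Set.range_comp]
      rfl
    rw [h3, ← Submodule.map_span, h1]
  have h1 := dv_dg H m hm v hv
  rw [hspan] at h1
  have hS : (plk fun i => cmb (fun j (p : κ × κ) => ps m p (D j)) (y i)) ≠ 0 :=
    plk_ne_zero _ (cmb_li hP hy)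
  have h2 : Lm H (dv m v) (H.lam (plk fun i => cmb (fun j (p : κ × κ) => ps m p (D j)) (y i)) -
      ((2 * Fintype.card (Fin (Module.finrank E L)) : ℕ) : ℝ) * H.lam m) := by
    have h3 := Lm_div (Lm_fam (H := H) _ hS) (Lm_fam_pow (H := H) m hm.1 (2 * Fintype.card (Fin (Module.finrank E L))))
    have h4 : (fun A => nm k (plk fun i => cmb (fun j (p : κ × κ) => ps m p (D j)) (y i)) A /
        nm k m A ^ (2 * Fintype.card (Fin (Module.finrank E L)))) = dv m v := by
      funext A
      have h5 : (plk fun i => cmb (fun j (p : κ × κ) => ps m p (D j)) (y i)) =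
          fun s : Fin (Module.finrank E L) → κ × κ => (Matrix.of fun i j => ps m (s i) (v j)).det := by
        funext I
        rw [plk_apply]
        refine congrArg Matrix.det ?_
        ext a b
        simp only [Matrix.of_apply, cmb, hv0, Fintype.linearCombination_apply, map_sum, map_smul,
          Finset.sum_apply, Pi.smul_apply]
      unfold dv
      rw [h5]
    rw [h4] at h3
    exact h3
  have h6 := Lm_uniq h1 h2
  have h7 : pH H (fun j (p : κ × κ) => ps m p (D j)) L =
      H.lam (plk fun i => cmb (fun j (p : κ × κ) => ps m p (D j)) (y i)) := rfl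
  rw [h7]
  rw [Fintype.card_fin] at h6
  push_cast at h6
  linarith

end

section

/-- The conclusion of the theorem on the slopes: for every model there is a finer one for which no
subspace has a degree which is larger than the degree of the space of all derivations plus `η`. -/
def Semi {E : Type u} [Field E] [Algebra ℚ E] [FiniteDimensional E (Derivation ℚ E E)] (H : Ht ℚ E) :
    Prop :=
  ∀ {κ : Type} [Fintype κ] (m : κ → E), IsMd ℚ m → ∀ η : ℝ, 0 < η →
    ∃ (κ' : Type) (_ : Fintype κ') (m' : κ' → E), IsMd ℚ m' ∧ Fi ℚ m m' ∧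
      ∀ L, dg H m' L ≤ dg H m' ⊤ + η

variable {K : Type v} {E : Type u} {F : Type v} [Field K] [NumberField K] [IsGalois ℚ K] [Field E]
  [Algebra ℚ E] [Field F] [Algebra K F] [Algebra E F] [FiniteDimensional E (Derivation ℚ E E)]

/-- THE ASSEMBLY: the inequality for the jets of polynomials over `K` at `x` follows from the inequality
of the slopes over `E`. -/
theorem descent_main {m : ℕ} (ω : Module.Basis (Fin m) ℚ K) (b : Module.Basis (Fin m) E F)
    (hb : ∀ i, b i = algebraMap K F (ω i)) (s : (K ≃ₐ[ℚ] K) →* (F ≃ₐ[E] F))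
    (hs : ∀ σ c, s σ (algebraMap K F c) = algebraMap K F (σ c))
    (H : Ht ℚ E) (HF : Ht K F) (mm : ℝ) (hmm : 0 < mm)
    (hm : ∀ {κ' : Type} [Fintype κ'] (S : κ' → E), S ≠ 0 →
      HF.lam (fun a => algebraMap E F (S a)) = mm * H.lam S)
    (hinv : ∀ {κ' : Type} [Fintype κ'] (σ : K ≃ₐ[ℚ] K) (S : κ' → F), S ≠ 0 →
      HF.lam (fun a => s σ (S a)) = HF.lam S)
    {κ₁ : Type} [Fintype κ₁] (m₁ : κ₁ → E) (hm₁ : IsMd ℚ m₁) (hst : Semi H)
    {κ τ : Type} [Fintype κ] [Fintype τ] [DecidableEq τ] (x : τ → F) (hx : AlgebraicIndependent K x)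
    (φ : κ → MvPolynomial τ K) (hne : mnr x φ ≠ 0) :
    HF.lam (mnr x φ) ≤ (Fintype.card τ + 1) * HF.lam (fun a => MvPolynomial.aeval x (φ a)) := by
  classical
  have : CharZero F := charZero_of_injective_algebraMap (algebraMap K F).injective
  have hf : (fun a => MvPolynomial.aeval x (φ a)) ≠ 0 := by
    intro h0
    refine hne ?_
    funext t
    refine Matrix.det_eq_zero_of_column_eq_zero none fun i => ?_
    exact congrFun h0 (t i)
  obtain ⟨κ₀, _, m₀, hm₀, hmod⟩ := exists_model ω b hb s hs (fun a => MvPolynomial.aeval x (φ a)) hf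
  have hm₂ : IsMd ℚ (tn m₁ m₀) := IsMd_tn m₁ m₀ hm₁ hm₀
  have halg : ∀ {κ₂ : Type} (g : κ₂ → E), g ≠ 0 → (fun a => algebraMap E F (g a)) ≠ 0 := by
    intro κ₂ g hg h0
    refine hg ?_
    funext a
    exact (map_eq_zero (algebraMap E F)).mp (congrFun h0 a)
  have key : ∀ η : ℝ, 0 < η → HF.lam (mnr x φ) ≤
      (Fintype.card τ + 1) * HF.lam (fun a => MvPolynomial.aeval x (φ a)) + mm * η := by
    intro η hη
    obtain ⟨κ', _, m', hm', hfi, hL⟩ := hst (tn m₁ m₀) hm₂ η hη
    set D : Fin (Module.finrank E (Derivation ℚ E E)) → Derivation ℚ E E :=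
      fun j => Module.finBasis E (Derivation ℚ E E) j with hD0
    have hD : LinearIndependent E D := (Module.finBasis E (Derivation ℚ E E)).linearIndependent
    have hDs : Submodule.span E (Set.range D) = ⊤ := (Module.finBasis E (Derivation ℚ E E)).span_eq
    choose D' hD' using fun j => exists_ext ω b hb (D j)
    have hmn : ∀ (A : VQ K F) (c : Fin (Module.finrank E (Derivation ℚ E E)) → F),
        mn (fun a => MvPolynomial.aeval x (φ a)) A (∑ j, c j • D' j) ≤
          mn (fun a => algebraMap E F (m' a)) A (∑ j, c j • D' j) := by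
      intro A c
      refine le_trans (hmod A _) (le_trans ?_ (fi_ext D hD D' hD' (tn m₁ m₀) m' hm₂ hm' hfi A c))
      have h1 : (fun a => algebraMap E F (tn m₁ m₀ a)) =
          tn (fun a => algebraMap E F (m₁ a)) (fun a => algebraMap E F (m₀ a)) := by
        funext a
        simp only [tn, map_mul]
      rw [h1, mn_tn _ _ (halg m₁ hm₁.1) (halg m₀ hm₀) A]
      exact le_max_right _ _
    have hP := X8_li m' hm' D hD
    have hPF : (fun j (p : κ' × κ') => algebraMap E F (ps m' p (D j))) =
        fun j (p : κ' × κ') => ps (fun a => algebraMap E F (m' a)) p (D' j) := by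
      funext j p
      exact (ps_ext m' (D j) (D' j) (hD' j) p).symm
    have hQ : ∀ L : Submodule E (Fin (Module.finrank E (Derivation ℚ E E)) → E),
        Module.finrank E L * (2 * H.lam m') - pH H (fun j (p : κ' × κ') => ps m' p (D j)) L ≤
          (Module.finrank E (Derivation ℚ E E) : ℕ) * (2 * H.lam m') -
            H.lam (plk fun j (p : κ' × κ') => ps m' p (D j)) + η := by
      intro L
      have h1 := dg_pH H m' hm' D hD L
      have h2 := dg_pH H m' hm' D hD ⊤
      have h3 : (⊤ : Submodule E (Fin (Module.finrank E (Derivation ℚ E E)) → E)).map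
          (Fintype.linearCombination E D) = ⊤ := by
        rw [Submodule.map_top, Fintype.range_linearCombination, hDs]
      rw [h3, pH_top H hP, finrank_top, Module.finrank_fin_fun] at h2
      have h4 := hL (L.map (Fintype.linearCombination E D))
      rw [h1, h2] at h4
      exact h4
    have hN : ∀ N : Submodule F (Fin (Module.finrank E (Derivation ℚ E E)) → F),
        Module.finrank F N * (2 * HF.lam fun a => algebraMap E F (m' a)) -
            pH HF (fun j (p : κ' × κ') => ps (fun a => algebraMap E F (m' a)) p (D' j)) N ≤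
          (Module.finrank E (Derivation ℚ E E) : ℕ) * (2 * HF.lam fun a => algebraMap E F (m' a)) -
            HF.lam (plk fun j (p : κ' × κ') => ps (fun a => algebraMap E F (m' a)) p (D' j)) + mm * η := by
      intro N
      let e : Shrink.{0} (K ≃ₐ[ℚ] K) ≃* (K ≃ₐ[ℚ] K) := Shrink.mulEquiv
      have : Fintype (Shrink.{0} (K ≃ₐ[ℚ] K)) := Fintype.ofEquiv _ e.symm.toEquiv
      have h1 := descent (s.comp e.toMonoidHom) (fun t ht => fixed_mem ω b hb s hs t fun σ => by
        have h2 := ht (e.symm σ)
        have h3 : (s.comp e.toMonoidHom) (e.symm σ) = s σ := by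
          rw [MonoidHom.comp_apply]
          exact congrArg s (e.apply_symm_apply σ)
        rw [h3] at h2
        exact h2) H HF mm hmm hm (fun σ S hS => hinv (e σ) S hS) hP (2 * H.lam m') η hQ N
      rw [hPF] at h1
      have h4 : HF.lam (fun a => algebraMap E F (m' a)) = mm * H.lam m' := hm m' hm'.1
      rw [h4]
      have h5 : 2 * (mm * H.lam m') = mm * (2 * H.lam m') := by ring
      rw [h5]
      exact h1
    have hPF' : LinearIndependent F fun j (p : κ' × κ') => ps (fun a => algebraMap E F (m' a)) p (D' j) := by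
      rw [← hPF]
      exact li_algebraMap hP
    have hdual : ∀ w : τ → F, ∃ c : Fin (Module.finrank E (Derivation ℚ E E)) → F,
        ∀ l, (∑ j, c j • D' j) (x l) = w l := by
      intro w
      obtain ⟨δ, hδ⟩ := ABN.der_of_indep hx w
      obtain ⟨c, hc⟩ := ext_span ω b hb D hDs.ge D' hD' δ
      refine ⟨c, fun l => ?_⟩
      rw [← hc]
      exact hδ l
    exact quot_ineq HF D' x φ hf hne (fun a => algebraMap E F (m' a)) (halg m' hm'.1) hPF' hdual hmn
      (mm * η) hN
  refine le_of_forall_pos_le_add fun ε hε => ?_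
  have h1 := key (ε / mm) (div_pos hε hmm)
  rw [mul_div_cancel₀ ε hmm.ne'] at h1
  exact h1

end

end Pool.Agent.Lib.MP_17a322_nt.FQ
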